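import Pool.Agent.Lib.H17S.MB

set_option autoImplicit false

/-!
Chunk MJ (M). The functions `num`, `betam`, `kapm` on `Om3`.
Continuity: on the subtype `Om3` the integrands, with `x` replaced by its projection to `[0,1]` (`Set.projIcc` or `min (max x 0) 1`; this does not change the integral over `[0,1]`), are jointly continuous (`wm_cont`, `Gx_pos`);
`intervalIntegral.continuous_parametric_intervalIntegral_of_continuous'`.
`kapm_X`: `kapm = - 2 P ∫_0^1 j(X, x) dx`, `j = X w/(√G (1 + √G))`. For `x ∈ (0,1]`: `x² w X = 1 - G`, so `j = x^(-2) (1/√G - 1)` and `∂j/∂X = w/(2 √G³)`; the same is true for `x = 0` (`G = 1`), or compute `∂j/∂X` directly: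
`w/(√G(1+√G)) + X w (x² w) (1 + 2√G)/(2 √G³ (1+√G)²)` and simplify with `X x² w = 1 - G = (1 - √G)(1 + √G)`. Differentiate under the integral (`intervalIntegral.hasDerivAt_integral_of_dominated_loc_of_deriv_le`; bound: for `Y` in a small
closed interval around `X` contained in `(-∞, Xc)` the derivative is bounded by `Gx_ge` and continuity). So `d kapm/dX = - 2 P ∫ w/(2 √G³) = - num/2`.
`kapm_zero`, `betam_zero`: `X = 0`. `num_zero`: at `X = 0` `Gx = 1`, `∫_0^1 w dx = 1/(2 P²)`: antiderivative `(x - c x²)/(P² + N² x²)` with `c = (P² - N²)/(2 P²)` (`mm P N / P`).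
`num_ge`: `X >= 0`: `Gx <= 1`, so the integrand is `>= w`. `betam_le`: the integral is `>= 0`.
-/

open MeasureTheory Filter Topology Set

namespace H17S

/-- Continuity of a parametric integral over `[0,1]`. -/
theorem mj_par {Ω : Type*} [TopologicalSpace Ω] [FirstCountableTopology Ω] {U : Set Ω} {f : Ω → ℝ → ℝ}
    (hf : ContinuousOn (fun p : Ω × ℝ => f p.1 p.2) (U ×ˢ Icc 0 1)) :
    ContinuousOn (fun p => ∫ x in (0 : ℝ)..1, f p x) U := by
  rw [continuousOn_iff_continuous_domRestrict]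
  have h1 : Continuous (Function.uncurry (fun (p : U) (x : ℝ) => f p (projIcc (0 : ℝ) 1 zero_le_one x))) := by
    refine hf.comp_continuous (f := fun q : U × ℝ => ((q.1 : Ω), ((projIcc (0 : ℝ) 1 zero_le_one q.2 : Icc (0 : ℝ) 1) : ℝ))) ?_ ?_
    · exact (continuous_subtype_val.comp continuous_fst).prodMk
        (continuous_subtype_val.comp (continuous_projIcc.comp continuous_snd))
    · intro q
      exact ⟨q.1.2, (projIcc (0 : ℝ) 1 zero_le_one q.2).2⟩
  have h2 := intervalIntegral.continuous_parametric_intervalIntegral_of_continuous' (μ := volume) h1 0 1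
  have h3 : U.domRestrict (fun p => ∫ x in (0 : ℝ)..1, f p x) =
      fun p : U => ∫ x in (0 : ℝ)..1, f p (projIcc (0 : ℝ) 1 zero_le_one x) := by
    funext p
    rw [Set.domRestrict_apply]
    refine intervalIntegral.integral_congr fun x hx => ?_
    rw [uIcc_of_le zero_le_one] at hx
    show f p x = f p (projIcc (0 : ℝ) 1 zero_le_one x)
    rw [projIcc_of_mem zero_le_one hx]
  rw [h3]
  exact h2

theorem mj_w : ContinuousOn (fun p : (ℝ × ℝ × ℝ) × ℝ => wm p.1.1 p.1.2.1 p.2) (Om3 ×ˢ Icc 0 1) :=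
  wm_cont.comp (f := fun p : (ℝ × ℝ × ℝ) × ℝ => ((p.1.1, p.1.2.1), p.2)) (by fun_prop) (fun _ hp => hp.1.1)

theorem mj_G : ContinuousOn (fun p : (ℝ × ℝ × ℝ) × ℝ => Gx p.1.1 p.1.2.1 p.1.2.2 p.2) (Om3 ×ˢ Icc 0 1) := by
  unfold Gx
  refine continuousOn_const.sub (ContinuousOn.mul (by fun_prop) (ContinuousOn.mul (by fun_prop) mj_w))

theorem mj_q : ContinuousOn (fun p : (ℝ × ℝ × ℝ) × ℝ => √(Gx p.1.1 p.1.2.1 p.1.2.2 p.2)) (Om3 ×ˢ Icc 0 1) :=
  mj_G.sqrt

theorem mj_q_pos {P N X x : ℝ} (hP : 0 < P) (hX : X < Xc P N) (hx : x ∈ Icc (0 : ℝ) 1) : 0 < √(Gx P N X x) :=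
  Real.sqrt_pos.2 (Gx_pos hP hX hx)

theorem mj_A : ContinuousOn (fun p : (ℝ × ℝ × ℝ) × ℝ => wm p.1.1 p.1.2.1 p.2 /
    (√(Gx p.1.1 p.1.2.1 p.1.2.2 p.2) * (1 + √(Gx p.1.1 p.1.2.1 p.1.2.2 p.2)))) (Om3 ×ˢ Icc 0 1) := by
  refine mj_w.div (mj_q.mul (continuousOn_const.add mj_q)) fun p hp => ?_
  have h1 := mj_q_pos hp.1.1 hp.1.2 hp.2
  positivity

theorem mj_B : ContinuousOn (fun p : (ℝ × ℝ × ℝ) × ℝ => wm p.1.1 p.1.2.1 p.2 /
    √(Gx p.1.1 p.1.2.1 p.1.2.2 p.2) ^ 3) (Om3 ×ˢ Icc 0 1) := by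
  refine mj_w.div (mj_q.pow 3) fun p hp => ?_
  have h1 := mj_q_pos hp.1.1 hp.1.2 hp.2
  positivity

theorem mj_sec {f : (ℝ × ℝ × ℝ) × ℝ → ℝ} (hf : ContinuousOn f (Om3 ×ˢ Icc 0 1)) {P N X : ℝ} (hP : 0 < P) (hX : X < Xc P N) :
    ContinuousOn (fun x => f ((P, N, X), x)) (Icc 0 1) :=
  hf.comp (f := fun x : ℝ => (((P, N, X) : ℝ × ℝ × ℝ), x)) (by fun_prop) (fun _ hx => ⟨⟨hP, hX⟩, hx⟩)

theorem mj_int {f : ℝ → ℝ} (hf : ContinuousOn f (Icc 0 1)) : IntervalIntegrable f volume 0 1 := by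
  apply ContinuousOn.intervalIntegrable
  rwa [uIcc_of_le zero_le_one]

theorem num_cont : ContinuousOn (fun p : ℝ × ℝ × ℝ => num p.1 p.2.1 p.2.2) Om3 := by
  unfold num
  refine ContinuousOn.mul (by fun_prop) ?_
  exact mj_par (f := fun (p : ℝ × ℝ × ℝ) (x : ℝ) => wm p.1 p.2.1 x / √(Gx p.1 p.2.1 p.2.2 x) ^ 3) mj_B

theorem betam_cont : ContinuousOn (fun p : ℝ × ℝ × ℝ => betam p.1 p.2.1 p.2.2) Om3 := by
  unfold betam
  refine ContinuousOn.sub (by fun_prop) (ContinuousOn.mul (by fun_prop) ?_)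
  exact mj_par (f := fun (p : ℝ × ℝ × ℝ) (x : ℝ) => wm p.1 p.2.1 x / (√(Gx p.1 p.2.1 p.2.2 x) * (1 + √(Gx p.1 p.2.1 p.2.2 x)))) mj_A

/-- The derivative of the integrand of `κ`. -/
theorem mj_der {P N X x : ℝ} (hP : 0 < P) (hX : X < Xc P N) (hx : x ∈ Icc (0 : ℝ) 1) :
    HasDerivAt (fun Y => Y * (wm P N x / (√(Gx P N Y x) * (1 + √(Gx P N Y x))))) (wm P N x / √(Gx P N X x) ^ 3 / 2) X := by
  have hG := Gx_pos hP hX hx
  have hq := mj_q_pos hP hX hx
  have hs : √(Gx P N X x) ^ 2 = Gx P N X x := Real.sq_sqrt hG.le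
  have e1 : HasDerivAt (fun Y => Gx P N Y x) (-(x ^ 2 * wm P N x)) X := by
    unfold Gx
    have := ((hasDerivAt_id X).mul_const (x ^ 2 * wm P N x)).const_sub 1
    simpa using this
  have e2 := e1.sqrt hG.ne'
  have e3 := e2.mul (e2.const_add 1)
  have hne : √(Gx P N X x) * (1 + √(Gx P N X x)) ≠ 0 := by positivity
  have e4 := (hasDerivAt_id X).mul ((hasDerivAt_const X (wm P N x)).div e3 hne)
  refine e4.congr_deriv ?_
  have hXa : X * (x ^ 2 * wm P N x) = 1 - √(Gx P N X x) ^ 2 := by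
    rw [hs]
    unfold Gx
    ring
  simp only [Pi.mul_apply, Pi.div_apply, id]
  generalize √(Gx P N X x) = q at hq hXa ⊢
  generalize wm P N x = w at hXa ⊢
  field_simp
  linear_combination (w * (1 + 2 * q)) * hXa

theorem mj_der2 {P N X : ℝ} (hP : 0 < P) (hX : X < Xc P N) :
    HasDerivAt (fun Y => ∫ x in (0 : ℝ)..1, Y * (wm P N x / (√(Gx P N Y x) * (1 + √(Gx P N Y x)))))
      (∫ x in (0 : ℝ)..1, wm P N x / √(Gx P N X x) ^ 3 / 2) X := by
  obtain ⟨δ, hδ, hsub⟩ : ∃ δ > 0, X + δ < Xc P N := ⟨(Xc P N - X) / 2, by linarith, by linarith⟩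
  have hY : ∀ Y ∈ Icc (X - δ) (X + δ), Y < Xc P N := fun Y hY => hY.2.trans_lt hsub
  have hBc : ContinuousOn (fun p : ℝ × ℝ => wm P N p.2 / √(Gx P N p.1 p.2) ^ 3 / 2) (Icc (X - δ) (X + δ) ×ˢ Icc 0 1) := by
    refine ContinuousOn.div_const ?_ 2
    exact mj_B.comp (f := fun p : ℝ × ℝ => (((P, N, p.1) : ℝ × ℝ × ℝ), p.2)) (by fun_prop)
      (fun p hp => ⟨⟨hP, hY _ hp.1⟩, hp.2⟩)
  obtain ⟨C, hC⟩ := (isCompact_Icc.prod isCompact_Icc).exists_bound_of_continuousOn hBc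
  have hs : Icc (X - δ) (X + δ) ∈ 𝓝 X := Icc_mem_nhds (by linarith) (by linarith)
  have hA : ∀ Y ∈ Icc (X - δ) (X + δ), ContinuousOn (fun x => Y * (wm P N x / (√(Gx P N Y x) * (1 + √(Gx P N Y x))))) (Icc 0 1) :=
    fun Y h => continuousOn_const.mul (mj_sec mj_A hP (hY Y h))
  have hsubI : uIoc (0 : ℝ) 1 ⊆ Icc 0 1 := by
    rw [uIoc_of_le zero_le_one]
    exact Ioc_subset_Icc_self
  refine (intervalIntegral.hasDerivAt_integral_of_dominated_loc_of_deriv_le (μ := volume)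
    (F := fun Y x => Y * (wm P N x / (√(Gx P N Y x) * (1 + √(Gx P N Y x)))))
    (F' := fun Y x => wm P N x / √(Gx P N Y x) ^ 3 / 2)
    (bound := fun _ => C) hs ?_ ?_ ?_ ?_ ?_ ?_).2
  · filter_upwards [hs] with Y h
    exact ((hA Y h).mono hsubI).aestronglyMeasurable measurableSet_uIoc
  · exact mj_int (hA X (mem_of_mem_nhds hs))
  · exact (((mj_sec mj_B hP hX).div_const 2).mono hsubI).aestronglyMeasurable measurableSet_uIoc
  · exact Eventually.of_forall fun x hx Y h => hC (Y, x) ⟨h, hsubI hx⟩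
  · exact intervalIntegrable_const
  · exact Eventually.of_forall fun x hx Y h => mj_der hP (hY Y h) (hsubI hx)

theorem kapm_X {P N X : ℝ} (hP : 0 < P) (hX : X < Xc P N) : HasDerivAt (kapm P N) (- num P N X / 2) X := by
  have h1 := (mj_der2 hP hX).const_mul (-(2 * P))
  have h2 : (fun Y => -(2 * P) * ∫ x in (0 : ℝ)..1, Y * (wm P N x / (√(Gx P N Y x) * (1 + √(Gx P N Y x))))) = kapm P N := by
    funext Y
    rw [intervalIntegral.integral_const_mul]
    unfold kapm betam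
    ring
  rw [h2] at h1
  refine h1.congr_deriv ?_
  rw [intervalIntegral.integral_div]
  unfold num
  ring

theorem betam_zero (P N : ℝ) : betam P N 0 = P := by
  unfold betam
  ring

theorem kapm_zero (P N : ℝ) : kapm P N 0 = 0 := by
  unfold kapm
  rw [betam_zero]
  ring

theorem mj_wint {P N : ℝ} (hP : 0 < P) : ∫ x in (0 : ℝ)..1, wm P N x = 1 / (2 * P ^ 2) := by
  have h1 : ∀ x ∈ uIcc (0 : ℝ) 1, HasDerivAt (fun x : ℝ => (x - (P ^ 2 - N ^ 2) / (2 * P ^ 2) * x ^ 2) / (P ^ 2 + N ^ 2 * x ^ 2))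
      (wm P N x) x := by
    intro x _
    have hD := (ma_den_pos (N := N) (x := x) hP).ne'
    have a1 : HasDerivAt (fun x : ℝ => x - (P ^ 2 - N ^ 2) / (2 * P ^ 2) * x ^ 2) (1 - (P ^ 2 - N ^ 2) / (2 * P ^ 2) * (2 * x)) x := by
      have := (hasDerivAt_id' x).fun_sub ((hasDerivAt_pow 2 x).const_mul ((P ^ 2 - N ^ 2) / (2 * P ^ 2)))
      simpa using this
    have a2 : HasDerivAt (fun x : ℝ => P ^ 2 + N ^ 2 * x ^ 2) (N ^ 2 * (2 * x)) x := by
      have := ((hasDerivAt_pow 2 x).const_mul (N ^ 2)).const_add (P ^ 2)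
      simpa using this
    refine (a1.div a2 hD).congr_deriv ?_
    unfold wm
    congr 1
    field_simp
    ring
  rw [intervalIntegral.integral_eq_sub_of_hasDerivAt h1]
  · have hD : P ^ 2 + N ^ 2 ≠ 0 := by positivity
    field_simp
    ring
  · have := mj_int (mj_sec mj_w hP (X := 0) (N := N) (Xc_pos N hP))
    exact this

theorem num_zero {P N : ℝ} (hP : 0 < P) : num P N 0 = 1 / P := by
  unfold num
  have h1 : ∀ x : ℝ, wm P N x / √(Gx P N 0 x) ^ 3 = wm P N x := by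
    intro x
    have : Gx P N 0 x = 1 := by
      unfold Gx
      ring
    rw [this, Real.sqrt_one]
    simp
  simp only [h1]
  rw [mj_wint hP]
  field_simp

theorem num_pos {P N X : ℝ} (hP : 0 < P) (hX : X < Xc P N) : 0 < num P N X := by
  unfold num
  refine mul_pos (by positivity) ?_
  refine intervalIntegral.intervalIntegral_pos_of_pos_on (mj_int (mj_sec mj_B hP hX)) (fun x hx => ?_) one_pos
  exact div_pos (wm_pos hP hx.1.le hx.2) (pow_pos (mj_q_pos hP hX (Ioo_subset_Icc_self hx)) 3)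

theorem num_ge {P N X : ℝ} (hP : 0 < P) (h0 : 0 ≤ X) (hX : X < Xc P N) : 1 / P ≤ num P N X := by
  have h1 : 1 / P = 2 * P * (1 / (2 * P ^ 2)) := by
    field_simp
  unfold num
  rw [h1, ← mj_wint (N := N) hP]
  refine mul_le_mul_of_nonneg_left ?_ (by positivity)
  refine intervalIntegral.integral_mono_on zero_le_one ?_ (mj_int (mj_sec mj_B hP hX)) (fun x hx => ?_)
  · exact mj_int (mj_sec mj_w hP (X := 0) (N := N) (Xc_pos N hP))
  · have h2 := mj_q_pos hP hX hx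
    have h3 : √(Gx P N X x) ≤ 1 := by
      rw [Real.sqrt_le_one]
      exact Gx_le hP h0 hx
    have h4 : √(Gx P N X x) ^ 3 ≤ 1 := pow_le_one₀ h2.le h3
    exact le_div_self (wm_nonneg hP hx.1 hx.2) (pow_pos h2 3) h4

theorem betam_le {P N X : ℝ} (hP : 0 < P) (h0 : 0 ≤ X) (hX : X < Xc P N) : betam P N X ≤ P := by
  unfold betam
  have h1 : 0 ≤ ∫ x in (0 : ℝ)..1, wm P N x / (√(Gx P N X x) * (1 + √(Gx P N X x))) := by
    refine intervalIntegral.integral_nonneg zero_le_one fun x hx => ?_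
    have h2 := mj_q_pos hP hX hx
    exact div_nonneg (wm_nonneg hP hx.1 hx.2) (by positivity)
  have h2 : 0 ≤ P * X * ∫ x in (0 : ℝ)..1, wm P N x / (√(Gx P N X x) * (1 + √(Gx P N X x))) := by positivity
  linarith

end H17S
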