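import Pool.Agent.Lib.H17S.MK

set_option autoImplicit false

/-!
Chunk ML (M). The bound of `(4/ν) ∫ (|a_c| + |a_a|)`, uniform up to the critical value of `X` (`0 <= X < Xc`).
`‖ac‖ + ‖aa‖ <= ‖lam‖ + 2 X ‖lamX‖`. Write `r = rm s`, `q = r² + N² >= r²`, `G = GG(r) ∈ (0, 1]`, `r' = √G`, `K' = f/G`, `0 <= K <= num/2` (`Km_le`).
`ml_point`: `1/√G <= 1 + X f/√G³`: with `y = X f = 1 - G ∈ [0,1)` it says `1 - y <= √(1-y)³ + y`, i.e. `1 - 2y <= (1-y) √(1-y)`; put `u = √(1-y) ∈ (0,1]`: `2u² - 1 <= u³`, i.e. `(1 - u)(1 + u - u²) >= 0`.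
So `1 = r' /√G <= r' + X f/G = r' + X K'` and `‖lam‖ = ‖Mc‖/q^(3/2) <= ‖Mc‖ r^(-3) (r' + X K') <= ‖Mc‖ (r'/r³ + X K'/P³)` (`r >= P`), the derivative of `‖Mc‖ (- 1/(2 r²) + X K/P³)`.
`X ‖lamX‖ = (3/2) X K ‖Mc‖ r'/q² <= (3/4) X num ‖Mc‖ r'/r⁴`, the derivative of `(3/4) X num ‖Mc‖ (- 1/(3 r³))`.
So for every `T`: `∫_0^T (‖ac‖ + ‖aa‖) <= ‖Mc‖ (1/(2 P²) + X num/(2 P³)) + 2 (1/4) X num ‖Mc‖/P³ = ‖Mc‖ (1/(2P²) + X num/P³)`, hence integrable (continuous, `ac_cont`, `lamX_cont` at fixed parameters; `w7`-type bounds in W7.lean `Mo.Ok.dec` give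
integrability directly) with the same bound for `∫_0^∞`; multiply by `4/num <= 4 P` in the first term (`num_ge`) and use `X <= Xc` in the second one.
-/

open MeasureTheory Filter Topology Set

namespace H17S

theorem ml_point {y : ℝ} (h0 : 0 ≤ y) (h1 : y < 1) : 1 / √(1 - y) ≤ 1 + y / √(1 - y) ^ 3 := by
  have hu : 0 < √(1 - y) := Real.sqrt_pos.2 (by linarith)
  have hs : √(1 - y) ^ 2 = 1 - y := Real.sq_sqrt (by linarith)
  have hy : y = 1 - √(1 - y) ^ 2 := by linarith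
  have hu1 : √(1 - y) ≤ 1 := by
    nlinarith
  generalize √(1 - y) = u at hu hs hy hu1
  subst hy
  rw [div_le_iff₀ hu]
  have h3 : (1 + (1 - u ^ 2) / u ^ 3) * u = (u ^ 3 + (1 - u ^ 2)) / u ^ 2 := by
    field_simp
  rw [h3, le_div_iff₀ (by positivity)]
  have h4 : 0 ≤ (1 - u) * (1 + u - u ^ 2) := mul_nonneg (by linarith) (by nlinarith)
  nlinarith

theorem ml_rho (N r : ℝ) (hr : 0 < r) : r ≤ ‖rho N r‖ := by
  have h1 := rho_norm_sq (N := N) (r := r)
  have h2 : r ^ 2 ≤ ‖rho N r‖ ^ 2 := by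
    rw [h1]
    unfold qq
    nlinarith [sq_nonneg N]
  exact le_of_sq_le_sq h2 (norm_nonneg _)

theorem ml_norms {P N X s : ℝ} (hP : 0 < P) (h0 : 0 ≤ X) (hX : X < Xc P N) (hs : 0 ≤ s) :
    ‖(mo P N X).ac s‖ + ‖(mo P N X).aa s‖ ≤
      ‖Mc P N‖ * (√(GG P N X (rm P N X s)) / rm P N X s ^ 3 + X * (ff P N (rm P N X s) / GG P N X (rm P N X s)) / P ^ 3) +
      3 / 2 * X * num P N X * ‖Mc P N‖ * (√(GG P N X (rm P N X s)) / rm P N X s ^ 4) := by
  have r0 := rm_ge hP hX hs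
  have K0 := Km_nonneg hP hX hs
  have K1 := Km_le hP hX hs
  have f0 := ff_nonneg (N := N) hP r0
  have G0 := GG_pos hP hX r0
  have rpos : 0 < rm P N X s := hP.trans_le r0
  have hρ := ml_rho N (rm P N X s) rpos
  have e1 : ‖(mo P N X).lam s‖ = ‖Mc P N‖ / ‖rho N (rm P N X s)‖ ^ 3 := by
    change ‖- Mc P N / rho N (rm P N X s) ^ 3‖ = _
    rw [norm_div, norm_neg, norm_pow]
  have e2 : ‖(mo P N X).lamX s‖ = 1 / 2 * Km P N X s * (3 * ‖Mc P N‖ / ‖rho N (rm P N X s)‖ ^ 4) *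
      √(GG P N X (rm P N X s)) := by
    change ‖- (1 / 2) * (Km P N X s : ℂ) * (3 * Mc P N / rho N (rm P N X s) ^ 4) * ((√(GG P N X (rm P N X s)) : ℝ) : ℂ)‖ = _
    rw [norm_mul, norm_mul, norm_mul, norm_div, norm_mul, norm_pow, Complex.norm_real, Complex.norm_real,
      Real.norm_of_nonneg K0, Real.norm_of_nonneg (Real.sqrt_nonneg _)]
    norm_num
  have e3 : ‖(mo P N X).aa s‖ = X * ‖(mo P N X).lamX s‖ := by
    change ‖(X : ℂ) * (mo P N X).lamX s‖ = _
    rw [norm_mul, Complex.norm_real, Real.norm_of_nonneg h0]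
  have e4 : ‖(mo P N X).ac s‖ ≤ ‖(mo P N X).lam s‖ + X * ‖(mo P N X).lamX s‖ := by
    change ‖(mo P N X).lam s + (X : ℂ) * (mo P N X).lamX s‖ ≤ _
    refine (norm_add_le _ _).trans ?_
    rw [norm_mul, Complex.norm_real, Real.norm_of_nonneg h0]
  have h5 : ‖(mo P N X).ac s‖ + ‖(mo P N X).aa s‖ ≤ ‖(mo P N X).lam s‖ + 2 * (X * ‖(mo P N X).lamX s‖) := by
    rw [e3]
    linarith
  refine h5.trans (add_le_add ?_ ?_)
  · have hy0 : 0 ≤ X * ff P N (rm P N X s) := mul_nonneg h0 f0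
    have hG : GG P N X (rm P N X s) = 1 - X * ff P N (rm P N X s) := rfl
    have hp := ml_point hy0 (by rw [hG] at G0; linarith)
    rw [← hG] at hp
    have g0 : 0 < √(GG P N X (rm P N X s)) := Real.sqrt_pos.2 G0
    have g2 : √(GG P N X (rm P N X s)) ^ 2 = GG P N X (rm P N X s) := Real.sq_sqrt G0.le
    have h6 : 1 ≤ √(GG P N X (rm P N X s)) + X * (ff P N (rm P N X s) / GG P N X (rm P N X s)) := by
      have h7 := mul_le_mul_of_nonneg_right hp g0.le
      have h8 : 1 / √(GG P N X (rm P N X s)) * √(GG P N X (rm P N X s)) = 1 := by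
        field_simp
      have h9 : (1 + X * ff P N (rm P N X s) / √(GG P N X (rm P N X s)) ^ 3) * √(GG P N X (rm P N X s)) =
          √(GG P N X (rm P N X s)) + X * (ff P N (rm P N X s) / √(GG P N X (rm P N X s)) ^ 2) := by
        field_simp
      rw [h8, h9, g2] at h7
      exact h7
    have h10 : 0 ≤ X * (ff P N (rm P N X s) / GG P N X (rm P N X s)) := by positivity
    rw [e1]
    calc ‖Mc P N‖ / ‖rho N (rm P N X s)‖ ^ 3 ≤ ‖Mc P N‖ / rm P N X s ^ 3 := by gcongr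
      _ = ‖Mc P N‖ * (1 / rm P N X s ^ 3) := by ring
      _ ≤ ‖Mc P N‖ * ((√(GG P N X (rm P N X s)) + X * (ff P N (rm P N X s) / GG P N X (rm P N X s))) / rm P N X s ^ 3) := by
        gcongr
      _ = ‖Mc P N‖ * (√(GG P N X (rm P N X s)) / rm P N X s ^ 3 + X * (ff P N (rm P N X s) / GG P N X (rm P N X s)) / rm P N X s ^ 3) := by
        ring
      _ ≤ _ := by
        gcongr
  · rw [e2]
    calc 2 * (X * (1 / 2 * Km P N X s * (3 * ‖Mc P N‖ / ‖rho N (rm P N X s)‖ ^ 4) * √(GG P N X (rm P N X s))))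
        ≤ 2 * (X * (1 / 2 * (num P N X / 2) * (3 * ‖Mc P N‖ / rm P N X s ^ 4) * √(GG P N X (rm P N X s)))) := by
          have hn := num_pos hP hX
          gcongr
      _ = _ := by ring

theorem ml_cont {P N X : ℝ} (hP : 0 < P) (h0 : 0 ≤ X) (hX : X < Xc P N) :
    ContinuousOn (fun s => ‖(mo P N X).ac s‖ + ‖(mo P N X).aa s‖) (Ici 0) := by
  have hm : MapsTo (fun s : ℝ => (((P, N, X) : ℝ × ℝ × ℝ), s)) (Ici 0) (Om3 ×ˢ Ici (0 : ℝ)) :=
    fun s hs => ⟨⟨hP, hX⟩, hs⟩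
  have hc : ContinuousOn (fun s : ℝ => (((P, N, X) : ℝ × ℝ × ℝ), s)) (Ici 0) :=
    (continuous_const.prodMk continuous_id).continuousOn
  have h1 : ContinuousOn (mo P N X).ac (Ici 0) := by
    have := ContinuousOn.comp (g := fun p : (ℝ × ℝ × ℝ) × ℝ => (mo p.1.1 p.1.2.1 p.1.2.2).ac p.2) ac_cont hc hm
    refine this.congr fun s hs => ?_
    simp only [Function.comp_def]
  have h2 : ContinuousOn (mo P N X).lamX (Ici 0) := by
    have := ContinuousOn.comp (g := fun p : (ℝ × ℝ × ℝ) × ℝ => (mo p.1.1 p.1.2.1 p.1.2.2).lamX p.2) lamX_cont hc hm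
    refine this.congr fun s hs => ?_
    simp only [Function.comp_def]
  have h3 : ContinuousOn (mo P N X).aa (Ici 0) := by
    unfold Mo.aa
    exact continuousOn_const.mul h2
  exact h1.norm.add h3.norm

theorem unif_bound {P N X : ℝ} (hP : 0 < P) (h0 : 0 ≤ X) (hX : X < Xc P N) :
    IntegrableOn (fun s => ‖(mo P N X).ac s‖ + ‖(mo P N X).aa s‖) (Ioi 0) ∧
      4 / num P N X * ∫ s in Ioi (0 : ℝ), (‖(mo P N X).ac s‖ + ‖(mo P N X).aa s‖) ≤
        4 * ‖Mc P N‖ * (1 / (2 * P) + Xc P N / P ^ 3) := by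
  have hnum := num_pos hP hX
  have hnum1 := num_ge hP h0 hX
  set c : ℝ := ‖Mc P N‖ with hc
  have hc0 : 0 ≤ c := norm_nonneg _
  set n : ℝ := num P N X with hn
  set Φ : ℝ → ℝ := fun s => c * (-(1 / (2 * rm P N X s ^ 2)) + X * Km P N X s / P ^ 3) -
    1 / 2 * X * n * c * (1 / rm P N X s ^ 3) with hΦ
  set Ψ : ℝ → ℝ := fun s => c * (√(GG P N X (rm P N X s)) / rm P N X s ^ 3 + X * (ff P N (rm P N X s) / GG P N X (rm P N X s)) / P ^ 3) +
      3 / 2 * X * n * c * (√(GG P N X (rm P N X s)) / rm P N X s ^ 4) with hΨ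
  have hr : ∀ s, 0 ≤ s → 0 < rm P N X s := fun s hs => hP.trans_le (rm_ge hP hX hs)
  have hd : ∀ s ∈ Ici (0 : ℝ), HasDerivAt Φ (Ψ s) s := by
    intro s hs
    have hs' : 0 ≤ s := hs
    have r0 := hr s hs'
    have d1 := rm_der hP hX hs'
    have d2 := Km_der hP hX hs'
    have e1 : HasDerivAt (fun s => -(1 / (2 * rm P N X s ^ 2))) (√(GG P N X (rm P N X s)) / rm P N X s ^ 3) s := by
      have d3 : HasDerivAt (fun s => 2 * rm P N X s ^ 2) (4 * rm P N X s * √(GG P N X (rm P N X s))) s := by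
        refine ((d1.pow 2).const_mul 2).congr_deriv ?_
        simp only [Nat.cast_ofNat]
        ring
      have d4 := (d3.inv (by positivity)).neg
      simp only [one_div]
      refine d4.congr_deriv ?_
      field_simp
      ring
    have e2 : HasDerivAt (fun s => 1 / rm P N X s ^ 3) (-3 * (√(GG P N X (rm P N X s)) / rm P N X s ^ 4)) s := by
      have d3 : HasDerivAt (fun s => rm P N X s ^ 3) (3 * rm P N X s ^ 2 * √(GG P N X (rm P N X s))) s := by
        refine (d1.pow 3).congr_deriv ?_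
        simp only [Nat.cast_ofNat]
      have d4 := d3.inv (by positivity)
      simp only [one_div]
      refine d4.congr_deriv ?_
      field_simp
    have e3 := ((e1.add ((d2.const_mul X).div_const (P ^ 3))).const_mul c).sub (e2.const_mul (1 / 2 * X * n * c))
    refine e3.congr_deriv ?_
    rw [hΨ]
    ring
  have hpos : ∀ s ∈ Ioi (0 : ℝ), 0 ≤ Ψ s := by
    intro s hs
    have hs' : 0 ≤ s := le_of_lt hs
    have r0 := hr s hs'
    have f0 := ff_nonneg (N := N) hP (rm_ge hP hX hs')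
    have G0 := GG_pos hP hX (rm_ge hP hX hs')
    rw [hΨ]
    positivity
  have hlim : Tendsto Φ atTop (𝓝 (c * (-0 + X * (n / 2) / P ^ 3) - 1 / 2 * X * n * c * 0)) := by
    have t1 := rm_atTop hP hX
    have t2 := Km_lim hP hX
    have t3 : Tendsto (fun s => 1 / (2 * rm P N X s ^ 2)) atTop (𝓝 0) := by
      have := ((tendsto_pow_atTop (two_ne_zero)).comp t1).const_mul_atTop (two_pos (α := ℝ))
      simp only [one_div]
      exact tendsto_inv_atTop_zero.comp this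
    have t4 : Tendsto (fun s => 1 / rm P N X s ^ 3) atTop (𝓝 0) := by
      have := (tendsto_pow_atTop (α := ℝ) (three_ne_zero)).comp t1
      simp only [one_div]
      exact tendsto_inv_atTop_zero.comp this
    exact ((t3.neg.add ((t2.const_mul X).div_const (P ^ 3))).const_mul c).sub (t4.const_mul (1 / 2 * X * n * c))
  have hint := integrableOn_Ioi_deriv_of_nonneg' hd hpos hlim
  have hval := integral_Ioi_of_hasDerivAt_of_nonneg' hd hpos hlim
  have hle : ∀ s ∈ Ioi (0 : ℝ), ‖(mo P N X).ac s‖ + ‖(mo P N X).aa s‖ ≤ Ψ s :=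
    fun s hs => ml_norms hP h0 hX (le_of_lt hs)
  have hF : IntegrableOn (fun s => ‖(mo P N X).ac s‖ + ‖(mo P N X).aa s‖) (Ioi 0) := by
    refine Integrable.mono' hint (((ml_cont hP h0 hX).mono Ioi_subset_Ici_self).aestronglyMeasurable measurableSet_Ioi) ?_
    refine (ae_restrict_iff' measurableSet_Ioi).2 (Eventually.of_forall fun s hs => ?_)
    rw [Real.norm_of_nonneg (by positivity)]
    exact hle s hs
  refine ⟨hF, ?_⟩
  have hI : ∫ s in Ioi (0 : ℝ), (‖(mo P N X).ac s‖ + ‖(mo P N X).aa s‖) ≤ c * (1 / (2 * P ^ 2) + X * n / P ^ 3) := by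
    refine (setIntegral_mono_on hF hint measurableSet_Ioi hle).trans ?_
    rw [hval, hΦ]
    simp only [rm_zero hP hX, Km_zero hP hX]
    apply le_of_eq
    field_simp
    ring
  have hXc : X / P ^ 3 ≤ Xc P N / P ^ 3 := div_le_div_of_nonneg_right hX.le (by positivity)
  have hn1 : 1 / n ≤ P := by
    rw [div_le_iff₀ hnum]
    rw [div_le_iff₀ hP] at hnum1
    linarith
  calc 4 / n * ∫ s in Ioi (0 : ℝ), (‖(mo P N X).ac s‖ + ‖(mo P N X).aa s‖)
      ≤ 4 / n * (c * (1 / (2 * P ^ 2) + X * n / P ^ 3)) := mul_le_mul_of_nonneg_left hI (by positivity)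
    _ = 4 * c * (1 / n * (1 / (2 * P ^ 2)) + X / P ^ 3) := by
      field_simp
    _ ≤ 4 * c * (P * (1 / (2 * P ^ 2)) + Xc P N / P ^ 3) := by
      gcongr
    _ = 4 * c * (1 / (2 * P) + Xc P N / P ^ 3) := by
      have : P * (1 / (2 * P ^ 2)) = 1 / (2 * P) := by
        field_simp
      rw [this]

/-- Uniform version. -/
theorem unif_bound' {K : Set (ℝ × ℝ)} (hK : IsCompact K) (hP : ∀ p ∈ K, 0 < p.1) : ∃ C, 0 ≤ C ∧ ∀ p ∈ K, ∀ X, 0 ≤ X → X < Xc p.1 p.2 →
    4 / num p.1 p.2 X * ∫ s in Ioi (0 : ℝ), (‖(mo p.1 p.2 X).ac s‖ + ‖(mo p.1 p.2 X).aa s‖) ≤ C := by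
  have hc : ContinuousOn (fun p : ℝ × ℝ => 4 * ‖Mc p.1 p.2‖ * (1 / (2 * p.1) + Xc p.1 p.2 / p.1 ^ 3)) K := by
    have c1 : ContinuousOn (fun p : ℝ × ℝ => Mc p.1 p.2) K := by
      unfold Mc mm
      refine ContinuousOn.add ?_ (by fun_prop)
      refine Complex.continuous_ofReal.comp_continuousOn ?_
      exact ContinuousOn.div (by fun_prop) (by fun_prop) (fun p hp => by have := hP p hp; positivity)
    have c2 : ContinuousOn (fun p : ℝ × ℝ => Xc p.1 p.2) K := Xc_cont.mono fun p hp => hP p hp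
    refine (continuousOn_const.mul c1.norm).mul (ContinuousOn.add ?_ ?_)
    · exact ContinuousOn.div (by fun_prop) (by fun_prop) (fun p hp => by have := hP p hp; positivity)
    · exact ContinuousOn.div c2 (by fun_prop) (fun p hp => by have := hP p hp; positivity)
  obtain ⟨C, hC⟩ := hK.exists_bound_of_continuousOn hc
  refine ⟨max C 0, le_max_right _ _, fun p hp X h0 hX => ?_⟩
  refine ((unif_bound (hP p hp) h0 hX).2.trans ?_).trans (le_max_left _ _)
  exact (le_abs_self _).trans (hC p hp)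

end H17S
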