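import Pool.Agent.Lib.H17S.MH

set_option autoImplicit false

/-!
Chunk MI (M). Limits; the model satisfies `Mo.Ok`.
With `t = tm s`, `x = P/(P + t) = P/rm s`: `s = Sm t` (`Sm_tm`), `rm s - s = P + t - Sm t = P - P X ∫_x^1 .. = betam + P X ∫_0^x ..` (`Sm_x`, `intervalIntegral.integral_add_adjacent_intervals`). `rm s -> ∞` (`rm_low`), so `x -> 0` and `∫_0^x -> 0`
(continuity of the primitive, or the bound `x * sup`). `Km s = P ∫_x^1 -> P ∫_0^1 = num/2` (`Kt_x`). `mo_ok`: collect (`rm_der`, `Km_der` give continuity; `G_pos` with the constant `1 - max X 0 Fmax`: `gap_pos`, `GG_ge`).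
-/

open MeasureTheory Filter Topology Set

namespace H17S

theorem rm_atTop {P N X : ℝ} (hP : 0 < P) (hX : X < Xc P N) : Tendsto (rm P N X) atTop atTop := by
  have h1 : 0 < √(1 - max X 0 * Fmax P N) := Real.sqrt_pos.2 (gap_pos hP hX)
  have h2 : Tendsto (fun s : ℝ => P + √(1 - max X 0 * Fmax P N) * s) atTop atTop :=
    tendsto_atTop_add_const_left _ _ (tendsto_id.const_mul_atTop h1)
  refine tendsto_atTop_mono' _ ?_ h2
  filter_upwards [eventually_ge_atTop (0 : ℝ)] with s hs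
  exact rm_low hP hX hs

theorem mi_x {P N X s : ℝ} (hP : 0 < P) (hX : X < Xc P N) (hs : 0 ≤ s) : 0 < P / rm P N X s ∧ P / rm P N X s ≤ 1 := by
  have h1 := rm_ge hP hX hs
  have h2 : 0 < rm P N X s := hP.trans_le h1
  exact ⟨div_pos hP h2, (div_le_one h2).2 h1⟩

theorem mi_split {P N X s : ℝ} (hP : 0 < P) (hX : X < Xc P N) (hs : 0 ≤ s) {f : ℝ → ℝ} (hf : ContinuousOn f (Icc 0 1)) :
    ∫ x in P / rm P N X s..1, f x = (∫ x in (0 : ℝ)..1, f x) - ∫ x in (0 : ℝ)..P / rm P N X s, f x := by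
  obtain ⟨h1, h2⟩ := mi_x hP hX hs
  have i1 : IntervalIntegrable f volume 0 (P / rm P N X s) := by
    apply ContinuousOn.intervalIntegrable
    rw [uIcc_of_le h1.le]
    exact hf.mono (Icc_subset_Icc le_rfl h2)
  have i2 : IntervalIntegrable f volume (P / rm P N X s) 1 := by
    apply ContinuousOn.intervalIntegrable
    rw [uIcc_of_le h2]
    exact hf.mono (Icc_subset_Icc h1.le le_rfl)
  have h3 := intervalIntegral.integral_add_adjacent_intervals i1 i2
  linarith

theorem mi_lim {P N X : ℝ} (hP : 0 < P) (hX : X < Xc P N) {f : ℝ → ℝ} (hf : ContinuousOn f (Icc 0 1)) :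
    Tendsto (fun s => ∫ x in (0 : ℝ)..P / rm P N X s, f x) atTop (𝓝 0) := by
  obtain ⟨C, hC⟩ := isCompact_Icc.exists_bound_of_continuousOn hf
  have h1 : Tendsto (fun s => P / rm P N X s) atTop (𝓝 0) := (rm_atTop hP hX).const_div_atTop P
  have h2 : Tendsto (fun s => C * (P / rm P N X s)) atTop (𝓝 0) := by
    have := h1.const_mul C
    rwa [mul_zero] at this
  refine squeeze_zero_norm' ?_ h2
  filter_upwards [eventually_ge_atTop (0 : ℝ)] with s hs
  obtain ⟨h3, h4⟩ := mi_x hP hX hs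
  have h5 := intervalIntegral.norm_integral_le_of_norm_le_const (a := 0) (b := P / rm P N X s) (C := C) (f := f) (by
    intro x hx
    rw [uIoc_of_le h3.le] at hx
    exact hC x ⟨hx.1.le, hx.2.trans h4⟩)
  rwa [sub_zero, abs_of_pos h3] at h5

theorem rm_sub {P N X s : ℝ} (hP : 0 < P) (hX : X < Xc P N) (hs : 0 ≤ s) : rm P N X s - s =
    betam P N X + P * X * ∫ x in (0 : ℝ)..P / rm P N X s, wm P N x / (√(Gx P N X x) * (1 + √(Gx P N X x))) := by
  have h1 := Sm_x hP hX (tm_nonneg hP hX hs)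
  rw [Sm_tm hP hX] at h1
  have h2 : P + tm P N X s = rm P N X s := rfl
  rw [h2, mi_split hP hX hs (wG_cont hP hX).1] at h1
  unfold betam
  rw [← h2]
  rw [← h2] at h1
  linarith

theorem rm_lim {P N X : ℝ} (hP : 0 < P) (hX : X < Xc P N) : Tendsto (fun s => rm P N X s - s) atTop (𝓝 (betam P N X)) := by
  have h1 := ((mi_lim hP hX (wG_cont hP hX).1).const_mul (P * X)).const_add (betam P N X)
  rw [mul_zero, add_zero] at h1
  refine h1.congr' ?_
  filter_upwards [eventually_ge_atTop (0 : ℝ)] with s hs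
  exact (rm_sub hP hX hs).symm

theorem Km_lim {P N X : ℝ} (hP : 0 < P) (hX : X < Xc P N) : Tendsto (Km P N X) atTop (𝓝 (num P N X / 2)) := by
  have h1 := ((mi_lim hP hX (wG_cont hP hX).2).const_sub (∫ x in (0 : ℝ)..1, wm P N x / √(Gx P N X x) ^ 3)).const_mul P
  have h2 : P * ((∫ x in (0 : ℝ)..1, wm P N x / √(Gx P N X x) ^ 3) - 0) = num P N X / 2 := by
    unfold num
    ring
  rw [h2] at h1
  refine h1.congr' ?_
  filter_upwards [eventually_ge_atTop (0 : ℝ)] with s hs
  have h3 := Kt_x hP hX (tm_nonneg hP hX hs)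
  have h4 : P + tm P N X s = rm P N X s := rfl
  rw [h4, mi_split hP hX hs (wG_cont hP hX).2] at h3
  exact h3.symm

theorem mo_ok {P N X : ℝ} (hP : 0 < P) (h0 : 0 ≤ X) (hX : X < Xc P N) : (mo P N X).Ok where
  P_pos := hP
  X_nonneg := h0
  r_zero := rm_zero hP hX
  K_zero := Km_zero hP hX
  r_cont := fun _ hs => (rm_der hP hX hs).continuousAt.continuousWithinAt
  K_cont := fun _ hs => (Km_der hP hX hs).continuousAt.continuousWithinAt
  r_der := fun _ hs => rm_der hP hX hs.le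
  K_der := fun _ hs => Km_der hP hX hs.le
  G_pos := ⟨1 - max X 0 * Fmax P N, gap_pos hP hX, fun _ hr => GG_ge hP hr⟩
  r_lim := rm_lim hP hX
  K_lim := Km_lim hP hX

end H17S
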