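import Pool.Agent.Lib.H17S.MF
import Pool.Agent.Lib.H17S.MI
import Pool.Agent.Lib.H17S.MJ

set_option autoImplicit false

/-!
Chunk MK (M). Continuity and uniform decay of `lam`, `lam1`, `lamX`.
Continuity: `lam = - Mc P N/ρ³`, `ρ = rm + i N ≠ 0` (`rm >= P > 0`), `Mc P N = mm + i N` is continuous on `P > 0`; `lam1 = 3 Mc/ρ⁴ g`, `lamX = - (1/2) K (3 Mc/ρ⁴) g` (`rm_cont`, `Km_cont`, `g_cont`).
`lam_bdd`: on the compact set `K ⊆ Om3`: `1 - max X 0 Fmax >= c₀ > 0` (continuous, positive: `Fmax_cont`, `gap_pos`), `P >= p₀ > 0`, so `rm s >= P + √(gap) s >= c (1 + s)` with `c = min p₀ √c₀` (`rm_low`), `|ρ| >= rm`,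
`‖Mc‖ <= C`, `g = √GG <= √(1 + |X| Fmax) <= C` (`GG_le'`), `0 <= Km <= num/2 <= C` (`Km_nonneg`, monotone in `s` with limit `num/2`: `Km_lim`, `Km_der`; `num_cont`). If `K` is empty take `C = 0`.
-/

open MeasureTheory Filter Topology Set

namespace H17S

theorem mk_rm : ContinuousOn (fun p : (ℝ × ℝ × ℝ) × ℝ => rm p.1.1 p.1.2.1 p.1.2.2 p.2) (Om3 ×ˢ Ici 0) :=
  rm_cont.mono (prod_mono le_rfl (subset_univ _))

theorem mk_Km : ContinuousOn (fun p : (ℝ × ℝ × ℝ) × ℝ => Km p.1.1 p.1.2.1 p.1.2.2 p.2) (Om3 ×ˢ Ici 0) :=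
  Km_cont.mono (prod_mono le_rfl (subset_univ _))

theorem mk_Mc0 : ContinuousOn (fun p : ℝ × ℝ × ℝ => Mc p.1 p.2.1) Om3 := by
  unfold Mc mm
  refine ContinuousOn.add (Complex.continuous_ofReal.comp_continuousOn ?_) ?_
  · refine ContinuousOn.div (by fun_prop) (by fun_prop) fun p hp => ?_
    have h1 : 0 < p.1 := hp.1
    positivity
  · exact Continuous.continuousOn ((Complex.continuous_ofReal.comp (continuous_fst.comp continuous_snd)).mul continuous_const)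

theorem mk_Mc : ContinuousOn (fun p : (ℝ × ℝ × ℝ) × ℝ => Mc p.1.1 p.1.2.1) (Om3 ×ˢ Ici 0) :=
  mk_Mc0.comp (f := fun p : (ℝ × ℝ × ℝ) × ℝ => p.1) (by fun_prop) (fun _ hp => hp.1)

theorem mk_rho : ContinuousOn (fun p : (ℝ × ℝ × ℝ) × ℝ => rho p.1.2.1 (rm p.1.1 p.1.2.1 p.1.2.2 p.2)) (Om3 ×ˢ Ici 0) := by
  unfold rho
  refine ContinuousOn.add (Complex.continuous_ofReal.comp_continuousOn mk_rm) ?_
  exact Continuous.continuousOn ((Complex.continuous_ofReal.comp (continuous_fst.comp (continuous_snd.comp continuous_fst))).mul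
    continuous_const)

theorem mk_rho_ne {p : (ℝ × ℝ × ℝ) × ℝ} (hp : p ∈ Om3 ×ˢ Ici (0 : ℝ)) : rho p.1.2.1 (rm p.1.1 p.1.2.1 p.1.2.2 p.2) ≠ 0 :=
  rho_ne (hp.1.1.trans_le (rm_ge hp.1.1 hp.1.2 hp.2))

theorem mk_lamr1 : ContinuousOn (fun p : (ℝ × ℝ × ℝ) × ℝ => lamr1 p.1.1 p.1.2.1 (rm p.1.1 p.1.2.1 p.1.2.2 p.2)) (Om3 ×ˢ Ici 0) := by
  unfold lamr1
  exact (continuousOn_const.mul mk_Mc).div (mk_rho.pow 4) fun p hp => pow_ne_zero 4 (mk_rho_ne hp)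

theorem mk_g : ContinuousOn (fun p : (ℝ × ℝ × ℝ) × ℝ => (((mo p.1.1 p.1.2.1 p.1.2.2).g p.2 : ℝ) : ℂ)) (Om3 ×ˢ Ici 0) :=
  Complex.continuous_ofReal.comp_continuousOn g_cont

theorem lam_cont : ContinuousOn (fun p : (ℝ × ℝ × ℝ) × ℝ => (mo p.1.1 p.1.2.1 p.1.2.2).lam p.2) (Om3 ×ˢ Ici 0) :=
  mk_Mc.neg.div (mk_rho.pow 3) fun _ hp => pow_ne_zero 3 (mk_rho_ne hp)

theorem lam1_cont : ContinuousOn (fun p : (ℝ × ℝ × ℝ) × ℝ => (mo p.1.1 p.1.2.1 p.1.2.2).lam1 p.2) (Om3 ×ˢ Ici 0) :=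
  mk_lamr1.mul mk_g

theorem lamX_cont : ContinuousOn (fun p : (ℝ × ℝ × ℝ) × ℝ => (mo p.1.1 p.1.2.1 p.1.2.2).lamX p.2) (Om3 ×ˢ Ici 0) :=
  ((continuousOn_const.mul (Complex.continuous_ofReal.comp_continuousOn mk_Km)).mul mk_lamr1).mul mk_g

theorem ac_cont : ContinuousOn (fun p : (ℝ × ℝ × ℝ) × ℝ => (mo p.1.1 p.1.2.1 p.1.2.2).ac p.2) (Om3 ×ˢ Ici 0) := by
  refine lam_cont.add (ContinuousOn.mul ?_ lamX_cont)
  exact Continuous.continuousOn (Complex.continuous_ofReal.comp (continuous_snd.comp (continuous_snd.comp continuous_fst)))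

theorem Km_le {P N X s : ℝ} (hP : 0 < P) (hX : X < Xc P N) (hs : 0 ≤ s) : Km P N X s ≤ num P N X / 2 := by
  have hm : MonotoneOn (Km P N X) (Ici 0) := by
    refine monotoneOn_of_deriv_nonneg (convex_Ici 0) (fun x hx => (Km_der hP hX hx).continuousAt.continuousWithinAt)
      (fun x hx => (Km_der hP hX (interior_subset hx)).differentiableAt.differentiableWithinAt) (fun x hx => ?_)
    have hx' : 0 ≤ x := interior_subset hx
    rw [(Km_der hP hX hx').deriv]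
    have h1 := rm_ge hP hX hx'
    exact div_nonneg (ff_nonneg hP h1) (GG_pos hP hX h1).le
  refine ge_of_tendsto (Km_lim hP hX) ?_
  filter_upwards [eventually_ge_atTop s] with t ht
  exact hm hs (hs.trans ht) ht

/-- The lower bound of `rm / (1 + s)`. -/
noncomputable def mkA (p : ℝ × ℝ × ℝ) : ℝ := min p.1 √(1 - max p.2.2 0 * Fmax p.1 p.2.1)

theorem mkA_pos {p : ℝ × ℝ × ℝ} (hp : p ∈ Om3) : 0 < mkA p := lt_min hp.1 (Real.sqrt_pos.2 (gap_pos hp.1 hp.2))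

theorem mk_Fmax : ContinuousOn (fun p : ℝ × ℝ × ℝ => Fmax p.1 p.2.1) Om3 :=
  Fmax_cont.comp (f := fun p : ℝ × ℝ × ℝ => (p.1, p.2.1)) (by fun_prop) (fun _ hp => hp.1)

theorem mkA_cont : ContinuousOn mkA Om3 := by
  refine ContinuousOn.inf continuousOn_fst (ContinuousOn.sqrt ?_)
  exact continuousOn_const.sub (ContinuousOn.mul (by fun_prop) mk_Fmax)

theorem mkA_le {P N X s : ℝ} (hP : 0 < P) (hX : X < Xc P N) (hs : 0 ≤ s) : mkA (P, N, X) * (1 + s) ≤ rm P N X s := by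
  refine le_trans ?_ (rm_low hP hX hs)
  have h1 : mkA (P, N, X) ≤ P := min_le_left _ _
  have h2 : mkA (P, N, X) ≤ √(1 - max X 0 * Fmax P N) := min_le_right _ _
  nlinarith [mul_le_mul_of_nonneg_right h2 hs]

theorem mk_rho_inv {P N X s : ℝ} (hP : 0 < P) (hX : X < Xc P N) (hs : 0 ≤ s) (k : ℕ) :
    (‖rho N (rm P N X s)‖ ^ k)⁻¹ ≤ (mkA (P, N, X))⁻¹ ^ k / (1 + s) ^ k := by
  have h1 : rm P N X s ≤ ‖rho N (rm P N X s)‖ := by
    have h2 := Complex.abs_re_le_norm (rho N (rm P N X s))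
    rw [rho_re] at h2
    exact (le_abs_self _).trans h2
  have h3 : mkA (P, N, X) * (1 + s) ≤ ‖rho N (rm P N X s)‖ := (mkA_le hP hX hs).trans h1
  have h4 : 0 < mkA (P, N, X) * (1 + s) := mul_pos (mkA_pos ⟨hP, hX⟩) (by linarith)
  have h5 : (‖rho N (rm P N X s)‖ ^ k)⁻¹ ≤ ((mkA (P, N, X) * (1 + s)) ^ k)⁻¹ :=
    inv_anti₀ (pow_pos h4 k) (pow_le_pow_left₀ h4.le h3 k)
  refine h5.trans_eq ?_
  rw [mul_pow, mul_inv, inv_pow, div_eq_mul_inv]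

theorem mk_g_le {P N X s : ℝ} (hP : 0 < P) (hX : X < Xc P N) (hs : 0 ≤ s) : (mo P N X).g s ≤ √(1 + |X| * Fmax P N) :=
  Real.sqrt_le_sqrt (GG_le' hP (rm_ge hP hX hs))

noncomputable def mkF1 (p : ℝ × ℝ × ℝ) : ℝ := ‖Mc p.1 p.2.1‖ * (mkA p)⁻¹ ^ 3

noncomputable def mkF2 (p : ℝ × ℝ × ℝ) : ℝ := 3 * ‖Mc p.1 p.2.1‖ * (mkA p)⁻¹ ^ 4 * √(1 + |p.2.2| * Fmax p.1 p.2.1)

noncomputable def mkF3 (p : ℝ × ℝ × ℝ) : ℝ := 1 / 2 * (num p.1 p.2.1 p.2.2 / 2) * mkF2 p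

noncomputable def mkF4 (p : ℝ × ℝ × ℝ) : ℝ := mkF1 p + |p.2.2| * mkF3 p

theorem mkF1_cont : ContinuousOn mkF1 Om3 :=
  mk_Mc0.norm.mul ((mkA_cont.inv₀ fun _ hp => (mkA_pos hp).ne').pow 3)

theorem mkF2_cont : ContinuousOn mkF2 Om3 := by
  refine ContinuousOn.mul (ContinuousOn.mul (continuousOn_const.mul mk_Mc0.norm)
    ((mkA_cont.inv₀ fun _ hp => (mkA_pos hp).ne').pow 4)) (ContinuousOn.sqrt ?_)
  exact continuousOn_const.add (ContinuousOn.mul (by fun_prop) mk_Fmax)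

theorem mkF3_cont : ContinuousOn mkF3 Om3 :=
  (continuousOn_const.mul (num_cont.div_const 2)).mul mkF2_cont

theorem mkF4_cont : ContinuousOn mkF4 Om3 :=
  mkF1_cont.add (ContinuousOn.mul (by fun_prop) mkF3_cont)

theorem mkF1_nn {p : ℝ × ℝ × ℝ} (hp : p ∈ Om3) : 0 ≤ mkF1 p := by
  have := mkA_pos hp
  unfold mkF1
  positivity

theorem mkF2_nn {p : ℝ × ℝ × ℝ} (hp : p ∈ Om3) : 0 ≤ mkF2 p := by
  have := mkA_pos hp
  unfold mkF2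
  positivity

theorem mkF3_nn {p : ℝ × ℝ × ℝ} (hp : p ∈ Om3) : 0 ≤ mkF3 p := by
  have h1 := mkF2_nn hp
  have h2 := num_pos hp.1 hp.2
  unfold mkF3
  positivity

theorem mk_lam_le {P N X s : ℝ} (hP : 0 < P) (hX : X < Xc P N) (hs : 0 ≤ s) :
    ‖(mo P N X).lam s‖ ≤ mkF1 (P, N, X) / (1 + s) ^ 3 := by
  have h1 : ‖(mo P N X).lam s‖ = ‖Mc P N‖ * (‖rho N (rm P N X s)‖ ^ 3)⁻¹ := by
    show ‖lamr P N (rm P N X s)‖ = _
    unfold lamr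
    rw [norm_div, norm_neg, norm_pow, div_eq_mul_inv]
  rw [h1]
  refine (mul_le_mul_of_nonneg_left (mk_rho_inv hP hX hs 3) (norm_nonneg _)).trans_eq ?_
  unfold mkF1
  ring

theorem mk_lam1_le {P N X s : ℝ} (hP : 0 < P) (hX : X < Xc P N) (hs : 0 ≤ s) :
    ‖(mo P N X).lam1 s‖ ≤ mkF2 (P, N, X) / (1 + s) ^ 4 := by
  have hg0 : 0 ≤ (mo P N X).g s := Real.sqrt_nonneg _
  have h1 : ‖(mo P N X).lam1 s‖ = 3 * ‖Mc P N‖ * (‖rho N (rm P N X s)‖ ^ 4)⁻¹ * (mo P N X).g s := by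
    show ‖lamr1 P N (rm P N X s) * (((mo P N X).g s : ℝ) : ℂ)‖ = _
    unfold lamr1
    rw [norm_mul, norm_div, norm_mul, norm_pow, div_eq_mul_inv, Complex.norm_real, Real.norm_of_nonneg hg0]
    norm_num
  rw [h1]
  have h2 := mul_le_mul_of_nonneg_left (mk_rho_inv hP hX hs 4) (by positivity : 0 ≤ 3 * ‖Mc P N‖)
  have hA := mkA_pos (p := (P, N, X)) ⟨hP, hX⟩
  have h3 : 3 * ‖Mc P N‖ * (‖rho N (rm P N X s)‖ ^ 4)⁻¹ * (mo P N X).g s ≤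
      3 * ‖Mc P N‖ * ((mkA (P, N, X))⁻¹ ^ 4 / (1 + s) ^ 4) * √(1 + |X| * Fmax P N) := by
    refine mul_le_mul h2 (mk_g_le hP hX hs) hg0 ?_
    positivity
  refine h3.trans_eq ?_
  unfold mkF2
  ring

theorem mk_lamX_le {P N X s : ℝ} (hP : 0 < P) (hX : X < Xc P N) (hs : 0 ≤ s) :
    ‖(mo P N X).lamX s‖ ≤ mkF3 (P, N, X) / (1 + s) ^ 4 := by
  have hK0 := Km_nonneg hP hX hs
  have h1 : ‖(mo P N X).lamX s‖ = 1 / 2 * Km P N X s * ‖(mo P N X).lam1 s‖ := by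
    show ‖- (1 / 2) * ((Km P N X s : ℝ) : ℂ) * lamr1 P N (rm P N X s) * (((mo P N X).g s : ℝ) : ℂ)‖ =
      1 / 2 * Km P N X s * ‖lamr1 P N (rm P N X s) * (((mo P N X).g s : ℝ) : ℂ)‖
    rw [mul_assoc, norm_mul, norm_mul, Complex.norm_real, Real.norm_of_nonneg hK0]
    norm_num
  rw [h1]
  have h2 : 1 / 2 * Km P N X s ≤ 1 / 2 * (num P N X / 2) := by
    have := Km_le hP hX hs
    linarith
  refine (mul_le_mul h2 (mk_lam1_le hP hX hs) (norm_nonneg _) ?_).trans_eq ?_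
  · have := num_pos hP hX
    positivity
  · unfold mkF3
    ring

theorem mk_ac_le {P N X s : ℝ} (hP : 0 < P) (hX : X < Xc P N) (hs : 0 ≤ s) :
    ‖(mo P N X).ac s‖ ≤ mkF4 (P, N, X) / (1 + s) ^ 3 := by
  have h1 : ‖(mo P N X).ac s‖ ≤ ‖(mo P N X).lam s‖ + |X| * ‖(mo P N X).lamX s‖ := by
    show ‖(mo P N X).lam s + ((X : ℝ) : ℂ) * (mo P N X).lamX s‖ ≤ _
    refine (norm_add_le _ _).trans_eq ?_
    rw [norm_mul, Complex.norm_real, Real.norm_eq_abs]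
  have h2 := mk_lam_le hP hX hs
  have h3 := mul_le_mul_of_nonneg_left (mk_lamX_le hP hX hs) (abs_nonneg X)
  have h4 := mkF3_nn (p := (P, N, X)) ⟨hP, hX⟩
  have h5 : mkF3 (P, N, X) / (1 + s) ^ 4 ≤ mkF3 (P, N, X) / (1 + s) ^ 3 := by
    apply div_le_div_of_nonneg_left h4 (by positivity)
    exact pow_le_pow_right₀ (by linarith) (by norm_num)
  have h6 := mul_le_mul_of_nonneg_left h5 (abs_nonneg X)
  unfold mkF4
  rw [add_div, mul_div_assoc]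
  linarith

theorem lam_bdd {K : Set (ℝ × ℝ × ℝ)} (hK : IsCompact K) (hO : K ⊆ Om3) : ∃ C, 0 ≤ C ∧ ∀ p ∈ K, ∀ s, 0 ≤ s →
    ‖(mo p.1 p.2.1 p.2.2).lam s‖ ≤ C / (1 + s) ^ 3 ∧ ‖(mo p.1 p.2.1 p.2.2).lam1 s‖ ≤ C / (1 + s) ^ 4 ∧
      ‖(mo p.1 p.2.1 p.2.2).lamX s‖ ≤ C / (1 + s) ^ 4 ∧ ‖(mo p.1 p.2.1 p.2.2).ac s‖ ≤ C / (1 + s) ^ 3 := by
  have hc : ContinuousOn (fun p => mkF2 p + mkF3 p + mkF4 p) K :=
    ((mkF2_cont.add mkF3_cont).add mkF4_cont).mono hO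
  obtain ⟨C, hC⟩ := hK.exists_bound_of_continuousOn hc
  refine ⟨max C 0, le_max_right _ _, fun p hp s hs => ?_⟩
  have hO' := hO hp
  have h1 := mkF1_nn hO'
  have h2 := mkF2_nn hO'
  have h3 := mkF3_nn hO'
  have h3' : 0 ≤ |p.2.2| * mkF3 p := by positivity
  have h4 : mkF1 p ≤ mkF4 p := by
    unfold mkF4
    linarith
  have h5 := (le_abs_self _).trans (hC p hp)
  have h6 := le_max_left C 0
  have hd3 : (0 : ℝ) < (1 + s) ^ 3 := by positivity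
  have hd4 : (0 : ℝ) < (1 + s) ^ 4 := by positivity
  have e : (p.1, p.2.1, p.2.2) = p := rfl
  refine ⟨(mk_lam_le hO'.1 hO'.2 hs).trans ?_, (mk_lam1_le hO'.1 hO'.2 hs).trans ?_, (mk_lamX_le hO'.1 hO'.2 hs).trans ?_,
    (mk_ac_le hO'.1 hO'.2 hs).trans ?_⟩
  · rw [e]
    exact div_le_div_of_nonneg_right (by linarith) hd3.le
  · rw [e]
    exact div_le_div_of_nonneg_right (by linarith) hd4.le
  · rw [e]
    exact div_le_div_of_nonneg_right (by linarith) hd4.le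
  · rw [e]
    exact div_le_div_of_nonneg_right (by linarith) hd3.le

end H17S
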