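import Pool.Agent.Lib.H17S.W16

set_option autoImplicit false

/-!
Chunk MP (S). Zeroth moment of `ac`. `4 ac = E1'` (`E1_d`), `E1 0 = 0` (`E1 = -2 (f/g conj ρ + K t)`, `f(P) = 0`, `K 0 = 0`; continuity at `0` as in `w16_cw`), `E1 -> - ν` (`E1_as`), `integral_Ioi_of_hasDerivAt_of_tendsto`; same proof as `ac_int` in W16.lean.
-/

open MeasureTheory Filter Topology Set
open scoped ContDiff ComplexConjugate

namespace H17S

variable {M : Mo}

theorem mp_ac (h : M.Ok) : ContinuousOn (fun t : ℝ => conj (M.ac t)) (Ici 0) ∧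
    ∃ C, ∀ s, 0 ≤ s → ‖conj (M.ac s)‖ ≤ C / (1 + s) ^ 2 := by
  obtain ⟨c1, -, c3⟩ := w7_cont h
  refine ⟨?_, ?_⟩
  · have hac : ContinuousOn M.ac (Ici 0) := by
      show ContinuousOn (fun s => M.lam s + (M.X : ℂ) * M.lamX s) (Ici 0)
      exact c1.add (continuousOn_const.mul c3)
    exact Complex.continuous_conj.comp_continuousOn hac
  · obtain ⟨C, hC0, hC⟩ := h.dec
    refine ⟨C, fun s hs => ?_⟩
    obtain ⟨-, -, -, h4, -⟩ := hC s hs
    rw [Complex.norm_conj]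
    refine h4.trans ?_
    apply div_le_div_of_nonneg_left hC0 (by positivity)
    exact pow_le_pow_right₀ (by linarith) (by norm_num)

theorem mp_lim (h : M.Ok) : Tendsto (fun s : ℝ => conj (M.E1 s)) atTop (𝓝 (-(M.ν : ℂ))) := by
  set m0 := Mc M.P M.N with hm0
  obtain ⟨C1, hC1⟩ := h.E1_as
  have hC10 : 0 ≤ C1 := by
    have h1 := (norm_nonneg _).trans (hC1 1 le_rfl)
    simpa using h1
  have t1 : Tendsto (fun s : ℝ => conj (M.E1 s) + (M.ν : ℂ)) atTop (𝓝 0) := by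
    refine w16_zero (C := C1 + 2 * ‖m0‖) ?_
    intro s hs
    have hsp : 0 < s := by linarith
    have hdec : conj (M.E1 s) + (M.ν : ℂ) =
        conj (M.E1 s - (-(M.ν : ℂ) + 2 * m0 / (s : ℂ) ^ 2)) + 2 * conj m0 / (s : ℂ) ^ 2 := by
      rw [map_sub, map_add, map_neg, map_div₀, map_mul, map_pow, Complex.conj_ofReal, Complex.conj_ofReal, Complex.conj_ofNat]
      ring
    rw [hdec]
    refine (norm_add_le _ _).trans ?_
    rw [Complex.norm_conj, norm_div, norm_mul, Complex.norm_conj, norm_pow,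
      Complex.norm_real, Real.norm_of_nonneg hsp.le]
    have h2 : ‖(2 : ℂ)‖ = 2 := by simp
    rw [h2]
    have h3 : C1 / s ^ 3 ≤ C1 / s := by
      apply div_le_div_of_nonneg_left hC10 hsp
      nlinarith [pow_le_pow_right₀ hs (by norm_num : 1 ≤ 3)]
    have h4 : 2 * ‖m0‖ / s ^ 2 ≤ 2 * ‖m0‖ / s := by
      apply div_le_div_of_nonneg_left (by positivity) hsp
      nlinarith
    calc ‖M.E1 s - (-(M.ν : ℂ) + 2 * m0 / (s : ℂ) ^ 2)‖ + 2 * ‖m0‖ / s ^ 2 ≤ C1 / s + 2 * ‖m0‖ / s := by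
          linarith [hC1 s hs]
      _ = (C1 + 2 * ‖m0‖) / s := by ring
  have t2 := t1.sub_const (M.ν : ℂ)
  rw [zero_sub] at t2
  refine t2.congr fun s => ?_
  ring

theorem ac_int0 (h : M.Ok) : 4 * ∫ t in Ioi (0 : ℝ), conj (M.ac t) = - (M.ν : ℂ) := by
  obtain ⟨a1, C, a2⟩ := mp_ac h
  have hint : IntegrableOn (fun t : ℝ => conj (M.ac t)) (Ioi 0) := w7_int a1 a2 le_rfl
  obtain ⟨e1, -⟩ := w16_cw h
  have hcont : ContinuousWithinAt (fun s : ℝ => conj (M.E1 s)) (Ici 0) 0 :=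
    Complex.continuous_conj.continuousAt.comp_continuousWithinAt e1
  have hder : ∀ s ∈ Ioi (0 : ℝ), HasDerivAt (fun s : ℝ => conj (M.E1 s)) (4 * conj (M.ac s)) s := by
    intro s hs
    have d1 : HasDerivAt (fun s => conj (M.E1 s)) (conj (4 * M.ac s)) s := (h.E1_d hs).star
    refine d1.congr_deriv ?_
    rw [map_mul, Complex.conj_ofNat]
  have hf0 : M.f 0 = 0 := by
    show ff M.P M.N (M.r 0) = 0
    rw [h.r_zero, ff_P h.P_pos]
  have hE0 : M.E1 0 = 0 := by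
    show -2 * ((M.f 0 : ℂ) / (M.g 0 : ℂ) * conj (M.ρ 0) + (M.K 0 : ℂ) * M.t 0) = 0
    rw [h.K_zero, hf0]
    simp
  have h1 := integral_Ioi_of_hasDerivAt_of_tendsto hcont hder (hint.const_mul 4) (mp_lim h)
  rw [integral_const_mul] at h1
  rw [h1, hE0]
  simp

end H17S
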