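import Pool.Agent.Lib.H17S.MN1
import Pool.Agent.Lib.H17S.MJ

set_option autoImplicit false

/-!
Chunk MN2 (M). `betam -> - ∞` at the critical value of `X`.
`F = Fmax`, `X = (1 - k) Xc >= Xc/2 > 0`, `Xc F = 1`. `G = Gx <= 1`, so `- betam = - P + P X ∫_0^1 w/(√G (1 + √G)) >= - P + (P Xc/4) ∫_0^1 w/√G`.
Let `x₀ ∈ (0,1)` be a maximum point (`Fmax_mem`), `δ = min (1/2) (1/√(2 C3))`, and let `I ⊆ [0,1]` be the interval `[x₀, x₀ + δ]` if `x₀ <= 1/2`, `[x₀ - δ, x₀]` otherwise. On `I`, with `y = |x - x₀|`: `G = 1 - (1-k) g/F <= k + C3 y²` (`near_max`),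
`w >= x² w = g >= F (1 - C3 y²) >= F/2`. So `∫_0^1 w/√G >= (F/2) ∫_0^δ (k + C3 y²)^(-1/2) dy >= (F/2) ∫_{√k}^δ (1 + C3)^(-1/2) dy/y = F/(2 √(1 + C3)) log(δ/√k)` (as `k <= y²` for `y >= √k`). Hence
`- betam >= - P + P/(8 √(1 + C3)) log(δ/√k)`.
`blow_up'`: `K` compact, `P <= P₁`, `P >= p₀ > 0` on `K`, `C3 <= C` on `K` (continuous: `Fmax_cont`, `Fmax_pos`), so with `δ₀ = min (1/2) (1/√(2C))` the right side is at least `- P₁ + p₀/(8√(1+C)) log(δ₀/√k)` for `√k <= δ₀`, which is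
`>= Γ` for small `k`. (`K` empty: trivial.)
-/

open MeasureTheory Filter Topology Set

namespace H17S

theorem mn2_sub {j : ℝ → ℝ} {a b : ℝ} (hj : ContinuousOn j (Icc 0 1)) (h0 : ∀ x ∈ Icc (0 : ℝ) 1, 0 ≤ j x) (ha : 0 ≤ a) (hab : a ≤ b)
    (hb : b ≤ 1) : ∫ x in a..b, j x ≤ ∫ x in (0 : ℝ)..1, j x := by
  have hi : IntervalIntegrable j volume 0 1 := by
    apply ContinuousOn.intervalIntegrable
    rwa [uIcc_of_le zero_le_one]
  apply intervalIntegral.integral_mono_interval ha hab hb ?_ hi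
  refine (ae_restrict_iff' measurableSet_Ioc).2 (ae_of_all _ fun x hx => ?_)
  exact h0 x ⟨hx.1.le, hx.2⟩

/-- A lower bound of the integral over an interval next to the maximum point. -/
theorem mn2_log {j : ℝ → ℝ} {x₀ c e δ : ℝ} (hj : ContinuousOn j (Icc 0 1)) (h0 : ∀ x ∈ Icc (0 : ℝ) 1, 0 ≤ j x) (hx₀ : x₀ ∈ Ioo (0 : ℝ) 1)
    (he : 0 < e) (heδ : e ≤ δ) (hδ : δ ≤ 1 / 2)
    (hlow : ∀ x ∈ Icc (0 : ℝ) 1, e ≤ |x - x₀| → |x - x₀| ≤ δ → c * (1 / |x - x₀|) ≤ j x) :
    c * Real.log (δ / e) ≤ ∫ x in (0 : ℝ)..1, j x := by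
  have hδ0 : 0 < δ := he.trans_le heδ
  by_cases h : x₀ ≤ 1 / 2
  · have hab : x₀ + e ≤ x₀ + δ := by linarith
    have h1 := mn2_sub hj h0 (a := x₀ + e) (b := x₀ + δ) (by linarith [hx₀.1]) hab (by linarith)
    refine le_trans ?_ h1
    have e1 : c * Real.log (δ / e) = ∫ x in (x₀ + e)..(x₀ + δ), c * (1 / (x - x₀)) := by
      rw [intervalIntegral.integral_const_mul]
      rw [intervalIntegral.integral_comp_sub_right (fun x => 1 / x) x₀]
      rw [add_sub_cancel_left, add_sub_cancel_left, integral_one_div_of_pos he hδ0]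
    rw [e1]
    apply intervalIntegral.integral_mono_on hab
    · apply ContinuousOn.intervalIntegrable
      rw [uIcc_of_le hab]
      intro x hx
      have : x - x₀ ≠ 0 := by linarith [hx.1]
      exact (continuousAt_const.mul (continuousAt_const.div (continuousAt_id.sub continuousAt_const) this)).continuousWithinAt
    · apply ContinuousOn.intervalIntegrable
      rw [uIcc_of_le hab]
      exact hj.mono fun x hx => ⟨by linarith [hx.1, hx₀.1], by linarith [hx.2]⟩
    · intro x hx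
      have h2 : |x - x₀| = x - x₀ := abs_of_nonneg (by linarith [hx.1])
      have h3 := hlow x ⟨by linarith [hx.1, hx₀.1], by linarith [hx.2]⟩ (by rw [h2]; linarith [hx.1]) (by rw [h2]; linarith [hx.2])
      rwa [h2] at h3
  · have h' : 1 / 2 < x₀ := not_le.1 h
    have hab : x₀ - δ ≤ x₀ - e := by linarith
    have h1 := mn2_sub hj h0 (a := x₀ - δ) (b := x₀ - e) (by linarith) hab (by linarith [hx₀.2])
    refine le_trans ?_ h1
    have e1 : c * Real.log (δ / e) = ∫ x in (x₀ - δ)..(x₀ - e), c * (1 / (x₀ - x)) := by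
      rw [intervalIntegral.integral_const_mul]
      rw [intervalIntegral.integral_comp_sub_left (fun x => 1 / x) x₀]
      rw [sub_sub_cancel, sub_sub_cancel, integral_one_div_of_pos he hδ0]
    rw [e1]
    apply intervalIntegral.integral_mono_on hab
    · apply ContinuousOn.intervalIntegrable
      rw [uIcc_of_le hab]
      intro x hx
      have : x₀ - x ≠ 0 := by linarith [hx.2]
      exact (continuousAt_const.mul (continuousAt_const.div (continuousAt_const.sub continuousAt_id) this)).continuousWithinAt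
    · apply ContinuousOn.intervalIntegrable
      rw [uIcc_of_le hab]
      exact hj.mono fun x hx => ⟨by linarith [hx.1], by linarith [hx.2, hx₀.2]⟩
    · intro x hx
      have h2 : |x - x₀| = x₀ - x := by
        rw [abs_sub_comm]
        exact abs_of_nonneg (by linarith [hx.2])
      have h3 := hlow x ⟨by linarith [hx.1], by linarith [hx.2, hx₀.2]⟩ (by rw [h2]; linarith [hx.2]) (by rw [h2]; linarith [hx.1])
      rwa [h2] at h3

theorem blow_up {P N k : ℝ} (hP : 0 < P) (hk : 0 < k) (hk2 : k ≤ 1 / 2) (hk3 : √k ≤ min (1 / 2) (1 / √(2 * C3 P N))) :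
    - P + P / (8 * √(1 + C3 P N)) * Real.log (min (1 / 2) (1 / √(2 * C3 P N)) / √k) ≤ - betam P N ((1 - k) * Xc P N) := by
  have hF := Fmax_pos N hP
  have hC := C3_pos N hP
  have hXc := Xc_pos N hP
  have hXF : Xc P N * Fmax P N = 1 := by
    unfold Xc
    exact inv_mul_cancel₀ hF.ne'
  obtain ⟨x₀, hx₀, hm⟩ := Fmax_mem N hP
  set F := Fmax P N with hFdef
  set C := C3 P N with hCdef
  set X := (1 - k) * Xc P N with hXdef
  have hX0 : 0 ≤ X := mul_nonneg (by linarith) hXc.le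
  have hX1 : X < Xc P N := by
    rw [hXdef]
    nlinarith
  have hXhalf : Xc P N / 2 ≤ X := by
    rw [hXdef]
    nlinarith
  have hsC : 0 < √(1 + C) := Real.sqrt_pos.2 (by linarith)
  have hsk : 0 < √k := Real.sqrt_pos.2 hk
  have hs2C : 0 < √(2 * C) := Real.sqrt_pos.2 (by linarith)
  -- the integrand
  have hcont : ContinuousOn (fun x => wm P N x / (√(Gx P N X x) * (1 + √(Gx P N X x)))) (Icc 0 1) := by
    have hw : ContinuousOn (fun x => wm P N x) (Icc 0 1) := by
      have h := wm_cont.comp (f := fun x : ℝ => ((P, N), x)) (s := Icc 0 1) (by fun_prop) (fun x _ => hP)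
      exact h
    have hG : ContinuousOn (fun x => Gx P N X x) (Icc 0 1) := by
      unfold Gx
      exact continuousOn_const.sub (continuousOn_const.mul ((continuousOn_id.pow 2).mul hw))
    refine hw.div (hG.sqrt.mul (continuousOn_const.add hG.sqrt)) fun x hx => ?_
    have h1 := Gx_pos hP hX1 hx
    have h2 := Real.sqrt_pos.2 h1
    positivity
  have hnn : ∀ x ∈ Icc (0 : ℝ) 1, 0 ≤ wm P N x / (√(Gx P N X x) * (1 + √(Gx P N X x))) := by
    intro x hx
    have h1 := wm_nonneg (N := N) hP hx.1 hx.2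
    positivity
  have hlow : ∀ x ∈ Icc (0 : ℝ) 1, √k ≤ |x - x₀| → |x - x₀| ≤ min (1 / 2) (1 / √(2 * C)) →
      F / (4 * √(1 + C)) * (1 / |x - x₀|) ≤ wm P N x / (√(Gx P N X x) * (1 + √(Gx P N X x))) := by
    intro x hx h1 h2
    set y := |x - x₀| with hy
    have hy0 : 0 < y := hsk.trans_le h1
    have hyy : (x - x₀) ^ 2 = y ^ 2 := by rw [hy, sq_abs]
    have hky : k ≤ y ^ 2 := by
      calc k = √k ^ 2 := (Real.sq_sqrt hk.le).symm
        _ ≤ y ^ 2 := by gcongr
    have hCy : C * y ^ 2 ≤ 1 / 2 := by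
      have h3 : y ≤ 1 / √(2 * C) := h2.trans (min_le_right _ _)
      have h4 : y ^ 2 ≤ (1 / √(2 * C)) ^ 2 := by gcongr
      rw [div_pow, one_pow, Real.sq_sqrt (by linarith)] at h4
      calc C * y ^ 2 ≤ C * (1 / (2 * C)) := by gcongr
        _ = 1 / 2 := by field_simp
    have hn := near_max hP hx₀ hm hx
    rw [← hFdef, ← hCdef, hyy] at hn
    have hle := le_Fmax (N := N) hP hx
    rw [← hFdef] at hle
    have hG := Gx_pos hP hX1 hx
    have hGle := Gx_le (N := N) hP hX0 hx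
    have hwn := wm_nonneg (N := N) hP hx.1 hx.2
    -- G <= (1 + C) y²
    have hGy : Gx P N X x ≤ (1 + C) * y ^ 2 := by
      have h5 : Gx P N X x = 1 - (1 - k) * (Xc P N * (x ^ 2 * wm P N x)) := by
        unfold Gx
        rw [hXdef]
        ring
      have h6 : 1 - C * y ^ 2 ≤ Xc P N * (x ^ 2 * wm P N x) := by
        have h7 := mul_le_mul_of_nonneg_left hn hXc.le
        have h8 : Xc P N * (F * (1 - C * y ^ 2)) = 1 - C * y ^ 2 := by
          rw [← mul_assoc, hXF, one_mul]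
        rwa [h8] at h7
      rw [h5]
      nlinarith [mul_le_mul_of_nonneg_left h6 (by linarith : (0 : ℝ) ≤ 1 - k), mul_nonneg hk.le (mul_nonneg hC.le (sq_nonneg y))]
    have hsG : √(Gx P N X x) ≤ √(1 + C) * y := by
      calc √(Gx P N X x) ≤ √((1 + C) * y ^ 2) := Real.sqrt_le_sqrt hGy
        _ = √(1 + C) * y := by rw [Real.sqrt_mul (by linarith), Real.sqrt_sq hy0.le]
    have hsG0 : 0 < √(Gx P N X x) := Real.sqrt_pos.2 hG
    have hsG1 : √(Gx P N X x) ≤ 1 := by
      have := Real.sqrt_le_sqrt hGle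
      rwa [Real.sqrt_one] at this
    have hw : F / 2 ≤ wm P N x := by
      have h9 : x ^ 2 * wm P N x ≤ wm P N x := by
        have : x ^ 2 ≤ 1 := by nlinarith [hx.1, hx.2]
        nlinarith
      have h10 : F * (1 / 2) ≤ F * (1 - C * y ^ 2) := by
        apply mul_le_mul_of_nonneg_left _ hF.le
        linarith
      linarith
    calc F / (4 * √(1 + C)) * (1 / y) = (F / 2) / ((√(1 + C) * y) * 2) := by field_simp; ring
      _ ≤ wm P N x / (√(Gx P N X x) * (1 + √(Gx P N X x))) := by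
        apply div_le_div₀ hwn hw (by positivity)
        have : 1 + √(Gx P N X x) ≤ 2 := by linarith
        gcongr
  have hmain := mn2_log hcont hnn hx₀ hsk hk3 (min_le_left _ _) hlow
  have hb : - betam P N X = - P + P * X * ∫ x in (0 : ℝ)..1, wm P N x / (√(Gx P N X x) * (1 + √(Gx P N X x))) := by
    unfold betam
    ring
  rw [hb]
  have hlog : 0 ≤ Real.log (min (1 / 2) (1 / √(2 * C)) / √k) := by
    apply Real.log_nonneg
    rw [le_div_iff₀ hsk, one_mul]
    exact hk3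
  have h11 : P / (8 * √(1 + C)) * Real.log (min (1 / 2) (1 / √(2 * C)) / √k) =
      P * (Xc P N / 2) * (F / (4 * √(1 + C)) * Real.log (min (1 / 2) (1 / √(2 * C)) / √k)) := by
    have : P * (Xc P N / 2) * (F / (4 * √(1 + C)) * Real.log (min (1 / 2) (1 / √(2 * C)) / √k)) =
      (Xc P N * F) * (P / (8 * √(1 + C)) * Real.log (min (1 / 2) (1 / √(2 * C)) / √k)) := by
      field_simp
      ring
    rw [this, hXF, one_mul]
  rw [h11]
  have h12 : P * (Xc P N / 2) * (F / (4 * √(1 + C)) * Real.log (min (1 / 2) (1 / √(2 * C)) / √k)) ≤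
      P * X * (F / (4 * √(1 + C)) * Real.log (min (1 / 2) (1 / √(2 * C)) / √k)) := by
    gcongr
  have h13 : P * X * (F / (4 * √(1 + C)) * Real.log (min (1 / 2) (1 / √(2 * C)) / √k)) ≤
      P * X * ∫ x in (0 : ℝ)..1, wm P N x / (√(Gx P N X x) * (1 + √(Gx P N X x))) := by
    gcongr
  linarith

theorem mn2_C3_cont : ContinuousOn (fun p : ℝ × ℝ => C3 p.1 p.2) {p | 0 < p.1} := by
  unfold C3
  have h1 : ContinuousOn (fun p : ℝ × ℝ => Fmax p.1 p.2) {p | 0 < p.1} := Fmax_cont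
  have h2 : ContinuousOn (fun p : ℝ × ℝ => p.1) {p | 0 < p.1} := continuousOn_fst
  have h3 : ContinuousOn (fun p : ℝ × ℝ => p.2) {p | 0 < p.1} := continuousOn_snd
  refine ContinuousOn.div ?_ ?_ ?_
  · exact ((h1.mul (((continuousOn_const.mul (h2.pow 2)).mul (h3.pow 2)).add (continuousOn_const.mul (h3.pow 4)))).add
      (continuousOn_const.mul (h2.pow 2))).add (continuousOn_const.mul (h3.pow 2))
  · exact (continuousOn_const.mul (h2.pow 4)).mul h1
  · intro p hp
    have hp' : 0 < p.1 := hp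
    have hF := Fmax_pos p.2 hp'
    positivity

theorem blow_up' {K : Set (ℝ × ℝ)} (hK : IsCompact K) (hP : ∀ p ∈ K, 0 < p.1) (Γ : ℝ) : ∃ k₀, 0 < k₀ ∧ k₀ ≤ 1 / 2 ∧
    ∀ k, 0 < k → k ≤ k₀ → ∀ p ∈ K, Γ ≤ - betam p.1 p.2 ((1 - k) * Xc p.1 p.2) := by
  obtain ⟨C', hC'⟩ := hK.exists_bound_of_continuousOn (mn2_C3_cont.mono fun p hp => hP p hp)
  obtain ⟨P₁, hP₁⟩ := hK.exists_bound_of_continuousOn (f := fun p : ℝ × ℝ => p.1) continuousOn_fst
  obtain ⟨Q', hQ'⟩ := hK.exists_bound_of_continuousOn (f := fun p : ℝ × ℝ => 1 / p.1)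
    (continuousOn_const.div continuousOn_fst fun p hp => (hP p hp).ne')
  set C := max C' 1 with hC
  set Q := max Q' 1 with hQ
  have hC0 : 0 < C := lt_of_lt_of_le one_pos (le_max_right _ _)
  have hQ0 : 0 < Q := lt_of_lt_of_le one_pos (le_max_right _ _)
  set δ := min (1 / 2) (1 / √(2 * C)) with hδ
  have hδ0 : 0 < δ := lt_min (by norm_num) (by positivity)
  set c := 1 / Q / (8 * √(1 + C)) with hc
  have hc0 : 0 < c := by positivity
  set A := max ((Γ + P₁) / c) 0 with hA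
  have hA0 : 0 ≤ A := le_max_right _ _
  have hd : 0 < δ * Real.exp (-A) := by positivity
  refine ⟨min (1 / 2) ((δ * Real.exp (-A)) ^ 2), lt_min (by norm_num) (by positivity), min_le_left _ _, ?_⟩
  intro k hk hk0 p hp
  have hPp := hP p hp
  have hk2 : k ≤ 1 / 2 := hk0.trans (min_le_left _ _)
  have hsk : √k ≤ δ * Real.exp (-A) := by
    rw [← Real.sqrt_sq hd.le]
    exact Real.sqrt_le_sqrt (hk0.trans (min_le_right _ _))
  have hsk0 : 0 < √k := Real.sqrt_pos.2 hk
  have hexp : Real.exp (-A) ≤ 1 := Real.exp_le_one_iff.2 (by linarith)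
  have hskδ : √k ≤ δ := hsk.trans (by nlinarith)
  have hC3 : C3 p.1 p.2 ≤ C := (le_abs_self _).trans ((hC' p hp).trans (le_max_left _ _))
  have hC3p := C3_pos p.2 hPp
  have hδle : δ ≤ min (1 / 2) (1 / √(2 * C3 p.1 p.2)) := by
    apply min_le_min le_rfl
    apply one_div_le_one_div_of_le (Real.sqrt_pos.2 (by linarith))
    apply Real.sqrt_le_sqrt
    linarith
  have h1 := blow_up (N := p.2) hPp hk hk2 (hskδ.trans hδle)
  refine le_trans ?_ h1
  have hPle : p.1 ≤ P₁ := (le_abs_self _).trans (hP₁ p hp)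
  have hPge : 1 / Q ≤ p.1 := by
    have h2 : 1 / p.1 ≤ Q := (le_abs_self _).trans ((hQ' p hp).trans (le_max_left _ _))
    rw [div_le_iff₀ hPp] at h2
    rw [div_le_iff₀ hQ0]
    linarith
  have hlog1 : Real.log (δ / √k) ≤ Real.log (min (1 / 2) (1 / √(2 * C3 p.1 p.2)) / √k) := by
    apply Real.log_le_log (by positivity)
    gcongr
  have hlogA : A ≤ Real.log (δ / √k) := by
    rw [Real.le_log_iff_exp_le (by positivity), le_div_iff₀ hsk0]
    calc Real.exp A * √k ≤ Real.exp A * (δ * Real.exp (-A)) := by gcongr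
      _ = δ * (Real.exp A * Real.exp (-A)) := by ring
      _ = δ := by rw [← Real.exp_add, add_neg_cancel, Real.exp_zero, mul_one]
  have hcoef : c ≤ p.1 / (8 * √(1 + C3 p.1 p.2)) := by
    rw [hc]
    apply div_le_div₀ hPp.le hPge (by positivity)
    have : √(1 + C3 p.1 p.2) ≤ √(1 + C) := Real.sqrt_le_sqrt (by linarith)
    gcongr
  have h3 : c * A ≤ p.1 / (8 * √(1 + C3 p.1 p.2)) * Real.log (min (1 / 2) (1 / √(2 * C3 p.1 p.2)) / √k) := by
    apply mul_le_mul hcoef (hlogA.trans hlog1) hA0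
    positivity
  have h4 : Γ + P₁ ≤ c * A := by
    have h5 : (Γ + P₁) / c ≤ A := le_max_left _ _
    rw [div_le_iff₀ hc0] at h5
    linarith
  linarith

end H17S
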