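import Pool.Agent.Lib.H17S.MJ

set_option autoImplicit false

/-!
Chunk MQ. `betam` is antitone in `X` (its derivative is `- num / 4`).
-/

open MeasureTheory Filter Topology Set

namespace H17S

theorem betam_X {P N X : ℝ} (hP : 0 < P) (hX : X < Xc P N) : HasDerivAt (betam P N) (- num P N X / 4) X := by
  have h := ((kapm_X hP hX).div_const 2).add_const P
  have e : (fun X => kapm P N X / 2 + P) = betam P N := by
    funext Y
    unfold kapm
    ring
  rw [e] at h
  refine h.congr_deriv ?_
  ring

theorem betam_anti {P N : ℝ} (hP : 0 < P) : AntitoneOn (betam P N) (Iio (Xc P N)) := by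
  apply antitoneOn_of_deriv_nonpos (convex_Iio _)
  · exact fun X hX => (betam_X hP hX).continuousAt.continuousWithinAt
  · intro X hX
    rw [interior_Iio] at hX
    exact (betam_X hP hX).differentiableAt.differentiableWithinAt
  · intro X hX
    rw [interior_Iio] at hX
    rw [(betam_X hP hX).deriv]
    have := num_pos hP hX
    linarith

end H17S
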