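import Mathlib

/-! # H17S: Brouwer, part 1: the volume of the image under x + t g(x) is polynomial in t -/

open MeasureTheory Set Metric

namespace H17S

/-- Integrals of polynomials of bounded degree which are constant on an interval are constant. -/
theorem br1_lagrange {α : Type*} [MeasurableSpace α] (μ : Measure α) (d : ℕ)
    (q : α → ℝ → ℝ) (hq : ∀ x, ∃ Q : Polynomial ℝ, Q.natDegree ≤ d ∧ ∀ t, Q.eval t = q x t)
    (hi : ∀ t : ℝ, Integrable (fun x => q x t) μ) (c ε : ℝ) (hε : 0 < ε)
    (hc : ∀ t, 0 ≤ t → t < ε → ∫ x, q x t ∂μ = c) (t : ℝ) : ∫ x, q x t ∂μ = c := by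
  classical
  let v : Fin (d + 1) → ℝ := fun i => ε * i / (d + 1)
  have hd : (0 : ℝ) < d + 1 := by positivity
  have hv : Function.Injective v := by
    intro i j h
    have h1 : ε * (i : ℝ) / (d + 1) = ε * (j : ℝ) / (d + 1) := h
    have h2 : ε * (i : ℝ) = ε * (j : ℝ) := by
      field_simp at h1
      nlinarith [h1]
    have h3 : ((i : ℕ) : ℝ) = ((j : ℕ) : ℝ) := mul_left_cancel₀ hε.ne' h2
    exact Fin.ext (by exact_mod_cast h3)
  have hv0 : ∀ i, 0 ≤ v i := fun i => by positivity
  have hv1 : ∀ i, v i < ε := by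
    intro i
    have h1 : ((i : ℕ) : ℝ) < d + 1 := by exact_mod_cast i.2
    show ε * (i : ℝ) / (d + 1) < ε
    rw [div_lt_iff₀ hd]
    exact mul_lt_mul_of_pos_left h1 hε
  have hcard : ∀ Q : Polynomial ℝ, Q.natDegree ≤ d →
      Q.degree < (Finset.univ : Finset (Fin (d + 1))).card := by
    intro Q hQ
    rw [Finset.card_univ, Fintype.card_fin]
    exact lt_of_le_of_lt Polynomial.degree_le_natDegree (by exact_mod_cast Nat.lt_succ_of_le hQ)
  have hval : ∀ Q : Polynomial ℝ, Q.natDegree ≤ d → ∀ s : ℝ, Q.eval s =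
      ∑ i, Q.eval (v i) * (Lagrange.basis Finset.univ v i).eval s := by
    intro Q hQ s
    have h1 := Lagrange.eq_interpolate (s := Finset.univ) (v := v) (f := Q) hv.injOn (hcard Q hQ)
    conv_lhs => rw [h1]
    rw [Lagrange.interpolate_apply, Polynomial.eval_finsetSum]
    refine Finset.sum_congr rfl fun i _ => ?_
    rw [Polynomial.eval_mul, Polynomial.eval_C]
  have h1 : ∀ x, q x t = ∑ i, q x (v i) * (Lagrange.basis Finset.univ v i).eval t := by
    intro x
    obtain ⟨Q, hQ, hQe⟩ := hq x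
    rw [← hQe t, hval Q hQ t]
    exact Finset.sum_congr rfl fun i _ => by rw [hQe]
  have h2 : ∫ x, q x t ∂μ = ∑ i, c * (Lagrange.basis Finset.univ v i).eval t := by
    calc ∫ x, q x t ∂μ = ∫ x, ∑ i, q x (v i) * (Lagrange.basis Finset.univ v i).eval t ∂μ := by
          exact integral_congr_ae (Filter.Eventually.of_forall h1)
      _ = ∑ i, ∫ x, q x (v i) * (Lagrange.basis Finset.univ v i).eval t ∂μ :=
          integral_finsetSum _ fun i _ => (hi (v i)).mul_const _
      _ = _ := by
          refine Finset.sum_congr rfl fun i _ => ?_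
          rw [integral_mul_const, hc (v i) (hv0 i) (hv1 i)]
  rw [h2]
  have h3 := hval (Polynomial.C c) (by simp) t
  rw [Polynomial.eval_C] at h3
  conv_rhs => rw [h3]
  exact Finset.sum_congr rfl fun i _ => by rw [Polynomial.eval_C]

variable {E : Type*} [NormedAddCommGroup E] [InnerProductSpace ℝ E] [FiniteDimensional ℝ E]

/-- det (1 + t A) is a polynomial in t. -/
theorem br1_poly (A : E →L[ℝ] E) : ∃ Q : Polynomial ℝ, Q.natDegree ≤ Module.finrank ℝ E ∧
    ∀ t : ℝ, Q.eval t = (1 + t • A : E →L[ℝ] E).det := by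
  classical
  let b := Module.finBasis ℝ E
  let M := LinearMap.toMatrix b b (A : E →ₗ[ℝ] E)
  refine ⟨((Polynomial.X : Polynomial ℝ) • M.map Polynomial.C +
    (1 : Matrix _ _ ℝ).map Polynomial.C).det, ?_, ?_⟩
  · have h := Polynomial.natDegree_det_X_add_C_le M (1 : Matrix _ _ ℝ)
    rwa [Fintype.card_fin] at h
  · intro t
    rw [← Polynomial.coe_evalRingHom, RingHom.map_det]
    have h1 : (1 + t • A : E →L[ℝ] E).det =
        (LinearMap.toMatrix b b (1 + t • (A : E →ₗ[ℝ] E))).det := by
      rw [LinearMap.det_toMatrix]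
      rfl
    have h3 : LinearMap.toMatrix b b (1 + t • (A : E →ₗ[ℝ] E)) = 1 + t • M := by
      rw [map_add, map_smul]
      congr 1
      exact LinearMap.toMatrix_one b
    rw [h1, h3]
    congr 1
    ext i j
    simp only [RingHom.mapMatrix_apply, Matrix.map_apply, Matrix.add_apply, Matrix.smul_apply,
      smul_eq_mul, Polynomial.coe_evalRingHom, Polynomial.eval_add, Polynomial.eval_mul,
      Polynomial.eval_X, Polynomial.eval_C]
    ring

end H17S
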