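import Mathlib
import Pool.Agent.Lib.H17S.Br1

/-! # H17S: Brouwer, part 2: there is no retraction of the ball onto the sphere (Milnor, Rogers) -/

open MeasureTheory Set Metric
open scoped NNReal

namespace H17S

variable {E : Type*} [NormedAddCommGroup E] [InnerProductSpace ℝ E] [FiniteDimensional ℝ E]

theorem br2_bound (K : ℝ) : ∃ C : ℝ, ∀ B : E →L[ℝ] E, ‖B‖ ≤ K → ‖B.det‖ ≤ C := by
  have h1 : ProperSpace (E →L[ℝ] E) := FiniteDimensional.proper ℝ (E →L[ℝ] E)
  have h2 : IsCompact (closedBall (0 : E →L[ℝ] E) K) := isCompact_closedBall _ _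
  obtain ⟨C, hC⟩ := h2.exists_bound_of_continuousOn
    (ContinuousLinearMap.continuous_det (𝕜 := ℝ) (E := E)).continuousOn
  exact ⟨C, fun B hB => hC B (by rwa [mem_closedBall_zero_iff])⟩

theorem br2_pos (A : E →L[ℝ] E) (K : ℝ) (hA : ‖A‖ ≤ K) {t : ℝ} (ht : 0 ≤ t) (ht1 : t * K < 1) :
    0 < (1 + t • A : E →L[ℝ] E).det := by
  by_contra hneg
  rw [not_lt] at hneg
  have hc : ContinuousOn (fun s : ℝ => (1 + s • A : E →L[ℝ] E).det) (Icc 0 t) := by
    apply Continuous.continuousOn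
    exact ContinuousLinearMap.continuous_det.comp (by fun_prop)
  have h0 : (1 + (0 : ℝ) • A : E →L[ℝ] E).det = 1 := by
    rw [zero_smul, add_zero]
    exact LinearMap.det_id
  obtain ⟨s, hs, hs0⟩ := intermediate_value_Icc' ht hc (show (0 : ℝ) ∈ Icc _ _ from
    ⟨hneg, by
      show (0 : ℝ) ≤ (1 + (0 : ℝ) • A : E →L[ℝ] E).det
      rw [h0]
      exact zero_le_one⟩)
  have h1 := LinearMap.bot_lt_ker_of_det_eq_zero (f := ((1 + s • A : E →L[ℝ] E) : E →ₗ[ℝ] E)) hs0
  obtain ⟨v, hv, hv0⟩ := (Submodule.ne_bot_iff _).1 h1.ne'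
  have h2 : v + s • A v = 0 := LinearMap.mem_ker.1 hv
  have h3 : ‖v‖ = ‖s • A v‖ := by
    conv_lhs => rw [eq_neg_of_add_eq_zero_left h2, norm_neg]
  have h4 : ‖s • A v‖ ≤ s * (K * ‖v‖) := by
    rw [norm_smul, Real.norm_of_nonneg hs.1]
    exact mul_le_mul_of_nonneg_left ((A.le_opNorm v).trans
      (mul_le_mul_of_nonneg_right hA (norm_nonneg _))) hs.1
  have h5 : 0 < ‖v‖ := norm_pos_iff.2 hv0
  have hK : 0 ≤ K := (norm_nonneg _).trans hA
  have h6 : s * K ≤ t * K := mul_le_mul_of_nonneg_right hs.2 hK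
  nlinarith

variable [MeasurableSpace E] [BorelSpace E]

theorem br2_int (g : E → E) (K : ℝ≥0) (hK : LipschitzWith K g) (t : ℝ) :
    Integrable (fun x => (1 + t • fderiv ℝ g x : E →L[ℝ] E).det) (volume.restrict (ball (0 : E) 1)) := by
  obtain ⟨C, hC⟩ := br2_bound (E := E) (1 + |t| * K)
  have hm : Measurable (fun x => (1 + t • fderiv ℝ g x : E →L[ℝ] E).det) := by
    apply ContinuousLinearMap.continuous_det.measurable.comp
    exact (measurable_fderiv ℝ g).const_smul t |>.const_add 1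
  have hfin : IsFiniteMeasure (volume.restrict (ball (0 : E) 1)) :=
    ⟨by rw [Measure.restrict_apply_univ]; exact measure_ball_lt_top⟩
  refine Integrable.of_bound hm.aestronglyMeasurable C (Filter.Eventually.of_forall fun x => ?_)
  apply hC
  refine (norm_add_le _ _).trans (add_le_add ?_ ?_)
  · exact ContinuousLinearMap.norm_id_le
  · rw [norm_smul, Real.norm_eq_abs]
    exact mul_le_mul_of_nonneg_left (norm_fderiv_le_of_lipschitz ℝ hK) (abs_nonneg _)

/-- The perturbation of the identity maps the ball onto itself. -/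
theorem br2_image (g : E → E) (K : ℝ≥0) (hK : LipschitzWith K g) (h0 : ∀ x, 1 ≤ ‖x‖ → g x = 0)
    {t : ℝ} (ht : 0 ≤ t) (ht1 : t * K < 1) :
    Function.Injective (fun x => x + t • g x) ∧
      (fun x => x + t • g x) '' ball (0 : E) 1 = ball 0 1 := by
  have hlip : ∀ x y, ‖g x - g y‖ ≤ K * ‖x - y‖ := fun x y => by
    have := hK.dist_le_mul x y
    rwa [dist_eq_norm, dist_eq_norm] at this
  have hinj : Function.Injective (fun x => x + t • g x) := by
    intro x y hxy
    have h1 : x - y = t • (g y - g x) := by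
      have h2 : x + t • g x = y + t • g y := hxy
      rw [smul_sub, sub_eq_sub_iff_add_eq_add, add_comm (t • g y)]
      exact h2
    by_contra hne
    have h3 : 0 < ‖x - y‖ := norm_pos_iff.2 (sub_ne_zero.2 hne)
    have h4 : ‖x - y‖ ≤ t * (K * ‖x - y‖) := by
      conv_lhs => rw [h1]
      rw [norm_smul, Real.norm_of_nonneg ht]
      refine mul_le_mul_of_nonneg_left ?_ ht
      rw [norm_sub_rev x y]
      exact hlip y x
    nlinarith
  have hsurj : Function.Surjective (fun x => x + t • g x) := by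
    intro y
    have hc : ContractingWith ⟨t * K, by positivity⟩ (fun x => y - t • g x) := by
      refine ⟨?_, LipschitzWith.of_dist_le_mul fun a b => ?_⟩
      · exact_mod_cast ht1
      · rw [dist_eq_norm, dist_eq_norm]
        have h1 : y - t • g a - (y - t • g b) = t • (g b - g a) := by
          rw [smul_sub]
          abel
        rw [h1, norm_smul, Real.norm_of_nonneg ht]
        show t * _ ≤ t * K * _
        rw [mul_assoc, norm_sub_rev a b]
        exact mul_le_mul_of_nonneg_left (hlip b a) ht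
    refine ⟨hc.fixedPoint, ?_⟩
    have h2 := hc.fixedPoint_isFixedPt
    have h3 : y - t • g hc.fixedPoint = hc.fixedPoint := h2
    show hc.fixedPoint + t • g hc.fixedPoint = y
    exact sub_eq_iff_eq_add.1 h3 |>.symm
  refine ⟨hinj, ?_⟩
  have hout : ∀ x, 1 ≤ ‖x‖ → x + t • g x = x := by
    intro x hx
    rw [h0 x hx, smul_zero, add_zero]
  ext y
  constructor
  · rintro ⟨x, hx, rfl⟩
    rw [mem_ball_zero_iff] at hx ⊢
    by_contra hy
    rw [not_lt] at hy
    have h1 := hout _ hy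
    have h2 : x + t • g x = x := hinj h1
    change 1 ≤ ‖x + t • g x‖ at hy
    rw [h2] at hy
    exact absurd hx (not_lt.2 hy)
  · intro hy
    obtain ⟨x, rfl⟩ := hsurj y
    refine ⟨x, ?_, rfl⟩
    rw [mem_ball_zero_iff] at hy ⊢
    by_contra hx
    rw [not_lt] at hx
    change ‖x + t • g x‖ < 1 at hy
    rw [hout x hx] at hy
    exact hx.not_gt hy

theorem br2_vol (g : E → E) (K : ℝ≥0) (hK : LipschitzWith K g) (h0 : ∀ x, 1 ≤ ‖x‖ → g x = 0)
    (hd : ∀ x ∈ ball (0 : E) 1, DifferentiableAt ℝ g x) {t : ℝ} (ht : 0 ≤ t) (ht1 : t * K < 1) :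
    ∫ x in ball (0 : E) 1, (1 + t • fderiv ℝ g x : E →L[ℝ] E).det =
      volume.real (ball (0 : E) 1) := by
  obtain ⟨hinj, him⟩ := br2_image g K hK h0 ht ht1
  have hder : ∀ x ∈ ball (0 : E) 1, HasFDerivWithinAt (fun x => x + t • g x)
      (1 + t • fderiv ℝ g x : E →L[ℝ] E) (ball 0 1) x := by
    intro x hx
    exact ((hasFDerivAt_id x).add ((hd x hx).hasFDerivAt.const_smul t)).hasFDerivWithinAt
  have h1 := integral_image_eq_integral_abs_det_fderiv_smul volume measurableSet_ball hder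
    hinj.injOn (fun _ => (1 : ℝ))
  rw [him] at h1
  have h2 : ∫ x in ball (0 : E) 1, (1 : ℝ) = volume.real (ball (0 : E) 1) := by
    rw [setIntegral_const, smul_eq_mul, mul_one]
  rw [← h2, h1]
  refine setIntegral_congr_fun measurableSet_ball fun x _ => ?_
  have h3 := br2_pos (fderiv ℝ g x) K (norm_fderiv_le_of_lipschitz ℝ hK) ht ht1
  show _ = |_| • (1 : ℝ)
  rw [abs_of_pos h3, smul_eq_mul, mul_one]

theorem br2_all (g : E → E) (K : ℝ≥0) (hK : LipschitzWith K g) (h0 : ∀ x, 1 ≤ ‖x‖ → g x = 0)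
    (hd : ∀ x ∈ ball (0 : E) 1, DifferentiableAt ℝ g x) (t : ℝ) :
    ∫ x in ball (0 : E) 1, (1 + t • fderiv ℝ g x : E →L[ℝ] E).det =
      volume.real (ball (0 : E) 1) := by
  have hK1 : (0 : ℝ) < K + 1 := by positivity
  refine br1_lagrange (volume.restrict (ball (0 : E) 1)) (Module.finrank ℝ E)
    (fun x t => (1 + t • fderiv ℝ g x : E →L[ℝ] E).det) (fun x => br1_poly _)
    (fun t => br2_int g K hK t) _ (1 / (K + 1)) (by positivity) (fun s hs hs1 => ?_) t
  refine br2_vol g K hK h0 hd hs ?_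
  rw [lt_div_iff₀ hK1] at hs1
  nlinarith

/-- Extension by zero of a Lipschitz function vanishing on the sphere. -/
theorem br2_ext (g : E → E) (K : ℝ≥0) (hK : LipschitzOnWith K g (closedBall 0 1))
    (h0 : ∀ x, ‖x‖ = 1 → g x = 0) :
    LipschitzWith K (fun x => if ‖x‖ ≤ 1 then g x else 0) := by
  have hlip : ∀ x y, ‖x‖ ≤ 1 → ‖y‖ ≤ 1 → ‖g x - g y‖ ≤ K * ‖x - y‖ := fun x y hx hy => by
    have := hK.dist_le_mul x (mem_closedBall_zero_iff.2 hx) y (mem_closedBall_zero_iff.2 hy)
    rwa [dist_eq_norm, dist_eq_norm] at this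
  have key : ∀ x y, ‖x‖ ≤ 1 → ¬ ‖y‖ ≤ 1 → ‖g x‖ ≤ K * ‖x - y‖ := by
    intro x y hx hy
    rw [not_le] at hy
    have hc : ContinuousOn (fun s : ℝ => ‖x + s • (y - x)‖) (Icc 0 1) := by fun_prop
    obtain ⟨s, hs, hs1⟩ := intermediate_value_Icc zero_le_one hc (show (1 : ℝ) ∈ Icc _ _ from
      ⟨by simpa using hx, by simpa using hy.le⟩)
    have h1 := hlip x (x + s • (y - x)) hx hs1.le
    rw [h0 _ hs1, sub_zero] at h1
    refine h1.trans (mul_le_mul_of_nonneg_left ?_ K.2)
    have h2 : x - (x + s • (y - x)) = s • (x - y) := by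
      rw [smul_sub, smul_sub]
      abel
    rw [h2, norm_smul, Real.norm_of_nonneg hs.1]
    exact mul_le_of_le_one_left (norm_nonneg _) hs.2
  refine LipschitzWith.of_dist_le_mul fun x y => ?_
  rw [dist_eq_norm, dist_eq_norm]
  by_cases hx : ‖x‖ ≤ 1 <;> by_cases hy : ‖y‖ ≤ 1
  · simp only [hx, hy, if_true]
    exact hlip x y hx hy
  · simp only [hx, hy, if_true, if_false, sub_zero]
    exact key x y hx hy
  · simp only [hx, hy, if_true, if_false, zero_sub, norm_neg]
    rw [norm_sub_rev]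
    exact key y x hy hx
  · simp only [hx, hy, if_false, sub_zero, norm_zero]
    positivity

/-- There is no differentiable Lipschitz retraction of the ball onto the sphere. -/
theorem br2_noret (r : E → E) (K : ℝ≥0) (hK : LipschitzOnWith K r (closedBall 0 1))
    (hid : ∀ x, ‖x‖ = 1 → r x = x) (hd : ∀ x ∈ ball (0 : E) 1, DifferentiableAt ℝ r x)
    (hs : ∀ x ∈ ball (0 : E) 1, ‖r x‖ = 1) : False := by
  let g : E → E := fun x => if ‖x‖ ≤ 1 then r x - x else 0
  have hg : LipschitzWith (K + 1) g := by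
    apply br2_ext (fun x => r x - x) (K + 1)
    · exact hK.sub (LipschitzWith.id.lipschitzOnWith)
    · intro x hx
      show r x - x = 0
      rw [hid x hx, sub_self]
  have hg0 : ∀ x, 1 ≤ ‖x‖ → g x = 0 := by
    intro x hx
    by_cases h : ‖x‖ ≤ 1
    · show (if ‖x‖ ≤ 1 then r x - x else 0) = 0
      rw [if_pos h, hid x (le_antisymm h hx), sub_self]
    · exact if_neg h
  have hev : ∀ x ∈ ball (0 : E) 1, g =ᶠ[nhds x] fun y => r y - y := by
    intro x hx
    filter_upwards [isOpen_ball.mem_nhds hx] with y hy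
    exact if_pos (mem_ball_zero_iff.1 hy).le
  have hgd : ∀ x ∈ ball (0 : E) 1, HasFDerivAt g (fderiv ℝ r x - 1) x := by
    intro x hx
    exact ((hd x hx).hasFDerivAt.sub (hasFDerivAt_id x)).congr_of_eventuallyEq (hev x hx)
  have h1 := br2_all g (K + 1) hg hg0 (fun x hx => (hgd x hx).differentiableAt) 1
  have h2 : ∫ x in ball (0 : E) 1, (1 + (1 : ℝ) • fderiv ℝ g x : E →L[ℝ] E).det = 0 := by
    rw [← integral_zero (α := E) (G := ℝ) (μ := volume.restrict (ball (0 : E) 1))]
    refine setIntegral_congr_fun measurableSet_ball fun x hx => ?_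
    show (1 + (1 : ℝ) • fderiv ℝ g x : E →L[ℝ] E).det = 0
    rw [(hgd x hx).fderiv, one_smul, add_sub_cancel]
    by_contra hne
    have hne' : LinearMap.det ((fderiv ℝ r x : E →L[ℝ] E) : E →ₗ[ℝ] E) ≠ 0 := hne
    let e := LinearMap.equivOfDetNeZero _ hne'
    obtain ⟨v, hv⟩ := e.surjective (r x)
    have hv' : fderiv ℝ r x v = r x := hv
    have h3 : HasFDerivAt (fun y => inner ℝ (r y) (r y))
        (fderivInnerCLM ℝ (r x, r x) ∘L (fderiv ℝ r x).prod (fderiv ℝ r x)) x :=
      (hd x hx).hasFDerivAt.inner ℝ (hd x hx).hasFDerivAt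
    have h4 : (fun y => inner ℝ (r y) (r y)) =ᶠ[nhds x] fun _ => (1 : ℝ) := by
      filter_upwards [isOpen_ball.mem_nhds hx] with y hy
      rw [real_inner_self_eq_norm_sq, hs y hy, one_pow]
    have h5 := h3.congr_of_eventuallyEq h4.symm
    have h6 := h5.unique (hasFDerivAt_const (1 : ℝ) x)
    have h7 := congrArg (fun L : E →L[ℝ] ℝ => L v) h6
    simp only [ContinuousLinearMap.comp_apply, ContinuousLinearMap.prod_apply,
      fderivInnerCLM_apply, hv', zero_apply] at h7
    rw [real_inner_self_eq_norm_sq, hs x hx] at h7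
    norm_num at h7
  rw [h2] at h1
  have h3 : 0 < volume.real (ball (0 : E) 1) := by
    rw [Measure.real]
    exact ENNReal.toReal_pos (measure_ball_pos _ _ one_pos).ne' measure_ball_lt_top.ne
  exact h3.ne h1

end H17S
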