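import Mathlib
import Pool.Agent.Lib.H17S.Br2

/-! # H17S: Brouwer, part 3: Brouwer's fixed point theorem -/

open MeasureTheory Set Metric
open scoped NNReal

namespace H17S

set_option linter.unusedSectionVars false

variable {E : Type*} [NormedAddCommGroup E] [InnerProductSpace ℝ E] [FiniteDimensional ℝ E]

/-- The point of the unit sphere on the ray from g x through x. -/
noncomputable def br3_r (g : E → E) (x : E) : E :=
  x + ((-(inner ℝ x (x - g x)) + Real.sqrt (inner ℝ x (x - g x) ^ 2 +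
    (1 - ‖x‖ ^ 2) * ‖x - g x‖ ^ 2)) / ‖x - g x‖ ^ 2) • (x - g x)

theorem br3_disc (g : E → E) (x : E) (hx : ‖x‖ ≤ 1) (hg : ‖g x‖ ≤ 1) (hne : g x ≠ x) :
    0 < inner ℝ x (x - g x) ^ 2 + (1 - ‖x‖ ^ 2) * ‖x - g x‖ ^ 2 := by
  have hu : 0 < ‖x - g x‖ := norm_pos_iff.2 (sub_ne_zero.2 (Ne.symm hne))
  rcases lt_or_eq_of_le hx with h | h
  · have h1 : 0 < 1 - ‖x‖ ^ 2 := by nlinarith [norm_nonneg x]
    have h2 := mul_pos h1 (pow_pos hu 2)
    nlinarith [sq_nonneg (inner ℝ x (x - g x) : ℝ)]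
  · have h1 : 0 < (inner ℝ x (x - g x) : ℝ) := by
      have h2 : ‖x - g x‖ ^ 2 = ‖x‖ ^ 2 - 2 * inner ℝ x (g x) + ‖g x‖ ^ 2 := norm_sub_sq_real _ _
      rw [inner_sub_right, real_inner_self_eq_norm_sq]
      have h3 := pow_pos hu 2
      nlinarith [norm_nonneg (g x)]
    rw [h]
    nlinarith [pow_pos h1 2]

theorem br3_norm (g : E → E) (x : E) (hx : ‖x‖ ≤ 1) (hg : ‖g x‖ ≤ 1) (hne : g x ≠ x) :
    ‖br3_r g x‖ = 1 := by
  have hu : 0 < ‖x - g x‖ := norm_pos_iff.2 (sub_ne_zero.2 (Ne.symm hne))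
  have hD := br3_disc g x hx hg hne
  have h1 : ‖br3_r g x‖ ^ 2 = 1 := by
    unfold br3_r
    set u := x - g x
    set b : ℝ := inner ℝ x u with hb
    set s := Real.sqrt (b ^ 2 + (1 - ‖x‖ ^ 2) * ‖u‖ ^ 2) with hs
    have hs2 : s ^ 2 = b ^ 2 + (1 - ‖x‖ ^ 2) * ‖u‖ ^ 2 := Real.sq_sqrt hD.le
    rw [norm_add_sq_real, inner_smul_right, norm_smul, mul_pow, Real.norm_eq_abs, sq_abs, ← hb]
    field_simp
    nlinarith [hs2]
  nlinarith [norm_nonneg (br3_r g x)]

theorem br3_id (g : E → E) (x : E) (hx : ‖x‖ = 1) (hg : ‖g x‖ ≤ 1) : br3_r g x = x := by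
  have h1 : 0 ≤ (inner ℝ x (x - g x) : ℝ) := by
    rw [inner_sub_right, real_inner_self_eq_norm_sq, hx]
    have h2 := real_inner_le_norm x (g x)
    rw [hx] at h2
    nlinarith
  unfold br3_r
  rw [hx, one_pow, sub_self, zero_mul, add_zero, Real.sqrt_sq h1, neg_add_cancel, zero_div,
    zero_smul, add_zero]

/-- Brouwer's theorem for continuously differentiable maps. -/
theorem br3_smooth (g : E → E) (hg : ContDiff ℝ 1 g) (hm : ∀ x, ‖x‖ ≤ 1 → ‖g x‖ ≤ 1) :
    ∃ x, ‖x‖ ≤ 1 ∧ g x = x := by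
  by_contra hno
  push Not at hno
  borelize E
  let U : Set E := {x | 0 < inner ℝ x (x - g x) ^ 2 + (1 - ‖x‖ ^ 2) * ‖x - g x‖ ^ 2 ∧ x - g x ≠ 0}
  have hgc := hg.continuous
  have hU : IsOpen U := by
    apply IsOpen.inter
    · exact isOpen_lt (f := fun _ => (0 : ℝ)) (g := fun x : E => (inner ℝ x (x - g x) : ℝ) ^ 2 +
        (1 - ‖x‖ ^ 2) * ‖x - g x‖ ^ 2) continuous_const (by fun_prop)
    · exact isOpen_ne_fun (f := fun x => x - g x) (g := fun _ => (0 : E)) (by fun_prop)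
        continuous_const
  have hsub : closedBall (0 : E) 1 ⊆ U := by
    intro x hx
    rw [mem_closedBall_zero_iff] at hx
    exact ⟨br3_disc g x hx (hm x hx) (hno x hx), sub_ne_zero.2 (hno x hx).symm⟩
  have hr : ContDiffOn ℝ 1 (br3_r g) U := by
    have h1 : ContDiff ℝ 1 (fun x => x - g x) := contDiff_id.sub hg
    have h2 : ContDiff ℝ 1 (fun x => (inner ℝ x (x - g x) : ℝ)) := contDiff_id.inner ℝ h1
    have h3 : ContDiff ℝ 1 (fun x : E => ‖x‖ ^ 2) := contDiff_id.norm_sq ℝ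
    have h4 : ContDiff ℝ 1 (fun x : E => ‖x - g x‖ ^ 2) := h1.norm_sq ℝ
    have h5 : ContDiffOn ℝ 1 (fun x => Real.sqrt (inner ℝ x (x - g x) ^ 2 +
        (1 - ‖x‖ ^ 2) * ‖x - g x‖ ^ 2)) U := by
      apply ContDiffOn.sqrt
      · exact ((h2.pow 2).add ((contDiff_const.sub h3).mul h4)).contDiffOn
      · exact fun x hx => hx.1.ne'
    have h6 : ContDiffOn ℝ 1 (fun x => (-(inner ℝ x (x - g x)) +
        Real.sqrt (inner ℝ x (x - g x) ^ 2 + (1 - ‖x‖ ^ 2) * ‖x - g x‖ ^ 2)) / ‖x - g x‖ ^ 2) U := by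
      apply ContDiffOn.div
      · exact h2.neg.contDiffOn.add h5
      · exact h4.contDiffOn
      · intro x hx
        exact pow_ne_zero 2 (norm_ne_zero_iff.2 hx.2)
    exact contDiff_id.contDiffOn.add (h6.smul h1.contDiffOn)
  have hfd : ContinuousOn (fderiv ℝ (br3_r g)) (closedBall (0 : E) 1) :=
    (hr.continuousOn_fderiv_of_isOpen hU le_rfl).mono hsub
  obtain ⟨C, hC⟩ := (isCompact_closedBall (0 : E) 1).exists_bound_of_continuousOn hfd
  have hC0 : 0 ≤ C := (norm_nonneg _).trans (hC 0 (by simp))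
  have hdiff : ∀ x ∈ closedBall (0 : E) 1, DifferentiableAt ℝ (br3_r g) x := fun x hx =>
    (hr.differentiableOn one_ne_zero).differentiableAt (hU.mem_nhds (hsub hx))
  have hlip : LipschitzOnWith ⟨C, hC0⟩ (br3_r g) (closedBall 0 1) := by
    refine Convex.lipschitzOnWith_of_nnnorm_fderiv_le (𝕜 := ℝ) hdiff (fun x hx => ?_)
      (convex_closedBall _ _)
    exact hC x hx
  refine br2_noret (br3_r g) _ hlip (fun x hx => br3_id g x hx (hm x hx.le))
    (fun x hx => hdiff x (ball_subset_closedBall hx)) (fun x hx => ?_)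
  have hx' : ‖x‖ ≤ 1 := (mem_ball_zero_iff.1 hx).le
  exact br3_norm g x hx' (hm x hx') (hno x hx')

/-- The radial projection onto the ball of radius R. -/
noncomputable def br3_p (R : ℝ) (x : E) : E := (R / max R ‖x‖) • x

theorem br3_p_cont {R : ℝ} (hR : 0 < R) : Continuous (br3_p (E := E) R) := by
  unfold br3_p
  have h : ∀ x : E, max R ‖x‖ ≠ 0 := fun x => (lt_of_lt_of_le hR (le_max_left _ _)).ne'
  exact (continuous_const.div (continuous_const.max continuous_norm) h).smul continuous_id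

theorem br3_p_le {R : ℝ} (hR : 0 < R) (x : E) : ‖br3_p R x‖ ≤ R := by
  unfold br3_p
  have h : 0 < max R ‖x‖ := lt_of_lt_of_le hR (le_max_left _ _)
  rw [norm_smul, Real.norm_of_nonneg (by positivity), div_mul_eq_mul_div, div_le_iff₀ h]
  exact mul_le_mul_of_nonneg_left (le_max_right _ _) hR.le

theorem br3_p_id {R : ℝ} (hR : 0 < R) {x : E} (hx : ‖x‖ ≤ R) : br3_p R x = x := by
  unfold br3_p
  rw [max_eq_left hx, div_self hR.ne', one_smul]

/-- Brouwer's theorem for the unit ball. -/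
theorem br3_unit (f : E → E) (hf : Continuous f) (hm : ∀ x, ‖f x‖ ≤ 1) :
    ∃ x, f x = x := by
  by_contra hno
  push Not at hno
  have hc : ContinuousOn (fun x => ‖f x - x‖) (closedBall (0 : E) 1) := by fun_prop
  obtain ⟨x₀, hx₀, hmin⟩ := (isCompact_closedBall (0 : E) 1).exists_isMinOn
    ⟨0, by simp⟩ hc
  set δ := ‖f x₀ - x₀‖ with hδ
  have hδ0 : 0 < δ := norm_pos_iff.2 (sub_ne_zero.2 (hno x₀))
  obtain ⟨g₀, hg₀, hg₀1, -⟩ := hf.exists_contDiff_approx 1 (ε := fun _ => δ / 4)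
    continuous_const (fun _ => by positivity)
  let a : ℝ := (1 + δ / 4)⁻¹
  have ha : 0 < a := by positivity
  have ha1 : a * (1 + δ / 4) = 1 := inv_mul_cancel₀ (by positivity)
  have hb : ∀ x, ‖g₀ x‖ ≤ 1 + δ / 4 := by
    intro x
    have h1 := hg₀1 x
    rw [dist_eq_norm] at h1
    have h2 : ‖g₀ x‖ ≤ ‖f x‖ + ‖g₀ x - f x‖ := by
      have := norm_add_le (f x) (g₀ x - f x)
      rwa [add_sub_cancel] at this
    have := hm x
    linarith
  obtain ⟨x, hx, hxx⟩ := br3_smooth (fun x => a • g₀ x) (hg₀.const_smul a) (fun x _ => by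
    show ‖a • g₀ x‖ ≤ 1
    rw [norm_smul, Real.norm_of_nonneg ha.le, ← ha1]
    exact mul_le_mul_of_nonneg_left (hb x) ha.le)
  have h1 : δ ≤ ‖f x - x‖ := hmin (mem_closedBall_zero_iff.2 hx)
  have h2 : ‖f x - x‖ ≤ ‖f x - g₀ x‖ + ‖g₀ x - a • g₀ x‖ := by
    have h3 : f x - x = (f x - g₀ x) + (g₀ x - a • g₀ x) := by
      have h4 : a • g₀ x = x := hxx
      rw [h4]
      abel
    rw [h3]
    exact norm_add_le _ _
  have h3 : ‖f x - g₀ x‖ < δ / 4 := by
    have := hg₀1 x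
    rwa [dist_eq_norm, norm_sub_rev] at this
  have h4 : ‖g₀ x - a • g₀ x‖ ≤ δ / 4 := by
    have h5 : g₀ x - a • g₀ x = (1 - a) • g₀ x := by rw [sub_smul, one_smul]
    have h6 : 0 ≤ 1 - a := by
      have : a ≤ 1 := inv_le_one_of_one_le₀ (by linarith)
      linarith
    rw [h5, norm_smul, Real.norm_of_nonneg h6]
    have h7 := mul_le_mul_of_nonneg_left (hb x) h6
    have h8 : (1 - a) * (1 + δ / 4) = δ / 4 := by
      rw [sub_mul, ha1]
      ring
    linarith
  linarith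

/-- Brouwer's theorem: a continuous map of a finite dimensional inner product space with bounded image has a fixed
point. -/
theorem brouwer_bdd (f : E → E) (hf : Continuous f) (R : ℝ) (hm : ∀ x, ‖f x‖ ≤ R) :
    ∃ x, f x = x := by
  let S : ℝ := max R 1
  have hS : 0 < S := lt_of_lt_of_le one_pos (le_max_right _ _)
  obtain ⟨x, hx⟩ := br3_unit (fun x => S⁻¹ • f (S • x)) (by fun_prop) (fun x => by
    rw [norm_smul, Real.norm_of_nonneg (inv_pos.2 hS).le]
    calc S⁻¹ * ‖f (S • x)‖ ≤ S⁻¹ * S :=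
          mul_le_mul_of_nonneg_left ((hm _).trans (le_max_left _ _)) (inv_pos.2 hS).le
      _ = 1 := inv_mul_cancel₀ hS.ne')
  refine ⟨S • x, ?_⟩
  have h1 : S⁻¹ • f (S • x) = x := hx
  have h2 : S • (S⁻¹ • f (S • x)) = S • x := congrArg (fun y => S • y) h1
  rwa [smul_inv_smul₀ hS.ne'] at h2

/-- Brouwer's theorem for a closed ball. -/
theorem brouwer_ball (R : ℝ) (hR : 0 ≤ R) (f : E → E) (hf : ContinuousOn f (closedBall 0 R))
    (hm : ∀ x, ‖x‖ ≤ R → ‖f x‖ ≤ R) : ∃ x, ‖x‖ ≤ R ∧ f x = x := by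
  rcases hR.eq_or_lt with h | h
  · refine ⟨0, by simpa using hR, ?_⟩
    have h1 := hm 0 (by simpa using hR)
    rw [← h] at h1
    exact norm_le_zero_iff.1 h1
  · have hc : Continuous (fun x => f (br3_p R x)) := by
      rw [← continuousOn_univ]
      exact hf.comp (br3_p_cont h).continuousOn
        (fun x _ => mem_closedBall_zero_iff.2 (br3_p_le h x))
    obtain ⟨x, hx⟩ := brouwer_bdd (fun x => f (br3_p R x)) hc R (fun x => hm _ (br3_p_le h x))
    have hx' : f (br3_p R x) = x := hx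
    have hx1 : ‖x‖ ≤ R := by
      rw [← hx']
      exact hm _ (br3_p_le h x)
    rw [br3_p_id h hx1] at hx'
    exact ⟨x, hx1, hx'⟩

end H17S
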