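import Mathlib

set_option autoImplicit false

/-!
H17S: definitions for the model (Taub-NUT) and for the pointwise theorem. See PROOF.md, sections 2 and 3.
-/

open MeasureTheory Filter Topology Set
open scoped ContDiff ComplexConjugate

namespace H17S

/-! ### Functions of the radius -/

/-- Mass parameter, `2 m = (P^2 - N^2) / P`. -/
noncomputable def mm (P N : ℝ) : ℝ := (P ^ 2 - N ^ 2) / (2 * P)

/-- `q = |ρ|^2`. -/
noncomputable def qq (N r : ℝ) : ℝ := r ^ 2 + N ^ 2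

/-- `f`. -/
noncomputable def ff (P N r : ℝ) : ℝ := (r ^ 2 - 2 * mm P N * r - N ^ 2) / qq N r ^ 2

/-- `df/dr`. -/
noncomputable def ff1 (P N r : ℝ) : ℝ :=
  -2 * (r ^ 3 - 3 * mm P N * r ^ 2 - 3 * N ^ 2 * r + mm P N * N ^ 2) / qq N r ^ 3

/-- `d^2 f/dr^2`. -/
noncomputable def ff2 (P N r : ℝ) : ℝ :=
  6 * (r ^ 4 - 4 * mm P N * r ^ 3 - 6 * N ^ 2 * r ^ 2 + 4 * mm P N * N ^ 2 * r + N ^ 4) / qq N r ^ 4

/-- `G = 1 - X f`. -/
noncomputable def GG (P N X r : ℝ) : ℝ := 1 - X * ff P N r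

/-- Complex mass `M = m + i N`. -/
noncomputable def Mc (P N : ℝ) : ℂ := (mm P N : ℂ) + (N : ℂ) * Complex.I

/-- `ρ = r + i N`. -/
noncomputable def rho (N r : ℝ) : ℂ := (r : ℂ) + (N : ℂ) * Complex.I

/-- `λ = - M / ρ^3`. -/
noncomputable def lamr (P N r : ℝ) : ℂ := - Mc P N / rho N r ^ 3

/-- `dλ/dρ = 3 M / ρ^4`. -/
noncomputable def lamr1 (P N r : ℝ) : ℂ := 3 * Mc P N / rho N r ^ 4

/-! ### The model -/

/-- Data of the model: parameters `R = P + i N`, `X = |V|^2`, the radius `r` and the clock `K` as functions of `s`,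
`β = lim (r - s)` and `Ki = lim K`. -/
structure Mo where
  P : ℝ
  N : ℝ
  X : ℝ
  β : ℝ
  Ki : ℝ
  r : ℝ → ℝ
  K : ℝ → ℝ

/-- `M` is a model. -/
structure Mo.Ok (M : Mo) : Prop where
  P_pos : 0 < M.P
  X_nonneg : 0 ≤ M.X
  r_zero : M.r 0 = M.P
  K_zero : M.K 0 = 0
  r_cont : ContinuousOn M.r (Ici 0)
  K_cont : ContinuousOn M.K (Ici 0)
  r_der : ∀ s, 0 < s → HasDerivAt M.r (Real.sqrt (GG M.P M.N M.X (M.r s))) s
  K_der : ∀ s, 0 < s → HasDerivAt M.K (ff M.P M.N (M.r s) / GG M.P M.N M.X (M.r s)) s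
  G_pos : ∃ c, 0 < c ∧ ∀ r, M.P ≤ r → c ≤ GG M.P M.N M.X r
  r_lim : Tendsto (fun s => M.r s - s) atTop (𝓝 M.β)
  K_lim : Tendsto M.K atTop (𝓝 M.Ki)

namespace Mo

variable (M : Mo)

noncomputable def m : ℝ := mm M.P M.N
noncomputable def q (s : ℝ) : ℝ := qq M.N (M.r s)
noncomputable def f (s : ℝ) : ℝ := ff M.P M.N (M.r s)
noncomputable def f1 (s : ℝ) : ℝ := ff1 M.P M.N (M.r s)
noncomputable def f2 (s : ℝ) : ℝ := ff2 M.P M.N (M.r s)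
noncomputable def G (s : ℝ) : ℝ := GG M.P M.N M.X (M.r s)
/-- `g = r'`. -/
noncomputable def g (s : ℝ) : ℝ := Real.sqrt (M.G s)
noncomputable def ρ (s : ℝ) : ℂ := rho M.N (M.r s)
/-- `μ = |M|^2`. -/
noncomputable def mu : ℝ := M.m ^ 2 + M.N ^ 2
noncomputable def ν : ℝ := 2 * M.Ki
noncomputable def κ : ℝ := 2 * (M.β - M.P)
noncomputable def lam (s : ℝ) : ℂ := lamr M.P M.N (M.r s)
/-- `λ'`. -/
noncomputable def lam1 (s : ℝ) : ℂ := lamr1 M.P M.N (M.r s) * (M.g s : ℂ)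
/-- `dλ/dX`. -/
noncomputable def lamX (s : ℝ) : ℂ := - (1 / 2) * (M.K s : ℂ) * lamr1 M.P M.N (M.r s) * (M.g s : ℂ)
noncomputable def ac (s : ℝ) : ℂ := M.lam s + (M.X : ℂ) * M.lamX s
noncomputable def aa (s : ℝ) : ℂ := (M.X : ℂ) * M.lamX s
noncomputable def sig (s : ℝ) : ℂ := -3 * Mc M.P M.N * (M.X : ℂ) / M.ρ s ^ 5
/-- `t = (conj ρ r')'`. -/
noncomputable def t (s : ℝ) : ℂ := (M.G s : ℂ) - (M.X : ℂ) / 2 * conj (M.ρ s) * (M.f1 s : ℂ)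
noncomputable def E (s : ℝ) : ℂ := -2 * (M.K s : ℂ) * conj (M.ρ s) * (M.g s : ℂ)
/-- `E'`. -/
noncomputable def E1 (s : ℝ) : ℂ := -2 * ((M.f s : ℂ) / (M.g s : ℂ) * conj (M.ρ s) + (M.K s : ℂ) * M.t s)
noncomputable def kt (s : ℝ) : ℝ := 1 - M.K s / M.Ki
noncomputable def EE (s : ℝ) : ℂ := conj (M.ρ s) * (M.g s : ℂ) * (M.kt s : ℂ)
/-- `EE'`. -/
noncomputable def EE1 (s : ℝ) : ℂ := M.t s * (M.kt s : ℂ) - (M.f s : ℂ) / ((M.g s : ℂ) * (M.Ki : ℂ)) * conj (M.ρ s)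
noncomputable def h (s : ℝ) : ℝ := 2 * M.K s / M.kt s
/-- `h'`. -/
noncomputable def h1 (s : ℝ) : ℝ := 2 * M.f s / (M.G s * M.kt s ^ 2)
noncomputable def mh (s : ℝ) : ℝ := M.f s * M.q s
noncomputable def mh1 (s : ℝ) : ℝ := (M.f1 s * M.q s + 2 * M.r s * M.f s) * M.g s
noncomputable def z1 (s : ℝ) : ℝ := (4 * M.r s * M.f s + M.q s * M.f1 s) / M.g s + 2 * M.K s * (1 - M.X ^ 2 * M.mu / M.q s ^ 3)
/-- `Y = 1 / sqrt h'`. -/
noncomputable def Y (s : ℝ) : ℝ := M.kt s * Real.sqrt (M.G s / (2 * M.f s))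
/-- `Y'`. -/
noncomputable def Y1 (s : ℝ) : ℝ := - (M.f s / (M.G s * M.Ki)) * Real.sqrt (M.G s / (2 * M.f s)) -
  M.kt s * (Real.sqrt 2 / 4 * M.f1 s / (M.f s * Real.sqrt (M.f s)))
/-- `Y''`. -/
noncomputable def Y2 (s : ℝ) : ℝ :=
  M.kt s * (Real.sqrt 2 / 8 * (3 * M.f1 s ^ 2 - 2 * M.f s * M.f2 s) / (M.f s ^ 2 * Real.sqrt (M.f s)) * M.g s)

end Mo

/-! ### The path -/

/-- Data of a path: components `A`, `B` of the frame, expansion `u`, shear `m1`, `e = G(L, L)`, `bN = lim (sqrt a - s)`. -/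
structure Pa where
  A : ℝ → ℂ
  B : ℝ → ℂ
  u : ℝ → ℝ
  m1 : ℝ → ℂ
  e : ℝ → ℝ
  bN : ℝ

namespace Pa

variable (p : Pa)

/-- `a = det`. -/
noncomputable def a (s : ℝ) : ℝ := ‖p.A s‖ ^ 2 - ‖p.B s‖ ^ 2
noncomputable def A1 (s : ℝ) : ℂ := ((p.u s / 2 : ℝ) : ℂ) * p.A s + p.m1 s * conj (p.B s)
noncomputable def B1 (s : ℝ) : ℂ := ((p.u s / 2 : ℝ) : ℂ) * p.B s + p.m1 s * conj (p.A s)

/-- `p` is a path. -/
structure Ok : Prop where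
  cA : ContinuousOn p.A (Ici 0)
  cB : ContinuousOn p.B (Ici 0)
  cu : ContinuousOn p.u (Ici 0)
  dA : ∀ s, 0 < s → HasDerivAt p.A (p.A1 s) s
  dB : ∀ s, 0 < s → HasDerivAt p.B (p.B1 s) s
  du : ∀ s, 0 < s → HasDerivAt p.u (- p.u s ^ 2 / 2 - 2 * ‖p.m1 s‖ ^ 2 - p.e s) s
  e_nonneg : ∀ s, 0 < s → 0 ≤ p.e s
  a_pos : ∀ s, 0 ≤ s → 0 < p.a s
  u_pos : ∀ s, 0 ≤ s → 0 < p.u s
  bdd : ∃ C, ∀ s, 0 ≤ s → ‖p.A s - (s : ℂ)‖ ≤ C ∧ ‖p.B s‖ ≤ C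
  im : Tendsto (fun s => (p.A s).im) atTop (𝓝 0)
  lim : Tendsto (fun s => Real.sqrt (p.a s) - s) atTop (𝓝 p.bN)
  lim1 : Tendsto (fun s => s * (p.u s * Real.sqrt (p.a s) / 2 - 1)) atTop (𝓝 0)

end Pa

/-! ### The functions of the pointwise theorem -/

section PW

variable (M : Mo) (p : Pa)

/-- `v`, the first component of `VV`; the second one is `- conj v`. -/
noncomputable def vv (s : ℝ) : ℂ := ∫ t in Ioi s, (conj (M.lam1 t) * p.A t - M.lam1 t * conj (p.B t))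

/-- Components of `CC`. -/
noncomputable def cA (s : ℝ) : ℂ := 2 + 4 * ∫ t in Ioi s, (conj (M.ac t) * p.A t - M.aa t * conj (p.B t))
noncomputable def cB (s : ℝ) : ℂ := 4 * ∫ t in Ioi s, (conj (M.ac t) * p.B t - M.aa t * conj (p.A t))

/-- Integrand of the cost. -/
noncomputable def costI (s : ℝ) : ℝ := 6 * p.a s * ‖M.lam s‖ ^ 2 +
  8 * (conj (vv M p s) * conj (M.lam s) * p.A s + vv M p s * conj (M.lam s) * p.B s).re

/-- `cost_out`. -/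
noncomputable def cost (s : ℝ) : ℝ := - M.X * ∫ t in Ioi s, costI M p t

noncomputable def wA (s : ℝ) : ℂ := cA M p s + conj (M.E1 s) * p.A s
noncomputable def wB (s : ℝ) : ℂ := cB M p s + conj (M.E1 s) * p.B s
noncomputable def uA (s : ℝ) : ℂ := (M.X : ℂ) * vv M p s + cA M p s / (M.ν : ℂ) + conj (M.EE1 s) * p.A s
noncomputable def uB (s : ℝ) : ℂ := - (M.X : ℂ) * conj (vv M p s) + cB M p s / (M.ν : ℂ) + conj (M.EE1 s) * p.B s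

/-- Components of `Gv = UU - conj EE psi'`. -/
noncomputable def gA (s : ℝ) : ℂ := uA M p s - conj (M.EE s) * p.A1 s
noncomputable def gB (s : ℝ) : ℂ := uB M p s - conj (M.EE s) * p.B1 s

/-- `Q = <psi, Gv>`. -/
noncomputable def Qv (s : ℝ) : ℂ :=
  conj (p.A s) * uA M p s - conj (p.B s) * uB M p s - conj (M.EE s) * ((p.u s * p.a s / 2 : ℝ) : ℂ)

/-- `L0`. -/
noncomputable def L0 (s : ℝ) : ℝ := (2 * p.bN - M.κ - (M.P ^ 2 + M.N ^ 2) / M.P) - cost M p s + M.mh s * (p.u s * p.a s) -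
  M.z1 s * p.a s + 2 * M.X * (conj (vv M p s) * conj (M.E1 s) * p.A s + vv M p s * conj (M.E1 s) * p.B s).re +
  2 * p.a s * M.X * (conj (M.lam s) * M.E1 s).re + 1 / M.ν * (‖wA M p s‖ ^ 2 - ‖wB M p s‖ ^ 2) +
  M.h s * (‖uA M p s‖ ^ 2 - ‖uB M p s‖ ^ 2)

/-- `Gam`. -/
noncomputable def Gam (s : ℝ) : ℝ := M.h1 s / (p.u s / 2 - M.Y1 s / M.Y s)

/-- `LL`. -/
noncomputable def LL (s : ℝ) : ℝ := L0 M p s - Gam M p s * (‖Qv M p s‖ ^ 2 / p.a s)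

/-- `FF`, the left side of the pointwise theorem. -/
noncomputable def FF : ℝ := 2 * p.bN - M.κ - cost M p 0 + 1 / M.ν * (‖cA M p 0‖ ^ 2 - ‖cB M p 0‖ ^ 2) -
  (p.a 0 + M.P ^ 2 + M.N ^ 2) / M.P

end PW

end H17S
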