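import Mathlib
import Pool.Agent.Lib.H17U.NA4

set_option autoImplicit false

/-!
Chunk EA (M). The pointwise algebra of the energy inequality with a test field (PROOF.md, (E1)). All vectors are tangent to the sphere at `n`, `M` is symmetric and tangential.
`ea_ch`: `Σ_k (M y)_k^2 = tr M (y · M y) - dtB M |y|^2` from `NA4_CH` (`M k i = M i k`, `Σ_j proj n i j * y j = y i` for tangent `y`); here `dtB M = ((tr M)^2 - Σ M i j ^ 2)/2` by symmetry.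
`ea_dec`: `4 q·y <= ρ a + 4 e a |y|^2`: `(q·y)^2 <= |q|^2 |y|^2 <= a^2 e ρ |y|^2` (Cauchy-Schwarz `Finset.sum_mul_sq_le_sq_mul_sq`) and `4 a^2 e ρ |y|^2 <= ((ρ a + 4 e a |y|^2)/2)^2` (square of the difference), `abs_le_abs`/`Real.sqrt` or
`nlinarith`/`abs_le_of_sq_le_sq`.
`ea`: the difference right side - left side is EXACTLY `(2/a) Σ_k (Z k - a (l k - 2 (M y)_k))^2 + (ρ a - 4 q·y + 4 e a |y|^2)` after `ea_ch` (write `m k = Σ_j M k j * y j`; symmetry gives `Σ_k (M Z)_k y_k = Σ_k Z_k m_k`, `Σ_k (M x)_k y_k = Σ_k x_k m_k`):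
 left side `= 4 q·y - 8 Z·m + 4 x·m + 4 x·l - 4 x·m + 4 (2 dtB M - e) a |y|^2 + 8 tr M a (y·l - y·m) + 4 Z·l - 4 x·l - 2 a |l|^2 - 8 a tr M (l·y) + 8 a l·m`.
-/

open MeasureTheory Filter Topology Set
open scoped ContDiff

namespace H17S

open NullPen (E3 S2 sm proj)
open NullU (dtB cf Tng mh)

theorem ea_ch {n : E3} (hn : ‖n‖ = 1) {M : Fin 3 → Fin 3 → ℝ} (hM : Tng n M) (hs : ∀ i j, M i j = M j i) {y : Fin 3 → ℝ}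
    (hy : ∑ i, n i * y i = 0) : ∑ k, (∑ j, M k j * y j) ^ 2 =
      (∑ i, M i i) * (∑ k, y k * ∑ j, M k j * y j) - ((∑ i, M i i) ^ 2 - ∑ i, ∑ j, M i j ^ 2) / 2 * ∑ k, y k ^ 2 := by
  have hP : ∀ i, ∑ j, proj n i j * y j = y i := by
    intro i
    have e : ∀ j, proj n i j * y j = (if i = j then y j else 0) - n i * (n j * y j) := by
      intro j
      unfold NullPen.proj
      split_ifs with hh
      · ring
      · ring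
    simp only [e]
    rw [Finset.sum_sub_distrib, ← Finset.mul_sum, hy]
    simp
  have c := NullU.NA4_CH hn hM
  have p0 := hP 0
  have p1 := hP 1
  have p2 := hP 2
  generalize proj n = Q at *
  unfold NullU.dtB at c
  simp only [Fin.sum_univ_three] at c p0 p1 p2 ⊢
  have s1 := hs 1 0
  have s2 := hs 2 0
  have s3 := hs 2 1
  have c00 := c 0 0
  have c01 := c 0 1
  have c02 := c 0 2
  have c10 := c 1 0
  have c11 := c 1 1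
  have c12 := c 1 2
  have c20 := c 2 0
  have c21 := c 2 1
  have c22 := c 2 2
  simp only [s1, s2, s3] at c00 c01 c02 c10 c11 c12 c20 c21 c22 ⊢
  linear_combination (exp := 1) y 0 * y 0 * c00 + y 0 * y 1 * c01 + y 0 * y 2 * c02 + y 1 * y 0 * c10 + y 1 * y 1 * c11 + y 1 * y 2 * c12 + y 2 * y 0 * c20 + y 2 * y 1 * c21 + y 2 * y 2 * c22 -
    ((M 0 0 + M 1 1 + M 2 2) ^ 2 - (M 0 0 * M 0 0 + M 0 1 * M 0 1 + M 0 2 * M 0 2 +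
      (M 0 1 * M 0 1 + M 1 1 * M 1 1 + M 1 2 * M 1 2) + (M 0 2 * M 0 2 + M 1 2 * M 1 2 + M 2 2 * M 2 2))) / 2 *
      (y 0 * p0 + y 1 * p1 + y 2 * p2)

theorem ea_dec {a e ρ : ℝ} (ha : 0 < a) (he : 0 ≤ e) (hρ : 0 ≤ ρ) {q y : Fin 3 → ℝ} (h : ∑ i, q i ^ 2 ≤ a ^ 2 * (e * ρ)) :
    4 * ∑ k, q k * y k ≤ ρ * a + 4 * e * a * ∑ k, y k ^ 2 := by
  have h1 : (∑ k, q k * y k) ^ 2 ≤ (∑ k, q k ^ 2) * ∑ k, y k ^ 2 := Finset.sum_mul_sq_le_sq_mul_sq _ _ _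
  have hy : 0 ≤ ∑ k, y k ^ 2 := Finset.sum_nonneg fun k _ => sq_nonneg _
  have h2 : (∑ k, q k ^ 2) * ∑ k, y k ^ 2 ≤ a ^ 2 * (e * ρ) * ∑ k, y k ^ 2 := mul_le_mul_of_nonneg_right h hy
  generalize ∑ k, q k * y k = S at *
  generalize ∑ k, y k ^ 2 = Y at *
  have h3 : (4 * S) ^ 2 ≤ (ρ * a + 4 * e * a * Y) ^ 2 := by
    have h4 := sq_nonneg (ρ * a - 4 * e * a * Y)
    nlinarith
  exact (le_abs_self _).trans (abs_le_of_sq_le_sq h3 (by positivity))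

theorem ea {n : E3} (hn : ‖n‖ = 1) {M : Fin 3 → Fin 3 → ℝ} (hM : Tng n M) (hs : ∀ i j, M i j = M j i) {a e ρ : ℝ} (ha : 0 < a)
    (he : 0 ≤ e) (hρ : 0 ≤ ρ) {x Z q y l : Fin 3 → ℝ} (hy : ∑ i, n i * y i = 0) (hq : ∑ i, q i ^ 2 ≤ a ^ 2 * (e * ρ)) :
    4 * (∑ k, ((q k - ∑ j, M k j * (2 * Z j - x j)) * y k + x k * (l k - ∑ j, M k j * y j))) +
      (4 * ((-(∑ i, ∑ j, M i j ^ 2) - e) * a + (∑ i, M i i) * ((∑ i, M i i) * a)) * ∑ k, y k ^ 2) +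
      8 * ((∑ i, M i i) * a) * (∑ k, y k * (l k - ∑ j, M k j * y j)) + 4 * (∑ k, (Z k - x k) * l k) -
      2 * a * (∑ k, l k ^ 2) - 8 * (∑ k, l k * (a * ((∑ i, M i i) * y k - ∑ j, M k j * y j))) ≤
    2 * (∑ k, Z k ^ 2) / a + ρ * a := by
  have hch := ea_ch hn hM hs hy
  have hdec := ea_dec ha he hρ (y := y) hq
  have hsq : 0 ≤ 2 / a * ∑ k, (Z k - a * (l k - 2 * ∑ j, M k j * y j)) ^ 2 := by positivity
  have s1 := hs 1 0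
  have s2 := hs 2 0
  have s3 := hs 2 1
  simp only [Fin.sum_univ_three] at hch hdec hsq ⊢
  rw [s1, s2, s3] at hch hsq ⊢
  have key : (2 * (Z 0 ^ 2 + Z 1 ^ 2 + Z 2 ^ 2) / a + ρ * a) -
      (4 * ((q 0 - (M 0 0 * (2 * Z 0 - x 0) + M 0 1 * (2 * Z 1 - x 1) + M 0 2 * (2 * Z 2 - x 2))) * y 0 +
          x 0 * (l 0 - (M 0 0 * y 0 + M 0 1 * y 1 + M 0 2 * y 2)) +
          ((q 1 - (M 0 1 * (2 * Z 0 - x 0) + M 1 1 * (2 * Z 1 - x 1) + M 1 2 * (2 * Z 2 - x 2))) * y 1 +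
          x 1 * (l 1 - (M 0 1 * y 0 + M 1 1 * y 1 + M 1 2 * y 2))) +
          ((q 2 - (M 0 2 * (2 * Z 0 - x 0) + M 1 2 * (2 * Z 1 - x 1) + M 2 2 * (2 * Z 2 - x 2))) * y 2 +
          x 2 * (l 2 - (M 0 2 * y 0 + M 1 2 * y 1 + M 2 2 * y 2)))) +
        (4 * ((-(M 0 0 ^ 2 + M 0 1 ^ 2 + M 0 2 ^ 2 + (M 0 1 ^ 2 + M 1 1 ^ 2 + M 1 2 ^ 2) +
            (M 0 2 ^ 2 + M 1 2 ^ 2 + M 2 2 ^ 2)) - e) * a + (M 0 0 + M 1 1 + M 2 2) * ((M 0 0 + M 1 1 + M 2 2) * a)) *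
          (y 0 ^ 2 + y 1 ^ 2 + y 2 ^ 2)) +
        8 * ((M 0 0 + M 1 1 + M 2 2) * a) * (y 0 * (l 0 - (M 0 0 * y 0 + M 0 1 * y 1 + M 0 2 * y 2)) +
          y 1 * (l 1 - (M 0 1 * y 0 + M 1 1 * y 1 + M 1 2 * y 2)) +
          y 2 * (l 2 - (M 0 2 * y 0 + M 1 2 * y 1 + M 2 2 * y 2))) +
        4 * ((Z 0 - x 0) * l 0 + (Z 1 - x 1) * l 1 + (Z 2 - x 2) * l 2) - 2 * a * (l 0 ^ 2 + l 1 ^ 2 + l 2 ^ 2) -
        8 * (l 0 * (a * ((M 0 0 + M 1 1 + M 2 2) * y 0 - (M 0 0 * y 0 + M 0 1 * y 1 + M 0 2 * y 2))) +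
          l 1 * (a * ((M 0 0 + M 1 1 + M 2 2) * y 1 - (M 0 1 * y 0 + M 1 1 * y 1 + M 1 2 * y 2))) +
          l 2 * (a * ((M 0 0 + M 1 1 + M 2 2) * y 2 - (M 0 2 * y 0 + M 1 2 * y 1 + M 2 2 * y 2))))) =
      2 / a * ((Z 0 - a * (l 0 - 2 * (M 0 0 * y 0 + M 0 1 * y 1 + M 0 2 * y 2))) ^ 2 +
        (Z 1 - a * (l 1 - 2 * (M 0 1 * y 0 + M 1 1 * y 1 + M 1 2 * y 2))) ^ 2 +
        (Z 2 - a * (l 2 - 2 * (M 0 2 * y 0 + M 1 2 * y 1 + M 2 2 * y 2))) ^ 2) +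
      (ρ * a - 4 * (q 0 * y 0 + q 1 * y 1 + q 2 * y 2) + 4 * e * a * (y 0 ^ 2 + y 1 ^ 2 + y 2 ^ 2)) := by
    field_simp
    linear_combination (-8 * a ^ 2) * hch
  linarith

end H17S
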