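import Mathlib
import Pool.Agent.Lib.H17U.NA3
import Pool.Agent.Lib.H17U.NA4

set_option autoImplicit false

/-!
Chunk EB (M). Cofactors of a product. `eb_inv`: `Bᵀ y = Y` where `y = cof(B) Y / det B` (`cf_mul` in `H17U/NA1`: `Σ_k cf n B k i * B k j = dtB B * proj n i j`; `Y` tangent). `eb_tan`: `y` is tangent (`cf_tng`, NA1).
`eb`: `cof(M B) Bᵀ y = cof(M) cof(B) Bᵀ y = det B (tr M y - M y)` with `M = mh n B B1`, `M B = B1` (`mh_mul`), `M` symmetric (`mh_symm`). Proof of the 2 x 2 identity: take `Q` from `NA3_basis`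
(orthogonal, third row `n`), conjugate all matrices by `Q` (`NA3_row`, `NA3_col`: the third row and column vanish) and expand; or: with `J v = n × v` one has `cof N = J N Jᵀ` for tangential `N`. Another way, without `Q`: polarise Cayley-Hamilton
(`NA4_CH` for `M + B` minus those for `M` and `B`): `M B + B M = tr M B + tr B M - (tr M tr B - tr(M B)) P` for tangential `M`, `B`; then `tr(MB) Bᵀ - (MB)ᵀ Bᵀ..` follows by multiplying with `Bᵀ` from the right and using
`B Bᵀ`... (the `Q` way is straightforward).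
-/

open MeasureTheory Filter Topology Set
open scoped ContDiff

namespace H17S

open NullPen (E3 S2 sm proj)
open NullU (dtB cf Tng mh)

theorem eb_projv {n : E3} {Y : Fin 3 → ℝ} (hY : ∑ i, n i * Y i = 0) (i : Fin 3) :
    ∑ j, proj n i j * Y j = Y i := by
  have e : ∀ j, proj n i j * Y j = (if i = j then Y j else 0) - n i * (n j * Y j) := by
    intro j
    unfold NullPen.proj
    split_ifs with hh
    · ring
    · ring
  simp only [e]
  rw [Finset.sum_sub_distrib, ← Finset.mul_sum, hY]
  simp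

theorem eb_inv {n : E3} (hn : ‖n‖ = 1) {B : Fin 3 → Fin 3 → ℝ} (hB : Tng n B) (hd : 0 < dtB B) {Y : Fin 3 → ℝ} (hY : ∑ i, n i * Y i = 0)
    (i : Fin 3) : ∑ k, B k i * ((∑ j, cf n B k j * Y j) / dtB B) = Y i := by
  have e1 : ∀ k, B k i * ((∑ j, cf n B k j * Y j) / dtB B) = (∑ j, (cf n B k j * B k i) * Y j) / dtB B := by
    intro k
    rw [← mul_div_assoc, Finset.mul_sum]
    congr 1
    exact Finset.sum_congr rfl fun j _ => by ring
  simp only [e1]
  rw [← Finset.sum_div, Finset.sum_comm]
  simp only [← Finset.sum_mul, NullU.cf_mul hn hB]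
  have e2 : ∀ j, dtB B * proj n j i * Y j = dtB B * (proj n i j * Y j) := by
    intro j
    rw [NullU.NA4_projsymm n j i]
    ring
  simp only [e2]
  rw [← Finset.mul_sum, eb_projv hY, mul_div_cancel_left₀ _ hd.ne']

theorem eb_tan {n : E3} (hn : ‖n‖ = 1) {B : Fin 3 → Fin 3 → ℝ} (hB : Tng n B) (Y : Fin 3 → ℝ) :
    ∑ k, n k * ((∑ j, cf n B k j * Y j) / dtB B) = 0 := by
  have hc := NullU.cf_tng hn hB
  have e1 : ∀ k, n k * ((∑ j, cf n B k j * Y j) / dtB B) = (∑ j, (n k * cf n B k j) * Y j) / dtB B := by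
    intro k
    rw [← mul_div_assoc, Finset.mul_sum]
    congr 1
    exact Finset.sum_congr rfl fun j _ => by ring
  simp only [e1]
  rw [← Finset.sum_div, Finset.sum_comm]
  simp only [← Finset.sum_mul, hc.l, zero_mul, Finset.sum_const_zero, zero_div]

/-- polarised Cayley-Hamilton -/
theorem eb_pol {n : E3} (hn : ‖n‖ = 1) {M B : Fin 3 → Fin 3 → ℝ} (hM : Tng n M) (hB : Tng n B) (i j : Fin 3) :
    (∑ k, M i k * B k j) + ∑ k, B i k * M k j = (∑ k, M k k) * B i j + (∑ k, B k k) * M i j -
      ((∑ k, M k k) * (∑ k, B k k) - ∑ k, ∑ l, M k l * B l k) * proj n i j := by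
  have hS : Tng n (fun a b => M a b + B a b) := by
    constructor
    · intro a
      have h1 := hM.r a
      have h2 := hB.r a
      simp only [add_mul, Finset.sum_add_distrib, h1, h2, add_zero]
    · intro b
      have h1 := hM.l b
      have h2 := hB.l b
      simp only [mul_add, Finset.sum_add_distrib, h1, h2, add_zero]
  have h1 := NullU.NA4_CH hn hS i j
  have h2 := NullU.NA4_CH hn hM i j
  have h3 := NullU.NA4_CH hn hB i j
  simp only [dtB, Fin.sum_univ_three] at h1 h2 h3 ⊢
  linear_combination h1 - h2 - h3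

theorem eb {n : E3} (hn : ‖n‖ = 1) {B B1 : Fin 3 → Fin 3 → ℝ} (hB : Tng n B) (h1 : Tng n B1) (hd : 0 < dtB B)
    (hs : ∀ i j, ∑ k, B k i * B1 k j = ∑ k, B1 k i * B k j) {y : Fin 3 → ℝ} (hy : ∑ i, n i * y i = 0) (k : Fin 3) :
    ∑ j, cf n B1 k j * (∑ m, B m j * y m) = dtB B * ((∑ i, mh n B B1 i i) * y k - ∑ j, mh n B B1 k j * y j) := by
  obtain ⟨M, hMdef⟩ : ∃ M, M = mh n B B1 := ⟨_, rfl⟩
  have hM : Tng n M := by
    rw [hMdef]
    exact NullU.mh_tng hn hB h1
  have hMs : ∀ a b, M a b = M b a := by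
    intro a b
    rw [hMdef]
    exact NullU.mh_symm hn hB h1 hd hs a b
  have hMB : ∀ a b, ∑ l, M a l * B l b = B1 a b := by
    intro a b
    rw [hMdef]
    exact NullU.mh_mul hn hB h1 hd a b
  rw [← hMdef]
  let Bm : Matrix (Fin 3) (Fin 3) ℝ := Matrix.of B
  let Mm : Matrix (Fin 3) (Fin 3) ℝ := Matrix.of M
  let Pm : Matrix (Fin 3) (Fin 3) ℝ := Matrix.of (proj n)
  obtain ⟨tM, htM⟩ : ∃ t, t = ∑ k, M k k := ⟨_, rfl⟩
  obtain ⟨tB, htB⟩ : ∃ t, t = ∑ k, B k k := ⟨_, rfl⟩
  obtain ⟨t1, ht1⟩ : ∃ t, t = ∑ k, B1 k k := ⟨_, rfl⟩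
  obtain ⟨d, hdd⟩ : ∃ t, t = dtB B := ⟨_, rfl⟩
  have hMT : Mm.transpose = Mm := by
    ext a b
    exact hMs b a
  have hPT : Pm.transpose = Pm := NullU.NA2_P_symm n
  have hMP : Mm * Pm = Mm := NullU.NA2_mul_P hM.r
  have hBP : Bm * Pm = Bm := NullU.NA2_mul_P hB.r
  have hPB : Pm * Bm.transpose = Bm.transpose := by
    have := congrArg Matrix.transpose hBP
    rwa [Matrix.transpose_mul, hPT] at this
  have hCH : Bm.transpose * Bm.transpose = tB • Bm.transpose - d • Pm := by
    have : Bm * Bm = tB • Bm - d • Pm := by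
      ext a b
      rw [Matrix.mul_apply]
      have h2 := NullU.NA4_CH hn hB a b
      rw [← htB, ← hdd] at h2
      exact h2
    have h3 := congrArg Matrix.transpose this
    rwa [Matrix.transpose_mul, Matrix.transpose_sub, Matrix.transpose_smul, Matrix.transpose_smul, hPT] at h3
  have ht1' : t1 = ∑ k, ∑ l, M k l * B l k := by
    rw [ht1]
    exact Finset.sum_congr rfl fun a _ => (hMB a a).symm
  have hpol : Bm.transpose * Mm + Mm * Bm.transpose = tM • Bm.transpose + tB • Mm - (tM * tB - t1) • Pm := by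
    have : Mm * Bm + Bm * Mm = tM • Bm + tB • Mm - (tM * tB - t1) • Pm := by
      ext a b
      rw [Matrix.add_apply, Matrix.mul_apply, Matrix.mul_apply]
      have h2 := eb_pol hn hM hB a b
      rw [← htM, ← htB, ← ht1'] at h2
      exact h2
    have h3 := congrArg Matrix.transpose this
    rwa [Matrix.transpose_add, Matrix.transpose_mul, Matrix.transpose_mul, Matrix.transpose_sub, Matrix.transpose_add,
      Matrix.transpose_smul, Matrix.transpose_smul, Matrix.transpose_smul, hPT, hMT] at h3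
  have hfin : t1 • Bm.transpose - Bm.transpose * Mm * Bm.transpose = d • (tM • Pm - Mm) := by
    have h2 := congrArg (fun X => X * Bm.transpose) hpol
    simp only [add_mul, sub_mul, smul_mul_assoc] at h2
    rw [Matrix.mul_assoc Mm, hCH, hPB, mul_sub, mul_smul_comm, mul_smul_comm, hMP] at h2
    linear_combination (norm := module) (-1 : ℝ) • h2
  -- the entries
  have hz : ∑ j, n j * (∑ m, B m j * y m) = 0 := by
    have e : ∀ j, n j * (∑ m, B m j * y m) = ∑ m, (B m j * n j) * y m := by
      intro j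
      rw [Finset.mul_sum]
      exact Finset.sum_congr rfl fun m _ => by ring
    simp only [e]
    rw [Finset.sum_comm]
    simp only [← Finset.sum_mul, hB.r, zero_mul, Finset.sum_const_zero]
  have hL : ∑ j, cf n B1 k j * (∑ m, B m j * y m) = ∑ m, (t1 • Bm.transpose - Bm.transpose * Mm * Bm.transpose) k m * y m := by
    have e1 : ∀ j, cf n B1 k j * (∑ m, B m j * y m) = t1 * (proj n k j * (∑ m, B m j * y m)) - B1 j k * (∑ m, B m j * y m) := by
      intro j
      unfold cf
      rw [← ht1]
      ring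
    simp only [e1]
    rw [Finset.sum_sub_distrib, ← Finset.mul_sum, eb_projv hz]
    have e2 : ∀ m, (t1 • Bm.transpose - Bm.transpose * Mm * Bm.transpose) k m * y m =
        t1 * (B m k * y m) - ∑ j, B1 j k * (B m j * y m) := by
      intro m
      have e3 : (Bm.transpose * Mm * Bm.transpose) k m = ∑ j, B1 j k * B m j := by
        rw [Matrix.mul_apply]
        refine Finset.sum_congr rfl fun j _ => ?_
        rw [Matrix.mul_apply]
        have e4 : ∑ l, Bm.transpose k l * Mm l j = B1 j k := by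
          rw [← hMB j k]
          refine Finset.sum_congr rfl fun l _ => ?_
          change B l k * M l j = M j l * B l k
          rw [hMs l j]
          ring
        rw [e4]
        rfl
      rw [Matrix.sub_apply, Matrix.smul_apply, e3, smul_eq_mul]
      change (t1 * B m k - ∑ j, B1 j k * B m j) * y m = _
      rw [sub_mul, Finset.sum_mul, mul_assoc]
      congr 1
      exact Finset.sum_congr rfl fun j _ => by ring
    simp only [e2]
    rw [Finset.sum_sub_distrib, ← Finset.mul_sum]
    congr 1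
    rw [Finset.sum_comm]
    exact Finset.sum_congr rfl fun j _ => by rw [Finset.mul_sum]
  rw [hL, hfin]
  have e5 : ∀ m, (d • (tM • Pm - Mm)) k m * y m = d * (tM * (proj n k m * y m) - M k m * y m) := by
    intro m
    change d * (tM * proj n k m - M k m) * y m = _
    ring
  simp only [e5]
  rw [← Finset.mul_sum, Finset.sum_sub_distrib, ← Finset.mul_sum, eb_projv hy, ← htM, ← hdd]

end H17S
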