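import Pool.Agent.Lib.H17S.ED
import Pool.Agent.Lib.H17S.EA
import Pool.Agent.Lib.H17S.EB

set_option autoImplicit false

/-!
Chunk E1 (M). The differential inequality along a generator. Write `M = mh n (B s n) (dB B s n)`, `y = yB D B Y n`.
`e1_y`: `y` is differentiable (`B` smooth, `Y` differentiable, `dA_der` in `H17U/DA`, `dA_pos`) and `y' = l - M y`: differentiate `Σ_k B k i y k = Y i` (valid for all times near `s`, `eb_inv`, `Frm.dt`), so
`Σ_k B k i (y' k - l k + Σ_j M k j y j) = 0` (`dB k i = Σ_j M k j B j i`, `mh_mul`; `M` symmetric, `mh_symm`); the vector in brackets is tangent (`eb_tan` for all times near `s`, so `Σ n k y' k = 0`; `mh_tng`), so multiply by `cf n B m i` and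
sum over `i` (`cf_mul'`, NA1; compare the end of the proof of `x_der` in `H17U/TC4.lean`).
`e1`: the derivative of `GB` from `x_der` (TC4), `e1_y`, `EN1_den` (`H17U/EN1`: derivative of `exL dA`); then `ea` with `a = dA = dtB B`, `exL = tr M`, `chiSq = Σ M^2` (`exL_fr`, `chiSq_fr`), `c = Z - x` (definition of `xB`), `Σ Z^2 = torSq dA^2` (`tor_fr`),
`Σ q^2 = (Σ gi j j) dA^2 <= e ρ dA^2` (`q_fr`, `hD.dec`), and `eb` (with `Σ_m B m j y m = Y j`) for the last term.
-/

open MeasureTheory Filter Topology Set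
open scoped ContDiff

namespace H17S

open NullPen (E3 S2 sm proj pd MatterData NullData Th)
open NullU (rl crs dtB cf Tng Cu cc Frm zB qB xB tt dB mh)
open NullQ (rt HR)

variable {D : MatterData} {δ T : ℝ} {B : ℝ → E3 → Fin 3 → Fin 3 → ℝ}

theorem e1_inv (hD : D.IsNull) (hB : Frm D δ T B) {s : ℝ} (hs : δ ≤ s) (n : S2) {Y : ℝ → Fin 3 → ℝ}
    (hY : ∑ i, (n : E3) i * Y s i = 0) (i : Fin 3) : ∑ k, B s n k i * yB D B Y n s k = Y s i := by
  have h1 := eb_inv (NullU.tc4_nrm n) (hB.tng s hs n) (NullU.dt_pos hD hB hs n) hY i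
  rw [hB.dt s hs n] at h1
  exact h1

theorem e1_tan (hB : Frm D δ T B) {s : ℝ} (hs : δ ≤ s) (n : S2) (Y : ℝ → Fin 3 → ℝ) :
    ∑ k, (n : E3) k * yB D B Y n s k = 0 := by
  have h1 := eb_tan (NullU.tc4_nrm n) (hB.tng s hs n) (Y s)
  rw [hB.dt s hs n] at h1
  exact h1

theorem e1_yd (hD : D.IsNull) (hB : Frm D δ T B) {s : ℝ} (hs : δ < s) (n : S2) {Y : ℝ → Fin 3 → ℝ} {Y' : Fin 3 → ℝ}
    (hY : ∀ i, HasDerivAt (fun t => Y t i) (Y' i) s) (k : Fin 3) :
    ∃ y1, HasDerivAt (fun t => yB D B Y n t k) y1 s := by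
  have hs0 : 0 < s := hB.pos.trans hs
  have hb : ∀ i j, DifferentiableAt ℝ (fun t => B t (n : E3) i j) s := fun i j =>
    (NullU.dB_der hB s n i j).differentiableAt
  have h : DifferentiableAt ℝ (fun t => yB D B Y n t k) s := by
    unfold yB NullU.cf
    refine DifferentiableAt.div ?_ (NullU.dA_der hD n hs0).differentiableAt (NullU.dA_pos hD n hs0.le).ne'
    refine DifferentiableAt.fun_sum fun j _ => ?_
    refine DifferentiableAt.mul ?_ (hY j).differentiableAt
    refine DifferentiableAt.sub ?_ (hb j k)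
    exact DifferentiableAt.mul_const (DifferentiableAt.fun_sum fun i _ => hb i i) _
  exact ⟨_, h.hasDerivAt⟩

theorem e1_y (hD : D.IsNull) (hB : Frm D δ T B) {s : ℝ} (hs : δ < s) (n : S2) {Y : ℝ → Fin 3 → ℝ} {l : Fin 3 → ℝ}
    (hl : ∑ i, (n : E3) i * l i = 0) (hY : ∀ i, HasDerivAt (fun t => Y t i) (∑ k, B s n k i * l k) s)
    (tY : ∀ᶠ t in 𝓝 s, ∑ i, (n : E3) i * Y t i = 0) (k : Fin 3) :
    HasDerivAt (fun t => yB D B Y n t k) (l k - ∑ j, mh n (B s n) (dB B s n) k j * yB D B Y n s j) s := by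
  choose y1 hy1 using e1_yd hD hB hs n hY
  have hn := NullU.tc4_nrm n
  have hs0 : 0 < s := hB.pos.trans hs
  have hev : ∀ᶠ t in 𝓝 s, δ ≤ t := (lt_mem_nhds hs).mono fun t ht => ht.le
  have tB := hB.tng s hs.le n
  have t1 := NullU.dB_tng hB hs n
  have hd : 0 < dtB (B s n) := NullU.dt_pos hD hB hs.le n
  have hsy : ∀ k l, mh n (B s n) (dB B s n) k l = mh n (B s n) (dB B s n) l k :=
    NullU.mh_symm hn tB t1 hd (hB.sym s hs n)
  have hmul : ∀ k j, ∑ l, mh n (B s n) (dB B s n) k l * B s n l j = dB B s n k j :=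
    NullU.mh_mul hn tB t1 hd
  have hmt : Tng n (mh n (B s n) (dB B s n)) := NullU.mh_tng hn tB t1
  -- tangency
  have htan : ∑ k, (n : E3) k * y1 k = 0 := by
    have h1 : HasDerivAt (fun t => ∑ k, (n : E3) k * yB D B Y n t k) (∑ k, (n : E3) k * y1 k) s :=
      HasDerivAt.fun_sum fun k _ => (hy1 k).const_mul _
    have h2 : HasDerivAt (fun _ : ℝ => (0 : ℝ)) (∑ k, (n : E3) k * y1 k) s := by
      refine h1.congr_of_eventuallyEq ?_
      filter_upwards [hev] with t ht
      exact (e1_tan hB ht n Y).symm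
    exact h2.unique (hasDerivAt_const s 0)
  -- derivative of `Bᵀ y = Y`
  have hid : ∀ i, ∑ k, (dB B s n k i * yB D B Y n s k + B s n k i * y1 k) = ∑ k, B s n k i * l k := by
    intro i
    have h1 : HasDerivAt (fun t => ∑ k, B t n k i * yB D B Y n t k)
        (∑ k, (dB B s n k i * yB D B Y n s k + B s n k i * y1 k)) s :=
      HasDerivAt.fun_sum fun k _ => (NullU.dB_der hB s n k i).mul (hy1 k)
    have h3 : HasDerivAt (fun t => ∑ k, B t n k i * yB D B Y n t k) (∑ k, B s n k i * l k) s := by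
      refine (hY i).congr_of_eventuallyEq ?_
      filter_upwards [hev, tY] with t ht ht2
      exact e1_inv hD hB ht n ht2 i
    exact h1.unique h3
  obtain ⟨w, hw⟩ : ∃ w : Fin 3 → ℝ, w = fun k => y1 k - l k + ∑ j, mh n (B s n) (dB B s n) k j * yB D B Y n s j :=
    ⟨_, rfl⟩
  have hwk : ∀ k, w k = y1 k - l k + ∑ j, mh n (B s n) (dB B s n) k j * yB D B Y n s j := fun k => by rw [hw]
  have hw0 : ∀ i, ∑ k, B s n k i * w k = 0 := by
    intro i
    have e1 : ∑ k, B s n k i * w k = (∑ k, (dB B s n k i * yB D B Y n s k + B s n k i * y1 k)) -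
        (∑ k, B s n k i * l k) + ((∑ k, B s n k i * ∑ j, mh n (B s n) (dB B s n) k j * yB D B Y n s j) -
          ∑ k, dB B s n k i * yB D B Y n s k) := by
      simp only [hwk, mul_add, mul_sub, Finset.sum_add_distrib, Finset.sum_sub_distrib]
      ring
    have e2 : ∑ k, B s n k i * ∑ j, mh n (B s n) (dB B s n) k j * yB D B Y n s j =
        ∑ k, dB B s n k i * yB D B Y n s k := by
      simp only [← hmul, Finset.mul_sum, Finset.sum_mul]
      rw [Finset.sum_comm]
      refine Finset.sum_congr rfl fun j _ => Finset.sum_congr rfl fun k _ => ?_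
      rw [hsy j k]
      ring
    rw [e1, hid i, e2]
    ring
  have hwt : ∑ k, (n : E3) k * w k = 0 := by
    have e1 : ∑ k, (n : E3) k * w k = (∑ k, (n : E3) k * y1 k) - (∑ k, (n : E3) k * l k) +
        ∑ j, (∑ k, (n : E3) k * mh n (B s n) (dB B s n) k j) * yB D B Y n s j := by
      simp only [hwk, mul_add, mul_sub, Finset.sum_add_distrib, Finset.sum_sub_distrib]
      congr 1
      simp only [Finset.mul_sum, Finset.sum_mul]
      rw [Finset.sum_comm]
      refine Finset.sum_congr rfl fun j _ => Finset.sum_congr rfl fun k _ => by ring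
    rw [e1, htan, hl]
    simp only [hmt.l, zero_mul, Finset.sum_const_zero]
    ring
  have hwz : ∀ m, w m = 0 := by
    intro m
    have h1 : ∑ i, cf n (B s n) m i * (∑ k, B s n k i * w k) = 0 := by simp only [hw0, mul_zero, Finset.sum_const_zero]
    have h2 : ∑ i, cf n (B s n) m i * (∑ k, B s n k i * w k) = ∑ k, (∑ i, B s n k i * cf n (B s n) m i) * w k := by
      simp only [Finset.mul_sum, Finset.sum_mul]
      rw [Finset.sum_comm]
      refine Finset.sum_congr rfl fun j _ => Finset.sum_congr rfl fun k _ => by ring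
    rw [h2] at h1
    simp only [NullU.cf_mul' hn tB, mul_assoc] at h1
    rw [← Finset.mul_sum, NullU.tc4_proj hwt] at h1
    exact (mul_eq_zero.1 h1).resolve_left hd.ne'
  have h9 := hwz k
  rw [hwk] at h9
  have h10 : y1 k = l k - ∑ j, mh n (B s n) (dB B s n) k j * yB D B Y n s j := by linarith
  rw [← h10]
  exact hy1 k

theorem e1 (hD : D.IsNull) (hB : Frm D δ T B) {s : ℝ} (hs : δ < s) (n : S2) {Y : ℝ → Fin 3 → ℝ} {l : Fin 3 → ℝ}
    (hl : ∑ i, (n : E3) i * l i = 0) (hY : ∀ i, HasDerivAt (fun t => Y t i) (∑ k, B s n k i * l k) s)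
    (tY : ∀ᶠ t in 𝓝 s, ∑ i, (n : E3) i * Y t i = 0) :
    ∃ G', HasDerivAt (fun t => GB D B Y n t) G' s ∧
      G' + 4 * (∑ k, cc (B s) n k * l k) - 2 * D.dA s n * (∑ k, l k ^ 2) -
        8 * (∑ k, l k * ∑ j, cf n (dB B s n) k j * Y s j) ≤ 2 * (D.torSq s n * D.dA s n) + D.ρ s n * D.dA s n := by
  have hn := NullU.tc4_nrm n
  have hs0 : 0 < s := hB.pos.trans hs
  have tB := hB.tng s hs.le n
  have t1 := NullU.dB_tng hB hs n
  have hd : 0 < dtB (B s n) := NullU.dt_pos hD hB hs.le n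
  have hdt := hB.dt s hs.le n
  have ha : 0 < D.dA s n := NullU.dA_pos hD n hs0.le
  have hsy : ∀ k l, mh n (B s n) (dB B s n) k l = mh n (B s n) (dB B s n) l k :=
    NullU.mh_symm hn tB t1 hd (hB.sym s hs n)
  have hmt : Tng n (mh n (B s n) (dB B s n)) := NullU.mh_tng hn tB t1
  have hy : ∑ k, (n : E3) k * yB D B Y n s k = 0 := e1_tan hB hs.le n Y
  have hdec : ∑ i, qB D B s n i ^ 2 ≤ D.dA s n ^ 2 * (D.e s n * D.ρ s n) := by
    rw [← NullU.q_fr hD hB hs.le n, mul_comm]
    exact mul_le_mul_of_nonneg_left (hD.dec s hs0.le n) (sq_nonneg _)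
  have hdx := NullU.x_der hD hB hs n
  have hdy := e1_y hD hB hs n hl hY tY
  have hda := NullU.EN1_den hD hB hs n
  have key := ea hn hmt hsy ha (hD.e_nonneg s hs0.le n) (hD.ρ_nonneg s hs0.le n) (x := xB D B s n) (Z := zB D B s n)
    (l := l) hy hdec
  have heb := eb hn tB t1 hd (hB.sym s hs n) hy
  have hinv := e1_inv hD hB hs.le n tY.self_of_nhds
  have htor := NullU.tor_fr hD hB hs.le n
  simp only [hinv, hdt] at heb
  have hu := NullU.exL_fr hD hB hs n
  have hc := NullU.chiSq_fr hD hB hs n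
  have h1 : HasDerivAt (fun t => GB D B Y n t) _ s :=
    (((HasDerivAt.fun_sum fun k (_ : k ∈ Finset.univ) => (hdx k).mul (hdy k)).const_mul 4).add
    ((hda.const_mul 4).mul (HasDerivAt.fun_sum fun k (_ : k ∈ Finset.univ) => (hdy k).fun_pow 2)))
  refine ⟨_, h1, ?_⟩
  have hcc : ∀ k, cc (B s) n k = zB D B s n k - xB D B s n k := fun k => by
    unfold NullU.xB
    ring
  simp only [heb, hcc]
  rw [hu, hc]
  have htor' : 2 * (D.torSq s n * D.dA s n) = 2 * (∑ k, zB D B s n k ^ 2) / D.dA s n := by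
    rw [← htor]
    field_simp
  rw [htor']
  refine le_trans (le_of_eq ?_) key
  simp only [Fin.sum_univ_three]
  push_cast
  ring

end H17S
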