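import Pool.Agent.Lib.H17S.ED

set_option autoImplicit false

/-!
Chunk E10 (M). Choice of the final time. `e10_cs`: Cauchy-Schwarz: `(∫ √dA)^2 <= sm(S2) ∫ dA = 4 pi area`, so `2 ∫ √dA <= √(16 pi area)` (see the proof of `area_ge` in `H17U/LM1.lean`).
`e10_x`: at the top of a frame `|x|^2/(exL dA) <= C/T + C (T tt-density)`: exactly as `FF_top` in `H17U/LM2.lean` (`lm2_alg` without the term `h`): `|x|^2 <= 2 |Z|^2 + 2 |c|^2`, `|Z|^2 = torSq dA^2` (`tor_fr`), `|c|^2 <= C3` (`asy2`), `exL dA >= 2 T`,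
`2/exL <= T + C2`, so `|x|^2/(exL dA) <= 2 torSq dA /exL + 2 C3/(2T) <= (1 + C2) T (torSq dA) + C3/T`; integrate.
`e10`: `BondiEnergy`: `√(16 pi area s) - Th s <= 16 pi E + ε` for all large `s`; `tor_small` (LM1) with a small constant and a large `S0` gives `T`.
-/

open MeasureTheory Filter Topology Set
open scoped ContDiff

namespace H17S

open NullPen (E3 S2 sm proj pd MatterData NullData Th)
open NullU (rl crs dtB cf Tng Cu cc Frm zB qB xB tt dB mh)
open NullQ (rt HR)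

variable {D : MatterData}

theorem e10_cs (hD : D.IsNull) {s : ℝ} (hs : 0 ≤ s) : 2 * (∫ n : S2, Real.sqrt (D.dA s n) ∂sm) ≤ Real.sqrt (16 * Real.pi * D.area s) := by
  have hfin : IsFiniteMeasure sm := NullPen.MatterData.EN_fin
  have hdc := NullU.dA_cont_at hD hs
  have hrc : Continuous (fun n : S2 => Real.sqrt (D.dA s n)) := hdc.sqrt
  have h3 := NullPen.MatterData.EN_cs hrc
  have h4 : ∫ n : S2, Real.sqrt (D.dA s n) ^ 2 ∂sm = D.area s := by
    refine integral_congr_ae (Eventually.of_forall fun n => ?_)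
    exact Real.sq_sqrt (NullU.dA_pos hD n hs).le
  rw [h4] at h3
  refine Real.le_sqrt_of_sq_le ?_
  nlinarith

theorem e10_alg {u a q T t C2 C3 X Z c : ℝ} (hT : 1 ≤ T) (hu : 0 < u) (ha : 0 < a) (hua : 2 * T ≤ u * a)
    (hq : q * u = 2) (hqC : q ≤ T + C2) (hC2 : 0 ≤ C2) (hC3 : 0 ≤ C3)
    (hX : X ≤ 2 * Z + 2 * c) (hc : c ≤ C3) (hZ : Z = t * a ^ 2) (ht : 0 ≤ t) :
    X / (u * a) ≤ C3 / T + (1 + C2) * T * (t * a) := by
  have hT0 : 0 < T := by linarith
  have h0 : 0 < u * a := mul_pos hu ha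
  have k1 : (2 * C3) / (u * a) ≤ C3 / T := by
    rw [div_le_div_iff₀ h0 hT0]
    nlinarith
  have k2 : (2 * (t * a ^ 2)) / (u * a) = q * (t * a) := by
    rw [div_eq_iff h0.ne']
    linear_combination (- t * a ^ 2) * hq
  have k3 : X / (u * a) ≤ (2 * (t * a ^ 2)) / (u * a) + (2 * C3) / (u * a) := by
    rw [← add_div]
    refine div_le_div_of_nonneg_right ?_ h0.le
    rw [hZ] at hX
    linarith
  have k4 : q * (t * a) ≤ (1 + C2) * T * (t * a) := by
    refine mul_le_mul_of_nonneg_right ?_ (mul_nonneg ht ha.le)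
    nlinarith
  linarith

theorem e10_x (hD : D.IsNull) (hA : D.AsympFlat) : ∃ C : ℝ, 0 ≤ C ∧ ∀ T, 1 ≤ T → ∀ δ B, Frm D δ T B →
    ∫ n : S2, (∑ k, xB D B T n k ^ 2) / (D.exL T n * D.dA T n) ∂sm ≤ C / T + C * (T * tt D T) := by
  have := NullPen.c1_fin
  have hsm : sm.real Set.univ = 4 * Real.pi := Pool.Agent.Lib.PenroseSph.sm_univ
  have hπ := Real.pi_pos
  obtain ⟨C2, hC2, h2⟩ := NullU.ray_data hD hA
  obtain ⟨C3, hC3, h3⟩ := NullU.asy2 hD hA
  refine ⟨4 * Real.pi * C3 + (1 + C2), by positivity, fun T hT δ B hB => ?_⟩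
  have hT0 : 0 < T := by linarith
  have key : ∀ n : S2, (∑ k, xB D B T n k ^ 2) / (D.exL T n * D.dA T n) ≤
      C3 / T + (1 + C2) * T * (D.torSq T n * D.dA T n) := by
    intro n
    have ha := NullU.dA_pos hD n hT0.le
    have hu := NullU.u_pos hD hA hT0 n
    have hb := NullU.be_nonneg hD hA hT0 n
    have hr := NullU.r_ge hD hA hT0 n
    have h4 : 2 ≤ D.exL T n * Real.sqrt (D.dA T n) := (h2 n).rp_ge hT0
    have h5 : 2 / D.exL T n - T ≤ C2 := (h2 n).be_le hT
    have h7 := NullU.tor_nonneg hD n hT0.le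
    have h8 := NullU.tor_fr hD hB hB.lt.le n
    have h9 : ∑ k, cc (B T) n k ^ 2 ≤ C3 := h3 T hT (B T) (fun i j => (hB.sm i j).comp (contDiff_const.prodMk contDiff_id))
      hB.top n
    have hsq := Real.mul_self_sqrt ha.le
    have k1 : 2 * T ≤ D.exL T n * D.dA T n := by
      have h10 : T ≤ Real.sqrt (D.dA T n) := by linarith
      have h11 : D.exL T n * D.dA T n = (D.exL T n * Real.sqrt (D.dA T n)) * Real.sqrt (D.dA T n) := by
        rw [mul_assoc, hsq]
      rw [h11]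
      nlinarith
    refine e10_alg hT hu ha k1 (div_mul_cancel₀ _ hu.ne') (by linarith) hC2 hC3 (X := ∑ k, xB D B T n k ^ 2)
      (Z := ∑ k, zB D B T n k ^ 2) (c := ∑ k, cc (B T) n k ^ 2) ?_ h9 h8.symm h7
    rw [Finset.mul_sum, Finset.mul_sum, ← Finset.sum_add_distrib]
    refine Finset.sum_le_sum fun k _ => ?_
    unfold xB
    nlinarith [sq_nonneg (zB D B T n k + cc (B T) n k)]
  have ct : Continuous (fun n : S2 => D.torSq T n * D.dA T n) :=
    NullPen.cont_at (F := fun s n => D.torSq s n * D.dA s n) (NullU.tor_cont hD) hT0.le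
  have it := NullPen.integrable_sm ct
  have i2 : Integrable (fun _ : S2 => C3 / T) sm := integrable_const _
  have i3 : Integrable (fun n : S2 => (1 + C2) * T * (D.torSq T n * D.dA T n)) sm := it.const_mul _
  have h4 : ∫ n : S2, (∑ k, xB D B T n k ^ 2) / (D.exL T n * D.dA T n) ∂sm ≤
      ∫ n : S2, (C3 / T + (1 + C2) * T * (D.torSq T n * D.dA T n)) ∂sm := by
    refine integral_mono_of_nonneg (Eventually.of_forall fun n => ?_) (i2.add i3) (Eventually.of_forall key)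
    exact div_nonneg (Finset.sum_nonneg fun k _ => sq_nonneg _)
      (mul_pos (NullU.u_pos hD hA hT0 n) (NullU.dA_pos hD n hT0.le)).le
  rw [integral_add i2 i3, integral_const_mul, integral_const, hsm, smul_eq_mul] at h4
  have htt : 0 ≤ tt D T := NullU.tt_nonneg hD hT0.le
  have e2 : ∫ n : S2, D.torSq T n * D.dA T n ∂sm = tt D T := rfl
  rw [e2] at h4
  have h5 : 0 ≤ (1 + C2) / T := by positivity
  have h6 : 0 ≤ 4 * Real.pi * C3 * (T * tt D T) := by positivity
  have e3 : (4 * Real.pi * C3 + (1 + C2)) / T = 4 * Real.pi * (C3 / T) + (1 + C2) / T := by ring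
  rw [e3]
  linarith

theorem e10 (hD : D.IsNull) (hA : D.AsympFlat) (htr : ∀ n : S2, D.θ 0 n ≤ 0) {E : ℝ} (hE : D.BondiEnergy E) {ε : ℝ} (hε : 0 < ε) (S0 : ℝ) :
    ∃ T, S0 ≤ T ∧ 1 ≤ T ∧ 2 * (∫ n : S2, Real.sqrt (D.dA T n) ∂sm) - Th D T ≤ 16 * Real.pi * E + ε ∧
      ∀ δ B, Frm D δ T B → ∫ n : S2, (∑ k, xB D B T n k ^ 2) / (D.exL T n * D.dA T n) ∂sm ≤ ε := by
  have hπ := Real.pi_pos
  obtain ⟨C, hC, hF⟩ := e10_x hD hA
  have hE1 : E < E + ε / (16 * Real.pi) := by
    have : 0 < ε / (16 * Real.pi) := by positivity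
    linarith
  have h1 : ∀ᶠ s : ℝ in atTop, (Real.sqrt (16 * Real.pi * D.area s) - ∫ n : S2, D.θ s n * D.dA s n ∂sm) / (16 * Real.pi) <
      E + ε / (16 * Real.pi) := hE.eventually_lt_const hE1
  obtain ⟨T1, hT1⟩ := eventually_atTop.1 h1
  have hε' : 0 < ε / (2 * (C + 1)) := by positivity
  obtain ⟨T, hT, hT2, h3⟩ := NullU.tor_small hD hA htr hE hε' (max (max S0 T1) (2 * C / ε))
  have hTS : S0 ≤ T := le_trans (le_trans (le_max_left _ _) (le_max_left _ _)) hT
  have hTT : T1 ≤ T := le_trans (le_trans (le_max_right _ _) (le_max_left _ _)) hT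
  have hTC : 2 * C / ε ≤ T := le_trans (le_max_right _ _) hT
  have hT0 : 0 < T := by linarith
  have h6 := hT1 T hTT
  rw [div_lt_iff₀ (by positivity)] at h6
  have h5 := e10_cs hD hT0.le
  refine ⟨T, hTS, hT2, ?_, fun δ B hB => ?_⟩
  · have e : Th D T = ∫ n : S2, D.θ T n * D.dA T n ∂sm := rfl
    rw [← e] at h6
    have h12 : (E + ε / (16 * Real.pi)) * (16 * Real.pi) = 16 * Real.pi * E + ε := by
      field_simp
    linarith
  · have h4 := hF T hT2 δ B hB
    have h7 : C / T ≤ ε / 2 := by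
      rw [div_le_iff₀ hε] at hTC
      rw [div_le_iff₀ hT0]
      linarith
    have h8 : C * (T * tt D T) ≤ ε / 2 := by
      have htt : 0 ≤ T * tt D T := mul_nonneg hT0.le (NullU.tt_nonneg hD hT0.le)
      have h9 : C * (T * tt D T) ≤ (C + 1) * (T * tt D T) := by nlinarith
      have h10 : (C + 1) * (T * tt D T) ≤ (C + 1) * (ε / (2 * (C + 1))) := mul_le_mul_of_nonneg_left h3.le (by linarith)
      have h11 : (C + 1) * (ε / (2 * (C + 1))) = ε / 2 := by
        field_simp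
      linarith
    linarith

end H17S
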