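import Pool.Agent.Lib.H17S.E9
import Pool.Agent.Lib.H17S.E10

set_option autoImplicit false

/-!
Chunk E11 (M). The energy inequality, `T → ∞`. `b0_meas`: limit of the continuous functions `√dA s - s` along `s = k ∈ ℕ` (`measurable_of_tendsto_metrizable`), bounded. `b0_lim`: `∫ (√dA s - s) → ∫ b0` (`tendsto_integral_filter_of_dominated_convergence`, or for the sequence; the
bound: `asy1` in `H17U/AS1`: `|√dA - s| <= C` for `s >= 1`).
`e11`: let `ε > 0`; `K` from `e9`. For large `S0`: `4 pi K/T <= ε` for `T >= S0` and `∫ (√dA T - T) >= ∫ b0 - ε`. `T` from `e10` (`S0 >= t0, 1`, and `δ < T`), a frame `B` from `exists_frame` (`H17U/BF5`). Then `16 pi E + ε >= 2 ∫ √dA - Th T >= 2 ∫ √dA - 8 pi T - ε + ∫ qT`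
(`e6`) `= 2 ∫ (√dA - T) - ε + ∫ qT >= 2 ∫ b0 - 3 ε + ∫ qI - 4 pi K/T` (`sm` has total mass `4 pi`: `PenroseSph.sm_univ`). `ε → 0` (`le_of_forall_pos_le_add`).
-/

open MeasureTheory Filter Topology Set
open scoped ContDiff

namespace H17S

open NullPen (E3 S2 sm proj pd MatterData NullData Th)
open NullU (rl crs dtB cf Tng Cu cc Frm zB qB xB tt dB mh)
open NullQ (rt HR)

variable {D : MatterData} {δ T t0 C Cl : ℝ} {Bi : ℝ → S2 → Fin 3 → Fin 3 → ℝ} {b0 : S2 → ℝ} {Λ Λ1 : ℝ → S2 → Fin 3 → ℝ} {W1 : Fin 3 → ℝ → S2 → Fin 3 → ℝ}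

theorem e11_fin : IsFiniteMeasure sm := NullPen.c1_fin

theorem e11_int {f : S2 → ℝ} (hf : Continuous f) : Integrable f sm := by
  have := e11_fin
  exact Continuous.integrable_of_hasCompactSupport hf (HasCompactSupport.of_compactSpace _)

theorem e11_const (c : ℝ) : ∫ _ : S2, c ∂sm = 4 * Real.pi * c := by
  have hsm : sm.real Set.univ = 4 * Real.pi := Pool.Agent.Lib.PenroseSph.sm_univ
  rw [integral_const, hsm, smul_eq_mul]

theorem e11_ct (hD : D.IsNull) (s : ℝ) : Continuous (fun n : S2 => Real.sqrt (D.dA s n)) :=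
  Real.continuous_sqrt.comp ((NullU.da_dAc hD).comp (f := fun n : S2 => ((s, n) : ℝ × S2)) (by fun_prop))

theorem b0_int (hD : D.IsNull) (hI : FInf D δ C Bi b0) : Integrable b0 sm := by
  have := e11_fin
  have hm : Measurable b0 := by
    refine measurable_of_tendsto_metrizable (f := fun (k : ℕ) (n : S2) => Real.sqrt (D.dA k n) - k) ?_ ?_
    · intro k
      exact ((e11_ct hD k).sub continuous_const).measurable
    · rw [tendsto_pi_nhds]
      intro n
      exact (hI.lim_b n).comp tendsto_natCast_atTop_atTop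
  exact Integrable.of_bound hm.aestronglyMeasurable C (Eventually.of_forall fun n => hI.abs_b n)

theorem b0_lim (hD : D.IsNull) (hA : D.AsympFlat) (hI : FInf D δ C Bi b0) :
    Tendsto (fun s => ∫ n : S2, (Real.sqrt (D.dA s n) - s) ∂sm) atTop (𝓝 (∫ n : S2, b0 n ∂sm)) := by
  have := e11_fin
  obtain ⟨C', _, hC'⟩ := NullU.asy1 hD hA
  refine tendsto_integral_filter_of_dominated_convergence (fun _ => C') ?_ ?_ ?_ ?_
  · exact Eventually.of_forall fun s => (e11_int ((e11_ct hD s).sub continuous_const)).aestronglyMeasurable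
  · filter_upwards [eventually_ge_atTop (1 : ℝ)] with s hs
    exact Eventually.of_forall fun n => (hC' s hs n).1
  · exact integrable_const _
  · exact Eventually.of_forall fun n => hI.lim_b n

theorem e11 (hD : D.IsNull) (hA : D.AsympFlat) (htr : ∀ n : S2, D.θ 0 n ≤ 0) {E : ℝ} (hE : D.BondiEnergy E) (hI : FInf D δ C Bi b0)
    (h0 : δ ≤ t0) (hΛ : TestF t0 Cl Λ Λ1 W1) : ∫ n : S2, (2 * b0 n + qI D Bi t0 Λ Λ1 W1 n) ∂sm ≤ 16 * Real.pi * E := by
  have hb := b0_int hD hI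
  have hqc := qI_cont hD hI h0 hΛ
  have hq := e11_int hqc
  have hsplit : ∫ n : S2, (2 * b0 n + qI D Bi t0 Λ Λ1 W1 n) ∂sm = 2 * (∫ n : S2, b0 n ∂sm) + ∫ n : S2, qI D Bi t0 Λ Λ1 W1 n ∂sm := by
    rw [integral_add (hb.const_mul 2) hq, integral_const_mul]
  rw [hsplit]
  obtain ⟨K, hK0, hK⟩ := e9 hD hI h0 hΛ
  refine le_of_forall_pos_le_add fun ε' hε' => ?_
  obtain ⟨ε, hε, hεε⟩ : ∃ ε : ℝ, 0 < ε ∧ ε' = 5 * ε := ⟨ε' / 5, by positivity, by ring⟩
  rw [hεε]
  have hlim := (b0_lim hD hA hI).eventually (lt_mem_nhds (a := (∫ n : S2, b0 n ∂sm) - ε) (by linarith))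
  obtain ⟨S1, hS1⟩ := eventually_atTop.1 hlim
  have hπ := Real.pi_pos
  obtain ⟨T, hT0, hT1, hT2, hT3⟩ := e10 hD hA htr hE hε (max (t0 + 1) (max S1 (4 * Real.pi * K / ε)))
  have hTt : t0 + 1 ≤ T := (le_max_left _ _).trans hT0
  have hTS : S1 ≤ T := (le_max_left _ _).trans ((le_max_right _ _).trans hT0)
  have hTK : 4 * Real.pi * K / ε ≤ T := (le_max_right _ _).trans ((le_max_right _ _).trans hT0)
  obtain ⟨B, hB⟩ := NullU.exists_frame hD hI.pos (by linarith : δ < T)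
  have hT0' : 0 < T := by linarith
  have h6 := e6 hD hA htr hB h0 (by linarith) hΛ
  have hx := hT3 δ B hB
  have hKT : 4 * Real.pi * (K / T) ≤ ε := by
    rw [div_le_iff₀ hε] at hTK
    rw [← mul_div_assoc, div_le_iff₀ hT0']
    linarith
  have hqT := qT_cont hD hB h0 (by linarith) hΛ
  have h7 : (∫ n : S2, qI D Bi t0 Λ Λ1 W1 n ∂sm) - 4 * Real.pi * (K / T) ≤ ∫ n : S2, qT D B t0 T Λ Λ1 W1 n ∂sm := by
    rw [← e11_const, ← integral_sub hq (e11_int continuous_const)]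
    refine integral_mono (hq.sub (e11_int continuous_const)) (e11_int hqT) fun n => ?_
    have h8 := (abs_le.1 (hK T B hT1 (by linarith) hB n)).1
    show qI D Bi t0 Λ Λ1 W1 n - K / T ≤ qT D B t0 T Λ Λ1 W1 n
    linarith
  have h9 := hS1 T hTS
  have h10 : ∫ n : S2, (Real.sqrt (D.dA T n) - T) ∂sm = (∫ n : S2, Real.sqrt (D.dA T n) ∂sm) - 4 * Real.pi * T := by
    rw [integral_sub (e11_int (e11_ct hD T)) (e11_int continuous_const), e11_const]
  rw [h10] at h9
  linarith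

end H17S
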