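import Pool.Agent.Lib.H17S.E8

set_option autoImplicit false

/-!
Chunk E12 (M). Another form of the cost (integration by parts, at one point `n`). `F s = Σ_j YB b t0 l s j * ZB b n l1 s j` is continuous on `Ici t0`, `F t0 = 0`, `F → 0` (`|YB| <= 3 C^2`: `e8_Y`; `|ZB s j| <= ∫_(s,∞) 3 * C/(1+r)^4 * 4 C (1+r) <= 12 C^2/(1+s)`: `e8_cf`, `e7_val`),
and for `s > t0`: `F' = Σ_j (Σ_k b k j l k) Z_j - Σ_j Y_j Σ_k l1 k cf k j`. Both parts are continuous and `<= const/(1+s)^2` in absolute value, so integrable (`e7_intg`); `integral_Ioi_of_hasDerivAt_of_tendsto` (with continuity at `t0`). `e12_Zd`: `NullQ.der_tail` in `H74Q/E0B.lean` is the case `t0 = 0`;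
or `Z s = ∫_(t0,∞) - ∫_{t0}^s` (`intervalIntegral.integral_interval_add_Ioi`) and the fundamental theorem.
-/

open MeasureTheory Filter Topology Set
open scoped ContDiff

namespace H17S

open NullPen (E3 S2 sm proj)
open NullU (crs dtB cf Tng)

variable {t0 C : ℝ} {b : ℝ → Fin 3 → Fin 3 → ℝ} {l l1 : ℝ → Fin 3 → ℝ}

/-- `Z = ∫_s^∞ (cof B)ᵀ Λ'`. -/
noncomputable def ZB (b : ℝ → Fin 3 → Fin 3 → ℝ) (n : E3) (l1 : ℝ → Fin 3 → ℝ) (s : ℝ) (j : Fin 3) : ℝ :=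
  ∫ r in Ioi s, ∑ k, l1 r k * cf n (b r) k j

/-- Second form of the integrand of the cost. -/
noncomputable def kZ (a : ℝ → ℝ) (b : ℝ → Fin 3 → Fin 3 → ℝ) (n : E3) (l l1 : ℝ → Fin 3 → ℝ) (s : ℝ) : ℝ :=
  6 * a s * (∑ k, l s k ^ 2) + 8 * (∑ k, l s k * ∑ j, b s k j * ZB b n l1 s j)

/-- The primitive of a function continuous on a half line. -/
theorem e12_pr {f : ℝ → ℝ} (hf : ContinuousOn f (Ici t0)) : ContinuousOn (fun s => ∫ r in t0..s, f r) (Ici t0) ∧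
    ∀ s, t0 < s → HasDerivAt (fun s => ∫ r in t0..s, f r) (f s) s := by
  have cg : Continuous (fun s => f (max s t0)) :=
    hf.comp_continuous (continuous_id.max continuous_const) (fun s => mem_Ici.mpr (le_max_right s t0))
  have he : ∀ s, t0 ≤ s → ∫ r in t0..s, f r = ∫ r in t0..s, f (max r t0) := by
    intro s hs
    apply intervalIntegral.integral_congr
    intro r hr
    rw [uIcc_of_le hs] at hr
    show f r = f (max r t0)
    rw [max_eq_left hr.1]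
  refine ⟨?_, ?_⟩
  · have h1 : Continuous (fun s => ∫ r in t0..s, f (max r t0)) :=
      intervalIntegral.continuous_primitive (fun a b => cg.intervalIntegrable a b) t0
    exact h1.continuousOn.congr (fun s hs => he s hs)
  · intro s hs
    have h1 : HasDerivAt (fun s => ∫ r in t0..s, f (max r t0)) (f (max s t0)) s :=
      intervalIntegral.integral_hasDerivAt_right (cg.intervalIntegrable _ _)
        cg.aestronglyMeasurable.stronglyMeasurableAtFilter cg.continuousAt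
    rw [max_eq_left hs.le] at h1
    refine h1.congr_of_eventuallyEq ?_
    filter_upwards [Ioi_mem_nhds hs] with r hr
    exact he r (le_of_lt hr)

/-- Continuity of the integrand of `ZB`. -/
theorem e12_ci (n : E3) (cb : ∀ i j, ContinuousOn (fun s => b s i j) (Ici t0)) (cl1 : ∀ i, ContinuousOn (fun s => l1 s i) (Ici t0)) (j : Fin 3) :
    ContinuousOn (fun r => ∑ k, l1 r k * cf n (b r) k j) (Ici t0) := by
  refine continuousOn_finsetSum _ fun k _ => (cl1 k).mul ?_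
  unfold cf
  exact ((continuousOn_finsetSum _ fun i _ => cb i i).mul continuousOn_const).sub (cb j k)

theorem e12_q {x y : ℝ} (hx : 0 ≤ x) (hy : 1 ≤ y) {m : ℕ} (hm : 2 ≤ m) : x / y ^ m ≤ x / y ^ 2 := by
  apply div_le_div_of_nonneg_left hx (by positivity)
  exact pow_le_pow_right₀ hy hm

/-- Bound for the integrand of `ZB`. -/
theorem e12_bi (n : S2) (h0 : 0 ≤ t0) (hC : 0 ≤ C) (hb : ∀ s, t0 ≤ s → ∀ i j, |b s i j| ≤ C * (1 + s))
    (hl1 : ∀ s, t0 ≤ s → ∀ i, |l1 s i| ≤ C / (1 + s) ^ 4) {s : ℝ} (hs : t0 ≤ s) (j : Fin 3) :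
    |∑ k, l1 s k * cf (n : E3) (b s) k j| ≤ 12 * C ^ 2 / (1 + s) ^ 3 := by
  have hs0 : 0 ≤ s := h0.trans hs
  have h1 : ∀ k, |l1 s k * cf (n : E3) (b s) k j| ≤ C / (1 + s) ^ 4 * (4 * (C * (1 + s))) := by
    intro k
    rw [abs_mul]
    exact mul_le_mul (hl1 s hs k) (e8_cf n (hb s hs) k j) (abs_nonneg _) (by positivity)
  have h2 : |∑ k, l1 s k * cf (n : E3) (b s) k j| ≤ ∑ k : Fin 3, C / (1 + s) ^ 4 * (4 * (C * (1 + s))) :=
    (Finset.abs_sum_le_sum_abs _ _).trans (Finset.sum_le_sum fun k _ => h1 k)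
  refine h2.trans (le_of_eq ?_)
  simp only [Finset.sum_const, Finset.card_univ, Fintype.card_fin, nsmul_eq_mul, Nat.cast_ofNat]
  have : (1 + s) ≠ 0 := by positivity
  field_simp
  ring

theorem e12_bi2 (n : S2) (h0 : 0 ≤ t0) (hC : 0 ≤ C) (hb : ∀ s, t0 ≤ s → ∀ i j, |b s i j| ≤ C * (1 + s))
    (hl1 : ∀ s, t0 ≤ s → ∀ i, |l1 s i| ≤ C / (1 + s) ^ 4) {s : ℝ} (hs : t0 ≤ s) (j : Fin 3) :
    |∑ k, l1 s k * cf (n : E3) (b s) k j| ≤ 12 * C ^ 2 / (1 + s) ^ 2 :=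
  (e12_bi n h0 hC hb hl1 hs j).trans (e12_q (by positivity) (by linarith) (by norm_num))

/-- A continuous function dominated by `K/(1+s)^2` is integrable. -/
theorem e12_it {f : ℝ → ℝ} {K a : ℝ} (ha : 0 ≤ a) (hf : ContinuousOn f (Ioi a)) (hK : ∀ s, a < s → |f s| ≤ K / (1 + s) ^ 2) :
    IntegrableOn f (Ioi a) := by
  refine Integrable.mono' (e7_intg ha K) (hf.aestronglyMeasurable measurableSet_Ioi) ?_
  exact (ae_restrict_mem measurableSet_Ioi).mono fun x hx => hK x hx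

theorem e12_Z (n : S2) (h0 : 0 ≤ t0) (hC : 0 ≤ C) (cb : ∀ i j, ContinuousOn (fun s => b s i j) (Ici t0)) (cl1 : ∀ i, ContinuousOn (fun s => l1 s i) (Ici t0))
    (hb : ∀ s, t0 ≤ s → ∀ i j, |b s i j| ≤ C * (1 + s)) (hl1 : ∀ s, t0 ≤ s → ∀ i, |l1 s i| ≤ C / (1 + s) ^ 4) {s : ℝ} (hs : t0 ≤ s) (j : Fin 3) :
    |ZB b n l1 s j| ≤ 12 * C ^ 2 / (1 + s) := by
  have hs0 : 0 ≤ s := h0.trans hs
  have h4 : ‖∫ r in Ioi s, ∑ k, l1 r k * cf (n : E3) (b r) k j‖ ≤ ∫ r in Ioi s, 12 * C ^ 2 / (1 + r) ^ 2 := by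
    apply norm_integral_le_of_norm_le (e7_intg hs0 _)
    refine (ae_restrict_mem measurableSet_Ioi).mono fun x hx => ?_
    exact e12_bi2 n h0 hC hb hl1 (hs.trans (le_of_lt hx)) j
  rw [e7_val hs0] at h4
  exact h4

theorem e12_Ze (n : S2) (h0 : 0 ≤ t0) (hC : 0 ≤ C) (cb : ∀ i j, ContinuousOn (fun s => b s i j) (Ici t0)) (cl1 : ∀ i, ContinuousOn (fun s => l1 s i) (Ici t0))
    (hb : ∀ s, t0 ≤ s → ∀ i j, |b s i j| ≤ C * (1 + s)) (hl1 : ∀ s, t0 ≤ s → ∀ i, |l1 s i| ≤ C / (1 + s) ^ 4) {s : ℝ} (hs : t0 ≤ s) (j : Fin 3) :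
    ZB b n l1 s j = ZB b n l1 t0 j - ∫ r in t0..s, ∑ k, l1 r k * cf (n : E3) (b r) k j := by
  have hi : ∀ a, t0 ≤ a → IntegrableOn (fun r => ∑ k, l1 r k * cf (n : E3) (b r) k j) (Ioi a) := by
    intro a ha
    refine e12_it (K := 12 * C ^ 2) (h0.trans ha) ((e12_ci n cb cl1 j).mono fun x (hx : a < x) => ha.trans hx.le) ?_
    intro x hx
    exact e12_bi2 n h0 hC hb hl1 (ha.trans hx.le) j
  have h1 := intervalIntegral.integral_interval_add_Ioi (hi t0 le_rfl) (hi s hs)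
  unfold ZB
  linarith

theorem e12_Zd (n : S2) (h0 : 0 ≤ t0) (hC : 0 ≤ C) (cb : ∀ i j, ContinuousOn (fun s => b s i j) (Ici t0)) (cl1 : ∀ i, ContinuousOn (fun s => l1 s i) (Ici t0))
    (hb : ∀ s, t0 ≤ s → ∀ i j, |b s i j| ≤ C * (1 + s)) (hl1 : ∀ s, t0 ≤ s → ∀ i, |l1 s i| ≤ C / (1 + s) ^ 4) {s : ℝ} (hs : t0 < s) (j : Fin 3) :
    HasDerivAt (fun s => ZB b n l1 s j) (-(∑ k, l1 s k * cf n (b s) k j)) s := by
  have h1 := (((e12_pr (e12_ci (n : E3) cb cl1 j)).2 s hs).const_sub (ZB b n l1 t0 j))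
  refine h1.congr_of_eventuallyEq ?_
  filter_upwards [Ioi_mem_nhds hs] with r hr
  exact e12_Ze n h0 hC cb cl1 hb hl1 (le_of_lt hr) j

theorem e12_Zc (n : S2) (h0 : 0 ≤ t0) (hC : 0 ≤ C) (cb : ∀ i j, ContinuousOn (fun s => b s i j) (Ici t0)) (cl1 : ∀ i, ContinuousOn (fun s => l1 s i) (Ici t0))
    (hb : ∀ s, t0 ≤ s → ∀ i j, |b s i j| ≤ C * (1 + s)) (hl1 : ∀ s, t0 ≤ s → ∀ i, |l1 s i| ≤ C / (1 + s) ^ 4) (j : Fin 3) :
    ContinuousOn (fun s => ZB b n l1 s j) (Ici t0) := by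
  refine (continuousOn_const.sub (e12_pr (e12_ci (n : E3) cb cl1 j)).1 : ContinuousOn
    (fun s => ZB b n l1 t0 j - ∫ r in t0..s, ∑ k, l1 r k * cf (n : E3) (b r) k j) (Ici t0)).congr ?_
  intro s hs
  exact e12_Ze n h0 hC cb cl1 hb hl1 hs j

theorem e12_Yi (cb : ∀ i j, ContinuousOn (fun s => b s i j) (Ici t0)) (cl : ∀ i, ContinuousOn (fun s => l s i) (Ici t0)) (j : Fin 3) :
    ContinuousOn (fun r => ∑ k, b r k j * l r k) (Ici t0) :=
  continuousOn_finsetSum _ fun k _ => (cb k j).mul (cl k)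

theorem e12_Yc (cb : ∀ i j, ContinuousOn (fun s => b s i j) (Ici t0)) (cl : ∀ i, ContinuousOn (fun s => l s i) (Ici t0)) (j : Fin 3) :
    ContinuousOn (fun s => YB b t0 l s j) (Ici t0) :=
  (e12_pr (e12_Yi cb cl j)).1

theorem e12_Yd (cb : ∀ i j, ContinuousOn (fun s => b s i j) (Ici t0)) (cl : ∀ i, ContinuousOn (fun s => l s i) (Ici t0)) {s : ℝ} (hs : t0 < s) (j : Fin 3) :
    HasDerivAt (fun s => YB b t0 l s j) (∑ k, b s k j * l s k) s :=
  (e12_pr (e12_Yi cb cl j)).2 s hs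

theorem e12_Yb (h0 : 0 ≤ t0) (hC : 0 ≤ C) (cb : ∀ i j, ContinuousOn (fun s => b s i j) (Ici t0)) (cl : ∀ i, ContinuousOn (fun s => l s i) (Ici t0))
    (hb : ∀ s, t0 ≤ s → ∀ i j, |b s i j| ≤ C * (1 + s)) (hl : ∀ s, t0 ≤ s → ∀ i, |l s i| ≤ C / (1 + s) ^ 3) {s : ℝ} (hs : t0 ≤ s) (j : Fin 3) :
    |YB b t0 l s j| ≤ 3 * C ^ 2 :=
  e8_Y (T := s) h0 hC cb cl (fun r hr _ => hb r hr) hl hs le_rfl j

/-- First integrand. -/
theorem e12_iA (n : S2) (h0 : 0 ≤ t0) (hC : 0 ≤ C) (cb : ∀ i j, ContinuousOn (fun s => b s i j) (Ici t0)) (cl : ∀ i, ContinuousOn (fun s => l s i) (Ici t0))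
    (cl1 : ∀ i, ContinuousOn (fun s => l1 s i) (Ici t0)) (hb : ∀ s, t0 ≤ s → ∀ i j, |b s i j| ≤ C * (1 + s))
    (hl : ∀ s, t0 ≤ s → ∀ i, |l s i| ≤ C / (1 + s) ^ 3) (hl1 : ∀ s, t0 ≤ s → ∀ i, |l1 s i| ≤ C / (1 + s) ^ 4) :
    IntegrableOn (fun s => ∑ k, l s k * ∑ j, b s k j * ZB b n l1 s j) (Ioi t0) := by
  refine e12_it (K := 108 * C ^ 4) h0 ?_ ?_
  · refine ContinuousOn.mono ?_ Ioi_subset_Ici_self
    exact continuousOn_finsetSum _ fun k _ => (cl k).mul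
      (continuousOn_finsetSum _ fun j _ => (cb k j).mul (e12_Zc n h0 hC cb cl1 hb hl1 j))
  · intro s hs
    have hs' : t0 ≤ s := hs.le
    have hs0 : 0 ≤ s := h0.trans hs'
    have h1 : ∀ k, |l s k * ∑ j, b s k j * ZB b n l1 s j| ≤ C / (1 + s) ^ 3 * (3 * (C * (1 + s) * (12 * C ^ 2 / (1 + s)))) := by
      intro k
      rw [abs_mul]
      refine mul_le_mul (hl s hs' k) ?_ (abs_nonneg _) (by positivity)
      refine (Finset.abs_sum_le_sum_abs _ _).trans ?_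
      refine (Finset.sum_le_sum (g := fun _ : Fin 3 => C * (1 + s) * (12 * C ^ 2 / (1 + s))) fun j _ => ?_).trans (le_of_eq ?_)
      · rw [abs_mul]
        exact mul_le_mul (hb s hs' k j) (e12_Z n h0 hC cb cl1 hb hl1 hs' j) (abs_nonneg _) (by positivity)
      · simp only [Finset.sum_const, Finset.card_univ, Fintype.card_fin, nsmul_eq_mul, Nat.cast_ofNat]
    have h2 : |∑ k, l s k * ∑ j, b s k j * ZB b n l1 s j| ≤ ∑ k : Fin 3, C / (1 + s) ^ 3 * (3 * (C * (1 + s) * (12 * C ^ 2 / (1 + s)))) :=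
      (Finset.abs_sum_le_sum_abs _ _).trans (Finset.sum_le_sum fun k _ => h1 k)
    have h3 : ∑ k : Fin 3, C / (1 + s) ^ 3 * (3 * (C * (1 + s) * (12 * C ^ 2 / (1 + s)))) = 108 * C ^ 4 / (1 + s) ^ 3 := by
      simp only [Finset.sum_const, Finset.card_univ, Fintype.card_fin, nsmul_eq_mul, Nat.cast_ofNat]
      have : (1 + s) ≠ 0 := by positivity
      field_simp
      ring
    rw [h3] at h2
    exact h2.trans (e12_q (by positivity) (by linarith) (by norm_num))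

/-- Second integrand. -/
theorem e12_iB (n : S2) (h0 : 0 ≤ t0) (hC : 0 ≤ C) (cb : ∀ i j, ContinuousOn (fun s => b s i j) (Ici t0)) (cl : ∀ i, ContinuousOn (fun s => l s i) (Ici t0))
    (cl1 : ∀ i, ContinuousOn (fun s => l1 s i) (Ici t0)) (hb : ∀ s, t0 ≤ s → ∀ i j, |b s i j| ≤ C * (1 + s))
    (hl : ∀ s, t0 ≤ s → ∀ i, |l s i| ≤ C / (1 + s) ^ 3) (hl1 : ∀ s, t0 ≤ s → ∀ i, |l1 s i| ≤ C / (1 + s) ^ 4) :
    IntegrableOn (fun s => ∑ k, l1 s k * ∑ j, cf (n : E3) (b s) k j * YB b t0 l s j) (Ioi t0) := by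
  refine e12_it (K := 108 * C ^ 4) h0 ?_ ?_
  · refine ContinuousOn.mono ?_ Ioi_subset_Ici_self
    refine continuousOn_finsetSum _ fun k _ => (cl1 k).mul
      (continuousOn_finsetSum _ fun j _ => ContinuousOn.mul ?_ (e12_Yc cb cl j))
    unfold cf
    exact ((continuousOn_finsetSum _ fun i _ => cb i i).mul continuousOn_const).sub (cb j k)
  · intro s hs
    have hs' : t0 ≤ s := hs.le
    have hs0 : 0 ≤ s := h0.trans hs'
    have h1 : ∀ k, |l1 s k * ∑ j, cf (n : E3) (b s) k j * YB b t0 l s j| ≤ C / (1 + s) ^ 4 * (3 * (4 * (C * (1 + s)) * (3 * C ^ 2))) := by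
      intro k
      rw [abs_mul]
      refine mul_le_mul (hl1 s hs' k) ?_ (abs_nonneg _) (by positivity)
      refine (Finset.abs_sum_le_sum_abs _ _).trans ?_
      refine (Finset.sum_le_sum (g := fun _ : Fin 3 => 4 * (C * (1 + s)) * (3 * C ^ 2)) fun j _ => ?_).trans (le_of_eq ?_)
      · rw [abs_mul]
        exact mul_le_mul (e8_cf n (hb s hs') k j) (e12_Yb h0 hC cb cl hb hl hs' j) (abs_nonneg _) (by positivity)
      · simp only [Finset.sum_const, Finset.card_univ, Fintype.card_fin, nsmul_eq_mul, Nat.cast_ofNat]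
    have h2 : |∑ k, l1 s k * ∑ j, cf (n : E3) (b s) k j * YB b t0 l s j| ≤ ∑ k : Fin 3, C / (1 + s) ^ 4 * (3 * (4 * (C * (1 + s)) * (3 * C ^ 2))) :=
      (Finset.abs_sum_le_sum_abs _ _).trans (Finset.sum_le_sum fun k _ => h1 k)
    have h3 : ∑ k : Fin 3, C / (1 + s) ^ 4 * (3 * (4 * (C * (1 + s)) * (3 * C ^ 2))) = 108 * C ^ 4 / (1 + s) ^ 3 := by
      simp only [Finset.sum_const, Finset.card_univ, Fintype.card_fin, nsmul_eq_mul, Nat.cast_ofNat]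
      have : (1 + s) ≠ 0 := by positivity
      field_simp
      ring
    rw [h3] at h2
    exact h2.trans (e12_q (by positivity) (by linarith) (by norm_num))

theorem e12_lim {K : ℝ} {F : ℝ → ℝ} (h0 : 0 ≤ t0) (h : ∀ s, t0 ≤ s → |F s| ≤ K / (1 + s)) : Tendsto F atTop (𝓝 0) := by
  have h1 : Tendsto (fun t : ℝ => 1 + t) atTop atTop := tendsto_atTop_add_const_left _ 1 tendsto_id
  have h2 : Tendsto (fun t : ℝ => K / (1 + t)) atTop (𝓝 0) := h1.const_div_atTop K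
  refine squeeze_zero_norm' ?_ h2
  filter_upwards [eventually_ge_atTop t0] with s hs
  exact h s hs

theorem e12 (n : S2) (h0 : 0 ≤ t0) (hC : 0 ≤ C) (cb : ∀ i j, ContinuousOn (fun s => b s i j) (Ici t0)) (cl : ∀ i, ContinuousOn (fun s => l s i) (Ici t0))
    (cl1 : ∀ i, ContinuousOn (fun s => l1 s i) (Ici t0)) (hb : ∀ s, t0 ≤ s → ∀ i j, |b s i j| ≤ C * (1 + s))
    (hl : ∀ s, t0 ≤ s → ∀ i, |l s i| ≤ C / (1 + s) ^ 3) (hl1 : ∀ s, t0 ≤ s → ∀ i, |l1 s i| ≤ C / (1 + s) ^ 4) :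
    ∫ s in Ioi t0, (∑ k, l1 s k * ∑ j, cf n (b s) k j * YB b t0 l s j) = ∫ s in Ioi t0, (∑ k, l s k * ∑ j, b s k j * ZB b n l1 s j) := by
  have iA := e12_iA n h0 hC cb cl cl1 hb hl hl1
  have iB := e12_iB n h0 hC cb cl cl1 hb hl hl1
  have cF : ContinuousOn (fun s => ∑ j, YB b t0 l s j * ZB b n l1 s j) (Ici t0) :=
    continuousOn_finsetSum _ fun j _ => (e12_Yc cb cl j).mul (e12_Zc n h0 hC cb cl1 hb hl1 j)
  have dF : ∀ s ∈ Ioi t0, HasDerivAt (fun s => ∑ j, YB b t0 l s j * ZB b n l1 s j)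
      ((∑ k, l s k * ∑ j, b s k j * ZB b n l1 s j) - (∑ k, l1 s k * ∑ j, cf (n : E3) (b s) k j * YB b t0 l s j)) s := by
    intro s hs
    have h1 : HasDerivAt (fun s => ∑ j, YB b t0 l s j * ZB b n l1 s j)
        (∑ j, ((∑ k, b s k j * l s k) * ZB b n l1 s j + YB b t0 l s j * (-(∑ k, l1 s k * cf (n : E3) (b s) k j)))) s := by
      have h2 := HasDerivAt.fun_sum (u := Finset.univ) (A := fun j s => YB b t0 l s j * ZB b n l1 s j)
        (A' := fun j => (∑ k, b s k j * l s k) * ZB b n l1 s j + YB b t0 l s j * (-(∑ k, l1 s k * cf (n : E3) (b s) k j)))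
        (x := s) (fun j _ => (e12_Yd cb cl hs j).mul (e12_Zd n h0 hC cb cl1 hb hl1 hs j))
      exact h2
    refine h1.congr_deriv ?_
    simp only [Fin.sum_univ_three]
    ring
  have iF : IntegrableOn (fun s => (∑ k, l s k * ∑ j, b s k j * ZB b n l1 s j) - (∑ k, l1 s k * ∑ j, cf (n : E3) (b s) k j * YB b t0 l s j)) (Ioi t0) :=
    iA.sub iB
  have lF : Tendsto (fun s => ∑ j, YB b t0 l s j * ZB b n l1 s j) atTop (𝓝 0) := by
    refine e12_lim (K := 108 * C ^ 4) h0 fun s hs => ?_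
    have hs0 : 0 ≤ s := h0.trans hs
    have h1 : |∑ j, YB b t0 l s j * ZB b n l1 s j| ≤ ∑ j : Fin 3, 3 * C ^ 2 * (12 * C ^ 2 / (1 + s)) := by
      refine (Finset.abs_sum_le_sum_abs _ _).trans (Finset.sum_le_sum fun j _ => ?_)
      rw [abs_mul]
      exact mul_le_mul (e12_Yb h0 hC cb cl hb hl hs j) (e12_Z n h0 hC cb cl1 hb hl1 hs j) (abs_nonneg _) (by positivity)
    refine h1.trans (le_of_eq ?_)
    simp only [Finset.sum_const, Finset.card_univ, Fintype.card_fin, nsmul_eq_mul, Nat.cast_ofNat]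
    ring
  have h1 := integral_Ioi_of_hasDerivAt_of_tendsto (cF t0 self_mem_Ici) dF iF lF
  have h2 : (∑ j, YB b t0 l t0 j * ZB b n l1 t0 j) = 0 := by
    apply Finset.sum_eq_zero
    intro j _
    unfold YB
    rw [intervalIntegral.integral_same, zero_mul]
  have h3 : ∫ s in Ioi t0, ((∑ k, l s k * ∑ j, b s k j * ZB b n l1 s j) - (∑ k, l1 s k * ∑ j, cf (n : E3) (b s) k j * YB b t0 l s j)) =
      (∫ s in Ioi t0, ∑ k, l s k * ∑ j, b s k j * ZB b n l1 s j) - ∫ s in Ioi t0, ∑ k, l1 s k * ∑ j, cf (n : E3) (b s) k j * YB b t0 l s j :=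
    integral_sub iA iB
  rw [h3, h2] at h1
  linarith

theorem e12_iC {a : ℝ → ℝ} (ca : ContinuousOn a (Ici t0)) (ha : ∀ s, t0 ≤ s → |a s| ≤ 9 * (C * (1 + s)) ^ 2)
    (h0 : 0 ≤ t0) (hC : 0 ≤ C) (cl : ∀ i, ContinuousOn (fun s => l s i) (Ici t0))
    (hl : ∀ s, t0 ≤ s → ∀ i, |l s i| ≤ C / (1 + s) ^ 3) :
    IntegrableOn (fun s => 6 * a s * (∑ k, l s k ^ 2)) (Ioi t0) := by
  refine e12_it (K := 162 * C ^ 4) h0 ?_ ?_
  · refine ContinuousOn.mono ?_ Ioi_subset_Ici_self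
    exact (continuousOn_const.mul ca).mul (continuousOn_finsetSum _ fun k _ => (cl k).pow 2)
  · intro s hs
    have hs' : t0 ≤ s := hs.le
    have hs0 : 0 ≤ s := h0.trans hs'
    have h1 : |∑ k, l s k ^ 2| ≤ 3 * (C / (1 + s) ^ 3) ^ 2 := by
      refine (Finset.abs_sum_le_sum_abs _ _).trans ?_
      refine (Finset.sum_le_sum (g := fun _ : Fin 3 => (C / (1 + s) ^ 3) ^ 2) fun j _ => ?_).trans (le_of_eq ?_)
      · rw [abs_pow]
        exact pow_le_pow_left₀ (abs_nonneg _) (hl s hs' j) 2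
      · simp only [Finset.sum_const, Finset.card_univ, Fintype.card_fin, nsmul_eq_mul, Nat.cast_ofNat]
    have h2 : |6 * a s * (∑ k, l s k ^ 2)| ≤ 6 * (9 * (C * (1 + s)) ^ 2) * (3 * (C / (1 + s) ^ 3) ^ 2) := by
      rw [abs_mul, abs_mul, abs_of_pos (by norm_num : (0 : ℝ) < 6)]
      exact mul_le_mul (mul_le_mul_of_nonneg_left (ha s hs') (by norm_num)) h1 (abs_nonneg _) (by positivity)
    have h3 : 6 * (9 * (C * (1 + s)) ^ 2) * (3 * (C / (1 + s) ^ 3) ^ 2) = 162 * C ^ 4 / (1 + s) ^ 4 := by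
      have : (1 + s) ≠ 0 := by positivity
      field_simp
      ring
    rw [h3] at h2
    exact h2.trans (e12_q (by positivity) (by linarith) (by norm_num))

/-- The two forms of the cost. -/
theorem e12_k {a : ℝ → ℝ} (ca : ContinuousOn a (Ici t0)) (ha : ∀ s, t0 ≤ s → |a s| ≤ 9 * (C * (1 + s)) ^ 2)
    (n : S2) (h0 : 0 ≤ t0) (hC : 0 ≤ C) (cb : ∀ i j, ContinuousOn (fun s => b s i j) (Ici t0)) (cl : ∀ i, ContinuousOn (fun s => l s i) (Ici t0))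
    (cl1 : ∀ i, ContinuousOn (fun s => l1 s i) (Ici t0)) (hb : ∀ s, t0 ≤ s → ∀ i j, |b s i j| ≤ C * (1 + s))
    (hl : ∀ s, t0 ≤ s → ∀ i, |l s i| ≤ C / (1 + s) ^ 3) (hl1 : ∀ s, t0 ≤ s → ∀ i, |l1 s i| ≤ C / (1 + s) ^ 4) :
    ∫ s in Ioi t0, kI a b n t0 l l1 s = ∫ s in Ioi t0, kZ a b n l l1 s := by
  have iA := e12_iA n h0 hC cb cl cl1 hb hl hl1
  have iB := e12_iB n h0 hC cb cl cl1 hb hl hl1
  have iC := e12_iC ca ha h0 hC cl hl
  unfold kI kZ
  rw [integral_add iC (iB.const_mul 8), integral_add iC (iA.const_mul 8), integral_const_mul, integral_const_mul,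
    e12 n h0 hC cb cl cl1 hb hl hl1]

end H17S
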