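import Pool.Agent.Lib.H17S.E12

set_option autoImplicit false

/-!
Chunk E13 (M). Scaling. `t0 = tz δ τ = δ + (1 - τ)/τ >= δ`. `Bt` is defined in `SD.lean`; `e13_Bt` is trivial. Test field for the times `>= t0`: `Λs s n i = τ Λ (τ (s - t0)) n i`, `Λs1 s n i = τ^2 Λ1 (τ (s - t0)) n i`, `Ws j s n i = τ W1 j (τ (s - t0)) n i`.
`e13_TF`: `1 + τ (s - t0) >= c (1 + s)` for `s >= t0` with `c = min τ (1/(1 + t0))`; constant `|Cl| / c^4` (use `|Cl|`: `Cl >= 0` follows from `b0` at one point, `S2` is nonempty).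
`e13_Y`: `YB (Bi · n) t0 (Λs · n) (t0 + r/τ) = (1/τ) YB (Bt · n) 0 (Λ · n) r` for `r >= 0` (substitution `s = t0 + r/τ`, `intervalIntegral.integral_comp_mul_add`/`integral_comp_div_add..`). `e13_k`: the integrand `kI` at `s = t0 + r/τ` is the scaled one at `r`
(`cf n (τ M) = τ cf n M`). `e13_q`: substitution in the improper integrals (`integral_comp_mul_left_Ioi`, `integral_comp_add_right..`, or `MeasureTheory.Measure` scaling): `∫_(t0,∞) f s ds = (1/τ) ∫_(0,∞) f (t0 + r/τ) dr`.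
-/

open MeasureTheory Filter Topology Set
open scoped ContDiff

namespace H17S

open NullPen (E3 S2 sm proj pd MatterData NullData Th)
open NullU (rl crs dtB cf Tng Cu cc Frm zB qB xB tt dB mh)
open NullQ (rt HR)

variable {D : MatterData} {δ τ C Cl : ℝ} {Bi : ℝ → S2 → Fin 3 → Fin 3 → ℝ} {b0 : S2 → ℝ} {Λ Λ1 : ℝ → S2 → Fin 3 → ℝ} {W1 : Fin 3 → ℝ → S2 → Fin 3 → ℝ}

/-- The starting time. -/
noncomputable def tz (δ τ : ℝ) : ℝ := δ + (1 - τ) / τ

/-- The scaled area element. -/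
noncomputable def aT (D : MatterData) (δ τ : ℝ) (s : ℝ) (n : S2) : ℝ := τ ^ 2 * D.dA (tz δ τ + s / τ) n

/-- The scaled limit of `√a - s`. -/
noncomputable def bT (δ τ : ℝ) (b0 : S2 → ℝ) (n : S2) : ℝ := τ * (b0 n + tz δ τ)

theorem e13_Bt (hτ : 0 < τ) (s : ℝ) (n : S2) (i j : Fin 3) : Bt Bi δ τ s n i j = τ * Bi (tz δ τ + s / τ) n i j := by
  have h1 : δ + (1 - τ + s) / τ = tz δ τ + s / τ := by
    unfold tz
    rw [add_div]
    ring
  unfold Bt
  rw [h1]
  field_simp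
  ring

theorem e13_shift (t0 : ℝ) (f : ℝ → ℝ) : ∫ x in Ioi (0 : ℝ), f (t0 + x) = ∫ x in Ioi t0, f x := by
  have h := (measurePreserving_add_left (volume : Measure ℝ) t0).setIntegral_preimage_emb
    (measurableEmbedding_addLeft t0) f (Ioi t0)
  have e : (fun x => t0 + x) ⁻¹' Ioi t0 = Ioi (0 : ℝ) := by
    ext x
    simp
  rw [e] at h
  exact h

theorem e13_sub (hτ : 0 < τ) (t0 : ℝ) (f : ℝ → ℝ) : ∫ s in Ioi t0, f s = 1 / τ * ∫ r in Ioi (0 : ℝ), f (t0 + r / τ) := by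
  have h := integral_comp_mul_left_Ioi (fun x => f (t0 + x)) 0 (b := 1 / τ) (by positivity)
  rw [mul_zero, e13_shift t0 f] at h
  have e : (fun r : ℝ => f (t0 + r / τ)) = fun x => f (t0 + 1 / τ * x) := by
    funext r
    congr 2
    ring
  rw [e, h, smul_eq_mul]
  field_simp

theorem e13_tz (hδ : 0 < δ) (hτ : 0 < τ) (hτ1 : τ ≤ 1) : 0 < tz δ τ := by
  unfold tz
  have : 0 ≤ (1 - τ) / τ := div_nonneg (by linarith) hτ.le
  linarith

theorem e13_TF (hδ : 0 < δ) (hτ : 0 < τ) (hτ1 : τ ≤ 1) (hΛ : TestF 0 Cl Λ Λ1 W1) : ∃ C', TestF (tz δ τ) C' (fun s n i => τ * Λ (τ * (s - tz δ τ)) n i)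
    (fun s n i => τ ^ 2 * Λ1 (τ * (s - tz δ τ)) n i) (fun j s n i => τ * W1 j (τ * (s - tz δ τ)) n i) := by
  set t0 := tz δ τ with ht0
  have ht0p : 0 < t0 := e13_tz hδ hτ hτ1
  obtain ⟨c, hc0, hc1, hc2, hc3⟩ : ∃ c : ℝ, 0 < c ∧ c ≤ 1 ∧ c ≤ τ ∧ c * (1 + t0) ≤ 1 := by
    refine ⟨min τ (1 / (1 + t0)), lt_min hτ (by positivity), (min_le_left _ _).trans hτ1, min_le_left _ _, ?_⟩
    calc min τ (1 / (1 + t0)) * (1 + t0) ≤ 1 / (1 + t0) * (1 + t0) :=
          mul_le_mul_of_nonneg_right (min_le_right _ _) (by positivity)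
      _ = 1 := by field_simp
  have hlow : ∀ s, t0 ≤ s → c * (1 + s) ≤ 1 + τ * (s - t0) := by
    intro s hs
    have h1 : c * (s - t0) ≤ τ * (s - t0) := mul_le_mul_of_nonneg_right hc2 (by linarith)
    nlinarith
  have harg : ∀ s, t0 ≤ s → 0 ≤ τ * (s - t0) := fun s hs => mul_nonneg hτ.le (by linarith)
  have hmap : Continuous fun p : ℝ × S2 => ((τ * (p.1 - t0), p.2) : ℝ × S2) := by fun_prop
  have hmaps : MapsTo (fun p : ℝ × S2 => ((τ * (p.1 - t0), p.2) : ℝ × S2)) (Ici t0 ×ˢ univ) (Ici 0 ×ˢ univ) := by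
    rintro ⟨s, n⟩ ⟨hs, -⟩
    exact ⟨harg s hs, mem_univ _⟩
  have hC : ∀ k : ℕ, k ≤ 4 → ∀ s, t0 ≤ s → Cl / (1 + τ * (s - t0)) ^ k ≤ |Cl| / c ^ 4 / (1 + s) ^ k := by
    intro k hk s hs
    have h1 : 0 < 1 + s := by linarith
    have h2 : 0 < 1 + τ * (s - t0) := by linarith [harg s hs]
    have h3 : (c * (1 + s)) ^ k ≤ (1 + τ * (s - t0)) ^ k := pow_le_pow_left₀ (by positivity) (hlow s hs) k
    calc Cl / (1 + τ * (s - t0)) ^ k ≤ |Cl| / (1 + τ * (s - t0)) ^ k :=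
          div_le_div_of_nonneg_right (le_abs_self _) (by positivity)
      _ ≤ |Cl| / (c * (1 + s)) ^ k := div_le_div_of_nonneg_left (abs_nonneg _) (by positivity) h3
      _ = |Cl| / c ^ k / (1 + s) ^ k := by rw [mul_pow, div_div]
      _ ≤ |Cl| / c ^ 4 / (1 + s) ^ k := by
          refine div_le_div_of_nonneg_right ?_ (by positivity)
          exact div_le_div_of_nonneg_left (abs_nonneg _) (by positivity) (pow_le_pow_of_le_one hc0.le hc1 hk)
  refine ⟨|Cl| / c ^ 4, ?_⟩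
  constructor
  · intro s hs n
    have h := hΛ.tan _ (harg s hs) n
    have e : ∑ i, (n : E3) i * (τ * Λ (τ * (s - t0)) n i) = τ * ∑ i, (n : E3) i * Λ (τ * (s - t0)) n i := by
      rw [Finset.mul_sum]
      refine Finset.sum_congr rfl fun i _ => by ring
    rw [e, h, mul_zero]
  · intro i
    exact continuousOn_const.mul ((hΛ.c0 i).comp hmap.continuousOn hmaps)
  · intro i
    exact continuousOn_const.mul ((hΛ.c1 i).comp hmap.continuousOn hmaps)
  · intro j i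
    exact continuousOn_const.mul ((hΛ.cw j i).comp hmap.continuousOn hmaps)
  · intro s hs n i
    have h := hΛ.ds (τ * (s - t0)) (mul_pos hτ (by linarith)) n i
    have h2 : HasDerivAt (fun t : ℝ => τ * (t - t0)) τ s := by
      have := ((hasDerivAt_id s).sub_const t0).const_mul τ
      simpa using this
    have h3 := (h.comp s h2).const_mul τ
    refine h3.congr_deriv ?_
    ring
  · intro s hs k j n
    have h := (hΛ.dn _ (harg s hs) k j n).const_mul τ
    refine h.congr_of_eventuallyEq (Eventually.of_forall fun θ => ?_)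
    show crs (fun i => ((rt j θ n : S2) : E3) i) (fun i => τ * Λ (τ * (s - t0)) (rt j θ n) i) k =
      τ * crs (fun i => ((rt j θ n : S2) : E3) i) (Λ (τ * (s - t0)) (rt j θ n)) k
    fin_cases k <;> simp [crs] <;> ring
  · intro s hs n i
    have h := hΛ.b0 _ (harg s hs) n i
    rw [abs_mul, abs_of_pos hτ]
    calc τ * |Λ (τ * (s - t0)) n i| ≤ 1 * |Λ (τ * (s - t0)) n i| := mul_le_mul_of_nonneg_right hτ1 (abs_nonneg _)
      _ ≤ Cl / (1 + τ * (s - t0)) ^ 3 := by rw [one_mul]; exact h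
      _ ≤ _ := hC 3 (by norm_num) s hs
  · intro s hs n i
    have h := hΛ.b1 _ (harg s hs) n i
    rw [abs_mul, abs_of_pos (by positivity : 0 < τ ^ 2)]
    calc τ ^ 2 * |Λ1 (τ * (s - t0)) n i| ≤ 1 * |Λ1 (τ * (s - t0)) n i| :=
          mul_le_mul_of_nonneg_right (pow_le_one₀ hτ.le hτ1) (abs_nonneg _)
      _ ≤ Cl / (1 + τ * (s - t0)) ^ 4 := by rw [one_mul]; exact h
      _ ≤ _ := hC 4 (by norm_num) s hs
  · intro j s hs n i
    have h := hΛ.bw j _ (harg s hs) n i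
    rw [abs_mul, abs_of_pos hτ]
    calc τ * |W1 j (τ * (s - t0)) n i| ≤ 1 * |W1 j (τ * (s - t0)) n i| := mul_le_mul_of_nonneg_right hτ1 (abs_nonneg _)
      _ ≤ Cl / (1 + τ * (s - t0)) ^ 3 := by rw [one_mul]; exact h
      _ ≤ _ := hC 3 (by norm_num) s hs

theorem e13_Y (hτ : 0 < τ) (n : S2) (r : ℝ) (i : Fin 3) :
    YB (fun s => Bi s n) (tz δ τ) (fun s i => τ * Λ (τ * (s - tz δ τ)) n i) (tz δ τ + r / τ) i =
      1 / τ * YB (fun s => Bt Bi δ τ s n) 0 (fun s => Λ s n) r i := by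
  unfold YB
  have h := intervalIntegral.integral_comp_div_add (a := 0) (b := r)
    (fun x => ∑ k, Bi x n k i * (τ * Λ (τ * (x - tz δ τ)) n k)) hτ.ne' (tz δ τ)
  rw [zero_div, zero_add, smul_eq_mul, add_comm (r / τ)] at h
  have h2 : ∫ x in (0 : ℝ)..r, ∑ k, Bi (x / τ + tz δ τ) n k i * (τ * Λ (τ * (x / τ + tz δ τ - tz δ τ)) n k) =
      ∫ x in (0 : ℝ)..r, ∑ k, Bt Bi δ τ x n k i * Λ x n k := by
    refine intervalIntegral.integral_congr fun x _ => ?_
    refine Finset.sum_congr rfl fun k _ => ?_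
    have e1 : τ * (x / τ + tz δ τ - tz δ τ) = x := by field_simp; ring
    rw [e13_Bt hτ, e1, add_comm (x / τ)]
    ring
  rw [h2] at h
  rw [h, one_div, inv_mul_cancel_left₀ hτ.ne']

theorem e13_q (hτ : 0 < τ) (n : S2) : τ * qI D Bi (tz δ τ) (fun s n i => τ * Λ (τ * (s - tz δ τ)) n i) (fun s n i => τ ^ 2 * Λ1 (τ * (s - tz δ τ)) n i)
      (fun j s n i => τ * W1 j (τ * (s - tz δ τ)) n i) n =
    -4 * (∫ s in Ioi (0 : ℝ), pairB (Bt Bi δ τ s n) (fun j k => W1 j s n k)) +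
      ∫ s in Ioi (0 : ℝ), kI (fun r => aT D δ τ r n) (fun r => Bt Bi δ τ r n) n 0 (fun r => Λ r n) (fun r => Λ1 r n) s := by
  have harg : ∀ r : ℝ, τ * (tz δ τ + r / τ - tz δ τ) = r := fun r => by field_simp; ring
  unfold qI
  rw [e13_sub hτ (tz δ τ), e13_sub hτ (tz δ τ)]
  have h1 : ∫ r in Ioi (0 : ℝ), pairB (Bi (tz δ τ + r / τ) n) (fun j k => τ * W1 j (τ * (tz δ τ + r / τ - tz δ τ)) n k) =
      ∫ s in Ioi (0 : ℝ), pairB (Bt Bi δ τ s n) (fun j k => W1 j s n k) := by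
    refine integral_congr_ae (Eventually.of_forall fun r => ?_)
    show pairB _ _ = pairB _ _
    unfold pairB
    refine Finset.sum_congr rfl fun k _ => Finset.sum_congr rfl fun j _ => ?_
    rw [harg, e13_Bt hτ]
    ring
  have h2 : ∫ r in Ioi (0 : ℝ), kI (fun r => D.dA r n) (fun r => Bi r n) n (tz δ τ) (fun r i => τ * Λ (τ * (r - tz δ τ)) n i)
        (fun r i => τ ^ 2 * Λ1 (τ * (r - tz δ τ)) n i) (tz δ τ + r / τ) =
      ∫ s in Ioi (0 : ℝ), kI (fun r => aT D δ τ r n) (fun r => Bt Bi δ τ r n) n 0 (fun r => Λ r n) (fun r => Λ1 r n) s := by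
    refine integral_congr_ae (Eventually.of_forall fun r => ?_)
    show kI _ _ _ _ _ _ _ = kI _ _ _ _ _ _ _
    have hcf : ∀ k j, cf n (Bt Bi δ τ r n) k j = τ * cf n (Bi (tz δ τ + r / τ) n) k j := by
      intro k j
      unfold cf
      simp only [e13_Bt hτ, ← Finset.mul_sum]
      ring
    unfold kI
    simp only [harg, e13_Y hτ, hcf, aT]
    congr 1
    · rw [Finset.mul_sum, Finset.mul_sum]
      refine Finset.sum_congr rfl fun k _ => by ring
    · congr 1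
      refine Finset.sum_congr rfl fun k _ => ?_
      rw [Finset.mul_sum, Finset.mul_sum]
      refine Finset.sum_congr rfl fun j _ => ?_
      field_simp
  rw [h1, h2]
  field_simp

end H17S
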