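import Pool.Agent.Lib.H17S.E11
import Pool.Agent.Lib.H17S.E13

set_option autoImplicit false

/-!
Chunk E14 (M). The energy inequality in its final form (PROOF.md, (EI^tau)). `e14_bd`: elementary properties of the scaled frame (`FInf`): `|Bt s n i j - s proj n i j| <= |τ Bi (t0 + s/τ) - τ (t0 + s/τ) proj| + τ t0 |proj| <= C + (τ δ + 1 - τ)`.
`e14_int`: `b0` integrable (`b0_int`), the other summands are `τ qI` (`e13_q`, `e12_k`), continuous (`qI_cont`). `EIt`: `e11` with `t0 = tz δ τ`, `e13_TF`, multiplied by `τ`; `e13_q`; `e12_k` (bounds from `e14_bd`, with `a = aT = dtB (Bt ..)`); `2 bT = 2 τ b0 + 2 τ t0`,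
`∫ 2 τ t0 = 8 pi τ t0 = 8 pi (τ δ + 1 - τ)`.
-/

open MeasureTheory Filter Topology Set
open scoped ContDiff

namespace H17S

open NullPen (E3 S2 sm proj pd MatterData NullData Th)
open NullU (rl crs dtB cf Tng Cu cc Frm zB qB xB tt dB mh)
open NullQ (rt HR)

variable {D : MatterData} {δ τ C Cl : ℝ} {Bi : ℝ → S2 → Fin 3 → Fin 3 → ℝ} {b0 : S2 → ℝ} {Λ Λ1 : ℝ → S2 → Fin 3 → ℝ} {W1 : Fin 3 → ℝ → S2 → Fin 3 → ℝ}

/-- The functional of the scaled problem. -/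
noncomputable def qZ (D : MatterData) (δ τ : ℝ) (Bi : ℝ → S2 → Fin 3 → Fin 3 → ℝ) (Λ Λ1 : ℝ → S2 → Fin 3 → ℝ) (W1 : Fin 3 → ℝ → S2 → Fin 3 → ℝ)
    (n : S2) : ℝ :=
  -4 * (∫ s in Ioi (0 : ℝ), pairB (Bt Bi δ τ s n) (fun j k => W1 j s n k)) +
    ∫ s in Ioi (0 : ℝ), kZ (fun r => aT D δ τ r n) (fun r => Bt Bi δ τ r n) n (fun r => Λ r n) (fun r => Λ1 r n) s

theorem e14_tz (hτ : 0 < τ) : τ * tz δ τ = τ * δ + 1 - τ := by
  unfold tz
  field_simp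
  ring

theorem e14_t (hτ : 0 < τ) (hτ1 : τ ≤ 1) {s : ℝ} (hs : 0 ≤ s) : δ ≤ tz δ τ + s / τ := by
  unfold tz
  have h1 : 0 ≤ (1 - τ) / τ := div_nonneg (by linarith) hτ.le
  have h2 : 0 ≤ s / τ := div_nonneg hs hτ.le
  linarith

theorem e14_tt (hτ : 0 < τ) (s : ℝ) : τ * (tz δ τ + s / τ) = τ * δ + 1 - τ + s := by
  rw [mul_add, e14_tz hτ]
  field_simp

theorem e14_Bt (hτ : 0 < τ) (s : ℝ) (n : S2) : Bt Bi δ τ s n = fun i j => τ * Bi (tz δ τ + s / τ) n i j := by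
  funext i j
  exact e13_Bt hτ s n i j

theorem e14_dtB (c : ℝ) (M : Fin 3 → Fin 3 → ℝ) : dtB (fun i j => c * M i j) = c ^ 2 * dtB M := by
  unfold dtB
  simp only [Fin.sum_univ_three]
  ring

theorem e14_bd (hI : FInf D δ C Bi b0) (hτ : 0 < τ) (hτ1 : τ ≤ 1) {s : ℝ} (hs : 0 ≤ s) (n : S2) :
    Tng n (Bt Bi δ τ s n) ∧ dtB (Bt Bi δ τ s n) = aT D δ τ s n ∧ ∀ i j, |Bt Bi δ τ s n i j - s * proj n i j| ≤ C + δ + 1 := by
  have ht := e14_t (δ := δ) hτ hτ1 hs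
  refine ⟨?_, ?_, ?_⟩
  · rw [e14_Bt hτ]
    have h1 := hI.tng _ ht n
    refine ⟨fun i => ?_, fun j => ?_⟩
    · have h2 := h1.r i
      simp only [mul_assoc]
      rw [← Finset.mul_sum, h2, mul_zero]
    · have h2 := h1.l j
      have h3 : ∀ i, (n : E3) i * (τ * Bi (tz δ τ + s / τ) n i j) = τ * ((n : E3) i * Bi (tz δ τ + s / τ) n i j) := fun i => by ring
      simp only [h3]
      rw [← Finset.mul_sum, h2, mul_zero]
  · rw [e14_Bt hτ, e14_dtB, hI.dt _ ht n]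
    rfl
  · intro i j
    rw [e13_Bt hτ]
    have h1 := hI.bd _ ht n i j
    have h2 := NullU.AS2_P n i j
    have h3 := e14_tt (δ := δ) hτ s
    have h4 : τ * Bi (tz δ τ + s / τ) n i j - s * proj n i j =
        τ * (Bi (tz δ τ + s / τ) n i j - (tz δ τ + s / τ) * proj n i j) + (τ * δ + 1 - τ) * proj n i j := by
      linear_combination (proj (n : E3) i j) * h3
    rw [h4]
    have hδ := hI.pos
    have hC := hI.C_nonneg
    have h7 : |τ * (Bi (tz δ τ + s / τ) n i j - (tz δ τ + s / τ) * proj n i j)| ≤ 1 * C :=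
      e8_mul (by rw [abs_of_pos hτ]; exact hτ1) h1
    have h8 : |(τ * δ + 1 - τ) * proj (n : E3) i j| ≤ (δ + 1) * 1 := by
      refine e8_mul ?_ h2
      rw [abs_of_nonneg (by nlinarith)]
      nlinarith
    have h9 := abs_add_le (τ * (Bi (tz δ τ + s / τ) n i j - (tz δ τ + s / τ) * proj n i j)) ((τ * δ + 1 - τ) * proj (n : E3) i j)
    linarith

theorem e14_Bc (hI : FInf D δ C Bi b0) (hτ : 0 < τ) (hτ1 : τ ≤ 1) (n : S2) (i j : Fin 3) :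
    ContinuousOn (fun s => Bt Bi δ τ s n i j) (Ici 0) := by
  have h1 : ContinuousOn (fun s : ℝ => Bi (tz δ τ + s / τ) n i j) (Ici 0) :=
    (hI.cont i j).comp (f := fun s : ℝ => ((tz δ τ + s / τ, n) : ℝ × S2)) (by fun_prop)
      (fun s hs => ⟨e14_t hτ hτ1 hs, mem_univ _⟩)
  refine (continuousOn_const.mul h1 : ContinuousOn (fun s => τ * Bi (tz δ τ + s / τ) n i j) (Ici 0)).congr fun s _ => ?_
  exact e13_Bt hτ s n i j

theorem e14_dtle {M : Fin 3 → Fin 3 → ℝ} {m : ℝ} (h : ∀ i j, |M i j| ≤ m) : |dtB M| ≤ 9 * m ^ 2 := by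
  unfold dtB
  have h0 : |∑ i, M i i| ≤ 3 * m := e8_sum fun i => h i i
  have h1 : |(∑ i, M i i) ^ 2| ≤ (3 * m) ^ 2 := by
    rw [abs_pow]
    exact pow_le_pow_left₀ (abs_nonneg _) h0 2
  have h2 : |∑ i, ∑ j, M i j * M j i| ≤ 3 * (3 * (m * m)) := e8_sum fun i => e8_sum fun j => e8_mul (h i j) (h j i)
  have h3 := abs_sub ((∑ i, M i i) ^ 2) (∑ i, ∑ j, M i j * M j i)
  rw [abs_div, abs_of_pos (two_pos : (0 : ℝ) < 2), div_le_iff₀ two_pos]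
  nlinarith

/-- The two forms of the cost for the scaled frames. -/
theorem e14_kk (hD : D.IsNull) (hI : FInf D δ C Bi b0) (hτ : 0 < τ) (hτ1 : τ ≤ 1) (hΛ : TestF 0 Cl Λ Λ1 W1) (n : S2) :
    ∫ s in Ioi (0 : ℝ), kI (fun r => aT D δ τ r n) (fun r => Bt Bi δ τ r n) n 0 (fun r => Λ r n) (fun r => Λ1 r n) s =
      ∫ s in Ioi (0 : ℝ), kZ (fun r => aT D δ τ r n) (fun r => Bt Bi δ τ r n) n (fun r => Λ r n) (fun r => Λ1 r n) s := by
  have hδ := hI.pos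
  have hC := hI.C_nonneg
  obtain ⟨M, hM⟩ : ∃ M : ℝ, M = C + δ + 2 + |Cl| := ⟨_, rfl⟩
  have hCl := abs_nonneg Cl
  have hM0 : 0 ≤ M := by
    rw [hM]
    linarith
  have hb : ∀ s : ℝ, 0 ≤ s → ∀ i j, |Bt Bi δ τ s n i j| ≤ M * (1 + s) := by
    intro s hs i j
    have h1 := (e14_bd hI hτ hτ1 hs n).2.2 i j
    have h2 : |s * proj (n : E3) i j| ≤ s * 1 := e8_mul (abs_of_nonneg hs).le (NullU.AS2_P n i j)
    have h3 := abs_add_le (Bt Bi δ τ s n i j - s * proj (n : E3) i j) (s * proj (n : E3) i j)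
    rw [sub_add_cancel] at h3
    have h4 : 1 ≤ M := by
      rw [hM]
      linarith
    have h5 : C + δ + 1 ≤ M := by
      rw [hM]
      linarith
    nlinarith
  have hl : ∀ s, 0 ≤ s → ∀ i, |Λ s n i| ≤ M / (1 + s) ^ 3 := by
    intro s hs i
    refine (hΛ.b0 s hs n i).trans (div_le_div_of_nonneg_right ?_ (by positivity))
    rw [hM]
    linarith [le_abs_self Cl]
  have hl1 : ∀ s, 0 ≤ s → ∀ i, |Λ1 s n i| ≤ M / (1 + s) ^ 4 := by
    intro s hs i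
    refine (hΛ.b1 s hs n i).trans (div_le_div_of_nonneg_right ?_ (by positivity))
    rw [hM]
    linarith [le_abs_self Cl]
  refine e12_k (a := fun r => aT D δ τ r n) (b := fun r => Bt Bi δ τ r n) (l := fun r => Λ r n) (l1 := fun r => Λ1 r n) (C := M)
    ?_ ?_ n le_rfl hM0 (fun i j => e14_Bc hI hτ hτ1 n i j) ?_ ?_ hb hl hl1
  · unfold aT
    have h1 : Continuous (fun s : ℝ => D.dA (tz δ τ + s / τ) n) :=
      (NullU.da_dAc hD).comp (f := fun s : ℝ => ((tz δ τ + s / τ, n) : ℝ × S2)) (by fun_prop)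
    exact (continuous_const.mul h1).continuousOn
  · intro s hs
    show |aT D δ τ s n| ≤ _
    rw [← (e14_bd hI hτ hτ1 hs n).2.1]
    exact e14_dtle (hb s hs)
  · intro i
    exact (hΛ.c0 i).comp (f := fun s : ℝ => ((s, n) : ℝ × S2)) (by fun_prop) (fun s hs => ⟨hs, mem_univ _⟩)
  · intro i
    exact (hΛ.c1 i).comp (f := fun s : ℝ => ((s, n) : ℝ × S2)) (by fun_prop) (fun s hs => ⟨hs, mem_univ _⟩)

theorem e14_q (hD : D.IsNull) (hI : FInf D δ C Bi b0) (hτ : 0 < τ) (hτ1 : τ ≤ 1) (hΛ : TestF 0 Cl Λ Λ1 W1) (n : S2) :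
    qZ D δ τ Bi Λ Λ1 W1 n = τ * qI D Bi (tz δ τ) (fun s n i => τ * Λ (τ * (s - tz δ τ)) n i) (fun s n i => τ ^ 2 * Λ1 (τ * (s - tz δ τ)) n i)
      (fun j s n i => τ * W1 j (τ * (s - tz δ τ)) n i) n := by
  rw [e13_q hτ, e14_kk hD hI hτ hτ1 hΛ n]
  rfl

theorem e14_tz0 (hτ : 0 < τ) (hτ1 : τ ≤ 1) : δ ≤ tz δ τ := by
  have := e14_t (δ := δ) hτ hτ1 (le_refl (0 : ℝ))
  rwa [zero_div, add_zero] at this

theorem e14_qc (hD : D.IsNull) (hI : FInf D δ C Bi b0) (hτ : 0 < τ) (hτ1 : τ ≤ 1) (hΛ : TestF 0 Cl Λ Λ1 W1) :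
    Continuous (qZ D δ τ Bi Λ Λ1 W1) := by
  obtain ⟨C', hC'⟩ := e13_TF hI.pos hτ hτ1 hΛ
  have h1 := qI_cont hD hI (e14_tz0 hτ hτ1) hC'
  have h2 := (continuous_const (y := τ)).mul h1
  have h3 : qZ D δ τ Bi Λ Λ1 W1 = fun n => τ * qI D Bi (tz δ τ) (fun s n i => τ * Λ (τ * (s - tz δ τ)) n i)
      (fun s n i => τ ^ 2 * Λ1 (τ * (s - tz δ τ)) n i) (fun j s n i => τ * W1 j (τ * (s - tz δ τ)) n i) n := by
    funext n
    exact e14_q hD hI hτ hτ1 hΛ n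
  rw [h3]
  exact h2

theorem e14_int (hD : D.IsNull) (hI : FInf D δ C Bi b0) (hτ : 0 < τ) (hτ1 : τ ≤ 1) (hΛ : TestF 0 Cl Λ Λ1 W1) :
    Continuous (qZ D δ τ Bi Λ Λ1 W1) ∧ Integrable (fun n => 2 * bT δ τ b0 n + qZ D δ τ Bi Λ Λ1 W1 n) sm := by
  have h1 := e14_qc hD hI hτ hτ1 hΛ
  refine ⟨h1, Integrable.add ?_ (e11_int h1)⟩
  unfold bT
  have := e11_fin
  exact ((((b0_int hD hI).add (integrable_const _)).const_mul τ).const_mul 2)

theorem EIt (hD : D.IsNull) (hA : D.AsympFlat) (htr : ∀ n : S2, D.θ 0 n ≤ 0) {E : ℝ} (hE : D.BondiEnergy E) (hI : FInf D δ C Bi b0)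
    (hτ : 0 < τ) (hτ1 : τ ≤ 1) (hΛ : TestF 0 Cl Λ Λ1 W1) :
    ∫ n : S2, (2 * bT δ τ b0 n + qZ D δ τ Bi Λ Λ1 W1 n) ∂sm ≤ τ * (16 * Real.pi * E) + 8 * Real.pi * (τ * δ + 1 - τ) := by
  obtain ⟨C', hC'⟩ := e13_TF hI.pos hτ hτ1 hΛ
  have h0 := e14_tz0 (δ := δ) hτ hτ1
  have h1 := mul_le_mul_of_nonneg_left (e11 hD hA htr hE hI h0 hC') hτ.le
  have hq := e11_int (qI_cont hD hI h0 hC')
  have hb := b0_int hD hI
  rw [← integral_const_mul] at h1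
  have h2 : ∫ n : S2, (2 * bT δ τ b0 n + qZ D δ τ Bi Λ Λ1 W1 n) ∂sm =
      (∫ n : S2, τ * (2 * b0 n + qI D Bi (tz δ τ) (fun s n i => τ * Λ (τ * (s - tz δ τ)) n i)
      (fun s n i => τ ^ 2 * Λ1 (τ * (s - tz δ τ)) n i) (fun j s n i => τ * W1 j (τ * (s - tz δ τ)) n i) n) ∂sm) +
      ∫ _ : S2, 2 * (τ * δ + 1 - τ) ∂sm := by
    have hi : Integrable (fun n : S2 => τ * (2 * b0 n + qI D Bi (tz δ τ) (fun s n i => τ * Λ (τ * (s - tz δ τ)) n i)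
      (fun s n i => τ ^ 2 * Λ1 (τ * (s - tz δ τ)) n i) (fun j s n i => τ * W1 j (τ * (s - tz δ τ)) n i) n)) sm :=
      ((hb.const_mul 2).add hq).const_mul τ
    have hc : Integrable (fun _ : S2 => 2 * (τ * δ + 1 - τ)) sm := e11_int continuous_const
    rw [← integral_add hi hc]
    refine integral_congr_ae (Eventually.of_forall fun n => ?_)
    show 2 * bT δ τ b0 n + qZ D δ τ Bi Λ Λ1 W1 n = _
    rw [e14_q hD hI hτ hτ1 hΛ n]
    unfold bT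
    have h3 := e14_tz (δ := δ) hτ
    linear_combination 2 * h3
  rw [h2, e11_const]
  linarith

end H17S
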