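import Pool.Agent.Lib.H17S.E1

set_option autoImplicit false

/-!
Chunk E2 (M). The inequality integrated along a generator. `YB b t0 Λ s i = ∫_{t0}^s Σ_k b k i Λ k` is defined for all `s`.
`e2_Yc`, `e2_Yd`: primitive of a function which is continuous on `Ici t0` (extend by `max t t0`, or use `NullPen.g1_int_der` after a shift of the variable; `intervalIntegral.integral_hasDerivAt_right`). `e2_Yt`: tangency of the rows of `B` (`Frm.tng`: `Σ_i n i B k i = 0`).
`e2`: `GB` is continuous on `[t0, S]` (`xB`, `yB`, `exL dA` are continuous: `x_der`/`tc4_zder` give differentiability of `zB`; `cc_smooth`, `dB_der`, `dA_cont`, `exL_cont` for the time slices) and vanishes at `t0` (`YB = 0`). For `s ∈ (t0, S)` `e1` with `l = Λ s`,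
`Y = YB ..` gives `G' <= φ s := 2 torSq dA + ρ dA - 4 c·Λ + 2 dA |Λ|^2 + 8 Λ·cof(dB) Y`, which is continuous on `[t0, S]`. `intervalIntegral.sub_le_integral_of_hasDeriv_right_of_le` gives `GB S <= ∫ φ`. Finally
`GB S = 4 x·y + 4 a' |y|^2 >= - |x|^2/a'` (`a' = exL dA > 0`: `u_pos`, `dA_pos`), since `4 x·y + 4 a'|y|^2 + |x|^2/a' = Σ_k (x k/√a' + 2 √a' y k)^2`.
-/

open MeasureTheory Filter Topology Set
open scoped ContDiff

namespace H17S

open NullPen (E3 S2 sm proj pd MatterData NullData Th)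
open NullU (rl crs dtB cf Tng Cu cc Frm zB qB xB tt dB mh)
open NullQ (rt HR)

variable {D : MatterData} {δ T : ℝ} {B : ℝ → E3 → Fin 3 → Fin 3 → ℝ}

theorem e2_ft {φ : ℝ → ℝ} {t0 : ℝ} (hφ : ContinuousOn φ (Ici t0)) :
    ContinuousOn (fun s => ∫ r in t0..s, φ r) (Ici t0) ∧
      ∀ s, t0 < s → HasDerivAt (fun s => ∫ r in t0..s, φ r) (φ s) s := by
  have hc : Continuous (fun r => φ (max r t0)) :=
    hφ.comp_continuous (continuous_id.max continuous_const) (fun r => mem_Ici.2 (le_max_right _ _))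
  have heq : ∀ s ∈ Ici t0, ∫ r in t0..s, φ r = ∫ r in t0..s, φ (max r t0) := by
    intro s hs
    refine intervalIntegral.integral_congr fun r hr => ?_
    rw [uIcc_of_le hs] at hr
    rw [max_eq_left hr.1]
  have hd : ∀ s, HasDerivAt (fun s => ∫ r in t0..s, φ (max r t0)) (φ (max s t0)) s := fun s =>
    (hc.integral_hasStrictDerivAt t0 s).hasDerivAt
  refine ⟨?_, fun s hs => ?_⟩
  · have h1 : Continuous (fun s => ∫ r in t0..s, φ (max r t0)) :=
      continuous_iff_continuousAt.2 fun s => (hd s).continuousAt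
    exact h1.continuousOn.congr heq
  · have h1 := hd s
    rw [max_eq_left hs.le] at h1
    refine h1.congr_of_eventuallyEq ?_
    filter_upwards [lt_mem_nhds hs] with r hr
    exact heq r hr.le

theorem e2_bc (hB : Frm D δ T B) (n : S2) (i j : Fin 3) : Continuous (fun t => B t (n : E3) i j) :=
  continuous_iff_continuousAt.2 fun s => (NullU.dB_der hB s n i j).continuousAt

theorem e2_dbc (hB : Frm D δ T B) (n : S2) (i j : Fin 3) : Continuous (fun t => dB B t (n : E3) i j) := by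
  have h1 : Continuous (fun p : ℝ × E3 => dB B p.1 p.2 i j) := (NullU.dB_smooth hB.sm i j).continuous
  exact h1.comp (continuous_id.prodMk continuous_const)

theorem e2_cfc {M : ℝ → Fin 3 → Fin 3 → ℝ} (hM : ∀ i j, Continuous (fun t => M t i j)) (n : S2) (i j : Fin 3) :
    Continuous (fun t => cf n (M t) i j) := by
  unfold NullU.cf
  exact ((continuous_finsetSum _ fun k _ => hM k k).mul continuous_const).sub (hM j i)

theorem e2_phi (hB : Frm D δ T B) {t0 : ℝ} (n : S2) {Λ : ℝ → Fin 3 → ℝ}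
    (cΛ : ∀ i, ContinuousOn (fun t => Λ t i) (Ici t0)) (i : Fin 3) :
    ContinuousOn (fun r => ∑ k, B r n k i * Λ r k) (Ici t0) :=
  continuousOn_finsetSum _ fun k _ => (e2_bc hB n k i).continuousOn.mul (cΛ k)

theorem e2_Yc (hB : Frm D δ T B) {t0 : ℝ} (n : S2) {Λ : ℝ → Fin 3 → ℝ} (cΛ : ∀ i, ContinuousOn (fun t => Λ t i) (Ici t0)) (i : Fin 3) :
    ContinuousOn (fun s => YB (fun r => B r n) t0 Λ s i) (Ici t0) := by
  exact (e2_ft (e2_phi hB n cΛ i)).1

theorem e2_Yd (hB : Frm D δ T B) {t0 : ℝ} (n : S2) {Λ : ℝ → Fin 3 → ℝ} (cΛ : ∀ i, ContinuousOn (fun t => Λ t i) (Ici t0)) {s : ℝ} (hs : t0 < s)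
    (i : Fin 3) : HasDerivAt (fun s => YB (fun r => B r n) t0 Λ s i) (∑ k, B s n k i * Λ s k) s := by
  exact (e2_ft (e2_phi hB n cΛ i)).2 s hs

theorem e2_Yt (hB : Frm D δ T B) {t0 : ℝ} (h0 : δ ≤ t0) (n : S2) {Λ : ℝ → Fin 3 → ℝ} (cΛ : ∀ i, ContinuousOn (fun t => Λ t i) (Ici t0)) {s : ℝ}
    (hs : t0 ≤ s) : ∑ i, (n : E3) i * YB (fun r => B r n) t0 Λ s i = 0 := by
  have hi : ∀ i : Fin 3, IntervalIntegrable (fun r => ∑ k, B r n k i * Λ r k) volume t0 s := fun i => by
    refine ((e2_phi hB n cΛ i).mono ?_).intervalIntegrable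
    rw [uIcc_of_le hs]
    exact Icc_subset_Ici_self
  have h1 : ∑ i, (n : E3) i * YB (fun r => B r n) t0 Λ s i =
      ∫ r in t0..s, ∑ i, (n : E3) i * ∑ k, B r n k i * Λ r k := by
    rw [intervalIntegral.integral_finsetSum fun i _ => (hi i).const_mul _]
    refine Finset.sum_congr rfl fun i _ => ?_
    rw [intervalIntegral.integral_const_mul]
    rfl
  rw [h1]
  have h2 : ∀ r ∈ uIcc t0 s, ∑ i, (n : E3) i * ∑ k, B r n k i * Λ r k = 0 := by
    intro r hr
    rw [uIcc_of_le hs] at hr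
    have h3 : ∑ i, (n : E3) i * ∑ k, B r n k i * Λ r k = ∑ k, (∑ i, B r n k i * (n : E3) i) * Λ r k := by
      simp only [Finset.mul_sum, Finset.sum_mul]
      rw [Finset.sum_comm]
      refine Finset.sum_congr rfl fun j _ => Finset.sum_congr rfl fun k _ => by ring
    rw [h3]
    simp only [(hB.tng r (h0.trans hr.1) n).r, zero_mul, Finset.sum_const_zero]
  rw [intervalIntegral.integral_congr (g := fun _ => (0 : ℝ)) h2, intervalIntegral.integral_zero]

theorem e2_p1 (hD : D.IsNull) (n : S2) : ContinuousOn (fun s => D.dA s n) (Ici 0) :=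
  ContinuousOn.comp (g := fun p : ℝ × S2 => D.dA p.1 p.2) (f := fun s : ℝ => (s, n)) (NullU.dA_cont hD)
    (by fun_prop) (fun s hs => ⟨hs, mem_univ _⟩)

theorem e2_p2 (hD : D.IsNull) (n : S2) : ContinuousOn (fun s => D.exL s n) (Ici 0) :=
  ContinuousOn.comp (g := fun p : ℝ × S2 => D.exL p.1 p.2) (f := fun s : ℝ => (s, n)) (NullU.exL_cont hD)
    (by fun_prop) (fun s hs => ⟨hs, mem_univ _⟩)

theorem e2_p3 (hD : D.IsNull) (n : S2) : ContinuousOn (fun s => D.torSq s n * D.dA s n) (Ici 0) :=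
  ContinuousOn.comp (g := fun p : ℝ × S2 => D.torSq p.1 p.2 * D.dA p.1 p.2) (f := fun s : ℝ => (s, n)) (NullU.tor_cont hD)
    (by fun_prop) (fun s hs => ⟨hs, mem_univ _⟩)

theorem e2 (hD : D.IsNull) (hA : D.AsympFlat) (hB : Frm D δ T B) {t0 S : ℝ} (h0 : δ ≤ t0) (hS : t0 ≤ S) (n : S2) {Λ : ℝ → Fin 3 → ℝ}
    (cΛ : ∀ i, ContinuousOn (fun t => Λ t i) (Ici t0)) (tΛ : ∀ s, t0 ≤ s → ∑ i, (n : E3) i * Λ s i = 0) :
    -((∑ k, xB D B S n k ^ 2) / (D.exL S n * D.dA S n)) +
      ∫ s in t0..S, (4 * (∑ k, cc (B s) n k * Λ s k) - (2 * D.dA s n * (∑ k, Λ s k ^ 2) +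
        8 * (∑ k, Λ s k * ∑ j, cf n (dB B s n) k j * YB (fun r => B r n) t0 Λ s j))) ≤
      ∫ s in t0..S, (2 * (D.torSq s n * D.dA s n) + D.ρ s n * D.dA s n) := by
  have hδ := hB.pos
  have hsub : Ici t0 ⊆ Ici (0 : ℝ) := fun s hs => (hδ.le.trans h0).trans hs
  have hIc : Icc t0 S ⊆ Ici t0 := Icc_subset_Ici_self
  obtain ⟨Y, hYdef⟩ : ∃ Y : ℝ → Fin 3 → ℝ, Y = YB (fun r => B r n) t0 Λ := ⟨_, rfl⟩
  have cY : ∀ i, ContinuousOn (fun s => Y s i) (Ici t0) := fun i => by
    rw [hYdef]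
    exact e2_Yc hB n cΛ i
  have tY : ∀ s, t0 ≤ s → ∑ i, (n : E3) i * Y s i = 0 := fun s hs => by
    rw [hYdef]
    exact e2_Yt hB h0 n cΛ hs
  have cdA := (e2_p1 hD n).mono hsub
  have cexL := (e2_p2 hD n).mono hsub
  have ctor := (e2_p3 hD n).mono hsub
  have cρ : Continuous (fun s => D.ρ s n) := hD.cont_ρ.comp (continuous_id.prodMk continuous_const)
  have ccc : ∀ k, Continuous (fun s => cc (B s) n k) := fun k =>
    continuous_iff_continuousAt.2 fun s => (NullU.cc_der hB.sm s n k).continuousAt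
  have czB : ∀ k, Continuous (fun s => zB D B s n k) := fun k =>
    continuous_iff_continuousAt.2 fun s => by
      obtain ⟨z1, hz1⟩ := NullU.tc4_zder hD hB s n k
      exact hz1.continuousAt
  have cxB : ∀ k, Continuous (fun s => xB D B s n k) := fun k => (czB k).sub (ccc k)
  have cyB : ∀ k, ContinuousOn (fun s => yB D B Y n s k) (Ici t0) := fun k => by
    unfold yB
    refine ContinuousOn.div ?_ cdA fun s hs => (NullU.dA_pos hD n (hsub hs)).ne'
    exact continuousOn_finsetSum _ fun j _ => (e2_cfc (e2_bc hB n) n k j).continuousOn.mul (cY j)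
  have cG : ContinuousOn (fun s => GB D B Y n s) (Icc t0 S) := by
    refine ContinuousOn.mono ?_ hIc
    unfold GB
    refine ContinuousOn.add ?_ ?_
    · exact continuousOn_const.mul (continuousOn_finsetSum _ fun k _ => (cxB k).continuousOn.mul (cyB k))
    · exact (continuousOn_const.mul (cexL.mul cdA)).mul (continuousOn_finsetSum _ fun k _ => (cyB k).pow 2)
  have hG0 : GB D B Y n t0 = 0 := by
    have h1 : ∀ i, Y t0 i = 0 := fun i => by
      rw [hYdef]
      unfold YB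
      rw [intervalIntegral.integral_same]
    have h2 : ∀ k, yB D B Y n t0 k = 0 := fun k => by
      unfold yB
      simp only [h1, mul_zero, Finset.sum_const_zero, zero_div]
    unfold GB
    simp only [h2]
    simp
  have c1 : ContinuousOn (fun s => 2 * (D.torSq s n * D.dA s n) + D.ρ s n * D.dA s n) (Ici t0) :=
    (continuousOn_const.mul ctor).add (cρ.continuousOn.mul cdA)
  have c2 : ContinuousOn (fun s => 4 * (∑ k, cc (B s) n k * Λ s k) - (2 * D.dA s n * (∑ k, Λ s k ^ 2) +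
        8 * (∑ k, Λ s k * ∑ j, cf n (dB B s n) k j * Y s j))) (Ici t0) := by
    refine ContinuousOn.sub ?_ (ContinuousOn.add ?_ ?_)
    · exact continuousOn_const.mul (continuousOn_finsetSum _ fun k _ => (ccc k).continuousOn.mul (cΛ k))
    · exact (continuousOn_const.mul cdA).mul (continuousOn_finsetSum _ fun k _ => (cΛ k).pow 2)
    · refine continuousOn_const.mul (continuousOn_finsetSum _ fun k _ => (cΛ k).mul ?_)
      exact continuousOn_finsetSum _ fun j _ => (e2_cfc (e2_dbc hB n) n k j).continuousOn.mul (cY j)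
  have hder : ∀ s, s ∈ Ioo t0 S → ∃ G', HasDerivAt (fun t => GB D B Y n t) G' s ∧
      G' ≤ (2 * (D.torSq s n * D.dA s n) + D.ρ s n * D.dA s n) -
        (4 * (∑ k, cc (B s) n k * Λ s k) - (2 * D.dA s n * (∑ k, Λ s k ^ 2) +
        8 * (∑ k, Λ s k * ∑ j, cf n (dB B s n) k j * Y s j))) := by
    intro s hs
    obtain ⟨G', h1, h2⟩ := e1 hD hB (h0.trans_lt hs.1) n (Y := Y) (l := Λ s) (tΛ s hs.1.le)
      (fun i => by
        rw [hYdef]
        exact e2_Yd hB n cΛ hs.1 i)
      (by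
        filter_upwards [lt_mem_nhds hs.1] with t ht
        exact tY t ht.le)
    exact ⟨G', h1, by linarith⟩
  choose! G' hG1 hG2 using hder
  have c3 := c1.sub c2
  have hmain := intervalIntegral.sub_le_integral_of_hasDeriv_right_of_le hS cG
    (fun s hs => (hG1 s hs).hasDerivWithinAt) ((c3.mono hIc).integrableOn_Icc) hG2
  have hu : uIcc t0 S ⊆ Ici t0 := by
    rw [uIcc_of_le hS]
    exact hIc
  have hint : ∫ s in t0..S, ((2 * (D.torSq s n * D.dA s n) + D.ρ s n * D.dA s n) -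
        (4 * (∑ k, cc (B s) n k * Λ s k) - (2 * D.dA s n * (∑ k, Λ s k ^ 2) +
        8 * (∑ k, Λ s k * ∑ j, cf n (dB B s n) k j * Y s j)))) =
      (∫ s in t0..S, (2 * (D.torSq s n * D.dA s n) + D.ρ s n * D.dA s n)) -
      ∫ s in t0..S, (4 * (∑ k, cc (B s) n k * Λ s k) - (2 * D.dA s n * (∑ k, Λ s k ^ 2) +
        8 * (∑ k, Λ s k * ∑ j, cf n (dB B s n) k j * Y s j))) :=
    intervalIntegral.integral_sub (c1.mono hu).intervalIntegrable (c2.mono hu).intervalIntegrable
  have hmain' : GB D B Y n S - GB D B Y n t0 ≤ ∫ s in t0..S, ((2 * (D.torSq s n * D.dA s n) + D.ρ s n * D.dA s n) -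
        (4 * (∑ k, cc (B s) n k * Λ s k) - (2 * D.dA s n * (∑ k, Λ s k ^ 2) +
        8 * (∑ k, Λ s k * ∑ j, cf n (dB B s n) k j * Y s j)))) := hmain
  rw [hint, hG0, sub_zero] at hmain'
  have hSpos : 0 < S := hδ.trans_le (h0.trans hS)
  have ha' : 0 < D.exL S n * D.dA S n := mul_pos (NullU.u_pos hD hA hSpos n) (NullU.dA_pos hD n hSpos.le)
  have hlow : -((∑ k, xB D B S n k ^ 2) / (D.exL S n * D.dA S n)) ≤ GB D B Y n S := by
    unfold GB
    generalize D.exL S n * D.dA S n = a at ha' ⊢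
    have h1 : 4 * ∑ k, xB D B S n k * yB D B Y n S k + 4 * a * ∑ k, yB D B Y n S k ^ 2 +
        (∑ k, xB D B S n k ^ 2) / a = (∑ k, (xB D B S n k + 2 * a * yB D B Y n S k) ^ 2) / a := by
      simp only [Fin.sum_univ_three]
      field_simp
      ring
    have h2 : 0 ≤ (∑ k, (xB D B S n k + 2 * a * yB D B Y n S k) ^ 2) / a :=
      div_nonneg (Finset.sum_nonneg fun k _ => sq_nonneg _) ha'.le
    linarith
  rw [← hYdef]
  linarith

end H17S
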