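import Pool.Agent.Lib.H17S.E2

set_option autoImplicit false

/-!
Chunk E3 (M). The cost, integrated by parts in `s`. `F s = Σ_k Λ k Σ_j cf n (B s n) k j Y j` (`Y = YB ..`) is continuous on `[t0, S]`, vanishes at `t0`, and has for `s > t0` the derivative
`Σ_k Λ1 k Σ_j cf k j Y j + Σ_k Λ k Σ_j cf n (dB B s n) k j Y j + Σ_k Λ k Σ_j cf k j Σ_m B m j Λ m` (`cf` is linear in the matrix; `dB_der`; `e2_Yd`), and the last sum is `dA Σ_k Λ k^2`
(`Σ_j B m j cf n B k j = dtB B * proj n m k`: `cf_mul'`, `Frm.dt`, tangency of `Λ`). Fundamental theorem of calculus (`intervalIntegral.integral_eq_sub_of_hasDerivAt_of_le`; all terms are continuous on `[t0, S]`, `B`, `dB B` are smooth, `dA` is continuous on `[0, ∞)`).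
-/

open MeasureTheory Filter Topology Set
open scoped ContDiff

namespace H17S

open NullPen (E3 S2 sm proj pd MatterData NullData Th)
open NullU (rl crs dtB cf Tng Cu cc Frm zB qB xB tt dB mh)
open NullQ (rt HR)

variable {D : MatterData} {δ T : ℝ} {B : ℝ → E3 → Fin 3 → Fin 3 → ℝ}

private theorem e3_Bc (hB : Frm D δ T B) (n : S2) (i j : Fin 3) : Continuous (fun t : ℝ => B t n i j) :=
  (hB.sm i j).continuous.comp (continuous_id.prodMk continuous_const)

private theorem e3_dBc (hB : Frm D δ T B) (n : S2) (i j : Fin 3) : Continuous (fun t : ℝ => dB B t n i j) :=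
  (NullU.dB_smooth hB.sm i j).continuous.comp (continuous_id.prodMk continuous_const)

private theorem e3_cfc (n : S2) {M : ℝ → Fin 3 → Fin 3 → ℝ} (hM : ∀ i j, Continuous (fun t => M t i j)) (i j : Fin 3) :
    Continuous (fun t : ℝ => cf n (M t) i j) := by
  unfold cf
  exact ((continuous_finsetSum _ fun k _ => hM k k).mul_const _).sub (hM j i)

private theorem e3_cfd (hB : Frm D δ T B) (n : S2) (s : ℝ) (i j : Fin 3) :
    HasDerivAt (fun t : ℝ => cf n (B t n) i j) (cf n (dB B s n) i j) s := by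
  unfold cf
  exact ((HasDerivAt.fun_sum fun k _ => NullU.dB_der hB s n k k).mul_const _).sub (NullU.dB_der hB s n j i)

private theorem e3_alg (hB : Frm D δ T B) {s : ℝ} (hs : δ ≤ s) (n : S2) {l : Fin 3 → ℝ} (hl : ∑ i, (n : E3) i * l i = 0) :
    ∑ k, l k * ∑ j, cf n (B s n) k j * ∑ m, B s n m j * l m = D.dA s n * ∑ k, l k ^ 2 := by
  have h1 := fun m k => NullU.cf_mul' (norm_eq_of_mem_sphere n) (hB.tng s hs n) m k
  rw [← hB.dt s hs n]
  have h2 : ∀ k, ∑ j, cf n (B s n) k j * ∑ m, B s n m j * l m = ∑ m, l m * (dtB (B s n) * proj n m k) := by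
    intro k
    simp only [← h1, Finset.mul_sum]
    rw [Finset.sum_comm]
    refine Finset.sum_congr rfl fun m _ => Finset.sum_congr rfl fun j _ => ?_
    ring
  have h3 : ∀ k, ∑ m, l m * (dtB (B s n) * proj n m k) = dtB (B s n) * l k := by
    intro k
    have e : ∀ m, l m * (dtB (B s n) * proj n m k) =
        dtB (B s n) * ((if m = k then 1 else 0) * l m) - dtB (B s n) * (n : E3) k * ((n : E3) m * l m) := fun m => by
      unfold proj
      ring
    simp only [e, Finset.sum_sub_distrib, ← Finset.mul_sum, hl]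
    simp
  have h4 : ∀ k, l k * ∑ j, cf n (B s n) k j * ∑ m, B s n m j * l m = dtB (B s n) * l k ^ 2 := fun k => by
    rw [h2, h3]
    ring
  rw [Finset.sum_congr rfl fun k _ => h4 k, Finset.mul_sum]

theorem e3 (hD : D.IsNull) (hB : Frm D δ T B) {t0 S : ℝ} (h0 : δ ≤ t0) (hS : t0 ≤ S) (n : S2) {Λ Λ1 : ℝ → Fin 3 → ℝ}
    (cΛ : ∀ i, ContinuousOn (fun t => Λ t i) (Ici t0)) (cΛ1 : ∀ i, ContinuousOn (fun t => Λ1 t i) (Ici t0))
    (dΛ : ∀ s, t0 < s → ∀ i, HasDerivAt (fun t => Λ t i) (Λ1 s i) s) (tΛ : ∀ s, t0 ≤ s → ∑ i, (n : E3) i * Λ s i = 0) :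
    ∫ s in t0..S, (2 * D.dA s n * (∑ k, Λ s k ^ 2) + 8 * (∑ k, Λ s k * ∑ j, cf n (dB B s n) k j * YB (fun r => B r n) t0 Λ s j)) =
      8 * (∑ k, Λ S k * ∑ j, cf n (B S n) k j * YB (fun r => B r n) t0 Λ S j) -
      ∫ s in t0..S, (6 * D.dA s n * (∑ k, Λ s k ^ 2) + 8 * (∑ k, Λ1 s k * ∑ j, cf n (B s n) k j * YB (fun r => B r n) t0 Λ s j)) := by
  have hsub : Icc t0 S ⊆ Ici t0 := fun x hx => hx.1
  have cY : ∀ j, ContinuousOn (fun s => YB (fun r => B r n) t0 Λ s j) (Icc t0 S) := fun j => (e2_Yc hB n cΛ j).mono hsub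
  have cL : ∀ i, ContinuousOn (fun t => Λ t i) (Icc t0 S) := fun i => (cΛ i).mono hsub
  have cL1 : ∀ i, ContinuousOn (fun t => Λ1 t i) (Icc t0 S) := fun i => (cΛ1 i).mono hsub
  have ccf : ∀ i j, ContinuousOn (fun t : ℝ => cf n (B t n) i j) (Icc t0 S) := fun i j => (e3_cfc n (e3_Bc hB n) i j).continuousOn
  have ccd : ∀ i j, ContinuousOn (fun t : ℝ => cf n (dB B t n) i j) (Icc t0 S) := fun i j => (e3_cfc n (e3_dBc hB n) i j).continuousOn
  have cA : ContinuousOn (fun t : ℝ => D.dA t n) (Icc t0 S) :=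
    (NullU.dA_cont hD).comp (f := fun t : ℝ => (t, n)) (continuous_id.prodMk continuous_const).continuousOn
      (fun x hx => ⟨(hB.pos.le.trans h0).trans hx.1, mem_univ _⟩)
  have cq : ContinuousOn (fun t : ℝ => ∑ k, Λ t k ^ 2) (Icc t0 S) := continuousOn_finsetSum _ fun k _ => (cL k).pow 2
  have c1 : ContinuousOn (fun s => 2 * D.dA s n * (∑ k, Λ s k ^ 2) + 8 * (∑ k, Λ s k * ∑ j, cf n (dB B s n) k j * YB (fun r => B r n) t0 Λ s j)) (Icc t0 S) :=
    ((continuousOn_const.mul cA).mul cq).add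
      (continuousOn_const.mul (continuousOn_finsetSum _ fun k _ => (cL k).mul (continuousOn_finsetSum _ fun j _ => (ccd k j).mul (cY j))))
  have c2 : ContinuousOn (fun s => 6 * D.dA s n * (∑ k, Λ s k ^ 2) + 8 * (∑ k, Λ1 s k * ∑ j, cf n (B s n) k j * YB (fun r => B r n) t0 Λ s j)) (Icc t0 S) :=
    ((continuousOn_const.mul cA).mul cq).add
      (continuousOn_const.mul (continuousOn_finsetSum _ fun k _ => (cL1 k).mul (continuousOn_finsetSum _ fun j _ => (ccf k j).mul (cY j))))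
  have cF : ContinuousOn (fun s => 8 * ∑ k, Λ s k * ∑ j, cf n (B s n) k j * YB (fun r => B r n) t0 Λ s j) (Icc t0 S) :=
    continuousOn_const.mul (continuousOn_finsetSum _ fun k _ => (cL k).mul (continuousOn_finsetSum _ fun j _ => (ccf k j).mul (cY j)))
  have i1 := c1.intervalIntegrable_of_Icc (μ := volume) hS
  have i2 := c2.intervalIntegrable_of_Icc (μ := volume) hS
  have key := intervalIntegral.integral_eq_sub_of_hasDerivAt_of_le hS cF
    (f' := fun s => (2 * D.dA s n * (∑ k, Λ s k ^ 2) + 8 * (∑ k, Λ s k * ∑ j, cf n (dB B s n) k j * YB (fun r => B r n) t0 Λ s j)) +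
      (6 * D.dA s n * (∑ k, Λ s k ^ 2) + 8 * (∑ k, Λ1 s k * ∑ j, cf n (B s n) k j * YB (fun r => B r n) t0 Λ s j))) ?_ (i1.add i2)
  · have z : ∀ j, YB (fun r => B r n) t0 Λ t0 j = 0 := fun j => by
      unfold YB
      exact intervalIntegral.integral_same
    rw [intervalIntegral.integral_add i1 i2] at key
    simp only [z, mul_zero, Finset.sum_const_zero, sub_zero] at key
    linarith
  · intro s hs
    have hs0 : t0 < s := hs.1
    have d1 : HasDerivAt (fun s => 8 * ∑ k, Λ s k * ∑ j, cf n (B s n) k j * YB (fun r => B r n) t0 Λ s j)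
        (8 * ∑ k, (Λ1 s k * (∑ j, cf n (B s n) k j * YB (fun r => B r n) t0 Λ s j) +
          Λ s k * ∑ j, (cf n (dB B s n) k j * YB (fun r => B r n) t0 Λ s j + cf n (B s n) k j * (∑ m, B s n m j * Λ s m)))) s := by
      refine HasDerivAt.const_mul _ (HasDerivAt.fun_sum fun k _ => (dΛ s hs0 k).mul (HasDerivAt.fun_sum fun j _ => ?_))
      exact (e3_cfd hB n s k j).mul (e2_Yd hB n cΛ hs0 j)
    refine d1.congr_deriv ?_
    have a := e3_alg hB (h0.trans hs0.le) n (tΛ s hs0.le)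
    simp only [Finset.sum_add_distrib, mul_add] at a ⊢
    linear_combination 8 * a

end H17S
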