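import Pool.Agent.Lib.H17S.ED

set_option autoImplicit false

/-!
Chunk E4 (M). Integration by parts on the sphere. `cc M n k = crs (Cu M n) n k`, so `Σ_k cc M n k w k = Σ_k Cu M n k (n × w)_k` (expand, `Fin.sum_univ_three`), `Cu M n k = Σ_j rl j (M · k j) n`. For each `k`, `j`: `hr_mul` (H74Q/E0) of
`hr_val` (`rl j` of the smooth function `B s · k j`) and `hw k`, `hr_int`: `∫ (rl j (B k j) (n × w)_k + B k j W1 j k) = 0`; sum over `k`, `j` (`integral_finset_sum`; all functions are continuous: `TC2_rlc` in `H17U/TC2`, smoothness of `B s`).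
-/

open MeasureTheory Filter Topology Set
open scoped ContDiff

namespace H17S

open NullPen (E3 S2 sm proj pd MatterData NullData Th)
open NullU (rl crs dtB cf Tng Cu cc Frm zB qB xB tt dB mh)
open NullQ (rt HR)

theorem e4_s1 : (0 : Fin 3) + 1 = 1 := rfl
theorem e4_s2 : (0 : Fin 3) + 2 = 2 := rfl
theorem e4_s3 : (1 : Fin 3) + 1 = 2 := rfl
theorem e4_s4 : (1 : Fin 3) + 2 = 0 := rfl
theorem e4_s5 : (2 : Fin 3) + 1 = 0 := rfl
theorem e4_s6 : (2 : Fin 3) + 2 = 1 := rfl

theorem e4_pt (M : E3 → Fin 3 → Fin 3 → ℝ) (n : E3) (w : Fin 3 → ℝ) :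
    ∑ k, cc M n k * w k = ∑ k, ∑ j, rl j (fun y => M y k j) n * crs (fun i => n i) w k := by
  have h1 : ∀ C : Fin 3 → ℝ, ∑ k, crs C (fun i => n i) k * w k = ∑ k, C k * crs (fun i => n i) w k := by
    intro C
    simp only [Fin.sum_univ_three, crs, e4_s1, e4_s2, e4_s3, e4_s4, e4_s5, e4_s6]
    ring
  unfold cc
  rw [h1]
  refine Finset.sum_congr rfl fun k _ => ?_
  unfold Cu
  rw [Finset.sum_mul]

theorem e4_term {M : E3 → Fin 3 → Fin 3 → ℝ} (hM : ∀ i j, ContDiff ℝ ∞ (fun y => M y i j)) {w : S2 → Fin 3 → ℝ}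
    {W1 : Fin 3 → S2 → Fin 3 → ℝ} (cw : ∀ k, Continuous (fun n : S2 => w n k)) (cW : ∀ j k, Continuous (fun n : S2 => W1 j n k))
    (hw : ∀ k, HR (fun n => crs (fun i => (n : E3) i) (w n) k) (fun j n => W1 j n k)) (k j : Fin 3) :
    Continuous (fun n : S2 => rl j (fun y => M y k j) n * crs (fun i => (n : E3) i) (w n) k) ∧
      Continuous (fun n : S2 => M n k j * W1 j n k) ∧
      ∫ n : S2, rl j (fun y => M y k j) n * crs (fun i => (n : E3) i) (w n) k ∂sm =
        - ∫ n : S2, M n k j * W1 j n k ∂sm := by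
  have c1 : Continuous (fun n : S2 => M n k j) := (hM k j).continuous.comp continuous_subtype_val
  have c2 : Continuous (fun n : S2 => crs (fun i => (n : E3) i) (w n) k) := by
    unfold crs
    have c3 : ∀ i : Fin 3, Continuous (fun n : S2 => (n : E3) i) := fun i =>
      (EuclideanSpace.proj i : E3 →L[ℝ] ℝ).continuous.comp continuous_subtype_val
    exact ((c3 _).mul (cw _)).sub ((c3 _).mul (cw _))
  have c4 : Continuous (fun n : S2 => rl j (fun y => M y k j) n) := NullU.TC2_rlc (hM k j) j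
  have h1 : HR (fun n : S2 => M n k j) (fun j' n => rl j' (fun y => M y k j) n) :=
    NullQ.hr_val (G := fun y => M y k j) fun n => (hM k j).differentiable (by simp) _
  have h2 := NullQ.hr_int (NullQ.hr_mul h1 (hw k)) (c1.mul c2) j ((c4.mul c2).add (c1.mul (cW j k)))
  have c5 := c4.mul c2
  have c6 := c1.mul (cW j k)
  refine ⟨c5, c6, ?_⟩
  have h3 : (∫ n : S2, rl j (fun y => M y k j) n * crs (fun i => (n : E3) i) (w n) k ∂sm) +
      ∫ n : S2, M n k j * W1 j n k ∂sm = 0 := by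
    rw [← h2]
    exact (integral_add (NullU.TC2_int c5) (NullU.TC2_int c6)).symm
  linarith

theorem e4 {M : E3 → Fin 3 → Fin 3 → ℝ} (hM : ∀ i j, ContDiff ℝ ∞ (fun y => M y i j)) {w : S2 → Fin 3 → ℝ}
    {W1 : Fin 3 → S2 → Fin 3 → ℝ} (cw : ∀ k, Continuous (fun n : S2 => w n k)) (cW : ∀ j k, Continuous (fun n : S2 => W1 j n k))
    (hw : ∀ k, HR (fun n => crs (fun i => (n : E3) i) (w n) k) (fun j n => W1 j n k)) :
    ∫ n : S2, (∑ k, cc M n k * w n k) ∂sm = - ∫ n : S2, pairB (M n) (fun j k => W1 j n k) ∂sm := by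
  have h := fun k j => e4_term hM cw cW hw k j
  simp only [e4_pt]
  unfold pairB
  rw [integral_finsetSum _ fun k _ => NullU.TC2_int (continuous_finsetSum _ fun j _ => (h k j).1),
    integral_finsetSum _ fun k _ => NullU.TC2_int (continuous_finsetSum _ fun j _ => (h k j).2.1),
    ← Finset.sum_neg_distrib]
  refine Finset.sum_congr rfl fun k _ => ?_
  rw [integral_finsetSum _ fun j _ => NullU.TC2_int (h k j).1,
    integral_finsetSum _ fun j _ => NullU.TC2_int (h k j).2.1, ← Finset.sum_neg_distrib]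
  exact Finset.sum_congr rfl fun j _ => (h k j).2.2

end H17S
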