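import Pool.Agent.Lib.H17S.ED

set_option autoImplicit false

/-!
Chunk E5 (S/M). Parameter integrals over `[a, b]` and `(a, ∞)` of functions on `[a, ∞) × S2`. Proofs: replace `F s n` by `F (max s a) n`, which is continuous on `ℝ × S2` (compare `NullPen.c1_ext`, `NullPen.fub`, `NullPen.cont_at`, `NullPen.cont_sph` in
`H74P/C1.lean`, which are the case `a = 0`; a shift `s = a + t` reduces to it). `e5_tail`: `MeasureTheory.continuous_of_dominated`, the bound `K/(1+s)^2` is integrable on `(a, ∞)`, `a >= 0` (see `E0B_int`, `cont_tail` in `H74Q/E0B.lean`, case `a = 0`).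
-/

open MeasureTheory Filter Topology Set
open scoped ContDiff

namespace H17S

open NullPen (E3 S2 sm proj pd MatterData NullData Th)
open NullQ (rt HR)

variable {F : ℝ → S2 → ℝ} {a b : ℝ}

theorem e5_ext (cF : ContinuousOn (fun p : ℝ × S2 => F p.1 p.2) (Ici a ×ˢ univ)) :
    Continuous (fun p : ℝ × S2 => F (max p.1 a) p.2) := by
  have h1 : Continuous (fun p : ℝ × S2 => ((max p.1 a, p.2) : ℝ × S2)) :=
    (continuous_fst.max continuous_const).prodMk continuous_snd
  exact cF.comp_continuous h1 fun p => ⟨mem_Ici.mpr (le_max_right p.1 a), mem_univ _⟩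

theorem e5_at (cF : ContinuousOn (fun p : ℝ × S2 => F p.1 p.2) (Ici a ×ˢ univ)) {s : ℝ} (hs : a ≤ s) : Continuous (F s) := by
  have h1 : Continuous (fun n : S2 => ((s, n) : ℝ × S2)) := continuous_const.prodMk continuous_id
  exact cF.comp_continuous h1 fun n => ⟨mem_Ici.mpr hs, mem_univ _⟩

theorem e5_time (cF : ContinuousOn (fun p : ℝ × S2 => F p.1 p.2) (Ici a ×ˢ univ)) (n : S2) : ContinuousOn (fun s => F s n) (Ici a) := by
  have h1 : ContinuousOn (fun t : ℝ => ((t, n) : ℝ × S2)) (Ici a) := by fun_prop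
  exact cF.comp h1 (fun t ht => ⟨ht, mem_univ _⟩)

/-- The primitive is continuous in both variables. -/
theorem e5_prim (cF : ContinuousOn (fun p : ℝ × S2 => F p.1 p.2) (Ici a ×ˢ univ)) :
    ContinuousOn (fun p : ℝ × S2 => ∫ s in a..p.1, F s p.2) (Ici a ×ˢ univ) := by
  have h1 := e5_ext cF
  have h2 : Continuous (fun p : ℝ × S2 => ∫ t in a..p.1, F (max t a) p.2) := by
    have h3 : Continuous (Function.uncurry (fun (p : ℝ × S2) (t : ℝ) => F (max t a) p.2)) :=
      h1.comp (continuous_snd.prodMk (continuous_snd.comp continuous_fst))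
    exact intervalIntegral.continuous_parametric_intervalIntegral_of_continuous h3 continuous_fst
  refine h2.continuousOn.congr fun p hp => ?_
  refine intervalIntegral.integral_congr fun t ht => ?_
  rw [uIcc_of_le (mem_Ici.mp hp.1)] at ht
  rw [max_eq_left ht.1]

theorem e5_cont (cF : ContinuousOn (fun p : ℝ × S2 => F p.1 p.2) (Ici a ×ˢ univ)) (hab : a ≤ b) : Continuous (fun n => ∫ s in a..b, F s n) :=
  e5_at (F := fun s n => ∫ t in a..s, F t n) (e5_prim cF) hab

theorem e5_fub (cF : ContinuousOn (fun p : ℝ × S2 => F p.1 p.2) (Ici a ×ˢ univ)) (hab : a ≤ b) :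
    ∫ n : S2, (∫ s in a..b, F s n) ∂sm = ∫ s in a..b, (∫ n : S2, F s n ∂sm) := by
  have := NullPen.c1_fin
  have hf : Continuous (Function.uncurry (fun (s : ℝ) (n : S2) => F (max s a) n)) := e5_ext cF
  have h1 : IntegrableOn (Function.uncurry (fun (s : ℝ) (n : S2) => F (max s a) n))
      (Icc a b ×ˢ (univ : Set S2)) ((volume : Measure ℝ).prod sm) :=
    hf.continuousOn.integrableOn_compact (isCompact_Icc.prod isCompact_univ)
  have h2 := h1.mono_set (prod_mono Ioc_subset_Icc_self (Subset.refl (univ : Set S2)))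
  rw [IntegrableOn, ← Measure.prod_restrict, Measure.restrict_univ] at h2
  have e1 : ∫ t in a..b, (∫ n : S2, F t n ∂sm) =
      ∫ t in Ioc a b, (∫ n : S2, F (max t a) n ∂sm) := by
    rw [intervalIntegral.integral_of_le hab]
    refine setIntegral_congr_fun measurableSet_Ioc fun s hs => ?_
    rw [max_eq_left hs.1.le]
  have e2 : ∫ n : S2, (∫ t in a..b, F t n) ∂sm =
      ∫ n : S2, (∫ t in Ioc a b, F (max t a) n) ∂sm := by
    refine integral_congr_ae (Eventually.of_forall fun n => ?_)
    simp only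
    rw [intervalIntegral.integral_of_le hab]
    refine setIntegral_congr_fun measurableSet_Ioc fun s hs => ?_
    rw [max_eq_left hs.1.le]
  rw [e1, e2]
  exact (integral_integral_swap h2).symm

theorem e5_sph (cF : ContinuousOn (fun p : ℝ × S2 => F p.1 p.2) (Ici a ×ˢ univ)) : ContinuousOn (fun s => ∫ n : S2, F s n ∂sm) (Ici a) := by
  have := NullPen.c1_fin
  have h2 := continuous_parametric_integral_of_continuous (μ := sm)
    (f := fun (t : ℝ) (n : S2) => F (max t a) n) (e5_ext cF) (s := Set.univ) isCompact_univ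
  rw [Measure.restrict_univ] at h2
  refine h2.continuousOn.congr fun s hs => ?_
  simp only
  rw [max_eq_left (mem_Ici.mp hs)]

theorem e5_bnd (ha : 0 ≤ a) (K : ℝ) : IntegrableOn (fun s : ℝ => K / (1 + s) ^ 2) (Ioi a) := by
  have h2 : IntegrableOn (fun s : ℝ => (s + 1) ^ (-2 : ℝ)) (Ioi a) :=
    integrableOn_add_rpow_Ioi_of_lt (by norm_num) (by linarith)
  have h4 : IntegrableOn (fun s : ℝ => K * (s + 1) ^ (-2 : ℝ)) (Ioi a) := h2.const_mul K
  refine h4.congr_fun (fun s hs => ?_) measurableSet_Ioi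
  have hs0 : (0 : ℝ) ≤ s + 1 := by
    have := mem_Ioi.mp hs
    linarith
  simp only
  rw [Real.rpow_neg hs0, div_eq_mul_inv, add_comm s 1]
  norm_num

theorem e5_meas {f : ℝ → ℝ} (cf : ContinuousOn f (Ici a)) : AEStronglyMeasurable f (volume.restrict (Ioi a)) :=
  (cf.mono (fun _ ht => le_of_lt ht)).aestronglyMeasurable measurableSet_Ioi

theorem e5_int {f : ℝ → ℝ} (cf : ContinuousOn f (Ici a)) (ha : 0 ≤ a) {K : ℝ} (hK : ∀ s, a ≤ s → |f s| ≤ K / (1 + s) ^ 2) :
    IntegrableOn f (Ioi a) := by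
  refine Integrable.mono' (e5_bnd ha K) (e5_meas cf) ?_
  exact (ae_restrict_iff' measurableSet_Ioi).2 (Eventually.of_forall fun t ht => hK t (le_of_lt ht))

theorem e5_tail (cF : ContinuousOn (fun p : ℝ × S2 => F p.1 p.2) (Ici a ×ˢ univ)) (ha : 0 ≤ a) {K : ℝ}
    (hK : ∀ s, a ≤ s → ∀ n, |F s n| ≤ K / (1 + s) ^ 2) : Continuous (fun n => ∫ s in Ioi a, F s n) := by
  refine continuous_of_dominated (bound := fun s => K / (1 + s) ^ 2) (fun n => e5_meas (e5_time cF n)) (fun n => ?_) (e5_bnd ha K) ?_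
  · exact (ae_restrict_iff' measurableSet_Ioi).2 (Eventually.of_forall fun t ht => hK t (le_of_lt ht) n)
  · exact (ae_restrict_iff' measurableSet_Ioi).2 (Eventually.of_forall fun t ht => e5_at cF (le_of_lt ht))

end H17S
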