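import Pool.Agent.Lib.H17S.E3
import Pool.Agent.Lib.H17S.E4
import Pool.Agent.Lib.H17S.E5

set_option autoImplicit false

/-!
Chunk E6 (M). The energy inequality up to time `T`. `theta_eq` (EN2): `Th T = Th 0 + 8 pi T - ∫_0^T (2 tt + ∫ ρ dA)`, `Th 0 <= 0`, the integrand is nonnegative, so `Th T <= 8 pi T - ∫_{t0}^T (2 tt + ∫ ρ dA)`
`= 8 pi T - ∫_S2 ∫_{t0}^T (2 torSq dA + ρ dA)` (`e5_fub`; `tt D s = ∫ torSq dA`). `e2` with `S = T`, `Λ s = Λ s n`, and `e3` for the second part of its integrand (`intervalIntegral.integral_sub`) give for every `n`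
`∫_{t0}^T (2 torSq dA + ρ dA) >= - |x|^2/a' + ∫_{t0}^T 4 c·Λ - 8 Λ·cof(B) Y(T) + ∫_{t0}^T (6 dA |Λ|^2 + 8 Λ1·cof(B) Y)`; integrate over the sphere; `∫_S2 ∫_{t0}^T 4 c·Λ = ∫_{t0}^T ∫_S2 4 c·Λ = - 4 ∫_{t0}^T ∫_S2 pr = - 4 ∫_S2 ∫_{t0}^T pr` (`e4`, `e5_fub`).
Continuity: `B`, `cc (B s)` smooth (`cc_smooth` TC0), `YB` by `e5_prim`, `x` and `exL dA` at time `T` (`FF_cont` in `H17U/EN1` is the same computation), `u_pos`, `dA_pos`.
-/

open MeasureTheory Filter Topology Set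
open scoped ContDiff

namespace H17S

open NullPen (E3 S2 sm proj pd MatterData NullData Th)
open NullU (rl crs dtB cf Tng Cu cc Frm zB qB xB tt dB mh)
open NullQ (rt HR)

variable {D : MatterData} {δ T t0 C : ℝ} {B : ℝ → E3 → Fin 3 → Fin 3 → ℝ} {Λ Λ1 : ℝ → S2 → Fin 3 → ℝ} {W1 : Fin 3 → ℝ → S2 → Fin 3 → ℝ}

/-- Integrand of the cost. -/
noncomputable def kI (a : ℝ → ℝ) (b : ℝ → Fin 3 → Fin 3 → ℝ) (n : E3) (t0 : ℝ) (l l1 : ℝ → Fin 3 → ℝ) (s : ℝ) : ℝ :=
  6 * a s * (∑ k, l s k ^ 2) + 8 * (∑ k, l1 s k * ∑ j, cf n (b s) k j * YB b t0 l s j)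

/-- The functional for the frame symmetric at `T`. -/
noncomputable def qT (D : MatterData) (B : ℝ → E3 → Fin 3 → Fin 3 → ℝ) (t0 T : ℝ) (Λ Λ1 : ℝ → S2 → Fin 3 → ℝ) (W1 : Fin 3 → ℝ → S2 → Fin 3 → ℝ)
    (n : S2) : ℝ :=
  -4 * (∫ s in t0..T, pairB (B s n) (fun j k => W1 j s n k)) -
    8 * (∑ k, Λ T n k * ∑ j, cf n (B T n) k j * YB (fun r => B r n) t0 (fun r => Λ r n) T j) +
    ∫ s in t0..T, kI (fun r => D.dA r n) (fun r => B r n) n t0 (fun r => Λ r n) (fun r => Λ1 r n) s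

/-- The limit of `qT`. -/
noncomputable def qI (D : MatterData) (Bi : ℝ → S2 → Fin 3 → Fin 3 → ℝ) (t0 : ℝ) (Λ Λ1 : ℝ → S2 → Fin 3 → ℝ) (W1 : Fin 3 → ℝ → S2 → Fin 3 → ℝ)
    (n : S2) : ℝ :=
  -4 * (∫ s in Ioi t0, pairB (Bi s n) (fun j k => W1 j s n k)) +
    ∫ s in Ioi t0, kI (fun r => D.dA r n) (fun r => Bi r n) n t0 (fun r => Λ r n) (fun r => Λ1 r n) s

theorem e6_B {L : ℝ → E3 → ℝ} (hL : ContDiff ℝ ∞ (fun p : ℝ × E3 => L p.1 p.2)) : Continuous (fun p : ℝ × S2 => L p.1 p.2) :=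
  hL.continuous.comp (f := fun p : ℝ × S2 => ((p.1, (p.2 : E3)) : ℝ × E3)) (continuous_fst.prodMk (continuous_subtype_val.comp continuous_snd))

theorem e6_proj (i j : Fin 3) : Continuous (fun p : ℝ × S2 => proj (p.2 : E3) i j) := by
  have h : ∀ i : Fin 3, Continuous (fun p : ℝ × S2 => (p.2 : E3) i) := fun i => (NullU.EN1_coord i).comp continuous_snd
  unfold proj
  exact continuous_const.sub ((h i).mul (h j))

theorem e6_cf {M : ℝ → E3 → Fin 3 → Fin 3 → ℝ} (hM : ∀ i j, ContDiff ℝ ∞ (fun p : ℝ × E3 => M p.1 p.2 i j)) (i j : Fin 3) :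
    Continuous (fun p : ℝ × S2 => cf (p.2 : E3) (M p.1 p.2) i j) := by
  unfold cf
  exact ((continuous_finsetSum _ fun k _ => e6_B (L := fun t y => M t y k k) (hM k k)).mul (e6_proj i j)).sub
    (e6_B (L := fun t y => M t y j i) (hM j i))

theorem e6_Y (hB : Frm D δ T B) (hΛ : TestF t0 C Λ Λ1 W1) (i : Fin 3) :
    ContinuousOn (fun p : ℝ × S2 => YB (fun r => B r p.2) t0 (fun r => Λ r p.2) p.1 i) (Ici t0 ×ˢ univ) := by
  unfold YB
  refine e5_prim (F := fun r n => ∑ k, B r n k i * Λ r n k) ?_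
  exact continuousOn_finsetSum _ fun k _ => (e6_B (L := fun t y => B t y k i) (hB.sm k i)).continuousOn.mul (hΛ.c0 k)

theorem e6_pr (hB : Frm D δ T B) (hΛ : TestF t0 C Λ Λ1 W1) :
    ContinuousOn (fun p : ℝ × S2 => pairB (B p.1 p.2) (fun j k => W1 j p.1 p.2 k)) (Ici t0 ×ˢ univ) := by
  unfold pairB
  exact continuousOn_finsetSum _ fun k _ => continuousOn_finsetSum _ fun j _ =>
    (e6_B (L := fun t y => B t y k j) (hB.sm k j)).continuousOn.mul (hΛ.cw j k)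

theorem e6_cK (hB : Frm D δ T B) (hΛ : TestF t0 C Λ Λ1 W1) :
    ContinuousOn (fun p : ℝ × S2 => ∑ k, cc (B p.1) p.2 k * Λ p.1 p.2 k) (Ici t0 ×ˢ univ) :=
  continuousOn_finsetSum _ fun k _ =>
    (e6_B (L := fun t y => cc (B t) y k) (NullU.cc_smooth hB.sm k)).continuousOn.mul (hΛ.c0 k)

theorem e6_quad {M : ℝ → E3 → Fin 3 → Fin 3 → ℝ} (hM : ∀ i j, ContDiff ℝ ∞ (fun p : ℝ × E3 => M p.1 p.2 i j))
    (hB : Frm D δ T B) (hΛ : TestF t0 C Λ Λ1 W1) {l : ℝ → S2 → Fin 3 → ℝ}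
    (cl : ∀ i, ContinuousOn (fun p : ℝ × S2 => l p.1 p.2 i) (Ici t0 ×ˢ univ)) :
    ContinuousOn (fun p : ℝ × S2 => ∑ k, l p.1 p.2 k * ∑ j, cf (p.2 : E3) (M p.1 p.2) k j *
      YB (fun r => B r p.2) t0 (fun r => Λ r p.2) p.1 j) (Ici t0 ×ˢ univ) :=
  continuousOn_finsetSum _ fun k _ => (cl k).mul (continuousOn_finsetSum _ fun j _ =>
    (e6_cf hM k j).continuousOn.mul (e6_Y hB hΛ j))

theorem e6_dA (hD : D.IsNull) (t0 : ℝ) : ContinuousOn (fun p : ℝ × S2 => D.dA p.1 p.2) (Ici t0 ×ˢ univ) :=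
  (NullU.da_dAc hD).continuousOn

theorem e6_sq (hΛ : TestF t0 C Λ Λ1 W1) : ContinuousOn (fun p : ℝ × S2 => ∑ k, Λ p.1 p.2 k ^ 2) (Ici t0 ×ˢ univ) :=
  continuousOn_finsetSum _ fun k _ => (hΛ.c0 k).pow 2

theorem e6_kI (hD : D.IsNull) (hB : Frm D δ T B) (hΛ : TestF t0 C Λ Λ1 W1) :
    ContinuousOn (fun p : ℝ × S2 => kI (fun r => D.dA r p.2) (fun r => B r p.2) p.2 t0 (fun r => Λ r p.2) (fun r => Λ1 r p.2) p.1)
      (Ici t0 ×ˢ univ) := by
  unfold kI
  exact ((continuousOn_const.mul (e6_dA hD t0)).mul (e6_sq hΛ)).add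
    (continuousOn_const.mul (e6_quad hB.sm hB hΛ hΛ.c1))

theorem e6_jI (hD : D.IsNull) (hB : Frm D δ T B) (hΛ : TestF t0 C Λ Λ1 W1) :
    ContinuousOn (fun p : ℝ × S2 => 2 * D.dA p.1 p.2 * (∑ k, Λ p.1 p.2 k ^ 2) +
        8 * (∑ k, Λ p.1 p.2 k * ∑ j, cf (p.2 : E3) (dB B p.1 p.2) k j *
          YB (fun r => B r p.2) t0 (fun r => Λ r p.2) p.1 j)) (Ici t0 ×ˢ univ) :=
  ((continuousOn_const.mul (e6_dA hD t0)).mul (e6_sq hΛ)).add
    (continuousOn_const.mul (e6_quad (M := dB B) (NullU.dB_smooth hB.sm) hB hΛ hΛ.c0))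

theorem e6_bT (hB : Frm D δ T B) (hT : t0 ≤ T) (hΛ : TestF t0 C Λ Λ1 W1) :
    Continuous (fun n : S2 => ∑ k, Λ T n k * ∑ j, cf (n : E3) (B T n) k j * YB (fun r => B r n) t0 (fun r => Λ r n) T j) :=
  e5_at (F := fun s n => ∑ k, Λ s n k * ∑ j, cf (n : E3) (B s n) k j * YB (fun r => B r n) t0 (fun r => Λ r n) s j)
    (e6_quad hB.sm hB hΛ hΛ.c0) hT

theorem e6_prc (hB : Frm D δ T B) (hT : t0 ≤ T) (hΛ : TestF t0 C Λ Λ1 W1) :
    Continuous (fun n : S2 => ∫ s in t0..T, pairB (B s n) (fun j k => W1 j s n k)) :=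
  e5_cont (F := fun s n => pairB (B s n) (fun j k => W1 j s n k)) (e6_pr hB hΛ) hT

theorem e6_kc (hD : D.IsNull) (hB : Frm D δ T B) (hT : t0 ≤ T) (hΛ : TestF t0 C Λ Λ1 W1) :
    Continuous (fun n : S2 => ∫ s in t0..T, kI (fun r => D.dA r n) (fun r => B r n) n t0 (fun r => Λ r n) (fun r => Λ1 r n) s) :=
  e5_cont (F := fun s n => kI (fun r => D.dA r n) (fun r => B r n) n t0 (fun r => Λ r n) (fun r => Λ1 r n) s)
    (e6_kI hD hB hΛ) hT

theorem qT_cont (hD : D.IsNull) (hB : Frm D δ T B) (h0 : δ ≤ t0) (hT : t0 ≤ T) (hΛ : TestF t0 C Λ Λ1 W1) : Continuous (qT D B t0 T Λ Λ1 W1) := by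
  unfold qT
  exact ((continuous_const.mul (e6_prc hB hT hΛ)).sub (continuous_const.mul (e6_bT hB hT hΛ))).add (e6_kc hD hB hT hΛ)

theorem xx_cont (hD : D.IsNull) (hA : D.AsympFlat) (hB : Frm D δ T B) :
    Continuous (fun n : S2 => (∑ k, xB D B T n k ^ 2) / (D.exL T n * D.dA T n)) := by
  have hT0 : 0 < T := hB.pos.trans hB.lt
  have ha : Continuous (fun n : S2 => D.dA T n) :=
    NullPen.cont_at (F := fun s (n : S2) => D.dA s n) (NullU.dA_cont hD) hT0.le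
  have hx : Continuous (fun n : S2 => D.exL T n) :=
    NullPen.cont_at (F := fun s (n : S2) => D.exL s n) (NullU.exL_cont hD) hT0.le
  have hζc : ∀ i, Continuous (fun n : S2 => D.ζ T n i) := fun i => NullU.EN1_slice (hD.smooth_ζ i) T
  have h1 : Continuous (fun n : S2 => ((T, n) : ℝ × S2)) := continuous_const.prodMk continuous_id
  have hcf : ∀ i j, Continuous (fun n : S2 => cf (n : E3) (B T n) i j) := fun i j => (e6_cf hB.sm i j).comp h1
  have hz : ∀ k, Continuous (fun n : S2 => zB D B T n k) := by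
    intro k
    unfold zB
    exact continuous_finsetSum _ fun j _ => (hcf k j).mul (hζc j)
  have hcc : ∀ k, Continuous (fun n : S2 => cc (B T) n k) := fun k => NullU.EN1_slice (NullU.cc_smooth hB.sm k) T
  have hxx : ∀ k, Continuous (fun n : S2 => xB D B T n k) := by
    intro k
    unfold xB
    exact (hz k).sub (hcc k)
  refine Continuous.div (continuous_finsetSum _ fun k _ => (hxx k).pow 2) (hx.mul ha) fun n =>
    (mul_pos (NullU.u_pos hD hA hT0 n) (NullU.dA_pos hD n hT0.le)).ne'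

theorem e6_lin4 {a b c d : S2 → ℝ} (ia : Integrable a sm) (ib : Integrable b sm) (ic : Integrable c sm) (id : Integrable d sm) :
    ∫ n : S2, (-(a n) + 4 * b n - 8 * c n + d n) ∂sm =
      -(∫ n : S2, a n ∂sm) + 4 * (∫ n : S2, b n ∂sm) - 8 * (∫ n : S2, c n ∂sm) + ∫ n : S2, d n ∂sm := by
  have j1 : Integrable (fun n => -(a n)) sm := ia.neg
  have j2 : Integrable (fun n => 4 * b n) sm := ib.const_mul 4
  have j3 : Integrable (fun n => 8 * c n) sm := ic.const_mul 8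
  have j4 : Integrable (fun n => -(a n) + 4 * b n) sm := j1.add j2
  have j5 : Integrable (fun n => -(a n) + 4 * b n - 8 * c n) sm := j4.sub j3
  rw [integral_add (f := fun n => -(a n) + 4 * b n - 8 * c n) (g := d) j5 id,
    integral_sub (f := fun n => -(a n) + 4 * b n) (g := fun n => 8 * c n) j4 j3,
    integral_add (f := fun n => -(a n)) (g := fun n => 4 * b n) j1 j2, integral_neg, integral_const_mul, integral_const_mul]

theorem e6_lin3 {b c d : S2 → ℝ} (ib : Integrable b sm) (ic : Integrable c sm) (id : Integrable d sm) :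
    ∫ n : S2, (-4 * b n - 8 * c n + d n) ∂sm =
      -4 * (∫ n : S2, b n ∂sm) - 8 * (∫ n : S2, c n ∂sm) + ∫ n : S2, d n ∂sm := by
  have j2 : Integrable (fun n => -4 * b n) sm := ib.const_mul (-4)
  have j3 : Integrable (fun n => 8 * c n) sm := ic.const_mul 8
  have j5 : Integrable (fun n => -4 * b n - 8 * c n) sm := j2.sub j3
  rw [integral_add (f := fun n => -4 * b n - 8 * c n) (g := d) j5 id,
    integral_sub (f := fun n => -4 * b n) (g := fun n => 8 * c n) j2 j3, integral_const_mul, integral_const_mul]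

theorem e6_mono {a b c d f : S2 → ℝ} (ia : Continuous a) (ib : Continuous b) (ic : Continuous c) (id : Continuous d) (cf : Continuous f)
    (h : ∀ n, -(a n) + 4 * b n - 8 * c n + d n ≤ f n) : ∫ n : S2, (-(a n) + 4 * b n - 8 * c n + d n) ∂sm ≤ ∫ n : S2, f n ∂sm := by
  have j : Continuous (fun n => -(a n) + 4 * b n - 8 * c n + d n) :=
    ((ia.neg.add (continuous_const.mul ib)).sub (continuous_const.mul ic)).add id
  exact integral_mono (NullPen.integrable_sm j) (NullPen.integrable_sm cf) h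

/-- The inequality for one generator. -/
theorem e6_gen (hD : D.IsNull) (hA : D.AsympFlat) (hB : Frm D δ T B) (h0 : δ ≤ t0) (hT : t0 ≤ T)
    (hΛ : TestF t0 C Λ Λ1 W1) (n : S2) :
    -((∑ k, xB D B T n k ^ 2) / (D.exL T n * D.dA T n)) + 4 * (∫ s in t0..T, ∑ k, cc (B s) n k * Λ s n k) -
      8 * (∑ k, Λ T n k * ∑ j, cf (n : E3) (B T n) k j * YB (fun r => B r n) t0 (fun r => Λ r n) T j) +
      (∫ s in t0..T, kI (fun r => D.dA r n) (fun r => B r n) n t0 (fun r => Λ r n) (fun r => Λ1 r n) s) ≤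
      ∫ s in t0..T, (2 * (D.torSq s n * D.dA s n) + D.ρ s n * D.dA s n) := by
  have c0 : ∀ i, ContinuousOn (fun t => Λ t n i) (Ici t0) := fun i => e5_time (F := fun t n => Λ t n i) (hΛ.c0 i) n
  have c1 : ∀ i, ContinuousOn (fun t => Λ1 t n i) (Ici t0) := fun i => e5_time (F := fun t n => Λ1 t n i) (hΛ.c1 i) n
  have h2 := e2 hD hA hB h0 hT n (Λ := fun r => Λ r n) c0 (fun s hs => hΛ.tan s hs n)
  have h3 := e3 hD hB h0 hT n (Λ := fun r => Λ r n) (Λ1 := fun r => Λ1 r n) c0 c1 (fun s hs i => hΛ.ds s hs n i)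
    (fun s hs => hΛ.tan s hs n)
  have hsub : Icc t0 T ⊆ Ici t0 := fun x hx => hx.1
  have i1 : IntervalIntegrable (fun s => 4 * ∑ k, cc (B s) n k * Λ s n k) volume t0 T :=
    (((e5_time (F := fun s n => ∑ k, cc (B s) n k * Λ s n k) (e6_cK hB hΛ) n).const_mul 4).mono hsub).intervalIntegrable_of_Icc hT
  have i2 : IntervalIntegrable (fun s => 2 * D.dA s n * (∑ k, Λ s n k ^ 2) +
        8 * (∑ k, Λ s n k * ∑ j, cf (n : E3) (dB B s n) k j * YB (fun r => B r n) t0 (fun r => Λ r n) s j)) volume t0 T :=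
    ((e5_time (F := fun s n => 2 * D.dA s n * (∑ k, Λ s n k ^ 2) +
        8 * (∑ k, Λ s n k * ∑ j, cf (n : E3) (dB B s n) k j * YB (fun r => B r n) t0 (fun r => Λ r n) s j))
        (e6_jI hD hB hΛ) n).mono hsub).intervalIntegrable_of_Icc hT
  rw [intervalIntegral.integral_sub i1 i2, intervalIntegral.integral_const_mul, h3] at h2
  unfold kI
  linarith

theorem e6 (hD : D.IsNull) (hA : D.AsympFlat) (htr : ∀ n : S2, D.θ 0 n ≤ 0) (hB : Frm D δ T B) (h0 : δ ≤ t0) (hT : t0 ≤ T)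
    (hΛ : TestF t0 C Λ Λ1 W1) : Th D T ≤ 8 * Real.pi * T + (∫ n : S2, (∑ k, xB D B T n k ^ 2) / (D.exL T n * D.dA T n) ∂sm) -
      ∫ n : S2, qT D B t0 T Λ Λ1 W1 n ∂sm := by
  have ht0 : 0 < t0 := hB.pos.trans_le h0
  have hT0 : 0 < T := ht0.trans_le hT
  -- the integrand on the right
  have cR0 : Continuous (fun p : ℝ × S2 => D.ρ p.1 p.2 * D.dA p.1 p.2) := NullU.en2_rc hD
  have cF0 : ContinuousOn (fun p : ℝ × S2 => 2 * (D.torSq p.1 p.2 * D.dA p.1 p.2) + D.ρ p.1 p.2 * D.dA p.1 p.2) (Ici 0 ×ˢ univ) :=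
    (continuousOn_const.mul (NullU.tor_cont hD)).add cR0.continuousOn
  have cF : ContinuousOn (fun p : ℝ × S2 => 2 * (D.torSq p.1 p.2 * D.dA p.1 p.2) + D.ρ p.1 p.2 * D.dA p.1 p.2) (Ici t0 ×ˢ univ) :=
    cF0.mono (prod_mono_left (Ici_subset_Ici.2 ht0.le))
  -- step 1
  have hTh0 : Th D 0 ≤ 0 := by
    refine integral_nonpos fun n => ?_
    show D.θ 0 n * D.dA 0 n ≤ 0
    exact mul_nonpos_of_nonpos_of_nonneg (htr n) (Real.sqrt_nonneg _)
  have hK := NullU.en2_K hD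
  have hii : ∀ a b, 0 ≤ a → 0 ≤ b → IntervalIntegrable (fun t => 2 * tt D t + ∫ n : S2, D.ρ t n * D.dA t n ∂sm) volume a b := by
    intro a b ha hb
    refine (hK.mono ?_).intervalIntegrable
    intro t ht
    rw [uIcc, mem_Icc] at ht
    exact le_trans (le_inf ha hb) ht.1
  have h1 := NullU.theta_eq hD hT0.le
  rw [← intervalIntegral.integral_add_adjacent_intervals (hii 0 t0 le_rfl ht0.le) (hii t0 T ht0.le hT0.le)] at h1
  have h2 : 0 ≤ ∫ t in (0 : ℝ)..t0, (2 * tt D t + ∫ n : S2, D.ρ t n * D.dA t n ∂sm) := by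
    refine intervalIntegral.integral_nonneg ht0.le fun t ht => add_nonneg (mul_nonneg zero_le_two (NullU.tt_nonneg hD ht.1)) ?_
    exact integral_nonneg fun n => mul_nonneg (hD.ρ_nonneg t ht.1 n) (Real.sqrt_nonneg _)
  -- step 2
  have h3 : ∫ n : S2, (∫ s in t0..T, (2 * (D.torSq s n * D.dA s n) + D.ρ s n * D.dA s n)) ∂sm =
      ∫ t in t0..T, (2 * tt D t + ∫ n : S2, D.ρ t n * D.dA t n ∂sm) := by
    rw [e5_fub (F := fun s n => 2 * (D.torSq s n * D.dA s n) + D.ρ s n * D.dA s n) cF hT]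
    refine intervalIntegral.integral_congr fun t ht => ?_
    rw [uIcc_of_le hT] at ht
    have ht1 : 0 ≤ t := ht0.le.trans ht.1
    have i1 : Integrable (fun n : S2 => 2 * (D.torSq t n * D.dA t n)) sm :=
      (NullPen.integrable_sm (NullPen.cont_at (F := fun s n => D.torSq s n * D.dA s n) (NullU.tor_cont hD) ht1)).const_mul 2
    have i2 : Integrable (fun n : S2 => D.ρ t n * D.dA t n) sm :=
      NullPen.integrable_sm (NullPen.cont_at (F := fun s n => D.ρ s n * D.dA s n) cR0.continuousOn ht1)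
    rw [integral_add i1 i2, integral_const_mul]
    rfl
  -- step 3
  have cxx := xx_cont hD hA hB
  have ccK : Continuous (fun n : S2 => ∫ s in t0..T, ∑ k, cc (B s) n k * Λ s n k) :=
    e5_cont (F := fun s n => ∑ k, cc (B s) n k * Λ s n k) (e6_cK hB hΛ) hT
  have cbT := e6_bT hB hT hΛ
  have ckc := e6_kc hD hB hT hΛ
  have cpr := e6_prc hB hT hΛ
  have cFc : Continuous (fun n : S2 => ∫ s in t0..T, (2 * (D.torSq s n * D.dA s n) + D.ρ s n * D.dA s n)) :=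
    e5_cont (F := fun s n => 2 * (D.torSq s n * D.dA s n) + D.ρ s n * D.dA s n) cF hT
  have h4 := e6_mono cxx ccK cbT ckc cFc (fun n => e6_gen hD hA hB h0 hT hΛ n)
  rw [h3] at h4
  -- step 4
  have h5 : ∫ n : S2, (∫ s in t0..T, ∑ k, cc (B s) n k * Λ s n k) ∂sm =
      - ∫ n : S2, (∫ s in t0..T, pairB (B s n) (fun j k => W1 j s n k)) ∂sm := by
    rw [e5_fub (F := fun s n => ∑ k, cc (B s) n k * Λ s n k) (e6_cK hB hΛ) hT,
      e5_fub (F := fun s n => pairB (B s n) (fun j k => W1 j s n k)) (e6_pr hB hΛ) hT, ← intervalIntegral.integral_neg]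
    refine intervalIntegral.integral_congr fun s hs => ?_
    rw [uIcc_of_le hT] at hs
    exact e4 (M := B s) (fun i j => (hB.sm i j).comp (contDiff_const.prodMk contDiff_id)) (w := fun n => Λ s n)
      (W1 := fun j n => W1 j s n) (fun k => e5_at (F := fun s n => Λ s n k) (hΛ.c0 k) hs.1)
      (fun j k => e5_at (F := fun s n => W1 j s n k) (hΛ.cw j k) hs.1) (fun k => hΛ.dn s hs.1 k)
  have jx := NullPen.integrable_sm cxx
  have jc := NullPen.integrable_sm ccK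
  have jb := NullPen.integrable_sm cbT
  have jk := NullPen.integrable_sm ckc
  have jp := NullPen.integrable_sm cpr
  have h6 := e6_lin4 jx jc jb jk
  have h7 := e6_lin3 jp jb jk
  unfold qT
  rw [h6, h5] at h4
  rw [h7]
  linarith

end H17S
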