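import Mathlib

set_option autoImplicit false

/-!
Chunk E7 (S/M, pure Mathlib). Comparison of an integral up to `T` with an improper integral. `∫_a^T |g - f| <= (K/T) ∫_a^T (1+s)^-2 ds = (K/T) (1/(1+a) - 1/(1+T)) <= K/T`, `∫_(T,∞) |f| <= K/(1+T) <= K/T`;
`∫_(a,∞) f = ∫_a^T f + ∫_(T,∞) f` (`intervalIntegral.integral_interval_add_Ioi`). The primitive of `(1+s)^-2` is `-1/(1+s)`, limit `0`: `integral_Ioi_of_hasDerivAt_of_tendsto`; integrability: `integrableOn_Ioi_deriv_of_nonneg`.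
-/

open MeasureTheory Filter Topology Set

namespace H17S

theorem e7_prim (x : ℝ) (hx : 0 ≤ x) : HasDerivAt (fun t : ℝ => -(1 / (1 + t))) (1 / (1 + x) ^ 2) x := by
  have hx1 : (1 + x) ≠ 0 := by positivity
  have h0 : HasDerivAt (fun t : ℝ => 1 + t) 1 x := by
    simpa using (hasDerivAt_id x).const_add 1
  have h1 := h0.inv hx1 |>.neg
  refine (h1.congr_deriv ?_).congr_of_eventuallyEq (Eventually.of_forall fun t => ?_)
  · field_simp
  · simp

theorem e7_tend : Tendsto (fun t : ℝ => -(1 / (1 + t))) atTop (𝓝 0) := by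
  have h1 : Tendsto (fun t : ℝ => 1 + t) atTop atTop := tendsto_atTop_add_const_left _ 1 tendsto_id
  have h2 := (h1.const_div_atTop 1).neg
  rw [neg_zero] at h2
  exact h2

theorem e7_one {a : ℝ} (ha : 0 ≤ a) : IntegrableOn (fun s : ℝ => 1 / (1 + s) ^ 2) (Ioi a) ∧
    ∫ s in Ioi a, 1 / (1 + s) ^ 2 = 1 / (1 + a) := by
  have hd : ∀ x ∈ Ici a, HasDerivAt (fun t : ℝ => -(1 / (1 + t))) (1 / (1 + x) ^ 2) x :=
    fun x hx => e7_prim x (ha.trans hx)
  have hn : ∀ x ∈ Ioi a, 0 ≤ 1 / (1 + x) ^ 2 := by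
    intro x hx
    have : 0 < x := lt_of_le_of_lt ha hx
    positivity
  refine ⟨integrableOn_Ioi_deriv_of_nonneg' hd hn e7_tend, ?_⟩
  rw [integral_Ioi_of_hasDerivAt_of_nonneg' hd hn e7_tend]
  ring

theorem e7_fun (K : ℝ) : (fun s : ℝ => K / (1 + s) ^ 2) = fun s => K * (1 / (1 + s) ^ 2) := by
  funext s
  ring

theorem e7_intg {a : ℝ} (ha : 0 ≤ a) (K : ℝ) : IntegrableOn (fun s : ℝ => K / (1 + s) ^ 2) (Ioi a) := by
  rw [e7_fun]
  exact (e7_one ha).1.const_mul K

theorem e7_val {a : ℝ} (ha : 0 ≤ a) (K : ℝ) : ∫ s in Ioi a, K / (1 + s) ^ 2 = K / (1 + a) := by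
  rw [e7_fun, integral_const_mul, (e7_one ha).2]
  ring

theorem e7_fin {a b : ℝ} (ha : 0 ≤ a) (hab : a ≤ b) {K : ℝ} (hK : 0 ≤ K) : ∫ s in a..b, K / (1 + s) ^ 2 ≤ K := by
  rw [intervalIntegral.integral_of_le hab]
  have h1 : ∫ s in Ioc a b, K / (1 + s) ^ 2 ≤ ∫ s in Ioi a, K / (1 + s) ^ 2 := by
    apply setIntegral_mono_set (e7_intg ha K)
    · refine Eventually.of_forall fun s => ?_
      show (0 : ℝ) ≤ K / (1 + s) ^ 2
      positivity
    · exact Ioc_subset_Ioi_self.eventuallyLE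
  refine h1.trans ?_
  rw [e7_val ha, div_le_iff₀ (by positivity)]
  nlinarith

theorem e7 {f g : ℝ → ℝ} {a T K : ℝ} (ha : 0 ≤ a) (hT : a ≤ T) (hT1 : 1 ≤ T) (hK : 0 ≤ K) (cf : ContinuousOn f (Ici a))
    (cg : ContinuousOn g (Icc a T)) (hf : ∀ s, a ≤ s → |f s| ≤ K / (1 + s) ^ 2) (hg : ∀ s, a ≤ s → s ≤ T → |g s - f s| ≤ K / (1 + s) ^ 2 / T) :
    |(∫ s in a..T, g s) - ∫ s in Ioi a, f s| ≤ 2 * K / T := by
  have hT0 : 0 < T := by linarith
  have hint : ∀ b, a ≤ b → IntegrableOn f (Ioi b) := by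
    intro b hb
    refine Integrable.mono' (e7_intg (ha.trans hb) K) ?_ ?_
    · exact (cf.mono fun x (hx : b < x) => hb.trans hx.le).aestronglyMeasurable measurableSet_Ioi
    · refine (ae_restrict_mem measurableSet_Ioi).mono fun x hx => ?_
      exact hf x (hb.trans (le_of_lt hx))
  have hfi : IntervalIntegrable f volume a T :=
    (cf.mono (by rw [uIcc_of_le hT]; exact Icc_subset_Ici_self)).intervalIntegrable
  have hgi : IntervalIntegrable g volume a T :=
    (cg.mono (by rw [uIcc_of_le hT])).intervalIntegrable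
  have hKi : IntervalIntegrable (fun s : ℝ => K / (1 + s) ^ 2) volume a T := by
    rw [intervalIntegrable_iff_integrableOn_Ioc_of_le hT]
    exact (e7_intg ha K).mono_set Ioc_subset_Ioi_self
  have h1 := intervalIntegral.integral_interval_add_Ioi (hint a le_rfl) (hint T hT)
  have h2 : (∫ s in a..T, g s) - ∫ s in Ioi a, f s = (∫ s in a..T, (g s - f s)) - ∫ s in Ioi T, f s := by
    rw [intervalIntegral.integral_sub hgi hfi, ← h1]
    ring
  have h3 : |∫ s in a..T, (g s - f s)| ≤ K / T := by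
    have h4 : ‖∫ s in a..T, (g s - f s)‖ ≤ ∫ s in a..T, K / (1 + s) ^ 2 / T := by
      apply intervalIntegral.norm_integral_le_of_norm_le hT
      · exact Eventually.of_forall fun s hs => hg s hs.1.le hs.2
      · exact hKi.div_const T
    rw [intervalIntegral.integral_div] at h4
    refine h4.trans ?_
    exact div_le_div_of_nonneg_right (e7_fin ha hT hK) hT0.le
  have h5 : |∫ s in Ioi T, f s| ≤ K / T := by
    have h4 : ‖∫ s in Ioi T, f s‖ ≤ ∫ s in Ioi T, K / (1 + s) ^ 2 := by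
      apply norm_integral_le_of_norm_le (e7_intg hT0.le K)
      refine (ae_restrict_mem measurableSet_Ioi).mono fun x hx => ?_
      exact hf x (hT.trans (le_of_lt hx))
    rw [e7_val hT0.le] at h4
    refine h4.trans ?_
    apply div_le_div_of_nonneg_left hK hT0
    linarith
  rw [h2]
  calc |(∫ s in a..T, (g s - f s)) - ∫ s in Ioi T, f s| ≤ |∫ s in a..T, (g s - f s)| + |∫ s in Ioi T, f s| := abs_sub _ _
    _ ≤ K / T + K / T := add_le_add h3 h5
    _ = 2 * K / T := by ring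

end H17S
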