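import Pool.Agent.Lib.H17S.E6
import Pool.Agent.Lib.H17S.E7

set_option autoImplicit false

/-!
Chunk E8 (M). Elementary bounds for the integrands at one point `n`. `b`, `b'` are two paths of matrices, `l`, `l1` vectors, `w` the derivatives.
`e8_Y`: `|Σ_k b k i l k| <= 3 C^2/(1+s)^2`, `e7_fin`, `intervalIntegral.norm_integral_le_of_norm_le`. `e8_dY`: the same for `b - b'`. `e8_cf`: `|cf n M i j| <= 4 m` if all entries of `M` are `<= m` in absolute value (`|proj n i j| <= 1`: `AS2_P` in `H17U/AS2`).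
`e8_pr`: nine terms. `e8_k`: `|Σ_k l1 k Σ_j cf n b k j Y j| <= 9 * C/(1+s)^4 * 4 C (1+s) * 3 C^2`; `|6 a Σ l^2| <= 6 * 9 C^2 (1+s)^2 * 3 C^2/(1+s)^6` (`a <= 9 C^2 (1+s)^2`), all `<= const/(1+s)^2` because `1 + s >= 1`.
`e8_dk`: the first summand of `kI` is the same for `b` and `b'`; `cf b Y - cf b' Y' = cf (b - b') Y + cf b' (Y - Y')`. `e8_top`: the term at time `T` with `1/(1+T)^2 <= 1/T`.
-/

open MeasureTheory Filter Topology Set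
open scoped ContDiff

namespace H17S

open NullPen (E3 S2 sm proj)
open NullU (crs dtB cf Tng)

variable {t0 C T : ℝ} {b b' : ℝ → Fin 3 → Fin 3 → ℝ} {l l1 : ℝ → Fin 3 → ℝ} {w : Fin 3 → ℝ → Fin 3 → ℝ} {a : ℝ → ℝ}

theorem e8_sum {f : Fin 3 → ℝ} {m : ℝ} (h : ∀ k, |f k| ≤ m) : |∑ k, f k| ≤ 3 * m := by
  refine (Finset.abs_sum_le_sum_abs _ _).trans ?_
  refine (Finset.sum_le_sum fun k _ => h k).trans ?_
  simp

theorem e8_mul {x y p q : ℝ} (hx : |x| ≤ p) (hy : |y| ≤ q) : |x * y| ≤ p * q := by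
  rw [abs_mul]
  exact mul_le_mul hx hy (abs_nonneg _) ((abs_nonneg _).trans hx)

theorem e8_lcY {L m y : ℝ} {u : Fin 3 → ℝ} {c : Fin 3 → Fin 3 → ℝ} {v : Fin 3 → ℝ} (hu : ∀ k, |u k| ≤ L) (hc : ∀ k j, |c k j| ≤ m)
    (hv : ∀ j, |v j| ≤ y) : |∑ k, u k * ∑ j, c k j * v j| ≤ 3 * (L * (3 * (m * y))) :=
  e8_sum fun k => e8_mul (hu k) (e8_sum fun j => e8_mul (hc k j) (hv j))

theorem e8_ii {K : ℝ} {s : ℝ} (h0 : 0 ≤ t0) (hs : t0 ≤ s) : IntervalIntegrable (fun r : ℝ => K / (1 + r) ^ 2) volume t0 s := by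
  rw [intervalIntegrable_iff_integrableOn_Ioc_of_le hs]
  exact (e7_intg h0 K).mono_set Ioc_subset_Ioi_self

theorem e8_bl {x y s : ℝ} (hs : 0 ≤ s) (hx : |x| ≤ C * (1 + s)) (hy : |y| ≤ C / (1 + s) ^ 3) : |x * y| ≤ C ^ 2 / (1 + s) ^ 2 := by
  refine (e8_mul hx hy).trans (le_of_eq ?_)
  have h1 : (1 + s) ≠ 0 := by positivity
  field_simp

theorem e8_blT {x y s : ℝ} (hs : 0 ≤ s) (hT : T ≠ 0) (hx : |x| ≤ C * (1 + s) / T) (hy : |y| ≤ C / (1 + s) ^ 3) :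
    |x * y| ≤ C ^ 2 / (1 + s) ^ 2 / T := by
  refine (e8_mul hx hy).trans (le_of_eq ?_)
  have h1 : (1 + s) ≠ 0 := by positivity
  field_simp

theorem e8_Y (h0 : 0 ≤ t0) (hC : 0 ≤ C) (cb : ∀ i j, ContinuousOn (fun s => b s i j) (Ici t0)) (cl : ∀ i, ContinuousOn (fun s => l s i) (Ici t0))
    (hb : ∀ s, t0 ≤ s → s ≤ T → ∀ i j, |b s i j| ≤ C * (1 + s)) (hl : ∀ s, t0 ≤ s → ∀ i, |l s i| ≤ C / (1 + s) ^ 3) {s : ℝ} (hs : t0 ≤ s)
    (hsT : s ≤ T) (i : Fin 3) : |YB b t0 l s i| ≤ 3 * C ^ 2 := by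
  unfold YB
  have h1 : ‖∫ r in t0..s, ∑ k, b r k i * l r k‖ ≤ ∫ r in t0..s, 3 * C ^ 2 / (1 + r) ^ 2 := by
    apply intervalIntegral.norm_integral_le_of_norm_le hs
    · refine Eventually.of_forall fun r hr => ?_
      rw [Real.norm_eq_abs, mul_div_assoc]
      exact e8_sum fun k => e8_bl (h0.trans hr.1.le) (hb r hr.1.le (hr.2.trans hsT) k i) (hl r hr.1.le k)
    · exact e8_ii h0 hs
  exact h1.trans (e7_fin h0 hs (by positivity))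

theorem e8_cint (cb : ∀ i j, ContinuousOn (fun s => b s i j) (Ici t0)) (cl : ∀ i, ContinuousOn (fun s => l s i) (Ici t0)) {s : ℝ}
    (hs : t0 ≤ s) (i : Fin 3) : IntervalIntegrable (fun r => ∑ k, b r k i * l r k) volume t0 s := by
  have h1 : ContinuousOn (fun r => ∑ k, b r k i * l r k) (Ici t0) :=
    continuousOn_finsetSum _ fun k _ => (cb k i).mul (cl k)
  exact (h1.mono (by rw [uIcc_of_le hs]; exact Icc_subset_Ici_self)).intervalIntegrable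

theorem e8_dY (h0 : 0 ≤ t0) (hC : 0 ≤ C) (hT : 1 ≤ T) (cb : ∀ i j, ContinuousOn (fun s => b s i j) (Ici t0))
    (cb' : ∀ i j, ContinuousOn (fun s => b' s i j) (Ici t0)) (cl : ∀ i, ContinuousOn (fun s => l s i) (Ici t0))
    (hbb : ∀ s, t0 ≤ s → s ≤ T → ∀ i j, |b s i j - b' s i j| ≤ C * (1 + s) / T) (hl : ∀ s, t0 ≤ s → ∀ i, |l s i| ≤ C / (1 + s) ^ 3) {s : ℝ}
    (hs : t0 ≤ s) (hsT : s ≤ T) (i : Fin 3) : |YB b t0 l s i - YB b' t0 l s i| ≤ 3 * C ^ 2 / T := by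
  have hT0 : T ≠ 0 := by positivity
  unfold YB
  rw [← intervalIntegral.integral_sub (e8_cint cb cl hs i) (e8_cint cb' cl hs i)]
  have h1 : ‖∫ r in t0..s, ((∑ k, b r k i * l r k) - ∑ k, b' r k i * l r k)‖ ≤ ∫ r in t0..s, 3 * C ^ 2 / (1 + r) ^ 2 / T := by
    apply intervalIntegral.norm_integral_le_of_norm_le hs
    · refine Eventually.of_forall fun r hr => ?_
      rw [Real.norm_eq_abs, ← Finset.sum_sub_distrib, mul_div_assoc, mul_div_assoc]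
      refine e8_sum fun k => ?_
      rw [← sub_mul]
      exact e8_blT (h0.trans hr.1.le) hT0 (hbb r hr.1.le (hr.2.trans hsT) k i) (hl r hr.1.le k)
    · exact (e8_ii h0 hs).div_const T
  refine h1.trans ?_
  rw [intervalIntegral.integral_div]
  exact div_le_div_of_nonneg_right (e7_fin h0 hs (by positivity)) (by positivity)

theorem e8_cf (n : S2) {M : Fin 3 → Fin 3 → ℝ} {m : ℝ} (hM : ∀ i j, |M i j| ≤ m) (i j : Fin 3) : |cf n M i j| ≤ 4 * m := by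
  unfold cf
  have h1 : |(∑ k, M k k) * proj (n : E3) i j| ≤ 3 * m * 1 := e8_mul (e8_sum fun k => hM k k) (NullU.AS2_P n i j)
  have h2 := hM j i
  have h3 := abs_sub ((∑ k, M k k) * proj (n : E3) i j) (M j i)
  linarith

theorem e8_pr (hC : 0 ≤ C) {s : ℝ} (hs : 0 ≤ s) (hb : ∀ i j, |b s i j| ≤ C * (1 + s)) (hw : ∀ j i, |w j s i| ≤ C / (1 + s) ^ 3) :
    |pairB (b s) (fun j k => w j s k)| ≤ 9 * C ^ 2 / (1 + s) ^ 2 := by
  unfold pairB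
  have h1 : |∑ k, ∑ j, b s k j * w j s k| ≤ 3 * (3 * (C ^ 2 / (1 + s) ^ 2)) :=
    e8_sum fun k => e8_sum fun j => e8_bl hs (hb k j) (hw j k)
  refine h1.trans (le_of_eq ?_)
  ring

theorem e8_dpr (hC : 0 ≤ C) (hT : 1 ≤ T) {s : ℝ} (hs : 0 ≤ s) (hbb : ∀ i j, |b s i j - b' s i j| ≤ C * (1 + s) / T)
    (hw : ∀ j i, |w j s i| ≤ C / (1 + s) ^ 3) :
    |pairB (b s) (fun j k => w j s k) - pairB (b' s) (fun j k => w j s k)| ≤ 9 * C ^ 2 / (1 + s) ^ 2 / T := by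
  have hT0 : T ≠ 0 := by positivity
  unfold pairB
  have h1 : |∑ k, ∑ j, (b s k j - b' s k j) * w j s k| ≤ 3 * (3 * (C ^ 2 / (1 + s) ^ 2 / T)) :=
    e8_sum fun k => e8_sum fun j => e8_blT hs hT0 (hbb k j) (hw j k)
  have h2 : (∑ k, ∑ j, b s k j * w j s k) - ∑ k, ∑ j, b' s k j * w j s k = ∑ k, ∑ j, (b s k j - b' s k j) * w j s k := by
    rw [← Finset.sum_sub_distrib]
    refine Finset.sum_congr rfl fun k _ => ?_
    rw [← Finset.sum_sub_distrib]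
    refine Finset.sum_congr rfl fun j _ => ?_
    ring
  rw [h2]
  refine h1.trans (le_of_eq ?_)
  ring

theorem e8_p {s K : ℝ} (hK : 0 ≤ K) (hs : 0 ≤ s) (k : ℕ) : K / (1 + s) ^ (2 + k) ≤ K / (1 + s) ^ 2 := by
  apply div_le_div_of_nonneg_left hK (by positivity)
  exact pow_le_pow_right₀ (by linarith) (by omega)

theorem e8_k (n : S2) (hC : 0 ≤ C) {s : ℝ} (hs : 0 ≤ s) (ha : |a s| ≤ 9 * (C * (1 + s)) ^ 2) (hb : ∀ i j, |b s i j| ≤ C * (1 + s))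
    (hY : ∀ i, |YB b t0 l s i| ≤ 3 * C ^ 2) (hl : ∀ i, |l s i| ≤ C / (1 + s) ^ 3) (hl1 : ∀ i, |l1 s i| ≤ C / (1 + s) ^ 4) :
    |kI a b n t0 l l1 s| ≤ 1100 * C ^ 4 / (1 + s) ^ 2 := by
  have h1s : (1 + s) ≠ 0 := by positivity
  unfold kI
  have h1 : |a s * ∑ k, l s k ^ 2| ≤ 9 * (C * (1 + s)) ^ 2 * (3 * (C / (1 + s) ^ 3) ^ 2) := by
    refine e8_mul ha (e8_sum fun k => ?_)
    rw [abs_pow]
    exact pow_le_pow_left₀ (abs_nonneg _) (hl k) 2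
  have h1' : 9 * (C * (1 + s)) ^ 2 * (3 * (C / (1 + s) ^ 3) ^ 2) = 27 * C ^ 4 / (1 + s) ^ (2 + 2) := by
    field_simp
    ring
  have h1'' := e8_p (K := 27 * C ^ 4) (by positivity) hs 2
  have h2 := e8_lcY hl1 (e8_cf n hb) hY
  have h2' : 3 * (C / (1 + s) ^ 4 * (3 * (4 * (C * (1 + s)) * (3 * C ^ 2)))) = 108 * C ^ 4 / (1 + s) ^ (2 + 1) := by
    field_simp
    ring
  have h2'' := e8_p (K := 108 * C ^ 4) (by positivity) hs 1
  have e1 : 6 * a s * (∑ k, l s k ^ 2) = 6 * (a s * ∑ k, l s k ^ 2) := by ring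
  rw [e1]
  refine (abs_add_le _ _).trans ?_
  rw [abs_mul, abs_mul 8, abs_of_pos (by norm_num : (0 : ℝ) < 6), abs_of_pos (by norm_num : (0 : ℝ) < 8)]
  rw [h1'] at h1
  rw [h2'] at h2
  have e2 : 1100 * C ^ 4 / (1 + s) ^ 2 = 6 * (27 * C ^ 4 / (1 + s) ^ 2) + 8 * (108 * C ^ 4 / (1 + s) ^ 2) + 74 * C ^ 4 / (1 + s) ^ 2 := by ring
  have e3 : 0 ≤ 74 * C ^ 4 / (1 + s) ^ 2 := by positivity
  rw [e2]
  linarith

theorem e8_cfd (n : E3) (M M' : Fin 3 → Fin 3 → ℝ) (i j : Fin 3) : cf n M i j - cf n M' i j = cf n (fun i j => M i j - M' i j) i j := by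
  simp only [cf, Finset.sum_sub_distrib]
  ring

theorem e8_dk (n : S2) (hC : 0 ≤ C) (hT : 1 ≤ T) {s : ℝ} (hs : 0 ≤ s) (hb : ∀ i j, |b s i j| ≤ C * (1 + s)) (hb' : ∀ i j, |b' s i j| ≤ C * (1 + s))
    (hbb : ∀ i j, |b s i j - b' s i j| ≤ C * (1 + s) / T)
    (hY : ∀ i, |YB b t0 l s i| ≤ 3 * C ^ 2) (hYY : ∀ i, |YB b t0 l s i - YB b' t0 l s i| ≤ 3 * C ^ 2 / T) (hl1 : ∀ i, |l1 s i| ≤ C / (1 + s) ^ 4) :
    |kI a b n t0 l l1 s - kI a b' n t0 l l1 s| ≤ 1800 * C ^ 4 / (1 + s) ^ 2 / T := by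
  have hT0 : T ≠ 0 := by positivity
  have h1s : (1 + s) ≠ 0 := by positivity
  have e0 : kI a b n t0 l l1 s - kI a b' n t0 l l1 s =
      8 * ((∑ k, l1 s k * ∑ j, cf n (fun i j => b s i j - b' s i j) k j * YB b t0 l s j) +
        ∑ k, l1 s k * ∑ j, cf n (b' s) k j * (YB b t0 l s j - YB b' t0 l s j)) := by
    unfold kI
    have e1 : (∑ k, l1 s k * ∑ j, cf n (b s) k j * YB b t0 l s j) - (∑ k, l1 s k * ∑ j, cf n (b' s) k j * YB b' t0 l s j) =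
        (∑ k, l1 s k * ∑ j, cf n (fun i j => b s i j - b' s i j) k j * YB b t0 l s j) +
        ∑ k, l1 s k * ∑ j, cf n (b' s) k j * (YB b t0 l s j - YB b' t0 l s j) := by
      rw [← Finset.sum_sub_distrib, ← Finset.sum_add_distrib]
      refine Finset.sum_congr rfl fun k _ => ?_
      rw [← mul_sub, ← mul_add, ← Finset.sum_sub_distrib, ← Finset.sum_add_distrib]
      congr 1
      refine Finset.sum_congr rfl fun j _ => ?_
      rw [← e8_cfd]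
      ring
    linear_combination 8 * e1
  have h1 := e8_lcY hl1 (e8_cf n hbb) hY
  have h2 := e8_lcY hl1 (e8_cf n hb') hYY
  have h1' : 3 * (C / (1 + s) ^ 4 * (3 * (4 * (C * (1 + s) / T) * (3 * C ^ 2)))) = 108 * C ^ 4 / (1 + s) ^ (2 + 1) / T := by
    field_simp
    ring
  have h2' : 3 * (C / (1 + s) ^ 4 * (3 * (4 * (C * (1 + s)) * (3 * C ^ 2 / T)))) = 108 * C ^ 4 / (1 + s) ^ (2 + 1) / T := by
    field_simp
    ring
  have h3 := div_le_div_of_nonneg_right (e8_p (K := 108 * C ^ 4) (by positivity) hs 1) (by positivity : 0 ≤ T)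
  rw [e0, abs_mul, abs_of_pos (by norm_num : (0 : ℝ) < 8)]
  rw [h1'] at h1
  rw [h2'] at h2
  have h4 := abs_add_le (∑ k, l1 s k * ∑ j, cf n (fun i j => b s i j - b' s i j) k j * YB b t0 l s j)
    (∑ k, l1 s k * ∑ j, cf n (b' s) k j * (YB b t0 l s j - YB b' t0 l s j))
  have e2 : 1800 * C ^ 4 / (1 + s) ^ 2 / T = 16 * (108 * C ^ 4 / (1 + s) ^ 2 / T) + 72 * C ^ 4 / (1 + s) ^ 2 / T := by ring
  have e3 : 0 ≤ 72 * C ^ 4 / (1 + s) ^ 2 / T := by positivity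
  rw [e2]
  linarith

theorem e8_top (n : S2) (hC : 0 ≤ C) (hT : 1 ≤ T) (hb : ∀ i j, |b T i j| ≤ C * (1 + T)) (hY : ∀ i, |YB b t0 l T i| ≤ 3 * C ^ 2)
    (hl : ∀ i, |l T i| ≤ C / (1 + T) ^ 3) : |8 * (∑ k, l T k * ∑ j, cf n (b T) k j * YB b t0 l T j)| ≤ 900 * C ^ 4 / T := by
  have hT0 : 0 < T := by positivity
  have h1s : (1 + T) ≠ 0 := by positivity
  rw [abs_mul, abs_of_pos (by norm_num : (0 : ℝ) < 8)]
  have h1 := e8_lcY hl (e8_cf n hb) hY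
  have h1' : 3 * (C / (1 + T) ^ 3 * (3 * (4 * (C * (1 + T)) * (3 * C ^ 2)))) = 108 * C ^ 4 / (1 + T) ^ 2 := by
    field_simp
    ring
  rw [h1'] at h1
  have h2 : 108 * C ^ 4 / (1 + T) ^ 2 ≤ 108 * C ^ 4 / T := by
    apply div_le_div_of_nonneg_left (by positivity) hT0
    nlinarith
  have e2 : 900 * C ^ 4 / T = 8 * (108 * C ^ 4 / T) + 36 * C ^ 4 / T := by ring
  have e3 : 0 ≤ 36 * C ^ 4 / T := by positivity
  rw [e2]
  linarith

end H17S
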