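import Pool.Agent.Lib.H17S.W1

set_option autoImplicit false

/-!
H17S, module M: construction of the model functions (Taub-NUT rays). See PROOF.md, section 2. Parameters `(P, N, X)` with `P > 0` and
`X < Xc P N` (in module M `X` may be negative, so that derivatives at `X = 0` are two-sided). In the variable `x = P / r ∈ [0, 1]`
everything is a proper integral: `ff P N (P / x) = x² w(x)`. The functions of `s` are defined for all real `s` (`rm = P + s`, `Km = 0` for
`s ≤ 0`), so derivatives at `s = 0` are two-sided too.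
-/

open MeasureTheory Filter Topology Set

namespace H17S

/-- `w(x)`, with `f(P / x) = x² w(x)`. -/
noncomputable def wm (P N x : ℝ) : ℝ := (1 - x) * (P ^ 2 + N ^ 2 * x) / (P ^ 2 + N ^ 2 * x ^ 2) ^ 2

/-- The maximum of `f` on `[P, ∞)`. -/
noncomputable def Fmax (P N : ℝ) : ℝ := sSup ((fun x : ℝ => x ^ 2 * wm P N x) '' Icc 0 1)

/-- The critical value of `X`. -/
noncomputable def Xc (P N : ℝ) : ℝ := (Fmax P N)⁻¹

/-- The admissible parameters `(P, N, X)`. -/
def Om3 : Set (ℝ × ℝ × ℝ) := {p | 0 < p.1 ∧ p.2.2 < Xc p.1 p.2.1}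

/-- `G` as a function of `x = P / r`. -/
noncomputable def Gx (P N X x : ℝ) : ℝ := 1 - X * (x ^ 2 * wm P N x)

/-- The time as a function of `t = r - P` (`Sm = t` for `t ≤ 0`). -/
noncomputable def Sm (P N X t : ℝ) : ℝ := ∫ τ in (0 : ℝ)..t, 1 / √(GG P N X (P + max τ 0))

/-- `K` as a function of `t = r - P`. -/
noncomputable def Kt (P N X t : ℝ) : ℝ := ∫ τ in (0 : ℝ)..t, ff P N (P + max τ 0) / √(GG P N X (P + max τ 0)) ^ 3

/-- The inverse function of `Sm`. -/
noncomputable def tm (P N X s : ℝ) : ℝ := sSup {t | Sm P N X t ≤ s}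

/-- The radius `r(s)`. -/
noncomputable def rm (P N X s : ℝ) : ℝ := P + tm P N X s

/-- `K(s)`. -/
noncomputable def Km (P N X s : ℝ) : ℝ := Kt P N X (tm P N X s)

/-- `ν = 2 lim K`. -/
noncomputable def num (P N X : ℝ) : ℝ := 2 * P * ∫ x in (0 : ℝ)..1, wm P N x / √(Gx P N X x) ^ 3

/-- `β = lim (r(s) - s)`. -/
noncomputable def betam (P N X : ℝ) : ℝ := P - P * X * ∫ x in (0 : ℝ)..1, wm P N x / (√(Gx P N X x) * (1 + √(Gx P N X x)))

/-- `κ = 2 (β - P)`. -/
noncomputable def kapm (P N X : ℝ) : ℝ := 2 * (betam P N X - P)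

/-- The model with parameters `P, N, X`. -/
noncomputable def mo (P N X : ℝ) : Mo := ⟨P, N, X, betam P N X, num P N X / 2, rm P N X, Km P N X⟩

/-- `κ` of the model. -/
theorem mo_κ (P N X : ℝ) : (mo P N X).κ = kapm P N X := rfl

/-- `ν` of the model. -/
theorem mo_ν (P N X : ℝ) : (mo P N X).ν = num P N X := by
  change 2 * (num P N X / 2) = num P N X
  ring

end H17S
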