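import Pool.Agent.Lib.H17U.ND
import Pool.Agent.Lib.H17S.MDefs

set_option autoImplicit false

/-!
H17S: definitions on the sphere. See PROOF.md, sections 0, 4, 5.
-/

open MeasureTheory Filter Topology Set
open scoped ContDiff ComplexConjugate

namespace H17S

open NullPen (E3 S2 sm proj)
open NullU (rl crs dtB Tng)

/-- `n × v`. -/
def cr (n : E3) (v : Fin 3 → ℝ) : Fin 3 → ℝ := crs (fun i => n i) v

/-- Matrix of `J = n ×`: `(J v)_i = ∑ j, jm n i j * v j`. -/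
def jm (n : E3) (i j : Fin 3) : ℝ := cr n (fun k => if k = j then 1 else 0) i

/-- Smooth tangent vector field on the sphere. -/
structure TF (V : E3 → Fin 3 → ℝ) : Prop where
  sm : ∀ i, ContDiff ℝ ∞ (fun y => V y i)
  tan : ∀ n : S2, ∑ i, (n : E3) i * V n i = 0

/-- `|v|^2`. -/
def nsq (v : Fin 3 → ℝ) : ℝ := ∑ i, v i ^ 2

/-- Curl. -/
noncomputable def cl (V : E3 → Fin 3 → ℝ) (n : E3) : ℝ := ∑ j, rl j (fun y => V y j) n

/-- Divergence: curl of `n × V`. -/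
noncomputable def dv (V : E3 → Fin 3 → ℝ) (n : E3) : ℝ := ∑ j, rl j (fun y => cr y (V y) j) n

/-- Conformal part of the covariant derivative. -/
noncomputable def alD (V : E3 → Fin 3 → ℝ) (n : E3) : ℂ := ((dv V n : ℂ) + (cl V n : ℂ) * Complex.I) / 2

/-- Derivative of the components in the tangential directions: `(DV e_i)_k` for the ambient derivative, `e_i` projected. -/
noncomputable def dcomp (V : E3 → Fin 3 → ℝ) (n : E3) (k i : Fin 3) : ℝ := ∑ j, jm n j i * rl j (fun y => V y k) n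

/-- Matrix of the covariant derivative. -/
noncomputable def DV (V : E3 → Fin 3 → ℝ) (n : E3) (k i : Fin 3) : ℝ := ∑ l, proj n k l * dcomp V n l i

/-- Conformal part (complex number) of a tangential matrix. -/
noncomputable def aC (n : E3) (M : Fin 3 → Fin 3 → ℝ) : ℂ :=
  (((∑ i, M i i : ℝ) : ℂ) + ((∑ i, ∑ j, jm n i j * M i j : ℝ) : ℂ) * Complex.I) / 2

/-- `V^2 conj (anticonformal part)`. -/
noncomputable def qC (n : E3) (M : Fin 3 → Fin 3 → ℝ) (V : Fin 3 → ℝ) : ℂ :=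
  ((∑ i, ∑ j, V i * M i j * V j : ℝ) : ℂ) - ((∑ i, ∑ j, cr n V i * M i j * V j : ℝ) : ℂ) * Complex.I -
    (nsq V : ℂ) * conj (aC n M)

/-- `al_*` for the frames `B s` at the point `n` and the vector `V`. -/
noncomputable def alst (P N : ℝ) (B : ℝ → Fin 3 → Fin 3 → ℝ) (n : E3) (V : Fin 3 → ℝ) : ℂ :=
  - (betam P N (nsq V) : ℂ) - (N : ℂ) * Complex.I - 4 / (num P N (nsq V) : ℂ) *
    ∫ t in Ioi (0 : ℝ), (conj ((mo P N (nsq V)).ac t) * (aC n (B t) - (t : ℂ)) - (mo P N (nsq V)).lamX t * qC n (B t) V)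

/-- The scaled and shifted frames, `0 <= τ <= 1`: for `τ > 0` this is `τ Bi (δ + (1 - τ + s)/τ)`, for `τ = 0` it is `(1 + s) P`. -/
noncomputable def Bt (Bi : ℝ → S2 → Fin 3 → Fin 3 → ℝ) (δ τ s : ℝ) (n : S2) (i j : Fin 3) : ℝ :=
  (1 - τ + s) * proj n i j + τ * (Bi (δ + (1 - τ + s) / τ) n i j - (1 - τ + s) / τ * proj n i j)

/-- Properties of the family of frames used for the existence theorem. -/
structure Fam (B : ℝ → ℝ → S2 → Fin 3 → Fin 3 → ℝ) (C : ℝ) : Prop where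
  C_nonneg : 0 ≤ C
  cont : ∀ i j, ContinuousOn (fun p : ℝ × ℝ × S2 => B p.1 p.2.1 p.2.2 i j) (Icc 0 1 ×ˢ Ici 0 ×ˢ univ)
  bd : ∀ τ ∈ Icc (0 : ℝ) 1, ∀ s, 0 ≤ s → ∀ n : S2, ∀ i j, |B τ s n i j - s * proj n i j| ≤ C
  lip : ∀ τ ∈ Icc (0 : ℝ) 1, ∀ s, 0 ≤ s → ∀ n m : S2, ∀ i j,
    |(B τ s n i j - s * proj n i j) - (B τ s m i j - s * proj m i j)| ≤ C * ‖(n : E3) - m‖
  zero : ∀ s, 0 ≤ s → ∀ n : S2, ∀ i j, B 0 s n i j = (1 + s) * proj n i j

/-- The global inequality (hypothesis of the existence theorem). -/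
def GI (B : ℝ → ℝ → S2 → Fin 3 → Fin 3 → ℝ) (cA C0 : ℝ) : Prop :=
  ∀ τ ∈ Ioc (0 : ℝ) 1, ∀ P N : ℝ, 0 < P → ∀ V : E3 → Fin 3 → ℝ, TF V → (∀ n : S2, nsq (V n) < Xc P N) →
    (cA + 4 * Real.pi * (P ^ 2 + N ^ 2)) / P -
      ∫ n : S2, num P N (nsq (V n)) * ‖alD V n - alst P N (fun s => B τ s n) n (V n)‖ ^ 2 ∂sm ≤ C0

/-- The existence theorem (statement of module X). -/
def Existence : Prop := ∀ (B : ℝ → ℝ → S2 → Fin 3 → Fin 3 → ℝ) (C cA C0 : ℝ), Fam B C → 0 < cA → GI B cA C0 →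
  ∀ η, 0 < η → ∃ (P N : ℝ) (V : E3 → Fin 3 → ℝ), 0 < P ∧ TF V ∧ (∀ n : S2, nsq (V n) < Xc P N) ∧
    ∫ n : S2, num P N (nsq (V n)) * ‖alD V n - alst P N (fun s => B 1 s n) n (V n)‖ ^ 2 ∂sm ≤ η

end H17S
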