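import Pool.Agent.Lib.H17U.FN
import Pool.Agent.Lib.H17S.SD
import Pool.Agent.Lib.H74Q.E0

set_option autoImplicit false

/-!
H17S, module F: frames at infinity and complex coordinates in the tangent planes. See PROOF.md, sections 0 and 6.
-/

open MeasureTheory Filter Topology Set
open scoped ContDiff ComplexConjugate

namespace H17S

open NullPen (E3 S2 sm proj pd MatterData NullData)
open NullU (Frm Tng dtB rotB crs cf mh dB rl hh)

/-! ### Complex coordinates in the tangent plane -/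

/-- Scalar product. -/
def dt3 (v w : Fin 3 → ℝ) : ℝ := ∑ i, v i * w i

/-- `M w`. -/
def mv3 (M : Fin 3 → Fin 3 → ℝ) (w : Fin 3 → ℝ) (i : Fin 3) : ℝ := ∑ j, M i j * w j

/-- `M N`. -/
def mm3 (M N : Fin 3 → Fin 3 → ℝ) (i j : Fin 3) : ℝ := ∑ k, M i k * N k j

/-- `n × e`. -/
def nx (n : E3) (e : Fin 3 → ℝ) : Fin 3 → ℝ := crs (fun k => n k) e

/-- `e` is a unit tangent vector at `n`. -/
structure Ut (n : E3) (e : Fin 3 → ℝ) : Prop where
  tan : ∑ i, n i * e i = 0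
  unit : ∑ i, e i ^ 2 = 1

/-- Complex coordinate of the tangent vector `w` in the basis `e`, `n × e`. -/
noncomputable def vc (n : E3) (e w : Fin 3 → ℝ) : ℂ := ⟨dt3 e w, dt3 (nx n e) w⟩

/-- Conformal part of a tangential matrix: `M w = al w + be (conj w)`; it does not depend on the basis. -/
noncomputable def ale (n : E3) (M : Fin 3 → Fin 3 → ℝ) : ℂ :=
  ⟨(∑ i, M i i) / 2, (∑ i, (n (i + 1) * M i (i + 2) - n (i + 2) * M i (i + 1))) / 2⟩

/-- Anticonformal part of a tangential matrix in the basis `e`, `n × e`. -/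
noncomputable def bec (n : E3) (e : Fin 3 → ℝ) (M : Fin 3 → Fin 3 → ℝ) : ℂ :=
  ⟨(dt3 e (mv3 M e) - dt3 (nx n e) (mv3 M (nx n e))) / 2, (dt3 (nx n e) (mv3 M e) + dt3 e (mv3 M (nx n e))) / 2⟩

/-! ### The frame at infinity -/

/-- A parallel frame for the times `s >= δ`, normalised at infinity; `b0` is the limit of `sqrt dA - s`. -/
structure FInf (D : MatterData) (δ C : ℝ) (Bi : ℝ → S2 → Fin 3 → Fin 3 → ℝ) (b0 : S2 → ℝ) : Prop where
  pos : 0 < δ
  C_nonneg : 0 ≤ C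
  cont : ∀ i j, ContinuousOn (fun p : ℝ × S2 => Bi p.1 p.2 i j) (Ici δ ×ˢ univ)
  tng : ∀ s, δ ≤ s → ∀ n : S2, Tng n (Bi s n)
  gram : ∀ s, δ ≤ s → ∀ n : S2, ∀ i j, ∑ k, Bi s n k i * Bi s n k j = D.g s n i j
  dt : ∀ s, δ ≤ s → ∀ n : S2, dtB (Bi s n) = D.dA s n
  bd : ∀ s, δ ≤ s → ∀ n : S2, ∀ i j, |Bi s n i j - s * proj n i j| ≤ C
  near : ∀ T, 1 ≤ T → ∀ B, Frm D δ T B → ∀ s, δ ≤ s → s ≤ T → ∀ n : S2, ∀ i j,
    |B s n i j - Bi s n i j| ≤ C * (1 + s) / T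
  lim_b : ∀ n : S2, Tendsto (fun s => Real.sqrt (D.dA s n) - s) atTop (𝓝 (b0 n))
  le_b : ∀ s, 0 ≤ s → ∀ n : S2, Real.sqrt (D.dA s n) - s ≤ b0 n
  abs_b : ∀ n : S2, |b0 n| ≤ C

/-- Derivative along the generators, behaviour of the conformal part at infinity, Lipschitz bound. -/
structure FInf2 (D : MatterData) (δ C : ℝ) (Bi : ℝ → S2 → Fin 3 → Fin 3 → ℝ) : Prop where
  der : ∀ s, δ < s → ∀ n : S2, ∃ M : Fin 3 → Fin 3 → ℝ, Tng n M ∧ (∀ i j, M i j = M j i) ∧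
    (∑ k, M k k = D.exL s n) ∧ (∑ i, ∑ j, M i j ^ 2 = D.chiSq s n) ∧
    ∀ i j, HasDerivAt (fun t => Bi t n i j) (mm3 M (Bi s n) i j) s
  im : ∀ n : S2, Tendsto (fun s => (ale n (Bi s n)).im) atTop (𝓝 0)
  lip : ∀ s, δ ≤ s → ∀ n m : S2, ∀ i j,
    |(Bi s n i j - s * proj n i j) - (Bi s m i j - s * proj m i j)| ≤ C * dist n m

/-! ### The scaled frames and the paths -/

/-- The starting time `t0 = δ + (1 - τ)/τ`. -/
noncomputable def tst (δ τ : ℝ) : ℝ := δ + (1 - τ) / τ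

open Classical in
/-- The matrix of the null second fundamental form in the frame. -/
noncomputable def chF {D : MatterData} {δ C : ℝ} {Bi : ℝ → S2 → Fin 3 → Fin 3 → ℝ} (h : FInf2 D δ C Bi) (s : ℝ) (n : S2) :
    Fin 3 → Fin 3 → ℝ :=
  if hs : δ < s then (h.der s hs n).choose else fun _ _ => 0

/-- The path of the generator `n` in the basis `e`, `n × e`, scaled by `τ`. -/
noncomputable def pth {D : MatterData} {δ C : ℝ} {Bi : ℝ → S2 → Fin 3 → Fin 3 → ℝ} (h : FInf2 D δ C Bi) (b0 : S2 → ℝ) (τ : ℝ)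
    (n : S2) (e : Fin 3 → ℝ) : Pa where
  A s := ale n (Bt Bi δ τ s n)
  B s := bec n e (Bt Bi δ τ s n)
  u s := D.exL (tst δ τ + s / τ) n / τ
  m1 s := bec n e (chF h (tst δ τ + s / τ) n) / (τ : ℂ)
  e s := D.e (tst δ τ + s / τ) n / τ ^ 2
  bN := τ * (b0 n + tst δ τ)

end H17S
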