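import Pool.Agent.Lib.H17S.E8
import Pool.Agent.Lib.H17S.FDefs

set_option autoImplicit false

/-!
Chunk E9 (M). The functional for the frame symmetric at `T` converges, uniformly in `n`, with the rate `1/T`. Let `C'` be a common constant for `hI` and `hΛ`; with `C0 = 1 + 2 |C|` (and `C0 >= |Cl|`): `|Bi s n i j| <= s + C <= C0 (1+s)`, `|B s n i j| <= C0 (1+s)` (`near`, `T >= 1`),
`|B - Bi| <= C0 (1+s)/T`, `dA s n = dtB (Bi s n)`, `|dtB M| <= 9 m^2` for entries `<= m`. Then `e7` for `pr` (constants `9 C0^2`) and for `kI` (`1800 C0^4`), `e8_top`. `qI_cont`: `e5_tail` with the bounds `e8_pr`, `e8_k` (`YB` continuous: `e5_prim`).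
The continuity in `s` of the integrands: `B` smooth, `Bi` by `FInf.cont` (`e5_time`), `YB` by `e5_prim`, `dA_cont`.
-/

open MeasureTheory Filter Topology Set
open scoped ContDiff

namespace H17S

open NullPen (E3 S2 sm proj pd MatterData NullData Th)
open NullU (rl crs dtB cf Tng Cu cc Frm zB qB xB tt dB mh)
open NullQ (rt HR)

variable {D : MatterData} {δ T t0 C Cl : ℝ} {Bi : ℝ → S2 → Fin 3 → Fin 3 → ℝ} {b0 : S2 → ℝ} {Λ Λ1 : ℝ → S2 → Fin 3 → ℝ} {W1 : Fin 3 → ℝ → S2 → Fin 3 → ℝ}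

/-- The common constant. -/
noncomputable def e9c (C Cl : ℝ) : ℝ := 1 + 2 * C + |Cl|

theorem e9c_pos (hC : 0 ≤ C) : 0 < e9c C Cl := by
  unfold e9c
  have := abs_nonneg Cl
  linarith

theorem e9c_C (hC : 0 ≤ C) : 1 + 2 * C ≤ e9c C Cl := by
  unfold e9c
  have := abs_nonneg Cl
  linarith

theorem e9c_l (hC : 0 ≤ C) : Cl ≤ e9c C Cl := by
  unfold e9c
  have := le_abs_self Cl
  linarith

theorem e9_bi0 (hI : FInf D δ C Bi b0) {s : ℝ} (hs : δ ≤ s) (n : S2) (i j : Fin 3) : |Bi s n i j| ≤ s + C := by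
  have hs0 : 0 ≤ s := hI.pos.le.trans hs
  have h1 := hI.bd s hs n i j
  have h2 : |s * proj (n : E3) i j| ≤ s := by
    rw [abs_mul, abs_of_nonneg hs0]
    have h3 := mul_le_mul_of_nonneg_left (NullU.AS2_P n i j) hs0
    linarith
  have h4 : Bi s n i j = (Bi s n i j - s * proj (n : E3) i j) + s * proj (n : E3) i j := by ring
  rw [h4]
  refine (abs_add_le _ _).trans ?_
  linarith

theorem e9_bi (hI : FInf D δ C Bi b0) {s : ℝ} (hs : δ ≤ s) (n : S2) (i j : Fin 3) : |Bi s n i j| ≤ e9c C Cl * (1 + s) := by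
  have hs0 : 0 ≤ s := hI.pos.le.trans hs
  have h1 := e9_bi0 hI hs n i j
  have hC := hI.C_nonneg
  have h2 : (1 + 2 * C) * (1 + s) ≤ e9c C Cl * (1 + s) := mul_le_mul_of_nonneg_right (e9c_C hC) (by linarith)
  have h3 : 0 ≤ C * s := mul_nonneg hC hs0
  nlinarith

theorem e9_dtB {M : Fin 3 → Fin 3 → ℝ} {m : ℝ} (h : ∀ i j, |M i j| ≤ m) : |dtB M| ≤ 9 * m ^ 2 := by
  unfold dtB
  have h1 : |∑ i, M i i| ≤ 3 * m := e8_sum fun k => h k k
  have h2 : |∑ i, ∑ j, M i j * M j i| ≤ 3 * (3 * (m * m)) := e8_sum fun i => e8_sum fun j => e8_mul (h i j) (h j i)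
  have h3 : |(∑ i, M i i) * (∑ i, M i i)| ≤ (3 * m) * (3 * m) := e8_mul h1 h1
  rw [abs_div, abs_two, sq]
  have h4 := abs_sub ((∑ i, M i i) * (∑ i, M i i)) (∑ i, ∑ j, M i j * M j i)
  rw [div_le_iff₀ two_pos]
  nlinarith

theorem e9_a (hI : FInf D δ C Bi b0) {s : ℝ} (hs : δ ≤ s) (n : S2) : |D.dA s n| ≤ 9 * (e9c C Cl * (1 + s)) ^ 2 := by
  rw [← hI.dt s hs n]
  exact e9_dtB fun i j => e9_bi hI hs n i j

theorem e9_b (hI : FInf D δ C Bi b0) (hT : 1 ≤ T) {B : ℝ → E3 → Fin 3 → Fin 3 → ℝ} (hB : Frm D δ T B) {s : ℝ} (hs : δ ≤ s) (hsT : s ≤ T)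
    (n : S2) (i j : Fin 3) : |B s n i j| ≤ e9c C Cl * (1 + s) := by
  have hs0 : 0 ≤ s := hI.pos.le.trans hs
  have hC := hI.C_nonneg
  have h1 := e9_bi0 hI hs n i j
  have h2 := hI.near T hT B hB s hs hsT n i j
  have h3 : C * (1 + s) / T ≤ C * (1 + s) := div_le_self (by positivity) hT
  have h4 : B s n i j = (B s n i j - Bi s n i j) + Bi s n i j := by ring
  have h5 : (1 + 2 * C) * (1 + s) ≤ e9c C Cl * (1 + s) := mul_le_mul_of_nonneg_right (e9c_C hC) (by linarith)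
  have h6 : 0 ≤ C * s := mul_nonneg hC hs0
  rw [h4]
  refine (abs_add_le _ _).trans ?_
  nlinarith

theorem e9_bb (hI : FInf D δ C Bi b0) (hT : 1 ≤ T) {B : ℝ → E3 → Fin 3 → Fin 3 → ℝ} (hB : Frm D δ T B) {s : ℝ} (hs : δ ≤ s) (hsT : s ≤ T)
    (n : S2) (i j : Fin 3) : |B s n i j - Bi s n i j| ≤ e9c C Cl * (1 + s) / T := by
  have hs0 : 0 ≤ s := hI.pos.le.trans hs
  have hC := hI.C_nonneg
  refine (hI.near T hT B hB s hs hsT n i j).trans ?_
  have h1 : C ≤ e9c C Cl := by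
    have := e9c_C (Cl := Cl) hC
    linarith
  exact div_le_div_of_nonneg_right (mul_le_mul_of_nonneg_right h1 (by linarith)) (by linarith)

theorem e9_div {x : ℝ} (hC : 0 ≤ C) {s : ℝ} (hs : 0 ≤ s) (k : ℕ) (h : |x| ≤ Cl / (1 + s) ^ k) : |x| ≤ e9c C Cl / (1 + s) ^ k :=
  h.trans (div_le_div_of_nonneg_right (e9c_l hC) (by positivity))

theorem e9_prc (hI : FInf D δ C Bi b0) (h0 : δ ≤ t0) (hΛ : TestF t0 Cl Λ Λ1 W1) :
    ContinuousOn (fun p : ℝ × S2 => pairB (Bi p.1 p.2) (fun j k => W1 j p.1 p.2 k)) (Ici t0 ×ˢ univ) := by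
  unfold pairB
  exact continuousOn_finsetSum _ fun k _ => continuousOn_finsetSum _ fun j _ =>
    ((hI.cont k j).mono (prod_mono (Ici_subset_Ici.2 h0) (Subset.refl _))).mul (hΛ.cw j k)

theorem e9_kc (hD : D.IsNull) (hI : FInf D δ C Bi b0) (h0 : δ ≤ t0) (hΛ : TestF t0 Cl Λ Λ1 W1) :
    ContinuousOn (fun p : ℝ × S2 => kI (fun r => D.dA r p.2) (fun r => Bi r p.2) p.2 t0 (fun r => Λ r p.2) (fun r => Λ1 r p.2) p.1)
      (Ici t0 ×ˢ univ) := by
  have hb : ∀ i j, ContinuousOn (fun p : ℝ × S2 => Bi p.1 p.2 i j) (Ici t0 ×ˢ univ) := fun i j =>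
    (hI.cont i j).mono (prod_mono (Ici_subset_Ici.2 h0) (Subset.refl _))
  have hY : ∀ i, ContinuousOn (fun p : ℝ × S2 => YB (fun r => Bi r p.2) t0 (fun r => Λ r p.2) p.1 i) (Ici t0 ×ˢ univ) := by
    intro i
    unfold YB
    refine e5_prim (F := fun r n => ∑ k, Bi r n k i * Λ r n k) ?_
    exact continuousOn_finsetSum _ fun k _ => (hb k i).mul (hΛ.c0 k)
  have hcf : ∀ i j, ContinuousOn (fun p : ℝ × S2 => cf (p.2 : E3) (Bi p.1 p.2) i j) (Ici t0 ×ˢ univ) := by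
    intro i j
    unfold cf
    exact ((continuousOn_finsetSum _ fun k _ => hb k k).mul (e6_proj i j).continuousOn).sub (hb j i)
  have hA : ContinuousOn (fun p : ℝ × S2 => D.dA p.1 p.2) (Ici t0 ×ˢ univ) :=
    (NullU.dA_cont hD).mono (prod_mono (Ici_subset_Ici.2 (hI.pos.le.trans h0)) (Subset.refl _))
  unfold kI
  refine ((continuousOn_const.mul hA).mul (continuousOn_finsetSum _ fun k _ => (hΛ.c0 k).pow 2)).add (continuousOn_const.mul ?_)
  exact continuousOn_finsetSum _ fun k _ => (hΛ.c1 k).mul (continuousOn_finsetSum _ fun j _ => (hcf k j).mul (hY j))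

theorem e9_kcB (hD : D.IsNull) {B : ℝ → E3 → Fin 3 → Fin 3 → ℝ} (hB : Frm D δ T B) (h0 : δ ≤ t0) (hΛ : TestF t0 Cl Λ Λ1 W1) :
    ContinuousOn (fun p : ℝ × S2 => kI (fun r => D.dA r p.2) (fun r => B r p.2) p.2 t0 (fun r => Λ r p.2) (fun r => Λ1 r p.2) p.1)
      (Ici t0 ×ˢ univ) := by
  have hA : ContinuousOn (fun p : ℝ × S2 => D.dA p.1 p.2) (Ici t0 ×ˢ univ) :=
    (NullU.dA_cont hD).mono (prod_mono (Ici_subset_Ici.2 (hB.pos.le.trans h0)) (Subset.refl _))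
  unfold kI
  refine ((continuousOn_const.mul hA).mul (continuousOn_finsetSum _ fun k _ => (hΛ.c0 k).pow 2)).add (continuousOn_const.mul ?_)
  exact e6_quad (l := Λ1) hB.sm hB hΛ hΛ.c1

theorem e9_Yi (hI : FInf D δ C Bi b0) (h0 : δ ≤ t0) (hΛ : TestF t0 Cl Λ Λ1 W1) (n : S2) {s : ℝ} (hs : t0 ≤ s) (i : Fin 3) :
    |YB (fun r => Bi r n) t0 (fun r => Λ r n) s i| ≤ 3 * e9c C Cl ^ 2 := by
  have ht : 0 ≤ t0 := hI.pos.le.trans h0
  have hC := hI.C_nonneg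
  refine e8_Y (T := s) ht (e9c_pos hC).le (fun i j => ?_) (fun i => e5_time (F := fun r n => Λ r n i) (hΛ.c0 i) n) (fun r hr _ i j => ?_)
    (fun r hr i => e9_div hC (ht.trans hr) 3 (hΛ.b0 r hr n i)) hs le_rfl i
  · exact e5_time (F := fun r n => Bi r n i j) ((hI.cont i j).mono (prod_mono (Ici_subset_Ici.2 h0) (Subset.refl _))) n
  · exact e9_bi hI (h0.trans hr) n i j

theorem e9_kb (hI : FInf D δ C Bi b0) (h0 : δ ≤ t0) (hΛ : TestF t0 Cl Λ Λ1 W1) (n : S2) {s : ℝ} (hs : t0 ≤ s) :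
    |kI (fun r => D.dA r n) (fun r => Bi r n) n t0 (fun r => Λ r n) (fun r => Λ1 r n) s| ≤ 1100 * e9c C Cl ^ 4 / (1 + s) ^ 2 := by
  have ht : 0 ≤ t0 := hI.pos.le.trans h0
  have hC := hI.C_nonneg
  exact e8_k n (e9c_pos hC).le (ht.trans hs) (e9_a hI (h0.trans hs) n) (fun i j => e9_bi hI (h0.trans hs) n i j)
    (fun i => e9_Yi hI h0 hΛ n hs i) (fun i => e9_div hC (ht.trans hs) 3 (hΛ.b0 s hs n i))
    (fun i => e9_div hC (ht.trans hs) 4 (hΛ.b1 s hs n i))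

theorem e9_pb (hI : FInf D δ C Bi b0) (h0 : δ ≤ t0) (hΛ : TestF t0 Cl Λ Λ1 W1) (n : S2) {s : ℝ} (hs : t0 ≤ s) :
    |pairB (Bi s n) (fun j k => W1 j s n k)| ≤ 9 * e9c C Cl ^ 2 / (1 + s) ^ 2 := by
  have ht : 0 ≤ t0 := hI.pos.le.trans h0
  have hC := hI.C_nonneg
  exact e8_pr (b := fun s => Bi s n) (w := fun j s => W1 j s n) (e9c_pos hC).le (ht.trans hs) (fun i j => e9_bi hI (h0.trans hs) n i j)
    (fun j i => e9_div hC (ht.trans hs) 3 (hΛ.bw j s hs n i))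

theorem qI_cont (hD : D.IsNull) (hI : FInf D δ C Bi b0) (h0 : δ ≤ t0) (hΛ : TestF t0 Cl Λ Λ1 W1) : Continuous (qI D Bi t0 Λ Λ1 W1) := by
  have ht : 0 ≤ t0 := hI.pos.le.trans h0
  unfold qI
  refine (continuous_const.mul ?_).add ?_
  · exact e5_tail (F := fun s n => pairB (Bi s n) (fun j k => W1 j s n k)) (e9_prc hI h0 hΛ) ht fun s hs n => e9_pb hI h0 hΛ n hs
  · exact e5_tail (F := fun s n => kI (fun r => D.dA r n) (fun r => Bi r n) n t0 (fun r => Λ r n) (fun r => Λ1 r n) s)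
      (e9_kc hD hI h0 hΛ) ht fun s hs n => e9_kb hI h0 hΛ n hs

theorem e9 (hD : D.IsNull) (hI : FInf D δ C Bi b0) (h0 : δ ≤ t0) (hΛ : TestF t0 Cl Λ Λ1 W1) :
    ∃ K, 0 ≤ K ∧ ∀ T B, 1 ≤ T → t0 ≤ T → Frm D δ T B → ∀ n : S2, |qT D B t0 T Λ Λ1 W1 n - qI D Bi t0 Λ Λ1 W1 n| ≤ K / T := by
  have ht : 0 ≤ t0 := hI.pos.le.trans h0
  have hC := hI.C_nonneg
  have hM := (e9c_pos (Cl := Cl) hC).le
  refine ⟨72 * e9c C Cl ^ 2 + 4500 * e9c C Cl ^ 4, by positivity, ?_⟩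
  intro T B hT htT hB n
  have hT0 : 0 < T := by linarith
  have cB : ∀ i j, ContinuousOn (fun s => B s n i j) (Ici t0) := fun i j =>
    e5_time (F := fun s n => B s n i j) (e6_B (L := fun t y => B t y i j) (hB.sm i j)).continuousOn n
  have cBi : ∀ i j, ContinuousOn (fun s => Bi s n i j) (Ici t0) := fun i j =>
    e5_time (F := fun r n => Bi r n i j) ((hI.cont i j).mono (prod_mono (Ici_subset_Ici.2 h0) (Subset.refl _))) n
  have cl : ∀ i, ContinuousOn (fun s => Λ s n i) (Ici t0) := fun i => e5_time (F := fun r n => Λ r n i) (hΛ.c0 i) n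
  have bl : ∀ s, t0 ≤ s → ∀ i, |Λ s n i| ≤ e9c C Cl / (1 + s) ^ 3 := fun s hs i => e9_div hC (ht.trans hs) 3 (hΛ.b0 s hs n i)
  have bl1 : ∀ s, t0 ≤ s → ∀ i, |Λ1 s n i| ≤ e9c C Cl / (1 + s) ^ 4 := fun s hs i => e9_div hC (ht.trans hs) 4 (hΛ.b1 s hs n i)
  have bB : ∀ s, t0 ≤ s → s ≤ T → ∀ i j, |B s n i j| ≤ e9c C Cl * (1 + s) := fun s hs hsT i j =>
    e9_b hI hT hB (h0.trans hs) hsT n i j
  have bBi : ∀ s, t0 ≤ s → ∀ i j, |Bi s n i j| ≤ e9c C Cl * (1 + s) := fun s hs i j => e9_bi hI (h0.trans hs) n i j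
  have bBB : ∀ s, t0 ≤ s → s ≤ T → ∀ i j, |B s n i j - Bi s n i j| ≤ e9c C Cl * (1 + s) / T := fun s hs hsT i j =>
    e9_bb hI hT hB (h0.trans hs) hsT n i j
  have hYB : ∀ s, t0 ≤ s → s ≤ T → ∀ i, |YB (fun r => B r n) t0 (fun r => Λ r n) s i| ≤ 3 * e9c C Cl ^ 2 := fun s hs hsT i =>
    e8_Y (b := fun r => B r n) (l := fun r => Λ r n) (T := T) ht hM cB cl bB bl hs hsT i
  have hYY : ∀ s, t0 ≤ s → s ≤ T → ∀ i, |YB (fun r => B r n) t0 (fun r => Λ r n) s i - YB (fun r => Bi r n) t0 (fun r => Λ r n) s i| ≤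
      3 * e9c C Cl ^ 2 / T := fun s hs hsT i =>
    e8_dY (b := fun r => B r n) (b' := fun r => Bi r n) (l := fun r => Λ r n) (T := T) ht hM hT cB cBi cl bBB bl hs hsT i
  have h1 : |(∫ s in t0..T, pairB (B s n) (fun j k => W1 j s n k)) - ∫ s in Ioi t0, pairB (Bi s n) (fun j k => W1 j s n k)| ≤
      2 * (9 * e9c C Cl ^ 2) / T := by
    refine e7 ht htT hT (by positivity) (e5_time (F := fun s n => pairB (Bi s n) (fun j k => W1 j s n k)) (e9_prc hI h0 hΛ) n)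
      ((e5_time (F := fun s n => pairB (B s n) (fun j k => W1 j s n k)) (e6_pr hB hΛ) n).mono Icc_subset_Ici_self)
      (fun s hs => e9_pb hI h0 hΛ n hs) (fun s hs hsT => ?_)
    exact e8_dpr (b := fun s => B s n) (b' := fun s => Bi s n) (w := fun j s => W1 j s n) hM hT (ht.trans hs) (bBB s hs hsT)
      (fun j i => e9_div hC (ht.trans hs) 3 (hΛ.bw j s hs n i))
  have h2 : |(∫ s in t0..T, kI (fun r => D.dA r n) (fun r => B r n) n t0 (fun r => Λ r n) (fun r => Λ1 r n) s) -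
      ∫ s in Ioi t0, kI (fun r => D.dA r n) (fun r => Bi r n) n t0 (fun r => Λ r n) (fun r => Λ1 r n) s| ≤
      2 * (1800 * e9c C Cl ^ 4) / T := by
    refine e7 ht htT hT (by positivity)
      (e5_time (F := fun s n => kI (fun r => D.dA r n) (fun r => Bi r n) n t0 (fun r => Λ r n) (fun r => Λ1 r n) s) (e9_kc hD hI h0 hΛ) n)
      ((e5_time (F := fun s n => kI (fun r => D.dA r n) (fun r => B r n) n t0 (fun r => Λ r n) (fun r => Λ1 r n) s)
        (e9_kcB hD hB h0 hΛ) n).mono Icc_subset_Ici_self)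
      (fun s hs => ?_) (fun s hs hsT => ?_)
    · refine (e9_kb hI h0 hΛ n hs).trans ?_
      have h3 : 0 ≤ e9c C Cl ^ 4 := by positivity
      exact div_le_div_of_nonneg_right (by linarith) (by positivity)
    · exact e8_dk n hM hT (ht.trans hs) (bB s hs hsT) (bBi s hs) (bBB s hs hsT) (hYB s hs hsT) (hYY s hs hsT) (bl1 s hs)
  have h3 := e8_top (b := fun r => B r n) (l := fun r => Λ r n) (t0 := t0) n hM hT (bB T htT le_rfl) (hYB T htT le_rfl) (bl T htT)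
  unfold qT qI
  have e1 : ∀ P P' K K' X : ℝ, -4 * P - X + K - (-4 * P' + K') = -4 * (P - P') - X + (K - K') := by
    intro P P' K K' X
    ring
  rw [e1]
  refine (abs_add_le _ _).trans ?_
  refine (add_le_add_left (abs_sub _ _) _).trans ?_
  rw [abs_mul, abs_neg, abs_of_pos (by norm_num : (0 : ℝ) < 4)]
  have e2 : (72 * e9c C Cl ^ 2 + 4500 * e9c C Cl ^ 4) / T = 4 * (2 * (9 * e9c C Cl ^ 2) / T) + 900 * e9c C Cl ^ 4 / T +
      2 * (1800 * e9c C Cl ^ 4) / T := by ring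
  rw [e2]
  have h4 := mul_le_mul_of_nonneg_left h1 (by norm_num : (0 : ℝ) ≤ 4)
  linarith

end H17S
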