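import Pool.Agent.Lib.H17U.NE
import Pool.Agent.Lib.H17U.EN2
import Pool.Agent.Lib.H17U.LM2
import Pool.Agent.Lib.H17U.RD
import Pool.Agent.Lib.H74Q.E0
import Pool.Agent.Lib.H74Q.E0B
import Pool.Agent.Lib.H17S.SD

set_option autoImplicit false

/-!
H17S, module E (energy inequality with a test field): definitions. See PROOF.md, section 1. All objects live on the sphere `S2`; derivatives along the
rotation fields are `NullQ.HR` (H74Q/E0).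
-/

open MeasureTheory Filter Topology Set
open scoped ContDiff

namespace H17S

open NullPen (E3 S2 sm proj pd MatterData NullData Th)
open NullU (rl crs dtB cf Tng Cu cc Frm zB qB xB tt dB)
open NullQ (rt HR)

/-- `Λ` is a test field for the times `s >= t0`: tangent, `Λ1` its derivative in `s`, `W1 j` the derivative of `n × Λ` along the rotation field `e_j × n`. -/
structure TestF (t0 C : ℝ) (Λ Λ1 : ℝ → S2 → Fin 3 → ℝ) (W1 : Fin 3 → ℝ → S2 → Fin 3 → ℝ) : Prop where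
  tan : ∀ s, t0 ≤ s → ∀ n : S2, ∑ i, (n : E3) i * Λ s n i = 0
  c0 : ∀ i, ContinuousOn (fun p : ℝ × S2 => Λ p.1 p.2 i) (Ici t0 ×ˢ univ)
  c1 : ∀ i, ContinuousOn (fun p : ℝ × S2 => Λ1 p.1 p.2 i) (Ici t0 ×ˢ univ)
  cw : ∀ j i, ContinuousOn (fun p : ℝ × S2 => W1 j p.1 p.2 i) (Ici t0 ×ˢ univ)
  ds : ∀ s, t0 < s → ∀ n : S2, ∀ i, HasDerivAt (fun t => Λ t n i) (Λ1 s n i) s
  dn : ∀ s, t0 ≤ s → ∀ k, HR (fun n => crs (fun i => (n : E3) i) (Λ s n) k) (fun j n => W1 j s n k)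
  b0 : ∀ s, t0 ≤ s → ∀ n : S2, ∀ i, |Λ s n i| ≤ C / (1 + s) ^ 3
  b1 : ∀ s, t0 ≤ s → ∀ n : S2, ∀ i, |Λ1 s n i| ≤ C / (1 + s) ^ 4
  bw : ∀ j s, t0 ≤ s → ∀ n : S2, ∀ i, |W1 j s n i| ≤ C / (1 + s) ^ 3

/-- `y = B^-T Y`. -/
noncomputable def yB (D : MatterData) (B : ℝ → E3 → Fin 3 → Fin 3 → ℝ) (Y : ℝ → Fin 3 → ℝ) (n : S2) (s : ℝ) (k : Fin 3) : ℝ :=
  (∑ j, cf n (B s n) k j * Y s j) / D.dA s n

/-- `Y = ∫ Bᵀ Λ`. -/
noncomputable def YB (B : ℝ → Fin 3 → Fin 3 → ℝ) (t0 : ℝ) (Λ : ℝ → Fin 3 → ℝ) (s : ℝ) (i : Fin 3) : ℝ :=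
  ∫ r in t0..s, ∑ k, B r k i * Λ r k

/-- `4 x · y + 4 a' |y|^2`. -/
noncomputable def GB (D : MatterData) (B : ℝ → E3 → Fin 3 → Fin 3 → ℝ) (Y : ℝ → Fin 3 → ℝ) (n : S2) (s : ℝ) : ℝ :=
  4 * ∑ k, xB D B s n k * yB D B Y n s k + 4 * (D.exL s n * D.dA s n) * ∑ k, yB D B Y n s k ^ 2

/-- `Σ B k j W1 j k`, that is `<cof B, D Λ>`. -/
def pairB (M : Fin 3 → Fin 3 → ℝ) (w : Fin 3 → Fin 3 → ℝ) : ℝ := ∑ k, ∑ j, M k j * w j k

end H17S
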