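import Pool.Agent.Lib.H17S.F.F8
import Pool.Agent.Lib.H17S.F.F16

set_option autoImplicit false

/-!
Chunk F17 (S/M). Output of module F (existence of the frame at infinity): assembly.
Proof. `B0` a frame for `δ/4, δ/4 + 1` (`NullU.exists_frame`), `ph_lim` (F8) with `δ1 = δ/2`: `K`, `φ`. `Bi s n = Fr.wB (fun n => conj (φ n)) B0 s n`. `FInf D δ C Bi b0` and `FInf2 D δ C Bi` with `C` the maximum (or sum) of the constants:
`cont`: `wb_cont` (`ContinuousOn` from `Continuous`; `conj φ` is continuous), `tng`, `gram`, `dt`: `wb_tng`, `wb_gram`, `wb_dt` (`δ/4 <= δ <= s`), `bd`: `wb_bd`, `near`: `wb_near` with `δ` (`δ/4 < δ`; `hK` restricted from `s >= δ/2`), `lim_b`, `le_b`, `abs_b`: `b0_ex`.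
`der`: `wb_der`; `im`: `wb_im`; `lip`: `bi_lip` (F16) with `hbd` from `wb_bd` and `hnear` from `wb_near` with `δ/2` in place of `δ` (`δ/4 < δ/2`). Enlarge the constants (`C * x <= C' * x`).
-/

open MeasureTheory Filter Topology Set
open scoped ContDiff ComplexConjugate

namespace H17S

open NullPen (E3 S2 sm proj MatterData)
open Fr

variable {D : MatterData}

/-- The frame at infinity. -/
theorem exists_finf (hD : D.IsNull) (hA : D.AsympFlat) {δ : ℝ} (hδ : 0 < δ) :
    ∃ (C : ℝ) (Bi : ℝ → S2 → Fin 3 → Fin 3 → ℝ) (b0 : S2 → ℝ), FInf D δ C Bi b0 ∧ FInf2 D δ C Bi := by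
  obtain ⟨B0, hB0⟩ := NullU.exists_frame hD (δ := δ / 4) (T := δ / 4 + 1) (by positivity) (by linarith)
  obtain ⟨K, φ, hK0, hφc, hφ1, hK⟩ := ph_lim hD hA hB0 (δ1 := δ / 2) (by linarith)
  have hcont : Continuous (fun n => conj (φ n)) := Complex.continuous_conj.comp hφc
  have hn1 : ∀ n, ‖conj (φ n)‖ = 1 := fun n => by rw [Complex.norm_conj, hφ1]
  have hKδ : ∀ s, δ ≤ s → ∀ n : S2, ‖ale n (B0 s n) / (‖ale n (B0 s n)‖ : ℂ) - φ n‖ ≤ K / (s * Real.sqrt s) :=
    fun s hs n => hK s (by linarith) n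
  obtain ⟨C1, hC1, hbd⟩ := wb_bd hD hA hB0 (δ := δ) (by linarith) hφ1 hKδ
  obtain ⟨C2, hC2, hnear⟩ := wb_near hD hA hB0 (δ := δ) (by linarith) hφ1 hKδ
  obtain ⟨C2', hC2', hnear'⟩ := wb_near hD hA hB0 (δ := δ / 2) (by linarith) hφ1 hK
  obtain ⟨C3, hC3, hlip⟩ := bi_lip hD hA hδ (Bi := fun s n => Fr.wB (fun n => conj (φ n)) B0 s n) hbd (C2 := C2')
    (fun T hT B hB s hs hsT n i j => hnear' T hT B hB s (by linarith) hsT n i j)
  obtain ⟨C4, b0, hC4, hb0⟩ := b0_ex hD hA
  refine ⟨C1 + C2 + C3 + C4, fun s n => Fr.wB (fun n => conj (φ n)) B0 s n, b0, ?_, ?_⟩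
  · refine ⟨hδ, by positivity, fun i j => (wb_cont hB0 hcont i j).continuousOn, ?_, ?_, ?_, ?_, ?_, ?_, ?_, ?_⟩
    · intro s hs n
      exact wb_tng hB0 (by linarith) n
    · intro s hs n i j
      exact wb_gram hB0 hn1 (by linarith) n i j
    · intro s hs n
      exact wb_dt hB0 hn1 (by linarith) n
    · intro s hs n i j
      have := hbd s hs n i j
      linarith
    · intro T hT B hB s hs hsT n i j
      refine (hnear T hT B hB s hs hsT n i j).trans ?_
      have hT0 : 0 < T := by linarith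
      have hs0 : 0 ≤ 1 + s := by linarith
      exact div_le_div_of_nonneg_right (mul_le_mul_of_nonneg_right (by linarith) hs0) hT0.le
    · intro n
      exact (hb0 n).1
    · intro s hs n
      exact (hb0 n).2.1 s hs
    · intro n
      have := (hb0 n).2.2
      linarith
  · refine ⟨?_, ?_, ?_⟩
    · intro s hs n
      exact wb_der hD hB0 hn1 (by linarith) n
    · intro n
      exact wb_im hD hA hB0 (δ := δ) (by linarith) hφ1 hKδ n
    · intro s hs n m i j
      refine (hlip s hs n m i j).trans ?_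
      exact mul_le_mul_of_nonneg_right (by linarith) dist_nonneg

end H17S
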