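import Pool.Agent.Lib.H17S.F.P1
import Pool.Agent.Lib.H17S.F.P2

set_option autoImplicit false

/-!
Output of module F: the scaled frame gives a path in the sense of `Def.lean`; complex coordinates.
-/

open MeasureTheory Filter Topology Set
open scoped ComplexConjugate

namespace H17S

open NullPen (E3 S2 sm proj MatterData)
open Fr

variable {D : MatterData}

/-- `ale` is `aC` of `SD.lean`. -/
theorem ale_eq_aC (n : E3) (M : Fin 3 → Fin 3 → ℝ) : ale n M = aC n M := f2_eq_aC n M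

/-- `qC` of `SD.lean` in the basis `e`, `n × e`. -/
theorem qC_eq (n : S2) {e : Fin 3 → ℝ} (he : Ut n e) {M : Fin 3 → Fin 3 → ℝ} (hM : NullU.Tng n M) {V : Fin 3 → ℝ}
    (hV : ∑ i, (n : E3) i * V i = 0) : qC n M V = vc n e V ^ 2 * conj (bec n e M) := f2_qC n he hM hV

theorem path_ok (hD : D.IsNull) (hA : D.AsympFlat) {δ C : ℝ} {Bi : ℝ → S2 → Fin 3 → Fin 3 → ℝ} {b0 : S2 → ℝ}
    (h1 : FInf D δ C Bi b0) (h2 : FInf2 D δ C Bi) {τ : ℝ} (hτ : 0 < τ) (hτ1 : τ ≤ 1) (n : S2) {e : Fin 3 → ℝ} (he : Ut n e) :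
    (pth h2 b0 τ n e).Ok where
  cA := p_cA h1 h2 hτ hτ1 n he
  cB := p_cB h1 h2 hτ hτ1 n he
  cu := p_cu hD h1 h2 hτ hτ1 n he
  dA := fun _ hs => p_dA h1 h2 hτ hτ1 n he hs
  dB := fun _ hs => p_dB h1 h2 hτ hτ1 n he hs
  du := fun _ hs => p_du hD h1 h2 hτ hτ1 n he hs
  e_nonneg := fun _ hs => p_e hD h1 h2 hτ hτ1 n he hs
  a_pos := fun _ hs => p_apos hD h1 h2 hτ hτ1 n he hs
  u_pos := fun _ hs => p_upos hD hA h1 h2 hτ hτ1 n he hs
  bdd := p_bdd h1 h2 hτ hτ1 n he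
  im := p_im h1 h2 hτ hτ1 n he
  lim := p_lim h1 h2 hτ hτ1 n he
  lim1 := p_lim1 hD hA h1 h2 hτ hτ1 n he

end H17S
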