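import Pool.Agent.Lib.H17S.SD

set_option autoImplicit false

/-!
Chunk Z1 (M). The scaled frames form a family (`Fam`), `C' = 2 C + 2`.
`Bt Bi δ τ s n - s P = (1 - τ) P + τ (Bi (δ + t) n - t P)` with `t = (1 - τ + s)/τ` for `τ > 0`, and `Bi (δ + t) - t P = (Bi (δ + t) - (δ + t) P) + δ P` is bounded by `C + δ` and Lipschitz with the constant `C + 2 δ`
(`|proj n i j - proj m i j| <= 2 |n - m|`); for `τ = 0`: `Bt = (1 + s) P`. So choose `C' = C + 2 δ + 4`.
Continuity on `[0,1] × [0,∞) × S2`: for `τ > 0` clear (`hcont`, `δ0 < δ`, `δ + t >= δ0`); at `τ = 0`: `|Bt - (1 + s) P| <= τ |P| + τ (C + δ)`.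
-/

open MeasureTheory Filter Topology Set

namespace H17S

open NullPen (E3 S2 sm proj)

theorem z1_coord (n : S2) (i : Fin 3) : |(n : E3) i| ≤ 1 := by
  have h1 : ‖(n : E3) i‖ ≤ ‖(n : E3)‖ := PiLp.norm_apply_le _ _
  have h2 : ‖(n : E3)‖ = 1 := by
    have := n.2
    simpa using this
  rw [h2] at h1
  simpa using h1

theorem z1_proj_abs (n : S2) (i j : Fin 3) : |proj (n : E3) i j| ≤ 1 := by
  have hi := z1_coord n i
  have hj := z1_coord n j
  unfold proj
  by_cases hij : i = j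
  · subst hij
    rw [if_pos rfl]
    have h1 : (n : E3) i * (n : E3) i ≤ 1 := by
      have := mul_le_mul hi hi (abs_nonneg _) zero_le_one
      rw [abs_mul_abs_self, one_mul] at this
      exact this
    have h2 : 0 ≤ (n : E3) i * (n : E3) i := mul_self_nonneg _
    rw [abs_le]
    constructor <;> linarith
  · rw [if_neg hij, zero_sub, abs_neg, abs_mul]
    calc |(n : E3) i| * |(n : E3) j| ≤ 1 * 1 := mul_le_mul hi hj (abs_nonneg _) zero_le_one
      _ = 1 := one_mul 1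

theorem z1_diff (n m : E3) (i : Fin 3) : |n i - m i| ≤ ‖n - m‖ := by
  have h1 : ‖(n - m) i‖ ≤ ‖n - m‖ := PiLp.norm_apply_le _ _
  simpa using h1

theorem z1_proj_lip (n m : S2) (i j : Fin 3) :
    |proj (n : E3) i j - proj (m : E3) i j| ≤ 2 * ‖(n : E3) - m‖ := by
  have hni := z1_coord n j
  have hmi := z1_coord m i
  have h1 := z1_diff (n : E3) m i
  have h2 := z1_diff (n : E3) m j
  have e : proj (n : E3) i j - proj (m : E3) i j =
      -((m : E3) i * ((n : E3) j - (m : E3) j) + ((n : E3) i - (m : E3) i) * (n : E3) j) := by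
    unfold proj
    ring
  rw [e, abs_neg]
  refine (abs_add_le _ _).trans ?_
  rw [abs_mul, abs_mul]
  have h3 : |(m : E3) i| * |(n : E3) j - (m : E3) j| ≤ 1 * ‖(n : E3) - m‖ :=
    mul_le_mul hmi h2 (abs_nonneg _) zero_le_one
  have h4 : |(n : E3) i - (m : E3) i| * |(n : E3) j| ≤ ‖(n : E3) - m‖ * 1 :=
    mul_le_mul h1 hni (abs_nonneg _) (norm_nonneg _)
  linarith

theorem z1_proj_cont (i j : Fin 3) : Continuous (fun n : E3 => proj n i j) := by
  unfold proj
  fun_prop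

/-- the bounded part -/
theorem z1_part {δ0 C : ℝ} {Bi : ℝ → S2 → Fin 3 → Fin 3 → ℝ}
    (hbd : ∀ s, δ0 ≤ s → ∀ n : S2, ∀ i j, |Bi s n i j - s * proj (n : E3) i j| ≤ C)
    (hδ0' : 0 < δ0) {δ : ℝ} (hδ : δ0 ≤ δ) {t : ℝ} (ht : 0 ≤ t) (n : S2) (i j : Fin 3) :
    |Bi (δ + t) n i j - t * proj n i j| ≤ C + δ := by
  have hδ0 : 0 < δ := hδ0'.trans_le hδ
  have h1 := hbd (δ + t) (by linarith) n i j
  have h2 := z1_proj_abs n i j
  have e : Bi (δ + t) n i j - t * proj n i j =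
      (Bi (δ + t) n i j - (δ + t) * proj n i j) + δ * proj n i j := by ring
  rw [e]
  refine (abs_add_le _ _).trans ?_
  rw [abs_mul, abs_of_pos hδ0]
  have h3 : δ * |proj (n : E3) i j| ≤ δ * 1 := mul_le_mul_of_nonneg_left h2 hδ0.le
  linarith

theorem fam_of {δ0 C : ℝ} {Bi : ℝ → S2 → Fin 3 → Fin 3 → ℝ}
    (hcont : ∀ i j, ContinuousOn (fun p : ℝ × S2 => Bi p.1 p.2 i j) (Ici δ0 ×ˢ univ))
    (hbd : ∀ s, δ0 ≤ s → ∀ n : S2, ∀ i j, |Bi s n i j - s * proj (n : E3) i j| ≤ C)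
    (hlip : ∀ s, δ0 ≤ s → ∀ n m : S2, ∀ i j,
      |(Bi s n i j - s * proj (n : E3) i j) - (Bi s m i j - s * proj (m : E3) i j)| ≤ C * ‖(n : E3) - m‖)
    (hδ0' : 0 < δ0) (hC : 0 ≤ C) {δ : ℝ} (hδ : δ0 ≤ δ) :
    Fam (Bt Bi δ) (C + 2 * δ + 4) := by
  have hδ0 : 0 < δ := hδ0'.trans_le hδ
  have hzero : ∀ s (n : S2) i j, Bt Bi δ 0 s n i j = (1 + s) * proj n i j := by
    intro s n i j
    unfold Bt
    rw [zero_mul, add_zero, sub_zero]
  have htn : ∀ τ ∈ Icc (0 : ℝ) 1, ∀ s, 0 ≤ s → 0 ≤ (1 - τ + s) / τ := by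
    intro τ hτ s hs
    exact div_nonneg (by linarith [hτ.2]) hτ.1
  refine ⟨by linarith, ?_, ?_, ?_, fun s _ n i j => hzero s n i j⟩
  · intro i j
    rintro ⟨τ0, s0, n0⟩ ⟨hτ0, hs0, -⟩
    have hτ0' : τ0 ∈ Icc (0 : ℝ) 1 := hτ0
    have hs0' : 0 ≤ s0 := hs0
    by_cases h0 : τ0 = 0
    · subst h0
      have hg : ContinuousWithinAt (fun p : ℝ × ℝ × S2 => (1 + p.2.1) * proj (p.2.2 : E3) i j)
          (Icc 0 1 ×ˢ Ici 0 ×ˢ univ) (0, s0, n0) := by
        have : Continuous (fun p : ℝ × ℝ × S2 => (1 + p.2.1) * proj (p.2.2 : E3) i j) := by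
          have h1 := z1_proj_cont i j
          have h2 : Continuous (fun p : ℝ × ℝ × S2 => (p.2.2 : E3)) := by fun_prop
          have h3 := h1.comp h2
          exact (continuous_const.add (continuous_fst.comp continuous_snd)).mul h3
        exact this.continuousWithinAt
      have hd : ContinuousWithinAt (fun p : ℝ × ℝ × S2 => Bt Bi δ p.1 p.2.1 p.2.2 i j -
          (1 + p.2.1) * proj (p.2.2 : E3) i j) (Icc 0 1 ×ˢ Ici 0 ×ˢ univ) (0, s0, n0) := by
        unfold ContinuousWithinAt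
        have e0 : Bt Bi δ (0 : ℝ) s0 n0 i j - (1 + s0) * proj (n0 : E3) i j = 0 := by
          rw [hzero]; ring
        show Tendsto _ _ (𝓝 (Bt Bi δ (0 : ℝ) s0 n0 i j - (1 + s0) * proj (n0 : E3) i j))
        rw [e0]
        refine squeeze_zero_norm' (a := fun p : ℝ × ℝ × S2 => p.1 * (1 + C + δ)) ?_ ?_
        · filter_upwards [self_mem_nhdsWithin] with p hp
          obtain ⟨hp1, hp2, -⟩ := hp
          have e1 : Bt Bi δ p.1 p.2.1 p.2.2 i j - (1 + p.2.1) * proj (p.2.2 : E3) i j =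
              p.1 * (-proj (p.2.2 : E3) i j + (Bi (δ + (1 - p.1 + p.2.1) / p.1) p.2.2 i j -
                (1 - p.1 + p.2.1) / p.1 * proj (p.2.2 : E3) i j)) := by
            unfold Bt
            ring
          rw [e1, Real.norm_eq_abs, abs_mul, abs_of_nonneg hp1.1]
          refine mul_le_mul_of_nonneg_left ?_ hp1.1
          refine (abs_add_le _ _).trans ?_
          rw [abs_neg]
          have h2 := z1_proj_abs p.2.2 i j
          have h3 := z1_part hbd hδ0' hδ (htn p.1 hp1 p.2.1 hp2) p.2.2 i j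
          linarith
        · have h1 : Tendsto (fun p : ℝ × ℝ × S2 => p.1 * (1 + C + δ)) (𝓝 (0, s0, n0)) (𝓝 (0 * (1 + C + δ))) := by
            have : Continuous (fun p : ℝ × ℝ × S2 => p.1 * (1 + C + δ)) := by fun_prop
            exact this.tendsto (0, s0, n0)
          rw [zero_mul] at h1
          exact h1.mono_left nhdsWithin_le_nhds
      have hsum := hd.add hg
      refine hsum.congr (fun p _ => ?_) ?_
      · show _ = Bt Bi δ p.1 p.2.1 p.2.2 i j - (1 + p.2.1) * proj (p.2.2 : E3) i j +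
          (1 + p.2.1) * proj (p.2.2 : E3) i j
        ring
      · show Bt Bi δ 0 s0 n0 i j = Bt Bi δ 0 s0 n0 i j - (1 + s0) * proj (n0 : E3) i j +
          (1 + s0) * proj (n0 : E3) i j
        ring
    · have hτp : 0 < τ0 := lt_of_le_of_ne hτ0'.1 (Ne.symm h0)
      have ht0 := htn τ0 hτ0' s0 hs0'
      have hBc : ContinuousWithinAt (fun p : ℝ × S2 => Bi p.1 p.2 i j) (Ici δ0 ×ˢ univ) (δ + (1 - τ0 + s0) / τ0, n0) := by
        refine (hcont i j) _ ⟨?_, mem_univ _⟩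
        show δ0 ≤ δ + (1 - τ0 + s0) / τ0
        linarith
      have hmap : ContinuousAt (fun p : ℝ × ℝ × S2 => ((δ + (1 - p.1 + p.2.1) / p.1, p.2.2) : ℝ × S2))
          (τ0, s0, n0) := by
        refine ContinuousAt.prodMk ?_ (by fun_prop)
        refine continuousAt_const.add (ContinuousAt.div (by fun_prop) (by fun_prop) ?_)
        exact h0
      have hmt : MapsTo (fun p : ℝ × ℝ × S2 => ((δ + (1 - p.1 + p.2.1) / p.1, p.2.2) : ℝ × S2))
          (Icc 0 1 ×ˢ Ici 0 ×ˢ univ) (Ici δ0 ×ˢ univ) := by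
        rintro ⟨τ, s, n⟩ ⟨hτ, hs, -⟩
        refine ⟨?_, mem_univ _⟩
        have := htn τ hτ s hs
        show δ0 ≤ δ + (1 - τ + s) / τ
        linarith
      have hBt : ContinuousWithinAt (fun p : ℝ × ℝ × S2 => Bi (δ + (1 - p.1 + p.2.1) / p.1) p.2.2 i j)
          (Icc 0 1 ×ˢ Ici 0 ×ˢ univ) (τ0, s0, n0) :=
        ContinuousWithinAt.comp (f := fun p : ℝ × ℝ × S2 => ((δ + (1 - p.1 + p.2.1) / p.1, p.2.2) : ℝ × S2))
          (g := fun p : ℝ × S2 => Bi p.1 p.2 i j) (x := (τ0, s0, n0)) hBc hmap.continuousWithinAt hmt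
      have hP : ContinuousAt (fun p : ℝ × ℝ × S2 => proj (p.2.2 : E3) i j) (τ0, s0, n0) := by
        have h1 := z1_proj_cont i j
        have h2 : Continuous (fun p : ℝ × ℝ × S2 => (p.2.2 : E3)) := by fun_prop
        exact (h1.comp h2).continuousAt
      have hdiv : ContinuousAt (fun p : ℝ × ℝ × S2 => (1 - p.1 + p.2.1) / p.1) (τ0, s0, n0) :=
        ContinuousAt.div (by fun_prop) (by fun_prop) h0
      have hnum : ContinuousAt (fun p : ℝ × ℝ × S2 => 1 - p.1 + p.2.1) (τ0, s0, n0) := by fun_prop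
      have hτc : ContinuousAt (fun p : ℝ × ℝ × S2 => p.1) (τ0, s0, n0) := by fun_prop
      exact (hnum.mul hP).continuousWithinAt.add (hτc.continuousWithinAt.mul (hBt.sub (hdiv.mul hP).continuousWithinAt))
  · intro τ hτ s hs n i j
    have h2 := z1_proj_abs n i j
    have h3 := z1_part hbd hδ0' hδ (htn τ hτ s hs) n i j
    have e1 : Bt Bi δ τ s n i j - s * proj (n : E3) i j = (1 - τ) * proj (n : E3) i j +
        τ * (Bi (δ + (1 - τ + s) / τ) n i j - (1 - τ + s) / τ * proj (n : E3) i j) := by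
      unfold Bt
      ring
    rw [e1]
    refine (abs_add_le _ _).trans ?_
    rw [abs_mul, abs_mul, abs_of_nonneg hτ.1, abs_of_nonneg (by linarith [hτ.2] : 0 ≤ 1 - τ)]
    have h4 : (1 - τ) * |proj (n : E3) i j| ≤ (1 - τ) * 1 :=
      mul_le_mul_of_nonneg_left h2 (by linarith [hτ.2])
    have h5 : τ * |Bi (δ + (1 - τ + s) / τ) n i j - (1 - τ + s) / τ * proj (n : E3) i j| ≤ τ * (C + δ) :=
      mul_le_mul_of_nonneg_left h3 hτ.1
    have h6 : τ * (C + δ) ≤ 1 * (C + δ) := mul_le_mul_of_nonneg_right hτ.2 (by linarith)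
    linarith [hτ.1]
  · intro τ hτ s hs n m i j
    have ht := htn τ hτ s hs
    have hp := z1_proj_lip n m i j
    have hl := hlip (δ + (1 - τ + s) / τ) (by linarith) n m i j
    have e1 : (Bt Bi δ τ s n i j - s * proj (n : E3) i j) - (Bt Bi δ τ s m i j - s * proj (m : E3) i j) =
        (1 - τ + τ * δ) * (proj (n : E3) i j - proj (m : E3) i j) +
        τ * ((Bi (δ + (1 - τ + s) / τ) n i j - (δ + (1 - τ + s) / τ) * proj (n : E3) i j) -
          (Bi (δ + (1 - τ + s) / τ) m i j - (δ + (1 - τ + s) / τ) * proj (m : E3) i j)) := by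
      unfold Bt
      ring
    rw [e1]
    refine (abs_add_le _ _).trans ?_
    rw [abs_mul, abs_mul, abs_of_nonneg hτ.1, abs_of_nonneg (by nlinarith [hτ.1, hτ.2] : 0 ≤ 1 - τ + τ * δ)]
    have h7 : 0 ≤ ‖(n : E3) - m‖ := norm_nonneg _
    have h8 : 1 - τ + τ * δ ≤ 1 + δ := by nlinarith [hτ.1, hτ.2]
    have h9 : (1 - τ + τ * δ) * |proj (n : E3) i j - proj (m : E3) i j| ≤ (1 + δ) * (2 * ‖(n : E3) - m‖) :=
      mul_le_mul h8 hp (abs_nonneg _) (by linarith)
    have h10 : τ * |(Bi (δ + (1 - τ + s) / τ) n i j - (δ + (1 - τ + s) / τ) * proj (n : E3) i j) -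
          (Bi (δ + (1 - τ + s) / τ) m i j - (δ + (1 - τ + s) / τ) * proj (m : E3) i j)| ≤
          1 * (C * ‖(n : E3) - m‖) :=
      mul_le_mul hτ.2 hl (abs_nonneg _) zero_le_one
    nlinarith

end H17S
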