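import Pool.Agent.Lib.H17S.G0

set_option autoImplicit false

/-!
Chunk G10 (S/M). The null Lagrangian for the functions of the model: `null_lag` (N6.lean) with `x0 = Xc P N`, `ν = num P N`, `ka = kapm P N`. `num P N` is continuous on `Ico 0 (Xc P N)` (`num_cont` composed with `x ↦ (P, N, x)`, values in `Om3`); `kapm P N x = -(1/2) ∫_0^x num P N`: `kapm_X` (derivative `- num/2` on `Iio (Xc P N)`),
`kapm_zero`, `intervalIntegral.integral_eq_sub_of_hasDerivAt`.
-/

open MeasureTheory Filter Topology Set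
open scoped ContDiff ComplexConjugate

namespace H17S

open NullPen (E3 S2 sm proj MatterData)
open NullU (rl crs dtB cf Tng)
open H17S.Sph

variable {P N : ℝ} {V : E3 → Fin 3 → ℝ}

theorem g10_num (hP : 0 < P) : ContinuousOn (num P N) (Ico 0 (Xc P N)) :=
  num_cont.comp (f := fun x : ℝ => ((P, N, x) : ℝ × ℝ × ℝ)) (s := Ico 0 (Xc P N)) (by fun_prop)
    (fun _ hx => ⟨hP, hx.2⟩)

theorem g10_kap (hP : 0 < P) {x : ℝ} (hx : x ∈ Ico 0 (Xc P N)) : kapm P N x = -(1 / 2) * ∫ t in (0 : ℝ)..x, num P N t := by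
  have hsub : uIcc 0 x ⊆ Ico 0 (Xc P N) := by
    rw [uIcc_of_le hx.1]
    exact fun t ht => ⟨ht.1, ht.2.trans_lt hx.2⟩
  have hint : IntervalIntegrable (fun t => - num P N t / 2) volume 0 x :=
    ((((g10_num hP).mono hsub).neg).div_const 2).intervalIntegrable
  have h := intervalIntegral.integral_eq_sub_of_hasDerivAt (f := kapm P N)
    (fun t ht => kapm_X hP (hsub ht).2) hint
  rw [kapm_zero, sub_zero] at h
  rw [← h, ← intervalIntegral.integral_const_mul]
  refine intervalIntegral.integral_congr fun t _ => ?_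
  show - num P N t / 2 = -(1 / 2) * num P N t
  ring

theorem kap_null (hP : 0 < P) (hV : TF V) (hX : ∀ n : S2, nsq (V n) < Xc P N) :
    ∫ n : S2, (kapm P N (nsq (V n)) + num P N (nsq (V n)) * dtB (DV V n)) ∂sm = 0 :=
  null_lag hV hX (g10_num hP) fun _ hx => g10_kap hP hx

end H17S
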