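import Pool.Agent.Lib.H17S.G1

set_option autoImplicit false

/-!
Chunk G3 (M). Continuity of the test field on `[0,∞) × S2`, and the structure `TestF` (with the bounds of G2 as a hypothesis; G4 puts them together).
Proof. `(s, n) ↦ ((P, N, nsq (V n)), s)` is continuous into `Om3 ×ˢ Ici 0` (`nsq_cont`); compose with `lam_cont`, `lam1_cont`, `lamX_cont` and take real and imaginary parts. `V n i`, `cr n (V n) i` etc. are continuous on the sphere (`TF.c1`, `C1S.cont0`, `C1S.cr`, `C1S.nsq`, `C1S.rl_cont`). `wla_cont`: `wla_eq` on `Ici 0 ×ˢ univ` (`ContinuousOn.congr`).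
`la_ds`: `(mo_ok hP (nsq_nonneg _) (hX n)).lam_d`, real and imaginary parts. `la_dn`: `NullQ.hr_val` with `la_cr_dy` (`cr n v = crs (fun i => n i) v` by definition).
-/

open MeasureTheory Filter Topology Set
open scoped ContDiff ComplexConjugate

namespace H17S

open NullPen (E3 S2 sm proj MatterData)
open NullU (rl crs dtB cf Tng)
open NullQ (HR)
open H17S.Sph

variable {P N : ℝ} {V : E3 → Fin 3 → ℝ}

theorem g3_map (hP : 0 < P) (hX : ∀ n : S2, nsq (V n) < Xc P N) :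
    MapsTo (fun p : ℝ × S2 => (((P, N, nsq (V p.2)), p.1) : (ℝ × ℝ × ℝ) × ℝ)) (Ici 0 ×ˢ univ) (Om3 ×ˢ Ici 0) := by
  intro p hp
  refine Set.mk_mem_prod ?_ hp.1
  exact ⟨hP, hX p.2⟩

theorem g3_cont (hV : TF V) :
    Continuous (fun p : ℝ × S2 => (((P, N, nsq (V p.2)), p.1) : (ℝ × ℝ × ℝ) × ℝ)) := by
  have hc : Continuous (fun n : S2 => nsq (V n)) := nsq_cont hV.c1
  exact (continuous_const.prodMk (continuous_const.prodMk (hc.comp continuous_snd))).prodMk continuous_fst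

/-- Continuity of the functions of the model. -/
theorem g3_mod1 (hP : 0 < P) (hV : TF V) (hX : ∀ n : S2, nsq (V n) < Xc P N) :
    ContinuousOn (fun p : ℝ × S2 => (mo P N (nsq (V p.2))).lam p.1) (Ici 0 ×ˢ univ) := by
  have h := lam_cont.comp (g3_cont (P := P) (N := N) hV).continuousOn (g3_map hP hX)
  exact h

theorem g3_mod2 (hP : 0 < P) (hV : TF V) (hX : ∀ n : S2, nsq (V n) < Xc P N) :
    ContinuousOn (fun p : ℝ × S2 => (mo P N (nsq (V p.2))).lam1 p.1) (Ici 0 ×ˢ univ) := by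
  have h := lam1_cont.comp (g3_cont (P := P) (N := N) hV).continuousOn (g3_map hP hX)
  exact h

theorem g3_mod3 (hP : 0 < P) (hV : TF V) (hX : ∀ n : S2, nsq (V n) < Xc P N) :
    ContinuousOn (fun p : ℝ × S2 => (mo P N (nsq (V p.2))).lamX p.1) (Ici 0 ×ˢ univ) := by
  have h := lamX_cont.comp (g3_cont (P := P) (N := N) hV).continuousOn (g3_map hP hX)
  exact h

theorem g3_mod4 (hP : 0 < P) (hV : TF V) (hX : ∀ n : S2, nsq (V n) < Xc P N) :
    ContinuousOn (fun p : ℝ × S2 => (mo P N (nsq (V p.2))).ac p.1) (Ici 0 ×ˢ univ) := by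
  have h := ac_cont.comp (g3_cont (P := P) (N := N) hV).continuousOn (g3_map hP hX)
  exact h

/-- Continuity of the functions of the model. -/
theorem g3_mod (hP : 0 < P) (hV : TF V) (hX : ∀ n : S2, nsq (V n) < Xc P N) :
    ContinuousOn (fun p : ℝ × S2 => (mo P N (nsq (V p.2))).lam p.1) (Ici 0 ×ˢ univ) ∧
    ContinuousOn (fun p : ℝ × S2 => (mo P N (nsq (V p.2))).lam1 p.1) (Ici 0 ×ˢ univ) ∧
    ContinuousOn (fun p : ℝ × S2 => (mo P N (nsq (V p.2))).lamX p.1) (Ici 0 ×ˢ univ) ∧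
    ContinuousOn (fun p : ℝ × S2 => (mo P N (nsq (V p.2))).ac p.1) (Ici 0 ×ˢ univ) := by
  exact ⟨g3_mod1 hP hV hX, g3_mod2 hP hV hX, g3_mod3 hP hV hX, g3_mod4 hP hV hX⟩

theorem g3_re {α : Type*} [TopologicalSpace α] {f : α → ℂ} {S : Set α} (hf : ContinuousOn f S) :
    ContinuousOn (fun x => (f x).re) S := Complex.continuous_re.comp_continuousOn hf

theorem g3_im {α : Type*} [TopologicalSpace α] {f : α → ℂ} {S : Set α} (hf : ContinuousOn f S) :
    ContinuousOn (fun x => (f x).im) S := Complex.continuous_im.comp_continuousOn hf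

theorem g3_sn {f : S2 → ℝ} (hf : Continuous f) : ContinuousOn (fun p : ℝ × S2 => f p.2) (Ici 0 ×ˢ univ) :=
  (hf.comp continuous_snd).continuousOn

theorem la_cont (hP : 0 < P) (hV : TF V) (hX : ∀ n : S2, nsq (V n) < Xc P N) (i : Fin 3) :
    ContinuousOn (fun p : ℝ × S2 => LaE P N V p.1 p.2 i) (Ici 0 ×ˢ univ) := by
  have h1 := g3_mod1 hP hV hX
  exact ((g3_re h1).mul (g3_sn (hV.c1 i).cont0)).add ((g3_im h1).mul (g3_sn (C1S.cr hV.c1 i).cont0))

theorem la1_cont (hP : 0 < P) (hV : TF V) (hX : ∀ n : S2, nsq (V n) < Xc P N) (i : Fin 3) :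
    ContinuousOn (fun p : ℝ × S2 => La1E P N V p.1 p.2 i) (Ici 0 ×ˢ univ) := by
  have h1 := g3_mod2 hP hV hX
  exact ((g3_re h1).mul (g3_sn (hV.c1 i).cont0)).add ((g3_im h1).mul (g3_sn (C1S.cr hV.c1 i).cont0))

theorem wla_cont (hP : 0 < P) (hV : TF V) (hX : ∀ n : S2, nsq (V n) < Xc P N) (j i : Fin 3) :
    ContinuousOn (fun p : ℝ × S2 => WLa P N V j p.1 p.2 i) (Ici 0 ×ˢ univ) := by
  have h1 := g3_mod1 hP hV hX
  have h3 := g3_mod3 hP hV hX
  have a1 := g3_sn ((C1S.cr hV.c1 i).rl_cont j)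
  have a2 := g3_sn ((hV.c1 i).rl_cont j)
  have a3 := g3_sn ((C1S.nsq hV.c1).rl_cont j)
  have a4 := g3_sn (C1S.cr hV.c1 i).cont0
  have a5 := g3_sn (hV.c1 i).cont0
  have h4 := (((g3_re h1).mul a1).sub ((g3_im h1).mul a2)).add (a3.mul (((g3_re h3).mul a4).sub ((g3_im h3).mul a5)))
  refine h4.congr fun p hp => ?_
  exact wla_eq hP hV hX hp.1 p.2 j i

theorem la_ds (hP : 0 < P) (hX : ∀ n : S2, nsq (V n) < Xc P N) {s : ℝ} (hs : 0 < s) (n : S2) (i : Fin 3) :
    HasDerivAt (fun t => LaE P N V t n i) (La1E P N V s n i) s := by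
  have h := (mo_ok hP (nsq_nonneg (V n)) (hX n)).lam_d hs
  have h1 := Complex.reCLM.hasFDerivAt.comp_hasDerivAt s h
  have h2 := Complex.imCLM.hasFDerivAt.comp_hasDerivAt s h
  exact (h1.mul_const (V n i)).add (h2.mul_const (cr n (V n) i))

theorem la_dn (hP : 0 < P) (hV : TF V) (hX : ∀ n : S2, nsq (V n) < Xc P N) {s : ℝ} (hs : 0 ≤ s) (k : Fin 3) :
    HR (fun n => crs (fun i => (n : E3) i) (LaE P N V s n) k) (fun j n => WLa P N V j s n k) :=
  NullQ.hr_val (G := fun z => cr z (LaE P N V s z) k) (fun n => la_cr_dy hP hV hX hs n k)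

end H17S
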