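import Pool.Agent.Lib.H17S.G2
import Pool.Agent.Lib.H17S.G3
import Pool.Agent.Lib.H17S.E14
import Pool.Agent.Lib.H17S.A.A1

set_option autoImplicit false

/-!
Chunk G8 (M). `alst` is a continuous function on the sphere. `alst .. = - betam P N (nsq (V n)) - i N - 4 / num P N (nsq (V n)) * ∫ t in Ioi 0, F n t`, `F n t = conj (ac t) (aC n (Bt t n) - t) - lamX t qC n (Bt t n) (V n)`. `betam`, `num` are continuous in `X` (`betam_cont`, `num_cont` composed with `n ↦ (P, N, nsq (V n))`), `num > 0` (`num_pos`).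
The integral: `MeasureTheory.continuous_of_dominated` on `volume.restrict (Ioi 0)`: for fixed `t > 0`: `n ↦ Bt Bi δ τ t n i j` is continuous (`g8_Bt`: `e13_Bt`, `hI.cont`, `e14_t`), `aC`, `qC` are finite sums of products (`jm_cont`, `cr n (V n) i` continuous: `C1S.cr`), `ac`, `lamX` by `g3_mod` at fixed `t`.
Bound: `‖aC n (Bt t n) - t‖ <= 6 (C + δ + 1)`: `aC n M` is linear in `M`, `aC n (proj n) = 1` (`∑ proj n i i = 2`, `∑ jm n i j proj n i j = 0`), entries of `Bt - t proj` bounded by `C + δ + 1` (`e14_bd`), `|jm n i j| <= 1`; `|Bt t n i j| <= (C + δ + 2)(1 + t)`, so `‖qC n (Bt t n) (V n)‖ <= C'' (1 + t)` with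
`C''` independent of `n` (`|V n i|, |cr n (V n) i| <= const`, compactness); `‖ac t‖ <= C/(1+t)^3`, `‖lamX t‖ <= C/(1+t)^4` (`g2_mod`). So `‖F n t‖ <= C'''/(1+t)^2`... integrable on `Ioi 0` (`w7_gint`). Measurability in `t`: `t ↦ F n t` is continuous on `Ioi 0` (`e14_Bc`, `g3_mod` at fixed `n`), `ContinuousOn.aestronglyMeasurable`.
-/

open MeasureTheory Filter Topology Set
open scoped ContDiff ComplexConjugate

namespace H17S

open NullPen (E3 S2 sm proj MatterData)
open NullU (rl crs dtB cf Tng)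
open H17S.Sph

variable {D : MatterData} {δ τ C P N : ℝ} {Bi : ℝ → S2 → Fin 3 → Fin 3 → ℝ} {b0 : S2 → ℝ} {V : E3 → Fin 3 → ℝ}

theorem g8_Bt (hI : FInf D δ C Bi b0) (hτ : 0 < τ) (hτ1 : τ ≤ 1) {t : ℝ} (ht : 0 ≤ t) (i j : Fin 3) :
    Continuous (fun n : S2 => Bt Bi δ τ t n i j) := by
  have h0 := e14_t (δ := δ) hτ hτ1 ht
  have h1 : Continuous (fun n : S2 => Bi (tz δ τ + t / τ) n i j) :=
    (hI.cont i j).comp_continuous (f := fun n : S2 => ((tz δ τ + t / τ, n) : ℝ × S2)) (by fun_prop)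
      (fun n => ⟨h0, mem_univ _⟩)
  have h2 : (fun n : S2 => Bt Bi δ τ t n i j) = fun n => τ * Bi (tz δ τ + t / τ) n i j := by
    funext n
    exact e13_Bt hτ t n i j
  rw [h2]
  exact continuous_const.mul h1

theorem g8_aC {X : Type*} [TopologicalSpace X] {f : X → S2} {M : X → Fin 3 → Fin 3 → ℝ} {S : Set X} (hf : ContinuousOn f S)
    (hM : ∀ i j, ContinuousOn (fun x => M x i j) S) : ContinuousOn (fun x => aC (f x) (M x)) S := by
  unfold aC
  have h1 : ContinuousOn (fun x => ∑ i, M x i i) S := continuousOn_finsetSum _ fun i _ => hM i i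
  have h2 : ContinuousOn (fun x => ∑ i, ∑ j, jm (f x) i j * M x i j) S :=
    continuousOn_finsetSum _ fun i _ => continuousOn_finsetSum _ fun j _ => ((jm_cont i j).comp_continuousOn hf).mul (hM i j)
  exact ((Complex.continuous_ofReal.comp_continuousOn h1).add
    ((Complex.continuous_ofReal.comp_continuousOn h2).mul continuousOn_const)).div_const 2

theorem g8_qC {X : Type*} [TopologicalSpace X] {f : X → S2} {M : X → Fin 3 → Fin 3 → ℝ} {W : X → Fin 3 → ℝ} {S : Set X}
    (hf : ContinuousOn f S) (hM : ∀ i j, ContinuousOn (fun x => M x i j) S) (hW : ∀ i, ContinuousOn (fun x => W x i) S) :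
    ContinuousOn (fun x => qC (f x) (M x) (W x)) S := by
  have hc : ∀ i, ContinuousOn (fun x => cr (f x) (W x) i) S := by
    intro i
    have h0 : (fun x => cr (f x) (W x) i) = fun x => ∑ k, jm (f x) i k * W x k := by
      funext x
      exact cr_jm _ _ _
    rw [h0]
    exact continuousOn_finsetSum _ fun k _ => ((jm_cont i k).comp_continuousOn hf).mul (hW k)
  have h1 : ContinuousOn (fun x => ∑ i, ∑ j, W x i * M x i j * W x j) S :=
    continuousOn_finsetSum _ fun i _ => continuousOn_finsetSum _ fun j _ => ((hW i).mul (hM i j)).mul (hW j)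
  have h2 : ContinuousOn (fun x => ∑ i, ∑ j, cr (f x) (W x) i * M x i j * W x j) S :=
    continuousOn_finsetSum _ fun i _ => continuousOn_finsetSum _ fun j _ => ((hc i).mul (hM i j)).mul (hW j)
  have h3 : ContinuousOn (fun x => nsq (W x)) S := by
    unfold nsq
    exact continuousOn_finsetSum _ fun i _ => (hW i).pow 2
  unfold qC
  exact ((Complex.continuous_ofReal.comp_continuousOn h1).sub
    ((Complex.continuous_ofReal.comp_continuousOn h2).mul continuousOn_const)).sub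
    ((Complex.continuous_ofReal.comp_continuousOn h3).mul (Complex.continuous_conj.comp_continuousOn (g8_aC hf hM)))

theorem g8_sum2 {f : Fin 3 → Fin 3 → ℝ} {K : ℝ} (h : ∀ i j, |f i j| ≤ K) : |∑ i, ∑ j, f i j| ≤ 9 * K := by
  have h1 : |∑ i, ∑ j, f i j| ≤ 3 * (3 * K) := e8_sum fun i => e8_sum fun j => h i j
  linarith

theorem g8_qbd (n : S2) {M : Fin 3 → Fin 3 → ℝ} {W : Fin 3 → ℝ} {m v : ℝ} (hM : ∀ i j, |M i j| ≤ m) (hv : 0 ≤ v) (hW : nsq W ≤ v ^ 2) :
    ‖qC n M W‖ ≤ 50 * (v ^ 2 * m) := by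
  have hm : 0 ≤ m := (abs_nonneg _).trans (hM 0 0)
  have hWi : ∀ i, |W i| ≤ v := by
    intro i
    have h1 : W i ^ 2 ≤ nsq W := Finset.single_le_sum (f := fun i => W i ^ 2) (fun _ _ => sq_nonneg _) (Finset.mem_univ i)
    exact abs_le_of_sq_le_sq (h1.trans hW) hv
  have hc : ∀ i, |cr n W i| ≤ 3 * v := by
    intro i
    rw [cr_jm]
    refine e8_sum fun k => ?_
    rw [abs_mul]
    calc |jm n i k| * |W k| ≤ 1 * v := mul_le_mul (jm_bd n i k) (hWi k) (abs_nonneg _) zero_le_one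
      _ = v := one_mul v
  have h1 : |∑ i, ∑ j, W i * M i j * W j| ≤ 9 * (v * m * v) := by
    refine g8_sum2 fun i j => ?_
    rw [abs_mul, abs_mul]
    exact mul_le_mul (mul_le_mul (hWi i) (hM i j) (abs_nonneg _) hv) (hWi j) (abs_nonneg _) (by positivity)
  have h2 : |∑ i, ∑ j, cr n W i * M i j * W j| ≤ 9 * (3 * v * m * v) := by
    refine g8_sum2 fun i j => ?_
    rw [abs_mul, abs_mul]
    exact mul_le_mul (mul_le_mul (hc i) (hM i j) (abs_nonneg _) (by positivity)) (hWi j) (abs_nonneg _) (by positivity)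
  have h3 := aC_bd n hM
  have h4 : 0 ≤ nsq W := nsq_nonneg W
  unfold qC
  refine (norm_sub_le _ _).trans ?_
  have h5 : ‖((∑ i, ∑ j, W i * M i j * W j : ℝ) : ℂ) - ((∑ i, ∑ j, cr n W i * M i j * W j : ℝ) : ℂ) * Complex.I‖ ≤
      9 * (v * m * v) + 9 * (3 * v * m * v) := by
    refine (norm_sub_le _ _).trans ?_
    rw [norm_mul, Complex.norm_real, Complex.norm_real, Complex.norm_I, mul_one, Real.norm_eq_abs, Real.norm_eq_abs]
    exact add_le_add h1 h2
  have h6 : ‖(nsq W : ℂ) * conj (aC n M)‖ ≤ v ^ 2 * (6 * m) := by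
    rw [norm_mul, Complex.norm_real, Complex.norm_conj, Real.norm_of_nonneg h4]
    exact mul_le_mul hW h3 (norm_nonneg _) (by positivity)
  have h7 : 0 ≤ v ^ 2 * m := by positivity
  nlinarith

/-- Dominated convergence. -/
theorem g8_dom {A L : S2 → ℝ → ℂ} {M : ℝ → S2 → Fin 3 → Fin 3 → ℝ} {W : S2 → Fin 3 → ℝ} {K Cm x1 : ℝ}
    (hK0 : 0 ≤ K) (hCm : 0 ≤ Cm) (hx0 : 0 ≤ x1) (hx : ∀ n, nsq (W n) ≤ x1)
    (cA : ContinuousOn (fun p : ℝ × S2 => A p.2 p.1) (Ici 0 ×ˢ univ)) (cL : ContinuousOn (fun p : ℝ × S2 => L p.2 p.1) (Ici 0 ×ˢ univ))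
    (hA : ∀ n t, 0 ≤ t → ‖A n t‖ ≤ Cm / (1 + t) ^ 3) (hL : ∀ n t, 0 ≤ t → ‖L n t‖ ≤ Cm / (1 + t) ^ 4)
    (hW : ∀ i, Continuous (fun n => W n i))
    (hMt : ∀ n i j, ContinuousOn (fun t => M t n i j) (Ici 0)) (hMn : ∀ t, 0 ≤ t → ∀ i j, Continuous (fun n => M t n i j))
    (hbd : ∀ t, 0 ≤ t → ∀ n : S2, ∀ i j, |M t n i j - t * proj n i j| ≤ K) :
    Continuous (fun n : S2 => ∫ t in Ioi (0 : ℝ), (conj (A n t) * (aC n (M t n) - (t : ℂ)) - L n t * qC n (M t n) (W n))) := by
  have hbd' : ∀ t, 0 ≤ t → ∀ n : S2, ∀ i j, |M t n i j| ≤ (K + 1) * (1 + t) := by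
    intro t ht n i j
    have h1 := hbd t ht n i j
    have h2 : |t * proj (n : E3) i j| ≤ t := by
      rw [abs_mul, abs_of_nonneg ht]
      exact mul_le_of_le_one_right ht (NullU.AS2_P n i j)
    have h3 := abs_add_le (M t n i j - t * proj (n : E3) i j) (t * proj (n : E3) i j)
    rw [sub_add_cancel] at h3
    nlinarith
  refine continuous_of_dominated (bound := fun t => (6 * K * Cm + Cm * (50 * (x1 * (K + 1)))) / (1 + t) ^ (0 + 2)) ?_ ?_ ?_ ?_
  · intro n
    have hm : ContinuousOn (fun t : ℝ => ((t, n) : ℝ × S2)) (Ioi 0) := by fun_prop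
    have hmm : MapsTo (fun t : ℝ => ((t, n) : ℝ × S2)) (Ioi 0) (Ici 0 ×ˢ univ) := fun t ht => ⟨mem_Ici.2 (le_of_lt ht), mem_univ _⟩
    have e1 : ContinuousOn (fun t => A n t) (Ioi 0) := cA.comp hm hmm
    have e2 : ContinuousOn (fun t => L n t) (Ioi 0) := cL.comp hm hmm
    have e3 : ∀ i j, ContinuousOn (fun t => M t n i j) (Ioi 0) := fun i j => (hMt n i j).mono Ioi_subset_Ici_self
    have e4 : ContinuousOn (fun t => aC n (M t n)) (Ioi 0) := g8_aC (f := fun _ => n) continuousOn_const e3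
    have e5 : ContinuousOn (fun t => qC n (M t n) (W n)) (Ioi 0) :=
      g8_qC (f := fun _ => n) (W := fun _ => W n) continuousOn_const e3 (fun _ => continuousOn_const)
    refine ContinuousOn.aestronglyMeasurable ?_ measurableSet_Ioi
    exact ((Complex.continuous_conj.comp_continuousOn e1).mul (e4.sub Complex.continuous_ofReal.continuousOn)).sub (e2.mul e5)
  · intro n
    refine (ae_restrict_iff' measurableSet_Ioi).2 (Eventually.of_forall fun t ht => ?_)
    have ht0 : 0 ≤ t := le_of_lt ht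
    have m4 := hA n t ht0
    have m3 := hL n t ht0
    have a1 : ‖aC n (M t n) - (t : ℂ)‖ ≤ 6 * K := by
      rw [aC_frame]
      exact aC_bd n fun i j => hbd t ht0 n i j
    have hsq : Real.sqrt x1 ^ 2 = x1 := Real.sq_sqrt hx0
    have a2 := g8_qbd n (hbd' t ht0 n) (Real.sqrt_nonneg x1) (W := W n) (by rw [hsq]; exact hx n)
    rw [hsq] at a2
    have h1t : 1 ≤ 1 + t := by linarith
    refine (norm_sub_le _ _).trans ?_
    rw [norm_mul, norm_mul, Complex.norm_conj, add_div]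
    refine add_le_add ?_ ?_
    · calc ‖A n t‖ * ‖aC n (M t n) - (t : ℂ)‖ ≤ Cm / (1 + t) ^ 3 * (6 * K) :=
            mul_le_mul m4 a1 (norm_nonneg _) (by positivity)
        _ = 6 * K * Cm / (1 + t) ^ 3 := by ring
        _ ≤ 6 * K * Cm / (1 + t) ^ (0 + 2) := by
          refine div_le_div_of_nonneg_left (by positivity) (by positivity) (pow_le_pow_right₀ h1t (by norm_num))
    · calc ‖L n t‖ * ‖qC n (M t n) (W n)‖ ≤
            Cm / (1 + t) ^ 4 * (50 * (x1 * ((K + 1) * (1 + t)))) := mul_le_mul m3 a2 (norm_nonneg _) (by positivity)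
        _ = Cm * (50 * (x1 * (K + 1))) / (1 + t) ^ 3 := by
          field_simp
        _ ≤ Cm * (50 * (x1 * (K + 1))) / (1 + t) ^ (0 + 2) := by
          refine div_le_div_of_nonneg_left (by positivity) (by positivity) (pow_le_pow_right₀ h1t (by norm_num))
  · exact (w7_gint (by positivity) 0 le_rfl).1
  · refine (ae_restrict_iff' measurableSet_Ioi).2 (Eventually.of_forall fun t ht => ?_)
    have ht0 : 0 ≤ t := le_of_lt ht
    have hm : Continuous (fun n : S2 => ((t, n) : ℝ × S2)) := by fun_prop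
    have hmm : ∀ n : S2, ((t, n) : ℝ × S2) ∈ (Ici 0 ×ˢ univ : Set (ℝ × S2)) := fun n => ⟨mem_Ici.2 ht0, mem_univ _⟩
    have e1 : Continuous (fun n : S2 => A n t) := cA.comp_continuous hm hmm
    have e2 : Continuous (fun n : S2 => L n t) := cL.comp_continuous hm hmm
    have e3 : ∀ i j, Continuous (fun n : S2 => M t n i j) := fun i j => hMn t ht0 i j
    have e4 : Continuous (fun n : S2 => aC n (M t n)) :=
      continuousOn_univ.1 (g8_aC (f := fun n : S2 => n) continuousOn_id fun i j => (e3 i j).continuousOn)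
    have e5 : Continuous (fun n : S2 => qC n (M t n) (W n)) :=
      continuousOn_univ.1 (g8_qC (f := fun n : S2 => n) (W := fun n : S2 => W n) continuousOn_id
        (fun i j => (e3 i j).continuousOn) (fun i => (hW i).continuousOn))
    exact ((Complex.continuous_conj.comp e1).mul (e4.sub continuous_const)).sub (e2.mul e5)

theorem g8_fin {b nu : S2 → ℝ} {z : ℂ} {I : S2 → ℂ} (hb : Continuous b) (hn : Continuous nu) (h0 : ∀ n, nu n ≠ 0) (hI : Continuous I) :
    Continuous (fun n : S2 => - (b n : ℂ) - z - 4 / (nu n : ℂ) * I n) :=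
  ((Complex.continuous_ofReal.comp hb).neg.sub continuous_const).sub
    ((continuous_const.div (Complex.continuous_ofReal.comp hn) fun n => Complex.ofReal_ne_zero.2 (h0 n)).mul hI)

theorem alst_contS (hI : FInf D δ C Bi b0) (hτ : 0 < τ) (hτ1 : τ ≤ 1) (hP : 0 < P) (hV : TF V)
    (hX : ∀ n : S2, nsq (V n) < Xc P N) : Continuous (fun n : S2 => alst P N (fun s => Bt Bi δ τ s n) n (V n)) := by
  have hns : Continuous (fun n : S2 => nsq (V n)) := nsq_cont hV.c1
  have hVc : ∀ i, Continuous (fun n : S2 => V n i) := fun i => (hV.c1 i).cont0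
  have hOm : ∀ n : S2, ((P, N, nsq (V n)) : ℝ × ℝ × ℝ) ∈ Om3 := fun n => ⟨hP, hX n⟩
  have hpt : Continuous (fun n : S2 => ((P, N, nsq (V n)) : ℝ × ℝ × ℝ)) :=
    continuous_const.prodMk (continuous_const.prodMk hns)
  have hb : Continuous (fun n : S2 => betam P N (nsq (V n))) :=
    ContinuousOn.comp_continuous (g := fun p : ℝ × ℝ × ℝ => betam p.1 p.2.1 p.2.2) betam_cont hpt hOm
  have hn : Continuous (fun n : S2 => num P N (nsq (V n))) :=
    ContinuousOn.comp_continuous (g := fun p : ℝ × ℝ × ℝ => num p.1 p.2.1 p.2.2) num_cont hpt hOm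
  have hn0 : ∀ n : S2, num P N (nsq (V n)) ≠ 0 := fun n => (num_pos hP (hX n)).ne'
  obtain ⟨x1, hx0, hx1, hx⟩ := g2_max hV hX
  obtain ⟨Cm, hCm, hmod⟩ := g2_mod hP hV hX
  obtain ⟨c1, c2, c3, c4⟩ := g3_mod hP hV hX
  have hK : 0 ≤ C + δ + 1 := by linarith [hI.C_nonneg, hI.pos]
  have hdom := g8_dom (A := fun n t => (mo P N (nsq (V n))).ac t) (L := fun n t => (mo P N (nsq (V n))).lamX t)
    (M := fun t n => Bt Bi δ τ t n) (W := fun n => V n) hK hCm hx0 hx c4 c3 (fun n t ht => (hmod n t ht).2.2.2)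
    (fun n t ht => (hmod n t ht).2.2.1) hVc (fun n i j => e14_Bc hI hτ hτ1 n i j)
    (fun t ht i j => g8_Bt hI hτ hτ1 ht i j) (fun t ht n i j => (e14_bd hI hτ hτ1 ht n).2.2 i j)
  unfold alst
  exact g8_fin hb hn hn0 hdom

end H17S
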