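import Pool.Agent.Lib.H17S.G6

set_option autoImplicit false

/-!
Chunk G7 (S/M). `alS` of the pointwise theorem (W16.lean) is `alst` (SD.lean). Both are `- β - i N - 4/ν ∫_(0,∞) ..` with `β = betam P N (nsq (V n))`, `ν = num P N (nsq (V n))` (`mo_ν`), the integrands agree for `t > 0` (`setIntegral_congr_fun`): `pth_A`; `aa t = X lamX t` with `X = nsq (V n)` (rfl), and
`nsq (V n) * conj (bec n e (Bt ..)) = qC n (Bt ..) (V n)`: `qC_eq` (with `Tng` from `e14_bd`, `∑ n_i V_i = 0` from `hV.tan`), `vc n e (V n) = b`, `nsq (V n) = b^2` (`gl_vce`).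
-/

open MeasureTheory Filter Topology Set
open scoped ContDiff ComplexConjugate

namespace H17S

open NullPen (E3 S2 sm proj MatterData)
open NullU (rl crs dtB cf Tng)
open H17S.Sph

variable {D : MatterData} {δ τ C P N : ℝ} {Bi : ℝ → S2 → Fin 3 → Fin 3 → ℝ} {b0 : S2 → ℝ} {V : E3 → Fin 3 → ℝ}

theorem alS_alst (hI : FInf D δ C Bi b0) (h2 : FInf2 D δ C Bi) (hτ : 0 < τ) (hτ1 : τ ≤ 1) (hV : TF V)
    (n : S2) {e : Fin 3 → ℝ} (he : Ut n e) {b : ℝ} (hb : ∀ i, V n i = b * e i) :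
    alS (mo P N (nsq (V n))) (pth h2 b0 τ n e) = alst P N (fun s => Bt Bi δ τ s n) n (V n) := by
  obtain ⟨hv, hX⟩ := gl_vce he (v := V n) hb
  have hint : ∫ t in Ioi (0 : ℝ), (conj ((mo P N (nsq (V n))).ac t) * ((pth h2 b0 τ n e).A t - (t : ℂ)) -
        (mo P N (nsq (V n))).aa t * conj ((pth h2 b0 τ n e).B t)) =
      ∫ t in Ioi (0 : ℝ), (conj ((mo P N (nsq (V n))).ac t) * (aC n (Bt Bi δ τ t n) - (t : ℂ)) -
        (mo P N (nsq (V n))).lamX t * qC n (Bt Bi δ τ t n) (V n)) := by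
    refine setIntegral_congr_fun measurableSet_Ioi fun t ht => ?_
    obtain ⟨h3, -, -⟩ := e14_bd hI hτ hτ1 (le_of_lt ht) n
    have haa : (mo P N (nsq (V n))).aa t = ((nsq (V n) : ℝ) : ℂ) * (mo P N (nsq (V n))).lamX t := rfl
    rw [pth_A, pth_B, qC_eq n he h3 (hV.tan n), hv, haa, hX]
    push_cast
    ring
  unfold alS alst
  rw [hint, mo_ν]
  rfl

end H17S
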