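import Pool.Agent.Lib.H17S.G5
import Pool.Agent.Lib.H17S.G7

set_option autoImplicit false

/-!
Chunk G9 (M). The pointwise inequality at `n`. `gl_basis n (hV.tan n)` gives `e`, `b` with `V n = b e`. `m = mo P N (nsq (V n))` is `Ok` (`mo_ok hP (nsq_nonneg _) (hX n)`), `p = pth h2 b0 τ n e` is `Ok` (`path_ok`). Apply `pwM` with `al = alD V n`, `be = bec n e (DV V n)`:
`m.P = P`, `m.N = N` (rfl), `p.a 0 = aT D δ τ 0 n` (`pth_a`), `m.κ = kapm P N (nsq (V n))` (`mo_κ`), `4 al.re = 2 dv V n` (`alD = (dv + i cl)/2`), `m.ν = num ..` (`mo_ν`), `‖al‖^2 - ‖be‖^2 = dtB (DV V n)` (`gl_dtB`, `DV_tng`, `aC_DV hV.td`), `alS m p = alst ..` (`alS_alst`),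
`2 p.bN = 2 bT δ τ b0 n` (`tst = tz`, rfl). `g9_pair`: by `pair_la` and `pth_A`, `pth_B` for `s > 0` the integrand is `2 Re (conj al F s - conj be G s)` with the integrable functions `F`, `G` of `pwM` (`w7_ai`, `w7_bi`, `w7_int`; `C/(1+s)^3 <= C/(1+s)^2`: `w7_lift`),
so `-4 ∫ pairB = -8 Re (conj al ∫ F - conj be ∫ G)` (`integral_re`-type lemma `integral_re` / `reCLM.integral_comp_comm`, `integral_const_mul`, `integral_sub`). `Tng n (Bt ..)`: `e14_bd`. The cost: `g6_cost`. `qZ` is the sum of the two terms (definition in E14.lean).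
-/

open MeasureTheory Filter Topology Set
open scoped ContDiff ComplexConjugate

namespace H17S

open NullPen (E3 S2 sm proj MatterData)
open NullU (rl crs dtB cf Tng)
open H17S.Sph

variable {D : MatterData} {δ τ C P N : ℝ} {Bi : ℝ → S2 → Fin 3 → Fin 3 → ℝ} {b0 : S2 → ℝ} {V : E3 → Fin 3 → ℝ}

theorem g9_pair (hD : D.IsNull) (hA : D.AsympFlat) (hI : FInf D δ C Bi b0) (h2 : FInf2 D δ C Bi) (hτ : 0 < τ) (hτ1 : τ ≤ 1) (hP : 0 < P) (hV : TF V)
    (hX : ∀ n : S2, nsq (V n) < Xc P N) (n : S2) {e : Fin 3 → ℝ} (he : Ut n e) {b : ℝ} (hb : ∀ i, V n i = b * e i) :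
    -4 * (∫ s in Ioi (0 : ℝ), pairB (Bt Bi δ τ s n) (fun j k => WLa P N V j s n k)) =
      -8 * (conj (alD V n) * (∫ t in Ioi (0 : ℝ), (conj ((mo P N (nsq (V n))).ac t) * (pth h2 b0 τ n e).A t -
          (mo P N (nsq (V n))).aa t * conj ((pth h2 b0 τ n e).B t))) -
        conj (bec n e (DV V n)) * (∫ t in Ioi (0 : ℝ), (conj ((mo P N (nsq (V n))).ac t) * (pth h2 b0 τ n e).B t -
          (mo P N (nsq (V n))).aa t * conj ((pth h2 b0 τ n e).A t)))).re := by
  have hm := mo_ok (N := N) hP (nsq_nonneg (V n)) (hX n)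
  have hp := path_ok hD hA hI h2 hτ hτ1 n he
  obtain ⟨a1, C1, -, a2⟩ := w7_ai hm hp
  obtain ⟨b1, b2⟩ := w7_bi hm hp
  obtain ⟨C2, -, b3⟩ := w7_lift b2
  have hF := w7_int a1 a2 le_rfl
  have hG := w7_int b1 b3 le_rfl
  have e1 : ∫ s in Ioi (0 : ℝ), pairB (Bt Bi δ τ s n) (fun j k => WLa P N V j s n k) =
      ∫ s in Ioi (0 : ℝ), 2 * (conj (alD V n) * (conj ((mo P N (nsq (V n))).ac s) * (pth h2 b0 τ n e).A s -
          (mo P N (nsq (V n))).aa s * conj ((pth h2 b0 τ n e).B s)) -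
        conj (bec n e (DV V n)) * (conj ((mo P N (nsq (V n))).ac s) * (pth h2 b0 τ n e).B s -
          (mo P N (nsq (V n))).aa s * conj ((pth h2 b0 τ n e).A s))).re := by
    refine setIntegral_congr_fun measurableSet_Ioi fun s hs => ?_
    have h3 := (e14_bd hI hτ hτ1 (le_of_lt hs) n).1
    have h4 := pair_la hP hV hX (le_of_lt hs) n he hb h3
    rw [pth_A, pth_B]
    exact h4
  rw [e1, integral_const_mul]
  have e2 := Complex.reCLM.integral_comp_comm ((hF.const_mul (conj (alD V n))).sub (hG.const_mul (conj (bec n e (DV V n)))))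
  rw [show (∫ s in Ioi (0 : ℝ), (conj (alD V n) * (conj ((mo P N (nsq (V n))).ac s) * (pth h2 b0 τ n e).A s -
          (mo P N (nsq (V n))).aa s * conj ((pth h2 b0 τ n e).B s)) -
        conj (bec n e (DV V n)) * (conj ((mo P N (nsq (V n))).ac s) * (pth h2 b0 τ n e).B s -
          (mo P N (nsq (V n))).aa s * conj ((pth h2 b0 τ n e).A s))).re) = _ from e2]
  rw [integral_sub' (hF.const_mul (conj (alD V n))) (hG.const_mul (conj (bec n e (DV V n)))), integral_const_mul,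
    integral_const_mul, Complex.reCLM_apply]
  ring

theorem g_point (hD : D.IsNull) (hA : D.AsympFlat) (hI : FInf D δ C Bi b0) (h2 : FInf2 D δ C Bi) (hτ : 0 < τ) (hτ1 : τ ≤ 1) (hP : 0 < P) (hV : TF V)
    (hX : ∀ n : S2, nsq (V n) < Xc P N) (n : S2) :
    (aT D δ τ 0 n + P ^ 2 + N ^ 2) / P + kapm P N (nsq (V n)) + 2 * dv V n + num P N (nsq (V n)) * dtB (DV V n) -
        num P N (nsq (V n)) * ‖alD V n - alst P N (fun s => Bt Bi δ τ s n) n (V n)‖ ^ 2 ≤
      2 * bT δ τ b0 n + qZ D δ τ Bi (fun s n => LaE P N V s n) (fun s n => La1E P N V s n) (fun j s n => WLa P N V j s n) n := by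
  obtain ⟨e, b, he, hb⟩ := gl_basis n (hV.tan n)
  have hm := mo_ok (N := N) hP (nsq_nonneg (V n)) (hX n)
  have hp := path_ok hD hA hI h2 hτ hτ1 n he
  have h := pwM hm hp (alD V n) (bec n e (DV V n))
  have k1 : (pth h2 b0 τ n e).a 0 = aT D δ τ 0 n := pth_a hI h2 hτ hτ1 n he le_rfl
  have k2 : 4 * (alD V n).re = 2 * dv V n := by
    unfold alD
    simp
    ring
  have k3 : ‖alD V n‖ ^ 2 - ‖bec n e (DV V n)‖ ^ 2 = dtB (DV V n) := by
    rw [gl_dtB he (DV_tng V n), aC_DV hV.td]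
  have k4 := alS_alst (P := P) (N := N) hI h2 hτ hτ1 hV n he hb
  have k5 := g9_pair hD hA hI h2 hτ hτ1 hP hV hX n he hb
  have k6 := g6_cost hD hA hI h2 hτ hτ1 hP hV hX n he hb
  have k7 : (pth h2 b0 τ n e).bN = bT δ τ b0 n := rfl
  rw [k1, k3, k4, mo_κ, mo_ν, k7, k2] at h
  have k8 : (mo P N (nsq (V n))).P = P := rfl
  have k9 : (mo P N (nsq (V n))).N = N := rfl
  rw [k8, k9] at h
  unfold qZ
  rw [k5, k6]
  linarith

end H17S
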