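import Pool.Agent.Lib.H17S.G4
import Pool.Agent.Lib.H17S.G8
import Pool.Agent.Lib.H17S.G9
import Pool.Agent.Lib.H17S.G10

set_option autoImplicit false

/-! Output of modules E, N, W, G: the global inequality. -/

open MeasureTheory Filter Topology Set

namespace H17S

open NullPen (E3 S2 sm proj MatterData)
open NullU (dtB)
open H17S.Sph

variable {D : MatterData}

theorem gout_const (c : ℝ) : ∫ _ : S2, c ∂sm = 4 * Real.pi * c := by
  have hsm : sm.real Set.univ = 4 * Real.pi := Pool.Agent.Lib.PenroseSph.sm_univ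
  rw [integral_const, smul_eq_mul, hsm]

theorem gout_nsq {P N : ℝ} {V : E3 → Fin 3 → ℝ} (hV : TF V) (hX : ∀ n : S2, nsq (V n) < Xc P N)
    {φ : ℝ → ℝ} (hφ : ContinuousOn φ (Ico 0 (Xc P N))) : Continuous (fun n : S2 => φ (nsq (V n))) :=
  hφ.comp_continuous (nsq_cont hV.c1) fun n => ⟨nsq_nonneg _, hX n⟩

theorem gi_tau (hD : D.IsNull) (hA : D.AsympFlat) (htr : ∀ n : S2, D.θ 0 n ≤ 0) {E : ℝ} (hE : D.BondiEnergy E)
    {δ C : ℝ} {Bi : ℝ → S2 → Fin 3 → Fin 3 → ℝ} {b0 : S2 → ℝ} (hI : FInf D δ C Bi b0) (h2 : FInf2 D δ C Bi)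
    {τ : ℝ} (hτ : τ ∈ Ioc (0 : ℝ) 1)
    {P N : ℝ} (hP : 0 < P) {V : E3 → Fin 3 → ℝ} (hV : TF V) (hX : ∀ n : S2, nsq (V n) < Xc P N) :
    ((∫ n : S2, τ ^ 2 * D.dA (δ + (1 - τ) / τ) n ∂sm) + 4 * Real.pi * (P ^ 2 + N ^ 2)) / P -
      ∫ n : S2, num P N (nsq (V n)) * ‖alD V n - alst P N (fun s => Bt Bi δ τ s n) n (V n)‖ ^ 2 ∂sm ≤
      τ * (16 * Real.pi * E) + 8 * Real.pi * (τ * δ + 1 - τ) := by
  obtain ⟨hτ0, hτ1⟩ := hτ
  obtain ⟨Cl, hΛ⟩ := la_test hP hV hX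
  have hEI := EIt hD hA htr hE hI hτ0 hτ1 hΛ
  obtain ⟨-, hint⟩ := e14_int hD hI hτ0 hτ1 hΛ
  have ht0 : 0 ≤ δ + (1 - τ) / τ := by
    have h1 : 0 ≤ (1 - τ) / τ := div_nonneg (by linarith) hτ0.le
    linarith [hI.pos]
  have cA : Integrable (fun n : S2 => τ ^ 2 * D.dA (δ + (1 - τ) / τ) n) sm :=
    (NullPen.integrable_sm (NullU.dA_cont_at hD ht0)).const_mul _
  have cκ : ContinuousOn (kapm P N) (Ico 0 (Xc P N)) := fun x hx =>
    (kapm_X hP hx.2).continuousAt.continuousWithinAt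
  have c1 : Continuous (fun n : S2 => kapm P N (nsq (V n))) := gout_nsq hV hX cκ
  have c2 : Continuous (fun n : S2 => num P N (nsq (V n))) := gout_nsq hV hX (g10_num hP)
  have c3 : Continuous (fun n : S2 => kapm P N (nsq (V n)) + num P N (nsq (V n)) * dtB (DV V n)) :=
    c1.add (c2.mul (dtB_cont hV.c1))
  have c4 : Continuous (fun n : S2 => num P N (nsq (V n)) * ‖alD V n - alst P N (fun s => Bt Bi δ τ s n) n (V n)‖ ^ 2) :=
    c2.mul (((alD_cont hV.c1).sub (alst_contS hI hτ0 hτ1 hP hV hX)).norm.pow 2)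
  have c5 : Continuous (fun n : S2 => 2 * dv V n) := continuous_const.mul (dv_cont hV.c1)
  have i3 := cont_int c3
  have i4 := cont_int c4
  have i5 := cont_int c5
  have hf : IsFiniteMeasure sm := by
    change IsFiniteMeasure ((volume : Measure E3).toSphere)
    infer_instance
  have i6 : Integrable (fun _ : S2 => P ^ 2 + N ^ 2) sm := integrable_const _
  have i7 : Integrable (fun n : S2 => (τ ^ 2 * D.dA (δ + (1 - τ) / τ) n + (P ^ 2 + N ^ 2)) / P) sm := (cA.add i6).div_const P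
  have i8 : Integrable (fun n : S2 => (τ ^ 2 * D.dA (δ + (1 - τ) / τ) n + (P ^ 2 + N ^ 2)) / P + 2 * dv V n) sm := i7.add i5
  have i9 : Integrable (fun n : S2 => ((τ ^ 2 * D.dA (δ + (1 - τ) / τ) n + (P ^ 2 + N ^ 2)) / P + 2 * dv V n) +
      (kapm P N (nsq (V n)) + num P N (nsq (V n)) * dtB (DV V n))) sm := i8.add i3
  have i10 : ∫ n : S2, 2 * dv V n ∂sm = 0 := by
    rw [integral_const_mul, int_dv hV.c1, mul_zero]
  have hle : ∫ n : S2, (((τ ^ 2 * D.dA (δ + (1 - τ) / τ) n + (P ^ 2 + N ^ 2)) / P + 2 * dv V n) +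
      (kapm P N (nsq (V n)) + num P N (nsq (V n)) * dtB (DV V n)) -
      num P N (nsq (V n)) * ‖alD V n - alst P N (fun s => Bt Bi δ τ s n) n (V n)‖ ^ 2) ∂sm ≤
      ∫ n : S2, (2 * bT δ τ b0 n + qZ D δ τ Bi (fun s n => LaE P N V s n) (fun s n => La1E P N V s n) (fun j s n => WLa P N V j s n) n) ∂sm := by
    refine integral_mono (i9.sub i4) hint fun n => ?_
    have h := g_point hD hA hI h2 hτ0 hτ1 hP hV hX n
    have e : aT D δ τ 0 n = τ ^ 2 * D.dA (δ + (1 - τ) / τ) n := by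
      unfold aT tz
      rw [zero_div, add_zero]
    rw [e] at h
    refine le_trans (le_of_eq ?_) h
    show ((τ ^ 2 * D.dA (δ + (1 - τ) / τ) n + (P ^ 2 + N ^ 2)) / P + 2 * dv V n) +
      (kapm P N (nsq (V n)) + num P N (nsq (V n)) * dtB (DV V n)) -
      num P N (nsq (V n)) * ‖alD V n - alst P N (fun s => Bt Bi δ τ s n) n (V n)‖ ^ 2 = _
    ring
  have e1 : ∫ n : S2, (((τ ^ 2 * D.dA (δ + (1 - τ) / τ) n + (P ^ 2 + N ^ 2)) / P + 2 * dv V n) +
      (kapm P N (nsq (V n)) + num P N (nsq (V n)) * dtB (DV V n)) -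
      num P N (nsq (V n)) * ‖alD V n - alst P N (fun s => Bt Bi δ τ s n) n (V n)‖ ^ 2) ∂sm =
      ((∫ n : S2, τ ^ 2 * D.dA (δ + (1 - τ) / τ) n ∂sm) + 4 * Real.pi * (P ^ 2 + N ^ 2)) / P -
      ∫ n : S2, num P N (nsq (V n)) * ‖alD V n - alst P N (fun s => Bt Bi δ τ s n) n (V n)‖ ^ 2 ∂sm := by
    rw [integral_sub i9 i4, integral_add i8 i3, integral_add i7 i5, kap_null hP hV hX,
      integral_div, integral_add cA i6, gout_const, i10]
    ring
  rw [e1] at hle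
  exact hle.trans hEI

end H17S
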