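import Pool.Agent.Lib.H17S.X.Asm

set_option autoImplicit false

/-! Output of module X: the existence theorem. -/

open MeasureTheory Filter Topology Set
open scoped ContDiff ComplexConjugate

namespace H17S

open NullPen (E3 S2 sm proj)
open NullS (TE PE av)

theorem existence : Existence := by
  intro B C cA C0 hB hcA hGI η hη
  have hpi := Real.pi_pos
  -- constants
  obtain ⟨D0, hD0⟩ : ∃ D0, D0 = max C0 0 := ⟨_, rfl⟩
  have hD : 0 ≤ D0 := hD0 ▸ le_max_right _ _
  have hCD : C0 ≤ D0 := hD0 ▸ le_max_left _ _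
  obtain ⟨p1, hp1⟩ : ∃ p1, p1 = min (1 / 2) (cA / (D0 + 1)) / 2 := ⟨_, rfl⟩
  obtain ⟨p2, hp2⟩ : ∃ p2, p2 = max 2 ((D0 + 1) / (4 * Real.pi)) + 1 := ⟨_, rfl⟩
  have hp1p : 0 < p1 := by
    have h1 : 0 < cA / (D0 + 1) := by positivity
    have : 0 < min (1 / 2 : ℝ) (cA / (D0 + 1)) := lt_min (by norm_num) h1
    linarith
  have hp1h : p1 ≤ 1 / 4 := by
    have := min_le_left (1 / 2 : ℝ) (cA / (D0 + 1))
    linarith
  have hp2h : 3 ≤ p2 := by
    have := le_max_left (2 : ℝ) ((D0 + 1) / (4 * Real.pi))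
    linarith
  obtain ⟨k, hk, hw⟩ := wmp hB (p1 := p1) (p2 := p2) hp1p
  have hk' : k ∈ Ioo (0 : ℝ) 1 := ⟨hk.1, by linarith [hk.2]⟩
  obtain ⟨M, hM, hMb⟩ := alt_bd hB hk' (p1 := p1) (p2 := p2) hp1p
  obtain ⟨εa, hεa, ha⟩ := base hB hk' (p1 := p1) (p2 := p2) hp1p (η := 1 / 2) (by norm_num)
  obtain ⟨εb, hεb, hb⟩ := good hB hk' (p1 := p1) (p2 := p2) hp1p hw (η := min 1 η) (lt_min one_pos hη)
  obtain ⟨ε, hε⟩ : ∃ ε, ε = min εa εb := ⟨_, rfl⟩
  have hε0 : 0 < ε := hε ▸ lt_min hεa.1 hεb.1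
  have hεa' : ε ≤ εa := hε ▸ min_le_left _ _
  have hεb' : ε ≤ εb := hε ▸ min_le_right _ _
  have hε1 : ε ≤ 1 := hεa'.trans hεa.2
  obtain ⟨T, hT, hTv, hTb⟩ := op_ex hε0 hε1
  obtain ⟨S, hS, hSv⟩ := sup_ex hB hk' hp1p
  -- the homotopy
  let tau : ℝ → ℝ := fun t => max 0 (2 * t - 1)
  let cc : ℝ → ℝ := fun t => Real.sqrt (min 1 (2 * t))
  let G : ℝ → XS → C(S2, ℂ) := fun t x => S (tau t, cc t, x)
  let H : ℝ → XS → XS := fun t x => (T (G t x), x.2.1 + av (fun n => (G t x n).re), x.2.2 + av (fun n => (G t x n).im))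
  have htauc : Continuous tau := by fun_prop
  have hccc : Continuous cc := by fun_prop
  have hGc : Continuous (fun p : ℝ × XS => G p.1 p.2) := by
    have h1 : Continuous (fun p : ℝ × XS => (tau p.1, cc p.1, p.2)) :=
      (htauc.comp continuous_fst).prodMk ((hccc.comp continuous_fst).prodMk continuous_snd)
    exact hS.comp h1
  have hHc : Continuous (fun p : ℝ × XS => H p.1 p.2) := by
    refine (hT.comp hGc).prodMk (Continuous.prodMk ?_ ?_)
    · exact (continuous_fst.comp (continuous_snd.comp continuous_snd)).add (asm_av_re.comp hGc)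
    · exact (continuous_snd.comp (continuous_snd.comp continuous_snd)).add (asm_av_im.comp hGc)
  have htau0 : ∀ t ∈ Icc (0 : ℝ) 1, tau t ∈ Icc (0 : ℝ) 1 := fun t ht =>
    ⟨le_max_left _ _, max_le zero_le_one (by linarith [ht.2])⟩
  have hcc0 : ∀ t ∈ Icc (0 : ℝ) 1, cc t ∈ Icc (0 : ℝ) 1 := fun t ht =>
    ⟨Real.sqrt_nonneg _, Real.sqrt_le_one.2 (min_le_left _ _)⟩
  have hclamp : ∀ t ∈ Icc (0 : ℝ) 1, max 0 (min 1 (tau t)) = tau t := by
    intro t ht
    rw [min_eq_right (htau0 t ht).2, max_eq_right (htau0 t ht).1]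
  have hGv : ∀ t ∈ Icc (0 : ℝ) 1, ∀ x : XS, p1 ≤ x.2.1 → ∀ n, G t x n = alt B k (tau t) x.2.1 x.2.2 n (fun i => cc t * x.1 n i) := by
    intro t ht x hx n
    have h1 := hSv (tau t, cc t, x) n
    unfold altG at h1
    simp only [hclamp t ht, max_eq_left hx] at h1
    exact h1
  -- the open set
  obtain ⟨L, hL⟩ : ∃ L, L = 6 * M + 1 := ⟨_, rfl⟩
  have hL0 : 0 < L := by linarith
  let U : Set XS := Metric.ball 0 L ×ˢ (Ioo p1 p2 ×ˢ Ioo (-p2) p2)
  have hUo : IsOpen U := Metric.isOpen_ball.prod (isOpen_Ioo.prod isOpen_Ioo)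
  have hUc : closure U = Metric.closedBall 0 L ×ˢ (Icc p1 p2 ×ˢ Icc (-p2) p2) := by
    show closure (Metric.ball (0 : C(S2, Fin 3 → ℝ)) L ×ˢ (Ioo p1 p2 ×ˢ Ioo (-p2) p2)) = _
    rw [closure_prod_eq, closure_prod_eq, closure_ball _ hL0.ne', closure_Ioo (by linarith), closure_Ioo (by linarith)]
  have hx0 : ((0, 1, 0) : XS) ∈ U := by
    refine ⟨Metric.mem_ball_self hL0, ⟨?_, ?_⟩, ⟨?_, ?_⟩⟩ <;> linarith
  have hbd : ∀ t ∈ Icc (0 : ℝ) 1, ∀ x ∈ closure U, ‖G t x‖ ≤ M := by
    intro t ht x hx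
    rw [hUc] at hx
    rw [ContinuousMap.norm_le _ hM.le]
    intro n
    rw [hGv t ht x hx.2.1.1 n]
    exact hMb _ (htau0 t ht) _ _ ⟨hx.2.1, hx.2.2⟩ n _
  -- solutions
  have hsol : ∀ t ∈ Icc (0 : ℝ) 1, ∀ x ∈ closure U, H t x = x →
      Sol B k ε (tau t) (cc t) x.2.1 x.2.2 (fun m => 2 * (G t x m).re) (fun m => 2 * (G t x m).im) := by
    intro t ht x hx hfix
    rw [hUc] at hx
    have e1 : T (G t x) = x.1 := congrArg Prod.fst hfix
    have e2 : x.2.1 + av (fun n => (G t x n).re) = x.2.1 := congrArg (fun y : XS => y.2.1) hfix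
    have e3 : x.2.2 + av (fun n => (G t x n).im) = x.2.2 := congrArg (fun y : XS => y.2.2) hfix
    have e4 : ∀ n i, x.1 n i = TE ε (fun m => 2 * (G t x m).re) (fun m => 2 * (G t x m).im) n i := by
      intro n i
      rw [← hTv (G t x) n i, e1]
    have e5 : ∀ n, G t x n = alt B k (tau t) x.2.1 x.2.2 n
        (fun i => cc t * TE ε (fun m => 2 * (G t x m).re) (fun m => 2 * (G t x m).im) n i) := by
      intro n
      have h1 := hGv t ht x hx.2.1.1 n
      have h2 : (fun i => cc t * x.1 n i) =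
          fun i => cc t * TE ε (fun m => 2 * (G t x m).re) (fun m => 2 * (G t x m).im) n i := by
        funext i
        rw [e4 n i]
      rw [h2] at h1
      exact h1
    refine ⟨?_, ?_, fun n => ?_, fun n => ?_, ?_, ?_⟩
    · exact continuous_const.mul (Complex.continuous_re.comp (G t x).continuous)
    · exact continuous_const.mul (Complex.continuous_im.comp (G t x).continuous)
    · rw [← e5 n]
    · rw [← e5 n]
    · rw [asm_av_smul]
      linarith
    · rw [asm_av_smul]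
      linarith
  have hgood : ∀ t ∈ Icc (0 : ℝ) 1, 1 / 2 < t → ∀ x ∈ closure U, H t x = x →
      Sol B k ε (tau t) 1 x.2.1 x.2.2 (fun m => 2 * (G t x m).re) (fun m => 2 * (G t x m).im) := by
    intro t ht ht2 x hx hfix
    have h1 := hsol t ht x hx hfix
    have h2 : cc t = 1 := by
      show Real.sqrt (min 1 (2 * t)) = 1
      rw [min_eq_left (by linarith), Real.sqrt_one]
    rwa [h2] at h1
  have hfp : ∃ x ∈ U, H 1 x = x := by
    refine homotopy_fp U hUo (0, 1, 0) hx0
      ({v : C(S2, Fin 3 → ℝ) | (∀ n i, |v n i| ≤ 6 * M) ∧ ∀ n n' i, |v n i - v n' i| ≤ 200 * M * Real.sqrt (dist n n')} ×ˢ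
        (Icc (p1 - M) (p2 + M) ×ˢ Icc (-p2 - M) (p2 + M)))
      ((holder_compact (6 * M) (200 * M)).prod (isCompact_Icc.prod isCompact_Icc)) H hHc.continuousOn ?_ ?_ ?_
    · -- compactness
      intro t ht x hx
      have h1 := hbd t ht x hx
      have h2 := hTb (G t x) M h1
      have h3 : ∀ n : S2, |(G t x n).re| ≤ M := fun n =>
        (Complex.abs_re_le_norm _).trans (((G t x).norm_coe_le_norm n).trans h1)
      have h4 : ∀ n : S2, |(G t x n).im| ≤ M := fun n =>
        (Complex.abs_im_le_norm _).trans (((G t x).norm_coe_le_norm n).trans h1)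
      have h5 : |av (fun n => (G t x n).re)| ≤ M := by
        have h := asm_av_lip (f := fun n => (G t x n).re) (g := fun _ => 0) (d := M)
          (Complex.continuous_re.comp (G t x).continuous) continuous_const (fun n => by
            rw [sub_zero]
            exact h3 n)
        rwa [NullS.av_const, sub_zero] at h
      have h6 : |av (fun n => (G t x n).im)| ≤ M := by
        have h := asm_av_lip (f := fun n => (G t x n).im) (g := fun _ => 0) (d := M)
          (Complex.continuous_im.comp (G t x).continuous) continuous_const (fun n => by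
            rw [sub_zero]
            exact h4 n)
        rwa [NullS.av_const, sub_zero] at h
      rw [hUc] at hx
      obtain ⟨-, hx2, hx3⟩ := hx
      rw [abs_le] at h5 h6
      refine ⟨h2, ⟨?_, ?_⟩, ⟨?_, ?_⟩⟩
      · show p1 - M ≤ x.2.1 + av (fun n => (G t x n).re)
        linarith [hx2.1, h5.1]
      · show x.2.1 + av (fun n => (G t x n).re) ≤ p2 + M
        linarith [hx2.2, h5.2]
      · show -p2 - M ≤ x.2.2 + av (fun n => (G t x n).im)
        linarith [hx3.1, h6.1]
      · show x.2.2 + av (fun n => (G t x n).im) ≤ p2 + M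
        linarith [hx3.2, h6.2]
    · -- t = 0
      intro x hx
      rw [hUc] at hx
      have hP : 0 < x.2.1 := hp1p.trans_le hx.2.1.1
      have h0 : (0 : ℝ) ∈ Icc (0 : ℝ) 1 := ⟨le_rfl, zero_le_one⟩
      have ht0 : tau 0 = 0 := by
        show max 0 (2 * (0 : ℝ) - 1) = 0
        norm_num
      have hc0 : cc 0 = 0 := by
        show Real.sqrt (min 1 (2 * 0)) = 0
        norm_num
      have hG0 : ∀ n, G 0 x n = 1 - (x.2.1 : ℂ) - (x.2.2 : ℂ) * Complex.I := by
        intro n
        rw [hGv 0 h0 x hx.2.1.1 n, ht0, hc0]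
        have e : (fun i => (0 : ℝ) * x.1 n i) = fun _ => 0 := by
          funext i
          ring
        rw [e, alt_zero hB hk' hP n (V := fun _ => 0) (by simp), asm_cut_zero hP hk', beta_zero]
      have hre : ∀ n, (G 0 x n).re = 1 - x.2.1 := by
        intro n
        rw [hG0 n]
        simp
      have him : ∀ n, (G 0 x n).im = -x.2.2 := by
        intro n
        rw [hG0 n]
        simp
      have hT0 : T (G 0 x) = 0 := by
        ext n i
        rw [hTv (G 0 x) n i]
        simp only [hre, him]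
        exact NullS.TE_const hε0 _ _ n i
      show (T (G 0 x), x.2.1 + av (fun n => (G 0 x n).re), x.2.2 + av (fun n => (G 0 x n).im)) = (0, 1, 0)
      simp only [hre, him, NullS.av_const, hT0]
      refine Prod.ext rfl (Prod.ext ?_ ?_)
      · show x.2.1 + (1 - x.2.1) = 1
        ring
      · show x.2.2 + -x.2.2 = 0
        ring
    · -- no fixed points on the frontier
      intro t ht x hx hfix
      have hcl : x ∈ closure U := frontier_subset_closure hx
      have hnU : x ∉ U := by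
        rw [hUo.frontier_eq] at hx
        exact hx.2
      apply hnU
      have hcl' := hcl
      rw [hUc] at hcl'
      have hP : 0 < x.2.1 := hp1p.trans_le hcl'.2.1.1
      have hv : x.1 ∈ Metric.ball (0 : C(S2, Fin 3 → ℝ)) L := by
        have e1 : T (G t x) = x.1 := congrArg Prod.fst hfix
        have h2 := (hTb (G t x) M (hbd t ht x hcl)).1
        rw [e1] at h2
        rw [mem_ball_zero_iff]
        have h3 : ‖x.1‖ ≤ 6 * M := by
          rw [ContinuousMap.norm_le _ (by positivity)]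
          intro n
          rw [pi_norm_le_iff_of_nonneg (by positivity)]
          intro i
          rw [Real.norm_eq_abs]
          exact h2 n i
        linarith
      have hpar : p1 < x.2.1 ∧ x.2.1 < p2 ∧ -p2 < x.2.2 ∧ x.2.2 < p2 := by
        rcases le_or_gt t (1 / 2) with h | h
        · have hs := hsol t ht x hcl hfix
          have ht0 : tau t = 0 := by
            show max 0 (2 * t - 1) = 0
            exact max_eq_left (by linarith)
          rw [ht0] at hs
          obtain ⟨h1, h2, h3⟩ := ha ε ⟨hε0, hεa'⟩ (cc t) (hcc0 t ht) _ _ ⟨hcl'.2.1, hcl'.2.2⟩ _ _ hs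
          rw [h1]
          refine ⟨?_, ?_, ?_, ?_⟩ <;> linarith
        · have hs := hgood t ht h x hcl hfix
          obtain ⟨g1, g2, g3⟩ := hb ε ⟨hε0, hεb'⟩ (tau t) (htau0 t ht) x.2.1 x.2.2 ⟨hcl'.2.1, hcl'.2.2⟩ _ _ hs
          have hτ : tau t ∈ Ioc (0 : ℝ) 1 := ⟨by
            show 0 < max 0 (2 * t - 1)
            exact lt_max_of_lt_right (by linarith), (htau0 t ht).2⟩
          have h1 := hGI (tau t) hτ x.2.1 x.2.2 hP _ g1 g2
          have h2 := asm_bounds hcA hD hP (g3.trans (min_le_left _ _)) (h1.trans hCD)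
          rw [← hp1, ← hp2] at h2
          exact h2
      exact ⟨hv, ⟨hpar.1, hpar.2.1⟩, ⟨hpar.2.2.1, hpar.2.2.2⟩⟩
  obtain ⟨x, hxU, hx1⟩ := hfp
  have hcl : x ∈ closure U := subset_closure hxU
  have hs := hgood 1 ⟨zero_le_one, le_rfl⟩ (by norm_num) x hcl hx1
  have ht1 : tau 1 = 1 := by
    show max 0 (2 * (1 : ℝ) - 1) = 1
    norm_num
  rw [ht1] at hs
  rw [hUc] at hcl
  obtain ⟨g1, g2, g3⟩ := hb ε ⟨hε0, hεb'⟩ 1 ⟨zero_le_one, le_rfl⟩ x.2.1 x.2.2 ⟨hcl.2.1, hcl.2.2⟩ _ _ hs
  exact ⟨x.2.1, x.2.2, _, hp1p.trans_le hcl.2.1.1, g1, g2, g3.trans (min_le_right _ _)⟩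

end H17S
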