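import Pool.Agent.Lib.H17U.FN
import Pool.Agent.Lib.H17S.FOut
import Pool.Agent.Lib.H17S.GOut
import Pool.Agent.Lib.H17S.XOut
import Pool.Agent.Lib.H17S.FamOf

set_option autoImplicit false

/-!
Assembly of the sharp null Penrose inequality. PROOF.md, section 7.
-/

open MeasureTheory Filter Topology Set

namespace H17S

open NullPen (E3 S2 sm proj MatterData)

variable {D : MatterData}

theorem fin_E_nonneg (hD : D.IsNull) (hA : D.AsympFlat) (htr : ∀ n : S2, D.θ 0 n ≤ 0) {E : ℝ} (hE : D.BondiEnergy E) : 0 ≤ E := by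
  have h := NullU.penrose hD hA htr hE
  have h2 := Real.sqrt_nonneg (D.area 0 / (16 * Real.pi))
  have h3 : (0 : ℝ) ≤ 10 ^ 6 * E := h2.trans h
  linarith

/-- `s <= sqrt (dA s)`. -/
theorem fin_dA_ge (hD : D.IsNull) (hA : D.AsympFlat) {s : ℝ} (hs : 0 < s) (n : S2) : s ^ 2 ≤ D.dA s n := by
  have h1 := NullU.r_ge hD hA hs n
  have h2 := NullU.be_nonneg hD hA hs n
  have h3 : s ≤ Real.sqrt (D.dA s n) := by linarith
  have h4 : (0 : ℝ) ≤ D.dA s n := (NullU.dA_pos hD n hs.le).le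
  calc s ^ 2 ≤ Real.sqrt (D.dA s n) ^ 2 := by gcongr
    _ = D.dA s n := Real.sq_sqrt h4

theorem fin_const (c : ℝ) : ∫ _ : S2, c ∂sm = 4 * Real.pi * c := by
  have hsm : sm.real Set.univ = 4 * Real.pi := Pool.Agent.Lib.PenroseSph.sm_univ
  rw [integral_const, smul_eq_mul, hsm]

theorem fin_area (hD : D.IsNull) (hA : D.AsympFlat) {δ τ : ℝ} (hδ : 0 < δ) (hτ : τ ∈ Ioc (0 : ℝ) 1) :
    4 * Real.pi * min 1 δ ^ 2 ≤ ∫ n : S2, τ ^ 2 * D.dA (δ + (1 - τ) / τ) n ∂sm := by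
  have hτ0 : 0 < τ := hτ.1
  have hτ1 : τ ≤ 1 := hτ.2
  have ht : 0 < δ + (1 - τ) / τ := by
    have : 0 ≤ (1 - τ) / τ := div_nonneg (by linarith) hτ0.le
    linarith
  have hf : IsFiniteMeasure sm := by
    change IsFiniteMeasure ((volume : Measure E3).toSphere)
    infer_instance
  rw [← fin_const]
  refine integral_mono (integrable_const _) ?_ fun n => ?_
  · exact (NullPen.integrable_sm (NullU.dA_cont_at hD ht.le)).const_mul _
  · have h1 := fin_dA_ge hD hA ht n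
    have h2 : min 1 δ ≤ τ * (δ + (1 - τ) / τ) := by
      have e : τ * (δ + (1 - τ) / τ) = τ * δ + (1 - τ) * 1 := by field_simp
      rw [e]
      have h3 : min 1 δ ≤ δ := min_le_right _ _
      have h4 : min 1 δ ≤ 1 := min_le_left _ _
      nlinarith
    have h3 : 0 ≤ min 1 δ := le_min zero_le_one hδ.le
    calc min 1 δ ^ 2 ≤ (τ * (δ + (1 - τ) / τ)) ^ 2 := by gcongr
      _ = τ ^ 2 * (δ + (1 - τ) / τ) ^ 2 := by ring
      _ ≤ τ ^ 2 * D.dA (δ + (1 - τ) / τ) n := by gcongr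

/-- `(A + 4 pi (P^2 + N^2))/P >= sqrt (16 pi A)`. -/
theorem fin_amgm {A P N : ℝ} (hA : 0 ≤ A) (hP : 0 < P) :
    Real.sqrt (16 * Real.pi * A) ≤ (A + 4 * Real.pi * (P ^ 2 + N ^ 2)) / P := by
  have hpi := Real.pi_pos
  rw [le_div_iff₀ hP]
  have h1 : Real.sqrt (16 * Real.pi * A) ^ 2 = 16 * Real.pi * A := Real.sq_sqrt (by positivity)
  have h2 := Real.sqrt_nonneg (16 * Real.pi * A)
  have h3 : 0 ≤ (Real.sqrt (16 * Real.pi * A) - 8 * Real.pi * P) ^ 2 := sq_nonneg _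
  have h4 : 16 * Real.pi * (Real.sqrt (16 * Real.pi * A) * P) ≤ 16 * Real.pi * (A + 4 * Real.pi * P ^ 2) := by nlinarith
  have h5 : Real.sqrt (16 * Real.pi * A) * P ≤ A + 4 * Real.pi * P ^ 2 := le_of_mul_le_mul_left h4 (by positivity)
  have h6 : 0 ≤ 4 * Real.pi * N ^ 2 := by positivity
  linarith

theorem fin_aux (hD : D.IsNull) (hA : D.AsympFlat) (htr : ∀ n : S2, D.θ 0 n ≤ 0) {E : ℝ} (hE : D.BondiEnergy E)
    {δ η : ℝ} (hδ : 0 < δ) (hη : 0 < η) : Real.sqrt (16 * Real.pi * D.area 0) ≤ 16 * Real.pi * E + 8 * Real.pi * δ + η := by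
  have hpi := Real.pi_pos
  have hE0 := fin_E_nonneg hD hA htr hE
  obtain ⟨C, Bi, b0, hI, hI2⟩ := exists_finf hD hA hδ
  have hF : Fam (Bt Bi δ) (C + 2 * δ + 4) := fam_of hI.cont hI.bd
    (fun s hs n m i j => by
      have h := hI2.lip s hs n m i j
      rwa [Subtype.dist_eq, dist_eq_norm] at h) hδ hI.C_nonneg le_rfl
  have hGI : GI (Bt Bi δ) (4 * Real.pi * min 1 δ ^ 2) (16 * Real.pi * E + 8 * Real.pi * (1 + δ)) := by
    intro τ hτ P N hP V hV hX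
    have h1 := gi_tau hD hA htr hE hI hI2 hτ hP hV hX
    have h2 := fin_area hD hA hδ hτ
    have h3 : (4 * Real.pi * min 1 δ ^ 2 + 4 * Real.pi * (P ^ 2 + N ^ 2)) / P ≤
        ((∫ n : S2, τ ^ 2 * D.dA (δ + (1 - τ) / τ) n ∂sm) + 4 * Real.pi * (P ^ 2 + N ^ 2)) / P := by
      gcongr
    have h4 : τ * (16 * Real.pi * E) ≤ 16 * Real.pi * E := by
      have : 0 ≤ 16 * Real.pi * E := by positivity
      nlinarith [hτ.2]
    have h5 : 8 * Real.pi * (τ * δ + 1 - τ) ≤ 8 * Real.pi * (1 + δ) := by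
      have : τ * δ + 1 - τ ≤ 1 + δ := by nlinarith [hτ.1, hτ.2]
      gcongr
    linarith
  have hcA : 0 < 4 * Real.pi * min 1 δ ^ 2 := by
    have : 0 < min 1 δ := lt_min one_pos hδ
    positivity
  obtain ⟨P, N, V, hP, hV, hX, herr⟩ := existence (Bt Bi δ) _ _ _ hF hcA hGI η hη
  have h1 := gi_tau hD hA htr hE hI hI2 (τ := 1) ⟨one_pos, le_rfl⟩ hP hV hX
  have h2 : (∫ n : S2, (1 : ℝ) ^ 2 * D.dA (δ + (1 - 1) / 1) n ∂sm) = D.area δ := by
    unfold NullPen.NullData.area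
    simp
  rw [h2] at h1
  have h3 : 0 ≤ D.area δ := integral_nonneg fun n => Real.sqrt_nonneg _
  have h4 := fin_amgm (N := N) h3 hP
  have h5 : Real.sqrt (16 * Real.pi * D.area 0) ≤ Real.sqrt (16 * Real.pi * D.area δ) := by
    apply Real.sqrt_le_sqrt
    have := NullU.area_mono0 hD hA hδ
    gcongr
  have h6 : 1 * (16 * Real.pi * E) + 8 * Real.pi * (1 * δ + 1 - 1) = 16 * Real.pi * E + 8 * Real.pi * δ := by ring
  rw [h6] at h1
  linarith

/-- The sharp null Penrose inequality. -/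
theorem sharp (hD : D.IsNull) (hA : D.AsympFlat) (htr : ∀ n : S2, D.θ 0 n ≤ 0) {E : ℝ} (hE : D.BondiEnergy E) :
    Real.sqrt (D.area 0 / (16 * Real.pi)) ≤ E := by
  have hpi := Real.pi_pos
  have key : Real.sqrt (16 * Real.pi * D.area 0) ≤ 16 * Real.pi * E := by
    refine le_of_forall_pos_le_add fun x hx => ?_
    have h := fin_aux hD hA htr hE (δ := x / (16 * Real.pi)) (η := x / 2) (by positivity) (by positivity)
    have e : 8 * Real.pi * (x / (16 * Real.pi)) = x / 2 := by field_simp; norm_num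
    rw [e] at h
    linarith
  have e : D.area 0 / (16 * Real.pi) = 16 * Real.pi * D.area 0 / (16 * Real.pi) ^ 2 := by field_simp
  rw [e, Real.sqrt_div' _ (by positivity), Real.sqrt_sq (by positivity), div_le_iff₀ (by positivity)]
  linarith

theorem mainS : (∀ D : MatterData, D.IsNull → D.AsympFlat → (∀ n : S2, D.θ 0 n ≤ 0) → ∀ E, D.BondiEnergy E →
      Real.sqrt (D.area 0 / (16 * Real.pi)) ≤ E) ∧
    ∀ (A E : ℝ) (P : Fin 3 → ℝ), (∀ (u : Fin 3 → ℝ) (γ : ℝ), 0 < γ → γ ^ 2 = 1 + ∑ i, u i ^ 2 →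
      ∃ D : MatterData, D.IsNull ∧ D.AsympFlat ∧ (∀ n : S2, D.θ 0 n ≤ 0) ∧ D.area 0 = A ∧ D.BondiEnergy (γ * E - ∑ i, u i * P i)) →
    Real.sqrt (∑ i, P i ^ 2) < E ∧ Real.sqrt (A / (16 * Real.pi)) ≤ Real.sqrt (E ^ 2 - ∑ i, P i ^ 2) := by
  refine ⟨fun D hD hA htr E hE => sharp hD hA htr hE, fun A E P h => ?_⟩
  have hπ := Real.pi_pos
  obtain ⟨D, hD, _, _, hA, _⟩ := h (fun _ => 0) 1 one_pos (by simp)
  have hA0 : 0 < A := hA ▸ NullU.area_pos hD
  have hs : 0 < Real.sqrt (A / (16 * Real.pi)) := Real.sqrt_pos.2 (by positivity)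
  exact NShell.mass_of_all E (Real.sqrt (A / (16 * Real.pi))) P hs fun u γ hγ hu => by
    obtain ⟨D', hD', hF', ht', hA', hE'⟩ := h u γ hγ hu
    rw [← hA']
    exact sharp hD' hF' ht' hE'

end H17S
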