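import Pool.Agent.Lib.H17S.N5

set_option autoImplicit false

/-!
Chunk N6 (M). The null Lagrangian. `X = nsq (V n)`.
`nl_G`: the function `F_j(y) = G(nsq (V y)) uv V y j` is of class `C1S` (`C1S.comp`, `C1S.mul`; `uv V . j` is smooth: `dv_smooth`, `cl_smooth`, `rl_smooth`, `nsq_smooth`), `∑_j L_j F_j = G(X) (2 dtB - X) + G'(X) ∑_j uv_j L_j X = G (2 dtB - X) + 2 G' X dtB` (`rl_mul`, `rl_comp`, `b2`, `uv_nsq`);
integrate (`int_rl1`, `integral_finset_sum`, `cont_int`).
`nl_mono`: `G(x) = x^k / (2 (k+1))`, `2 (G + x G') = x^k`, `G x = x^(k+1) / (2 (k+1))`. `nl_poly`: linear combinations: for a polynomial `P` with `K(x) = - (1/2) ∫_0^x P`: induction (`Polynomial.induction_on'`) or sum over the coefficients.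
`null_lag`: let `x1 := max nsq (V n) < x0` (the sphere is compact and nonempty; or `x1 = 0` bound below: `0 <= nsq`). For `ε > 0` there is a polynomial `P` with `|P - ν| <= ε` on `[0,x1]` (`exists_polynomial_near_continuousMap` / `exists_polynomial_near_of_continuousOn`). On `[0,x1]`:
`|K_P(x) - ka(x)| <= ε x1 / 2`. So `|∫ (ka + ν dtB)| = |∫ (ka - K_P + (ν - P) dtB)| <= ε (x1/2 * 4π + ∫ |dtB|)`; `ε → 0`.
-/

open MeasureTheory Filter Topology Set
open scoped ContDiff ComplexConjugate

namespace H17S.Sph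

open NullPen (E3 S2 sm proj)
open NullU (rl crs dtB Tng cf)

variable {V : E3 → Fin 3 → ℝ}

theorem n6_uv (hV : TF V) (j : Fin 3) : ContDiff ℝ ∞ (fun y => uv V y j) := by
  have hc : ∀ i : Fin 3, ContDiff ℝ ∞ (fun y : E3 => y i) := by
    intro i
    exact (EuclideanSpace.proj (𝕜 := ℝ) i).contDiff
  have hcr : ContDiff ℝ ∞ (fun y : E3 => cr y (V y) j) := by
    have : (fun y : E3 => cr y (V y) j) = fun y : E3 => y (j + 1) * V y (j + 2) - y (j + 2) * V y (j + 1) := rfl
    rw [this]
    exact ((hc _).mul (hV.sm _)).sub ((hc _).mul (hV.sm _))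
  exact (((dv_smooth hV).mul hcr).add ((cl_smooth hV).mul (hV.sm j))).sub
    ((rl_smooth (nsq_smooth hV) j).div_const 2)

theorem nl_G (hV : TF V) {G G' : ℝ → ℝ} (hG : ∀ x, HasDerivAt G (G' x) x) (hG' : Continuous G') :
    ∫ n : S2, (2 * (G (nsq (V n)) + nsq (V n) * G' (nsq (V n))) * dtB (DV V n) - G (nsq (V n)) * nsq (V n)) ∂sm = 0 := by
  have cX : C1S (fun y => nsq (V y)) := C1S.of_smooth (nsq_smooth hV)
  have cG : C1S (fun y => G (nsq (V y))) := C1S.comp cX (fun n => hG _) (hG'.comp cX.cont0)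
  have cU : ∀ j, C1S (fun y => uv V y j) := fun j => C1S.of_smooth (n6_uv hV j)
  have cF : ∀ j, C1S (fun y => G (nsq (V y)) * uv V y j) := fun j => cG.mul (cU j)
  have key : ∀ n : S2, ∑ j, rl j (fun y => G (nsq (V y)) * uv V y j) n =
      2 * (G (nsq (V n)) + nsq (V n) * G' (nsq (V n))) * dtB (DV V n) - G (nsq (V n)) * nsq (V n) := by
    intro n
    have a : ∀ j, rl j (fun y => G (nsq (V y)) * uv V y j) n =
        G' (nsq (V n)) * (uv V n j * rl j (fun y => nsq (V y)) n) + G (nsq (V n)) * rl j (fun y => uv V y j) n := by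
      intro j
      rw [rl_mul (cG.diff n) ((cU j).diff n), rl_comp (cX.diff n) (hG _)]
      ring
    simp only [a]
    rw [Finset.sum_add_distrib, ← Finset.mul_sum, ← Finset.mul_sum, b2 hV, uv_nsq hV.td]
    ring
  rw [← integral_congr_ae (Eventually.of_forall key), integral_finsetSum]
  · exact Finset.sum_eq_zero fun j _ => int_rl1 (cF j) j
  · intro j _
    exact cont_int ((cF j).rl_cont j)

theorem n6_exG (P : Polynomial ℝ) : ∃ G : Polynomial ℝ, Polynomial.C 2 * (G + Polynomial.X * Polynomial.derivative G) = P := by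
  induction P using Polynomial.induction_on' with
  | add p q hp hq =>
    obtain ⟨G, hG⟩ := hp
    obtain ⟨K, hK⟩ := hq
    refine ⟨G + K, ?_⟩
    rw [← hG, ← hK, Polynomial.derivative_add]
    ring
  | monomial k a =>
    refine ⟨Polynomial.monomial k (a / (2 * (k + 1))), ?_⟩
    have h : (2 * ((k : ℝ) + 1)) ≠ 0 := by positivity
    rcases Nat.eq_zero_or_pos k with rfl | hk
    · simp only [Polynomial.derivative_monomial, Nat.cast_zero, mul_zero, Polynomial.monomial_zero_right, add_zero]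
      rw [Polynomial.C_mul_monomial]
      congr 1
      field_simp
      ring
    · obtain ⟨m, rfl⟩ : ∃ m, k = m + 1 := ⟨k - 1, by omega⟩
      rw [Polynomial.derivative_monomial, Nat.add_sub_cancel, Polynomial.X_mul_monomial, ← map_add,
        Polynomial.C_mul_monomial]
      congr 1
      push_cast at h ⊢
      field_simp
      ring

theorem nl_poly (hV : TF V) (P : Polynomial ℝ) :
    ∫ n : S2, (-(1 / 2) * (∫ t in (0 : ℝ)..nsq (V n), P.eval t) + P.eval (nsq (V n)) * dtB (DV V n)) ∂sm = 0 := by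
  obtain ⟨G, hG⟩ := n6_exG P
  have e1 : ∀ x : ℝ, P.eval x = 2 * (G.eval x + x * (Polynomial.derivative G).eval x) := by
    intro x
    rw [← hG]
    simp
  have e2 : ∀ x : ℝ, ∫ t in (0 : ℝ)..x, P.eval t = 2 * (G.eval x * x) := by
    intro x
    have hd : ∀ t : ℝ, HasDerivAt (fun t : ℝ => 2 * (G.eval t * t)) (P.eval t) t := by
      intro t
      have := ((G.hasDerivAt t).mul (hasDerivAt_id t)).const_mul 2
      have e3 : 2 * (Polynomial.eval t (Polynomial.derivative G) * id t + Polynomial.eval t G * 1) = P.eval t := by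
        rw [e1]
        simp only [id]
        ring
      rw [e3] at this
      exact this
    rw [intervalIntegral.integral_eq_sub_of_hasDerivAt (fun t _ => hd t)
      (Polynomial.continuous P).continuousOn.intervalIntegrable]
    simp
  refine Eq.trans ?_ (nl_G hV (G := fun x => G.eval x) (G' := fun x => (Polynomial.derivative G).eval x)
    (fun x => G.hasDerivAt x) (Polynomial.continuous _))
  apply integral_congr_ae
  refine Eventually.of_forall fun n => ?_
  show -(1 / 2) * (∫ t in (0 : ℝ)..nsq (V n), P.eval t) + P.eval (nsq (V n)) * dtB (DV V n) =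
    2 * (G.eval (nsq (V n)) + nsq (V n) * (Polynomial.derivative G).eval (nsq (V n))) * dtB (DV V n) -
      G.eval (nsq (V n)) * nsq (V n)
  rw [e2, e1]
  ring

/-- The null Lagrangian. -/
theorem null_lag (hV : TF V) {x0 : ℝ} (hx : ∀ n : S2, nsq (V n) < x0) {ν ka : ℝ → ℝ} (hν : ContinuousOn ν (Ico 0 x0))
    (hk : ∀ x ∈ Ico 0 x0, ka x = -(1 / 2) * ∫ t in (0 : ℝ)..x, ν t) :
    ∫ n : S2, (ka (nsq (V n)) + ν (nsq (V n)) * dtB (DV V n)) ∂sm = 0 := by
  have cX : C1S (fun y => nsq (V y)) := C1S.of_smooth (nsq_smooth hV)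
  have hXc : Continuous (fun n : S2 => nsq (V n)) := cX.cont0
  have hX0 : ∀ n : S2, 0 ≤ nsq (V n) := fun n => Finset.sum_nonneg fun i _ => sq_nonneg _
  have hDc : Continuous (fun n : S2 => dtB (DV V n)) := dtB_cont (fun i => hV.c1 i)
  by_cases hI : Integrable (fun n : S2 => ka (nsq (V n)) + ν (nsq (V n)) * dtB (DV V n)) sm
  swap
  · exact integral_undef hI
  rcases isEmpty_or_nonempty S2 with hE | hN
  · rw [integral_eq_zero_of_ae]
    exact Eventually.of_forall fun n => (hE.false n).elim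
  obtain ⟨n0, -, hn0⟩ := (isCompact_univ (X := S2)).exists_isMaxOn univ_nonempty hXc.continuousOn
  set x1 : ℝ := nsq (V n0) with hx1
  have hle : ∀ n : S2, nsq (V n) ≤ x1 := fun n => hn0 (mem_univ n)
  have hx10 : 0 ≤ x1 := hX0 n0
  have hsub : Icc 0 x1 ⊆ Ico 0 x0 := fun x hx' => ⟨hx'.1, hx'.2.trans_lt (hx n0)⟩
  have hν1 : ContinuousOn ν (Icc 0 x1) := hν.mono hsub
  set C : ℝ := ∫ n : S2, (x1 / 2 + |dtB (DV V n)|) ∂sm with hC
  have hCi : Continuous (fun n : S2 => x1 / 2 + |dtB (DV V n)|) := continuous_const.add hDc.abs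
  have hC0 : 0 ≤ C := integral_nonneg fun n => by positivity
  have main : ∀ ε : ℝ, 0 < ε → |∫ n : S2, (ka (nsq (V n)) + ν (nsq (V n)) * dtB (DV V n)) ∂sm| ≤ ε * C := by
    intro ε hε
    obtain ⟨P, hP⟩ := exists_polynomial_near_of_continuousOn 0 x1 ν hν1 ε hε
    have hPc : Continuous (fun x : ℝ => ∫ t in (0 : ℝ)..x, P.eval t) :=
      intervalIntegral.continuous_primitive (fun a b => (Polynomial.continuous P).intervalIntegrable a b) 0
    have hIP : Integrable (fun n : S2 => -(1 / 2) * (∫ t in (0 : ℝ)..nsq (V n), P.eval t) +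
        P.eval (nsq (V n)) * dtB (DV V n)) sm := by
      apply cont_int
      exact (continuous_const.mul (hPc.comp hXc)).add (((Polynomial.continuous P).comp hXc).mul hDc)
    have e1 : ∫ n : S2, (ka (nsq (V n)) + ν (nsq (V n)) * dtB (DV V n)) ∂sm =
        ∫ n : S2, ((ka (nsq (V n)) + ν (nsq (V n)) * dtB (DV V n)) -
          (-(1 / 2) * (∫ t in (0 : ℝ)..nsq (V n), P.eval t) + P.eval (nsq (V n)) * dtB (DV V n))) ∂sm := by
      rw [integral_sub hI hIP, nl_poly hV P, sub_zero]
    rw [e1, hC, ← integral_const_mul, ← Real.norm_eq_abs]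
    apply norm_integral_le_of_norm_le ((cont_int hCi).const_mul ε)
    refine Eventually.of_forall fun n => ?_
    set X : ℝ := nsq (V n) with hX
    have hXm : X ∈ Icc 0 x1 := ⟨hX0 n, hle n⟩
    have hXi : Icc 0 X ⊆ Icc 0 x1 := Icc_subset_Icc_right hXm.2
    have i1 : IntervalIntegrable ν volume 0 X := by
      apply ContinuousOn.intervalIntegrable
      rw [uIcc_of_le hXm.1]
      exact hν1.mono hXi
    have i2 : IntervalIntegrable (fun t => P.eval t) volume 0 X := (Polynomial.continuous P).intervalIntegrable _ _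
    have b1 : |∫ t in (0 : ℝ)..X, (ν t - P.eval t)| ≤ ε * X := by
      have := intervalIntegral.norm_integral_le_of_norm_le_const (a := 0) (b := X) (C := ε)
        (f := fun t => ν t - P.eval t) (fun t ht => by
          rw [uIoc_of_le hXm.1] at ht
          have := hP t (hXi ⟨ht.1.le, ht.2⟩)
          rw [abs_sub_comm] at this
          rw [Real.norm_eq_abs]
          exact this.le)
      rw [Real.norm_eq_abs, sub_zero, abs_of_nonneg hXm.1] at this
      exact this
    have b2 : |ν X - P.eval X| ≤ ε := by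
      have := hP X hXm
      rw [abs_sub_comm] at this
      exact this.le
    rw [hk X (hsub hXm), Real.norm_eq_abs]
    have e2 : -(1 / 2) * (∫ t in (0 : ℝ)..X, ν t) + ν X * dtB (DV V n) -
        (-(1 / 2) * (∫ t in (0 : ℝ)..X, P.eval t) + P.eval X * dtB (DV V n)) =
        -(1 / 2) * (∫ t in (0 : ℝ)..X, (ν t - P.eval t)) + (ν X - P.eval X) * dtB (DV V n) := by
      rw [intervalIntegral.integral_sub i1 i2]
      ring
    rw [e2]
    have b3 : ε * X ≤ ε * x1 := by
      have := hXm.2
      gcongr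
    calc |-(1 / 2) * (∫ t in (0 : ℝ)..X, (ν t - P.eval t)) + (ν X - P.eval X) * dtB (DV V n)|
        ≤ |-(1 / 2) * (∫ t in (0 : ℝ)..X, (ν t - P.eval t))| + |(ν X - P.eval X) * dtB (DV V n)| := abs_add_le _ _
      _ = (1 / 2) * |∫ t in (0 : ℝ)..X, (ν t - P.eval t)| + |ν X - P.eval X| * |dtB (DV V n)| := by
          rw [abs_mul, abs_mul]
          norm_num
      _ ≤ (1 / 2) * (ε * x1) + ε * |dtB (DV V n)| := by
          have := b1.trans b3
          gcongr
      _ = ε * (x1 / 2 + |dtB (DV V n)|) := by ring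
  have fin : |∫ n : S2, (ka (nsq (V n)) + ν (nsq (V n)) * dtB (DV V n)) ∂sm| ≤ 0 := by
    apply le_of_forall_pos_le_add
    intro ε hε
    have h1 := main (ε / (C + 1)) (by positivity)
    have h2 : ε / (C + 1) * C ≤ ε := by
      rw [div_mul_eq_mul_div, div_le_iff₀ (by positivity)]
      nlinarith
    linarith
  exact abs_nonpos_iff.1 fin

end H17S.Sph
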