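import Pool.Agent.Lib.H17S.W15

set_option autoImplicit false

/-!
Chunk W16 (M). The corollary of the pointwise theorem.
* `al_eq`: `4 ∫_0^∞ conj ac t dt = ν (β + iN) - 2`: `4 ac = E1'` (`E1_d`); `(t conj E1 - conj E)' = t conj (4 ac)`; the function `s conj E1 - conj E` is `0` for `s = 0` (`E 0 = 0`, continuity) and tends to `ν(β + iN) - 2`:
  `E = - 2 K conj ρ g`, `K = Ki - 1/r + O(r^-2)`, `g = 1 + O(r^-2)`: `conj E = -2 (Ki - 1/r)(r + iN) + o(1) = - ν (r + iN) + 2 + o(1)`, `s E1 = - ν s + O(1/s)` (`E1_as`), `r - s -> β`.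
  `cA 0 = 2 + 4∫(conj ac A - aa conj B) = 2 + 4 ∫ conj ac t + 4 ∫(conj ac (A - t) - aa conj B)`.
* `pwM`: algebra: with `IA = ∫(conj ac A - aa conj B)`, `IB = ∫(conj ac B - aa conj A)`, `cA 0 = 2 + 4 IA`, `cB 0 = 4 IB`, `alS = - cA 0/ν`:
  `2bN - 8 Re(conj al IA - conj be IB) - cost 0 = FF + (a 0+P^2+N^2)/P + κ + 4 Re al + ν(|al|^2 - |be|^2) - ν (|al - alS|^2 - |be + cB 0/ν|^2)`, `FF >= 0` (`pw`), `ν > 0`.
-/

open MeasureTheory Filter Topology Set
open scoped ContDiff ComplexConjugate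

namespace H17S

variable {M : Mo} {p : Pa}

/-- `al_*`. -/
noncomputable def alS (M : Mo) (p : Pa) : ℂ := - (M.β : ℂ) - (M.N : ℂ) * Complex.I -
  4 / (M.ν : ℂ) * ∫ t in Ioi (0 : ℝ), (conj (M.ac t) * (p.A t - (t : ℂ)) - M.aa t * conj (p.B t))

theorem w16_cw (h : M.Ok) : ContinuousWithinAt M.E1 (Ici 0) 0 ∧ ContinuousWithinAt M.E (Ici 0) 0 := by
  have hr : ContinuousWithinAt M.r (Ici 0) 0 := h.r_cont 0 (by simp)
  have hK : ContinuousWithinAt M.K (Ici 0) 0 := h.K_cont 0 (by simp)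
  have hq : ContinuousWithinAt M.q (Ici 0) 0 := (hr.pow 2).add continuousWithinAt_const
  have hq0 : M.q 0 ≠ 0 := (h.q_pos le_rfl).ne'
  have hf : ContinuousWithinAt M.f (Ici 0) 0 := by
    show ContinuousWithinAt (fun s => (M.r s ^ 2 - 2 * mm M.P M.N * M.r s - M.N ^ 2) / M.q s ^ 2) (Ici 0) 0
    exact (((hr.pow 2).sub (continuousWithinAt_const.mul hr)).sub continuousWithinAt_const).div (hq.pow 2)
      (pow_ne_zero 2 hq0)
  have hf1 : ContinuousWithinAt M.f1 (Ici 0) 0 := by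
    show ContinuousWithinAt (fun s => -2 * (M.r s ^ 3 - 3 * mm M.P M.N * M.r s ^ 2 - 3 * M.N ^ 2 * M.r s +
      mm M.P M.N * M.N ^ 2) / M.q s ^ 3) (Ici 0) 0
    exact (continuousWithinAt_const.mul ((((hr.pow 3).sub (continuousWithinAt_const.mul (hr.pow 2))).sub
      (continuousWithinAt_const.mul hr)).add continuousWithinAt_const)).div (hq.pow 3) (pow_ne_zero 3 hq0)
  have hG : ContinuousWithinAt M.G (Ici 0) 0 := by
    show ContinuousWithinAt (fun s => 1 - M.X * M.f s) (Ici 0) 0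
    exact continuousWithinAt_const.sub (continuousWithinAt_const.mul hf)
  have hg : ContinuousWithinAt M.g (Ici 0) 0 := hG.sqrt
  have hg0 : M.g 0 ≠ 0 := (h.g_pos le_rfl).ne'
  have hρ : ContinuousWithinAt M.ρ (Ici 0) 0 := by
    show ContinuousWithinAt (fun s => ((M.r s : ℝ) : ℂ) + (M.N : ℂ) * Complex.I) (Ici 0) 0
    exact (Complex.continuous_ofReal.continuousAt.comp_continuousWithinAt hr).add continuousWithinAt_const
  have hcρ : ContinuousWithinAt (fun s => conj (M.ρ s)) (Ici 0) 0 :=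
    Complex.continuous_conj.continuousAt.comp_continuousWithinAt hρ
  have hof : ∀ {u : ℝ → ℝ}, ContinuousWithinAt u (Ici 0) 0 → ContinuousWithinAt (fun s => (u s : ℂ)) (Ici 0) 0 :=
    fun hu => Complex.continuous_ofReal.continuousAt.comp_continuousWithinAt hu
  have ht : ContinuousWithinAt M.t (Ici 0) 0 := by
    show ContinuousWithinAt (fun s => (M.G s : ℂ) - (M.X : ℂ) / 2 * conj (M.ρ s) * (M.f1 s : ℂ)) (Ici 0) 0
    exact (hof hG).sub ((continuousWithinAt_const.mul hcρ).mul (hof hf1))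
  refine ⟨?_, ?_⟩
  · show ContinuousWithinAt (fun s => -2 * ((M.f s : ℂ) / (M.g s : ℂ) * conj (M.ρ s) + (M.K s : ℂ) * M.t s)) (Ici 0) 0
    exact continuousWithinAt_const.mul ((((hof hf).div (hof hg) (by exact_mod_cast hg0)).mul hcρ).add ((hof hK).mul ht))
  · show ContinuousWithinAt (fun s => -2 * (M.K s : ℂ) * conj (M.ρ s) * (M.g s : ℂ)) (Ici 0) 0
    exact ((continuousWithinAt_const.mul (hof hK)).mul hcρ).mul (hof hg)

theorem w16_zero {f : ℝ → ℂ} {C : ℝ} (hf : ∀ s, 1 ≤ s → ‖f s‖ ≤ C / s) : Tendsto f atTop (𝓝 0) := by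
  rw [tendsto_zero_iff_norm_tendsto_zero]
  have h1 : Tendsto (fun s : ℝ => C / s) atTop (𝓝 0) := tendsto_const_nhds.div_atTop tendsto_id
  refine squeeze_zero' (Eventually.of_forall fun s => norm_nonneg _) ?_ h1
  filter_upwards [eventually_ge_atTop 1] with s hs
  exact hf s hs

theorem w16_lim (h : M.Ok) : Tendsto (fun s : ℝ => (s : ℂ) * conj (M.E1 s) - conj (M.E s)) atTop
    (𝓝 ((M.ν : ℂ) * ((M.β : ℂ) + (M.N : ℂ) * Complex.I) - 2)) := by
  have hν := h.ν_pos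
  have hνc : (M.ν : ℂ) ≠ 0 := by exact_mod_cast hν.ne'
  set m0 := Mc M.P M.N with hm0
  -- first part
  obtain ⟨C1, hC1⟩ := h.E1_as
  have hC10 : 0 ≤ C1 := by
    have h1 := (norm_nonneg _).trans (hC1 1 le_rfl)
    simpa using h1
  have t1 : Tendsto (fun s : ℝ => (s : ℂ) * conj (M.E1 s) + (M.ν : ℂ) * (s : ℂ)) atTop (𝓝 0) := by
    refine w16_zero (C := C1 + 2 * ‖m0‖) ?_
    intro s hs
    have hsp : 0 < s := by linarith
    have hsc : (s : ℂ) ≠ 0 := by exact_mod_cast hsp.ne'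
    have hdec : (s : ℂ) * conj (M.E1 s) + (M.ν : ℂ) * (s : ℂ) =
        (s : ℂ) * conj (M.E1 s - (-(M.ν : ℂ) + 2 * m0 / (s : ℂ) ^ 2)) + 2 * conj m0 / (s : ℂ) := by
      rw [map_sub, map_add, map_neg, map_div₀, map_mul, map_pow, Complex.conj_ofReal, Complex.conj_ofReal, Complex.conj_ofNat]
      field_simp
      ring
    rw [hdec]
    refine (norm_add_le _ _).trans ?_
    rw [norm_mul, Complex.norm_conj, Complex.norm_real, Real.norm_of_nonneg hsp.le, norm_div, norm_mul, Complex.norm_conj,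
      Complex.norm_real, Real.norm_of_nonneg hsp.le]
    have h2 : ‖(2 : ℂ)‖ = 2 := by simp
    rw [h2]
    have h3 : s * ‖M.E1 s - (-(M.ν : ℂ) + 2 * m0 / (s : ℂ) ^ 2)‖ ≤ C1 / s := by
      calc s * ‖M.E1 s - (-(M.ν : ℂ) + 2 * m0 / (s : ℂ) ^ 2)‖ ≤ s * (C1 / s ^ 3) :=
            mul_le_mul_of_nonneg_left (hC1 s hs) hsp.le
        _ = C1 / s ^ 2 := by field_simp
        _ ≤ C1 / s := by
            apply div_le_div_of_nonneg_left hC10 hsp
            nlinarith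
    calc _ ≤ C1 / s + 2 * ‖m0‖ / s := by linarith
      _ = (C1 + 2 * ‖m0‖) / s := by ring
  -- second part
  obtain ⟨C2, hC2⟩ := h.EE_as
  have hC20 : 0 ≤ C2 := by
    have h1 := (norm_nonneg _).trans (hC2 1 le_rfl)
    simpa using h1
  have t2 : Tendsto (fun s : ℝ => conj (M.EE s) - 2 / (M.ν : ℂ)) atTop (𝓝 0) := by
    refine w16_zero (C := C2 + 2 / M.ν * ‖m0‖) ?_
    intro s hs
    have hsp : 0 < s := by linarith
    have hsc : (s : ℂ) ≠ 0 := by exact_mod_cast hsp.ne'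
    have hdec : conj (M.EE s) - 2 / (M.ν : ℂ) =
        conj (M.EE s - 2 / (M.ν : ℂ) * (1 - m0 / (s : ℂ))) - 2 / (M.ν : ℂ) * (conj m0 / (s : ℂ)) := by
      rw [map_sub, map_mul, map_div₀, map_sub, map_one, map_div₀, Complex.conj_ofReal, Complex.conj_ofReal,
        Complex.conj_ofNat]
      ring
    rw [hdec]
    refine (norm_sub_le _ _).trans ?_
    rw [Complex.norm_conj, norm_mul, norm_div, norm_div, Complex.norm_conj, Complex.norm_real, Complex.norm_real,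
      Real.norm_of_nonneg hsp.le, Real.norm_of_nonneg hν.le]
    have h2 : ‖(2 : ℂ)‖ = 2 := by simp
    rw [h2]
    have h3 : C2 / s ^ 2 ≤ C2 / s := by
      apply div_le_div_of_nonneg_left hC20 hsp
      nlinarith
    calc _ ≤ C2 / s + 2 / M.ν * (‖m0‖ / s) := by linarith [hC2 s hs]
      _ = (C2 + 2 / M.ν * ‖m0‖) / s := by ring
  -- third part
  have hmh : Tendsto M.mh atTop (𝓝 1) := by
    obtain ⟨C3, hC3⟩ := h.mh_as
    have hC30 : 0 ≤ C3 := by
      have h1 := (abs_nonneg _).trans (hC3 1 le_rfl)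
      simpa using h1
    have h1 : Tendsto (fun s => ((M.mh s - 1 : ℝ) : ℂ)) atTop (𝓝 0) := by
      refine w16_zero (C := C3 + 2 * |M.m|) ?_
      intro s hs
      have hsp : 0 < s := by linarith
      rw [Complex.norm_real, Real.norm_eq_abs]
      have h2 : M.mh s - 1 = (M.mh s - (1 - 2 * M.m / s)) - 2 * M.m / s := by ring
      rw [h2]
      refine (abs_sub _ _).trans ?_
      rw [abs_div, abs_mul, abs_of_pos hsp, abs_two]
      have h3 : C3 / s ^ 2 ≤ C3 / s := by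
        apply div_le_div_of_nonneg_left hC30 hsp
        nlinarith
      calc _ ≤ C3 / s + 2 * |M.m| / s := by linarith [hC3 s hs]
        _ = (C3 + 2 * |M.m|) / s := by ring
    have h2 : Tendsto (fun s => M.mh s - 1) atTop (𝓝 0) := by
      have h3 := (Complex.continuous_re.tendsto (0 : ℂ)).comp h1
      simpa [Function.comp_def] using h3
    have h4 := h2.add_const 1
    simpa using h4
  have hrf : Tendsto (fun s => M.mh s / M.r s) atTop (𝓝 0) := hmh.div_atTop h.r_atTop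
  have hrg : Tendsto (fun s => M.r s * (1 - M.g s)) atTop (𝓝 0) := by
    have h1 : Tendsto (fun s => M.X * (M.mh s / M.r s)) atTop (𝓝 0) := by
      have := hrf.const_mul M.X
      simpa using this
    refine squeeze_zero' ?_ ?_ h1
    · filter_upwards [eventually_ge_atTop 0] with s hs
      exact mul_nonneg (h.r_pos hs).le (by linarith [h.g_le hs])
    · filter_upwards [eventually_ge_atTop 0] with s hs
      have hr := h.r_pos hs
      have hq := h.q_pos hs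
      have hg1 := h.g_le hs
      have hg0 := h.g_pos hs
      have hg2 := h.g_sq hs
      have hf0 := h.f_nonneg hs
      have hG : M.G s = 1 - M.X * M.f s := rfl
      have h2 : 1 - M.g s ≤ M.X * M.f s := by nlinarith
      have h3 : M.r s * M.f s ≤ M.mh s / M.r s := by
        rw [le_div_iff₀ hr]
        have h4 : M.mh s = M.f s * (M.r s ^ 2 + M.N ^ 2) := rfl
        rw [h4]
        nlinarith [mul_nonneg hf0 (sq_nonneg M.N)]
      calc M.r s * (1 - M.g s) ≤ M.r s * (M.X * M.f s) := by gcongr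
        _ = M.X * (M.r s * M.f s) := by ring
        _ ≤ M.X * (M.mh s / M.r s) := mul_le_mul_of_nonneg_left h3 h.X_nonneg
  have hg : Tendsto M.g atTop (𝓝 1) := by
    have h1 : Tendsto (fun s => 1 - M.g s) atTop (𝓝 0) := by
      have h2 : Tendsto (fun s => M.r s * (1 - M.g s) / M.r s) atTop (𝓝 0) := hrg.div_atTop h.r_atTop
      refine h2.congr' ?_
      filter_upwards [eventually_ge_atTop 0] with s hs
      have hr := (h.r_pos hs).ne'
      field_simp
    have h3 := h1.const_sub 1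
    simpa using h3
  have t3 : Tendsto (fun s => ((M.r s * M.g s - s : ℝ) : ℂ)) atTop (𝓝 (M.β : ℂ)) := by
    have h1 : Tendsto (fun s => (M.r s - s) - M.r s * (1 - M.g s)) atTop (𝓝 (M.β - 0)) := h.r_lim.sub hrg
    rw [sub_zero] at h1
    have h2 : Tendsto (fun s => M.r s * M.g s - s) atTop (𝓝 M.β) := by
      refine h1.congr fun s => ?_
      ring
    exact (Complex.continuous_ofReal.tendsto M.β).comp h2
  have t4 : Tendsto (fun s => (M.g s : ℂ)) atTop (𝓝 ((1 : ℝ) : ℂ)) := (Complex.continuous_ofReal.tendsto 1).comp hg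
  have t5 : Tendsto (fun s : ℝ => ((s : ℂ) * conj (M.E1 s) + (M.ν : ℂ) * (s : ℂ)) -
      (M.ν : ℂ) * (conj (M.EE s) - 2 / (M.ν : ℂ)) - 2 +
      (M.ν : ℂ) * (((M.r s * M.g s - s : ℝ) : ℂ) + (M.N : ℂ) * Complex.I * (M.g s : ℂ))) atTop
      (𝓝 (0 - (M.ν : ℂ) * 0 - 2 + (M.ν : ℂ) * ((M.β : ℂ) + (M.N : ℂ) * Complex.I * ((1 : ℝ) : ℂ)))) :=
    ((t1.sub (t2.const_mul _)).sub tendsto_const_nhds).add ((t3.add (t4.const_mul _)).const_mul _)
  have e1 : (0 - (M.ν : ℂ) * 0 - 2 + (M.ν : ℂ) * ((M.β : ℂ) + (M.N : ℂ) * Complex.I * ((1 : ℝ) : ℂ))) =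
      (M.ν : ℂ) * ((M.β : ℂ) + (M.N : ℂ) * Complex.I) - 2 := by
    push_cast
    ring
  rw [e1] at t5
  refine t5.congr fun s => ?_
  have e2 : M.E s = (M.ν : ℂ) * (M.EE s - conj (M.ρ s) * (M.g s : ℂ)) := by
    rw [h.EE_eq s]
    field_simp
    ring
  have e3 : M.ρ s = (M.r s : ℂ) + (M.N : ℂ) * Complex.I := rfl
  rw [e2, map_mul, map_sub, map_mul, Complex.conj_conj, Complex.conj_ofReal, Complex.conj_ofReal, e3]
  push_cast
  field_simp
  ring

theorem w16_ac (h : M.Ok) : ContinuousOn (fun t : ℝ => conj (M.ac t) * (t : ℂ)) (Ici 0) ∧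
    ∃ C, ∀ s, 0 ≤ s → ‖conj (M.ac s) * (s : ℂ)‖ ≤ C / (1 + s) ^ 2 := by
  obtain ⟨c1, -, c3⟩ := w7_cont h
  refine ⟨?_, ?_⟩
  · have hac : ContinuousOn M.ac (Ici 0) := by
      show ContinuousOn (fun s => M.lam s + (M.X : ℂ) * M.lamX s) (Ici 0)
      exact c1.add (continuousOn_const.mul c3)
    exact (Complex.continuous_conj.comp_continuousOn hac).mul Complex.continuous_ofReal.continuousOn
  · obtain ⟨C, hC0, hC⟩ := h.dec
    refine ⟨C, fun s hs => ?_⟩
    obtain ⟨-, -, -, h4, -⟩ := hC s hs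
    rw [norm_mul, Complex.norm_conj, Complex.norm_real, Real.norm_of_nonneg hs]
    calc ‖M.ac s‖ * s ≤ C / (1 + s) ^ 3 * (1 + s) := mul_le_mul h4 (by linarith) hs (by positivity)
      _ = C / (1 + s) ^ 2 := by field_simp

theorem ac_int (h : M.Ok) : 4 * ∫ t in Ioi (0 : ℝ), conj (M.ac t) * (t : ℂ) = (M.ν : ℂ) * ((M.β : ℂ) + (M.N : ℂ) * Complex.I) - 2 := by
  obtain ⟨a1, C, a2⟩ := w16_ac h
  have hint : IntegrableOn (fun t : ℝ => conj (M.ac t) * (t : ℂ)) (Ioi 0) := w7_int a1 a2 le_rfl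
  obtain ⟨e1, e2⟩ := w16_cw h
  have hcc : ∀ {u : ℝ → ℂ}, ContinuousWithinAt u (Ici 0) 0 → ContinuousWithinAt (fun s => conj (u s)) (Ici 0) 0 :=
    fun hu => Complex.continuous_conj.continuousAt.comp_continuousWithinAt hu
  have hcont : ContinuousWithinAt (fun s : ℝ => (s : ℂ) * conj (M.E1 s) - conj (M.E s)) (Ici 0) 0 :=
    (Complex.continuous_ofReal.continuousWithinAt.mul (hcc e1)).sub (hcc e2)
  have hder : ∀ s ∈ Ioi (0 : ℝ), HasDerivAt (fun s : ℝ => (s : ℂ) * conj (M.E1 s) - conj (M.E s))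
      (4 * (conj (M.ac s) * (s : ℂ))) s := by
    intro s hs
    have d0 : HasDerivAt (fun t : ℝ => (t : ℂ)) 1 s := (hasDerivAt_id (s : ℂ)).comp_ofReal
    have d1 : HasDerivAt (fun s => conj (M.E1 s)) (conj (4 * M.ac s)) s := (h.E1_d hs).star
    have d2 : HasDerivAt (fun s => conj (M.E s)) (conj (M.E1 s)) s := (h.E_d hs).star
    refine ((d0.mul d1).sub d2).congr_deriv ?_
    rw [map_mul, Complex.conj_ofNat]
    ring
  have hE0 : M.E 0 = 0 := by
    show -2 * (M.K 0 : ℂ) * conj (M.ρ 0) * (M.g 0 : ℂ) = 0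
    rw [h.K_zero]
    simp
  have h1 := integral_Ioi_of_hasDerivAt_of_tendsto hcont hder (hint.const_mul 4) (w16_lim h)
  rw [integral_const_mul] at h1
  rw [h1, hE0]
  simp

theorem alS_eq (h : M.Ok) (hp : p.Ok) : alS M p = - cA M p 0 / (M.ν : ℂ) := by
  have hν := h.ν_pos
  have hνc : (M.ν : ℂ) ≠ 0 := by exact_mod_cast hν.ne'
  obtain ⟨a1, C, a2⟩ := w16_ac h
  have hint : IntegrableOn (fun t : ℝ => conj (M.ac t) * (t : ℂ)) (Ioi 0) := w7_int a1 a2 le_rfl
  obtain ⟨b1, D, -, b2⟩ := w7_ai h hp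
  have hint2 : IntegrableOn (fun t => conj (M.ac t) * p.A t - M.aa t * conj (p.B t)) (Ioi 0) := w7_int b1 b2 le_rfl
  have h1 : ∫ t in Ioi (0 : ℝ), (conj (M.ac t) * (p.A t - (t : ℂ)) - M.aa t * conj (p.B t)) =
      (∫ t in Ioi (0 : ℝ), (conj (M.ac t) * p.A t - M.aa t * conj (p.B t))) - ∫ t in Ioi (0 : ℝ), conj (M.ac t) * (t : ℂ) := by
    rw [← integral_sub hint2 hint]
    congr 1
    funext t
    ring
  have h2 := ac_int h
  unfold alS cA
  rw [h1]
  set IA := ∫ t in Ioi (0 : ℝ), (conj (M.ac t) * p.A t - M.aa t * conj (p.B t)) with hIA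
  set IT := ∫ t in Ioi (0 : ℝ), conj (M.ac t) * (t : ℂ) with hIT
  field_simp
  linear_combination h2

theorem pwM (h : M.Ok) (hp : p.Ok) (al be : ℂ) : (p.a 0 + M.P ^ 2 + M.N ^ 2) / M.P + M.κ + 4 * al.re +
      M.ν * (‖al‖ ^ 2 - ‖be‖ ^ 2) - M.ν * ‖al - alS M p‖ ^ 2 ≤
    2 * p.bN - 8 * (conj al * (∫ t in Ioi (0 : ℝ), (conj (M.ac t) * p.A t - M.aa t * conj (p.B t))) -
      conj be * (∫ t in Ioi (0 : ℝ), (conj (M.ac t) * p.B t - M.aa t * conj (p.A t)))).re - cost M p 0 := by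
  have hν := h.ν_pos
  have hpw := pw h hp
  rw [alS_eq h hp]
  unfold FF at hpw
  have hA : cA M p 0 = 2 + 4 * ∫ t in Ioi (0 : ℝ), (conj (M.ac t) * p.A t - M.aa t * conj (p.B t)) := rfl
  have hB : cB M p 0 = 4 * ∫ t in Ioi (0 : ℝ), (conj (M.ac t) * p.B t - M.aa t * conj (p.A t)) := rfl
  set IA := ∫ t in Ioi (0 : ℝ), (conj (M.ac t) * p.A t - M.aa t * conj (p.B t)) with hIA
  set IB := ∫ t in Ioi (0 : ℝ), (conj (M.ac t) * p.B t - M.aa t * conj (p.A t)) with hIB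
  have e1 : M.ν * ‖al - - cA M p 0 / (M.ν : ℂ)‖ ^ 2 = M.ν * ‖al‖ ^ 2 + 4 * al.re + 8 * (conj al * IA).re +
      1 / M.ν * ‖cA M p 0‖ ^ 2 := by
    have h1 : al - - cA M p 0 / (M.ν : ℂ) = al + ((1 / M.ν : ℝ) : ℂ) * cA M p 0 := by
      push_cast
      ring
    rw [h1, Complex.sq_norm, Complex.sq_norm, Complex.sq_norm, Complex.normSq_apply, Complex.normSq_apply,
      Complex.normSq_apply]
    rw [Complex.add_re, Complex.add_im, Complex.re_ofReal_mul, Complex.im_ofReal_mul, Complex.mul_re, Complex.conj_re,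
      Complex.conj_im, hA]
    simp only [Complex.add_re, Complex.add_im, Complex.mul_re, Complex.mul_im, Complex.re_ofNat, Complex.im_ofNat]
    field_simp
    ring
  have e2 : M.ν * ‖be + ((1 / M.ν : ℝ) : ℂ) * cB M p 0‖ ^ 2 = M.ν * ‖be‖ ^ 2 + 8 * (conj be * IB).re +
      1 / M.ν * ‖cB M p 0‖ ^ 2 := by
    rw [Complex.sq_norm, Complex.sq_norm, Complex.sq_norm, Complex.normSq_apply, Complex.normSq_apply,
      Complex.normSq_apply]
    rw [Complex.add_re, Complex.add_im, Complex.re_ofReal_mul, Complex.im_ofReal_mul, Complex.mul_re, Complex.conj_re,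
      Complex.conj_im, hB]
    simp only [Complex.mul_re, Complex.mul_im, Complex.re_ofNat, Complex.im_ofNat]
    field_simp
    ring
  have e3 : 0 ≤ M.ν * ‖be + ((1 / M.ν : ℝ) : ℂ) * cB M p 0‖ ^ 2 := by positivity
  rw [e1, Complex.sub_re]
  rw [e2] at e3
  linarith

end H17S
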