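import Pool.Agent.Lib.H17S.E13
import Pool.Agent.Lib.H17S.N6
import Pool.Agent.Lib.H17S.FPath
import Pool.Agent.Lib.H17S.MK
import Pool.Agent.Lib.H17S.MJ
import Pool.Agent.Lib.H17S.W16

set_option autoImplicit false

/-!
H17S, module G (glue: energy inequality with a test field + pointwise theorem + null Lagrangian = global inequality): definitions.
The test field at the time `s` is `Re lam V + Im lam (y × V)`, `lam = lam(s)` the function of the model with the parameters `P`, `N`, `X = |V(y)|^2`.
-/

open MeasureTheory Filter Topology Set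
open scoped ContDiff ComplexConjugate

namespace H17S

open NullPen (E3 S2 sm proj MatterData)
open NullU (rl crs dtB cf Tng)

/-- The test field. -/
noncomputable def LaE (P N : ℝ) (V : E3 → Fin 3 → ℝ) (s : ℝ) (y : E3) (i : Fin 3) : ℝ :=
  ((mo P N (nsq (V y))).lam s).re * V y i + ((mo P N (nsq (V y))).lam s).im * cr y (V y) i

/-- Its derivative in `s`. -/
noncomputable def La1E (P N : ℝ) (V : E3 → Fin 3 → ℝ) (s : ℝ) (y : E3) (i : Fin 3) : ℝ :=
  ((mo P N (nsq (V y))).lam1 s).re * V y i + ((mo P N (nsq (V y))).lam1 s).im * cr y (V y) i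

/-- The derivatives of `y × Λ` along the rotation fields. -/
noncomputable def WLa (P N : ℝ) (V : E3 → Fin 3 → ℝ) (j : Fin 3) (s : ℝ) (y : E3) (k : Fin 3) : ℝ :=
  rl j (fun z => cr z (LaE P N V s z) k) y

theorem nsq_nonneg (v : Fin 3 → ℝ) : 0 ≤ nsq v := Finset.sum_nonneg fun _ _ => sq_nonneg _

end H17S
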