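import Mathlib

set_option autoImplicit false

/-!
Chunk MC2 (M). Abstract lemma: derivative of an inverse function with respect to a parameter.
Proof. Put `t₀ = t X₀`. For `X` near `X₀`: `0 = ∫₀^{t X} σ X - ∫₀^{t₀} σ X₀ = (t X - t₀) A(X) + (B(X) - B(X₀))` with `A(X) = ∫ θ in 0..1, σ X (t₀ + θ (t X - t₀))` (substitution in `∫_{t₀}^{t X} σ X`) and `B(X) = ∫ τ in 0..t₀, σ X τ`.
`A` is continuous at `X₀` with value `σ X₀ t₀ > 0` (uniform continuity of `σ` on a compact neighbourhood, or dominated convergence), and `B` has at `X₀` the derivative `∫ τ in 0..t₀, σX X₀ τ`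
(`intervalIntegral.hasDerivAt_integral_of_dominated_loc_of_deriv_le`, `σX` is bounded on the compact set `[X₀-δ, X₀+δ] × [0, t₀]` resp. `[t₀, 0]`). So `slope t X₀ X = - slope B X₀ X / A(X)` tends to the claimed value
(`hasDerivAt_iff_tendsto_slope`).
-/

open MeasureTheory Filter Topology Set

namespace H17S

/-- the sections are continuous -/
theorem mc2_sec {f : ℝ → ℝ → ℝ} {a b : ℝ}
    (hf : ContinuousOn (fun p : ℝ × ℝ => f p.1 p.2) (Ioo a b ×ˢ univ)) {X : ℝ} (hX : X ∈ Ioo a b) :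
    Continuous (f X) := by
  have h1 : ContinuousOn (fun τ : ℝ => (X, τ)) univ := by fun_prop
  have h2 := hf.comp h1 (fun τ _ => ⟨hX, mem_univ _⟩)
  rw [← continuousOn_univ]
  exact h2

theorem mc2_B {σ σX : ℝ → ℝ → ℝ} {X₀ a b : ℝ} (hX : X₀ ∈ Ioo a b)
    (hσ : ContinuousOn (fun p : ℝ × ℝ => σ p.1 p.2) (Ioo a b ×ˢ univ))
    (hσX : ContinuousOn (fun p : ℝ × ℝ => σX p.1 p.2) (Ioo a b ×ˢ univ))
    (hd : ∀ X ∈ Ioo a b, ∀ τ, HasDerivAt (fun Y => σ Y τ) (σX X τ) X) (t₀ : ℝ) :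
    HasDerivAt (fun X => ∫ τ in (0 : ℝ)..t₀, σ X τ) (∫ τ in (0 : ℝ)..t₀, σX X₀ τ) X₀ := by
  obtain ⟨δ, hδ, hsub⟩ : ∃ δ > 0, Icc (X₀ - δ) (X₀ + δ) ⊆ Ioo a b := by
    refine ⟨min (X₀ - a) (b - X₀) / 2, ?_, ?_⟩
    · have h1 : 0 < min (X₀ - a) (b - X₀) := lt_min (by linarith [hX.1]) (by linarith [hX.2])
      linarith
    · intro y hy
      have h1 : 0 < min (X₀ - a) (b - X₀) := lt_min (by linarith [hX.1]) (by linarith [hX.2])
      have h2 := min_le_left (X₀ - a) (b - X₀)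
      have h3 := min_le_right (X₀ - a) (b - X₀)
      exact ⟨by linarith [hy.1], by linarith [hy.2]⟩
  have hcomp : IsCompact (Icc (X₀ - δ) (X₀ + δ) ×ˢ uIcc 0 t₀) := isCompact_Icc.prod isCompact_uIcc
  have hc2 : ContinuousOn (fun p : ℝ × ℝ => σX p.1 p.2) (Icc (X₀ - δ) (X₀ + δ) ×ˢ uIcc 0 t₀) :=
    hσX.mono (prod_mono hsub (subset_univ _))
  obtain ⟨C, hC⟩ := hcomp.exists_bound_of_continuousOn hc2
  have hs : Icc (X₀ - δ) (X₀ + δ) ∈ 𝓝 X₀ := Icc_mem_nhds (by linarith) (by linarith)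
  have hIoo : Ioo a b ∈ 𝓝 X₀ := Ioo_mem_nhds hX.1 hX.2
  refine (intervalIntegral.hasDerivAt_integral_of_dominated_loc_of_deriv_le (F := σ) (F' := σX)
    (bound := fun _ => C) hs ?_ ?_ ?_ ?_ ?_ ?_).2
  · filter_upwards [hIoo] with X hX'
    exact (mc2_sec hσ hX').aestronglyMeasurable
  · exact (mc2_sec hσ hX).intervalIntegrable _ _
  · exact (mc2_sec hσX hX).aestronglyMeasurable
  · refine Eventually.of_forall (fun τ hτ x hx => ?_)
    exact hC (x, τ) ⟨hx, uIoc_subset_uIcc hτ⟩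
  · exact intervalIntegrable_const
  · refine Eventually.of_forall (fun τ hτ x hx => ?_)
    exact hd x (hsub hx) τ

theorem inv_param_deriv {σ σX : ℝ → ℝ → ℝ} {t : ℝ → ℝ} {X₀ s a b : ℝ} (hX : X₀ ∈ Ioo a b)
    (hσ : ContinuousOn (fun p : ℝ × ℝ => σ p.1 p.2) (Ioo a b ×ˢ univ))
    (hσX : ContinuousOn (fun p : ℝ × ℝ => σX p.1 p.2) (Ioo a b ×ˢ univ))
    (hd : ∀ X ∈ Ioo a b, ∀ τ, HasDerivAt (fun Y => σ Y τ) (σX X τ) X) (hpos : ∀ X ∈ Ioo a b, ∀ τ, 0 < σ X τ)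
    (ht : ContinuousAt t X₀) (hS : ∀ X ∈ Ioo a b, ∫ τ in (0 : ℝ)..t X, σ X τ = s) :
    HasDerivAt t (- (∫ τ in (0 : ℝ)..t X₀, σX X₀ τ) / σ X₀ (t X₀)) X₀ := by
  have hIoo : Ioo a b ∈ 𝓝 X₀ := Ioo_mem_nhds hX.1 hX.2
  have hB := mc2_B hX hσ hσX hd (t X₀)
  obtain ⟨c, hc⟩ : ∃ c, c = σ X₀ (t X₀) := ⟨_, rfl⟩
  have hc0 : 0 < c := by
    rw [hc]
    exact hpos X₀ hX _
  rw [← hc]
  have hcont : ContinuousAt (fun p : ℝ × ℝ => σ p.1 p.2) (X₀, t X₀) :=
    hσ.continuousAt (prod_mem_nhds hIoo univ_mem)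
  have h1 : (fun X => (∫ τ in t X₀..t X, σ X τ) - c * (t X - t X₀)) =o[𝓝 X₀] (fun X => t X - t X₀) := by
    rw [Asymptotics.isLittleO_iff]
    intro ε hε
    rw [Metric.continuousAt_iff] at hcont
    obtain ⟨r, hr, hr2⟩ := hcont ε hε
    have e1 : ∀ᶠ X in 𝓝 X₀, dist X X₀ < r := Metric.ball_mem_nhds X₀ hr
    have e2 : ∀ᶠ X in 𝓝 X₀, dist (t X) (t X₀) < r := ht (Metric.ball_mem_nhds (t X₀) hr)
    filter_upwards [e1, e2, hIoo] with X h1 h2 h3
    have h4 : (∫ τ in t X₀..t X, σ X τ) - c * (t X - t X₀) = ∫ τ in t X₀..t X, (σ X τ - c) := by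
      rw [intervalIntegral.integral_sub ((mc2_sec hσ h3).intervalIntegrable _ _) intervalIntegrable_const,
        intervalIntegral.integral_const, smul_eq_mul, mul_comm]
    rw [h4, Real.norm_eq_abs (t X - t X₀)]
    apply intervalIntegral.norm_integral_le_of_norm_le_const
    intro τ hτ
    have h5 : dist τ (t X₀) < r := by
      have h6 := uIoc_subset_uIcc hτ
      rw [mem_uIcc] at h6
      rw [Real.dist_eq, abs_lt] at h2 ⊢
      rcases h6 with h6 | h6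
      · exact ⟨by linarith [h6.1, h6.2], by linarith [h6.1, h6.2]⟩
      · exact ⟨by linarith [h6.1, h6.2], by linarith [h6.1, h6.2]⟩
    have h7 : dist (X, τ) (X₀, t X₀) < r := by
      rw [Prod.dist_eq]
      exact max_lt h1 h5
    have h8 := hr2 h7
    rw [Real.dist_eq] at h8
    rw [Real.norm_eq_abs, hc]
    exact h8.le
  have h2 : ∀ᶠ X in 𝓝 X₀, (∫ τ in t X₀..t X, σ X τ) =
      -((∫ τ in (0 : ℝ)..t X₀, σ X τ) - ∫ τ in (0 : ℝ)..t X₀, σ X₀ τ) := by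
    filter_upwards [hIoo] with X h3
    have e1 := hS X h3
    have e2 := hS X₀ hX
    have e3 := intervalIntegral.integral_add_adjacent_intervals
      ((mc2_sec hσ h3).intervalIntegrable 0 (t X₀) (μ := volume))
      ((mc2_sec hσ h3).intervalIntegrable (t X₀) (t X) (μ := volume))
    linarith
  have h3 : (fun X => (∫ τ in (0 : ℝ)..t X₀, σ X τ) - ∫ τ in (0 : ℝ)..t X₀, σ X₀ τ) =O[𝓝 X₀]
      (fun X => X - X₀) := hB.isBigO_sub
  have h4 : (fun X => t X - t X₀) =O[𝓝 X₀] (fun X => X - X₀) := by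
    have e1 : (fun X => (∫ τ in t X₀..t X, σ X τ) - c * (t X - t X₀)) =o[𝓝 X₀]
        (fun X => c * (t X - t X₀)) :=
      h1.trans_isBigO (Asymptotics.isBigO_self_const_mul' (IsUnit.mk0 c hc0.ne') _ _)
    have e2 := e1.right_isBigO_add
    have e3 : (fun X => (∫ τ in t X₀..t X, σ X τ) - c * (t X - t X₀) + c * (t X - t X₀)) =O[𝓝 X₀]
        (fun X => X - X₀) := by
      refine (h3.neg_left).congr' ?_ EventuallyEq.rfl
      filter_upwards [h2] with X hX2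
      rw [hX2]
      ring
    exact (Asymptotics.isBigO_self_const_mul' (IsUnit.mk0 c hc0.ne') _ _).trans (e2.trans e3)
  rw [hasDerivAt_iff_isLittleO] at hB ⊢
  have h5 := h1.trans_isBigO h4
  have h6 := ((h5.add hB).neg_left).const_mul_left c⁻¹
  refine h6.congr' ?_ EventuallyEq.rfl
  filter_upwards [h2] with X hX2
  rw [hX2, smul_eq_mul, smul_eq_mul]
  field_simp
  ring

end H17S
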