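import Pool.Agent.Lib.H17S.MF
import Pool.Agent.Lib.H17S.MC2

set_option autoImplicit false

/-!
Chunk MG (M). Derivatives with respect to `X` at fixed `s >= 0`.
`rm_X`: `inv_param_deriv` with `σ X τ = 1/sqrt(GG P N X (P + max τ 0))`, `σX = f/(2 (sqrt GG)³)` (derivative of `(1 - X f)^(-1/2)` in `X`, `f = ff P N (P + max τ 0)`), the interval `(a, b) = (X₀ - 1, Xc P N)` and `t X = tm P N X s`
(continuous in `X` by `tm_cont`, `Sm_tm`): `d t/d X = - (1/2) Kt(t₀) sqrt(GG (P + max t₀ 0))`, `max t₀ 0 = t₀` (`tm_nonneg`).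
`lam_X`: `lam = lamr P N (rm ..)` with `lamr P N r = - M/ρ³`, `d/dr lamr = 3 M/ρ⁴ = lamr1` (`r > 0`), chain rule: `lamr1 * (- K g/2) = lamX`.
-/

open MeasureTheory Filter Topology Set

namespace H17S

theorem rm_X {P N X s : ℝ} (hP : 0 < P) (hX : X < Xc P N) (hs : 0 ≤ s) :
    HasDerivAt (fun Y => rm P N Y s) (- (Km P N X s * √(GG P N X (rm P N X s))) / 2) X := by
  have hsub : ∀ p : ℝ × ℝ, p ∈ Ioo (X - 1) (Xc P N) ×ˢ (univ : Set ℝ) →
      (((P, N, p.1), p.2) : (ℝ × ℝ × ℝ) × ℝ) ∈ Om3 ×ˢ (univ : Set ℝ) :=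
    fun p hp => ⟨⟨hP, hp.1.2⟩, mem_univ _⟩
  have hmap : ContinuousOn (fun p : ℝ × ℝ => (((P, N, p.1), p.2) : (ℝ × ℝ × ℝ) × ℝ))
      (Ioo (X - 1) (Xc P N) ×ˢ (univ : Set ℝ)) := by fun_prop
  have hX0 : X ∈ Ioo (X - 1) (Xc P N) := ⟨by linarith, hX⟩
  have h1 := inv_param_deriv (σ := fun Y τ => 1 / √(GG P N Y (P + max τ 0)))
    (σX := fun Y τ => ff P N (P + max τ 0) / (2 * √(GG P N Y (P + max τ 0)) ^ 3))
    (t := fun Y => tm P N Y s) (X₀ := X) (s := s) (a := X - 1) (b := Xc P N) hX0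
    (mf_s.comp hmap hsub) ?_ ?_ (fun Y hY τ => one_div_pos.2 (md_pos hP hY.2 τ)) ?_
    (fun Y hY => Sm_tm hP hY.2 s)
  · have h2 := h1.const_add P
    refine h2.congr_deriv ?_
    have h3 : max (tm P N X s) 0 = tm P N X s := max_eq_left (tm_nonneg hP hX hs)
    have h4 : ∫ τ in (0 : ℝ)..tm P N X s, ff P N (P + max τ 0) / (2 * √(GG P N X (P + max τ 0)) ^ 3) =
        Km P N X s / 2 := by
      unfold Km Kt
      rw [← intervalIntegral.integral_div]
      refine intervalIntegral.integral_congr fun τ _ => ?_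
      rw [div_div, mul_comm]
    have h5 : P + tm P N X s = rm P N X s := rfl
    rw [h4, h3, h5]
    rw [one_div, div_inv_eq_mul]
    ring
  · have h2 := (mf_k.comp hmap hsub).div_const 2
    refine h2.congr fun p _ => ?_
    change ff P N (P + max p.2 0) / (2 * √(GG P N p.1 (P + max p.2 0)) ^ 3) =
      ff P N (P + max p.2 0) / √(GG P N p.1 (P + max p.2 0)) ^ 3 / 2
    rw [div_div, mul_comm]
  · intro Y hY τ
    have hG : 0 < GG P N Y (P + max τ 0) := Real.sqrt_pos.1 (md_pos hP hY.2 τ)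
    have h2 : HasDerivAt (fun Z => GG P N Z (P + max τ 0)) (-ff P N (P + max τ 0)) Y := by
      have h := ((hasDerivAt_id Y).mul_const (ff P N (P + max τ 0))).const_sub 1
      rw [one_mul] at h
      exact h
    have h3 := (h2.sqrt hG.ne').inv (md_pos hP hY.2 τ).ne'
    have h4 : (fun Z => 1 / √(GG P N Z (P + max τ 0))) = (fun Z => √(GG P N Z (P + max τ 0)))⁻¹ := by
      ext Z
      rw [one_div]
      rfl
    rw [h4]
    refine h3.congr_deriv ?_
    have h5 := (md_pos hP hY.2 τ).ne'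
    field_simp
  · have h2 : ContinuousAt (fun p : (ℝ × ℝ × ℝ) × ℝ => tm p.1.1 p.1.2.1 p.1.2.2 p.2) ((P, N, X), s) :=
      tm_cont.continuousAt (prod_mem_nhds (Om3_open.mem_nhds ⟨hP, hX⟩) univ_mem)
    have h3 : ContinuousAt (fun Y : ℝ => (((P, N, Y), s) : (ℝ × ℝ × ℝ) × ℝ)) X := by fun_prop
    exact ContinuousAt.comp (f := fun Y : ℝ => (((P, N, Y), s) : (ℝ × ℝ × ℝ) × ℝ))
      (g := fun p : (ℝ × ℝ × ℝ) × ℝ => tm p.1.1 p.1.2.1 p.1.2.2 p.2) h2 h3

theorem lamr_der {P N r : ℝ} (hr : 0 < r) : HasDerivAt (lamr P N) (lamr1 P N r) r := by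
  have h1 : HasDerivAt (fun x : ℝ => rho N x) 1 r := by
    have h : HasDerivAt (fun x : ℝ => rho N x) (Complex.ofRealCLM 1) r :=
      (Complex.ofRealCLM.hasDerivAt (x := r)).add_const ((N : ℂ) * Complex.I)
    rwa [Complex.ofRealCLM_apply, Complex.ofReal_one] at h
  have h2 : HasDerivAt (fun x : ℝ => rho N x ^ 3) (3 * rho N r ^ 2) r := by
    refine (h1.pow 3).congr_deriv ?_
    push_cast
    ring
  have h3 : HasDerivAt (lamr P N) _ r := (hasDerivAt_const r (-Mc P N)).div h2 (pow_ne_zero 3 (rho_ne hr))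
  refine h3.congr_deriv ?_
  unfold lamr1
  have h4 := rho_ne (N := N) hr
  field_simp
  ring

theorem lam_X {P N X s : ℝ} (hP : 0 < P) (hX : X < Xc P N) (hs : 0 ≤ s) :
    HasDerivAt (fun Y => (mo P N Y).lam s) ((mo P N X).lamX s) X := by
  have hr : 0 < rm P N X s := hP.trans_le (rm_ge hP hX hs)
  have h1 := HasDerivAt.scomp (g₁ := lamr P N) (h := fun Y => rm P N Y s) X
    (lamr_der (P := P) (N := N) hr) (rm_X hP hX hs)
  refine h1.congr_deriv ?_
  change _ = - (1 / 2) * (Km P N X s : ℂ) * lamr1 P N (rm P N X s) * (√(GG P N X (rm P N X s)) : ℂ)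
  rw [Complex.real_smul]
  push_cast
  ring

end H17S
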