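import Pool.Agent.Lib.H17S.G0
import Pool.Agent.Lib.H17S.MG

set_option autoImplicit false

/-!
Chunk G1 (M). Differentiability of the test field at the points of the sphere and the derivatives along the rotation fields.
Proof. `y ↦ nsq (V y)` is smooth (`nsq_smooth`), `Y ↦ (mo P N Y).lam s` has the derivative `lamX s` at `Y = nsq (V n) < Xc P N` (`lam_X`), so real and imaginary parts have the derivatives `(lamX s).re`, `(lamX s).im` (compose with `Complex.reCLM`, `Complex.imCLM`);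
`HasDerivAt.comp_hasFDerivAt` gives `lam_dy`, and `rl_comp` gives `lam_rl`. `la_dy`, `la_cr_dy`: products and sums of differentiable functions (`V y i`, `y i`, `cr y (V y) i` unfolded). `la_td`: `∑ n_i V_i = 0`, `cr_tan`. `wla_eq`: on the sphere `cr y (LaE y) k = Re lam cr y (V y) k - Im lam V y k`
(`cr` is linear, `cr_cr`), so `rl_congr` (both sides are differentiable at `n`), then `rl_sub`, `rl_mul`, `lam_rl`.
-/

open MeasureTheory Filter Topology Set
open scoped ContDiff ComplexConjugate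

namespace H17S

open NullPen (E3 S2 sm proj MatterData)
open NullU (rl crs dtB cf Tng)
open H17S.Sph

variable {P N : ℝ} {V : E3 → Fin 3 → ℝ} {s : ℝ}

theorem g1_re (hP : 0 < P) (hX : ∀ n : S2, nsq (V n) < Xc P N) (hs : 0 ≤ s) (n : S2) :
    HasDerivAt (fun Y => ((mo P N Y).lam s).re) ((mo P N (nsq (V n))).lamX s).re (nsq (V n)) :=
  Complex.reCLM.hasFDerivAt.comp_hasDerivAt (nsq (V n)) (lam_X hP (hX n) hs)

theorem g1_im (hP : 0 < P) (hX : ∀ n : S2, nsq (V n) < Xc P N) (hs : 0 ≤ s) (n : S2) :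
    HasDerivAt (fun Y => ((mo P N Y).lam s).im) ((mo P N (nsq (V n))).lamX s).im (nsq (V n)) :=
  Complex.imCLM.hasFDerivAt.comp_hasDerivAt (nsq (V n)) (lam_X hP (hX n) hs)

theorem g1_q (hV : TF V) (n : E3) : DifferentiableAt ℝ (fun y : E3 => nsq (V y)) n :=
  (nsq_smooth hV).differentiable (by simp) _

theorem g1_v (hV : TF V) (n : E3) (i : Fin 3) : DifferentiableAt ℝ (fun y : E3 => V y i) n :=
  (hV.sm i).differentiable (by simp) _

theorem g1_c (n : E3) (i : Fin 3) : DifferentiableAt ℝ (fun y : E3 => y i) n :=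
  ((EuclideanSpace.proj i : E3 →L[ℝ] ℝ).contDiff (n := ⊤)).differentiable (by simp) _

theorem g1_cr {W : E3 → Fin 3 → ℝ} {n : E3} (h : ∀ i, DifferentiableAt ℝ (fun y : E3 => W y i) n) (i : Fin 3) :
    DifferentiableAt ℝ (fun y : E3 => cr y (W y) i) n := by
  simp only [cr_apply]
  exact ((g1_c n _).mul (h _)).sub ((g1_c n _).mul (h _))

theorem lam_dy (hP : 0 < P) (hV : TF V) (hX : ∀ n : S2, nsq (V n) < Xc P N) (hs : 0 ≤ s) (n : S2) :
    DifferentiableAt ℝ (fun y : E3 => ((mo P N (nsq (V y))).lam s).re) n ∧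
      DifferentiableAt ℝ (fun y : E3 => ((mo P N (nsq (V y))).lam s).im) n := by
  constructor
  · exact ((g1_re hP hX hs n).comp_hasFDerivAt (n : E3) (g1_q hV n).hasFDerivAt).differentiableAt
  · exact ((g1_im hP hX hs n).comp_hasFDerivAt (n : E3) (g1_q hV n).hasFDerivAt).differentiableAt

theorem lam_rl (hP : 0 < P) (hV : TF V) (hX : ∀ n : S2, nsq (V n) < Xc P N) (hs : 0 ≤ s) (n : S2) (j : Fin 3) :
    rl j (fun y : E3 => ((mo P N (nsq (V y))).lam s).re) n = ((mo P N (nsq (V n))).lamX s).re * rl j (fun y => nsq (V y)) n ∧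
      rl j (fun y : E3 => ((mo P N (nsq (V y))).lam s).im) n = ((mo P N (nsq (V n))).lamX s).im * rl j (fun y => nsq (V y)) n :=
  ⟨rl_comp (φ := fun Y => ((mo P N Y).lam s).re) (g1_q hV n) (g1_re hP hX hs n) j,
    rl_comp (φ := fun Y => ((mo P N Y).lam s).im) (g1_q hV n) (g1_im hP hX hs n) j⟩

theorem la_dy (hP : 0 < P) (hV : TF V) (hX : ∀ n : S2, nsq (V n) < Xc P N) (hs : 0 ≤ s) (n : S2) (i : Fin 3) :
    DifferentiableAt ℝ (fun y => LaE P N V s y i) n := by
  obtain ⟨h1, h2⟩ := lam_dy hP hV hX hs n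
  unfold LaE
  exact (h1.mul (g1_v hV n i)).add (h2.mul (g1_cr (fun i => g1_v hV n i) i))

theorem la_cr_dy (hP : 0 < P) (hV : TF V) (hX : ∀ n : S2, nsq (V n) < Xc P N) (hs : 0 ≤ s) (n : S2) (i : Fin 3) :
    DifferentiableAt ℝ (fun y => cr y (LaE P N V s y) i) n :=
  g1_cr (fun i => la_dy hP hV hX hs n i) i

theorem la_td (hP : 0 < P) (hV : TF V) (hX : ∀ n : S2, nsq (V n) < Xc P N) (hs : 0 ≤ s) : TD (LaE P N V s) := by
  refine ⟨fun n i => la_dy hP hV hX hs n i, fun n => ?_⟩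
  unfold LaE
  have h1 : ∀ i : Fin 3, (n : E3) i * (((mo P N (nsq (V n))).lam s).re * V n i + ((mo P N (nsq (V n))).lam s).im * cr n (V n) i) =
      ((mo P N (nsq (V n))).lam s).re * ((n : E3) i * V n i) + ((mo P N (nsq (V n))).lam s).im * ((n : E3) i * cr n (V n) i) := by
    intro i
    ring
  simp only [h1]
  rw [Finset.sum_add_distrib, ← Finset.mul_sum, ← Finset.mul_sum, hV.tan n, cr_tan]
  ring

theorem g1_crl (n : E3) (a b : ℝ) (v w : Fin 3 → ℝ) (k : Fin 3) : cr n (fun i => a * v i + b * w i) k = a * cr n v k + b * cr n w k := by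
  simp only [cr_apply]
  ring

theorem wla_eq (hP : 0 < P) (hV : TF V) (hX : ∀ n : S2, nsq (V n) < Xc P N) (hs : 0 ≤ s) (n : S2) (j k : Fin 3) :
    WLa P N V j s n k = ((mo P N (nsq (V n))).lam s).re * rl j (fun y => cr y (V y) k) n -
      ((mo P N (nsq (V n))).lam s).im * rl j (fun y => V y k) n +
      rl j (fun y => nsq (V y)) n * (((mo P N (nsq (V n))).lamX s).re * cr n (V n) k - ((mo P N (nsq (V n))).lamX s).im * V n k) := by
  obtain ⟨h1, h2⟩ := lam_dy hP hV hX hs n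
  obtain ⟨h3, h4⟩ := lam_rl hP hV hX hs n j
  have h5 : DifferentiableAt ℝ (fun y : E3 => cr y (V y) k) n := g1_cr (fun i => g1_v hV n i) k
  have h6 := g1_v hV n k
  have h15 := h1.fun_mul h5
  have h26 := h2.fun_mul h6
  have e1 : rl j (fun z => cr z (LaE P N V s z) k) n =
      rl j (fun y : E3 => ((mo P N (nsq (V y))).lam s).re * cr y (V y) k - ((mo P N (nsq (V y))).lam s).im * V y k) n := by
    refine rl_congr (fun m => ?_) (la_cr_dy hP hV hX hs n k) (h15.fun_sub h26) j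
    have e2 : cr m (LaE P N V s m) k = ((mo P N (nsq (V m))).lam s).re * cr m (V m) k +
        ((mo P N (nsq (V m))).lam s).im * cr m (cr m (V m)) k := g1_crl _ _ _ _ _ _
    rw [e2, cr_cr m (hV.tan m)]
    ring
  unfold WLa
  rw [e1, rl_sub h15 h26, rl_mul h1 h5, rl_mul h2 h6, h3, h4]
  ring

end H17S
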