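import Pool.Agent.Lib.H17S.G1

set_option autoImplicit false

/-!
Chunk G2 (M). Bounds for the test field. The sphere is compact and nonempty, `n ↦ nsq (V n)` is continuous (`nsq_cont`), so its range lies in `[0, x1]`, `x1 < Xc P N`; `K = {(P, N, X) | X ∈ [0, x1]}` is compact and contained in `Om3`: `lam_bdd` gives `‖lam s‖ <= C0/(1+s)^3`, `‖lam1 s‖ <= C0/(1+s)^4`,
`‖lamX s‖ <= C0/(1+s)^4 <= C0/(1+s)^3`. The functions `V n i`, `cr n (V n) i`, `rl j (fun y => cr y (V y) k) n`, `rl j (fun y => V y k) n`, `rl j (fun y => nsq (V y)) n` are continuous on the sphere (`TF.c1`, `C1S.cont0`, `C1S.cr`, `C1S.nsq`, `C1S.rl_cont`), so bounded by a constant `B`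
(finitely many functions: take the sum of the bounds). `wla_eq`, `|re|, |im| <= norm`.
-/

open MeasureTheory Filter Topology Set
open scoped ContDiff ComplexConjugate

namespace H17S

open NullPen (E3 S2 sm proj MatterData)
open NullU (rl crs dtB cf Tng)
open H17S.Sph

variable {P N : ℝ} {V : E3 → Fin 3 → ℝ}

theorem g2_ne : Nonempty S2 := by
  refine ⟨⟨EuclideanSpace.single 0 1, ?_⟩⟩
  simp

/-- The values of `|V|^2` on the sphere. -/
theorem g2_max (hV : TF V) (hX : ∀ n : S2, nsq (V n) < Xc P N) : ∃ x1, 0 ≤ x1 ∧ x1 < Xc P N ∧ ∀ n : S2, nsq (V n) ≤ x1 := by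
  have := g2_ne
  obtain ⟨n0, -, h0⟩ := isCompact_univ.exists_isMaxOn (univ_nonempty (α := S2))
    (nsq_cont (V := V) (fun i => hV.c1 i)).continuousOn
  exact ⟨nsq (V n0), nsq_nonneg _, hX n0, fun n => h0 (mem_univ n)⟩

/-- Uniform bounds of the functions of the model. -/
theorem g2_mod (hP : 0 < P) (hV : TF V) (hX : ∀ n : S2, nsq (V n) < Xc P N) : ∃ C, 0 ≤ C ∧ ∀ n : S2, ∀ s, 0 ≤ s →
    ‖(mo P N (nsq (V n))).lam s‖ ≤ C / (1 + s) ^ 3 ∧ ‖(mo P N (nsq (V n))).lam1 s‖ ≤ C / (1 + s) ^ 4 ∧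
      ‖(mo P N (nsq (V n))).lamX s‖ ≤ C / (1 + s) ^ 4 ∧ ‖(mo P N (nsq (V n))).ac s‖ ≤ C / (1 + s) ^ 3 := by
  obtain ⟨x1, h0, h1, h2⟩ := g2_max hV hX
  have hK : IsCompact ((fun x : ℝ => ((P, N, x) : ℝ × ℝ × ℝ)) '' Icc 0 x1) :=
    isCompact_Icc.image (by fun_prop)
  obtain ⟨C, hC0, hC⟩ := lam_bdd hK (by
    rintro p ⟨x, hx, rfl⟩
    exact ⟨hP, lt_of_le_of_lt hx.2 h1⟩)
  refine ⟨C, hC0, fun n s hs => ?_⟩
  exact hC _ ⟨nsq (V n), ⟨nsq_nonneg _, h2 n⟩, rfl⟩ s hs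

theorem g2_lin {z : ℂ} {a b B : ℝ} (ha : |a| ≤ B) (hb : |b| ≤ B) {r : ℝ} (hz : ‖z‖ ≤ r) :
    |z.re * a + z.im * b| ≤ 2 * B * r ∧ |z.re * a - z.im * b| ≤ 2 * B * r := by
  have h1 := Complex.abs_re_le_norm z
  have h2 := Complex.abs_im_le_norm z
  have hB : 0 ≤ B := (abs_nonneg _).trans ha
  have hr : 0 ≤ r := (norm_nonneg _).trans hz
  have e1 : |z.re * a| ≤ r * B := by
    rw [abs_mul]
    exact mul_le_mul (h1.trans hz) ha (abs_nonneg _) hr
  have e2 : |z.im * b| ≤ r * B := by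
    rw [abs_mul]
    exact mul_le_mul (h2.trans hz) hb (abs_nonneg _) hr
  constructor
  · refine (abs_add_le _ _).trans ?_
    linarith
  · refine (abs_sub _ _).trans ?_
    linarith

theorem la_bdd (hP : 0 < P) (hV : TF V) (hX : ∀ n : S2, nsq (V n) < Xc P N) : ∃ C, 0 ≤ C ∧ ∀ s, 0 ≤ s → ∀ n : S2, ∀ i,
    |LaE P N V s n i| ≤ C / (1 + s) ^ 3 ∧ |La1E P N V s n i| ≤ C / (1 + s) ^ 4 ∧ ∀ j, |WLa P N V j s n i| ≤ C / (1 + s) ^ 3 := by
  obtain ⟨C0, hC0, hC⟩ := g2_mod hP hV hX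
  have c1 : ∀ i, C1S (fun y => V y i) := fun i => hV.c1 i
  have k1 : ∀ i, Continuous (fun n : S2 => V n i) := fun i => (c1 i).cont0
  have k2 : ∀ i, Continuous (fun n : S2 => cr n (V n) i) := fun i => (C1S.cr c1 i).cont0
  have k3 : ∀ j k, Continuous (fun n : S2 => rl j (fun y => cr y (V y) k) n) := fun j k => (C1S.cr c1 k).rl_cont j
  have k4 : ∀ j k, Continuous (fun n : S2 => rl j (fun y => V y k) n) := fun j k => (c1 k).rl_cont j
  have k5 : ∀ j, Continuous (fun n : S2 => rl j (fun y => nsq (V y)) n) := fun j => (C1S.nsq c1).rl_cont j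
  have hG : Continuous (fun n : S2 => (∑ i, |V n i|) + (∑ i, |cr n (V n) i|) + (∑ j, ∑ k, |rl j (fun y => cr y (V y) k) n|) +
      (∑ j, ∑ k, |rl j (fun y => V y k) n|) + ∑ j, |rl j (fun y => nsq (V y)) n|) := by
    refine ((((continuous_finsetSum _ fun i _ => (k1 i).abs).add (continuous_finsetSum _ fun i _ => (k2 i).abs)).add
      (continuous_finsetSum _ fun j _ => continuous_finsetSum _ fun k _ => (k3 j k).abs)).add
      (continuous_finsetSum _ fun j _ => continuous_finsetSum _ fun k _ => (k4 j k).abs)).add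
      (continuous_finsetSum _ fun j _ => (k5 j).abs)
  obtain ⟨B, hB⟩ := isCompact_univ.exists_bound_of_continuousOn hG.continuousOn
  have hBn : ∀ n : S2, (∑ i, |V n i|) + (∑ i, |cr n (V n) i|) + (∑ j, ∑ k, |rl j (fun y => cr y (V y) k) n|) +
      (∑ j, ∑ k, |rl j (fun y => V y k) n|) + (∑ j, |rl j (fun y => nsq (V y)) n|) ≤ B := by
    intro n
    exact (le_abs_self _).trans (hB n (mem_univ n))
  have b1 : ∀ (n : S2) i, |V n i| ≤ B ∧ |cr n (V n) i| ≤ B ∧ (∀ j, |rl j (fun y => cr y (V y) i) n| ≤ B) ∧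
      (∀ j, |rl j (fun y => V y i) n| ≤ B) ∧ ∀ j, |rl j (fun y => nsq (V y)) n| ≤ B := by
    intro n i
    have h := hBn n
    have p1 : 0 ≤ ∑ i, |V n i| := Finset.sum_nonneg fun _ _ => abs_nonneg _
    have p2 : 0 ≤ ∑ i, |cr n (V n) i| := Finset.sum_nonneg fun _ _ => abs_nonneg _
    have p3 : 0 ≤ ∑ j, ∑ k, |rl j (fun y => cr y (V y) k) n| := Finset.sum_nonneg fun _ _ => Finset.sum_nonneg fun _ _ => abs_nonneg _
    have p4 : 0 ≤ ∑ j, ∑ k, |rl j (fun y => V y k) n| := Finset.sum_nonneg fun _ _ => Finset.sum_nonneg fun _ _ => abs_nonneg _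
    have p5 : 0 ≤ ∑ j, |rl j (fun y => nsq (V y)) n| := Finset.sum_nonneg fun _ _ => abs_nonneg _
    have q1 : |V n i| ≤ ∑ i, |V n i| := Finset.single_le_sum (f := fun i => |V n i|) (fun _ _ => abs_nonneg _) (Finset.mem_univ i)
    have q2 : |cr n (V n) i| ≤ ∑ i, |cr n (V n) i| :=
      Finset.single_le_sum (f := fun i => |cr n (V n) i|) (fun _ _ => abs_nonneg _) (Finset.mem_univ i)
    have q3 : ∀ j, |rl j (fun y => cr y (V y) i) n| ≤ ∑ j, ∑ k, |rl j (fun y => cr y (V y) k) n| := by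
      intro j
      refine le_trans ?_ (Finset.single_le_sum (f := fun j => ∑ k, |rl j (fun y => cr y (V y) k) n|)
        (fun _ _ => Finset.sum_nonneg fun _ _ => abs_nonneg _) (Finset.mem_univ j))
      exact Finset.single_le_sum (f := fun k => |rl j (fun y => cr y (V y) k) n|) (fun _ _ => abs_nonneg _) (Finset.mem_univ i)
    have q4 : ∀ j, |rl j (fun y => V y i) n| ≤ ∑ j, ∑ k, |rl j (fun y => V y k) n| := by
      intro j
      refine le_trans ?_ (Finset.single_le_sum (f := fun j => ∑ k, |rl j (fun y => V y k) n|)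
        (fun _ _ => Finset.sum_nonneg fun _ _ => abs_nonneg _) (Finset.mem_univ j))
      exact Finset.single_le_sum (f := fun k => |rl j (fun y => V y k) n|) (fun _ _ => abs_nonneg _) (Finset.mem_univ i)
    have q5 : ∀ j, |rl j (fun y => nsq (V y)) n| ≤ ∑ j, |rl j (fun y => nsq (V y)) n| := by
      intro j
      exact Finset.single_le_sum (f := fun j => |rl j (fun y => nsq (V y)) n|) (fun _ _ => abs_nonneg _) (Finset.mem_univ j)
    refine ⟨by linarith, by linarith, fun j => ?_, fun j => ?_, fun j => ?_⟩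
    · have := q3 j
      linarith
    · have := q4 j
      linarith
    · have := q5 j
      linarith
  have hB0 : 0 ≤ B := by
    obtain ⟨n⟩ := g2_ne
    exact (abs_nonneg _).trans (b1 n 0).1
  refine ⟨(2 * B + 2 * B ^ 2) * C0, by positivity, fun s hs n i => ?_⟩
  obtain ⟨m1, m2, m3, -⟩ := hC n s hs
  obtain ⟨v1, v2, v3, v4, v5⟩ := b1 n i
  have hs1 : 0 < 1 + s := by linarith
  have e1 : 0 ≤ 2 * B ^ 2 * C0 / (1 + s) ^ 3 := by positivity
  have e2 : 0 ≤ 2 * B ^ 2 * C0 / (1 + s) ^ 4 := by positivity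
  have e3 : (2 * B + 2 * B ^ 2) * C0 / (1 + s) ^ 3 = 2 * B * (C0 / (1 + s) ^ 3) + 2 * B ^ 2 * C0 / (1 + s) ^ 3 := by ring
  have e4 : (2 * B + 2 * B ^ 2) * C0 / (1 + s) ^ 4 = 2 * B * (C0 / (1 + s) ^ 4) + 2 * B ^ 2 * C0 / (1 + s) ^ 4 := by ring
  refine ⟨?_, ?_, fun j => ?_⟩
  · rw [e3]
    have := (g2_lin v1 v2 m1).1
    unfold LaE
    linarith
  · rw [e4]
    have := (g2_lin v1 v2 m2).1
    unfold La1E
    linarith
  · rw [e3, wla_eq hP hV hX hs]
    have w1 := (g2_lin (v3 j) (v4 j) m1).2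
    have w2 := (g2_lin v2 v1 m3).2
    have w3 : |rl j (fun y => nsq (V y)) n * (((mo P N (nsq (V n))).lamX s).re * cr n (V n) i -
        ((mo P N (nsq (V n))).lamX s).im * V n i)| ≤ B * (2 * B * (C0 / (1 + s) ^ 4)) := by
      rw [abs_mul]
      exact mul_le_mul (v5 j) w2 (abs_nonneg _) hB0
    have w4 : B * (2 * B * (C0 / (1 + s) ^ 4)) ≤ 2 * B ^ 2 * C0 / (1 + s) ^ 3 := by
      have h1 : B * (2 * B * (C0 / (1 + s) ^ 4)) = 2 * B ^ 2 * C0 / (1 + s) ^ 4 := by ring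
      rw [h1]
      apply div_le_div_of_nonneg_left (by positivity) (by positivity)
      exact pow_le_pow_right₀ (by linarith) (by norm_num)
    refine (abs_add_le _ _).trans ?_
    linarith

end H17S
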