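import Pool.Agent.Lib.H17S.G2
import Pool.Agent.Lib.H17S.G3

set_option autoImplicit false

/-! G4: the field is a test field. -/

open MeasureTheory Filter Topology Set
open scoped ContDiff ComplexConjugate

namespace H17S

open NullPen (E3 S2 sm proj MatterData)
open NullU (rl crs dtB cf Tng)
open NullQ (HR)
open H17S.Sph

variable {P N : ℝ} {V : E3 → Fin 3 → ℝ}

theorem la_tan (hV : TF V) (s : ℝ) (n : S2) : ∑ i, (n : E3) i * LaE P N V s n i = 0 := by
  have h1 := hV.tan n
  have h2 := cr_tan n (V n)
  unfold LaE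
  calc ∑ i, (n : E3) i * (((mo P N (nsq (V n))).lam s).re * V n i + ((mo P N (nsq (V n))).lam s).im * cr n (V n) i)
      = ((mo P N (nsq (V n))).lam s).re * ∑ i, (n : E3) i * V n i +
        ((mo P N (nsq (V n))).lam s).im * ∑ i, (n : E3) i * cr n (V n) i := by
        rw [Finset.mul_sum, Finset.mul_sum, ← Finset.sum_add_distrib]
        exact Finset.sum_congr rfl fun i _ => by ring
    _ = 0 := by rw [h1, h2]; ring

theorem la_test (hP : 0 < P) (hV : TF V) (hX : ∀ n : S2, nsq (V n) < Xc P N) :
    ∃ C, TestF 0 C (fun s n => LaE P N V s n) (fun s n => La1E P N V s n) (fun j s n => WLa P N V j s n) := by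
  obtain ⟨C, -, hC⟩ := la_bdd hP hV hX
  exact ⟨C, {
    tan := fun s _ n => la_tan hV s n
    c0 := fun i => la_cont hP hV hX i
    c1 := fun i => la1_cont hP hV hX i
    cw := fun j i => wla_cont hP hV hX j i
    ds := fun s hs n i => la_ds hP hX hs n i
    dn := fun s hs k => la_dn hP hV hX hs k
    b0 := fun s hs n i => (hC s hs n i).1
    b1 := fun s hs n i => (hC s hs n i).2.1
    bw := fun j s hs n i => (hC s hs n i).2.2 j }⟩

end H17S
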