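import Pool.Agent.Lib.H17S.GL1

set_option autoImplicit false

/-!
Chunk GL2 (M). Products of tangential matrices in complex coordinates. Notation `A = aC n M`, `B = bec n e M`, so that `M w = A w + B conj w`, `Mᵀ w = conj A w + B conj w`, `cf M w = A w - B conj w`, `(cf M)ᵀ w = conj A w - B conj w`.
Proof. Write `M` by `gl_mat` with the four numbers `m11, m12, m21, m22` (`gl_al`, definition of `bec`): all statements become identities in `m11, .., m22` and the products `e.e = 1`, `e.f = 0`, `f.f = 1` (`f = nx n e`): `dt3 e (M e) = m11` etc. by definition. `cf n M i j = tr M proj n i j - M j i`,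
`tr M = m11 + m22`, `proj n i j = e_i e_j + f_i f_j` (`gl_res`), so `cf n M i j = m22 e_i e_j - m21 e_i f_j - m12 f_i e_j + m11 f_i f_j`; `gl_cf` states this. `gl_mv`: `mv3 M w` with `w = w1 e + w2 f` (`gl_vec`): `e.(M w) = m11 w1 + m12 w2`, `f.(M w) = m21 w1 + m22 w2`; compare real and imaginary parts.
`gl_cft`: the vector `z j = ∑ k, w k * cf n M k j` has `e.z = m22 w1 - m12 w2`, `f.z = - m21 w1 + m11 w2`. `gl_pair`: `∑ cf_ij M'_ij = m22 m'11 - m21 m'12 - m12 m'21 + m11 m'22`. `gl_dtB`: `dtB M = m11 m22 - m12 m21` (`(tr^2 - tr M^2)/2`). `gl_jM`: `(J M) w = i (M w)`: `m'1j = - m2j`, `m'2j = m1j`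
(`∑_l jm n k l e_l = f_k`, `∑_l jm n k l f_l = - e_k`: `jm_cr`, `cr_cr`). `gl_out`: `∑_ij cf_ij u_i w_j = u . (cf w)`. `gl_proj`: `m11 = m22 = 1`, `m12 = m21 = 0`.
-/

open scoped ComplexConjugate

namespace H17S

open NullPen (E3 S2 sm proj)
open NullU (rl crs dtB cf Tng)
open H17S.Sph

variable {n : S2} {e : Fin 3 → ℝ} {M M' : Fin 3 → Fin 3 → ℝ}

/-- the four components -/
structure Gl2 (e f : Fin 3 → ℝ) (M : Fin 3 → Fin 3 → ℝ) (a b c d : ℝ) : Prop where
  fm : ∀ i j, M i j = a * (e i * e j) + b * (e i * f j) + c * (f i * e j) + d * (f i * f j)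

theorem gl2_dt {e f u w : Fin 3 → ℝ} {a b c d : ℝ} (h : Gl2 e f M a b c d) :
    dt3 u (mv3 M w) = a * (dt3 u e * dt3 e w) + b * (dt3 u e * dt3 f w) + c * (dt3 u f * dt3 e w) +
      d * (dt3 u f * dt3 f w) := by
  simp only [dt3, mv3, Fin.sum_univ_three, h.fm]
  ring

theorem gl2_bas (he : Ut n e) : dt3 e e = 1 ∧ dt3 e (nx n e) = 0 ∧ dt3 (nx n e) e = 0 ∧
    dt3 (nx n e) (nx n e) = 1 ∧ dt3 (fun i => (n : E3) i) e = 0 ∧ dt3 (fun i => (n : E3) i) (nx n e) = 0 := by
  refine ⟨gl_ee he, gl_ef e n, ?_, gl_ff he, he.tan, gl_nf e n⟩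
  have := gl_ef e n
  unfold dt3
  rw [← this]
  exact Finset.sum_congr rfl fun i _ => mul_comm _ _

theorem gl2_ex (he : Ut n e) (hM : Tng n M) : Gl2 e (nx n e) M (dt3 e (mv3 M e)) (dt3 e (mv3 M (nx n e)))
    (dt3 (nx n e) (mv3 M e)) (dt3 (nx n e) (mv3 M (nx n e))) := ⟨gl_mat he hM⟩

theorem gl2_al (he : Ut n e) {a b c d : ℝ} (hM : Tng n M) (h : Gl2 e (nx n e) M a b c d) :
    aC n M = ⟨(a + d) / 2, (c - b) / 2⟩ ∧ bec n e M = ⟨(a - d) / 2, (c + b) / 2⟩ := by
  obtain ⟨h1, h2, h3, h4, -, -⟩ := gl2_bas he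
  rw [gl_al he hM]
  unfold bec
  rw [gl2_dt h, gl2_dt h, gl2_dt h, gl2_dt h, h1, h2, h3, h4]
  constructor <;> apply Complex.ext <;> simp

theorem gl2_cf (he : Ut n e) {a b c d : ℝ} (h : Gl2 e (nx n e) M a b c d) :
    Gl2 e (nx n e) (cf n M) d (-c) (-b) a := by
  obtain ⟨h1, h2, h3, h4, -, -⟩ := gl2_bas he
  refine ⟨fun i j => ?_⟩
  have ht : ∑ k, M k k = a + d := by
    have : ∑ k, M k k = a * dt3 e e + b * dt3 e (nx n e) + c * dt3 (nx n e) e + d * dt3 (nx n e) (nx n e) := by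
      simp only [dt3, Fin.sum_univ_three, h.fm]
      ring
    rw [this, h1, h2, h3, h4]
    ring
  have hp : proj (n : E3) i j = e i * e j + nx n e i * nx n e j := by
    have := gl_res he i j
    unfold proj
    linarith
  unfold cf
  rw [ht, hp, h.fm j i]
  ring

theorem gl_cf (he : Ut n e) (hM : Tng n M) (i j : Fin 3) :
    cf n M i j = dt3 (nx n e) (mv3 M (nx n e)) * (e i * e j) - dt3 (nx n e) (mv3 M e) * (e i * nx n e j) -
      dt3 e (mv3 M (nx n e)) * (nx n e i * e j) + dt3 e (mv3 M e) * (nx n e i * nx n e j) := by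
  rw [(gl2_cf he (gl2_ex he hM)).fm i j]
  ring

theorem gl_mv (he : Ut n e) (hM : Tng n M) {w : Fin 3 → ℝ} (hw : ∑ i, (n : E3) i * w i = 0) :
    vc n e (mv3 M w) = aC n M * vc n e w + bec n e M * conj (vc n e w) := by
  obtain ⟨h1, h2, h3, h4, -, -⟩ := gl2_bas he
  have h := gl2_ex he hM
  obtain ⟨hA, hB⟩ := gl2_al he hM h
  rw [hA, hB]
  unfold vc
  rw [gl2_dt h (u := e) (w := w), gl2_dt h (u := nx n e) (w := w), h1, h2, h3, h4]
  apply Complex.ext <;> simp <;> ring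

/-- the transposed form -/
theorem gl2_tr {e f : Fin 3 → ℝ} {a b c d : ℝ} (h : Gl2 e f M a b c d) : Gl2 e f (fun i j => M j i) a c b d :=
  ⟨fun i j => by
    show M j i = _
    rw [h.fm]
    ring⟩

theorem gl_mvt (he : Ut n e) (hM : Tng n M) {w : Fin 3 → ℝ} (hw : ∑ i, (n : E3) i * w i = 0) :
    vc n e (fun j => ∑ k, M k j * w k) = conj (aC n M) * vc n e w + bec n e M * conj (vc n e w) := by
  obtain ⟨h1, h2, h3, h4, -, -⟩ := gl2_bas he
  have h := gl2_ex he hM
  obtain ⟨hA, hB⟩ := gl2_al he hM h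
  rw [hA, hB]
  have ht := gl2_tr h
  change vc n e (mv3 (fun i j => M j i) w) = _
  unfold vc
  rw [gl2_dt ht (u := e) (w := w), gl2_dt ht (u := nx n e) (w := w), h1, h2, h3, h4]
  apply Complex.ext <;> simp <;> ring

theorem gl_cft (he : Ut n e) (hM : Tng n M) {w : Fin 3 → ℝ} (hw : ∑ i, (n : E3) i * w i = 0) :
    vc n e (fun j => ∑ k, w k * cf n M k j) = conj (aC n M) * vc n e w - bec n e M * conj (vc n e w) := by
  obtain ⟨h1, h2, h3, h4, -, -⟩ := gl2_bas he
  have h := gl2_ex he hM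
  obtain ⟨hA, hB⟩ := gl2_al he hM h
  rw [hA, hB]
  have ht := gl2_tr (gl2_cf he h)
  have e1 : (fun j => ∑ k, w k * cf n M k j) = mv3 (fun i j => cf n M j i) w := by
    funext j
    unfold mv3
    exact Finset.sum_congr rfl fun k _ => mul_comm _ _
  rw [e1]
  unfold vc
  rw [gl2_dt ht (u := e) (w := w), gl2_dt ht (u := nx n e) (w := w), h1, h2, h3, h4]
  apply Complex.ext <;> simp <;> ring

theorem gl_cft_tan (he : Ut n e) (hM : Tng n M) (w : Fin 3 → ℝ) : ∑ j, (n : E3) j * (∑ k, w k * cf n M k j) = 0 := by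
  obtain ⟨-, -, -, -, h5, h6⟩ := gl2_bas he
  have ht := gl2_tr (gl2_cf he (gl2_ex he hM))
  have e1 : (fun j => ∑ k, w k * cf n M k j) = mv3 (fun i j => cf n M j i) w := by
    funext j
    unfold mv3
    exact Finset.sum_congr rfl fun k _ => mul_comm _ _
  have e2 : ∑ j, (n : E3) j * (∑ k, w k * cf n M k j) = dt3 (fun i => (n : E3) i) (mv3 (fun i j => cf n M j i) w) := by
    rw [← e1]
    rfl
  rw [e2, gl2_dt ht, h5, h6]
  ring

/-- `∑ X_ij Y_ij` -/
theorem gl2_sum {e f : Fin 3 → ℝ} (h1 : dt3 e e = 1) (h2 : dt3 e f = 0) (h4 : dt3 f f = 1) {a b c d a' b' c' d' : ℝ}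
    (h : Gl2 e f M a b c d) (h' : Gl2 e f M' a' b' c' d') :
    ∑ i, ∑ j, M i j * M' i j = a * a' + b * b' + c * c' + d * d' := by
  have e1 : ∑ i, ∑ j, M i j * M' i j = a * a' * (dt3 e e * dt3 e e) + b * b' * (dt3 e e * dt3 f f) +
      c * c' * (dt3 f f * dt3 e e) + d * d' * (dt3 f f * dt3 f f) +
      (a * b' + b * a') * (dt3 e e * dt3 e f) + (a * c' + c * a') * (dt3 e f * dt3 e e) +
      (a * d' + d * a' + b * c' + c * b') * (dt3 e f * dt3 e f) +
      (b * d' + d * b') * (dt3 e f * dt3 f f) + (c * d' + d * c') * (dt3 f f * dt3 e f) := by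
    simp only [dt3, Fin.sum_univ_three, h.fm, h'.fm]
    ring
  rw [e1, h1, h2, h4]
  ring

theorem gl_pair (he : Ut n e) (hM : Tng n M) (hM' : Tng n M') :
    ∑ i, ∑ j, cf n M i j * M' i j = 2 * (conj (aC n M) * aC n M' - conj (bec n e M) * bec n e M').re := by
  obtain ⟨h1, h2, h3, h4, -, -⟩ := gl2_bas he
  have h := gl2_ex he hM
  have h' := gl2_ex he hM'
  obtain ⟨hA, hB⟩ := gl2_al he hM h
  obtain ⟨hA', hB'⟩ := gl2_al he hM' h'
  rw [hA, hB, hA', hB', gl2_sum h1 h2 h4 (gl2_cf he h) h']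
  simp
  ring

theorem gl_out (he : Ut n e) (hM : Tng n M) {u w : Fin 3 → ℝ} (hu : ∑ i, (n : E3) i * u i = 0) (hw : ∑ i, (n : E3) i * w i = 0) :
    ∑ i, ∑ j, cf n M i j * (u i * w j) = (conj (vc n e u) * (aC n M * vc n e w - bec n e M * conj (vc n e w))).re := by
  have h := gl2_ex he hM
  obtain ⟨hA, hB⟩ := gl2_al he hM h
  rw [hA, hB]
  have hc := gl2_cf he h
  have e1 : ∑ i, ∑ j, cf n M i j * (u i * w j) = dt3 u (mv3 (cf n M) w) := by
    unfold dt3 mv3
    refine Finset.sum_congr rfl fun i _ => ?_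
    rw [Finset.mul_sum]
    exact Finset.sum_congr rfl fun j _ => by ring
  have hcomm : ∀ v : Fin 3 → ℝ, dt3 u v = dt3 v u := fun v => by
    unfold dt3
    exact Finset.sum_congr rfl fun i _ => mul_comm _ _
  rw [e1, gl2_dt hc, hcomm e, hcomm (nx n e)]
  unfold vc
  simp
  ring

/-- the trace -/
theorem gl2_trace {e f : Fin 3 → ℝ} {a b c d : ℝ} (h : Gl2 e f M a b c d) :
    ∑ k, M k k = a * dt3 e e + b * dt3 e f + c * dt3 f e + d * dt3 f f := by
  simp only [dt3, Fin.sum_univ_three, h.fm]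
  ring

theorem gl_dtB (he : Ut n e) (hM : Tng n M) : dtB M = ‖aC n M‖ ^ 2 - ‖bec n e M‖ ^ 2 := by
  obtain ⟨h1, h2, h3, h4, -, -⟩ := gl2_bas he
  have h := gl2_ex he hM
  obtain ⟨hA, hB⟩ := gl2_al he hM h
  rw [← Complex.normSq_eq_norm_sq, ← Complex.normSq_eq_norm_sq, hA, hB, Complex.normSq_mk, Complex.normSq_mk]
  have ht : ∑ i, ∑ j, M i j * M j i = _ := gl2_sum h1 h2 h4 h (gl2_tr h)
  unfold dtB
  rw [gl2_trace h, ht, h1, h2, h3, h4]
  ring

theorem gl_jM (he : Ut n e) (hM : Tng n M) : aC n (fun k i => ∑ l, jm n k l * M l i) = Complex.I * aC n M ∧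
    bec n e (fun k i => ∑ l, jm n k l * M l i) = Complex.I * bec n e M ∧ Tng n (fun k i => ∑ l, jm n k l * M l i) := by
  have h := gl2_ex he hM
  obtain ⟨hA, hB⟩ := gl2_al he hM h
  have hff : ∀ k, ∑ l, jm n k l * nx n e l = - e k := fun k => by
    rw [jm_cr]
    exact cr_cr n he.tan k
  have hee : ∀ k, ∑ l, jm n k l * e l = nx n e k := fun k => by
    rw [jm_cr]
    rfl
  have hT : Tng n (fun k i => ∑ l, jm n k l * M l i) := by
    constructor
    · intro i
      have : ∑ j, (∑ l, jm n i l * M l j) * (n : E3) j = ∑ l, jm n i l * ∑ j, M l j * (n : E3) j := by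
        simp only [Fin.sum_univ_three]
        ring
      rw [this]
      exact Finset.sum_eq_zero fun l _ => by rw [hM.r, mul_zero]
    · intro j
      have e1 : ∀ i, ∑ l, jm n i l * M l j = cr n (fun l => M l j) i := fun i => jm_cr n (fun l => M l j) i
      simp only [e1]
      exact cr_tan _ _
  have hG : Gl2 e (nx n e) (fun k i => ∑ l, jm n k l * M l i) (-dt3 (nx n e) (mv3 M e))
      (-dt3 (nx n e) (mv3 M (nx n e))) (dt3 e (mv3 M e)) (dt3 e (mv3 M (nx n e))) := by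
    refine ⟨fun i j => ?_⟩
    have e1 : ∑ l, jm n i l * M l j = dt3 e (mv3 M e) * ((∑ l, jm n i l * e l) * e j) +
        dt3 e (mv3 M (nx n e)) * ((∑ l, jm n i l * e l) * nx n e j) +
        dt3 (nx n e) (mv3 M e) * ((∑ l, jm n i l * nx n e l) * e j) +
        dt3 (nx n e) (mv3 M (nx n e)) * ((∑ l, jm n i l * nx n e l) * nx n e j) := by
      have e2 : ∀ l, jm n i l * M l j = jm n i l * (dt3 e (mv3 M e) * (e l * e j) +
        dt3 e (mv3 M (nx n e)) * (e l * nx n e j) + dt3 (nx n e) (mv3 M e) * (nx n e l * e j) +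
        dt3 (nx n e) (mv3 M (nx n e)) * (nx n e l * nx n e j)) := fun l => by rw [← h.fm l j]
      rw [Finset.sum_congr rfl fun l _ => e2 l]
      generalize dt3 e (mv3 M e) = a
      generalize dt3 e (mv3 M (nx n e)) = b
      generalize dt3 (nx n e) (mv3 M e) = c
      generalize dt3 (nx n e) (mv3 M (nx n e)) = d
      simp only [Fin.sum_univ_three]
      ring
    rw [e1, hff, hee]
    ring
  obtain ⟨hA', hB'⟩ := gl2_al he hT hG
  refine ⟨?_, ?_, hT⟩
  · rw [hA', hA]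
    apply Complex.ext <;> simp <;> ring
  · rw [hB', hB]
    apply Complex.ext <;> simp <;> ring

theorem gl_proj (he : Ut n e) : aC n (proj n) = 1 ∧ bec n e (proj n) = 0 := by
  obtain ⟨h1, h2, h3, h4, h5, h6⟩ := gl2_bas he
  have h : Gl2 e (nx n e) (proj n) 1 0 0 1 := ⟨fun i j => by
    have := gl_res he i j
    unfold proj
    linarith⟩
  have hT : Tng n (proj n) := by
    constructor
    · intro i
      have : ∑ j, proj (n : E3) i j * (n : E3) j = e i * dt3 (fun i => (n : E3) i) e +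
          nx n e i * dt3 (fun i => (n : E3) i) (nx n e) := by
        simp only [dt3, Fin.sum_univ_three, h.fm]
        ring
      rw [this, h5, h6]
      ring
    · intro j
      have : ∑ i, (n : E3) i * proj (n : E3) i j = e j * dt3 (fun i => (n : E3) i) e +
          nx n e j * dt3 (fun i => (n : E3) i) (nx n e) := by
        simp only [dt3, Fin.sum_univ_three, h.fm]
        ring
      rw [this, h5, h6]
      ring
  obtain ⟨hA, hB⟩ := gl2_al he hT h
  rw [hA, hB]
  constructor <;> apply Complex.ext <;> simp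

/-- Vectors proportional to `e`. -/
theorem gl_vce (he : Ut n e) {v : Fin 3 → ℝ} {b : ℝ} (hb : ∀ i, v i = b * e i) : vc n e v = b ∧ nsq v = b ^ 2 := by
  obtain ⟨h1, h2, h3, h4, h5, h6⟩ := gl2_bas he
  constructor
  · unfold vc
    have e1 : dt3 e v = b * dt3 e e := by
      simp only [dt3, Fin.sum_univ_three, hb]
      ring
    have e2 : dt3 (nx n e) v = b * dt3 (nx n e) e := by
      simp only [dt3, Fin.sum_univ_three, hb]
      ring
    rw [e1, e2, h1, h3]
    apply Complex.ext <;> simp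
  · have e1 : nsq v = b ^ 2 * dt3 e e := by
      simp only [nsq, dt3, Fin.sum_univ_three, hb]
      ring
    rw [e1, h1, mul_one]

end H17S
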