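import Pool.Agent.Lib.H17S.G1
import Pool.Agent.Lib.H17S.GL2

set_option autoImplicit false

/-!
Chunk G5 (M). The pairing of the frame with the derivative of the test field, in complex coordinates. Notation `m = mo P N (nsq (V n))`, `lam = m.lam s = a + i b'`, `lX = m.lamX s`, `A = aC n M`, `B = bec n e M`, `al = alD V n = aC n (DV V n)` (`aC_DV`), `be = bec n e (DV V n)`, `V n = b e` (`gl_vce`: `vc V = b`, `nsq (V n) = b^2`).
`g5_DV`: `DV_comb` with the functions `Re lam`, `Im lam` (differentiable at `n`: `lam_dy`), `gd` of them is `lamX.re * gd (nsq V)` (`gd F n i = ∑ j, jm n j i * rl j F n`, `lam_rl`) and `gd (fun y => nsq (V y)) n i = 2 wv V n i` (definition of `wv`).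
`pair_la`: `pairB M w = ∑ k, ∑ j, M k j * w j k`, so by `pair_DV (la_td ..)` it is `∑ cf n M k i * DV (LaE ..) n k i`; put in `g5_DV`. (1) `∑ cf (a DV + b' J DV) = 2 Re (conj A (a + i b') al - conj B (a + i b') be) = 2 Re (lam (conj A al - conj B be))` (`gl_pair`, `gl_jM`, `DV_tng`; the sums are linear).
(2) `∑ cf_ki u_k w_i` with `u = lX.re V + lX.im (n × V)`, `vc u = b lX` (`gl_cr`), `w_i = 2 wv_i = 2 ∑_k DV_ki V_k` (`wv_eq`), `vc w = 2 b (conj al + be)` (`gl_mvt`): by `gl_out` it is `2 b^2 Re (conj lX (A (conj al + be) - B (al + conj be)))`.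
Sum: with `ac = lam + X lX`, `aa = X lX`, `X = b^2 = nsq (V n)` this is the right side (compare real parts; every complex number has the same real part as its conjugate: write all numbers with real and imaginary parts and use `ring`).
-/

open MeasureTheory Filter Topology Set
open scoped ContDiff ComplexConjugate

namespace H17S

open NullPen (E3 S2 sm proj MatterData)
open NullU (rl crs dtB cf Tng)
open H17S.Sph

variable {P N : ℝ} {V : E3 → Fin 3 → ℝ} {s : ℝ}

theorem g5_vc (n : E3) (e v w : Fin 3 → ℝ) (x y : ℝ) :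
    vc n e (fun k => x * v k + y * w k) = (x : ℂ) * vc n e v + (y : ℂ) * vc n e w := by
  have h : ∀ f : Fin 3 → ℝ, dt3 f (fun k => x * v k + y * w k) = x * dt3 f v + y * dt3 f w := by
    intro f
    unfold dt3
    rw [Finset.mul_sum, Finset.mul_sum, ← Finset.sum_add_distrib]
    exact Finset.sum_congr rfl fun i _ => by ring
  apply Complex.ext
  · rw [Complex.add_re, Complex.re_ofReal_mul, Complex.re_ofReal_mul]
    exact h e
  · rw [Complex.add_im, Complex.im_ofReal_mul, Complex.im_ofReal_mul]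
    exact h (nx n e)

theorem g5_alg (A B al be lam lX : ℂ) (b : ℝ) :
    lam.re * (2 * (conj A * al - conj B * be).re) + lam.im * (2 * (conj A * (Complex.I * al) - conj B * (Complex.I * be)).re) +
      (conj ((b : ℂ) * lX) * (A * (2 * (b : ℂ) * (conj al + be)) - B * conj (2 * (b : ℂ) * (conj al + be)))).re =
    2 * (conj al * (conj (lam + ((b ^ 2 : ℝ) : ℂ) * lX) * A - ((b ^ 2 : ℝ) : ℂ) * lX * conj B) -
        conj be * (conj (lam + ((b ^ 2 : ℝ) : ℂ) * lX) * B - ((b ^ 2 : ℝ) : ℂ) * lX * conj A)).re := by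
  obtain ⟨A1, A2⟩ := A
  obtain ⟨B1, B2⟩ := B
  obtain ⟨a1, a2⟩ := al
  obtain ⟨b1, b2⟩ := be
  obtain ⟨l1, l2⟩ := lam
  obtain ⟨x1, x2⟩ := lX
  simp only [Complex.mul_re, Complex.mul_im, Complex.add_re, Complex.add_im, Complex.sub_re, Complex.sub_im,
    Complex.conj_re, Complex.conj_im, Complex.I_re, Complex.I_im, Complex.ofReal_re, Complex.ofReal_im,
    Complex.re_ofNat, Complex.im_ofNat]
  ring

theorem g5_DV (hP : 0 < P) (hV : TF V) (hX : ∀ n : S2, nsq (V n) < Xc P N) (hs : 0 ≤ s) (n : S2) (k i : Fin 3) :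
    DV (LaE P N V s) n k i = ((mo P N (nsq (V n))).lam s).re * DV V n k i +
      ((mo P N (nsq (V n))).lam s).im * (∑ l, jm n k l * DV V n l i) +
      (((mo P N (nsq (V n))).lamX s).re * V n k + ((mo P N (nsq (V n))).lamX s).im * cr n (V n) k) * (2 * wv V n i) := by
  have h := DV_comb hV.td n (lam_dy hP hV hX hs n).1 (lam_dy hP hV hX hs n).2 k i
  have h1 : gd (fun y : E3 => ((mo P N (nsq (V y))).lam s).re) n i =
      ((mo P N (nsq (V n))).lamX s).re * gd (fun y => nsq (V y)) n i := by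
    unfold gd
    rw [Finset.mul_sum]
    refine Finset.sum_congr rfl fun j _ => ?_
    rw [(lam_rl hP hV hX hs n j).1]
    ring
  have h2 : gd (fun y : E3 => ((mo P N (nsq (V y))).lam s).im) n i =
      ((mo P N (nsq (V n))).lamX s).im * gd (fun y => nsq (V y)) n i := by
    unfold gd
    rw [Finset.mul_sum]
    refine Finset.sum_congr rfl fun j _ => ?_
    rw [(lam_rl hP hV hX hs n j).2]
    ring
  have h3 : gd (fun y => nsq (V y)) n i = 2 * wv V n i := by
    unfold wv
    ring
  rw [h1, h2, h3] at h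
  have h4 : DV (LaE P N V s) n k i = _ := h
  rw [h4]
  ring

theorem pair_la (hP : 0 < P) (hV : TF V) (hX : ∀ n : S2, nsq (V n) < Xc P N) (hs : 0 ≤ s) (n : S2) {e : Fin 3 → ℝ} (he : Ut n e)
    {b : ℝ} (hb : ∀ i, V n i = b * e i) {M : Fin 3 → Fin 3 → ℝ} (hM : Tng n M) :
    pairB M (fun j k => WLa P N V j s n k) =
      2 * (conj (alD V n) * (conj ((mo P N (nsq (V n))).ac s) * aC n M - (mo P N (nsq (V n))).aa s * conj (bec n e M)) -
        conj (bec n e (DV V n)) *
          (conj ((mo P N (nsq (V n))).ac s) * bec n e M - (mo P N (nsq (V n))).aa s * conj (aC n M))).re := by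
  have hbX : (mo P N (nsq (V n))).X = b ^ 2 := (gl_vce he hb).2
  have hvb : vc n e (V n) = b := (gl_vce he hb).1
  have hT : Tng n (DV V n) := DV_tng V n
  obtain ⟨hJ1, hJ2, hJ3⟩ := gl_jM he hT
  have hVt : ∑ i, (n : E3) i * V n i = 0 := hV.tan n
  have h0 : pairB M (fun j k => WLa P N V j s n k) = ∑ k, ∑ i, cf n M k i * DV (LaE P N V s) n k i :=
    pair_DV (la_td hP hV hX hs) n hM
  have h1 : ∑ k, ∑ i, cf n M k i * DV (LaE P N V s) n k i =
      ((mo P N (nsq (V n))).lam s).re * (∑ k, ∑ i, cf n M k i * DV V n k i) +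
      ((mo P N (nsq (V n))).lam s).im * (∑ k, ∑ i, cf n M k i * (∑ l, jm n k l * DV V n l i)) +
      ∑ k, ∑ i, cf n M k i * ((((mo P N (nsq (V n))).lamX s).re * V n k +
        ((mo P N (nsq (V n))).lamX s).im * cr n (V n) k) * (2 * wv V n i)) := by
    rw [Finset.mul_sum, Finset.mul_sum, ← Finset.sum_add_distrib, ← Finset.sum_add_distrib]
    refine Finset.sum_congr rfl fun k _ => ?_
    rw [Finset.mul_sum, Finset.mul_sum, ← Finset.sum_add_distrib, ← Finset.sum_add_distrib]
    refine Finset.sum_congr rfl fun i _ => ?_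
    rw [g5_DV hP hV hX hs n k i]
    ring
  have hu : ∑ k, (n : E3) k * (((mo P N (nsq (V n))).lamX s).re * V n k +
        ((mo P N (nsq (V n))).lamX s).im * cr n (V n) k) = 0 := by
    have e1 : ∑ k, (n : E3) k * (((mo P N (nsq (V n))).lamX s).re * V n k +
        ((mo P N (nsq (V n))).lamX s).im * cr n (V n) k) =
        ((mo P N (nsq (V n))).lamX s).re * (∑ k, (n : E3) k * V n k) +
        ((mo P N (nsq (V n))).lamX s).im * ∑ k, (n : E3) k * cr n (V n) k := by
      rw [Finset.mul_sum, Finset.mul_sum, ← Finset.sum_add_distrib]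
      exact Finset.sum_congr rfl fun k _ => by ring
    rw [e1, hVt, cr_tan, mul_zero, mul_zero, add_zero]
  have hwv : (fun i => 2 * wv V n i) = fun i => (2 : ℝ) * (∑ k, DV V n k i * V n k) + 0 * V n i := by
    funext i
    rw [wv_eq hV.td n i]
    ring
  have hw : ∑ i, (n : E3) i * (2 * wv V n i) = 0 := by
    have e1 : ∀ i, (n : E3) i * (2 * wv V n i) = ∑ k, 2 * V n k * (DV V n k i * (n : E3) i) := by
      intro i
      rw [wv_eq hV.td n i, Finset.mul_sum, Finset.mul_sum]
      exact Finset.sum_congr rfl fun k _ => by ring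
    rw [Finset.sum_congr rfl fun i _ => e1 i, Finset.sum_comm]
    refine Finset.sum_eq_zero fun k _ => ?_
    rw [← Finset.mul_sum, hT.r k, mul_zero]
  have hvw : vc n e (fun i => 2 * wv V n i) = 2 * (b : ℂ) * (conj (alD V n) + bec n e (DV V n)) := by
    rw [hwv, g5_vc, gl_mvt he hT hVt, hvb, aC_DV hV.td n, Complex.conj_ofReal]
    push_cast
    ring
  have hvu : vc n e (fun k => ((mo P N (nsq (V n))).lamX s).re * V n k +
        ((mo P N (nsq (V n))).lamX s).im * cr n (V n) k) = (b : ℂ) * (mo P N (nsq (V n))).lamX s := by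
    rw [g5_vc, gl_cr he hVt, hvb]
    conv_rhs => rw [← Complex.re_add_im ((mo P N (nsq (V n))).lamX s)]
    ring
  rw [h0, h1, gl_pair he hM hT, gl_pair he hM hJ3, gl_out he hM hu hw, hJ1, hJ2, hvu, hvw, aC_DV hV.td n]
  have h5 := g5_alg (aC n M) (bec n e M) (alD V n) (bec n e (DV V n)) ((mo P N (nsq (V n))).lam s)
    ((mo P N (nsq (V n))).lamX s) b
  rw [h5]
  unfold Mo.ac Mo.aa
  rw [hbX]

end H17S
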