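import Pool.Agent.Lib.H17S.G3
import Pool.Agent.Lib.H17S.GL2
import Pool.Agent.Lib.H17S.E14

set_option autoImplicit false

/-!
Chunk G6 (M). The cost of the test field is the cost of the pointwise theorem. `p = pth h2 b0 τ n e` (`p.A s = ale n (Bt ..) = aC n (Bt ..)`: `ale_eq_aC`; `p.B s = bec n e (Bt ..)` by `rfl`), `m = mo P N (nsq (V n))`, `V n = b e`, so `vc (V n) = b`, `nsq (V n) = b^2` (`gl_vce`),
`vc (LaE P N V s n) = b lam(s)`, `vc (La1E P N V s n) = b lam1(s)` (`gl_cr`; `vc` is linear).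
`g6_Z`: `vc n e (z)` has the real part `∑ e_j z_j` and the imaginary part `∑ f_j z_j`; `ZB .. s j = ∫ r in Ioi s, ∑ k, La1E r k * cf n (Bt r) k j`; the integrands are continuous on `Ici 0` (`e14_Bc`, `g3_mod`) and bounded by `C/(1+r)^2` (`|Bt r i j| <= C (1 + r)` from `e14_bd`; `‖lam1‖ <= C/(1+r)^4`: `Mo.Ok.dec`),
so integrable, and the finite sums and the factors `e_j`, `f_j` can be moved into the integral; by `gl_cft` the integrand is `conj A (b lam1) - B conj (b lam1) = b conj (conj lam1 A - lam1 conj B)`, the integrand of `vv`: so `vc n e (ZB .. s ·) = b conj (vv m p s)` (`integral_conj`, `integral_re`/`integral_im` or `Complex.ext`).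
Integrability of the integrand of `vv`: `w7_vi`, `w7_int`. Tangential: `g6_Zt` (`gl_cft_tan`).
`kZ_la`: `∑ k, l_k ∑ j, B k j Z_j = l . (B Z)`: `gl_dot`, `gl_mv`: `Re (conj (b lam) (A b conj vv + B conj (b conj vv))) = b^2 Re (conj lam A conj vv + conj lam B vv)`; `∑ LaE_k^2 = b^2 |lam|^2` (`gl_dot`), `aT D δ τ s n = dtB (Bt ..) = |A|^2 - |B|^2 = p.a s` (`e14_bd`, `gl_dtB`). `g6_cost`: integrate over `Ioi 0`, `m.X = nsq (V n)` (rfl), definition of `cost`.
-/

open MeasureTheory Filter Topology Set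
open scoped ContDiff ComplexConjugate

namespace H17S

open NullPen (E3 S2 sm proj MatterData)
open NullU (rl crs dtB cf Tng)
open H17S.Sph

variable {D : MatterData} {δ τ C P N : ℝ} {Bi : ℝ → S2 → Fin 3 → Fin 3 → ℝ} {b0 : S2 → ℝ} {V : E3 → Fin 3 → ℝ}

theorem pth_A (h2 : FInf2 D δ C Bi) (n : S2) (e : Fin 3 → ℝ) (s : ℝ) : (pth h2 b0 τ n e).A s = aC n (Bt Bi δ τ s n) := ale_eq_aC _ _

theorem pth_B (h2 : FInf2 D δ C Bi) (n : S2) (e : Fin 3 → ℝ) (s : ℝ) : (pth h2 b0 τ n e).B s = bec n e (Bt Bi δ τ s n) := rfl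

theorem pth_a (hI : FInf D δ C Bi b0) (h2 : FInf2 D δ C Bi) (hτ : 0 < τ) (hτ1 : τ ≤ 1) (n : S2) {e : Fin 3 → ℝ} (he : Ut n e) {s : ℝ} (hs : 0 ≤ s) :
    (pth h2 b0 τ n e).a s = aT D δ τ s n := by
  obtain ⟨h3, h4, -⟩ := e14_bd hI hτ hτ1 hs n
  unfold Pa.a
  rw [pth_A, pth_B, ← gl_dtB he h3, h4]

theorem g6_vc (n : E3) (e : Fin 3 → ℝ) (a c : ℝ) (u w : Fin 3 → ℝ) :
    vc n e (fun i => a * u i + c * w i) = a * vc n e u + c * vc n e w := by
  apply Complex.ext
  · simp only [vc, dt3, Fin.sum_univ_three, Complex.add_re, Complex.re_ofReal_mul]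
    ring
  · simp only [vc, dt3, Fin.sum_univ_three, Complex.add_im, Complex.im_ofReal_mul]
    ring

theorem g6_la (n : S2) {e : Fin 3 → ℝ} (he : Ut n e) (hV : TF V) {b : ℝ} (hb : ∀ i, V n i = b * e i) (s : ℝ) :
    vc n e (LaE P N V s n) = b * (mo P N (nsq (V n))).lam s ∧ vc n e (La1E P N V s n) = b * (mo P N (nsq (V n))).lam1 s := by
  have h1 := (gl_vce he hb).1
  have h2 := gl_cr he (hV.tan n)
  rw [h1] at h2
  constructor
  · have h3 := g6_vc n e ((mo P N (nsq (V n))).lam s).re ((mo P N (nsq (V n))).lam s).im (V n) (cr n (V n))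
    rw [h1, h2] at h3
    refine Eq.trans h3 ?_
    conv_rhs => rw [← Complex.re_add_im ((mo P N (nsq (V n))).lam s)]
    ring
  · have h3 := g6_vc n e ((mo P N (nsq (V n))).lam1 s).re ((mo P N (nsq (V n))).lam1 s).im (V n) (cr n (V n))
    rw [h1, h2] at h3
    refine Eq.trans h3 ?_
    conv_rhs => rw [← Complex.re_add_im ((mo P N (nsq (V n))).lam1 s)]
    ring

theorem g6_tan (hV : TF V) (s : ℝ) (n : S2) : ∑ i, (n : E3) i * LaE P N V s n i = 0 ∧ ∑ i, (n : E3) i * La1E P N V s n i = 0 := by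
  have h1 := hV.tan n
  have h2 := cr_tan n (V n)
  constructor
  · unfold LaE
    calc ∑ i, (n : E3) i * (((mo P N (nsq (V n))).lam s).re * V n i + ((mo P N (nsq (V n))).lam s).im * cr n (V n) i)
        = ((mo P N (nsq (V n))).lam s).re * ∑ i, (n : E3) i * V n i +
          ((mo P N (nsq (V n))).lam s).im * ∑ i, (n : E3) i * cr n (V n) i := by
          rw [Finset.mul_sum, Finset.mul_sum, ← Finset.sum_add_distrib]
          exact Finset.sum_congr rfl fun i _ => by ring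
      _ = 0 := by rw [h1, h2]; ring
  · unfold La1E
    calc ∑ i, (n : E3) i * (((mo P N (nsq (V n))).lam1 s).re * V n i + ((mo P N (nsq (V n))).lam1 s).im * cr n (V n) i)
        = ((mo P N (nsq (V n))).lam1 s).re * ∑ i, (n : E3) i * V n i +
          ((mo P N (nsq (V n))).lam1 s).im * ∑ i, (n : E3) i * cr n (V n) i := by
          rw [Finset.mul_sum, Finset.mul_sum, ← Finset.sum_add_distrib]
          exact Finset.sum_congr rfl fun i _ => by ring
      _ = 0 := by rw [h1, h2]; ring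

theorem g6_ZB (hD : D.IsNull) (hA : D.AsympFlat) (hI : FInf D δ C Bi b0) (h2 : FInf2 D δ C Bi) (hτ : 0 < τ) (hτ1 : τ ≤ 1) (hP : 0 < P) (hV : TF V)
    (hX : ∀ n : S2, nsq (V n) < Xc P N) (n : S2) {e : Fin 3 → ℝ} (he : Ut n e) {b : ℝ} (hb : ∀ i, V n i = b * e i) {s : ℝ} (hs : 0 ≤ s) (j : Fin 3) :
    ZB (fun r => Bt Bi δ τ r n) n (fun r => La1E P N V r n) s j =
      (b * conj (vv (mo P N (nsq (V n))) (pth h2 b0 τ n e) s)).re * e j + (b * conj (vv (mo P N (nsq (V n))) (pth h2 b0 τ n e) s)).im * nx n e j := by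
  obtain ⟨m, hm⟩ : ∃ m : Mo, m = mo P N (nsq (V n)) := ⟨_, rfl⟩
  have hmok : m.Ok := by
    rw [hm]
    exact mo_ok hP (nsq_nonneg _) (hX n)
  have hpok := path_ok hD hA hI h2 hτ hτ1 n he
  obtain ⟨p, hp⟩ : ∃ p : Pa, p = pth h2 b0 τ n e := ⟨_, rfl⟩
  rw [← hp] at hpok
  obtain ⟨hc, hbd⟩ := w7_vi hmok hpok
  obtain ⟨C', -, hbd⟩ := w7_lift hbd
  have hint : IntegrableOn (fun r => conj (m.lam1 r) * p.A r - m.lam1 r * conj (p.B r)) (Ioi s) := w7_int hc hbd hs
  obtain ⟨F, hF⟩ : ∃ F : ℝ → ℂ, F = fun r => (b : ℂ) * conj (conj (m.lam1 r) * p.A r - m.lam1 r * conj (p.B r)) := ⟨_, rfl⟩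
  have hFi : IntegrableOn F (Ioi s) := by
    rw [hF]
    have h3 : IntegrableOn (fun r => conj (conj (m.lam1 r) * p.A r - m.lam1 r * conj (p.B r))) (Ioi s) := by
      have := (Complex.conjCLE : ℂ →L[ℝ] ℂ).integrable_comp hint
      exact this
    exact h3.const_mul _
  have hFI : ∫ r in Ioi s, F r = b * conj (vv m p s) := by
    rw [hF, integral_const_mul, integral_conj]
    rfl
  have hpt : ∀ r ∈ Ioi s, ∑ k, La1E P N V r n k * cf n (Bt Bi δ τ r n) k j = (F r).re * e j + (F r).im * nx n e j := by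
    intro r hr
    have hr0 : 0 ≤ r := hs.trans (le_of_lt hr)
    obtain ⟨hT, -, -⟩ := e14_bd hI hτ hτ1 hr0 n
    have h3 := gl_cft he hT (g6_tan (P := P) (N := N) hV r n).2
    have h4 := gl_vec he (gl_cft_tan he hT (La1E P N V r n)) j
    have h5 : F r = vc n e (fun j => ∑ k, La1E P N V r n k * cf n (Bt Bi δ τ r n) k j) := by
      rw [h3, (g6_la (P := P) (N := N) n he hV hb r).2, hF, hp, hm]
      show (b : ℂ) * conj (conj ((mo P N (nsq (V n))).lam1 r) * (pth h2 b0 τ n e).A r -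
        (mo P N (nsq (V n))).lam1 r * conj ((pth h2 b0 τ n e).B r)) = _
      rw [pth_A, pth_B]
      simp only [map_sub, map_mul, Complex.conj_conj, Complex.conj_ofReal]
      ring
    rw [h5]
    exact h4
  rw [← hm, ← hp, ← hFI]
  unfold ZB
  rw [setIntegral_congr_fun measurableSet_Ioi hpt]
  have hre : IntegrableOn (fun r => (F r).re) (Ioi s) := Complex.reCLM.integrable_comp hFi
  have him : IntegrableOn (fun r => (F r).im) (Ioi s) := Complex.imCLM.integrable_comp hFi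
  have e1 : ∫ r in Ioi s, (F r).re = (∫ r in Ioi s, F r).re := Complex.reCLM.integral_comp_comm hFi
  have e2 : ∫ r in Ioi s, (F r).im = (∫ r in Ioi s, F r).im := Complex.imCLM.integral_comp_comm hFi
  rw [integral_add (hre.mul_const _) (him.mul_const _), integral_mul_const, integral_mul_const, e1, e2]

theorem g6_vcef (n : S2) {e : Fin 3 → ℝ} (he : Ut n e) (a c : ℝ) : vc n e (fun j => a * e j + c * nx n e j) = ⟨a, c⟩ := by
  rw [g6_vc]
  have h1 : vc n e e = 1 := by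
    apply Complex.ext
    · exact gl_ee he
    · have := gl_ef e (n : E3)
      show dt3 (nx n e) e = 0
      unfold dt3
      rw [← this]
      exact Finset.sum_congr rfl fun i _ => mul_comm _ _
  have h2 : vc n e (nx n e) = Complex.I := by
    apply Complex.ext
    · exact gl_ef e (n : E3)
    · exact gl_ff he
  rw [h1, h2, mul_one]
  apply Complex.ext <;> simp

theorem g6_Z (hD : D.IsNull) (hA : D.AsympFlat) (hI : FInf D δ C Bi b0) (h2 : FInf2 D δ C Bi) (hτ : 0 < τ) (hτ1 : τ ≤ 1) (hP : 0 < P) (hV : TF V)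
    (hX : ∀ n : S2, nsq (V n) < Xc P N) (n : S2) {e : Fin 3 → ℝ} (he : Ut n e) {b : ℝ} (hb : ∀ i, V n i = b * e i) {s : ℝ} (hs : 0 ≤ s) :
    vc n e (fun j => ZB (fun r => Bt Bi δ τ r n) n (fun r => La1E P N V r n) s j) =
      b * conj (vv (mo P N (nsq (V n))) (pth h2 b0 τ n e) s) := by
  have h3 : (fun j => ZB (fun r => Bt Bi δ τ r n) n (fun r => La1E P N V r n) s j) = fun j =>
      (b * conj (vv (mo P N (nsq (V n))) (pth h2 b0 τ n e) s)).re * e j +
        (b * conj (vv (mo P N (nsq (V n))) (pth h2 b0 τ n e) s)).im * nx n e j := by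
    funext j
    exact g6_ZB hD hA hI h2 hτ hτ1 hP hV hX n he hb hs j
  rw [h3, g6_vcef n he]

theorem g6_Zt (hD : D.IsNull) (hA : D.AsympFlat) (hI : FInf D δ C Bi b0) (h2 : FInf2 D δ C Bi) (hτ : 0 < τ) (hτ1 : τ ≤ 1) (hP : 0 < P) (hV : TF V)
    (hX : ∀ n : S2, nsq (V n) < Xc P N) (n : S2) {e : Fin 3 → ℝ} (he : Ut n e) {b : ℝ} (hb : ∀ i, V n i = b * e i) {s : ℝ} (hs : 0 ≤ s) :
    ∑ j, (n : E3) j * ZB (fun r => Bt Bi δ τ r n) n (fun r => La1E P N V r n) s j = 0 := by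
  have h3 := he.tan
  have h4 := gl_nf e (n : E3)
  rw [Finset.sum_congr rfl fun j _ => by rw [g6_ZB hD hA hI h2 hτ hτ1 hP hV hX n he hb hs j]]
  generalize (b * conj (vv (mo P N (nsq (V n))) (pth h2 b0 τ n e) s)).re = x
  generalize (b * conj (vv (mo P N (nsq (V n))) (pth h2 b0 τ n e) s)).im = y
  calc ∑ j, (n : E3) j * (x * e j + y * nx n e j) = x * (∑ j, (n : E3) j * e j) + y * ∑ j, (n : E3) j * nx n e j := by
        rw [Finset.mul_sum, Finset.mul_sum, ← Finset.sum_add_distrib]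
        exact Finset.sum_congr rfl fun i _ => by ring
    _ = 0 := by rw [h3, h4]; ring

theorem kZ_la (hD : D.IsNull) (hA : D.AsympFlat) (hI : FInf D δ C Bi b0) (h2 : FInf2 D δ C Bi) (hτ : 0 < τ) (hτ1 : τ ≤ 1) (hP : 0 < P) (hV : TF V)
    (hX : ∀ n : S2, nsq (V n) < Xc P N) (n : S2) {e : Fin 3 → ℝ} (he : Ut n e) {b : ℝ} (hb : ∀ i, V n i = b * e i) {s : ℝ} (hs : 0 ≤ s) :
    kZ (fun r => aT D δ τ r n) (fun r => Bt Bi δ τ r n) n (fun r => LaE P N V r n) (fun r => La1E P N V r n) s =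
      nsq (V n) * costI (mo P N (nsq (V n))) (pth h2 b0 τ n e) s := by
  have hZ := g6_Z hD hA hI h2 hτ hτ1 hP hV hX n he hb hs
  have hZt := g6_Zt hD hA hI h2 hτ hτ1 hP hV hX n he hb hs
  have ha := pth_a hI h2 hτ hτ1 n he hs
  obtain ⟨hT, -, -⟩ := e14_bd hI hτ hτ1 hs n
  have hL := (g6_la (P := P) (N := N) n he hV hb s).1
  have hLt := (g6_tan (P := P) (N := N) hV s n).1
  have hn := (gl_vce he hb).2
  have h3 : ∑ k, LaE P N V s n k ^ 2 = b ^ 2 * ‖(mo P N (nsq (V n))).lam s‖ ^ 2 := by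
    have h4 := gl_dot he (v := LaE P N V s n) hLt
    rw [hL] at h4
    have h5 : ∑ k, LaE P N V s n k ^ 2 = ∑ k, LaE P N V s n k * LaE P N V s n k := Finset.sum_congr rfl fun k _ => pow_two _
    rw [h5, h4, ← Complex.normSq_eq_conj_mul_self, Complex.ofReal_re, map_mul, Complex.normSq_ofReal, Complex.normSq_eq_norm_sq]
    ring
  have h6 : ∑ k, (n : E3) k * mv3 (Bt Bi δ τ s n) (fun j => ZB (fun r => Bt Bi δ τ r n) n (fun r => La1E P N V r n) s j) k = 0 := by
    unfold mv3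
    have h7 := hT.l
    calc ∑ k, (n : E3) k * ∑ j, Bt Bi δ τ s n k j * ZB (fun r => Bt Bi δ τ r n) n (fun r => La1E P N V r n) s j =
        ∑ j, (∑ k, (n : E3) k * Bt Bi δ τ s n k j) * ZB (fun r => Bt Bi δ τ r n) n (fun r => La1E P N V r n) s j := by
          simp only [Fin.sum_univ_three]
          ring
      _ = 0 := Finset.sum_eq_zero fun j _ => by rw [h7 j, zero_mul]
  have h8 : ∑ k, LaE P N V s n k * ∑ j, Bt Bi δ τ s n k j * ZB (fun r => Bt Bi δ τ r n) n (fun r => La1E P N V r n) s j =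
      b ^ 2 * (conj (vv (mo P N (nsq (V n))) (pth h2 b0 τ n e) s) * conj ((mo P N (nsq (V n))).lam s) * (pth h2 b0 τ n e).A s +
        vv (mo P N (nsq (V n))) (pth h2 b0 τ n e) s * conj ((mo P N (nsq (V n))).lam s) * (pth h2 b0 τ n e).B s).re := by
    have h9 := gl_dot he (v := LaE P N V s n) h6
    refine Eq.trans h9 ?_
    rw [gl_mv he hT hZt, hZ, hL, pth_A, pth_B, ← Complex.re_ofReal_mul]
    congr 1
    simp only [map_mul, Complex.conj_conj, Complex.conj_ofReal]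
    push_cast
    ring
  unfold kZ costI
  rw [h3, h8, ha, hn]
  ring

theorem g6_cost (hD : D.IsNull) (hA : D.AsympFlat) (hI : FInf D δ C Bi b0) (h2 : FInf2 D δ C Bi) (hτ : 0 < τ) (hτ1 : τ ≤ 1) (hP : 0 < P) (hV : TF V)
    (hX : ∀ n : S2, nsq (V n) < Xc P N) (n : S2) {e : Fin 3 → ℝ} (he : Ut n e) {b : ℝ} (hb : ∀ i, V n i = b * e i) :
    ∫ s in Ioi (0 : ℝ), kZ (fun r => aT D δ τ r n) (fun r => Bt Bi δ τ r n) n (fun r => LaE P N V r n) (fun r => La1E P N V r n) s =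
      - cost (mo P N (nsq (V n))) (pth h2 b0 τ n e) 0 := by
  rw [setIntegral_congr_fun measurableSet_Ioi fun s hs => kZ_la hD hA hI h2 hτ hτ1 hP hV hX n he hb (le_of_lt hs), integral_const_mul]
  unfold cost
  show nsq (V n) * _ = - (- nsq (V n) * _)
  ring

end H17S
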