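import Pool.Agent.Lib.H17S.N2
import Pool.Agent.Lib.H17S.FPath

set_option autoImplicit false

/-!
Chunk GL1 (M). Linear algebra in the tangent plane at `n`, unit tangent vector `e`, `f = nx n e = n × e` (`nx n e = cr n e` by `rfl`). `vc n e w = e.w + i f.w`; `aC n M`, `bec n e M` the complex components of a tangential matrix.
Proof. `e.e = 1`, `f.f = 1` (`nsq_cr`), `e.f = 0` (`cr_dot_self`), `n.e = n.f = 0`. `gl_vec`: `w = (e.w) e + (f.w) f + (n.w) n` for every `w` (the matrix with the rows `e, f, n` is orthogonal; or: `f.w` etc. and Lagrange identities: `cr_cr`; simplest: `∑_i (w - (e.w)e - (f.w)f)_i^2 = 0` by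
`linear_combination`, or `Matrix` orthogonality `A Aᵀ = 1 → Aᵀ A = 1` (`mul_eq_one_comm`), which gives `e_i e_j + f_i f_j + n_i n_j = δ_ij` = `gl_res`). `gl_res` is the basic fact; prove it first. `gl_dot`, `gl_cr` (`n × e = f`, `n × f = - e`) from `gl_vec`.
`gl_mat`: `M_ij = ∑_kl (e_i e_k + f_i f_k + n_i n_k) M_kl (e_l e_j + f_l f_j + n_l n_j)` by `gl_res`, the terms with `n` vanish (`Tng`). With `m11 = e.Me, m12 = e.Mf, m21 = f.Me, m22 = f.Mf`. `gl_al`: `aC n M = ((m11 + m22) + i (m21 - m12))/2`: trace, and `∑ jm n i j M i j = ∑_j (n × .)...`: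
`∑_ij jm n i j M i j`: put in `gl_mat`, `∑_ij jm n i j u_i w_j = u . (n × w)` (`jm_cr`), so `e.(n × e) = 0`, `e.(n × f) = -1`, `f.(n × e) = 1`, `f.(n × f) = 0`: `m21 - m12`.
`gl_be`: `bec` by definition is `((m11 - m22) + i (m21 + m12))/2`.
-/

open scoped ComplexConjugate

namespace H17S

open NullPen (E3 S2 sm proj)
open NullU (rl crs dtB cf Tng)
open H17S.Sph

variable {n : S2} {e : Fin 3 → ℝ}

theorem gl_ee (he : Ut n e) : ∑ i, e i * e i = 1 := by
  rw [← he.unit]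
  exact Finset.sum_congr rfl fun i _ => by ring

theorem gl_ff (he : Ut n e) : ∑ i, nx n e i * nx n e i = 1 := by
  rw [← (Fr.ut_nx n he).unit]
  exact Finset.sum_congr rfl fun i _ => by ring

theorem gl1_nx (n : E3) (e : Fin 3 → ℝ) : nx n e 0 = n 1 * e 2 - n 2 * e 1 ∧ nx n e 1 = n 2 * e 0 - n 0 * e 2 ∧
    nx n e 2 = n 0 * e 1 - n 1 * e 0 := ⟨rfl, rfl, rfl⟩

theorem gl_ef (e : Fin 3 → ℝ) (n : E3) : ∑ i, e i * nx n e i = 0 := by
  obtain ⟨h0, h1, h2⟩ := gl1_nx n e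
  rw [Fin.sum_univ_three, h0, h1, h2]
  ring

theorem gl_nf (e : Fin 3 → ℝ) (n : E3) : ∑ i, n i * nx n e i = 0 := by
  obtain ⟨h0, h1, h2⟩ := gl1_nx n e
  rw [Fin.sum_univ_three, h0, h1, h2]
  ring

theorem gl_res (he : Ut n e) (i j : Fin 3) :
    e i * e j + nx n e i * nx n e j + (n : E3) i * (n : E3) j = if i = j then 1 else 0 := by
  rw [Fr.ut_id n he i j]
  unfold proj
  ring

theorem gl_vec (he : Ut n e) {w : Fin 3 → ℝ} (hw : ∑ i, (n : E3) i * w i = 0) (i : Fin 3) :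
    w i = (vc n e w).re * e i + (vc n e w).im * nx n e i := Fr.ut_vec n he hw i

/-- `v . w`. -/
theorem gl_dot (he : Ut n e) {v w : Fin 3 → ℝ} (hw : ∑ i, (n : E3) i * w i = 0) :
    ∑ i, v i * w i = (conj (vc n e v) * vc n e w).re := by
  have h1 : ∑ i, v i * w i = (vc n e w).re * (∑ i, e i * v i) + (vc n e w).im * ∑ i, nx n e i * v i := by
    rw [Finset.mul_sum, Finset.mul_sum, ← Finset.sum_add_distrib]
    refine Finset.sum_congr rfl fun i _ => ?_
    rw [gl_vec he hw i]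
    have h2 := gl_vec he hw i
    rw [← h2, h2]
    ring
  have h3 : (vc n e v).re = ∑ i, e i * v i := rfl
  have h4 : (vc n e v).im = ∑ i, nx n e i * v i := rfl
  rw [h1, ← h3, ← h4, Complex.mul_re, Complex.conj_re, Complex.conj_im]
  ring

/-- `n × w`. -/
theorem gl_cr (he : Ut n e) {w : Fin 3 → ℝ} (hw : ∑ i, (n : E3) i * w i = 0) :
    vc n e (cr n w) = Complex.I * vc n e w := by
  obtain ⟨h0, h1, h2⟩ := gl1_nx n e
  have hn := sph_sq n
  have ht := he.tan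
  rw [Fin.sum_univ_three] at hw ht
  have e1 : (vc n e (cr n w)).re = e 0 * cr n w 0 + e 1 * cr n w 1 + e 2 * cr n w 2 := by
    show ∑ i, e i * cr n w i = _
    rw [Fin.sum_univ_three]
  have e2 : (vc n e (cr n w)).im = nx n e 0 * cr n w 0 + nx n e 1 * cr n w 1 + nx n e 2 * cr n w 2 := by
    show ∑ i, nx n e i * cr n w i = _
    rw [Fin.sum_univ_three]
  have e3 : (vc n e w).re = e 0 * w 0 + e 1 * w 1 + e 2 * w 2 := by
    show ∑ i, e i * w i = _
    rw [Fin.sum_univ_three]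
  have e4 : (vc n e w).im = nx n e 0 * w 0 + nx n e 1 * w 1 + nx n e 2 * w 2 := by
    show ∑ i, nx n e i * w i = _
    rw [Fin.sum_univ_three]
  apply Complex.ext
  · rw [Complex.mul_re, Complex.I_re, Complex.I_im, e1, e4, h0, h1, h2, n2_c0, n2_c1, n2_c2]
    ring
  · rw [Complex.mul_im, Complex.I_re, Complex.I_im, e2, e3, h0, h1, h2, n2_c0, n2_c1, n2_c2]
    linear_combination (e 0 * w 0 + e 1 * w 1 + e 2 * w 2) * hn - ((n : E3) 0 * e 0 + (n : E3) 1 * e 1 + (n : E3) 2 * e 2) * hw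

/-- Components of a tangential matrix. -/
theorem gl_mat (he : Ut n e) {M : Fin 3 → Fin 3 → ℝ} (hM : Tng n M) (i j : Fin 3) :
    M i j = dt3 e (mv3 M e) * (e i * e j) + dt3 e (mv3 M (nx n e)) * (e i * nx n e j) +
      dt3 (nx n e) (mv3 M e) * (nx n e i * e j) + dt3 (nx n e) (mv3 M (nx n e)) * (nx n e i * nx n e j) :=
  Fr.f1_mat n he hM i j

theorem gl_al (he : Ut n e) {M : Fin 3 → Fin 3 → ℝ} (hM : Tng n M) :
    aC n M = ⟨(dt3 e (mv3 M e) + dt3 (nx n e) (mv3 M (nx n e))) / 2, (dt3 (nx n e) (mv3 M e) - dt3 e (mv3 M (nx n e))) / 2⟩ := by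
  rw [← Fr.f2_eq_aC]
  exact Fr.f2_ale n he hM

/-- A tangent vector is a multiple of a unit tangent vector. -/
theorem gl_basis (n : S2) {v : Fin 3 → ℝ} (hv : ∑ i, (n : E3) i * v i = 0) :
    ∃ (e : Fin 3 → ℝ) (b : ℝ), Ut n e ∧ ∀ i, v i = b * e i := by
  by_cases h0 : ∑ i, v i ^ 2 = 0
  · obtain ⟨e, he⟩ := Fr.exists_ut n
    refine ⟨e, 0, he, fun i => ?_⟩
    rw [zero_mul]
    have h1 := (Finset.sum_eq_zero_iff_of_nonneg fun i _ => sq_nonneg (v i)).1 h0 i (Finset.mem_univ i)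
    exact pow_eq_zero_iff two_ne_zero |>.1 h1
  · have h1 : 0 < ∑ i, v i ^ 2 := lt_of_le_of_ne (Finset.sum_nonneg fun i _ => sq_nonneg (v i)) (Ne.symm h0)
    have h2 : 0 < Real.sqrt (∑ i, v i ^ 2) := Real.sqrt_pos.2 h1
    refine ⟨fun i => v i / Real.sqrt (∑ i, v i ^ 2), Real.sqrt (∑ i, v i ^ 2), ⟨?_, ?_⟩, fun i => ?_⟩
    · have h3 : ∑ i, (n : E3) i * (v i / Real.sqrt (∑ i, v i ^ 2)) = (∑ i, (n : E3) i * v i) / Real.sqrt (∑ i, v i ^ 2) := by
        rw [Finset.sum_div]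
        exact Finset.sum_congr rfl fun i _ => by ring
      rw [h3, hv, zero_div]
    · have h3 : ∑ i, (v i / Real.sqrt (∑ i, v i ^ 2)) ^ 2 = (∑ i, v i ^ 2) / Real.sqrt (∑ i, v i ^ 2) ^ 2 := by
        rw [Finset.sum_div]
        exact Finset.sum_congr rfl fun i _ => by rw [div_pow]
      rw [h3, Real.sq_sqrt h1.le, div_self h0]
    · field_simp

end H17S
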