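import Pool.Agent.Lib.H17S.Fin

set_option autoImplicit false

/-!
The inequality for arbitrary (not necessarily trapped) cross-sections: only the integral of `θ` enters, so that `θ` can be replaced
by `θ - θ(0) dA(0) / dA(s)`.
-/

open MeasureTheory Filter Topology Set

namespace H17S

open NullPen (E3 S2 sm proj MatterData)

variable {D : MatterData}

/-- A continuous extension of `θ(0, n) dA(0, n) / dA(s, n)`. -/
theorem gen_ext (hD : D.IsNull) : ∃ φ : ℝ × E3 → ℝ, Continuous φ ∧ ∀ s, 0 ≤ s → ∀ n : S2,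
    φ (s, (n : E3)) * D.dA s n = D.θ 0 n * D.dA 0 n := by
  set K : Set (ℝ × E3) := Ici 0 ×ˢ Metric.sphere (0 : E3) 1 with hK
  have hKc : IsClosed K := isClosed_Ici.prod Metric.isClosed_sphere
  have hc : ContinuousOn (fun p : ℝ × E3 => D.θ 0 p.2 * D.dA 0 p.2 / D.dA p.1 p.2) K := by
    have h1 : Continuous (fun p : ℝ × E3 => D.θ 0 p.2) :=
      hD.cont_θ.comp (continuous_const.prodMk continuous_snd)
    have h2 : ContinuousOn (fun p : ℝ × E3 => D.dA p.1 p.2) K := by
      unfold NullPen.NullData.dA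
      have hg : ∀ i j, Continuous (fun p : ℝ × E3 => D.g p.1 p.2 i j) := fun i j => (hD.smooth_g i j).continuous
      refine (Real.continuous_sqrt.comp (Continuous.div_const (Continuous.sub ?_ ?_) 2)).continuousOn
      · exact (continuous_finsetSum _ fun i _ => hg i i).pow 2
      · exact continuous_finsetSum _ fun i _ => continuous_finsetSum _ fun j _ => (hg i j).pow 2
    have h3 : ContinuousOn (fun p : ℝ × E3 => D.dA 0 p.2) K := by
      unfold NullPen.NullData.dA
      have hg : ∀ i j, Continuous (fun p : ℝ × E3 => D.g 0 p.2 i j) := fun i j =>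
        (hD.smooth_g i j).continuous.comp (continuous_const.prodMk continuous_snd)
      refine (Real.continuous_sqrt.comp (Continuous.div_const (Continuous.sub ?_ ?_) 2)).continuousOn
      · exact (continuous_finsetSum _ fun i _ => hg i i).pow 2
      · exact continuous_finsetSum _ fun i _ => continuous_finsetSum _ fun j _ => (hg i j).pow 2
    refine (h1.continuousOn.mul h3).div h2 fun p hp => ?_
    have := NullU.dA_pos hD ⟨p.2, hp.2⟩ (mem_Ici.1 hp.1)
    exact this.ne'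
  have hc' : Continuous (fun p : K => D.θ 0 (p : ℝ × E3).2 * D.dA 0 (p : ℝ × E3).2 / D.dA (p : ℝ × E3).1 (p : ℝ × E3).2) :=
    continuousOn_iff_continuous_restrict.1 hc
  obtain ⟨g, hg⟩ := ContinuousMap.exists_restrict_eq hKc ⟨_, hc'⟩
  refine ⟨g, g.continuous, fun s hs n => ?_⟩
  have h1 : g (s, (n : E3)) = D.θ 0 n * D.dA 0 n / D.dA s n := by
    have h2 := congrArg (fun F : C(K, ℝ) => F ⟨(s, (n : E3)), ⟨mem_Ici.2 hs, n.2⟩⟩) hg
    exact h2
  have h3 := NullU.dA_pos hD n hs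
  rw [h1, div_mul_cancel₀ _ h3.ne']

/-- The inequality for every cross-section. -/
theorem sharp_gen (hD : D.IsNull) (hA : D.AsympFlat) {E : ℝ} (hE : D.BondiEnergy E) :
    Real.sqrt (16 * Real.pi * D.area 0) - ∫ n : S2, D.θ 0 n * D.dA 0 n ∂sm ≤ 16 * Real.pi * E := by
  have hpi := Real.pi_pos
  obtain ⟨φ, hφ, hφ1⟩ := gen_ext hD
  set c : ℝ := ∫ n : S2, D.θ 0 n * D.dA 0 n ∂sm with hc
  set D' : MatterData := { D with θ := fun s y => D.θ s y - φ (s, y) } with hD'
  have hθ : ∀ s, 0 ≤ s → ∀ n : S2, D'.θ s n * D'.dA s n = D.θ s n * D.dA s n - D.θ 0 n * D.dA 0 n := by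
    intro s hs n
    have h1 : D'.θ s n * D'.dA s n = (D.θ s n - φ (s, (n : E3))) * D.dA s n := rfl
    rw [h1, sub_mul, hφ1 s hs n]
  have hint : ∀ s, 0 ≤ s → Integrable (fun n : S2 => D.θ s n * D.dA s n) sm := by
    intro s hs
    have h1 : Continuous (fun n : S2 => D.θ s n) := hD.cont_θ.comp (continuous_const.prodMk continuous_subtype_val)
    exact NullPen.integrable_sm (h1.mul (NullU.dA_cont_at hD hs))
  have hI : ∀ s, 0 ≤ s → ∫ n : S2, D'.θ s n * D'.dA s n ∂sm = (∫ n : S2, D.θ s n * D.dA s n ∂sm) - c := by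
    intro s hs
    simp only [hθ s hs]
    rw [integral_sub (hint s hs) (hint 0 le_rfl)]
  have hN : D'.IsNull := by
    refine ⟨hD.smooth_g, hD.smooth_ζ, hD.smooth_j, ?_, hD.cont_ρ, hD.g_symm, hD.g_tan, hD.g_pos, hD.gi_symm, hD.gi_tan, hD.gi_inv,
      hD.ζ_tan, hD.j_tan, hD.e_nonneg, hD.ρ_nonneg, hD.dec, hD.ray, hD.torsion, ?_⟩
    · exact hD.cont_θ.sub hφ
    · intro s hs
      have h1 := (hD.expansion s hs).sub_const c
      refine h1.congr_of_eventuallyEq ?_
      filter_upwards [lt_mem_nhds hs] with t ht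
      exact hI t ht.le
  have hF : D'.AsympFlat := hA
  have htr : ∀ n : S2, D'.θ 0 n ≤ 0 := by
    intro n
    have h1 := hθ 0 le_rfl n
    have h2 : 0 < D'.dA 0 n := NullU.dA_pos hD n le_rfl
    have h3 : D'.θ 0 n * D'.dA 0 n = 0 := by rw [h1]; ring
    rcases mul_eq_zero.1 h3 with h4 | h4
    · exact h4.le
    · exact absurd h4 h2.ne'
  have hE' : D'.BondiEnergy (E + c / (16 * Real.pi)) := by
    have h1 : Tendsto (fun s : ℝ => (Real.sqrt (16 * Real.pi * D.area s) - ∫ n : S2, D.θ s n * D.dA s n ∂sm) / (16 * Real.pi) +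
        c / (16 * Real.pi)) atTop (𝓝 (E + c / (16 * Real.pi))) := Tendsto.add_const _ hE
    refine h1.congr' ?_
    filter_upwards [eventually_ge_atTop 0] with s hs
    have h2 := hI s hs
    change _ = (Real.sqrt (16 * Real.pi * D.area s) - ∫ n : S2, D'.θ s n * D'.dA s n ∂sm) / (16 * Real.pi)
    rw [h2]
    ring
  have h := sharp hN hF htr hE'
  have hA0 : D'.area 0 = D.area 0 := rfl
  rw [hA0] at h
  have e : D.area 0 / (16 * Real.pi) = 16 * Real.pi * D.area 0 / (16 * Real.pi) ^ 2 := by field_simp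
  rw [e, Real.sqrt_div' _ (by positivity), Real.sqrt_sq (by positivity), div_le_iff₀ (by positivity)] at h
  have e2 : (E + c / (16 * Real.pi)) * (16 * Real.pi) = 16 * Real.pi * E + c := by field_simp
  rw [e2] at h
  linarith

theorem mainG : (∀ D : MatterData, D.IsNull → D.AsympFlat → ∀ E, D.BondiEnergy E →
      Real.sqrt (D.area 0 / (16 * Real.pi)) - (∫ n : S2, D.θ 0 n * D.dA 0 n ∂sm) / (16 * Real.pi) ≤ E) ∧
    (∀ D : MatterData, D.IsNull → D.AsympFlat → (∀ n : S2, D.θ 0 n ≤ 0) → ∀ E, D.BondiEnergy E →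
      Real.sqrt (D.area 0 / (16 * Real.pi)) ≤ E) ∧
    ∀ (A E : ℝ) (P : Fin 3 → ℝ), (∀ (u : Fin 3 → ℝ) (γ : ℝ), 0 < γ → γ ^ 2 = 1 + ∑ i, u i ^ 2 →
      ∃ D : MatterData, D.IsNull ∧ D.AsympFlat ∧ (∀ n : S2, D.θ 0 n ≤ 0) ∧ D.area 0 = A ∧ D.BondiEnergy (γ * E - ∑ i, u i * P i)) →
    Real.sqrt (∑ i, P i ^ 2) < E ∧ Real.sqrt (A / (16 * Real.pi)) ≤ Real.sqrt (E ^ 2 - ∑ i, P i ^ 2) := by
  refine ⟨fun D hD hA E hE => ?_, mainS⟩
  have hpi := Real.pi_pos
  have h := sharp_gen hD hA hE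
  have e : D.area 0 / (16 * Real.pi) = 16 * Real.pi * D.area 0 / (16 * Real.pi) ^ 2 := by field_simp
  rw [e, Real.sqrt_div' _ (by positivity), Real.sqrt_sq (by positivity), ← sub_div, div_le_iff₀ (by positivity)]
  linarith

end H17S
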