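import Mathlib
import Pool.Agent.Lib.H17S.Br3

/-! # H17S: Schauder's fixed point theorem -/

namespace H17S

/-- Approximate fixed points (Schauder projection and Brouwer's theorem). -/
theorem sch_approx {X : Type*} [NormedAddCommGroup X] [NormedSpace ℝ X] (T : X → X)
    (hT : Continuous T) (K : Set X) (hK : IsCompact K) (hr : ∀ x, T x ∈ K) (ε : ℝ) (hε : 0 < ε) :
    ∃ x, ‖T x - x‖ ≤ ε := by
  classical
  obtain ⟨t, htK, htf, hcov⟩ := hK.finite_cover_balls hε
  let S : Finset X := htf.toFinset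
  let φ : X → X → ℝ := fun y z => max 0 (ε - ‖z - y‖)
  have hφc : ∀ y, Continuous (φ y) := fun y =>
    continuous_const.max (continuous_const.sub (continuous_id.sub continuous_const).norm)
  have hφ0 : ∀ y z, 0 ≤ φ y z := fun y z => le_max_left _ _
  have hφε : ∀ y z, φ y z * ‖y - z‖ ≤ φ y z * ε := by
    intro y z
    by_cases h : ‖z - y‖ ≤ ε
    · rw [norm_sub_rev]
      exact mul_le_mul_of_nonneg_left h (hφ0 y z)
    · have h1 : φ y z = 0 := max_eq_left (by linarith)
      rw [h1, zero_mul, zero_mul]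
  let Φ : X → ℝ := fun z => ∑ y ∈ S, φ y z
  have hΦc : Continuous Φ := continuous_finsetSum S fun y _ => hφc y
  have hΦ : ∀ z ∈ K, 0 < Φ z := by
    intro z hz
    obtain ⟨y, hy, hzy⟩ := Set.mem_iUnion₂.1 (hcov hz)
    refine Finset.sum_pos' (fun y _ => hφ0 y z) ⟨y, htf.mem_toFinset.2 hy, ?_⟩
    rw [Metric.mem_ball, dist_eq_norm] at hzy
    exact lt_max_of_lt_right (by linarith)
  let V : Submodule ℝ X := Submodule.span ℝ (S : Set X)
  have hV : FiniteDimensional ℝ V := FiniteDimensional.span_finset ℝ S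
  let P : X → X := fun z => (Φ z)⁻¹ • ∑ y ∈ S, φ y z • y
  have hPV : ∀ z, P z ∈ V := fun z => V.smul_mem _ (V.sum_mem fun y hy =>
    V.smul_mem _ (Submodule.subset_span hy))
  have hPd : ∀ z ∈ K, ‖P z - z‖ ≤ ε := by
    intro z hz
    have h1 : P z - z = (Φ z)⁻¹ • ∑ y ∈ S, φ y z • (y - z) := by
      have h2 : ∑ y ∈ S, φ y z • (y - z) = (∑ y ∈ S, φ y z • y) - Φ z • z := by
        simp only [smul_sub, Finset.sum_sub_distrib]
        rw [Finset.sum_smul]
      rw [h2, smul_sub, inv_smul_smul₀ (hΦ z hz).ne']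
    rw [h1, norm_smul, Real.norm_of_nonneg (inv_nonneg.2 (hΦ z hz).le)]
    have h3 : ‖∑ y ∈ S, φ y z • (y - z)‖ ≤ Φ z * ε := by
      refine (norm_sum_le _ _).trans ?_
      rw [Finset.sum_mul]
      refine Finset.sum_le_sum fun y _ => ?_
      rw [norm_smul, Real.norm_of_nonneg (hφ0 y z)]
      exact hφε y z
    calc (Φ z)⁻¹ * ‖∑ y ∈ S, φ y z • (y - z)‖ ≤ (Φ z)⁻¹ * (Φ z * ε) :=
          mul_le_mul_of_nonneg_left h3 (inv_nonneg.2 (hΦ z hz).le)
      _ = ε := by rw [inv_mul_cancel_left₀ (hΦ z hz).ne']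
  have hPc : Continuous fun x : X => P (T x) := by
    have h1 : Continuous fun x : X => (Φ (T x))⁻¹ :=
      (hΦc.comp hT).inv₀ fun x => (hΦ _ (hr x)).ne'
    have h2 : Continuous fun x : X => ∑ y ∈ S, φ y (T x) • y :=
      continuous_finsetSum S fun y _ => ((hφc y).comp hT).smul continuous_const
    exact h1.smul h2
  obtain ⟨R, hR⟩ := hK.isBounded.exists_norm_le
  have hPb : ∀ x, ‖P (T x)‖ ≤ R + ε := by
    intro x
    have h1 : P (T x) = T x + (P (T x) - T x) := by abel
    rw [h1]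
    exact (norm_add_le _ _).trans (add_le_add (hR _ (hr x)) (hPd _ (hr x)))
  let g : V → V := fun v => ⟨P (T (v : X)), hPV _⟩
  have hg : Continuous g := (hPc.comp continuous_subtype_val).subtype_mk _
  let e : V ≃L[ℝ] EuclideanSpace ℝ (Fin (Module.finrank ℝ V)) := toEuclidean
  obtain ⟨u, hu⟩ := brouwer_bdd (fun u => e (g (e.symm u)))
    (e.continuous.comp (hg.comp e.symm.continuous))
    (‖(e : V →L[ℝ] EuclideanSpace ℝ (Fin (Module.finrank ℝ V)))‖ * (R + ε)) (fun u => by
      refine ((e : V →L[ℝ] EuclideanSpace ℝ (Fin (Module.finrank ℝ V))).le_opNorm _).trans ?_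
      exact mul_le_mul_of_nonneg_left (hPb _) (norm_nonneg _))
  have h1 : g (e.symm u) = e.symm u := by
    have h2 : e.symm (e (g (e.symm u))) = e.symm u := congrArg e.symm hu
    rwa [e.symm_apply_apply] at h2
  refine ⟨(e.symm u : V), ?_⟩
  have h3 : P (T ((e.symm u : V) : X)) = ((e.symm u : V) : X) := congrArg Subtype.val h1
  have h4 := hPd _ (hr ((e.symm u : V) : X))
  rw [h3, norm_sub_rev] at h4
  exact h4

/-- Schauder's fixed point theorem: a continuous self-map of a normed space with values in a compact set has a fixed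
point. -/
theorem schauder {X : Type*} [NormedAddCommGroup X] [NormedSpace ℝ X] (T : X → X)
    (hT : Continuous T) (K : Set X) (hK : IsCompact K) (hr : ∀ x, T x ∈ K) : ∃ x, T x = x := by
  have h1 : ∀ n : ℕ, ∃ x, ‖T x - x‖ ≤ 1 / ((n : ℝ) + 1) := fun n =>
    sch_approx T hT K hK hr _ (by positivity)
  choose x hx using h1
  obtain ⟨z, -, φ, hφ, hz⟩ := hK.tendsto_subseq fun n => hr (x n)
  have h2 : Filter.Tendsto (fun n => T (x n) - x n) Filter.atTop (nhds 0) :=
    squeeze_zero_norm hx tendsto_one_div_add_atTop_nhds_zero_nat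
  have h3 : Filter.Tendsto (fun n => x (φ n)) Filter.atTop (nhds z) := by
    have h4 := hz.sub (h2.comp hφ.tendsto_atTop)
    rw [sub_zero] at h4
    refine h4.congr fun n => ?_
    change T (x (φ n)) - (T (x (φ n)) - x (φ n)) = x (φ n)
    abel
  have h5 : Filter.Tendsto (fun n => T (x (φ n))) Filter.atTop (nhds (T z)) :=
    (hT.tendsto z).comp h3
  exact ⟨z, tendsto_nhds_unique h5 hz⟩

end H17S
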