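import Mathlib
import Pool.Agent.Lib.H17S.Schauder

/-! # H17S: a homotopy fixed point theorem -/

open Set Topology

namespace H17S

/-- If H is a compact homotopy on the closure of the open set U from the constant map x0 in U, without fixed points on
the frontier of U, then H 1 has a fixed point in U. -/
theorem homotopy_fp {X : Type*} [NormedAddCommGroup X] [NormedSpace ℝ X] (U : Set X)
    (hU : IsOpen U) (x0 : X) (hx0 : x0 ∈ U) (K : Set X) (hK : IsCompact K) (H : ℝ → X → X)
    (hH : ContinuousOn (fun p : ℝ × X => H p.1 p.2) (Set.Icc 0 1 ×ˢ closure U))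
    (hr : ∀ t ∈ Set.Icc (0 : ℝ) 1, ∀ x ∈ closure U, H t x ∈ K)
    (h0 : ∀ x ∈ closure U, H 0 x = x0)
    (hne : ∀ t ∈ Set.Icc (0 : ℝ) 1, ∀ x ∈ frontier U, H t x ≠ x) : ∃ x ∈ U, H 1 x = x := by
  classical
  let F : Set X := {x | x ∈ closure U ∧ ∃ t ∈ Set.Icc (0 : ℝ) 1, H t x = x}
  -- F is closed
  have hF : IsClosed F := by
    have hc : IsClosed {p : ℝ × X | p ∈ Set.Icc (0 : ℝ) 1 ×ˢ closure U ∧ H p.1 p.2 = p.2} := by
      have hcl : IsClosed (Set.Icc (0 : ℝ) 1 ×ˢ closure U) := isClosed_Icc.prod isClosed_closure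
      have h1 : ContinuousOn (fun p : ℝ × X => H p.1 p.2 - p.2) (Set.Icc 0 1 ×ˢ closure U) :=
        hH.sub continuous_snd.continuousOn
      have h2 := h1.preimage_isClosed_of_isClosed hcl (isClosed_singleton (x := (0 : X)))
      convert h2 using 1
      ext p
      simp only [mem_setOf_eq, mem_inter_iff, mem_preimage, mem_singleton_iff, sub_eq_zero]
    have h3 : F = Prod.snd '' {p : ℝ × X | p ∈ Set.Icc (0 : ℝ) 1 ×ˢ closure U ∧ H p.1 p.2 = p.2} := by
      ext x
      constructor
      · rintro ⟨hx, t, ht, htx⟩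
        exact ⟨(t, x), ⟨⟨ht, hx⟩, htx⟩, rfl⟩
      · rintro ⟨⟨t, y⟩, ⟨⟨ht, hy⟩, hty⟩, rfl⟩
        exact ⟨hy, t, ht, hty⟩
    rw [h3]
    -- projection along a compact set
    rw [← isSeqClosed_iff_isClosed]
    intro u x hu hux
    choose p hp hpx using hu
    have hI : ∀ n, (p n).1 ∈ Set.Icc (0 : ℝ) 1 := fun n => (hp n).1.1
    obtain ⟨t, ht, φ, hφ, hφt⟩ := isCompact_Icc.tendsto_subseq hI
    have h4 : Filter.Tendsto (fun n => p (φ n)) Filter.atTop (𝓝 (t, x)) := by
      refine Filter.Tendsto.prodMk_nhds hφt ?_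
      have h5 : (fun n => (p (φ n)).2) = fun n => u (φ n) := funext fun n => hpx _
      rw [h5]
      exact hux.comp hφ.tendsto_atTop
    exact ⟨(t, x), hc.mem_of_tendsto h4 (Filter.Eventually.of_forall fun n => hp _), rfl⟩
  have hFU : F ⊆ U := by
    rintro x ⟨hx, t, ht, htx⟩
    by_contra hxU
    exact hne t ht x ⟨hx, by rwa [hU.interior_eq]⟩ htx
  have hdis : Disjoint F Uᶜ := by
    rw [Set.disjoint_compl_right_iff_subset]
    exact hFU
  obtain ⟨φ, hφF, hφU, hφI⟩ := exists_continuous_zero_one_of_isClosed hU.isClosed_compl hF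
    hdis.symm
  let T : X → X := fun x => if x ∈ closure U then H (φ x) x else x0
  have hT1 : ∀ x ∈ closure U, T x = H (φ x) x := fun x hx => if_pos hx
  have hT2 : ∀ x ∉ U, T x = x0 := by
    intro x hx
    by_cases h : x ∈ closure U
    · rw [hT1 x h, hφF hx]
      exact h0 x h
    · exact if_neg h
  have hTc : Continuous T := by
    have h1 : ContinuousOn T (closure U) := by
      have h2 : ContinuousOn (fun x => H (φ x) x) (closure U) := by
        refine hH.comp (f := fun x : X => ((φ x : ℝ), x)) (by fun_prop) fun x hx => ⟨hφI x, hx⟩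
      exact h2.congr hT1
    have h3 : ContinuousOn T Uᶜ := by
      exact (continuousOn_const (c := x0)).congr fun x hx => hT2 x hx
    have h4 : ContinuousOn T (closure U ∪ Uᶜ) := h1.union_of_isClosed h3 isClosed_closure
      hU.isClosed_compl
    have h5 : closure U ∪ Uᶜ = univ := by
      rw [eq_univ_iff_forall]
      intro x
      by_cases h : x ∈ U
      · exact Or.inl (subset_closure h)
      · exact Or.inr h
    rw [h5, continuousOn_univ] at h4
    exact h4
  obtain ⟨x, hx⟩ := schauder T hTc (K ∪ {x0}) (hK.union isCompact_singleton) (by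
    intro x
    by_cases h : x ∈ closure U
    · rw [hT1 x h]
      exact Or.inl (hr _ (hφI x) x h)
    · exact Or.inr (if_neg h))
  have hxU : x ∈ U := by
    by_contra h
    rw [hT2 x h] at hx
    exact h (hx ▸ hx0)
  have hxc : x ∈ closure U := subset_closure hxU
  rw [hT1 x hxc] at hx
  have hxF : x ∈ F := ⟨hxc, φ x, hφI x, hx⟩
  have h1 : φ x = 1 := hφU hxF
  rw [h1] at hx
  exact ⟨x, hxU, hx⟩

end H17S
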