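import Pool.Agent.Lib.H17S.MDefs

set_option autoImplicit false

/-!
Chunk MA (M, many small). The functions `w` and `f`, the maximum.
`ff_x`: `ff_form`, `field_simp; ring`. `wm_nonneg`, `wm_pos`: all factors are nonnegative (`P² + N² x > 0`). `wm_cont`: quotient of polynomials in `(P, N, x)`, the denominator `(P² + N² x²)² > 0` for `P > 0`.
`le_Fmax`: `le_csSup`; the image of the compact set `[0,1]` under a continuous function is bounded above. `Fmax_mem`: the supremum is attained (`IsCompact.exists_sSup_image_eq`) at some `x ∈ [0,1]`; `Fmax > 0` because at `x = 1/2`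
the value is positive; the values at `0` and `1` are `0`, so `x ∈ (0,1)`. `ff_le_Fmax`: `r = P/x` with `x = P/r ∈ (0,1]`. `ff_le`: `ff_form`, `r - P <= r`, `r + N²/P <= r (1 + N²/P²)` (as `r >= P`), `(r² + N²)² >= r⁴`.
-/

open MeasureTheory Filter Topology Set

namespace H17S

theorem ma_den_pos {P N x : ℝ} (hP : 0 < P) : 0 < P ^ 2 + N ^ 2 * x ^ 2 := by
  have h1 : 0 < P ^ 2 := pow_pos hP 2
  have h2 : 0 ≤ N ^ 2 * x ^ 2 := by positivity
  linarith

theorem ff_x {P N x : ℝ} (hP : 0 < P) (hx : 0 < x) : ff P N (P / x) = x ^ 2 * wm P N x := by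
  rw [ff_form hP]
  unfold wm qq
  have hd : P ^ 2 + N ^ 2 * x ^ 2 ≠ 0 := (ma_den_pos hP).ne'
  have hP' : P ≠ 0 := hP.ne'
  have hx' : x ≠ 0 := hx.ne'
  have e1 : P / x - P = P * (1 - x) / x := by
    field_simp
  have e2 : P / x + N ^ 2 / P = (P ^ 2 + N ^ 2 * x) / (x * P) := by
    field_simp
  have e3 : (P / x) ^ 2 + N ^ 2 = (P ^ 2 + N ^ 2 * x ^ 2) / x ^ 2 := by
    field_simp
  rw [e1, e2, e3]
  field_simp

theorem wm_nonneg {P N x : ℝ} (hP : 0 < P) (h0 : 0 ≤ x) (h1 : x ≤ 1) : 0 ≤ wm P N x := by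
  unfold wm
  have h2 : 0 ≤ 1 - x := by linarith
  positivity

theorem wm_pos {P N x : ℝ} (hP : 0 < P) (h0 : 0 ≤ x) (h1 : x < 1) : 0 < wm P N x := by
  unfold wm
  have h2 : 0 < 1 - x := by linarith
  have h3 : 0 < P ^ 2 + N ^ 2 * x := by
    have h4 : 0 < P ^ 2 := pow_pos hP 2
    have h5 : 0 ≤ N ^ 2 * x := by positivity
    linarith
  exact div_pos (mul_pos h2 h3) (pow_pos (ma_den_pos hP) 2)

theorem wm_cont : ContinuousOn (fun p : (ℝ × ℝ) × ℝ => wm p.1.1 p.1.2 p.2) {p | 0 < p.1.1} := by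
  unfold wm
  apply ContinuousOn.div
  · exact Continuous.continuousOn (by fun_prop)
  · exact Continuous.continuousOn (by fun_prop)
  · intro p hp
    exact (pow_pos (ma_den_pos hp) 2).ne'

theorem ma_cont1 {P : ℝ} (N : ℝ) (hP : 0 < P) : Continuous (fun x : ℝ => x ^ 2 * wm P N x) := by
  unfold wm
  apply Continuous.mul (by fun_prop)
  apply Continuous.div (by fun_prop) (by fun_prop)
  intro x
  exact (pow_pos (ma_den_pos hP) 2).ne'

theorem le_Fmax {P N x : ℝ} (hP : 0 < P) (hx : x ∈ Icc (0 : ℝ) 1) : x ^ 2 * wm P N x ≤ Fmax P N := by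
  unfold Fmax
  exact le_csSup (isCompact_Icc.image (ma_cont1 N hP)).bddAbove (mem_image_of_mem _ hx)

theorem Fmax_pos {P : ℝ} (N : ℝ) (hP : 0 < P) : 0 < Fmax P N := by
  have h1 : (1 / 2 : ℝ) ∈ Icc (0 : ℝ) 1 := ⟨by norm_num, by norm_num⟩
  have h2 := le_Fmax (N := N) hP h1
  have h3 : 0 < wm P N (1 / 2) := wm_pos hP (by norm_num) (by norm_num)
  have h4 : 0 < (1 / 2 : ℝ) ^ 2 * wm P N (1 / 2) := by positivity
  linarith

theorem Fmax_mem {P : ℝ} (N : ℝ) (hP : 0 < P) : ∃ x ∈ Ioo (0 : ℝ) 1, x ^ 2 * wm P N x = Fmax P N := by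
  obtain ⟨x, hx, he⟩ := (isCompact_Icc (a := (0 : ℝ)) (b := 1)).exists_sSup_image_eq ⟨0, by norm_num, by norm_num⟩ (ma_cont1 N hP).continuousOn
  have he' : x ^ 2 * wm P N x = Fmax P N := he.symm
  have hpos := Fmax_pos N hP
  refine ⟨x, ⟨lt_of_le_of_ne hx.1 ?_, lt_of_le_of_ne hx.2 ?_⟩, he'⟩
  · intro h
    rw [← h] at he'
    rw [← he'] at hpos
    norm_num at hpos
  · intro h
    rw [h] at he'
    rw [← he'] at hpos
    norm_num [wm] at hpos

theorem Xc_pos {P : ℝ} (N : ℝ) (hP : 0 < P) : 0 < Xc P N := inv_pos.2 (Fmax_pos N hP)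

theorem ff_le_Fmax {P N r : ℝ} (hP : 0 < P) (hr : P ≤ r) : ff P N r ≤ Fmax P N := by
  have hr0 : 0 < r := lt_of_lt_of_le hP hr
  have hx : 0 < P / r := div_pos hP hr0
  have h1 := ff_x (N := N) hP hx
  have h2 : P / (P / r) = r := by
    field_simp
  rw [h2] at h1
  rw [h1]
  exact le_Fmax hP ⟨hx.le, (div_le_one hr0).2 hr⟩

theorem ff_le {P N r : ℝ} (hP : 0 < P) (hr : P ≤ r) : ff P N r ≤ (1 + N ^ 2 / P ^ 2) / r ^ 2 := by
  have hr0 : 0 < r := lt_of_lt_of_le hP hr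
  rw [ff_form hP, div_le_div_iff₀ (pow_pos (qq_pos hr0) 2) (pow_pos hr0 2)]
  have h1 : r - P ≤ r := by linarith
  have hc : 0 ≤ N ^ 2 / P ^ 2 := by positivity
  have h2 : r + N ^ 2 / P ≤ r * (1 + N ^ 2 / P ^ 2) := by
    have h3 : N ^ 2 / P = P * (N ^ 2 / P ^ 2) := by
      field_simp
    rw [h3]
    nlinarith [mul_le_mul_of_nonneg_right hr hc]
  have h0 : 0 ≤ r + N ^ 2 / P := by positivity
  have h4 : r ^ 2 ≤ qq N r := by
    unfold qq
    nlinarith [sq_nonneg N]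
  have h5 : (r ^ 2) ^ 2 ≤ qq N r ^ 2 := pow_le_pow_left₀ (by positivity) h4 2
  calc (r - P) * (r + N ^ 2 / P) * r ^ 2 ≤ r * (r * (1 + N ^ 2 / P ^ 2)) * r ^ 2 := by
        apply mul_le_mul_of_nonneg_right _ (by positivity)
        exact mul_le_mul h1 h2 h0 hr0.le
    _ = (1 + N ^ 2 / P ^ 2) * (r ^ 2) ^ 2 := by ring
    _ ≤ (1 + N ^ 2 / P ^ 2) * qq N r ^ 2 := mul_le_mul_of_nonneg_left h5 (by positivity)

end H17S
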