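import Pool.Agent.Lib.H17S.MA

set_option autoImplicit false

/-!
Chunk MB (M, many small). `Fmax` and `Xc` are continuous on `P > 0`, `Om3` is open, positivity of `G`.
`Fmax_cont`: on the subtype `{p : ℝ × ℝ // 0 < p.1}` the function `(p, x) ↦ x² w(p, x)` is continuous (`wm_cont`); `IsCompact.continuous_sSup` with `K = [0,1]`; `continuousOn_iff_continuous_restrict`.
`Xc_cont`: inverse, `Fmax > 0`. `Om3_open`: `{0 < P}` is open and on it `X < Xc P N` is an open condition (`ContinuousOn.isOpen_inter_preimage` for `(P,N,X) ↦ Xc P N - X`).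
`gap_pos`: if `X <= 0` it is `1`; otherwise `X Fmax < 1` from `X < Fmax⁻¹`. `GG_ge`: `X f <= max X 0 * f <= max X 0 * Fmax` (`f >= 0`: `ff_nonneg`). `GG_le`: `X >= 0`, `f >= 0`. `GG_le'`: `- X f <= |X| Fmax`. `GG_x`: `ff_x`.
`Gx_..`: the same with `le_Fmax`, `wm_nonneg`. `GG_zero`: `ff_P`.
-/

open MeasureTheory Filter Topology Set

namespace H17S

theorem Fmax_cont : ContinuousOn (fun p : ℝ × ℝ => Fmax p.1 p.2) {p | 0 < p.1} := by
  rw [continuousOn_iff_continuous_restrict]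
  have h1 : Continuous (Function.HasUncurry.uncurry
      (fun (p : {p : ℝ × ℝ | 0 < p.1}) (x : ℝ) => x ^ 2 * wm p.1.1 p.1.2 x)) := by
    have h2 : Continuous (fun q : {p : ℝ × ℝ | 0 < p.1} × ℝ => wm q.1.1.1 q.1.1.2 q.2) := by
      refine wm_cont.comp_continuous (f := fun q : {p : ℝ × ℝ | 0 < p.1} × ℝ => (q.1.1, q.2))
        (by fun_prop) ?_
      intro q
      exact q.1.2
    exact (continuous_snd.pow 2).mul h2
  exact IsCompact.continuous_sSup isCompact_Icc h1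

theorem Xc_cont : ContinuousOn (fun p : ℝ × ℝ => Xc p.1 p.2) {p | 0 < p.1} := by
  exact Fmax_cont.inv₀ fun p hp => (Fmax_pos p.2 hp).ne'

theorem Om3_open : IsOpen Om3 := by
  have hU : IsOpen {p : ℝ × ℝ × ℝ | 0 < p.1} := isOpen_lt continuous_const continuous_fst
  have hg : ContinuousOn (fun p : ℝ × ℝ × ℝ => Xc p.1 p.2.1 - p.2.2) {p | 0 < p.1} := by
    refine ContinuousOn.sub ?_ (by fun_prop)
    exact Xc_cont.comp (f := fun p : ℝ × ℝ × ℝ => (p.1, p.2.1)) (by fun_prop) (fun p hp => hp)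
  have h1 := hg.isOpen_inter_preimage hU isOpen_Ioi (t := Ioi (0 : ℝ))
  have h2 : Om3 = {p : ℝ × ℝ × ℝ | 0 < p.1} ∩ (fun p : ℝ × ℝ × ℝ => Xc p.1 p.2.1 - p.2.2) ⁻¹' Ioi 0 := by
    ext p
    simp only [Om3, mem_setOf_eq, mem_inter_iff, mem_preimage, mem_Ioi, sub_pos]
  rw [h2]
  exact h1

theorem gap_pos {P N X : ℝ} (hP : 0 < P) (hX : X < Xc P N) : 0 < 1 - max X 0 * Fmax P N := by
  rcases le_or_gt X 0 with h | h
  · rw [max_eq_right h, zero_mul, sub_zero]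
    exact one_pos
  · rw [max_eq_left h.le]
    have h1 : X * Fmax P N < 1 := by
      have h2 := mul_lt_mul_of_pos_right hX (Fmax_pos N hP)
      rwa [Xc, inv_mul_cancel₀ (Fmax_pos N hP).ne'] at h2
    linarith

theorem GG_ge {P N X r : ℝ} (hP : 0 < P) (hr : P ≤ r) : 1 - max X 0 * Fmax P N ≤ GG P N X r := by
  have h1 := ff_nonneg (N := N) hP hr
  have h2 := ff_le_Fmax (N := N) hP hr
  have h3 : X * ff P N r ≤ max X 0 * ff P N r := mul_le_mul_of_nonneg_right (le_max_left _ _) h1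
  have h4 : max X 0 * ff P N r ≤ max X 0 * Fmax P N := mul_le_mul_of_nonneg_left h2 (le_max_right _ _)
  unfold GG
  linarith

theorem GG_pos {P N X r : ℝ} (hP : 0 < P) (hX : X < Xc P N) (hr : P ≤ r) : 0 < GG P N X r := by
  exact (gap_pos hP hX).trans_le (GG_ge hP hr)

theorem GG_le {P N X r : ℝ} (hP : 0 < P) (hX : 0 ≤ X) (hr : P ≤ r) : GG P N X r ≤ 1 := by
  have h1 := mul_nonneg hX (ff_nonneg (N := N) hP hr)
  unfold GG
  linarith

theorem GG_le' {P N X r : ℝ} (hP : 0 < P) (hr : P ≤ r) : GG P N X r ≤ 1 + |X| * Fmax P N := by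
  have h1 := ff_nonneg (N := N) hP hr
  have h2 := ff_le_Fmax (N := N) hP hr
  have h3 : -X * ff P N r ≤ |X| * ff P N r := mul_le_mul_of_nonneg_right (neg_le_abs X) h1
  have h4 : |X| * ff P N r ≤ |X| * Fmax P N := mul_le_mul_of_nonneg_left h2 (abs_nonneg _)
  unfold GG
  linarith

theorem GG_zero {P N X : ℝ} (hP : 0 < P) : GG P N X P = 1 := by
  unfold GG
  rw [ff_P hP, mul_zero, sub_zero]

theorem GG_x {P N X x : ℝ} (hP : 0 < P) (hx : 0 < x) : GG P N X (P / x) = Gx P N X x := by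
  unfold GG Gx
  rw [ff_x hP hx]

theorem Gx_ge {P N X x : ℝ} (hP : 0 < P) (hx : x ∈ Icc (0 : ℝ) 1) : 1 - max X 0 * Fmax P N ≤ Gx P N X x := by
  have h1 : 0 ≤ x ^ 2 * wm P N x := mul_nonneg (sq_nonneg x) (wm_nonneg hP hx.1 hx.2)
  have h2 := le_Fmax (N := N) hP hx
  have h3 : X * (x ^ 2 * wm P N x) ≤ max X 0 * (x ^ 2 * wm P N x) :=
    mul_le_mul_of_nonneg_right (le_max_left _ _) h1
  have h4 : max X 0 * (x ^ 2 * wm P N x) ≤ max X 0 * Fmax P N :=
    mul_le_mul_of_nonneg_left h2 (le_max_right _ _)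
  unfold Gx
  linarith

theorem Gx_pos {P N X x : ℝ} (hP : 0 < P) (hX : X < Xc P N) (hx : x ∈ Icc (0 : ℝ) 1) : 0 < Gx P N X x := by
  exact (gap_pos hP hX).trans_le (Gx_ge hP hx)

theorem Gx_le {P N X x : ℝ} (hP : 0 < P) (hX : 0 ≤ X) (hx : x ∈ Icc (0 : ℝ) 1) : Gx P N X x ≤ 1 := by
  have h1 : 0 ≤ X * (x ^ 2 * wm P N x) :=
    mul_nonneg hX (mul_nonneg (sq_nonneg x) (wm_nonneg hP hx.1 hx.2))
  unfold Gx
  linarith

end H17S
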