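import Mathlib

set_option autoImplicit false

/-!
Chunk MC1 (S/M). Abstract lemma: the inverse functions of a continuous family of strictly increasing functions depend continuously on the parameter.
Proof. Let `p₀ ∈ U`, `s₀`, `t₀ = t p₀ s₀`, `ε > 0`. `S p₀ (t₀ - ε) < s₀ < S p₀ (t₀ + ε)` (as `S p₀ t₀ = s₀`). By continuity of `S` the inequalities `S p (t₀ - ε) < s < S p (t₀ + ε)` hold for `(p, s)` near `(p₀, s₀)`, `p ∈ U`, so by strict
monotonicity `t₀ - ε < t p s < t₀ + ε`.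
-/

open MeasureTheory Filter Topology Set

namespace H17S

theorem inv_cont {Ω : Type*} [TopologicalSpace Ω] (U : Set Ω) (S : Ω → ℝ → ℝ)
    (hS : ContinuousOn (fun p : Ω × ℝ => S p.1 p.2) (U ×ˢ univ)) (hm : ∀ p ∈ U, StrictMono (S p)) (t : Ω → ℝ → ℝ)
    (ht : ∀ p ∈ U, ∀ s, S p (t p s) = s) : ContinuousOn (fun p : Ω × ℝ => t p.1 p.2) (U ×ˢ univ) := by
  intro q₀ hq₀
  obtain ⟨p₀, s₀⟩ := q₀
  have hp₀ : p₀ ∈ U := hq₀.1
  have hc : ∀ a : ℝ, ContinuousWithinAt (fun q : Ω × ℝ => S q.1 a) (U ×ˢ univ) (p₀, s₀) := by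
    intro a
    have h1 : ContinuousWithinAt (fun p : Ω × ℝ => S p.1 p.2) (U ×ˢ univ) (p₀, a) :=
      hS (p₀, a) ⟨hp₀, mem_univ _⟩
    have h2 : ContinuousWithinAt (fun q : Ω × ℝ => (q.1, a)) (U ×ˢ univ) (p₀, s₀) :=
      (continuous_fst.prodMk continuous_const).continuousWithinAt
    exact ContinuousWithinAt.comp (f := fun q : Ω × ℝ => (q.1, a)) (g := fun p : Ω × ℝ => S p.1 p.2)
      h1 h2 (fun q hq => ⟨hq.1, mem_univ _⟩)
  have hs : ContinuousWithinAt (fun q : Ω × ℝ => q.2) (U ×ˢ univ) (p₀, s₀) :=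
    continuous_snd.continuousWithinAt
  have hU : ∀ᶠ q in 𝓝[U ×ˢ (univ : Set ℝ)] (p₀, s₀), q ∈ U ×ˢ (univ : Set ℝ) := self_mem_nhdsWithin
  have h0 : S p₀ (t p₀ s₀) = s₀ := ht p₀ hp₀ s₀
  refine tendsto_order.2 ⟨fun a ha => ?_, fun a ha => ?_⟩
  · have h1 : S p₀ a < s₀ := (hm p₀ hp₀ ha).trans_eq h0
    filter_upwards [Tendsto.eventually_lt (hc a) hs h1, hU] with q h2 h3
    rw [← ht q.1 h3.1 q.2] at h2
    exact (hm q.1 h3.1).lt_iff_lt.1 h2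
  · have h1 : s₀ < S p₀ a := h0.symm.trans_lt (hm p₀ hp₀ ha)
    filter_upwards [Tendsto.eventually_lt hs (hc a) h1, hU] with q h2 h3
    rw [← ht q.1 h3.1 q.2] at h2
    exact (hm q.1 h3.1).lt_iff_lt.1 h2

end H17S
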