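import Pool.Agent.Lib.H17S.MB

set_option autoImplicit false

/-!
Chunk MD (M). The time function `Sm` and its inverse `tm`, for fixed `(P, N, X)` with `P > 0`, `X < Xc P N`.
The function `τ ↦ GG P N X (P + max τ 0)` is continuous (on `r >= P > 0` `ff` is continuous: `ff_der`) and positive (`GG_pos`); it is `1` for `τ <= 0` (`GG_zero`).
`Sm_der`: fundamental theorem of calculus for a continuous integrand (`intervalIntegral.integral_hasDerivAt_right` or `Continuous.integral_hasStrictDerivAt`). `Kt_der` the same. `Sm_mono`: positive derivative. `Sm_neg`: the integrand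
is `1`. `Sm_ge`: the integrand is `>= c := 1/sqrt(1 + |X| Fmax)` (`GG_le'`), so `Sm t >= c t` for `t >= 0`. `Sm_surj`: continuous, `-> ∞` and `-> -∞`. `Sm_tm`: if `Sm t₀ = s` then `{t | Sm t <= s} = Iic t₀`, `csSup_Iic`.
`tm_der`: `HasDerivAt.of_local_left_inverse` (`tm` is continuous: it is strictly increasing and surjective, or `inv_cont`-type argument, or `StrictMono.continuous_of..`; derivative of `Sm` at `tm s` is `1/sqrt G ≠ 0`).
`tm_nonneg`: monotonicity and `Sm 0 = 0`. `tm_neg`: `Sm s = s` for `s <= 0`.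
-/

open MeasureTheory Filter Topology Set

namespace H17S

theorem Gmax_cont {P N X : ℝ} (hP : 0 < P) : Continuous (fun τ : ℝ => GG P N X (P + max τ 0)) := by
  refine continuous_iff_continuousAt.2 fun τ => ?_
  have h0 : 0 < P + max τ 0 := add_pos_of_pos_of_nonneg hP (le_max_right _ _)
  have h1 : ContinuousAt (ff P N) (P + max τ 0) := (ff_der h0).continuousAt
  have h2 : ContinuousAt (fun τ : ℝ => P + max τ 0) τ :=
    (continuous_const.add (continuous_id.max continuous_const)).continuousAt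
  have h3 : ContinuousAt (fun τ : ℝ => ff P N (P + max τ 0)) τ :=
    ContinuousAt.comp (f := fun τ : ℝ => P + max τ 0) (g := ff P N) h1 h2
  exact continuousAt_const.sub (continuousAt_const.mul h3)

theorem md_fcont {P N : ℝ} (hP : 0 < P) : Continuous (fun τ : ℝ => ff P N (P + max τ 0)) := by
  refine continuous_iff_continuousAt.2 fun τ => ?_
  have h0 : 0 < P + max τ 0 := add_pos_of_pos_of_nonneg hP (le_max_right _ _)
  have h1 : ContinuousAt (ff P N) (P + max τ 0) := (ff_der h0).continuousAt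
  have h2 : ContinuousAt (fun τ : ℝ => P + max τ 0) τ :=
    (continuous_const.add (continuous_id.max continuous_const)).continuousAt
  exact ContinuousAt.comp (f := fun τ : ℝ => P + max τ 0) (g := ff P N) h1 h2

theorem md_pos {P N X : ℝ} (hP : 0 < P) (hX : X < Xc P N) (τ : ℝ) : 0 < √(GG P N X (P + max τ 0)) :=
  Real.sqrt_pos.2 (GG_pos hP hX (le_add_of_nonneg_right (le_max_right _ _)))

theorem md_c1 {P N X : ℝ} (hP : 0 < P) (hX : X < Xc P N) :
    Continuous (fun τ : ℝ => 1 / √(GG P N X (P + max τ 0))) :=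
  continuous_const.div (Gmax_cont hP).sqrt fun τ => (md_pos hP hX τ).ne'

theorem md_c2 {P N X : ℝ} (hP : 0 < P) (hX : X < Xc P N) :
    Continuous (fun τ : ℝ => ff P N (P + max τ 0) / √(GG P N X (P + max τ 0)) ^ 3) :=
  (md_fcont hP).div ((Gmax_cont hP).sqrt.pow 3) fun τ => pow_ne_zero 3 (md_pos hP hX τ).ne'

theorem Sm_der {P N X : ℝ} (hP : 0 < P) (hX : X < Xc P N) (t : ℝ) :
    HasDerivAt (Sm P N X) (1 / √(GG P N X (P + max t 0))) t := by
  exact ((md_c1 hP hX).integral_hasStrictDerivAt 0 t).hasDerivAt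

theorem Kt_der {P N X : ℝ} (hP : 0 < P) (hX : X < Xc P N) (t : ℝ) :
    HasDerivAt (Kt P N X) (ff P N (P + max t 0) / √(GG P N X (P + max t 0)) ^ 3) t := by
  exact ((md_c2 hP hX).integral_hasStrictDerivAt 0 t).hasDerivAt

theorem Sm_mono {P N X : ℝ} (hP : 0 < P) (hX : X < Xc P N) : StrictMono (Sm P N X) := by
  refine strictMono_of_deriv_pos fun t => ?_
  rw [(Sm_der hP hX t).deriv]
  exact one_div_pos.2 (md_pos hP hX t)

theorem Sm_neg {P N X t : ℝ} (hP : 0 < P) (ht : t ≤ 0) : Sm P N X t = t := by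
  have h1 : ∀ τ ∈ uIcc (0 : ℝ) t, 1 / √(GG P N X (P + max τ 0)) = 1 := by
    intro τ hτ
    rw [uIcc_of_ge ht] at hτ
    rw [max_eq_right hτ.2, add_zero, GG_zero hP, Real.sqrt_one, div_one]
  unfold Sm
  rw [intervalIntegral.integral_congr (g := fun _ => (1 : ℝ)) h1]
  simp

theorem Sm_ge {P N X t : ℝ} (hP : 0 < P) (hX : X < Xc P N) (ht : 0 ≤ t) : t / √(1 + |X| * Fmax P N) ≤ Sm P N X t := by
  have hK : 0 < 1 + |X| * Fmax P N := by
    have h1 := mul_nonneg (abs_nonneg X) (Fmax_pos N hP).le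
    linarith
  have h1 : ∫ τ in (0 : ℝ)..t, (1 / √(1 + |X| * Fmax P N)) = t / √(1 + |X| * Fmax P N) := by
    rw [intervalIntegral.integral_const, sub_zero, smul_eq_mul, mul_one_div]
  rw [← h1]
  unfold Sm
  refine intervalIntegral.integral_mono_on ht (continuous_const.intervalIntegrable _ _)
    ((md_c1 hP hX).intervalIntegrable _ _) fun τ _ => ?_
  exact one_div_le_one_div_of_le (md_pos hP hX τ)
    (Real.sqrt_le_sqrt (GG_le' hP (le_add_of_nonneg_right (le_max_right _ _))))

theorem md_zero {P N X : ℝ} : Sm P N X 0 = 0 := by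
  unfold Sm
  rw [intervalIntegral.integral_same]

theorem md_surj {P N X : ℝ} (hP : 0 < P) (hX : X < Xc P N) : Function.Surjective (Sm P N X) := by
  have hK : 0 < 1 + |X| * Fmax P N := by
    have h1 := mul_nonneg (abs_nonneg X) (Fmax_pos N hP).le
    linarith
  have hc : Continuous (Sm P N X) :=
    continuous_iff_continuousAt.2 fun t => (Sm_der hP hX t).continuousAt
  refine hc.surjective ?_ ?_
  · have h1 : Tendsto (fun t : ℝ => t / √(1 + |X| * Fmax P N)) atTop atTop :=
      tendsto_id.atTop_div_const (Real.sqrt_pos.2 hK)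
    refine tendsto_atTop_mono' _ ?_ h1
    filter_upwards [eventually_ge_atTop 0] with t ht
    exact Sm_ge hP hX ht
  · refine tendsto_id.congr' ?_
    filter_upwards [eventually_le_atBot 0] with t ht
    exact (Sm_neg hP ht).symm

theorem Sm_tm {P N X : ℝ} (hP : 0 < P) (hX : X < Xc P N) (s : ℝ) : Sm P N X (tm P N X s) = s := by
  obtain ⟨t₀, h0⟩ := md_surj hP hX s
  have h1 : {t | Sm P N X t ≤ s} = Iic t₀ := by
    ext t
    rw [mem_ofPred_eq, mem_Iic, ← h0]
    exact (Sm_mono hP hX).le_iff_le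
  unfold tm
  rw [h1, csSup_Iic, h0]

theorem tm_Sm {P N X : ℝ} (hP : 0 < P) (hX : X < Xc P N) (t : ℝ) : tm P N X (Sm P N X t) = t := by
  exact (Sm_mono hP hX).injective (Sm_tm hP hX _)

theorem tm_neg {P N X s : ℝ} (hP : 0 < P) (hX : X < Xc P N) (hs : s ≤ 0) : tm P N X s = s := by
  have h1 := tm_Sm hP hX s
  rwa [Sm_neg hP hs] at h1

theorem tm_nonneg {P N X s : ℝ} (hP : 0 < P) (hX : X < Xc P N) (hs : 0 ≤ s) : 0 ≤ tm P N X s := by
  rw [← (Sm_mono hP hX).le_iff_le, Sm_tm hP hX, md_zero]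
  exact hs

theorem tm_der {P N X : ℝ} (hP : 0 < P) (hX : X < Xc P N) (s : ℝ) :
    HasDerivAt (tm P N X) (√(GG P N X (P + max (tm P N X s) 0))) s := by
  have hm : Monotone (tm P N X) := by
    intro a b hab
    rw [← (Sm_mono hP hX).le_iff_le, Sm_tm hP hX, Sm_tm hP hX]
    exact hab
  have hs : Function.Surjective (tm P N X) := fun t => ⟨_, tm_Sm hP hX t⟩
  have hc : Continuous (tm P N X) := hm.continuous_of_surjective hs
  have h1 := HasDerivAt.of_local_left_inverse (hc.continuousAt (x := s)) (Sm_der hP hX (tm P N X s))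
    (one_div_pos.2 (md_pos hP hX _)).ne' (Eventually.of_forall fun y => Sm_tm hP hX y)
  rwa [one_div, inv_inv] at h1

end H17S
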