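import Pool.Agent.Lib.H17S.MD

set_option autoImplicit false

/-!
Chunk ME (S/M). The functions `rm`, `Km` of `s` (`P > 0`, `X < Xc P N`).
`rm_ge`: `tm_nonneg`. `rm_der`: `tm_der` and `max (tm s) 0 = tm s`. `Km_der`: chain rule, `f/(sqrt G)^3 * sqrt G = f/G`. `Km_nonneg`: the integrand is nonnegative on `[0, tm s]`. `rm_low`: `(rm)' = sqrt G >= sqrt(1 - max X 0 Fmax)` (`GG_ge`) and
`rm 0 = P`. `rm_up`: `(rm)' <= sqrt (1 + |X| Fmax)` (`GG_le'`).
-/

open MeasureTheory Filter Topology Set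

namespace H17S

theorem rm_zero {P N X : ℝ} (hP : 0 < P) (hX : X < Xc P N) : rm P N X 0 = P := by
  unfold rm
  rw [tm_neg hP hX le_rfl, add_zero]

theorem rm_ge {P N X s : ℝ} (hP : 0 < P) (hX : X < Xc P N) (hs : 0 ≤ s) : P ≤ rm P N X s := by
  unfold rm
  have := tm_nonneg hP hX hs
  linarith

theorem rm_der {P N X s : ℝ} (hP : 0 < P) (hX : X < Xc P N) (hs : 0 ≤ s) :
    HasDerivAt (rm P N X) (√(GG P N X (rm P N X s))) s := by
  have h1 := (tm_der hP hX s).const_add P
  rw [max_eq_left (tm_nonneg hP hX hs)] at h1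
  exact h1

theorem Km_zero {P N X : ℝ} (hP : 0 < P) (hX : X < Xc P N) : Km P N X 0 = 0 := by
  unfold Km Kt
  rw [tm_neg hP hX le_rfl, intervalIntegral.integral_same]

theorem Km_der {P N X s : ℝ} (hP : 0 < P) (hX : X < Xc P N) (hs : 0 ≤ s) :
    HasDerivAt (Km P N X) (ff P N (rm P N X s) / GG P N X (rm P N X s)) s := by
  have h1 := (Kt_der hP hX (tm P N X s)).comp s (tm_der hP hX s)
  rw [max_eq_left (tm_nonneg hP hX hs)] at h1
  refine h1.congr_deriv ?_
  have hG : 0 < GG P N X (P + tm P N X s) := GG_pos hP hX (rm_ge hP hX hs)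
  have h2 : 0 < √(GG P N X (P + tm P N X s)) := Real.sqrt_pos.2 hG
  have h3 : √(GG P N X (P + tm P N X s)) ^ 2 = GG P N X (P + tm P N X s) := Real.sq_sqrt hG.le
  change _ = ff P N (P + tm P N X s) / GG P N X (P + tm P N X s)
  generalize √(GG P N X (P + tm P N X s)) = q at h2 h3 ⊢
  rw [← h3]
  field_simp

theorem Km_nonneg {P N X s : ℝ} (hP : 0 < P) (hX : X < Xc P N) (hs : 0 ≤ s) : 0 ≤ Km P N X s := by
  unfold Km Kt
  apply intervalIntegral.integral_nonneg (tm_nonneg hP hX hs)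
  intro τ hτ
  have h1 : P ≤ P + max τ 0 := by
    have := le_max_right τ 0
    linarith
  exact div_nonneg (ff_nonneg hP h1) (by positivity)

theorem rm_low {P N X s : ℝ} (hP : 0 < P) (hX : X < Xc P N) (hs : 0 ≤ s) :
    P + √(1 - max X 0 * Fmax P N) * s ≤ rm P N X s := by
  have h1 := Convex.mul_sub_le_image_sub_of_le_deriv (convex_Ici (0 : ℝ)) (f := rm P N X)
    (C := √(1 - max X 0 * Fmax P N))
    (fun x hx => (rm_der hP hX hx).continuousAt.continuousWithinAt)
    (fun x hx => (rm_der hP hX (interior_subset hx)).differentiableAt.differentiableWithinAt)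
    (fun x hx => by
      rw [(rm_der hP hX (interior_subset hx)).deriv]
      exact Real.sqrt_le_sqrt (GG_ge hP (rm_ge hP hX (interior_subset hx))))
    0 (mem_Ici.2 le_rfl) s hs hs
  rw [rm_zero hP hX] at h1
  linarith

theorem rm_up {P N X s : ℝ} (hP : 0 < P) (hX : X < Xc P N) (hs : 0 ≤ s) :
    rm P N X s ≤ P + √(1 + |X| * Fmax P N) * s := by
  have h1 := Convex.image_sub_le_mul_sub_of_deriv_le (convex_Ici (0 : ℝ)) (f := rm P N X)
    (C := √(1 + |X| * Fmax P N))
    (fun x hx => (rm_der hP hX hx).continuousAt.continuousWithinAt)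
    (fun x hx => (rm_der hP hX (interior_subset hx)).differentiableAt.differentiableWithinAt)
    (fun x hx => by
      rw [(rm_der hP hX (interior_subset hx)).deriv]
      exact Real.sqrt_le_sqrt (GG_le' hP (rm_ge hP hX (interior_subset hx))))
    0 (mem_Ici.2 le_rfl) s hs hs
  rw [rm_zero hP hX] at h1
  linarith

end H17S
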