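import Pool.Agent.Lib.H17S.ME
import Pool.Agent.Lib.H17S.MC1

set_option autoImplicit false

/-!
Chunk MF (M). Joint continuity in `(P, N, X)` and `s`. A point is `p = ((P, N, X), s)`.
`GG_cont`: `ff P N r` is a quotient of polynomials in `P, 1/P, N, r` with the denominator `(r² + N²)² > 0` (`P > 0`, `r > 0`). With `r = P + max τ 0 > 0`: the integrands of `Sm`, `Kt` are continuous functions of `((P,N,X), τ)` on `Om3 × ℝ`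
(`GG_pos`). `Sm_cont`, `Kt_cont`: `intervalIntegral.continuous_parametric_intervalIntegral_of_continuous` (or `continuous_parametric_primitive_of_continuous`) on the subtype `Om3` (`continuousOn_iff_continuous_restrict`, the set `Om3 ×ˢ univ`).
`tm_cont`: `inv_cont` with `U = Om3`, `S = Sm`, `Sm_mono`, `Sm_tm`. `rm_cont`: `P + tm`. `Km_cont`: composition `Kt (tm)`. `g_cont`: `GG` at `r = rm >= P > 0` and `sqrt`.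
-/

open MeasureTheory Filter Topology Set

namespace H17S

theorem mf_ff : ContinuousOn (fun p : (ℝ × ℝ × ℝ) × ℝ => ff p.1.1 p.1.2.1 p.2) {p | 0 < p.1.1 ∧ 0 < p.2} := by
  unfold ff mm qq
  have h1 : ContinuousOn (fun p : (ℝ × ℝ × ℝ) × ℝ => (p.1.1 ^ 2 - p.1.2.1 ^ 2) / (2 * p.1.1))
      {p | 0 < p.1.1 ∧ 0 < p.2} := by
    refine ContinuousOn.div (by fun_prop) (by fun_prop) fun p hp => ?_
    exact mul_ne_zero two_ne_zero hp.1.ne'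
  refine ContinuousOn.div ?_ (by fun_prop) fun p hp => ?_
  · refine ContinuousOn.sub (ContinuousOn.sub (by fun_prop) ?_) (by fun_prop)
    exact (continuousOn_const.mul h1).mul (by fun_prop)
  · have h2 := hp.2
    have h3 : 0 < (p.2 ^ 2 + p.1.2.1 ^ 2) ^ 2 := by positivity
    exact h3.ne'

theorem GG_cont : ContinuousOn (fun p : (ℝ × ℝ × ℝ) × ℝ => GG p.1.1 p.1.2.1 p.1.2.2 p.2) {p | 0 < p.1.1 ∧ 0 < p.2} := by
  have h1 : ContinuousOn (fun p : (ℝ × ℝ × ℝ) × ℝ => p.1.2.2) {p | 0 < p.1.1 ∧ 0 < p.2} := by fun_prop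
  exact continuousOn_const.sub (h1.mul mf_ff)

theorem ff_cont : ContinuousOn (fun p : (ℝ × ℝ × ℝ) × ℝ => ff p.1.1 p.1.2.1 p.2) {p | 0 < p.1.1 ∧ 0 < p.2} := by
  exact mf_ff

theorem mf_par {F : (ℝ × ℝ × ℝ) → ℝ → ℝ}
    (hF : ContinuousOn (fun p : (ℝ × ℝ × ℝ) × ℝ => F p.1 p.2) (Om3 ×ˢ univ)) :
    ContinuousOn (fun p : (ℝ × ℝ × ℝ) × ℝ => ∫ τ in (0 : ℝ)..p.2, F p.1 τ) (Om3 ×ˢ univ) := by
  rw [continuousOn_iff_continuous_domRestrict]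
  have h1 : Continuous (Function.uncurry (fun (q : (Om3 ×ˢ (univ : Set ℝ) : Set ((ℝ × ℝ × ℝ) × ℝ))) (τ : ℝ) =>
      F q.1.1 τ)) := by
    exact hF.comp_continuous
      (f := fun q : (Om3 ×ˢ (univ : Set ℝ) : Set ((ℝ × ℝ × ℝ) × ℝ)) × ℝ => (q.1.1.1, q.2))
      (by fun_prop) (fun q => ⟨q.1.2.1, mem_univ _⟩)
  exact intervalIntegral.continuous_parametric_intervalIntegral_of_continuous h1
    (continuous_snd.comp continuous_subtype_val)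

theorem mf_max {p : (ℝ × ℝ × ℝ) × ℝ} (hp : p ∈ Om3 ×ˢ (univ : Set ℝ)) : 0 < p.1.1 + max p.2 0 :=
  add_pos_of_pos_of_nonneg hp.1.1 (le_max_right _ _)

theorem mf_g : ContinuousOn (fun p : (ℝ × ℝ × ℝ) × ℝ => GG p.1.1 p.1.2.1 p.1.2.2 (p.1.1 + max p.2 0))
    (Om3 ×ˢ univ) :=
  GG_cont.comp (f := fun p : (ℝ × ℝ × ℝ) × ℝ => (p.1, p.1.1 + max p.2 0)) (by fun_prop)
    (fun _ hp => ⟨hp.1.1, mf_max hp⟩)

theorem mf_f : ContinuousOn (fun p : (ℝ × ℝ × ℝ) × ℝ => ff p.1.1 p.1.2.1 (p.1.1 + max p.2 0))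
    (Om3 ×ˢ univ) :=
  mf_ff.comp (f := fun p : (ℝ × ℝ × ℝ) × ℝ => (p.1, p.1.1 + max p.2 0)) (by fun_prop)
    (fun _ hp => ⟨hp.1.1, mf_max hp⟩)

theorem mf_s : ContinuousOn (fun p : (ℝ × ℝ × ℝ) × ℝ => 1 / √(GG p.1.1 p.1.2.1 p.1.2.2 (p.1.1 + max p.2 0)))
    (Om3 ×ˢ univ) :=
  continuousOn_const.div mf_g.sqrt fun p hp => (md_pos hp.1.1 hp.1.2 p.2).ne'

theorem mf_k : ContinuousOn (fun p : (ℝ × ℝ × ℝ) × ℝ => ff p.1.1 p.1.2.1 (p.1.1 + max p.2 0) /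
    √(GG p.1.1 p.1.2.1 p.1.2.2 (p.1.1 + max p.2 0)) ^ 3) (Om3 ×ˢ univ) :=
  mf_f.div (mf_g.sqrt.pow 3) fun p hp => pow_ne_zero 3 (md_pos hp.1.1 hp.1.2 p.2).ne'

theorem Sm_cont : ContinuousOn (fun p : (ℝ × ℝ × ℝ) × ℝ => Sm p.1.1 p.1.2.1 p.1.2.2 p.2) (Om3 ×ˢ univ) := by
  exact mf_par (F := fun p τ => 1 / √(GG p.1 p.2.1 p.2.2 (p.1 + max τ 0))) mf_s

theorem Kt_cont : ContinuousOn (fun p : (ℝ × ℝ × ℝ) × ℝ => Kt p.1.1 p.1.2.1 p.1.2.2 p.2) (Om3 ×ˢ univ) := by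
  exact mf_par (F := fun p τ => ff p.1 p.2.1 (p.1 + max τ 0) / √(GG p.1 p.2.1 p.2.2 (p.1 + max τ 0)) ^ 3) mf_k

theorem tm_cont : ContinuousOn (fun p : (ℝ × ℝ × ℝ) × ℝ => tm p.1.1 p.1.2.1 p.1.2.2 p.2) (Om3 ×ˢ univ) := by
  exact inv_cont Om3 (fun p t => Sm p.1 p.2.1 p.2.2 t) Sm_cont (fun p hp => Sm_mono hp.1 hp.2)
    (fun p s => tm p.1 p.2.1 p.2.2 s) (fun p hp s => Sm_tm hp.1 hp.2 s)

theorem rm_cont : ContinuousOn (fun p : (ℝ × ℝ × ℝ) × ℝ => rm p.1.1 p.1.2.1 p.1.2.2 p.2) (Om3 ×ˢ univ) := by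
  have h1 : ContinuousOn (fun p : (ℝ × ℝ × ℝ) × ℝ => p.1.1) (Om3 ×ˢ univ) := by fun_prop
  exact h1.add tm_cont

theorem Km_cont : ContinuousOn (fun p : (ℝ × ℝ × ℝ) × ℝ => Km p.1.1 p.1.2.1 p.1.2.2 p.2) (Om3 ×ˢ univ) := by
  exact Kt_cont.comp (f := fun p : (ℝ × ℝ × ℝ) × ℝ => (p.1, tm p.1.1 p.1.2.1 p.1.2.2 p.2))
    (continuousOn_fst.prodMk tm_cont) (fun p hp => ⟨hp.1, mem_univ _⟩)

theorem g_cont : ContinuousOn (fun p : (ℝ × ℝ × ℝ) × ℝ => (mo p.1.1 p.1.2.1 p.1.2.2).g p.2) (Om3 ×ˢ Ici 0) := by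
  have h1 : Om3 ×ˢ Ici (0 : ℝ) ⊆ Om3 ×ˢ univ := prod_mono le_rfl (subset_univ _)
  have h2 := GG_cont.comp (f := fun p : (ℝ × ℝ × ℝ) × ℝ => (p.1, rm p.1.1 p.1.2.1 p.1.2.2 p.2))
    (s := Om3 ×ˢ Ici (0 : ℝ)) (continuousOn_fst.prodMk (rm_cont.mono h1))
    (fun p hp => ⟨hp.1.1, hp.1.1.trans_le (rm_ge hp.1.1 hp.1.2 hp.2)⟩)
  exact h2.sqrt

end H17S
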