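import Pool.Agent.Lib.H17S.ME

set_option autoImplicit false

/-!
Chunk MH (M). The variable `x = P/r = P/(P + t)`.
Both sides of `Sm_x` are differentiable in `t >= 0` (two-sided derivatives for `t > 0`, continuity at `0`), equal to `0` at `t = 0` and have the same derivative for `t > 0`: `dx/dt = - P/(P+t)² = - x²/P`, so the derivative of the right side is
`1 + P X (- w(x)/(√G (1 + √G))) (- x²/P) = 1 + X x² w/(√G (1 + √G)) = 1 + (1 - G)/(√G (1 + √G)) = 1 + (1 - √G)/√G = 1/√G`, `G = Gx P N X x = GG P N X (P + t)` (`GG_x`, `P/x = P + t`), which is `Sm_der`.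
`Kt_x`: derivative of the right side `P (- w/√G³)(- x²/P) = x² w/√G³ = f/√G³` (`ff_x`), which is `Kt_der`. The integrands are continuous on `[0,1]` (`Gx_pos`, `wm_cont`); for the fundamental theorem of calculus at interior points
`x ∈ (0,1)` it is enough that they are continuous on the open set `{x | 0 < Gx P N X x}`, a neighbourhood of `[0,1]`. Use `constant_of_has_deriv_right_zero` / `eq_of_derivWithin_eq` or `is_const_of_deriv_eq_zero`-type arguments on `[0, T]`.
-/

open MeasureTheory Filter Topology Set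

namespace H17S

theorem mh_w {P N : ℝ} (hP : 0 < P) : Continuous (wm P N) := by
  unfold wm
  refine Continuous.div (by fun_prop) (by fun_prop) fun x => ?_
  have h1 : 0 < (P ^ 2 + N ^ 2 * x ^ 2) ^ 2 := by positivity
  exact h1.ne'

theorem mh_G {P N X : ℝ} (hP : 0 < P) : Continuous (Gx P N X) := by
  unfold Gx
  have h1 := mh_w (N := N) hP
  fun_prop

theorem mh_c1 {P N X x : ℝ} (hP : 0 < P) (hx : 0 < Gx P N X x) :
    ContinuousAt (fun x => wm P N x / (√(Gx P N X x) * (1 + √(Gx P N X x)))) x := by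
  have h1 : 0 < √(Gx P N X x) := Real.sqrt_pos.2 hx
  have h2 : ContinuousAt (fun x => √(Gx P N X x)) x := (mh_G hP).sqrt.continuousAt
  exact (mh_w hP).continuousAt.div (h2.mul (continuousAt_const.add h2)) (by positivity)

theorem mh_c2 {P N X x : ℝ} (hP : 0 < P) (hx : 0 < Gx P N X x) :
    ContinuousAt (fun x => wm P N x / √(Gx P N X x) ^ 3) x := by
  have h1 : 0 < √(Gx P N X x) := Real.sqrt_pos.2 hx
  have h2 : ContinuousAt (fun x => √(Gx P N X x)) x := (mh_G hP).sqrt.continuousAt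
  exact (mh_w hP).continuousAt.div (h2.pow 3) (by positivity)

/-- `u ↦ ∫_u^1 φ` has at the points of `(0, 1]` the derivative `- φ`. -/
theorem mh_ftc {P N X : ℝ} (hP : 0 < P) (hX : X < Xc P N) {φ : ℝ → ℝ}
    (hφ : ∀ x, 0 < Gx P N X x → ContinuousAt φ x) {x : ℝ} (hx : x ∈ Icc (0 : ℝ) 1) :
    HasDerivAt (fun u => ∫ y in u..1, φ y) (-φ x) x := by
  have hop : IsOpen {x | 0 < Gx P N X x} := isOpen_lt continuous_const (mh_G hP)
  have hpos : ∀ y ∈ Icc (0 : ℝ) 1, 0 < Gx P N X y := fun y hy => Gx_pos hP hX hy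
  refine intervalIntegral.integral_hasDerivAt_left ?_ ?_ (hφ x (hpos x hx))
  · refine ContinuousOn.intervalIntegrable fun y hy => (hφ y (hpos y ?_)).continuousWithinAt
    rw [uIcc_of_le hx.2] at hy
    exact ⟨hx.1.trans hy.1, hy.2⟩
  · exact ContinuousAt.stronglyMeasurableAtFilter hop (fun y hy => hφ y hy) x (hpos x hx)

theorem mh_x {P t : ℝ} (hP : 0 < P) (ht : 0 ≤ t) : P / (P + t) ∈ Icc (0 : ℝ) 1 ∧ 0 < P / (P + t) ∧
    HasDerivAt (fun t => P / (P + t)) (-(P / (P + t)) ^ 2 / P) t := by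
  have h0 : 0 < P + t := by linarith
  refine ⟨⟨by positivity, (div_le_one h0).2 (by linarith)⟩, by positivity, ?_⟩
  have h1 := (hasDerivAt_const t P).div ((hasDerivAt_id t).const_add P) h0.ne'
  refine h1.congr_deriv ?_
  simp only [id]
  field_simp
  ring

theorem mh_eq {F : ℝ → ℝ} (h0 : F 0 = 0) (hF : ∀ t, 0 ≤ t → HasDerivAt F 0 t) {t : ℝ} (ht : 0 ≤ t) : F t = 0 := by
  have h1 := constant_of_has_deriv_right_zero (f := F) (a := 0) (b := t)
    (fun x hx => (hF x hx.1).continuousAt.continuousWithinAt)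
    (fun x hx => (hF x hx.1).hasDerivWithinAt) t ⟨ht, le_rfl⟩
  rw [h1, h0]

theorem wG_cont {P N X : ℝ} (hP : 0 < P) (hX : X < Xc P N) :
    ContinuousOn (fun x => wm P N x / (√(Gx P N X x) * (1 + √(Gx P N X x)))) (Icc 0 1) ∧
      ContinuousOn (fun x => wm P N x / √(Gx P N X x) ^ 3) (Icc 0 1) := by
  have hU : ∀ x ∈ Icc (0 : ℝ) 1, 0 < Gx P N X x := fun x hx => Gx_pos hP hX hx
  exact ⟨fun x hx => (mh_c1 hP (hU x hx)).continuousWithinAt, fun x hx => (mh_c2 hP (hU x hx)).continuousWithinAt⟩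

theorem Sm_x {P N X t : ℝ} (hP : 0 < P) (hX : X < Xc P N) (ht : 0 ≤ t) : Sm P N X t =
    t + P * X * ∫ x in P / (P + t)..1, wm P N x / (√(Gx P N X x) * (1 + √(Gx P N X x))) := by
  obtain ⟨φ, hφ⟩ : ∃ φ : ℝ → ℝ, φ = fun x => wm P N x / (√(Gx P N X x) * (1 + √(Gx P N X x))) := ⟨_, rfl⟩
  have h1 : ∀ t, 0 ≤ t → HasDerivAt (fun t => Sm P N X t - (t + P * X * ∫ x in P / (P + t)..1, φ x)) 0 t := by
    intro t ht
    obtain ⟨h2, h2', h3⟩ := mh_x hP ht
    have h4 := mh_ftc hP hX (φ := φ) (fun x hx => by rw [hφ]; exact mh_c1 hP hx) h2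
    have h5 : HasDerivAt (fun t => ∫ x in P / (P + t)..1, φ x) _ t :=
      HasDerivAt.comp (h₂ := fun u => ∫ y in u..1, φ y) (h := fun t => P / (P + t)) t h4 h3
    have h6 := (Sm_der hP hX t).sub ((hasDerivAt_id t).add (h5.const_mul (P * X)))
    refine h6.congr_deriv ?_
    have h7 : P + max t 0 = P / (P / (P + t)) := by
      have h0 : P + t ≠ 0 := by linarith
      rw [max_eq_left ht]
      field_simp
    rw [h7, GG_x hP h2', hφ]
    beta_reduce
    have h8 : 0 < Gx P N X (P / (P + t)) := Gx_pos hP hX h2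
    have h9 : 0 < √(Gx P N X (P / (P + t))) := Real.sqrt_pos.2 h8
    have h10 : √(Gx P N X (P / (P + t))) ^ 2 = 1 - X * ((P / (P + t)) ^ 2 * wm P N (P / (P + t))) :=
      Real.sq_sqrt h8.le
    generalize √(Gx P N X (P / (P + t))) = q at h9 h10 ⊢
    generalize P / (P + t) = x at h10 ⊢
    have h11 : 1 + q ≠ 0 := by linarith
    field_simp
    linear_combination -h10
  have h2 := mh_eq ?_ h1 ht
  · rw [← hφ]
    linarith
  · rw [add_zero, div_self hP.ne', intervalIntegral.integral_same]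
    unfold Sm
    rw [intervalIntegral.integral_same]
    ring

theorem Kt_x {P N X t : ℝ} (hP : 0 < P) (hX : X < Xc P N) (ht : 0 ≤ t) :
    Kt P N X t = P * ∫ x in P / (P + t)..1, wm P N x / √(Gx P N X x) ^ 3 := by
  obtain ⟨φ, hφ⟩ : ∃ φ : ℝ → ℝ, φ = fun x => wm P N x / √(Gx P N X x) ^ 3 := ⟨_, rfl⟩
  have h1 : ∀ t, 0 ≤ t → HasDerivAt (fun t => Kt P N X t - P * ∫ x in P / (P + t)..1, φ x) 0 t := by
    intro t ht
    obtain ⟨h2, h2', h3⟩ := mh_x hP ht
    have h4 := mh_ftc hP hX (φ := φ) (fun x hx => by rw [hφ]; exact mh_c2 hP hx) h2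
    have h5 : HasDerivAt (fun t => ∫ x in P / (P + t)..1, φ x) _ t :=
      HasDerivAt.comp (h₂ := fun u => ∫ y in u..1, φ y) (h := fun t => P / (P + t)) t h4 h3
    have h6 := (Kt_der hP hX t).sub (h5.const_mul P)
    refine h6.congr_deriv ?_
    have h7 : P + max t 0 = P / (P / (P + t)) := by
      have h0 : P + t ≠ 0 := by linarith
      rw [max_eq_left ht]
      field_simp
    rw [h7, GG_x hP h2', ff_x hP h2', hφ]
    beta_reduce
    have h8 : 0 < Gx P N X (P / (P + t)) := Gx_pos hP hX h2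
    have h9 : 0 < √(Gx P N X (P / (P + t))) := Real.sqrt_pos.2 h8
    generalize √(Gx P N X (P / (P + t))) = q at h9 ⊢
    generalize P / (P + t) = x
    field_simp
    ring
  have h2 := mh_eq ?_ h1 ht
  · rw [← hφ]
    linarith
  · rw [add_zero, div_self hP.ne', intervalIntegral.integral_same]
    unfold Kt
    rw [intervalIntegral.integral_same]
    ring

end H17S
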