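import Pool.Agent.Lib.H17S.MB

set_option autoImplicit false

/-!
Chunk MN1 (S/M). Near its maximum `g(x) = x² w(x)` is at least `Fmax (1 - C3 (x - x₀)²)`.
Let `F = Fmax P N > 0`, `d = P² + N² x²`, `n = x² (1 - x)(P² + N² x) = P² x² + (N² - P²) x³ - N² x⁴`, so `g = n/d²`, and `h = F d² - n = F (P⁴ + 2 P² N² x² + N⁴ x⁴) - P² x² - (N² - P²) x³ + N² x⁴ >= 0` on `[0,1]` (`le_Fmax`), `h(x₀) = 0` at the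
interior point `x₀ ∈ (0,1)`, so `h'(x₀) = 0`. On `[0,1]` `h'' = F (4 P² N² + 12 N⁴ x²) - 2 P² - 6 (N² - P²) x + 12 N² x² <= C2 := F (4 P² N² + 12 N⁴) + 6 P² + 12 N²`. So `h(x) <= (C2/2) (x - x₀)²` (`h - (C2/2)(x - x₀)²` is concave on `[0,1]`
with derivative `0` at `x₀`, or expand the quartic polynomial at `x₀`), and `F - g = h/d² <= h/P⁴ <= F C3 (x - x₀)²`, `C3 = C2/(2 P⁴ F)`.
-/

open MeasureTheory Filter Topology Set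

namespace H17S

/-- The constant of chunks MN1, MN2. -/
noncomputable def C3 (P N : ℝ) : ℝ :=
  (Fmax P N * (4 * P ^ 2 * N ^ 2 + 12 * N ^ 4) + 6 * P ^ 2 + 12 * N ^ 2) / (2 * P ^ 4 * Fmax P N)

theorem C3_pos {P : ℝ} (N : ℝ) (hP : 0 < P) : 0 < C3 P N := by
  have hF := Fmax_pos N hP
  unfold C3
  positivity

theorem near_max {P N x₀ x : ℝ} (hP : 0 < P) (h₀ : x₀ ∈ Ioo (0 : ℝ) 1) (hm : x₀ ^ 2 * wm P N x₀ = Fmax P N)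
    (hx : x ∈ Icc (0 : ℝ) 1) : Fmax P N * (1 - C3 P N * (x - x₀) ^ 2) ≤ x ^ 2 * wm P N x := by
  have hF := Fmax_pos N hP
  set F := Fmax P N with hFdef
  have hwm : ∀ y : ℝ, y ^ 2 * wm P N y = y ^ 2 * ((1 - y) * (P ^ 2 + N ^ 2 * y)) / (P ^ 2 + N ^ 2 * y ^ 2) ^ 2 := by
    intro y
    unfold wm
    ring
  have hd : ∀ y : ℝ, 0 < (P ^ 2 + N ^ 2 * y ^ 2) ^ 2 := fun y => pow_pos (ma_den_pos hP) 2
  have hh : ∀ y : ℝ, F * (P ^ 2 + N ^ 2 * y ^ 2) ^ 2 - y ^ 2 * ((1 - y) * (P ^ 2 + N ^ 2 * y)) =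
      F * P ^ 4 + (2 * F * P ^ 2 * N ^ 2 - P ^ 2) * y ^ 2 + (P ^ 2 - N ^ 2) * y ^ 3 + (F * N ^ 4 + N ^ 2) * y ^ 4 := by
    intro y
    ring
  -- `h` is nonnegative on `[0, 1]`
  have hnn : ∀ y ∈ Icc (0 : ℝ) 1, 0 ≤ F * P ^ 4 + (2 * F * P ^ 2 * N ^ 2 - P ^ 2) * y ^ 2 + (P ^ 2 - N ^ 2) * y ^ 3 +
      (F * N ^ 4 + N ^ 2) * y ^ 4 := by
    intro y hy
    rw [← hh y]
    have h1 := le_Fmax (N := N) hP hy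
    rw [hwm y, div_le_iff₀ (hd y)] at h1
    linarith
  have hz : F * P ^ 4 + (2 * F * P ^ 2 * N ^ 2 - P ^ 2) * x₀ ^ 2 + (P ^ 2 - N ^ 2) * x₀ ^ 3 +
      (F * N ^ 4 + N ^ 2) * x₀ ^ 4 = 0 := by
    rw [← hh x₀]
    rw [hwm x₀, div_eq_iff (hd x₀).ne'] at hm
    linarith
  -- the derivative at `x₀` vanishes
  have hder : HasDerivAt (fun y : ℝ => F * P ^ 4 + (2 * F * P ^ 2 * N ^ 2 - P ^ 2) * y ^ 2 + (P ^ 2 - N ^ 2) * y ^ 3 +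
      (F * N ^ 4 + N ^ 2) * y ^ 4) ((2 * F * P ^ 2 * N ^ 2 - P ^ 2) * (2 * x₀) + (P ^ 2 - N ^ 2) * (3 * x₀ ^ 2) +
      (F * N ^ 4 + N ^ 2) * (4 * x₀ ^ 3)) x₀ := by
    have h2 := ((hasDerivAt_pow 2 x₀).const_mul (2 * F * P ^ 2 * N ^ 2 - P ^ 2))
    have h3 := ((hasDerivAt_pow 3 x₀).const_mul (P ^ 2 - N ^ 2))
    have h4 := ((hasDerivAt_pow 4 x₀).const_mul (F * N ^ 4 + N ^ 2))
    have h5 := ((hasDerivAt_const x₀ (F * P ^ 4)).add h2).add (h3) |>.add h4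
    refine h5.congr_deriv ?_
    norm_num
  have hmin : IsLocalMin (fun y : ℝ => F * P ^ 4 + (2 * F * P ^ 2 * N ^ 2 - P ^ 2) * y ^ 2 + (P ^ 2 - N ^ 2) * y ^ 3 +
      (F * N ^ 4 + N ^ 2) * y ^ 4) x₀ := by
    filter_upwards [Ioo_mem_nhds h₀.1 h₀.2] with y hy
    rw [hz]
    exact hnn y ⟨hy.1.le, hy.2.le⟩
  have hd0 := hmin.hasDerivAt_eq_zero hder
  have hx0 := h₀.1
  have hx1 := h₀.2
  have hxa := hx.1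
  have hxb := hx.2
  -- Taylor expansion
  have hT : F * P ^ 4 + (2 * F * P ^ 2 * N ^ 2 - P ^ 2) * x ^ 2 + (P ^ 2 - N ^ 2) * x ^ 3 + (F * N ^ 4 + N ^ 2) * x ^ 4 =
      (x - x₀) ^ 2 * ((2 * F * P ^ 2 * N ^ 2 - P ^ 2) + (P ^ 2 - N ^ 2) * (x + 2 * x₀) +
        (F * N ^ 4 + N ^ 2) * (x ^ 2 + 2 * x * x₀ + 3 * x₀ ^ 2)) := by
    linear_combination hz + (x - x₀) * hd0
  have hb : (2 * F * P ^ 2 * N ^ 2 - P ^ 2) + (P ^ 2 - N ^ 2) * (x + 2 * x₀) +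
        (F * N ^ 4 + N ^ 2) * (x ^ 2 + 2 * x * x₀ + 3 * x₀ ^ 2) ≤
      (F * (4 * P ^ 2 * N ^ 2 + 12 * N ^ 4) + 6 * P ^ 2 + 12 * N ^ 2) / 2 := by
    have e1 : P ^ 2 * (x + 2 * x₀) ≤ P ^ 2 * 3 := mul_le_mul_of_nonneg_left (by linarith) (sq_nonneg P)
    have e2 : 0 ≤ N ^ 2 * (x + 2 * x₀) := by positivity
    have e3 : x ^ 2 + 2 * x * x₀ + 3 * x₀ ^ 2 ≤ 6 := by nlinarith
    have e4 : (F * N ^ 4 + N ^ 2) * (x ^ 2 + 2 * x * x₀ + 3 * x₀ ^ 2) ≤ (F * N ^ 4 + N ^ 2) * 6 :=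
      mul_le_mul_of_nonneg_left e3 (by positivity)
    have e5 : 0 ≤ P ^ 2 := sq_nonneg P
    nlinarith
  have hup : F * (P ^ 2 + N ^ 2 * x ^ 2) ^ 2 - x ^ 2 * ((1 - x) * (P ^ 2 + N ^ 2 * x)) ≤
      (x - x₀) ^ 2 * ((F * (4 * P ^ 2 * N ^ 2 + 12 * N ^ 4) + 6 * P ^ 2 + 12 * N ^ 2) / 2) := by
    rw [hh x, hT]
    exact mul_le_mul_of_nonneg_left hb (sq_nonneg _)
  have hC3 : F * C3 P N * P ^ 4 = (F * (4 * P ^ 2 * N ^ 2 + 12 * N ^ 4) + 6 * P ^ 2 + 12 * N ^ 2) / 2 := by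
    unfold C3
    rw [← hFdef]
    have hP' : P ≠ 0 := hP.ne'
    have hF' : F ≠ 0 := hF.ne'
    field_simp
  have hC0 : 0 ≤ F * C3 P N * (x - x₀) ^ 2 := mul_nonneg (mul_pos hF (C3_pos N hP)).le (sq_nonneg _)
  have hdP : P ^ 4 ≤ (P ^ 2 + N ^ 2 * x ^ 2) ^ 2 := by
    have h1 : 0 ≤ N ^ 2 * x ^ 2 := by positivity
    nlinarith [sq_nonneg P, mul_nonneg (sq_nonneg P) h1]
  have hfin : F * C3 P N * (x - x₀) ^ 2 * P ^ 4 ≤ F * C3 P N * (x - x₀) ^ 2 * (P ^ 2 + N ^ 2 * x ^ 2) ^ 2 :=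
    mul_le_mul_of_nonneg_left hdP hC0
  rw [hwm x, le_div_iff₀ (hd x)]
  have hE : F * C3 P N * (x - x₀) ^ 2 * P ^ 4 =
      (x - x₀) ^ 2 * ((F * (4 * P ^ 2 * N ^ 2 + 12 * N ^ 4) + 6 * P ^ 2 + 12 * N ^ 2) / 2) := by
    rw [← hC3]
    ring
  have hG : F * (1 - C3 P N * (x - x₀) ^ 2) * (P ^ 2 + N ^ 2 * x ^ 2) ^ 2 =
      F * (P ^ 2 + N ^ 2 * x ^ 2) ^ 2 - F * C3 P N * (x - x₀) ^ 2 * (P ^ 2 + N ^ 2 * x ^ 2) ^ 2 := by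
    ring
  rw [hG]
  linarith

end H17S
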