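import Pool.Agent.Lib.H17S.SD
import Pool.Agent.Lib.H17U.NA4
import Pool.Agent.Lib.H17U.TC1
import Pool.Agent.Lib.H74Q.E0

set_option autoImplicit false

/-!
H17S, module N (calculus on the sphere): definitions. The derivatives are `L_j F = rl j F = dF(e_j × n)`. All statements of the module are at points `n : S2`.
-/

open MeasureTheory Filter Topology Set
open scoped ContDiff ComplexConjugate

namespace H17S.Sph

open NullPen (E3 S2 sm proj)
open NullU (rl crs dtB Tng cf)

/-- Differentiable at the points of the sphere, with a derivative which is continuous on the sphere. -/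
structure C1S (F : E3 → ℝ) : Prop where
  diff : ∀ n : S2, DifferentiableAt ℝ F n
  cont : Continuous (fun n : S2 => fderiv ℝ F n)

/-- Tangent field which is differentiable at the points of the sphere. -/
structure TD (V : E3 → Fin 3 → ℝ) : Prop where
  diff : ∀ (n : S2) (i : Fin 3), DifferentiableAt ℝ (fun y => V y i) n
  tan : ∀ n : S2, ∑ i, (n : E3) i * V n i = 0

/-- Tangential gradient: `grad F . t = ∑ j, (n × t)_j L_j F`. -/
noncomputable def gd (F : E3 → ℝ) (n : E3) (i : Fin 3) : ℝ := ∑ j, jm n j i * rl j F n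

/-- `w = grad |V|^2 / 2`. -/
noncomputable def wv (V : E3 → Fin 3 → ℝ) (n : E3) (i : Fin 3) : ℝ := gd (fun y => nsq (V y)) n i / 2

/-- `L × V`. -/
noncomputable def lc (V : E3 → Fin 3 → ℝ) (n : E3) (i : Fin 3) : ℝ :=
  rl (i + 1) (fun y => V y (i + 2)) n - rl (i + 2) (fun y => V y (i + 1)) n

theorem _root_.H17S.TF.td {V : E3 → Fin 3 → ℝ} (h : TF V) : TD V := ⟨fun _ i => (h.sm i).differentiable (by simp) _, h.tan⟩

end H17S.Sph
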