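import Pool.Agent.Lib.H17S.N0

set_option autoImplicit false

/-!
Chunk N1 (S/M). The derivatives along the rotation fields: rules; functions of class `C1S`; the integral of a derivative vanishes.
Proof. Rules: `rl j F x = fderiv ℝ F x (NShell.rotv j x)` and the rules for `fderiv` (see `TC1_rl_mul`, `TC1_rl_sub`, `TC1_rl_sum`, `TC1_rl_coord` in Lib/H17U/TC1.lean). `rl_congr`: `NShell.fderiv_rot_congr`. `rl_rad`: linearity:
`∑ j, n_j rotv j n = 0` (`n × n = 0`). `rl_bd`: `‖rotv j n‖ <= 1` for `‖n‖ = 1`. `rl_tan`: `∑ j (n × t)_j (e_j × n) = (n × t) × n = t` for `t . n = 0`. `rl_smooth`: `ContDiff.fderiv_right`, `rotv_smooth`, `clm_apply`. `rl_comm`: `NShell.std_comm01`,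
`std_comm12`, `std_comm20` for `NShell.SFun.of F hF`, evaluated at `n`, with `NShell.stdL_of` (as in `NullU.int_rl`; for the iterated derivatives use `stdL_of` with the extension `rl j F`, which is smooth).
`C1S`: rules for `fderiv`; continuity of `n ↦ F n` (`cont0`) from `DifferentiableAt.continuousAt`. `of_at`: `ContDiffAt ℝ 1 F n` implies that `fderiv ℝ F` is continuous at `n` (`ContDiffAt.continuousAt_fderiv` or `ContDiffAt.fderiv_right`) .
`comp`: `HasDerivAt.comp_hasFDerivAt`: `fderiv (φ ∘ F) n = φ'(F n) • fderiv F n`. `int_rl1`: `NullQ.hr_int` with `NullQ.hr_val` (Lib/H74Q/E0.lean); `rl_cont`: `NShell.rotv j` is continuous (`TC0_rotv`), `clm_apply`.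
-/

open MeasureTheory Filter Topology Set
open scoped ContDiff ComplexConjugate

namespace H17S.Sph

open NullPen (E3 S2 sm proj)
open NullU (rl crs dtB Tng cf)

theorem rotv_smooth (j : Fin 3) : ContDiff ℝ ∞ (NShell.rotv j) := by
  unfold NShell.rotv
  have h : ∀ k : Fin 3, ContDiff ℝ ∞ (fun y : E3 => y k) := fun k =>
    (EuclideanSpace.proj k : E3 →L[ℝ] ℝ).contDiff
  exact ((h _).smul contDiff_const).sub ((h _).smul contDiff_const)

theorem rl_const (c : ℝ) (j : Fin 3) (x : E3) : rl j (fun _ => c) x = 0 := by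
  unfold rl
  simp

theorem rl_add {f g : E3 → ℝ} {x : E3} (hf : DifferentiableAt ℝ f x) (hg : DifferentiableAt ℝ g x) (j : Fin 3) :
    rl j (fun y => f y + g y) x = rl j f x + rl j g x := by
  unfold rl
  rw [fderiv_fun_add hf hg]
  rfl

theorem rl_sub {f g : E3 → ℝ} {x : E3} (hf : DifferentiableAt ℝ f x) (hg : DifferentiableAt ℝ g x) (j : Fin 3) :
    rl j (fun y => f y - g y) x = rl j f x - rl j g x := by
  unfold rl
  rw [fderiv_fun_sub hf hg]
  rfl

theorem rl_neg (f : E3 → ℝ) (x : E3) (j : Fin 3) : rl j (fun y => - f y) x = - rl j f x := by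
  unfold rl
  rw [fderiv_fun_neg]
  rfl

theorem rl_mul {f g : E3 → ℝ} {x : E3} (hf : DifferentiableAt ℝ f x) (hg : DifferentiableAt ℝ g x) (j : Fin 3) :
    rl j (fun y => f y * g y) x = rl j f x * g x + f x * rl j g x := by
  unfold rl
  rw [fderiv_fun_mul hf hg]
  show f x * fderiv ℝ g x (NShell.rotv j x) + g x * fderiv ℝ f x (NShell.rotv j x) = _
  ring

theorem rl_cmul {f : E3 → ℝ} {x : E3} (hf : DifferentiableAt ℝ f x) (c : ℝ) (j : Fin 3) :
    rl j (fun y => c * f y) x = c * rl j f x := by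
  rw [rl_mul (differentiableAt_const c) hf, rl_const]
  ring

theorem rl_sum {f : Fin 3 → E3 → ℝ} {x : E3} (hf : ∀ i, DifferentiableAt ℝ (f i) x) (j : Fin 3) :
    rl j (fun y => ∑ i, f i y) x = ∑ i, rl j (f i) x := by
  unfold rl
  rw [fderiv_fun_sum fun i _ => hf i]
  simp

theorem rl_comp {φ : ℝ → ℝ} {d : ℝ} {f : E3 → ℝ} {x : E3} (hf : DifferentiableAt ℝ f x) (hφ : HasDerivAt φ d (f x)) (j : Fin 3) :
    rl j (fun y => φ (f y)) x = d * rl j f x := by
  unfold rl
  have h := hφ.comp_hasFDerivAt x hf.hasFDerivAt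
  have h1 : fderiv ℝ (fun y => φ (f y)) x = d • fderiv ℝ f x := h.fderiv
  rw [h1]
  rfl

theorem rl_coord (x : E3) (i j : Fin 3) :
    rl j (fun y => y i) x = x (j + 1) * (if j + 2 = i then 1 else 0) - x (j + 2) * (if j + 1 = i then 1 else 0) := by
  exact NullU.TC1_rl_coord x i j

theorem rl_congr {F G : E3 → ℝ} (h : ∀ n : S2, F n = G n) {n : S2} (hF : DifferentiableAt ℝ F (n : E3))
    (hG : DifferentiableAt ℝ G (n : E3)) (j : Fin 3) : rl j F n = rl j G n := by
  exact NShell.fderiv_rot_congr h hF hG j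

theorem rl_nhds {F G : E3 → ℝ} {x : E3} (h : F =ᶠ[𝓝 x] G) (j : Fin 3) : rl j F x = rl j G x := by
  unfold rl
  rw [h.fderiv_eq]

theorem rl_rad (F : E3 → ℝ) (n : E3) : ∑ j, n j * rl j F n = 0 := by
  unfold rl NShell.rotv
  simp only [Fin.sum_univ_three, map_sub, map_smul, smul_eq_mul]
  simp only [show (0 : Fin 3) + 1 = 1 from rfl, show (0 : Fin 3) + 2 = 2 from rfl,
    show (1 : Fin 3) + 1 = 2 from rfl, show (1 : Fin 3) + 2 = 0 from rfl,
    show (2 : Fin 3) + 1 = 0 from rfl, show (2 : Fin 3) + 2 = 1 from rfl]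
  ring

theorem rotv_norm_le (n : S2) (j : Fin 3) : ‖NShell.rotv j (n : E3)‖ ≤ 1 := by
  have hn : ‖(n : E3)‖ = 1 := by
    have := n.2
    simpa using this
  have hn2 : ∑ i, (n : E3) i ^ 2 = 1 := by
    have h := EuclideanSpace.norm_sq_eq (n : E3)
    rw [hn] at h
    simpa using h.symm
  have h1 : ‖NShell.rotv j (n : E3)‖ ^ 2 ≤ 1 := by
    rw [EuclideanSpace.norm_sq_eq]
    simp only [Fin.sum_univ_three] at hn2 ⊢
    unfold NShell.rotv
    fin_cases j <;> simp <;> nlinarith [sq_nonneg ((n : E3) 0), sq_nonneg ((n : E3) 1), sq_nonneg ((n : E3) 2)]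
  have h2 : 0 ≤ ‖NShell.rotv j (n : E3)‖ := norm_nonneg _
  nlinarith

theorem rl_bd (F : E3 → ℝ) (n : S2) (j : Fin 3) : |rl j F n| ≤ ‖fderiv ℝ F n‖ := by
  unfold rl
  have h1 := (fderiv ℝ F n).le_opNorm (NShell.rotv j (n : E3))
  rw [Real.norm_eq_abs] at h1
  have h2 := rotv_norm_le n j
  calc |(fderiv ℝ F n) (NShell.rotv j (n : E3))| ≤ ‖fderiv ℝ F n‖ * ‖NShell.rotv j (n : E3)‖ := h1
    _ ≤ ‖fderiv ℝ F n‖ * 1 := mul_le_mul_of_nonneg_left h2 (norm_nonneg _)
    _ = ‖fderiv ℝ F n‖ := mul_one _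

theorem rl_tan (F : E3 → ℝ) (n : S2) {t : E3} (ht : ∑ i, (n : E3) i * t i = 0) :
    fderiv ℝ F n t = ∑ j, cr n (fun i => t i) j * rl j F n := by
  have hn : ‖(n : E3)‖ = 1 := by
    have := n.2
    simpa using this
  have hn2 : ∑ i, (n : E3) i ^ 2 = 1 := by
    have h := EuclideanSpace.norm_sq_eq (n : E3)
    rw [hn] at h
    simpa using h.symm
  have hv : t = ∑ j, cr n (fun i => t i) j • NShell.rotv j (n : E3) := by
    ext k
    simp only [Fin.sum_univ_three] at ht hn2 ⊢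
    unfold cr crs NShell.rotv
    simp only [show (0 : Fin 3) + 1 = 1 from rfl, show (0 : Fin 3) + 2 = 2 from rfl,
      show (1 : Fin 3) + 1 = 2 from rfl, show (1 : Fin 3) + 2 = 0 from rfl,
      show (2 : Fin 3) + 1 = 0 from rfl, show (2 : Fin 3) + 2 = 1 from rfl]
    fin_cases k
    · simp
      linear_combination (-(t 0)) * hn2 + ((n : E3) 0) * ht
    · simp
      linear_combination (-(t 1)) * hn2 + ((n : E3) 1) * ht
    · simp
      linear_combination (-(t 2)) * hn2 + ((n : E3) 2) * ht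
  conv_lhs => rw [hv]
  rw [map_sum]
  refine Finset.sum_congr rfl fun j _ => ?_
  rw [map_smul]
  rfl

theorem rl_smooth {F : E3 → ℝ} (hF : ContDiff ℝ ∞ F) (j : Fin 3) : ContDiff ℝ ∞ (fun y => rl j F y) := by
  unfold rl
  exact (hF.fderiv_right (m := ∞) (by simp)).clm_apply (rotv_smooth j)

theorem rl_comm {F : E3 → ℝ} (hF : ContDiff ℝ ∞ F) (j : Fin 3) (n : S2) :
    rl j (fun y => rl (j + 1) F y) n - rl (j + 1) (fun y => rl j F y) n = - rl (j + 2) F n := by
  have e1 : ∀ (i : Fin 3) (m : S2), (NShell.stdL i (NShell.SFun.of F hF)).1 m = rl i F m := fun i m =>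
    NShell.stdL_of i (NShell.SFun.of F hF) F hF (fun _ => rfl) m
  have e2 : ∀ i k : Fin 3, (NShell.stdL i (NShell.stdL k (NShell.SFun.of F hF))).1 n = rl i (fun y => rl k F y) n :=
    fun i k => NShell.stdL_of i (NShell.stdL k (NShell.SFun.of F hF)) (fun y => rl k F y) (rl_smooth hF k) (e1 k) n
  have c0 := congrArg (fun f : NShell.SFun => f.1 n) (NShell.std_comm01 (NShell.SFun.of F hF))
  have c1 := congrArg (fun f : NShell.SFun => f.1 n) (NShell.std_comm12 (NShell.SFun.of F hF))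
  have c2 := congrArg (fun f : NShell.SFun => f.1 n) (NShell.std_comm20 (NShell.SFun.of F hF))
  change (NShell.stdL 0 (NShell.stdL 1 (NShell.SFun.of F hF))).1 n =
    (NShell.stdL 1 (NShell.stdL 0 (NShell.SFun.of F hF))).1 n - (NShell.stdL 2 (NShell.SFun.of F hF)).1 n at c0
  change (NShell.stdL 1 (NShell.stdL 2 (NShell.SFun.of F hF))).1 n =
    (NShell.stdL 2 (NShell.stdL 1 (NShell.SFun.of F hF))).1 n - (NShell.stdL 0 (NShell.SFun.of F hF)).1 n at c1
  change (NShell.stdL 2 (NShell.stdL 0 (NShell.SFun.of F hF))).1 n =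
    (NShell.stdL 0 (NShell.stdL 2 (NShell.SFun.of F hF))).1 n - (NShell.stdL 1 (NShell.SFun.of F hF)).1 n at c2
  rw [e2, e2, e1] at c0 c1 c2
  fin_cases j
  · show rl 0 (fun y => rl 1 F y) n - rl 1 (fun y => rl 0 F y) n = - rl 2 F n
    linarith
  · show rl 1 (fun y => rl 2 F y) n - rl 2 (fun y => rl 1 F y) n = - rl 0 F n
    linarith
  · show rl 2 (fun y => rl 0 F y) n - rl 0 (fun y => rl 2 F y) n = - rl 1 F n
    linarith

namespace C1S

theorem of_at {F : E3 → ℝ} (h : ∀ n : S2, ContDiffAt ℝ 1 F n) : C1S F := by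
  refine ⟨fun n => (h n).differentiableAt (by simp), ?_⟩
  rw [continuous_iff_continuousAt]
  intro n
  have h1 : ContinuousAt (fderiv ℝ F) (n : E3) := (h n).continuousAt_fderiv (by simp)
  exact ContinuousAt.comp (g := fderiv ℝ F) (f := fun m : S2 => (m : E3)) h1 continuous_subtype_val.continuousAt

theorem of_smooth {F : E3 → ℝ} (h : ContDiff ℝ ∞ F) : C1S F := by
  refine of_at fun n => ?_
  exact (h.of_le (by exact_mod_cast le_top)).contDiffAt

theorem const (c : ℝ) : C1S (fun _ => c) := by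
  exact of_smooth contDiff_const

theorem coord (i : Fin 3) : C1S (fun y => y i) := by
  exact of_smooth (EuclideanSpace.proj i : E3 →L[ℝ] ℝ).contDiff

theorem add {F G : E3 → ℝ} (hF : C1S F) (hG : C1S G) : C1S (fun y => F y + G y) := by
  refine ⟨fun n => (hF.diff n).fun_add (hG.diff n), ?_⟩
  have e : (fun n : S2 => fderiv ℝ (fun y => F y + G y) n) = fun n : S2 => fderiv ℝ F n + fderiv ℝ G n := by
    funext n
    exact fderiv_fun_add (hF.diff n) (hG.diff n)
  rw [e]
  exact hF.cont.add hG.cont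

theorem sub {F G : E3 → ℝ} (hF : C1S F) (hG : C1S G) : C1S (fun y => F y - G y) := by
  refine ⟨fun n => (hF.diff n).fun_sub (hG.diff n), ?_⟩
  have e : (fun n : S2 => fderiv ℝ (fun y => F y - G y) n) = fun n : S2 => fderiv ℝ F n - fderiv ℝ G n := by
    funext n
    exact fderiv_fun_sub (hF.diff n) (hG.diff n)
  rw [e]
  exact hF.cont.sub hG.cont

theorem neg {F : E3 → ℝ} (hF : C1S F) : C1S (fun y => - F y) := by
  refine ⟨fun n => (hF.diff n).fun_neg, ?_⟩
  have e : (fun n : S2 => fderiv ℝ (fun y => - F y) n) = fun n : S2 => - fderiv ℝ F n := by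
    funext n
    exact fderiv_fun_neg
  rw [e]
  exact hF.cont.neg

theorem cont0 {F : E3 → ℝ} (hF : C1S F) : Continuous (fun n : S2 => F n) := by
  rw [continuous_iff_continuousAt]
  intro n
  exact ContinuousAt.comp (g := F) (f := fun m : S2 => (m : E3)) (hF.diff n).continuousAt continuous_subtype_val.continuousAt

theorem mul {F G : E3 → ℝ} (hF : C1S F) (hG : C1S G) : C1S (fun y => F y * G y) := by
  refine ⟨fun n => (hF.diff n).fun_mul (hG.diff n), ?_⟩
  have e : (fun n : S2 => fderiv ℝ (fun y => F y * G y) n) = fun n : S2 => F n • fderiv ℝ G n + G n • fderiv ℝ F n := by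
    funext n
    exact fderiv_fun_mul (hF.diff n) (hG.diff n)
  rw [e]
  exact (hF.cont0.smul hG.cont).add (hG.cont0.smul hF.cont)

theorem sum {F : Fin 3 → E3 → ℝ} (hF : ∀ i, C1S (F i)) : C1S (fun y => ∑ i, F i y) := by
  simp only [Fin.sum_univ_three]
  exact ((hF 0).add (hF 1)).add (hF 2)

theorem comp {F : E3 → ℝ} (hF : C1S F) {φ φ' : ℝ → ℝ} (h : ∀ n : S2, HasDerivAt φ (φ' (F n)) (F n))
    (hc : Continuous (fun n : S2 => φ' (F n))) : C1S (fun y => φ (F y)) := by
  have h1 : ∀ n : S2, HasFDerivAt (fun y => φ (F y)) (φ' (F n) • fderiv ℝ F n) (n : E3) := fun n =>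
    (h n).comp_hasFDerivAt (n : E3) (hF.diff n).hasFDerivAt
  refine ⟨fun n => (h1 n).differentiableAt, ?_⟩
  have e : (fun n : S2 => fderiv ℝ (fun y => φ (F y)) n) = fun n : S2 => φ' (F n) • fderiv ℝ F n := by
    funext n
    exact (h1 n).fderiv
  rw [e]
  exact hc.smul hF.cont

theorem rl_cont {F : E3 → ℝ} (hF : C1S F) (j : Fin 3) : Continuous (fun n : S2 => rl j F n) := by
  unfold rl
  have h : Continuous (fun n : S2 => NShell.rotv j (n : E3)) :=
    (rotv_smooth j).continuous.comp continuous_subtype_val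
  exact hF.cont.clm_apply h

end C1S

theorem int_rl1 {F : E3 → ℝ} (hF : C1S F) (j : Fin 3) : ∫ n : S2, rl j F n ∂sm = 0 := by
  exact NullQ.hr_int (F := fun n => F n) (F' := fun j n => rl j F n) (NullQ.hr_val hF.diff) hF.cont0 j (hF.rl_cont j)

end H17S.Sph
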