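import Pool.Agent.Lib.H17S.N0

set_option autoImplicit false

/-!
Chunk N2 (S/M). Linear algebra at a point `n` of the sphere: `cr n v = n × v`, `jm n i j = (n × e_j)_i`, `proj`, tangential matrices (`Tng n M`), the complex number `aC n M = (tr M + i q)/2`, `q = ∑ jm n k l M k l`.
Proof. `cr_apply`: by definition. `sph_sq`: `EuclideanSpace.norm_sq_eq`. `jm_cr`, `jm_anti`, `cr_tan`, `cr_dot_self`: expand (`Fin.sum_univ_three`, `fin_cases`, `ring`; note `(i + 1) + 1 = i + 2` etc. by `fin_cases`). `cr_cr`, `cr_dot`, `jm_jm`, `nsq_cr`: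
`linear_combination` of `sph_sq` and `∑ n_i v_i = 0` (double vector product `n × (n × v) = n (n . v) - v`). `tng_as`: the antisymmetric matrix `M - Mᵀ` is `a ×` with `a × n = 0`, so `a = (a . n) n`, and `∑ jm n k l M k l = a . n`:
with `M - Mᵀ = [a ×]` (`a_i = M (i+2) (i+1) - M (i+1) (i+2)`) and `∑_j (M i j - M j i) n j = 0` for the three `i`. `tng_mj`: `M J = J cf(M)`; proof: `J (Mᵀ) = J (M - q J) = J M + q` hmm, simplest: from `NullU.TC1_A2` (`cf = J M Jᵀ`, see Lib/H17U/TC1.lean;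
`TC1_cf` is `cf`) applied to `a = (n × e_j)`, or by `M J + J Mᵀ = tr M J` (for tangential `M`: `M J + J Mᵀ` is antisymmetric and tangential, so it is `c J` by `tng_as`, `2 c = ∑ jm (M J + J Mᵀ) = 2 tr M`, as `J Jᵀ = proj`).
`tng_ch` is `NullU.NA4_CH`. `dtB_eq`: `2 dtB M = p^2 - tr M^2` (`p = tr M`), `∑ M_ij M_ji = ∑ M_ij^2 - (1/2) ∑ (M_ij - M_ji)^2 = ∑ M_ij^2 - q^2` (by `tng_as`, `∑ jm^2 = 2`), and
`∑ (M_ij - (p/2) proj - (q/2) jm)^2 = ∑ M_ij^2 - p^2/2 - q^2/2` (`∑ M proj = p`, `∑ M jm = q`, `∑ proj^2 = ∑ jm^2 = 2`, `∑ proj jm = 0`).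
-/

open MeasureTheory Filter Topology Set
open scoped ContDiff ComplexConjugate

namespace H17S.Sph

open NullPen (E3 S2 sm proj)
open NullU (rl crs dtB Tng cf)

theorem cr_apply (n : E3) (v : Fin 3 → ℝ) (i : Fin 3) : cr n v i = n (i + 1) * v (i + 2) - n (i + 2) * v (i + 1) := rfl

theorem n2_fin (i : Fin 3) : i = 0 ∨ i = 1 ∨ i = 2 := by
  fin_cases i <;> simp

theorem n2_c0 (n : E3) (v : Fin 3 → ℝ) : cr n v 0 = n 1 * v 2 - n 2 * v 1 := rfl

theorem n2_c1 (n : E3) (v : Fin 3 → ℝ) : cr n v 1 = n 2 * v 0 - n 0 * v 2 := rfl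

theorem n2_c2 (n : E3) (v : Fin 3 → ℝ) : cr n v 2 = n 0 * v 1 - n 1 * v 0 := rfl

theorem n2_j00 (n : E3) : jm n 0 0 = 0 := by
  unfold jm
  rw [n2_c0]
  simp

theorem n2_j01 (n : E3) : jm n 0 1 = - n 2 := by
  unfold jm
  rw [n2_c0]
  simp

theorem n2_j02 (n : E3) : jm n 0 2 = n 1 := by
  unfold jm
  rw [n2_c0]
  simp

theorem n2_j10 (n : E3) : jm n 1 0 = n 2 := by
  unfold jm
  rw [n2_c1]
  simp

theorem n2_j11 (n : E3) : jm n 1 1 = 0 := by
  unfold jm
  rw [n2_c1]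
  simp

theorem n2_j12 (n : E3) : jm n 1 2 = - n 0 := by
  unfold jm
  rw [n2_c1]
  simp

theorem n2_j20 (n : E3) : jm n 2 0 = - n 1 := by
  unfold jm
  rw [n2_c2]
  simp

theorem n2_j21 (n : E3) : jm n 2 1 = n 0 := by
  unfold jm
  rw [n2_c2]
  simp

theorem n2_j22 (n : E3) : jm n 2 2 = 0 := by
  unfold jm
  rw [n2_c2]
  simp

theorem n2_p00 (n : E3) : proj n 0 0 = 1 - n 0 * n 0 := by simp [proj]

theorem n2_p01 (n : E3) : proj n 0 1 = - (n 0 * n 1) := by simp [proj]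

theorem n2_p02 (n : E3) : proj n 0 2 = - (n 0 * n 2) := by simp [proj]

theorem n2_p10 (n : E3) : proj n 1 0 = - (n 1 * n 0) := by simp [proj]

theorem n2_p11 (n : E3) : proj n 1 1 = 1 - n 1 * n 1 := by simp [proj]

theorem n2_p12 (n : E3) : proj n 1 2 = - (n 1 * n 2) := by simp [proj]

theorem n2_p20 (n : E3) : proj n 2 0 = - (n 2 * n 0) := by simp [proj]

theorem n2_p21 (n : E3) : proj n 2 1 = - (n 2 * n 1) := by simp [proj]

theorem n2_p22 (n : E3) : proj n 2 2 = 1 - n 2 * n 2 := by simp [proj]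

theorem sph_sq (n : S2) : (n : E3) 0 ^ 2 + (n : E3) 1 ^ 2 + (n : E3) 2 ^ 2 = 1 := by
  have h1 : ‖(n : E3)‖ = 1 := by simp
  have h2 := EuclideanSpace.norm_sq_eq (n : E3)
  rw [h1, Fin.sum_univ_three] at h2
  simp only [Real.norm_eq_abs, sq_abs] at h2
  linarith

theorem jm_cr (n : E3) (v : Fin 3 → ℝ) (i : Fin 3) : ∑ j, jm n i j * v j = cr n v i := by
  rw [Fin.sum_univ_three]
  rcases n2_fin i with rfl | rfl | rfl
  · rw [n2_j00, n2_j01, n2_j02, n2_c0]; ring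
  · rw [n2_j10, n2_j11, n2_j12, n2_c1]; ring
  · rw [n2_j20, n2_j21, n2_j22, n2_c2]; ring

theorem jm_cr' (n : E3) (v : Fin 3 → ℝ) (j : Fin 3) : ∑ i, jm n i j * v i = - cr n v j := by
  rw [Fin.sum_univ_three]
  rcases n2_fin j with rfl | rfl | rfl
  · rw [n2_j00, n2_j10, n2_j20, n2_c0]; ring
  · rw [n2_j01, n2_j11, n2_j21, n2_c1]; ring
  · rw [n2_j02, n2_j12, n2_j22, n2_c2]; ring

theorem jm_anti (n : E3) (i j : Fin 3) : jm n j i = - jm n i j := by
  rcases n2_fin i with rfl | rfl | rfl <;> rcases n2_fin j with rfl | rfl | rfl <;>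
    simp only [n2_j00, n2_j01, n2_j02, n2_j10, n2_j11, n2_j12, n2_j20, n2_j21, n2_j22] <;> ring

theorem jm_n (n : E3) (i : Fin 3) : ∑ j, jm n i j * n j = 0 := by
  rw [jm_cr n (fun k => n k) i]
  rcases n2_fin i with rfl | rfl | rfl
  · rw [n2_c0]; ring
  · rw [n2_c1]; ring
  · rw [n2_c2]; ring

theorem jm_n' (n : E3) (j : Fin 3) : ∑ i, n i * jm n i j = 0 := by
  have h := jm_n n j
  have e : ∑ i, n i * jm n i j = - ∑ i, jm n j i * n i := by
    rw [← Finset.sum_neg_distrib]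
    apply Finset.sum_congr rfl
    intro i _
    rw [jm_anti n j i]
    ring
  rw [e, h, neg_zero]

theorem jm_jm (n : S2) (i j : Fin 3) : ∑ k, jm n i k * jm n j k = proj n i j := by
  have h := sph_sq n
  rw [Fin.sum_univ_three]
  rcases n2_fin i with rfl | rfl | rfl <;> rcases n2_fin j with rfl | rfl | rfl <;>
    simp only [n2_j00, n2_j01, n2_j02, n2_j10, n2_j11, n2_j12, n2_j20, n2_j21, n2_j22, n2_p00, n2_p01, n2_p02,
      n2_p10, n2_p11, n2_p12, n2_p20, n2_p21, n2_p22] <;> first | ring1 | linear_combination h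

theorem jm_jm' (n : S2) (i j : Fin 3) : ∑ k, jm n k i * jm n k j = proj n i j := by
  rw [← jm_jm n i j]
  apply Finset.sum_congr rfl
  intro k _
  rw [jm_anti n i k, jm_anti n j k]
  ring

theorem proj_symm (n : E3) (i j : Fin 3) : proj n i j = proj n j i := by
  rcases n2_fin i with rfl | rfl | rfl <;> rcases n2_fin j with rfl | rfl | rfl <;>
    simp only [n2_p00, n2_p01, n2_p02, n2_p10, n2_p11, n2_p12, n2_p20, n2_p21, n2_p22] <;> ring

theorem n2_proj_v (n : E3) (v : Fin 3 → ℝ) (i : Fin 3) : ∑ j, proj n i j * v j = v i - n i * ∑ j, n j * v j := by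
  rw [Fin.sum_univ_three, Fin.sum_univ_three]
  rcases n2_fin i with rfl | rfl | rfl <;>
    simp only [n2_p00, n2_p01, n2_p02, n2_p10, n2_p11, n2_p12, n2_p20, n2_p21, n2_p22] <;> ring

theorem proj_vec (n : E3) {v : Fin 3 → ℝ} (hv : ∑ i, n i * v i = 0) (i : Fin 3) : ∑ j, proj n i j * v j = v i := by
  rw [n2_proj_v, hv]
  ring

theorem proj_tng (n : S2) : Tng n (proj n) := by
  have h := sph_sq n
  have h1 : ∀ i, ∑ j, proj n i j * (n : E3) j = 0 := by
    intro i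
    rw [n2_proj_v (n : E3) (fun j => (n : E3) j) i, Fin.sum_univ_three]
    linear_combination (-(n : E3) i) * h
  refine ⟨h1, fun j => ?_⟩
  rw [← h1 j]
  apply Finset.sum_congr rfl
  intro i _
  rw [proj_symm]
  ring

theorem jm_tng (n : E3) : Tng n (jm n) := ⟨jm_n n, jm_n' n⟩

theorem cr_tan (n : E3) (v : Fin 3 → ℝ) : ∑ i, n i * cr n v i = 0 := by
  rw [Fin.sum_univ_three, n2_c0, n2_c1, n2_c2]
  ring

theorem cr_cr' (n : S2) (v : Fin 3 → ℝ) (i : Fin 3) : cr n (cr n v) i = - ∑ j, proj n i j * v j := by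
  have h := sph_sq n
  rw [n2_proj_v, Fin.sum_univ_three]
  rcases n2_fin i with rfl | rfl | rfl
  · rw [n2_c0, n2_c1, n2_c2]
    linear_combination (-v 0) * h
  · rw [n2_c1, n2_c0, n2_c2]
    linear_combination (-v 1) * h
  · rw [n2_c2, n2_c0, n2_c1]
    linear_combination (-v 2) * h

theorem cr_cr (n : S2) {v : Fin 3 → ℝ} (hv : ∑ i, (n : E3) i * v i = 0) (i : Fin 3) : cr n (cr n v) i = - v i := by
  rw [cr_cr', proj_vec _ hv]

theorem cr_dot_self (n : E3) (v : Fin 3 → ℝ) : ∑ i, cr n v i * v i = 0 := by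
  rw [Fin.sum_univ_three, n2_c0, n2_c1, n2_c2]
  ring

theorem cr_dot (n : S2) {v : Fin 3 → ℝ} (hv : ∑ i, (n : E3) i * v i = 0) (w : Fin 3 → ℝ) :
    ∑ i, cr n v i * cr n w i = ∑ i, v i * w i := by
  have h := sph_sq n
  rw [Fin.sum_univ_three] at hv
  rw [Fin.sum_univ_three, Fin.sum_univ_three, n2_c0, n2_c1, n2_c2, n2_c0, n2_c1, n2_c2]
  linear_combination (v 0 * w 0 + v 1 * w 1 + v 2 * w 2) * h -
    ((n : E3) 0 * w 0 + (n : E3) 1 * w 1 + (n : E3) 2 * w 2) * hv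

theorem nsq_cr (n : S2) {v : Fin 3 → ℝ} (hv : ∑ i, (n : E3) i * v i = 0) : nsq (cr n v) = nsq v := by
  have h := cr_dot n hv v
  unfold nsq
  calc ∑ i, cr n v i ^ 2 = ∑ i, cr n v i * cr n v i := Finset.sum_congr rfl fun i _ => pow_two _
    _ = ∑ i, v i * v i := h
    _ = ∑ i, v i ^ 2 := Finset.sum_congr rfl fun i _ => (pow_two _).symm

theorem n2_q (n : E3) (M : Fin 3 → Fin 3 → ℝ) : ∑ k, ∑ l, jm n k l * M k l =
    n 0 * (M 2 1 - M 1 2) + n 1 * (M 0 2 - M 2 0) + n 2 * (M 1 0 - M 0 1) := by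
  simp only [Fin.sum_univ_three, n2_j00, n2_j01, n2_j02, n2_j10, n2_j11, n2_j12, n2_j20, n2_j21, n2_j22]
  ring

/-- Antisymmetric part of a tangential matrix. -/
theorem tng_as (n : S2) {M : Fin 3 → Fin 3 → ℝ} (hM : Tng n M) (i j : Fin 3) :
    M i j - M j i = (∑ k, ∑ l, jm n k l * M k l) * jm n i j := by
  have h := sph_sq n
  have r0 := hM.r 0
  have r1 := hM.r 1
  have r2 := hM.r 2
  have l0 := hM.l 0
  have l1 := hM.l 1
  have l2 := hM.l 2
  rw [Fin.sum_univ_three] at r0 r1 r2 l0 l1 l2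
  rw [n2_q]
  set x := (n : E3) 0
  set y := (n : E3) 1
  set z := (n : E3) 2
  have E0 : -(M 1 0 - M 0 1) * y + (M 0 2 - M 2 0) * z = 0 := by linear_combination r0 - l0
  have E1 : (M 1 0 - M 0 1) * x - (M 2 1 - M 1 2) * z = 0 := by linear_combination r1 - l1
  have E2 : -(M 0 2 - M 2 0) * x + (M 2 1 - M 1 2) * y = 0 := by linear_combination r2 - l2
  have A0 : M 2 1 - M 1 2 = (x * (M 2 1 - M 1 2) + y * (M 0 2 - M 2 0) + z * (M 1 0 - M 0 1)) * x := by
    linear_combination (-(M 2 1 - M 1 2)) * h + y * E2 - z * E1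
  have A1 : M 0 2 - M 2 0 = (x * (M 2 1 - M 1 2) + y * (M 0 2 - M 2 0) + z * (M 1 0 - M 0 1)) * y := by
    linear_combination (-(M 0 2 - M 2 0)) * h + z * E0 - x * E2
  have A2 : M 1 0 - M 0 1 = (x * (M 2 1 - M 1 2) + y * (M 0 2 - M 2 0) + z * (M 1 0 - M 0 1)) * z := by
    linear_combination (-(M 1 0 - M 0 1)) * h + x * E1 - y * E0
  rcases n2_fin i with rfl | rfl | rfl <;> rcases n2_fin j with rfl | rfl | rfl <;>
    simp only [n2_j00, n2_j01, n2_j02, n2_j10, n2_j11, n2_j12, n2_j20, n2_j21, n2_j22]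
  · ring
  · linear_combination (-1) * A2
  · linear_combination A1
  · linear_combination A2
  · ring
  · linear_combination (-1) * A0
  · linear_combination (-1) * A1
  · linear_combination A0
  · ring

theorem n2_trp (n : S2) {M : Fin 3 → Fin 3 → ℝ} (hM : Tng n M) : ∑ i, ∑ j, M i j * proj n j i = ∑ i, M i i := by
  apply Finset.sum_congr rfl
  intro i _
  have h1 : ∑ j, M i j * proj n j i = ∑ j, proj n i j * M i j := by
    apply Finset.sum_congr rfl
    intro j _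
    rw [proj_symm]
    ring
  rw [h1]
  have h2 : ∑ j, (n : E3) j * M i j = 0 := by
    rw [← hM.r i]
    apply Finset.sum_congr rfl
    intro j _
    ring
  exact proj_vec (n : E3) (v := fun j => M i j) h2 i

/-- `M J = J cf(M)`. -/
theorem tng_mj (n : S2) {M : Fin 3 → Fin 3 → ℝ} (hM : Tng n M) (k j : Fin 3) :
    ∑ i, M k i * jm n i j = ∑ i, jm n k i * cf n M i j := by
  have hN : Tng n (fun a b => ∑ i, M a i * jm n i b) := by
    constructor
    · intro a
      have e : ∑ b, (∑ i, M a i * jm n i b) * (n : E3) b = ∑ i, M a i * ∑ b, jm n i b * (n : E3) b := by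
        simp only [Finset.sum_mul, Finset.mul_sum]
        rw [Finset.sum_comm]
        refine Finset.sum_congr rfl fun i _ => Finset.sum_congr rfl fun b _ => ?_
        ring
      show ∑ b, (∑ i, M a i * jm n i b) * (n : E3) b = 0
      rw [e]
      apply Finset.sum_eq_zero
      intro i _
      rw [jm_n, mul_zero]
    · intro b
      have e : ∑ a, (n : E3) a * (∑ i, M a i * jm n i b) = ∑ i, (∑ a, (n : E3) a * M a i) * jm n i b := by
        simp only [Finset.sum_mul, Finset.mul_sum]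
        rw [Finset.sum_comm]
        refine Finset.sum_congr rfl fun i _ => Finset.sum_congr rfl fun a _ => ?_
        ring
      show ∑ a, (n : E3) a * (∑ i, M a i * jm n i b) = 0
      rw [e]
      apply Finset.sum_eq_zero
      intro i _
      rw [hM.l, zero_mul]
  have h1 := tng_as n hN k j
  have h2 : ∑ a, ∑ b, jm n a b * (∑ i, M a i * jm n i b) = ∑ i, M i i := by
    rw [← n2_trp n hM]
    apply Finset.sum_congr rfl
    intro a _
    have e : ∑ b, jm n a b * (∑ i, M a i * jm n i b) = ∑ i, M a i * ∑ b, jm n i b * jm n a b := by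
      simp only [Finset.mul_sum]
      rw [Finset.sum_comm]
      refine Finset.sum_congr rfl fun i _ => Finset.sum_congr rfl fun b _ => ?_
      ring
    rw [e]
    apply Finset.sum_congr rfl
    intro i _
    rw [jm_jm]
  rw [h2] at h1
  have h3 : ∑ i, jm n k i * cf n M i j = (∑ i, M i i) * (∑ i, jm n k i * proj n i j) + ∑ i, M j i * jm n i k := by
    rw [Finset.mul_sum, ← Finset.sum_add_distrib]
    apply Finset.sum_congr rfl
    intro i _
    unfold cf
    rw [jm_anti n k i]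
    ring
  have h4 : ∑ i, jm n k i * proj n i j = jm n k j := by
    have e : ∑ i, jm n k i * proj n i j = ∑ i, proj n j i * jm n k i := by
      apply Finset.sum_congr rfl
      intro i _
      rw [proj_symm]
      ring
    rw [e]
    have h5 : ∑ i, (n : E3) i * jm n k i = 0 := by
      rw [← jm_n n k]
      apply Finset.sum_congr rfl
      intro i _
      ring
    exact proj_vec (n : E3) (v := fun i => jm n k i) h5 j
  rw [h3, h4]
  have h6 : (∑ i, M k i * jm n i j) - (∑ i, M j i * jm n i k) = (∑ i, M i i) * jm n k j := h1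
  linarith

/-- Cayley-Hamilton. -/
theorem tng_ch (n : S2) {M : Fin 3 → Fin 3 → ℝ} (hM : Tng n M) (i j : Fin 3) :
    ∑ k, M i k * M k j = (∑ k, M k k) * M i j - dtB M * proj n i j :=
  NullU.NA4_CH (by simp) hM i j

theorem aC_sq (n : E3) (M : Fin 3 → Fin 3 → ℝ) :
    ‖aC n M‖ ^ 2 = ((∑ i, M i i) ^ 2 + (∑ i, ∑ j, jm n i j * M i j) ^ 2) / 4 := by
  unfold aC
  generalize (∑ i, M i i) = a
  generalize (∑ i, ∑ j, jm n i j * M i j) = b
  rw [← Complex.normSq_eq_norm_sq, Complex.normSq_div, Complex.normSq_add_mul_I]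
  norm_num [Complex.normSq]

theorem dtB_eq (n : S2) {M : Fin 3 → Fin 3 → ℝ} (hM : Tng n M) :
    dtB M = ‖aC n M‖ ^ 2 - (1 / 2) * ∑ i, ∑ j, (M i j - (∑ k, M k k) / 2 * proj n i j -
      (∑ k, ∑ l, jm n k l * M k l) / 2 * jm n i j) ^ 2 := by
  rw [aC_sq]
  unfold dtB
  have S1 : ∑ i, ∑ j, M i j * proj n i j = ∑ i, M i i := by
    rw [← n2_trp n hM]
    refine Finset.sum_congr rfl fun i _ => Finset.sum_congr rfl fun j _ => ?_
    rw [proj_symm]
  have h := sph_sq n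
  have S2 : ∑ i, ∑ j, proj n i j ^ 2 = 2 := by
    simp only [Fin.sum_univ_three, n2_p00, n2_p01, n2_p02, n2_p10, n2_p11, n2_p12, n2_p20, n2_p21, n2_p22]
    linear_combination ((n : E3) 0 ^ 2 + (n : E3) 1 ^ 2 + (n : E3) 2 ^ 2 - 1) * h
  have S3 : ∑ i, ∑ j, jm n i j ^ 2 = 2 := by
    simp only [Fin.sum_univ_three, n2_j00, n2_j01, n2_j02, n2_j10, n2_j11, n2_j12, n2_j20, n2_j21, n2_j22]
    linear_combination 2 * h
  have S4 : ∑ i, ∑ j, proj n i j * jm n i j = 0 := by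
    simp only [Fin.sum_univ_three, n2_j00, n2_j01, n2_j02, n2_j10, n2_j11, n2_j12, n2_j20, n2_j21, n2_j22,
      n2_p00, n2_p01, n2_p02, n2_p10, n2_p11, n2_p12, n2_p20, n2_p21, n2_p22]
    ring
  have hq : ∑ i, ∑ j, M i j * jm n i j = ∑ k, ∑ l, jm n k l * M k l :=
    Finset.sum_congr rfl fun i _ => Finset.sum_congr rfl fun j _ => mul_comm _ _
  have has : ∑ i, ∑ j, (M i j - M j i) ^ 2 = 2 * (∑ k, ∑ l, jm n k l * M k l) ^ 2 := by
    have e : ∀ i j, (M i j - M j i) ^ 2 = (∑ k, ∑ l, jm n k l * M k l) ^ 2 * jm n i j ^ 2 := fun i j => by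
      rw [tng_as n hM i j, mul_pow]
    simp only [e, ← Finset.mul_sum]
    rw [S3]
    ring
  generalize (∑ k, ∑ l, jm n k l * M k l) = q at hq has ⊢
  generalize hp : (∑ i, M i i) = p at S1 ⊢
  have e1 : ∑ i, ∑ j, (M i j - M j i) ^ 2 = 2 * ∑ i, ∑ j, M i j ^ 2 - 2 * ∑ i, ∑ j, M i j * M j i := by
    have e2 : ∑ i, ∑ j, M j i ^ 2 = ∑ i, ∑ j, M i j ^ 2 := Finset.sum_comm
    have e3 : ∑ i, ∑ j, (M i j - M j i) ^ 2 = ∑ i, ∑ j, (M i j ^ 2 + M j i ^ 2 - 2 * (M i j * M j i)) :=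
      Finset.sum_congr rfl fun i _ => Finset.sum_congr rfl fun j _ => by ring
    rw [e3]
    simp only [Finset.sum_sub_distrib, Finset.sum_add_distrib, ← Finset.mul_sum]
    rw [e2]
    ring
  have e4 : ∑ i, ∑ j, (M i j - p / 2 * proj n i j - q / 2 * jm n i j) ^ 2 =
      ∑ i, ∑ j, M i j ^ 2 - p * ∑ i, ∑ j, M i j * proj n i j - q * ∑ i, ∑ j, M i j * jm n i j +
      p ^ 2 / 4 * ∑ i, ∑ j, proj n i j ^ 2 + q ^ 2 / 4 * ∑ i, ∑ j, jm n i j ^ 2 +
      p * q / 2 * ∑ i, ∑ j, proj n i j * jm n i j := by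
    simp only [Finset.mul_sum, ← Finset.sum_sub_distrib, ← Finset.sum_add_distrib]
    refine Finset.sum_congr rfl fun i _ => Finset.sum_congr rfl fun j _ => ?_
    ring
  rw [e4, S1, S2, S3, S4, hq]
  rw [e1] at has
  linarith

theorem dtB_le (n : S2) {M : Fin 3 → Fin 3 → ℝ} (hM : Tng n M) : dtB M ≤ ‖aC n M‖ ^ 2 := by
  rw [dtB_eq n hM]
  have h : 0 ≤ ∑ i, ∑ j, (M i j - (∑ k, M k k) / 2 * proj n i j -
      (∑ k, ∑ l, jm n k l * M k l) / 2 * jm n i j) ^ 2 :=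
    Finset.sum_nonneg fun i _ => Finset.sum_nonneg fun j _ => sq_nonneg _
  linarith

end H17S.Sph
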