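import Pool.Agent.Lib.H17S.N1
import Pool.Agent.Lib.H17S.N2

set_option autoImplicit false

/-!
Chunk N3 (M). The covariant derivative `DV` of a tangent field, at a point `n` of the sphere. `dcomp V n k i = ∑_j jm n j i L_j V_k` (ambient derivative of `V_k` in the direction of the projection of `e_i`), `DV = proj dcomp`.
Facts used (`A_jk := rl j (fun y => V y k) n`): (f1) `∑_j n_j A_jk = 0` (`rl_rad`); (f2) `∑_k A_jk n_k = (V × n)_j = - cr n (V n) j`: derivative of `∑ y_k V_k(y) = 0` on the sphere (`rl_congr` with the constant `0`, `rl_sum`, `rl_mul`, `rl_coord`).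
`DV_tng`: rows `∑_i jm n j i n_i = 0` (`jm_n`), columns `proj_tng`. `DV_eq`: `DV_ki = dcomp_ki - n_k ∑_l n_l dcomp_li` and `∑_l n_l dcomp_li = - ∑_j jm_ji cr n V j = - V_i` (`jm_cr'`, `cr_cr`): so `DV_ki = dcomp_ki + n_k V_i`.
`rl_DV` (inverse): `∑_i jm_ji dcomp_ki = ∑_i,m jm_ji jm_mi A_mk = ∑_m proj_jm A_mk = A_jk` (`jm_jm`, f1). `DV_tr`: `∑_i DV_ii = ∑_j,i jm_ji A_ji` (`∑ n_i V_i = 0`); `dv V n = ∑_j L_j (y × V)_j = ∑_j [(e_j × n) × V]_j + ∑_j (n × A_j)_j`; the first sum is
`n . V - 3 n . V = 0` (by expansion: `rl_mul`, `rl_coord`), `(n × A_j)_j = ∑_i jm_ji A_ji`. `DV_jm`: `∑_ki jm_ki DV_ki = ∑_k,i,m jm_ki jm_mi A_mk = ∑ proj_km A_mk = ∑_k A_kk`, `∑ jm_ki n_k V_i = 0`. `aC_DV`: these two.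
`dir_V`: `∑_i dcomp_ki t_i = ∑_j (n × t)_j A_jk` (`jm_cr`), `DV_eq`. `gd_nsq`: `gd (nsq V) i = ∑_j jm_ji 2 ∑_k V_k A_jk = 2 ∑_k V_k dcomp_ki`; `wv_eq`: with `DV_eq`, `∑_k V_k n_k = 0`. `wv_tan`: `gd_tan`. `DV_V`: `tng_as` (`M V = Mᵀ V + q J V`).
`DV_JV`: `tng_mj` : `M J V = J cf(M) V = J (p V - Mᵀ V)` (`cf n M i j = p proj - M j i`, `proj V = V`). `b1`: `p V - q J V - w = p V - M V` (by `DV_V`), so the left side is `∑ (Mᵀ V)_i (p V - M V)_i = V . (p M - M M) V = dtB M V . proj V` (`tng_ch`).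
`DV_comb`: `L_j (a V_l + b (y × V)_l) = V_l L_j a + a A_jl + (n × V)_l L_j b + b (n_l V_j + ∑_m jm_lm A_jm)` (`((e_j × n) × V)_l = n_l V_j - δ_jl n . V`); multiply with `jm_ji`, sum over `j`, project: `proj n = 0`. `∑_l proj_kl jm_lm = jm_km`, and
`∑_m jm_km dcomp_mi = ∑_m jm_km DV_mi` (`DV_eq`, `jm_n`). `pair_DV`: `L_j (y × Λ)_k = n_k Λ_j + ∑_l jm_kl A_jl` (`n . Λ = 0`), `∑_k n_k M_kj = 0`, `A_jl = ∑_i jm_ji dcomp_li`, so the left side is `∑_li (∑_kj jm_kl M_kj jm_ji) DΛ_li`, and
`∑_kj jm_kl M_kj jm_ji = cf n M l i` (`tng_mj`, `jm_jm'`, `cf` is tangential: `NullU.cf_tng`).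
-/

open MeasureTheory Filter Topology Set
open scoped ContDiff ComplexConjugate

namespace H17S.Sph

open NullPen (E3 S2 sm proj)
open NullU (rl crs dtB Tng cf)

variable {V : E3 → Fin 3 → ℝ}

theorem n3_coord (n : E3) (v : Fin 3 → ℝ) (j : Fin 3) : ∑ k, rl j (fun y => y k) n * v k = cr n v j := by
  have e : ∀ k, rl j (fun y => y k) n = n (j + 1) * (if j + 2 = k then 1 else 0) - n (j + 2) * (if j + 1 = k then 1 else 0) :=
    fun k => rl_coord n k j
  simp only [e]
  rw [cr_apply, Fin.sum_univ_three]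
  rcases n2_fin j with rfl | rfl | rfl
  · simp; ring
  · simp; ring
  · simp; ring

theorem n3_dcoord (x : E3) (k : Fin 3) : DifferentiableAt ℝ (fun y : E3 => y k) x := by
  fun_prop

/-- (f2) -/
theorem rl_n (hV : TD V) (n : S2) (j : Fin 3) : ∑ k, rl j (fun y => V y k) n * (n : E3) k = - cr n (V n) j := by
  have hd : ∀ k, DifferentiableAt ℝ (fun y : E3 => y k * V y k) (n : E3) := fun k =>
    (n3_dcoord _ k).mul (hV.diff n k)
  have h1 : rl j (fun y => ∑ k, y k * V y k) (n : E3) = rl j (fun _ => (0 : ℝ)) (n : E3) := by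
    apply rl_congr
    · intro m
      exact hV.tan m
    · exact DifferentiableAt.fun_sum fun k _ => hd k
    · exact differentiableAt_const _
  rw [rl_const, rl_sum hd] at h1
  have h2 : ∀ k, rl j (fun y => y k * V y k) (n : E3) =
      rl j (fun y => y k) n * V n k + (n : E3) k * rl j (fun y => V y k) n := fun k =>
    rl_mul (n3_dcoord _ k) (hV.diff n k) j
  simp only [h2, Finset.sum_add_distrib] at h1
  rw [n3_coord (n : E3) (V n) j] at h1
  have h3 : ∑ k, rl j (fun y => V y k) n * (n : E3) k = ∑ k, (n : E3) k * rl j (fun y => V y k) n :=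
    Finset.sum_congr rfl fun k _ => mul_comm _ _
  rw [h3]
  linarith

theorem gd_dot (F : E3 → ℝ) (n : E3) (t : Fin 3 → ℝ) : ∑ i, t i * gd F n i = ∑ j, cr n t j * rl j F n := by
  have h : ∀ j, cr n t j = ∑ i, jm n j i * t i := fun j => (jm_cr n t j).symm
  simp only [h, gd, Finset.mul_sum, Finset.sum_mul]
  rw [Finset.sum_comm]
  refine Finset.sum_congr rfl fun i _ => Finset.sum_congr rfl fun j _ => ?_
  ring

theorem gd_tan (F : E3 → ℝ) (n : E3) : ∑ i, n i * gd F n i = 0 := by
  rw [gd_dot F n (fun i => n i)]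
  apply Finset.sum_eq_zero
  intro j _
  rw [← jm_cr n (fun i => n i) j, jm_n, zero_mul]

theorem n3_ndcomp (hV : TD V) (n : S2) (i : Fin 3) : ∑ l, (n : E3) l * dcomp V n l i = - V n i := by
  have h1 : ∑ l, (n : E3) l * dcomp V n l i = ∑ j, jm n j i * ∑ l, rl j (fun y => V y l) n * (n : E3) l := by
    simp only [dcomp, Finset.mul_sum]
    rw [Finset.sum_comm]
    refine Finset.sum_congr rfl fun i _ => Finset.sum_congr rfl fun j _ => ?_
    ring
  rw [h1]
  simp only [rl_n hV]
  have h2 : ∑ j, jm n j i * -cr n (V n) j = - ∑ j, jm n j i * cr n (V n) j := by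
    rw [← Finset.sum_neg_distrib]
    exact Finset.sum_congr rfl fun j _ => by ring
  rw [h2, jm_cr', neg_neg, cr_cr n (hV.tan n)]

theorem DV_eq (hV : TD V) (n : S2) (k i : Fin 3) : DV V n k i = dcomp V n k i + (n : E3) k * V n i := by
  unfold DV
  rw [n2_proj_v (n : E3) (fun l => dcomp V n l i) k, n3_ndcomp hV n i]
  ring

theorem rl_DV (n : S2) (j k : Fin 3) : rl j (fun y => V y k) n = ∑ i, jm n j i * dcomp V n k i := by
  have h1 : ∑ i, jm n j i * dcomp V n k i = ∑ m, (∑ i, jm n j i * jm n m i) * rl m (fun y => V y k) n := by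
    simp only [dcomp, Finset.mul_sum, Finset.sum_mul]
    rw [Finset.sum_comm]
    refine Finset.sum_congr rfl fun i _ => Finset.sum_congr rfl fun j _ => ?_
    ring
  rw [h1]
  simp only [jm_jm]
  rw [n2_proj_v (n : E3) (fun m => rl m (fun y => V y k) n) j, rl_rad]
  ring

theorem DV_tng (V : E3 → Fin 3 → ℝ) (n : S2) : Tng n (DV V n) := by
  constructor
  · intro k
    have h1 : ∀ l, ∑ i, dcomp V n l i * (n : E3) i = 0 := by
      intro l
      have e : ∑ i, dcomp V n l i * (n : E3) i = ∑ j, (∑ i, jm n j i * (n : E3) i) * rl j (fun y => V y l) n := by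
        simp only [dcomp, Finset.sum_mul]
        rw [Finset.sum_comm]
        refine Finset.sum_congr rfl fun i _ => Finset.sum_congr rfl fun j _ => ?_
        ring
      rw [e]
      apply Finset.sum_eq_zero
      intro j _
      rw [jm_n, zero_mul]
    have e : ∑ i, DV V n k i * (n : E3) i = ∑ l, proj n k l * ∑ i, dcomp V n l i * (n : E3) i := by
      simp only [DV, Finset.mul_sum, Finset.sum_mul]
      rw [Finset.sum_comm]
      refine Finset.sum_congr rfl fun i _ => Finset.sum_congr rfl fun j _ => ?_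
      ring
    rw [e]
    apply Finset.sum_eq_zero
    intro l _
    rw [h1, mul_zero]
  · intro i
    have e : ∑ k, (n : E3) k * DV V n k i = ∑ l, (∑ k, (n : E3) k * proj n k l) * dcomp V n l i := by
      simp only [DV, Finset.mul_sum, Finset.sum_mul]
      rw [Finset.sum_comm]
      refine Finset.sum_congr rfl fun i _ => Finset.sum_congr rfl fun j _ => ?_
      ring
    rw [e]
    apply Finset.sum_eq_zero
    intro l _
    rw [(proj_tng n).l, zero_mul]

/-- derivative of `y × V` -/
theorem n3_rlcr (hV : TD V) (n : S2) (j k : Fin 3) : rl j (fun y => cr y (V y) k) n =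
    (n : E3) k * V n j + ∑ l, jm n k l * rl j (fun y => V y l) n := by
  have ht := hV.tan n
  rw [Fin.sum_univ_three] at ht
  rw [jm_cr (n : E3) (fun l => rl j (fun y => V y l) n) k]
  have h1 : rl j (fun y => cr y (V y) k) (n : E3) =
      (rl j (fun y => y (k + 1)) n * V n (k + 2) + (n : E3) (k + 1) * rl j (fun y => V y (k + 2)) n) -
      (rl j (fun y => y (k + 2)) n * V n (k + 1) + (n : E3) (k + 2) * rl j (fun y => V y (k + 1)) n) := by
    rw [← rl_mul (n3_dcoord _ _) (hV.diff n _), ← rl_mul (n3_dcoord _ _) (hV.diff n _), ← rl_sub]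
    · rfl
    · exact (n3_dcoord _ _).mul (hV.diff n _)
    · exact (n3_dcoord _ _).mul (hV.diff n _)
  rw [h1, rl_coord, rl_coord]
  rcases n2_fin j with rfl | rfl | rfl <;> rcases n2_fin k with rfl | rfl | rfl
  · rw [n2_c0]; simp; linear_combination (-1) * ht
  · rw [n2_c1]; simp; ring
  · rw [n2_c2]; simp; ring
  · rw [n2_c0]; simp; ring
  · rw [n2_c1]; simp; linear_combination (-1) * ht
  · rw [n2_c2]; simp; ring
  · rw [n2_c0]; simp; ring
  · rw [n2_c1]; simp; ring
  · rw [n2_c2]; simp; linear_combination (-1) * ht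

theorem DV_tr (hV : TD V) (n : S2) : ∑ i, DV V n i i = dv V n := by
  have h1 : ∑ i, DV V n i i = ∑ i, dcomp V n i i := by
    simp only [DV_eq hV, Finset.sum_add_distrib]
    rw [hV.tan n, add_zero]
  have h2 : dv V n = ∑ j, ∑ l, jm n j l * rl j (fun y => V y l) n := by
    unfold dv
    simp only [n3_rlcr hV, Finset.sum_add_distrib]
    rw [hV.tan n, zero_add]
  rw [h1, h2]
  simp only [dcomp]
  rw [Finset.sum_comm]

theorem DV_jm (hV : TD V) (n : S2) : ∑ i, ∑ j, jm n i j * DV V n i j = cl V n := by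
  have h1 : ∀ i, ∑ j, jm n i j * DV V n i j = ∑ j, jm n i j * dcomp V n i j + ∑ j, (n : E3) i * jm n i j * V n j := by
    intro i
    rw [← Finset.sum_add_distrib]
    refine Finset.sum_congr rfl fun j _ => ?_
    rw [DV_eq hV]
    ring
  simp only [h1, Finset.sum_add_distrib, ← rl_DV]
  have h2 : ∑ i, ∑ j, (n : E3) i * jm n i j * V n j = 0 := by
    rw [Finset.sum_comm]
    apply Finset.sum_eq_zero
    intro j _
    rw [← Finset.sum_mul, jm_n', zero_mul]
  rw [h2, add_zero]
  rfl

theorem aC_DV (hV : TD V) (n : S2) : aC n (DV V n) = alD V n := by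
  unfold aC alD
  rw [DV_tr hV, DV_jm hV]

/-- Derivative of the components in the direction `t`. -/
theorem dir_V (hV : TD V) (n : S2) (t : Fin 3 → ℝ) (k : Fin 3) :
    ∑ j, cr n t j * rl j (fun y => V y k) n = ∑ i, DV V n k i * t i - (∑ i, t i * V n i) * (n : E3) k := by
  rw [← gd_dot, Finset.sum_mul, ← Finset.sum_sub_distrib]
  refine Finset.sum_congr rfl fun i _ => ?_
  rw [DV_eq hV]
  unfold gd dcomp
  ring

theorem gd_nsq (hV : TD V) (n : S2) (i : Fin 3) : gd (fun y => nsq (V y)) n i = 2 * ∑ k, V n k * dcomp V n k i := by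
  have h1 : ∀ j, rl j (fun y => nsq (V y)) (n : E3) = ∑ k, 2 * (V n k * rl j (fun y => V y k) n) := by
    intro j
    have e : (fun y : E3 => nsq (V y)) = fun y => ∑ k, V y k * V y k := by
      funext y
      unfold nsq
      exact Finset.sum_congr rfl fun k _ => pow_two _
    have hd : ∀ k, DifferentiableAt ℝ (fun y : E3 => V y k * V y k) (n : E3) := fun k =>
      (hV.diff n k).mul (hV.diff n k)
    rw [e, rl_sum hd]
    refine Finset.sum_congr rfl fun k _ => ?_
    have h2 := rl_mul (hV.diff n k) (hV.diff n k) j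
    rw [h2]
    ring
  unfold gd
  simp only [h1, dcomp, Finset.mul_sum]
  rw [Finset.sum_comm]
  refine Finset.sum_congr rfl fun i _ => Finset.sum_congr rfl fun j _ => ?_
  ring

theorem wv_eq (hV : TD V) (n : S2) (i : Fin 3) : wv V n i = ∑ k, DV V n k i * V n k := by
  unfold wv
  rw [gd_nsq hV]
  have h1 : ∑ k, DV V n k i * V n k = ∑ k, V n k * dcomp V n k i + (∑ k, (n : E3) k * V n k) * V n i := by
    rw [Finset.sum_mul, ← Finset.sum_add_distrib]
    refine Finset.sum_congr rfl fun k _ => ?_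
    rw [DV_eq hV]
    ring
  rw [h1, hV.tan n]
  ring

theorem wv_tan (V : E3 → Fin 3 → ℝ) (n : E3) : ∑ i, n i * wv V n i = 0 := by
  have h := gd_tan (fun y => nsq (V y)) n
  have e : ∑ i, n i * wv V n i = (∑ i, n i * gd (fun y => nsq (V y)) n i) / 2 := by
    rw [Finset.sum_div]
    refine Finset.sum_congr rfl fun i _ => ?_
    unfold wv
    ring
  rw [e, h]
  simp

/-- `D_V V = w + q J V`. -/
theorem DV_V (hV : TD V) (n : S2) (k : Fin 3) : ∑ i, DV V n k i * V n i = wv V n k + cl V n * cr n (V n) k := by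
  rw [wv_eq hV, ← jm_cr (n : E3) (V n) k, Finset.mul_sum, ← Finset.sum_add_distrib]
  refine Finset.sum_congr rfl fun i _ => ?_
  have h := tng_as n (DV_tng V n) k i
  rw [DV_jm hV] at h
  linear_combination V n i * h

theorem n3_projV (hV : TD V) (n : S2) (i : Fin 3) : ∑ j, proj n i j * V n j = V n i := proj_vec (n : E3) (hV.tan n) i

/-- `D_JV V = J (p V - w)`. -/
theorem DV_JV (hV : TD V) (n : S2) (k : Fin 3) :
    ∑ i, DV V n k i * cr n (V n) i = cr n (fun i => dv V n * V n i - wv V n i) k := by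
  have h1 : ∑ i, DV V n k i * cr n (V n) i = ∑ j, (∑ i, DV V n k i * jm n i j) * V n j := by
    have e : ∀ i, cr n (V n) i = ∑ j, jm n i j * V n j := fun i => (jm_cr (n : E3) (V n) i).symm
    simp only [e, Finset.mul_sum, Finset.sum_mul]
    rw [Finset.sum_comm]
    refine Finset.sum_congr rfl fun i _ => Finset.sum_congr rfl fun j _ => ?_
    ring
  rw [h1, ← jm_cr (n : E3) _ k]
  simp only [tng_mj n (DV_tng V n)]
  have h2 : ∑ j, (∑ i, jm n k i * cf n (DV V n) i j) * V n j = ∑ i, jm n k i * ∑ j, cf n (DV V n) i j * V n j := by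
    simp only [Finset.mul_sum, Finset.sum_mul]
    rw [Finset.sum_comm]
    refine Finset.sum_congr rfl fun i _ => Finset.sum_congr rfl fun j _ => ?_
    ring
  rw [h2]
  refine Finset.sum_congr rfl fun i _ => ?_
  congr 1
  have h3 : ∑ j, cf n (DV V n) i j * V n j = (∑ k, DV V n k k) * (∑ j, proj n i j * V n j) - ∑ j, DV V n j i * V n j := by
    rw [Finset.mul_sum, ← Finset.sum_sub_distrib]
    refine Finset.sum_congr rfl fun j _ => ?_
    unfold cf
    ring
  rw [h3, n3_projV hV, DV_tr hV, ← wv_eq hV]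

/-- (B1) -/
theorem b1 (hV : TD V) (n : S2) :
    ∑ i, wv V n i * (dv V n * V n i - cl V n * cr n (V n) i - wv V n i) = nsq (V n) * dtB (DV V n) := by
  have h1 : ∀ i, dv V n * V n i - cl V n * cr n (V n) i - wv V n i = dv V n * V n i - ∑ j, DV V n i j * V n j := by
    intro i
    rw [DV_V hV]
    ring
  simp only [h1]
  have h2 : ∀ i, wv V n i = ∑ k, V n k * DV V n k i := fun i => by
    rw [wv_eq hV]
    exact Finset.sum_congr rfl fun k _ => mul_comm _ _
  simp only [h2]
  have h3 : ∑ i, (∑ k, V n k * DV V n k i) * (dv V n * V n i - ∑ j, DV V n i j * V n j) =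
      ∑ k, V n k * (dv V n * (∑ j, DV V n k j * V n j) - ∑ j, (∑ i, DV V n k i * DV V n i j) * V n j) := by
    have e1 : ∑ i, (∑ k, V n k * DV V n k i) * (dv V n * V n i - ∑ j, DV V n i j * V n j) =
        ∑ i, ∑ k, (V n k * DV V n k i * (dv V n * V n i) - V n k * DV V n k i * ∑ j, DV V n i j * V n j) := by
      refine Finset.sum_congr rfl fun i _ => ?_
      rw [Finset.sum_mul]
      exact Finset.sum_congr rfl fun k _ => by ring
    rw [e1, Finset.sum_comm]
    refine Finset.sum_congr rfl fun k _ => ?_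
    rw [Finset.sum_sub_distrib, mul_sub]
    congr 1
    · rw [Finset.mul_sum, Finset.mul_sum]
      exact Finset.sum_congr rfl fun j _ => by ring
    · simp only [Finset.mul_sum, Finset.sum_mul]
      rw [Finset.sum_comm]
      refine Finset.sum_congr rfl fun i _ => Finset.sum_congr rfl fun j _ => ?_
      ring
  rw [h3]
  have h4 : ∀ k, dv V n * (∑ j, DV V n k j * V n j) - ∑ j, (∑ i, DV V n k i * DV V n i j) * V n j =
      dtB (DV V n) * V n k := by
    intro k
    have e : ∀ j, ∑ i, DV V n k i * DV V n i j = dv V n * DV V n k j - dtB (DV V n) * proj n k j := fun j => by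
      rw [tng_ch n (DV_tng V n) k j, DV_tr hV]
    simp only [e]
    have e2 : ∑ j, (dv V n * DV V n k j - dtB (DV V n) * proj n k j) * V n j =
        dv V n * (∑ j, DV V n k j * V n j) - dtB (DV V n) * ∑ j, proj n k j * V n j := by
      rw [Finset.mul_sum, Finset.mul_sum, ← Finset.sum_sub_distrib]
      exact Finset.sum_congr rfl fun j _ => by ring
    rw [e2, n3_projV hV]
    ring
  simp only [h4]
  unfold nsq
  rw [Finset.sum_mul]
  exact Finset.sum_congr rfl fun k _ => by ring

theorem DV_comb (hV : TD V) {a b : E3 → ℝ} (n : S2) (ha : DifferentiableAt ℝ a n) (hb : DifferentiableAt ℝ b n) (k i : Fin 3) :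
    DV (fun y i => a y * V y i + b y * cr y (V y) i) n k i =
      V n k * gd a n i + cr n (V n) k * gd b n i + a n * DV V n k i + b n * ∑ l, jm n k l * DV V n l i := by
  have hcr : ∀ l, DifferentiableAt ℝ (fun y : E3 => cr y (V y) l) (n : E3) := by
    intro l
    exact ((n3_dcoord _ _).mul (hV.diff n _)).sub ((n3_dcoord _ _).mul (hV.diff n _))
  have h1 : ∀ j l, rl j (fun y => a y * V y l + b y * cr y (V y) l) (n : E3) =
      rl j a n * V n l + a n * rl j (fun y => V y l) n + rl j b n * cr n (V n) l +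
        b n * ((n : E3) l * V n j + ∑ m, jm n l m * rl j (fun y => V y m) n) := by
    intro j l
    have d1 : DifferentiableAt ℝ (fun y : E3 => a y * V y l) (n : E3) := ha.mul (hV.diff n l)
    have d2 : DifferentiableAt ℝ (fun y : E3 => b y * cr y (V y) l) (n : E3) := hb.mul (hcr l)
    rw [rl_add d1 d2, rl_mul ha (hV.diff n l), rl_mul hb (hcr l), n3_rlcr hV]
    ring
  have h2 : ∀ l, dcomp (fun y i => a y * V y i + b y * cr y (V y) i) n l i =
      V n l * gd a n i + a n * dcomp V n l i + cr n (V n) l * gd b n i +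
        b n * ((n : E3) l * (∑ j, jm n j i * V n j) + ∑ m, jm n l m * dcomp V n m i) := by
    intro l
    have e : ∑ m, jm n l m * dcomp V n m i = ∑ j, jm n j i * ∑ m, jm n l m * rl j (fun y => V y m) n := by
      simp only [dcomp, Finset.mul_sum]
      rw [Finset.sum_comm]
      refine Finset.sum_congr rfl fun i _ => Finset.sum_congr rfl fun j _ => ?_
      ring
    rw [e]
    unfold dcomp gd
    simp only [h1]
    rw [mul_add, Finset.mul_sum, Finset.mul_sum, Finset.mul_sum, Finset.mul_sum, Finset.mul_sum, Finset.mul_sum,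
      ← Finset.sum_add_distrib, ← Finset.sum_add_distrib, ← Finset.sum_add_distrib, ← Finset.sum_add_distrib]
    refine Finset.sum_congr rfl fun j _ => ?_
    ring
  have h3 : DV (fun y i => a y * V y i + b y * cr y (V y) i) n k i = ∑ l, proj n k l *
      dcomp (fun y i => a y * V y i + b y * cr y (V y) i) n l i := rfl
  rw [h3]
  simp only [h2]
  have h4 : ∑ l, proj n k l * (V n l * gd a n i + a n * dcomp V n l i + cr n (V n) l * gd b n i +
        b n * ((n : E3) l * (∑ j, jm n j i * V n j) + ∑ m, jm n l m * dcomp V n m i)) =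
      (∑ l, proj n k l * V n l) * gd a n i + a n * (∑ l, proj n k l * dcomp V n l i) +
      (∑ l, proj n k l * cr n (V n) l) * gd b n i +
      b n * ((∑ l, proj n k l * (n : E3) l) * (∑ j, jm n j i * V n j) +
        ∑ l, proj n k l * ∑ m, jm n l m * dcomp V n m i) := by
    rw [Finset.sum_mul, Finset.mul_sum, Finset.sum_mul, Finset.sum_mul, mul_add, Finset.mul_sum, Finset.mul_sum,
      ← Finset.sum_add_distrib, ← Finset.sum_add_distrib, ← Finset.sum_add_distrib, ← Finset.sum_add_distrib]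
    refine Finset.sum_congr rfl fun j _ => ?_
    ring
  rw [h4, n3_projV hV, proj_vec (n : E3) (cr_tan (n : E3) (V n)), (proj_tng n).r]
  have h5 : ∑ l, proj n k l * ∑ m, jm n l m * dcomp V n m i = ∑ m, jm n k m * dcomp V n m i := by
    have e : ∑ l, proj n k l * ∑ m, jm n l m * dcomp V n m i = ∑ m, (∑ l, proj n k l * jm n l m) * dcomp V n m i := by
      simp only [Finset.mul_sum, Finset.sum_mul]
      rw [Finset.sum_comm]
      refine Finset.sum_congr rfl fun i _ => Finset.sum_congr rfl fun j _ => ?_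
      ring
    rw [e]
    refine Finset.sum_congr rfl fun m _ => ?_
    rw [NullU.NA4_projl (jm_tng (n : E3)) k m]
  have h6 : ∑ l, jm n k l * DV V n l i = ∑ m, jm n k m * dcomp V n m i := by
    have e : ∑ l, jm n k l * DV V n l i = ∑ m, jm n k m * dcomp V n m i + (∑ m, jm n k m * (n : E3) m) * V n i := by
      rw [Finset.sum_mul, ← Finset.sum_add_distrib]
      refine Finset.sum_congr rfl fun m _ => ?_
      rw [DV_eq hV]
      ring
    rw [e, jm_n, zero_mul, add_zero]
  rw [h5, h6]
  have h7 : ∑ l, proj n k l * dcomp V n l i = DV V n k i := rfl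
  rw [h7]
  ring

/-- The pairing of `cof M` with `D V`. -/
theorem pair_DV (hV : TD V) (n : S2) {M : Fin 3 → Fin 3 → ℝ} (hM : Tng n M) :
    ∑ k, ∑ j, M k j * rl j (fun y => cr y (V y) k) n = ∑ i, ∑ j, cf n M i j * DV V n i j := by
  have hcf : Tng n (cf n M) := NullU.cf_tng (by simp) hM
  have h1 : ∑ k, ∑ j, M k j * rl j (fun y => cr y (V y) k) n =
      ∑ j, (∑ k, (n : E3) k * M k j) * V n j + ∑ k, ∑ l, jm n k l * ∑ j, M k j * rl j (fun y => V y l) n := by
    have e1 : ∑ k, ∑ l, jm n k l * ∑ j, M k j * rl j (fun y => V y l) n =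
        ∑ k, ∑ j, M k j * ∑ l, jm n k l * rl j (fun y => V y l) n := by
      refine Finset.sum_congr rfl fun k _ => ?_
      simp only [Finset.mul_sum]
      rw [Finset.sum_comm]
      refine Finset.sum_congr rfl fun i _ => Finset.sum_congr rfl fun j _ => ?_
      ring
    have e2 : ∑ j, (∑ k, (n : E3) k * M k j) * V n j = ∑ k, ∑ j, M k j * ((n : E3) k * V n j) := by
      simp only [Finset.sum_mul]
      rw [Finset.sum_comm]
      refine Finset.sum_congr rfl fun i _ => Finset.sum_congr rfl fun j _ => ?_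
      ring
    rw [e1, e2, ← Finset.sum_add_distrib]
    refine Finset.sum_congr rfl fun k _ => ?_
    rw [← Finset.sum_add_distrib]
    refine Finset.sum_congr rfl fun j _ => ?_
    rw [n3_rlcr hV]
    ring
  rw [h1]
  have h2 : ∑ j, (∑ k, (n : E3) k * M k j) * V n j = 0 := by
    apply Finset.sum_eq_zero
    intro j _
    rw [hM.l, zero_mul]
  rw [h2, zero_add]
  have h3 : ∀ k l, ∑ j, M k j * rl j (fun y => V y l) n = ∑ i, (∑ m, jm n k m * cf n M m i) * dcomp V n l i := by
    intro k l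
    have e : ∑ j, M k j * rl j (fun y => V y l) n = ∑ i, (∑ j, M k j * jm n j i) * dcomp V n l i := by
      have e' : ∀ j, rl j (fun y => V y l) (n : E3) = ∑ i, jm n j i * dcomp V n l i := fun j => rl_DV n j l
      simp only [e', Finset.mul_sum, Finset.sum_mul]
      rw [Finset.sum_comm]
      refine Finset.sum_congr rfl fun i _ => Finset.sum_congr rfl fun j _ => ?_
      ring
    rw [e]
    refine Finset.sum_congr rfl fun i _ => ?_
    rw [tng_mj n hM k i]
  simp only [h3]
  have h4 : ∑ k, ∑ l, jm n k l * ∑ i, (∑ m, jm n k m * cf n M m i) * dcomp V n l i =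
      ∑ l, ∑ i, (∑ m, (∑ k, jm n k l * jm n k m) * cf n M m i) * dcomp V n l i := by
    rw [Finset.sum_comm]
    refine Finset.sum_congr rfl fun l _ => ?_
    simp only [Finset.mul_sum, Finset.sum_mul]
    rw [Finset.sum_comm]
    refine Finset.sum_congr rfl fun i _ => ?_
    rw [Finset.sum_comm]
    refine Finset.sum_congr rfl fun m _ => Finset.sum_congr rfl fun k _ => ?_
    ring
  rw [h4]
  simp only [jm_jm']
  have h5 : ∀ l i, ∑ m, proj n l m * cf n M m i = cf n M l i := fun l i => NullU.NA4_projl hcf l i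
  simp only [h5]
  have h6 : ∑ i, ∑ j, cf n M i j * DV V n i j = ∑ i, ∑ j, cf n M i j * dcomp V n i j +
      ∑ j, (∑ i, (n : E3) i * cf n M i j) * V n j := by
    have e : ∑ j, (∑ i, (n : E3) i * cf n M i j) * V n j = ∑ i, ∑ j, cf n M i j * ((n : E3) i * V n j) := by
      simp only [Finset.sum_mul]
      rw [Finset.sum_comm]
      refine Finset.sum_congr rfl fun i _ => Finset.sum_congr rfl fun j _ => ?_
      ring
    rw [e, ← Finset.sum_add_distrib]
    refine Finset.sum_congr rfl fun i _ => ?_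
    rw [← Finset.sum_add_distrib]
    refine Finset.sum_congr rfl fun j _ => ?_
    rw [DV_eq hV]
    ring
  have h7 : ∑ j, (∑ i, (n : E3) i * cf n M i j) * V n j = 0 := by
    apply Finset.sum_eq_zero
    intro j _
    rw [hcf.l, zero_mul]
  rw [h6, h7, add_zero]

end H17S.Sph
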