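import Pool.Agent.Lib.H17S.N1
import Pool.Agent.Lib.H17S.N2

set_option autoImplicit false

/-!
Chunk N4 (S/M). Product rules for `dv`, `cl`, `gd`; continuity on the sphere; integrals.
Proof. `cr y (V y) j = y_{j+1} V_{j+2} - y_{j+2} V_{j+1}` (`cr_apply`). `dv_mul`: `cr y (f y V y) j = f y * cr y (V y) j` (`funext`, `ring`), `rl_mul`. `cl_mul`: `rl_mul`. `dv_cr`: on the sphere `cr y (cr y (V y)) j = - V y j` (`cr_cr`), so `rl_congr`, `rl_neg`.
`gd_mul`, `gd_comp`: `rl_mul`, `rl_comp`. Class `C1S` of `cr y (V y) j`, `nsq (V y)`: `C1S.mul`, `sub`, `coord`, `sum`. Continuity of `dv`, `cl`, `gd`, `dcomp`, `DV`, `dtB (DV V)`, `wv`, `alD`: finite sums and products of `C1S.rl_cont`, `C1S.cont0` (and `jm n j i` is a polynomial in `n`).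
`int_dv`, `int_cl`: `int_rl1`, `integral_finset_sum` (continuous functions on the compact sphere are integrable: `Continuous.integrable_of_hasCompactSupport` or `ContinuousOn.integrableOn_compact`; see how `Lib/H17U/TC0.lean` or Lib/H74Q/E2.lean treat the measure `sm`;
`sm = Pool.Agent.Lib.PenroseSph.sm` by `rfl`, there is an instance `IsFiniteMeasure`). `int_gd`: `∑ V_i gd f_i = ∑_j cr n V j L_j f` (`jm_cr`) `= dv (f V) - f dv V` (`dv_mul`).
`dv_C1`/`cl_C1`: for a smooth field `dv V` and `cl V` are smooth functions (`rl_smooth`).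
-/

open MeasureTheory Filter Topology Set
open scoped ContDiff ComplexConjugate

namespace H17S.Sph

open NullPen (E3 S2 sm proj)
open NullU (rl crs dtB Tng cf)

variable {V : E3 → Fin 3 → ℝ}

private theorem n4_coord (i : Fin 3) (x : E3) : DifferentiableAt ℝ (fun y : E3 => y i) x :=
  (EuclideanSpace.proj i : E3 →L[ℝ] ℝ).differentiableAt

private theorem n4_csm (i : Fin 3) : ContDiff ℝ ∞ (fun y : E3 => y i) :=
  (EuclideanSpace.proj i : E3 →L[ℝ] ℝ).contDiff

private theorem n4_cc (i : Fin 3) : Continuous (fun n : S2 => (n : E3) i) :=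
  (EuclideanSpace.proj i : E3 →L[ℝ] ℝ).continuous.comp continuous_subtype_val

private theorem n4_cr_diff {x : E3} (hV : ∀ i, DifferentiableAt ℝ (fun y => V y i) x) (j : Fin 3) :
    DifferentiableAt ℝ (fun y => cr y (V y) j) x :=
  ((n4_coord (j + 1) x).mul (hV (j + 2))).sub ((n4_coord (j + 2) x).mul (hV (j + 1)))

theorem dv_mul {f : E3 → ℝ} {x : E3} (hf : DifferentiableAt ℝ f x) (hV : ∀ i, DifferentiableAt ℝ (fun y => V y i) x) :
    dv (fun y i => f y * V y i) x = f x * dv V x + ∑ j, cr x (V x) j * rl j f x := by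
  unfold dv
  rw [Finset.mul_sum, ← Finset.sum_add_distrib]
  refine Finset.sum_congr rfl fun j _ => ?_
  have h1 : (fun y => cr y (fun i => f y * V y i) j) = fun y => f y * cr y (V y) j := by
    funext y
    rw [cr_apply, cr_apply]
    ring
  rw [h1, rl_mul hf (n4_cr_diff hV j)]
  ring

theorem cl_mul {f : E3 → ℝ} {x : E3} (hf : DifferentiableAt ℝ f x) (hV : ∀ i, DifferentiableAt ℝ (fun y => V y i) x) :
    cl (fun y i => f y * V y i) x = f x * cl V x + ∑ j, V x j * rl j f x := by
  unfold cl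
  rw [Finset.mul_sum, ← Finset.sum_add_distrib]
  refine Finset.sum_congr rfl fun j _ => ?_
  rw [rl_mul hf (hV j)]
  ring

theorem dv_cr (hV : TD V) (n : S2) : dv (fun y => cr y (V y)) n = - cl V n := by
  unfold dv cl
  rw [← Finset.sum_neg_distrib]
  refine Finset.sum_congr rfl fun j _ => ?_
  have h1 : rl j (fun y => cr y (cr y (V y)) j) n = rl j (fun y => - V y j) n := by
    refine rl_congr (fun m => cr_cr m (hV.tan m) j) ?_ ((hV.diff n j).neg) j
    exact n4_cr_diff (V := fun y => cr y (V y)) (fun i => n4_cr_diff (hV.diff n) i) j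
  rw [h1, rl_neg]

theorem gd_mul {f g : E3 → ℝ} {x : E3} (hf : DifferentiableAt ℝ f x) (hg : DifferentiableAt ℝ g x) (i : Fin 3) :
    gd (fun y => f y * g y) x i = gd f x i * g x + f x * gd g x i := by
  unfold gd
  rw [Finset.sum_mul, Finset.mul_sum, ← Finset.sum_add_distrib]
  refine Finset.sum_congr rfl fun j _ => ?_
  rw [rl_mul hf hg]
  ring

theorem gd_comp {φ : ℝ → ℝ} {d : ℝ} {f : E3 → ℝ} {x : E3} (hf : DifferentiableAt ℝ f x) (hφ : HasDerivAt φ d (f x)) (i : Fin 3) :
    gd (fun y => φ (f y)) x i = d * gd f x i := by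
  unfold gd
  rw [Finset.mul_sum]
  refine Finset.sum_congr rfl fun j _ => ?_
  rw [rl_comp hf hφ]
  ring

theorem C1S.cr {V : E3 → Fin 3 → ℝ} (hV : ∀ i, C1S (fun y => V y i)) (j : Fin 3) : C1S (fun y => cr y (V y) j) :=
  ((C1S.coord (j + 1)).mul (hV (j + 2))).sub ((C1S.coord (j + 2)).mul (hV (j + 1)))

theorem C1S.nsq {V : E3 → Fin 3 → ℝ} (hV : ∀ i, C1S (fun y => V y i)) : C1S (fun y => nsq (V y)) := by
  have h1 : (fun y => H17S.nsq (V y)) = fun y => ∑ i, V y i * V y i := by
    funext y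
    unfold H17S.nsq
    exact Finset.sum_congr rfl fun i _ => pow_two _
  rw [h1]
  exact C1S.sum fun i => (hV i).mul (hV i)

theorem _root_.H17S.TF.c1 (hV : TF V) (i : Fin 3) : C1S (fun y => V y i) := C1S.of_smooth (hV.sm i)

theorem jm_cont (i j : Fin 3) : Continuous (fun n : S2 => jm n i j) :=
  ((n4_cc (i + 1)).mul continuous_const).sub ((n4_cc (i + 2)).mul continuous_const)

theorem proj_cont (i j : Fin 3) : Continuous (fun n : S2 => proj n i j) :=
  continuous_const.sub ((n4_cc i).mul (n4_cc j))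

theorem dv_cont (hV : ∀ i, C1S (fun y => V y i)) : Continuous (fun n : S2 => dv V n) :=
  continuous_finsetSum _ fun j _ => (C1S.cr hV j).rl_cont j

theorem cl_cont (hV : ∀ i, C1S (fun y => V y i)) : Continuous (fun n : S2 => cl V n) :=
  continuous_finsetSum _ fun j _ => (hV j).rl_cont j

theorem gd_cont {F : E3 → ℝ} (hF : C1S F) (i : Fin 3) : Continuous (fun n : S2 => gd F n i) :=
  continuous_finsetSum _ fun j _ => (jm_cont j i).mul (hF.rl_cont j)

theorem DV_cont (hV : ∀ i, C1S (fun y => V y i)) (k i : Fin 3) : Continuous (fun n : S2 => DV V n k i) :=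
  continuous_finsetSum _ fun l _ => (proj_cont k l).mul
    (continuous_finsetSum _ fun j _ => (jm_cont j i).mul ((hV l).rl_cont j))

theorem dtB_cont (hV : ∀ i, C1S (fun y => V y i)) : Continuous (fun n : S2 => dtB (DV V n)) :=
  (((continuous_finsetSum _ fun i _ => DV_cont hV i i).pow 2).sub
    (continuous_finsetSum _ fun i _ => continuous_finsetSum _ fun j _ =>
      (DV_cont hV i j).mul (DV_cont hV j i))).div_const 2

theorem wv_cont (hV : ∀ i, C1S (fun y => V y i)) (i : Fin 3) : Continuous (fun n : S2 => wv V n i) :=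
  (gd_cont (C1S.nsq hV) i).div_const 2

theorem alD_cont (hV : ∀ i, C1S (fun y => V y i)) : Continuous (fun n : S2 => alD V n) :=
  ((Complex.continuous_ofReal.comp (dv_cont hV)).add
    ((Complex.continuous_ofReal.comp (cl_cont hV)).mul continuous_const)).div_const 2

theorem nsq_cont (hV : ∀ i, C1S (fun y => V y i)) : Continuous (fun n : S2 => nsq (V n)) :=
  (C1S.nsq hV).cont0

theorem cont_int {f : S2 → ℝ} (hf : Continuous f) : Integrable f sm := by
  have : IsFiniteMeasure sm := inferInstanceAs (IsFiniteMeasure Pool.Agent.Lib.PenroseSph.sm)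
  exact hf.integrable_of_hasCompactSupport (HasCompactSupport.of_compactSpace f)

theorem int_dv (hV : ∀ i, C1S (fun y => V y i)) : ∫ n : S2, dv V n ∂sm = 0 := by
  unfold dv
  rw [integral_finsetSum _ fun j _ => cont_int ((C1S.cr hV j).rl_cont j)]
  exact Finset.sum_eq_zero fun j _ => int_rl1 (C1S.cr hV j) j

theorem int_cl (hV : ∀ i, C1S (fun y => V y i)) : ∫ n : S2, cl V n ∂sm = 0 := by
  unfold cl
  rw [integral_finsetSum _ fun j _ => cont_int ((hV j).rl_cont j)]
  exact Finset.sum_eq_zero fun j _ => int_rl1 (hV j) j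

theorem int_gd {f : E3 → ℝ} (hf : C1S f) (hV : ∀ i, C1S (fun y => V y i)) :
    ∫ n : S2, ∑ i, V n i * gd f n i ∂sm = - ∫ n : S2, f n * dv V n ∂sm := by
  have hfV : ∀ i, C1S (fun y => f y * V y i) := fun i => hf.mul (hV i)
  have h1 : ∀ n : S2, ∑ i, V n i * gd f n i = dv (fun y i => f y * V y i) n - f n * dv V n := by
    intro n
    rw [dv_mul (hf.diff n) (fun i => (hV i).diff n)]
    have h2 : ∀ j, cr n (V n) j = ∑ i, jm n j i * V n i := fun j => (jm_cr n (V n) j).symm
    simp only [h2]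
    unfold gd
    simp only [Fin.sum_univ_three]
    ring
  simp only [h1]
  have h3 := int_dv hfV
  have h4 : Integrable (fun n : S2 => f n * dv V n) sm := cont_int (hf.cont0.mul (dv_cont hV))
  rw [integral_sub (cont_int (dv_cont hfV)) h4, h3, zero_sub]

theorem dv_smooth (hV : TF V) : ContDiff ℝ ∞ (fun y => dv V y) := by
  unfold dv
  refine ContDiff.sum fun j _ => rl_smooth ?_ j
  exact ((n4_csm (j + 1)).mul (hV.sm (j + 2))).sub ((n4_csm (j + 2)).mul (hV.sm (j + 1)))

theorem cl_smooth (hV : TF V) : ContDiff ℝ ∞ (fun y => cl V y) := by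
  unfold cl
  exact ContDiff.sum fun j _ => rl_smooth (hV.sm j) j

theorem nsq_smooth (hV : TF V) : ContDiff ℝ ∞ (fun y => nsq (V y)) := by
  unfold nsq
  exact ContDiff.sum fun i _ => (hV.sm i).pow 2

end H17S.Sph
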