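import Pool.Agent.Lib.H17S.N3
import Pool.Agent.Lib.H17S.N4

set_option autoImplicit false

/-!
Chunk N5 (M). The divergence identity (B2). `uv V y j = p (y × V)_j + q V_j - (1/2) L_j |V|^2` (`p = dv V`, `q = cl V`), it is `n × (p V - q J V - w)`. Claim: `∑_j L_j (uv V j) = 2 dtB (DV V) - |V|^2` on the sphere.
Notation: `A_jk = L_j V_k`, `e_jmk = L_j (L_m V_k)`, `c = L × V = lc V`: `c_i = A_{i+1,i+2} - A_{i+2,i+1}`, `W = n × V`, `X = |V|^2`. Facts: `∑ n_j A_jk = 0`, `∑_j n_j e_jmk = 0` (`rl_rad`); `∑_k A_jk n_k = - W_j` (`rl_n`); commutators `rl_comm`: `e_{j,j+1,k} - e_{j+1,j,k} = - A_{j+2,k}`.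
`lc_n`: `p = - ∑ n_i c_i` on the sphere: `dv V n = ∑_j,i jm_ji A_ji` (proof of `DV_tr`; or expand `dv`: `∑_j L_j (y × V)_j = ∑_j ((e_j × n) × V)_j + ∑_j (n × A_j)_j`, the first sum is `-2 n . V = 0`). `lc_V`: `∑ V_i c_i = - X`: as `∑_j,k ε_ijk V_i A_jk`: write `A_jk = T_jk - W_j n_k` with
`∑_k T_jk n_k = 0`, `∑_j n_j T_jk = 0`: `T` is tangential, its antisymmetric part is a multiple of `jm n` (`tng_as`), so `∑ ε_ijk V_i T_jk = c n . V = 0`, and `- ∑ ε_ijk V_i W_j n_k = - V . (W × n) = - V . V`. (Or directly a `linear_combination`.)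
`dv_rl`: `L_j p = - ∑_i ((e_j × n)_i c_i + n_i L_j c_i)` (`rl_congr` with `lc_n`), multiply with `W_j`: `∑_j W_j (e_j × n) = W × n = V`, so `∑_j W_j L_j p = - V . c - ∑_ij W_j n_i L_j c_i = X - ∑_ij W_j n_i L_j c_i`.
`cl_rl`: `∑_j V_j L_j q - ∑_j,k V_k e_jjk = ∑_j,k V_j (e_jkk - e_kkj) = ∑_j,k V_j (e_kjk - ε_jkr A_rk - e_kkj) = ∑_j,k V_j L_k (A_jk - A_kj) + V . c = V . (L × c) - X` (`A_jk - A_kj = ε_jki c_i`).
`schouten`: `V = W × n`, so `V . (L × c) = (W × n) . (L × c) = ∑ W_j n_i L_j c_i - ∑ n_j W_i L_j c_i` and the last sum vanishes.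
`quad`: `q^2 + ∑ DV_ik DV_ki + X = ∑ A_jk^2`: with `M = DV` (tangential) and `A_jk = ∑_i jm_ji (M_ki - n_k V_i) = (J Mᵀ)_jk - W_j n_k` (`rl_DV`, `DV_eq`), `∑ A_jk^2 = ∑ (J Mᵀ)^2 + |W|^2 = ∑ M_ki^2 + X` (`jm_jm'`, `J Mᵀ n = 0`), and
`∑ M_ki^2 = q^2 + ∑ M_ik M_ki` (`∑ (M_ij - M_ji)^2 = 2 q^2` by `tng_as`, `DV_jm`, `∑ jm^2 = 2`).
`b2`: `∑_j L_j (p W_j) = ∑_j W_j L_j p + p^2` (`p = ∑ L_j W_j` by definition), `∑_j L_j (q V_j) = ∑_j V_j L_j q + q^2`, `(1/2) ∑_j L_j L_j X = ∑_j,k (A_jk^2 + V_k e_jjk)`. Sum: `X - S + (V . (L × c) - X) + p^2 + q^2 - ∑ A^2` with `S = ∑ W_j n_i L_j c_i = V . (L × c)`;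
`= p^2 + q^2 - ∑ A^2 = p^2 - ∑ M_ik M_ki - X = 2 dtB M - X` (`DV_tr`, definition of `dtB`).
`uv_nsq`: `∑_j uv_j L_j X = 2 X dtB (DV V)`: `L_j X = 2 (n × w)_j` (`w_i = (1/2) ∑_j jm_ji L_j X`, `∑_i jm_ji w_i = (1/2) L_j X` by `jm_jm`, `rl_rad`), `uv = n × (p V - q J V - w)` (`cr_cr`), `cr_dot`, `b1`.
-/

open MeasureTheory Filter Topology Set
open scoped ContDiff ComplexConjugate

namespace H17S.Sph

open NullPen (E3 S2 sm proj)
open NullU (rl crs dtB Tng cf)

variable {V : E3 → Fin 3 → ℝ}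

/-- `n × (p V - q J V - w)`. -/
noncomputable def uv (V : E3 → Fin 3 → ℝ) (y : E3) (j : Fin 3) : ℝ :=
  dv V y * cr y (V y) j + cl V y * V y j - rl j (fun z => nsq (V z)) y / 2

theorem n5_alg {n V : Fin 3 → ℝ} {E : Fin 3 → Fin 3 → ℝ} (h1 : n 0 ^ 2 + n 1 ^ 2 + n 2 ^ 2 = 1) (hv : ∑ i, n i * V i = 0)
    (f : ∀ k, ∑ j, n j * E j k = 0) :
    ∑ i, V i * (E (i + 1) (i + 2) - E (i + 2) (i + 1)) = ∑ j, ∑ k, crs n V j * n k * E j k := by
  have f0 := f 0
  have f1 := f 1
  have f2 := f 2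
  simp only [Fin.sum_univ_three, crs] at hv f0 f1 f2 ⊢
  simp only [show (0 : Fin 3) + 1 = 1 from rfl, show (0 : Fin 3) + 2 = 2 from rfl,
    show (1 : Fin 3) + 1 = 2 from rfl, show (1 : Fin 3) + 2 = 0 from rfl,
    show (2 : Fin 3) + 1 = 0 from rfl, show (2 : Fin 3) + 2 = 1 from rfl]
  set c0 := E 1 2 - E 2 1 with hc0
  set c1 := E 2 0 - E 0 2 with hc1
  set c2 := E 0 1 - E 1 0 with hc2
  linear_combination (-(V 0 * c0 + V 1 * c1 + V 2 * c2)) * h1 + (n 0 * c0 + n 1 * c1 + n 2 * c2) * hv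
    - (n 1 * V 2 - n 2 * V 1) * f0 - (n 2 * V 0 - n 0 * V 2) * f1 - (n 0 * V 1 - n 1 * V 0) * f2

/-- Product rule for the components of `y × V`. -/
theorem n5_rl_cr {V : E3 → Fin 3 → ℝ} {x : E3} (hV : ∀ i, DifferentiableAt ℝ (fun y => V y i) x) (j k : Fin 3) :
    rl j (fun y => cr y (V y) k) x = (rl j (fun y => y (k + 1)) x * V x (k + 2) + x (k + 1) * rl j (fun y => V y (k + 2)) x) -
      (rl j (fun y => y (k + 2)) x * V x (k + 1) + x (k + 2) * rl j (fun y => V y (k + 1)) x) := by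
  have hc : ∀ i : Fin 3, DifferentiableAt ℝ (fun y : E3 => y i) x := fun i =>
    (EuclideanSpace.proj i : E3 →L[ℝ] ℝ).differentiableAt
  show rl j (fun y => y (k + 1) * V y (k + 2) - y (k + 2) * V y (k + 1)) x = _
  rw [rl_sub ((hc _).fun_mul (hV _)) ((hc _).fun_mul (hV _)), rl_mul (hc _) (hV _), rl_mul (hc _) (hV _)]

theorem lc_n (hV : TD V) (n : S2) : dv V n = - ∑ i, (n : E3) i * lc V n i := by
  have ht := hV.tan n
  unfold dv lc
  simp only [n5_rl_cr (hV.diff n), rl_coord]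
  simp only [Fin.sum_univ_three] at ht ⊢
  simp only [show (0 : Fin 3) + 1 = 1 from rfl, show (0 : Fin 3) + 2 = 2 from rfl,
    show (1 : Fin 3) + 1 = 2 from rfl, show (1 : Fin 3) + 2 = 0 from rfl,
    show (2 : Fin 3) + 1 = 0 from rfl, show (2 : Fin 3) + 2 = 1 from rfl, if_true, Fin.reduceEq, if_false]
  linear_combination (-2) * ht

theorem lc_V (hV : TD V) (n : S2) : ∑ i, V n i * lc V n i = - nsq (V n) := by
  have h1 := sph_sq n
  have h2 := n5_alg (n := fun i => (n : E3) i) (V := V n) (E := fun j k => rl j (fun y => V y k) n) h1 (hV.tan n)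
    (fun k => rl_rad (fun y => V y k) n)
  have h3 : ∀ j, ∑ k, crs (fun i => (n : E3) i) (V n) j * (n : E3) k * rl j (fun y => V y k) n =
      - (cr n (V n) j * cr n (V n) j) := by
    intro j
    have h4 := rl_n hV n j
    calc ∑ k, crs (fun i => (n : E3) i) (V n) j * (n : E3) k * rl j (fun y => V y k) n
        = cr n (V n) j * ∑ k, rl j (fun y => V y k) n * (n : E3) k := by
          rw [Finset.mul_sum]
          refine Finset.sum_congr rfl fun k _ => ?_
          show cr n (V n) j * (n : E3) k * rl j (fun y => V y k) n = _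
          ring
      _ = _ := by
          rw [h4]
          ring
  have h5 := nsq_cr n (hV.tan n)
  calc ∑ i, V n i * lc V n i = ∑ j, ∑ k, crs (fun i => (n : E3) i) (V n) j * (n : E3) k * rl j (fun y => V y k) n := h2
    _ = ∑ j, - (cr n (V n) j * cr n (V n) j) := Finset.sum_congr rfl fun j _ => h3 j
    _ = - nsq (cr n (V n)) := by
        unfold nsq
        rw [Finset.sum_neg_distrib]
        congr 1
        exact Finset.sum_congr rfl fun j _ => by ring
    _ = - nsq (V n) := by rw [h5]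

theorem n5_dV (hV : TF V) (i : Fin 3) : ContDiff ℝ ∞ (fun y => V y i) := hV.sm i

theorem n5_lc (hV : TF V) (i : Fin 3) : ContDiff ℝ ∞ (fun y => lc V y i) := by
  unfold lc
  exact (rl_smooth (hV.sm _) _).sub (rl_smooth (hV.sm _) _)

theorem n5_df {F : E3 → ℝ} (h : ContDiff ℝ ∞ F) (x : E3) : DifferentiableAt ℝ F x := h.differentiable (by simp) x

theorem n5_co (i : Fin 3) (x : E3) : DifferentiableAt ℝ (fun y : E3 => y i) x :=
  (EuclideanSpace.proj i : E3 →L[ℝ] ℝ).differentiableAt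

theorem n5_dvj (hV : TF V) (n : S2) (j : Fin 3) : rl j (fun y => dv V y) n =
    - ∑ i, (rl j (fun y => y i) n * lc V n i + (n : E3) i * rl j (fun y => lc V y i) n) := by
  have e : rl j (fun y => dv V y) n = rl j (fun y => - ∑ i, y i * lc V y i) n := by
    refine rl_congr (fun m => lc_n hV.td m) (n5_df (dv_smooth hV) _) ?_ j
    refine DifferentiableAt.fun_neg (DifferentiableAt.fun_sum fun i _ => (n5_co i _).fun_mul (n5_df (n5_lc hV i) _))
  rw [e, rl_neg, rl_sum (f := fun i y => y i * lc V y i) fun i => (n5_co i _).fun_mul (n5_df (n5_lc hV i) _)]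
  congr 1
  exact Finset.sum_congr rfl fun i _ => rl_mul (n5_co i _) (n5_df (n5_lc hV i) _) j

theorem dv_rl (hV : TF V) (n : S2) : ∑ j, cr n (V n) j * rl j (fun y => dv V y) n =
    nsq (V n) - ∑ j, ∑ i, cr n (V n) j * (n : E3) i * rl j (fun y => lc V y i) n := by
  have h1 := sph_sq n
  have ht := hV.tan n
  have h2 := lc_V hV.td n
  have h3 : ∑ j, cr n (V n) j * ∑ i, rl j (fun y => y i) n * lc V n i = ∑ i, V n i * lc V n i := by
    simp only [rl_coord, cr, crs]
    generalize lc V n = c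
    simp only [Fin.sum_univ_three] at ht ⊢
    simp only [show (0 : Fin 3) + 1 = 1 from rfl, show (0 : Fin 3) + 2 = 2 from rfl,
      show (1 : Fin 3) + 1 = 2 from rfl, show (1 : Fin 3) + 2 = 0 from rfl,
      show (2 : Fin 3) + 1 = 0 from rfl, show (2 : Fin 3) + 2 = 1 from rfl, if_true, Fin.reduceEq, if_false]
    linear_combination (V n 0 * c 0 + V n 1 * c 1 + V n 2 * c 2) * h1 -
      ((n : E3) 0 * c 0 + (n : E3) 1 * c 1 + (n : E3) 2 * c 2) * ht
  have h4 : ∑ j, cr n (V n) j * rl j (fun y => dv V y) n =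
      - ∑ j, cr n (V n) j * ∑ i, rl j (fun y => y i) n * lc V n i
      - ∑ j, ∑ i, cr n (V n) j * (n : E3) i * rl j (fun y => lc V y i) n := by
    rw [← Finset.sum_neg_distrib, ← Finset.sum_sub_distrib]
    refine Finset.sum_congr rfl fun j _ => ?_
    rw [n5_dvj hV n j, Finset.sum_add_distrib]
    have e : ∑ i, cr n (V n) j * (n : E3) i * rl j (fun y => lc V y i) n =
        cr n (V n) j * ∑ i, (n : E3) i * rl j (fun y => lc V y i) n := by
      rw [Finset.mul_sum]
      exact Finset.sum_congr rfl fun i _ => by ring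
    rw [e]
    ring
  rw [h4, h3, h2]
  ring

theorem n5_cyc (i : Fin 3) : i + 1 + 1 = i + 2 ∧ i + 1 + 2 = i ∧ i + 2 + 1 = i ∧ i + 2 + 2 = i + 1 := by
  fin_cases i <;> decide

theorem n5_sum (i : Fin 3) (f : Fin 3 → ℝ) : ∑ k, f k = f i + f (i + 1) + f (i + 2) := by
  rw [Fin.sum_univ_three]
  fin_cases i
  · rfl
  · show f 0 + f 1 + f 2 = f 1 + f 2 + f 0
    ring
  · show f 0 + f 1 + f 2 = f 2 + f 0 + f 1
    ring

theorem cl_rl (hV : TF V) (n : S2) : ∑ j, V n j * rl j (fun y => cl V y) n -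
      ∑ j, ∑ k, V n k * rl j (fun y => rl j (fun z => V z k) y) n =
    ∑ i, V n i * (rl (i + 1) (fun y => lc V y (i + 2)) n - rl (i + 2) (fun y => lc V y (i + 1)) n) - nsq (V n) := by
  have h2 := lc_V hV.td n
  have hs : ∀ j k, ContDiff ℝ ∞ (fun y => rl j (fun z => V z k) y) := fun j k => rl_smooth (hV.sm k) j
  have e1 : ∀ j, rl j (fun y => cl V y) n = ∑ k, rl j (fun y => rl k (fun z => V z k) y) n := by
    intro j
    unfold cl
    exact rl_sum (f := fun k y => rl k (fun z => V z k) y) (fun k => n5_df (hs k k) _) j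
  have key : ∀ i, rl i (fun y => cl V y) n - ∑ j, rl j (fun y => rl j (fun z => V z i) y) n =
      (rl (i + 1) (fun y => lc V y (i + 2)) n - rl (i + 2) (fun y => lc V y (i + 1)) n) + lc V n i := by
    intro i
    obtain ⟨c1, c2, c3, c4⟩ := n5_cyc i
    have a1 : rl (i + 1) (fun y => lc V y (i + 2)) n =
        rl (i + 1) (fun y => rl i (fun z => V z (i + 1)) y) n - rl (i + 1) (fun y => rl (i + 1) (fun z => V z i) y) n := by
      unfold lc
      rw [c3, c4]
      exact rl_sub (n5_df (hs _ _) _) (n5_df (hs _ _) _) _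
    have a2 : rl (i + 2) (fun y => lc V y (i + 1)) n =
        rl (i + 2) (fun y => rl (i + 2) (fun z => V z i) y) n - rl (i + 2) (fun y => rl i (fun z => V z (i + 2)) y) n := by
      unfold lc
      rw [c1, c2]
      exact rl_sub (n5_df (hs _ _) _) (n5_df (hs _ _) _) _
    have b1 := rl_comm (hV.sm (i + 1)) i n
    have b2 := rl_comm (hV.sm (i + 2)) (i + 2) n
    rw [c3, c4] at b2
    rw [a1, a2, e1 i, n5_sum i (fun k => rl i (fun y => rl k (fun z => V z k) y) n),
      n5_sum i (fun j => rl j (fun y => rl j (fun z => V z i) y) n)]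
    unfold lc
    linear_combination b1 - b2
  have e2 : ∑ j, ∑ k, V n k * rl j (fun y => rl j (fun z => V z k) y) n =
      ∑ k, V n k * ∑ j, rl j (fun y => rl j (fun z => V z k) y) n := by
    rw [Finset.sum_comm]
    exact Finset.sum_congr rfl fun k _ => (Finset.mul_sum _ _ _).symm
  rw [e2, ← Finset.sum_sub_distrib]
  have e3 : ∀ i, V n i * rl i (fun y => cl V y) n - V n i * ∑ j, rl j (fun y => rl j (fun z => V z i) y) n =
      V n i * (rl (i + 1) (fun y => lc V y (i + 2)) n - rl (i + 2) (fun y => lc V y (i + 1)) n) + V n i * lc V n i := by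
    intro i
    rw [← mul_sub, key i]
    ring
  rw [Finset.sum_congr rfl fun i _ => e3 i, Finset.sum_add_distrib, h2]
  ring

theorem schouten (hV : TF V) (n : S2) :
    ∑ i, V n i * (rl (i + 1) (fun y => lc V y (i + 2)) n - rl (i + 2) (fun y => lc V y (i + 1)) n) =
      ∑ j, ∑ i, cr n (V n) j * (n : E3) i * rl j (fun y => lc V y i) n :=
  n5_alg (n := fun i => (n : E3) i) (V := V n) (E := fun j k => rl j (fun y => lc V y k) n) (sph_sq n) (hV.tan n)
    (fun k => rl_rad (fun y => lc V y k) n)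

theorem n5_sq {a M : Fin 3 → Fin 3 → ℝ} {N V : Fin 3 → ℝ} (ha : ∀ k i, M k i = a k i + N k * V i)
    (h1 : N 0 ^ 2 + N 1 ^ 2 + N 2 ^ 2 = 1) (hl : ∀ i, ∑ k, N k * M k i = 0) :
    ∑ k, ∑ i, a k i ^ 2 = ∑ k, ∑ i, M k i ^ 2 + ∑ i, V i ^ 2 := by
  have l0 := hl 0
  have l1 := hl 1
  have l2 := hl 2
  have e : ∀ k i, a k i = M k i - N k * V i := fun k i => by rw [ha]; ring
  simp only [e]
  simp only [Fin.sum_univ_three] at l0 l1 l2 ⊢
  linear_combination (V 0 ^ 2 + V 1 ^ 2 + V 2 ^ 2) * h1 - 2 * V 0 * l0 - 2 * V 1 * l1 - 2 * V 2 * l2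

theorem quad (hV : TD V) (n : S2) :
    cl V n ^ 2 + ∑ i, ∑ k, DV V n i k * DV V n k i + nsq (V n) = ∑ j, ∑ k, rl j (fun y => V y k) n ^ 2 := by
  have hM := DV_tng V n
  have a1 : ∀ j k, rl j (fun y => V y k) n = cr n (dcomp V n k) j := fun j k => by
    rw [rl_DV n j k, jm_cr]
  have ht : ∀ k, ∑ i, (n : E3) i * dcomp V n k i = 0 := by
    intro k
    unfold dcomp
    have e : ∀ i, (n : E3) i * ∑ j, jm n j i * rl j (fun y => V y k) n = ∑ j, rl j (fun y => V y k) n * (jm n j i * (n : E3) i) := by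
      intro i
      rw [Finset.mul_sum]
      exact Finset.sum_congr rfl fun j _ => by ring
    rw [Finset.sum_congr rfl fun i _ => e i, Finset.sum_comm]
    refine Finset.sum_eq_zero fun j _ => ?_
    rw [← Finset.mul_sum, jm_n, mul_zero]
  have a2 : ∑ j, ∑ k, rl j (fun y => V y k) n ^ 2 = ∑ k, ∑ i, dcomp V n k i ^ 2 := by
    rw [Finset.sum_comm]
    refine Finset.sum_congr rfl fun k _ => ?_
    have h := nsq_cr n (ht k)
    unfold nsq at h
    rw [← h]
    exact Finset.sum_congr rfl fun j _ => by rw [a1]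
  have a3 := n5_sq (a := dcomp V n) (M := DV V n) (N := fun i => (n : E3) i) (V := V n) (fun k i => DV_eq hV n k i) (sph_sq n) hM.l
  have a4 : ∀ i k, DV V n i k - DV V n k i = cl V n * jm n i k := by
    intro i k
    rw [tng_as n hM i k, DV_jm hV n]
  have a5 : ∑ i, ∑ k, jm n i k ^ 2 = 2 := by
    have h := fun i => jm_jm n i i
    have e : ∀ i, ∑ k, jm n i k ^ 2 = proj n i i := fun i => by
      rw [← h i]
      exact Finset.sum_congr rfl fun k _ => by ring
    rw [Finset.sum_congr rfl fun i _ => e i, Fin.sum_univ_three]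
    have h1 := sph_sq n
    unfold NullPen.proj
    simp only [if_true]
    linear_combination (-1) * h1
  have a6 : ∑ i, ∑ k, (DV V n i k - DV V n k i) ^ 2 = 2 * cl V n ^ 2 := by
    simp only [a4, mul_pow]
    simp only [← Finset.mul_sum]
    rw [a5]
    ring
  have a7 : ∑ i, ∑ k, (DV V n i k - DV V n k i) ^ 2 = 2 * ∑ k, ∑ i, DV V n k i ^ 2 - 2 * ∑ i, ∑ k, DV V n i k * DV V n k i := by
    simp only [Fin.sum_univ_three]
    ring
  rw [a2, a3]
  unfold nsq
  linarith

/-- (B2) -/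
theorem b2 (hV : TF V) (n : S2) : ∑ j, rl j (fun y => uv V y j) n = 2 * dtB (DV V n) - nsq (V n) := by
  have hs : ∀ j k, ContDiff ℝ ∞ (fun y => rl j (fun z => V z k) y) := fun j k => rl_smooth (hV.sm k) j
  have dd := n5_df (dv_smooth hV) (n : E3)
  have dc := n5_df (cl_smooth hV) (n : E3)
  have dV := fun i => n5_df (hV.sm i) (n : E3)
  have scr : ∀ j, ContDiff ℝ ∞ (fun y => cr y (V y) j) := by
    intro j
    have h : ∀ k : Fin 3, ContDiff ℝ ∞ (fun y : E3 => y k) := fun k => (EuclideanSpace.proj k : E3 →L[ℝ] ℝ).contDiff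
    exact ((h _).mul (hV.sm _)).sub ((h _).mul (hV.sm _))
  have dcr := fun j => n5_df (scr j) (n : E3)
  have sX : ∀ j, ContDiff ℝ ∞ (fun y => rl j (fun z => nsq (V z)) y) := fun j => rl_smooth (nsq_smooth hV) j
  have x1 : ∀ j y, rl j (fun z => nsq (V z)) y = ∑ k, 2 * (V y k * rl j (fun z => V z k) y) := by
    intro j y
    unfold nsq
    rw [rl_sum (f := fun k z => V z k ^ 2) fun k => (n5_df (hV.sm k) y).fun_pow 2]
    refine Finset.sum_congr rfl fun k _ => ?_
    have e : (fun z => V z k ^ 2) = fun z => V z k * V z k := by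
      funext z
      ring
    rw [e, rl_mul (n5_df (hV.sm k) y) (n5_df (hV.sm k) y)]
    ring
  have x2 : ∀ j, rl j (fun y => rl j (fun z => nsq (V z)) y) n =
      ∑ k, 2 * (rl j (fun y => V y k) n ^ 2 + V n k * rl j (fun y => rl j (fun z => V z k) y) n) := by
    intro j
    have e : (fun y => rl j (fun z => nsq (V z)) y) = fun y => ∑ k, 2 * (V y k * rl j (fun z => V z k) y) := by
      funext y
      exact x1 j y
    have d1 : ∀ k, DifferentiableAt ℝ (fun y => V y k * rl j (fun z => V z k) y) (n : E3) := fun k =>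
      (dV k).fun_mul (n5_df (hs j k) _)
    rw [e, rl_sum (f := fun k y => 2 * (V y k * rl j (fun z => V z k) y)) fun k => (d1 k).const_mul 2]
    refine Finset.sum_congr rfl fun k _ => ?_
    rw [rl_cmul (d1 k), rl_mul (dV k) (n5_df (hs j k) _)]
    ring
  have s1 : ∀ j, rl j (fun y => uv V y j) n = (rl j (fun y => dv V y) n * cr n (V n) j + dv V n * rl j (fun y => cr y (V y) j) n) +
      (rl j (fun y => cl V y) n * V n j + cl V n * rl j (fun y => V y j) n) -
      ∑ k, (rl j (fun y => V y k) n ^ 2 + V n k * rl j (fun y => rl j (fun z => V z k) y) n) := by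
    intro j
    have e : (fun y => uv V y j) = fun y => (dv V y * cr y (V y) j + cl V y * V y j) -
        (1 / 2) * rl j (fun z => nsq (V z)) y := by
      funext y
      unfold uv
      ring
    rw [e, rl_sub ((dd.fun_mul (dcr j)).fun_add (dc.fun_mul (dV j))) ((n5_df (sX j) _).const_mul _),
      rl_add (dd.fun_mul (dcr j)) (dc.fun_mul (dV j)), rl_mul dd (dcr j), rl_mul dc (dV j), rl_cmul (n5_df (sX j) _), x2,
      ← Finset.mul_sum]
    ring
  have t1 := dv_rl hV n
  have t2 := cl_rl hV n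
  have t3 := schouten hV n
  have t4 := quad hV.td n
  have t5 := DV_tr hV.td n
  rw [Finset.sum_congr rfl fun j _ => s1 j]
  simp only [Finset.sum_sub_distrib, Finset.sum_add_distrib]
  have u1 : ∑ j, dv V n * rl j (fun y => cr y (V y) j) n = dv V n * dv V n := by
    rw [← Finset.mul_sum]
    rfl
  have u2 : ∑ j, cl V n * rl j (fun y => V y j) n = cl V n * cl V n := by
    rw [← Finset.mul_sum]
    rfl
  have u3 : ∑ j, rl j (fun y => dv V y) n * cr n (V n) j = ∑ j, cr n (V n) j * rl j (fun y => dv V y) n :=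
    Finset.sum_congr rfl fun j _ => by ring
  have u4 : ∑ j, rl j (fun y => cl V y) n * V n j = ∑ j, V n j * rl j (fun y => cl V y) n :=
    Finset.sum_congr rfl fun j _ => by ring
  rw [u1, u2, u3, u4]
  unfold NullU.dtB
  rw [t5]
  linarith

theorem n5_w (V : E3 → Fin 3 → ℝ) (n : S2) (j : Fin 3) : rl j (fun y => nsq (V y)) n = 2 * cr n (wv V n) j := by
  rw [← jm_cr]
  unfold wv gd
  have e : ∀ i, jm n j i * ((∑ k, jm n k i * rl k (fun y => nsq (V y)) n) / 2) =
      ∑ k, (jm n j i * jm n k i) * (rl k (fun y => nsq (V y)) n / 2) := by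
    intro i
    rw [Finset.sum_div, Finset.mul_sum]
    exact Finset.sum_congr rfl fun k _ => by ring
  rw [Finset.sum_congr rfl fun i _ => e i, Finset.sum_comm]
  have e2 : ∀ k, ∑ i, (jm n j i * jm n k i) * (rl k (fun y => nsq (V y)) n / 2) =
      proj n j k * (rl k (fun y => nsq (V y)) n / 2) := by
    intro k
    rw [← Finset.sum_mul, jm_jm]
  rw [Finset.sum_congr rfl fun k _ => e2 k]
  have h := proj_vec n (v := fun k => rl k (fun y => nsq (V y)) n / 2) ?_ j
  · rw [h]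
    ring
  · have h2 := rl_rad (fun y => nsq (V y)) n
    have e3 : ∀ i, (n : E3) i * (rl i (fun y => nsq (V y)) n / 2) = ((n : E3) i * rl i (fun y => nsq (V y)) n) / 2 := fun i => by ring
    rw [Finset.sum_congr rfl fun i _ => e3 i, ← Finset.sum_div, h2, zero_div]

theorem uv_nsq (hV : TD V) (n : S2) : ∑ j, uv V n j * rl j (fun y => nsq (V y)) n = 2 * (nsq (V n) * dtB (DV V n)) := by
  have hb := b1 hV n
  set Z : Fin 3 → ℝ := fun i => dv V n * V n i - cl V n * cr n (V n) i - wv V n i with hZ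
  have hZt : ∑ i, (n : E3) i * Z i = 0 := by
    have h1 := hV.tan n
    have h2 := cr_tan n (V n)
    have h3 := wv_tan V n
    have e : ∀ i, (n : E3) i * Z i = dv V n * ((n : E3) i * V n i) - cl V n * ((n : E3) i * cr n (V n) i) - (n : E3) i * wv V n i :=
      fun i => by
        simp only [hZ]
        ring
    rw [Finset.sum_congr rfl fun i _ => e i, Finset.sum_sub_distrib, Finset.sum_sub_distrib, ← Finset.mul_sum, ← Finset.mul_sum,
      h1, h2, h3]
    ring
  have h1 : ∀ j, uv V n j = cr n Z j := by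
    intro j
    have h2 := cr_cr n (hV.tan n) j
    have h3 := n5_w V n j
    have h4 : cr n Z j = dv V n * cr n (V n) j - cl V n * cr n (cr n (V n)) j - cr n (wv V n) j := by
      simp only [cr_apply, hZ]
      ring
    rw [h4, h2]
    unfold uv
    rw [h3]
    ring
  have h2 : ∑ j, uv V n j * rl j (fun y => nsq (V y)) n = 2 * ∑ j, cr n Z j * cr n (wv V n) j := by
    rw [Finset.mul_sum]
    refine Finset.sum_congr rfl fun j _ => ?_
    rw [h1, n5_w]
    ring
  rw [h2, cr_dot n hZt, ← hb]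
  congr 1
  exact Finset.sum_congr rfl fun i _ => by
    simp only [hZ]
    ring

end H17S.Sph
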