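import Pool.Agent.Lib.H17S.N6

set_option autoImplicit false

/-!
Chunk N7 (M). The two integral identities of the weak maximum principle (PROOF.md, section 5). `X = nsq (V n)`, `w = wv V n`, `p = dv V n`, `q = cl V n`.
`wmp1`: (B1) gives `om(X) w . (p V - q J V) = om(X) |w|^2 + om(X) X dtB (DV V)`, and `∫ (om(X) X dtB - Φ(X)) = 0` by `null_lag` with `ν(x) = x om(x)`, `ka = - Φ`, `x0` = any number larger than the maximum of `X` (compactness; `IsCompact.exists_isMaxOn` or `IsCompact.bddAbove_image`).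
`wmp2`: put `F1(y) = Om(nsq (V y)) p0(y)`, `F2 = Om(nsq (V y)) q0(y)`. Both are of class `C1S` (`C1S.of_at`): at `n` with `nsq (V n) > x0` they are products of functions which are `ContDiffAt ℝ 1` (`Om` is `C^1`: `contDiff_one_iff_deriv`); at `n` with `nsq (V n) < x1` they vanish near `n`.
The field `U(y) = F1 V - F2 (y × V)` has `∫ dv U = 0` (`int_dv`), and with `dv_mul`, `dv_cr`: `dv U = F1 p + F2 q + ∑ (n × V)_j L_j F1 - ∑ (n × (n × V))_j L_j F2` (`dv` of a difference: `rl_sub`); for `nsq (V n) > x0`: `L_j F1 = om(X) p0 L_j X + Om(X) L_j p0`; for `nsq (V n) < x1`: `F1 = 0` near `n`, `om(X) = 0`, `Om(X) = 0` (the formula holds too).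
`∑_j (n × V)_j L_j X = 2 V . w` and `∑_j (n × (n × V))_j L_j X = 2 (n × V) . w` (`gd_dot`, `wv`). So `0 = ∫ [Om (p0 p + q0 q + V . gd p0 - J V . gd q0) + 2 om w . (p0 V - q0 J V)]`.
-/

open MeasureTheory Filter Topology Set
open scoped ContDiff ComplexConjugate

namespace H17S.Sph

open NullPen (E3 S2 sm proj)
open NullU (rl crs dtB Tng cf)

variable {V : E3 → Fin 3 → ℝ}

theorem n7_om0 {Om om : ℝ → ℝ} (hO : ∀ x, HasDerivAt Om (om x) x) {x1 : ℝ} (hz : ∀ x ≤ x1, Om x = 0) {x : ℝ} (hx : x < x1) :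
    om x = 0 := by
  have h1 : Om =ᶠ[𝓝 x] fun _ => 0 := by
    filter_upwards [Iio_mem_nhds hx] with y hy
    exact hz y (le_of_lt hy)
  exact (hO x).unique ((hasDerivAt_const x (0:ℝ)).congr_of_eventuallyEq h1)

theorem n7_near (hV : TF V) {x1 : ℝ} {n : S2} (h : nsq (V n) < x1) : {y : E3 | nsq (V y) < x1} ∈ 𝓝 (n : E3) :=
  (isOpen_lt (nsq_smooth hV).continuous continuous_const).mem_nhds h

theorem n7_c1 (hV : TF V) {Om om : ℝ → ℝ} (hO : ∀ x, HasDerivAt Om (om x) x) (ho : Continuous om) {x0 x1 : ℝ} (h01 : x0 < x1)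
    (hz : ∀ x ≤ x1, Om x = 0) {p0 : E3 → ℝ} (hp : ∀ n : S2, x0 < nsq (V n) → ContDiffAt ℝ 1 p0 n) :
    C1S (fun y => Om (nsq (V y)) * p0 y) := by
  apply C1S.of_at
  intro n
  rcases lt_or_ge x0 (nsq (V n)) with h | h
  · have h1 : ContDiff ℝ 1 Om := by
      rw [contDiff_one_iff_deriv]
      refine ⟨fun x => (hO x).differentiableAt, ?_⟩
      have h2 : deriv Om = om := funext fun x => (hO x).deriv
      rw [h2]
      exact ho
    have h3 : ContDiff ℝ 1 (fun y => nsq (V y)) := (nsq_smooth hV).of_le (by simp)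
    exact ((h1.comp h3).contDiffAt).mul (hp n h)
  · have h2 := n7_near hV (lt_of_le_of_lt h h01)
    have h3 : (fun y => Om (nsq (V y)) * p0 y) =ᶠ[𝓝 (n : E3)] fun _ => 0 := by
      filter_upwards [h2] with y hy
      rw [hz _ (le_of_lt hy), zero_mul]
    exact contDiffAt_const.congr_of_eventuallyEq h3

theorem n7_rl (hV : TF V) {Om om : ℝ → ℝ} (hO : ∀ x, HasDerivAt Om (om x) x) {x0 x1 : ℝ} (h01 : x0 < x1)
    (hz : ∀ x ≤ x1, Om x = 0) {p0 : E3 → ℝ} (hp : ∀ n : S2, x0 < nsq (V n) → ContDiffAt ℝ 1 p0 n) (n : S2) (j : Fin 3) :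
    rl j (fun y => Om (nsq (V y)) * p0 y) n =
      om (nsq (V n)) * p0 n * rl j (fun y => nsq (V y)) n + Om (nsq (V n)) * rl j p0 n := by
  rcases lt_or_ge x0 (nsq (V n)) with h | h
  · have hd : DifferentiableAt ℝ (fun y => nsq (V y)) (n : E3) := (nsq_smooth hV).differentiable (by simp) _
    have hd0 : DifferentiableAt ℝ p0 (n : E3) := (hp n h).differentiableAt (by simp)
    have hd1 : DifferentiableAt ℝ (fun y => Om (nsq (V y))) (n : E3) := (hO _).differentiableAt.comp _ hd
    rw [rl_mul hd1 hd0, rl_comp hd (hO _)]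
    ring
  · have h2 := n7_near hV (lt_of_le_of_lt h h01)
    have h3 : (fun y => Om (nsq (V y)) * p0 y) =ᶠ[𝓝 (n : E3)] fun _ => 0 := by
      filter_upwards [h2] with y hy
      rw [hz _ (le_of_lt hy), zero_mul]
    rw [rl_nhds h3, rl_const, n7_om0 hO hz (lt_of_le_of_lt h h01), hz _ (h.trans h01.le)]
    ring

theorem n7_cont (hV : TF V) {Om om : ℝ → ℝ} (hO : ∀ x, HasDerivAt Om (om x) x) (ho : Continuous om) {x0 x1 : ℝ} (h01 : x0 < x1)
    (hz : ∀ x ≤ x1, Om x = 0) {p0 : E3 → ℝ} (hp : ∀ n : S2, x0 < nsq (V n) → ContDiffAt ℝ 1 p0 n) :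
    Continuous (fun n : S2 => om (nsq (V n)) * p0 n) := by
  have hc : Continuous (fun n : S2 => nsq (V n)) := nsq_cont hV.c1
  rw [continuous_iff_continuousAt]
  intro n
  rcases lt_or_ge x0 (nsq (V n)) with h | h
  · have h1 : ContinuousAt (fun n : S2 => p0 n) n :=
      ContinuousAt.comp (f := fun n : S2 => (n : E3)) (g := p0) (hp n h).continuousAt continuous_subtype_val.continuousAt
    exact (ho.comp hc).continuousAt.mul h1
  · have h2 : {m : S2 | nsq (V m) < x1} ∈ 𝓝 n := (isOpen_lt hc continuous_const).mem_nhds (lt_of_le_of_lt h h01)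
    have h3 : (fun m : S2 => om (nsq (V m)) * p0 m) =ᶠ[𝓝 n] fun _ => 0 := by
      filter_upwards [h2] with m hm
      rw [n7_om0 hO hz hm, zero_mul]
    exact continuousAt_const.congr h3.symm

theorem n7_dv (hV : TF V) {F1 F2 : E3 → ℝ} (h1 : C1S F1) (h2 : C1S F2) (n : S2) :
    dv (fun y i => F1 y * V y i - F2 y * cr y (V y) i) n =
      F1 n * dv V n + F2 n * cl V n + ∑ j, cr n (V n) j * rl j F1 n - ∑ j, cr n (cr n (V n)) j * rl j F2 n := by
  have e0 : dv (fun y i => F1 y * V y i - F2 y * cr y (V y) i) n =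
      dv (fun y i => F1 y * V y i) n - dv (fun y i => F2 y * cr y (V y) i) n := by
    unfold dv
    rw [← Finset.sum_sub_distrib]
    refine Finset.sum_congr rfl fun j _ => ?_
    have e1 : (fun y : E3 => cr y ((fun y i => F1 y * V y i - F2 y * cr y (V y) i) y) j) =
        fun y => cr y ((fun y i => F1 y * V y i) y) j - cr y ((fun y i => F2 y * cr y (V y) i) y) j := by
      funext y
      simp only [cr_apply]
      ring
    rw [e1]
    exact rl_sub ((C1S.cr (V := fun y i => F1 y * V y i) (fun i => h1.mul (hV.c1 i)) j).diff n)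
      ((C1S.cr (V := fun y i => F2 y * cr y (V y) i) (fun i => h2.mul (C1S.cr hV.c1 i)) j).diff n) j
  have e2 := dv_mul (h1.diff n) (fun i => (hV.c1 i).diff n)
  have e3 := dv_mul (V := fun y => cr y (V y)) (h2.diff n) (fun i => (C1S.cr hV.c1 i).diff n)
  have e4 := dv_cr hV.td n
  rw [e0, e2, e3, e4]
  ring

theorem wmp1 (hV : TF V) {om Φ : ℝ → ℝ} (ho : Continuous om) (hΦ : ∀ x, 0 ≤ x → Φ x = (1 / 2) * ∫ t in (0 : ℝ)..x, t * om t) :
    ∫ n : S2, om (nsq (V n)) * nsq (wv V n) ∂sm + ∫ n : S2, Φ (nsq (V n)) ∂sm =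
      ∫ n : S2, om (nsq (V n)) * ∑ i, wv V n i * (dv V n * V n i - cl V n * cr n (V n) i) ∂sm := by
  have hc : Continuous (fun n : S2 => nsq (V n)) := nsq_cont hV.c1
  have hX0 : ∀ n : S2, 0 ≤ nsq (V n) := fun n => Finset.sum_nonneg fun i _ => sq_nonneg _
  obtain ⟨b, hb⟩ := (isCompact_range hc).bddAbove
  have hx : ∀ n : S2, nsq (V n) < b + 1 := fun n => by
    have := hb (mem_range_self n)
    linarith
  have hcI : Continuous (fun x : ℝ => ∫ t in (0 : ℝ)..x, t * om t) :=
    intervalIntegral.continuous_primitive (fun a c => (continuous_id.mul ho).intervalIntegrable a c) 0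
  have hΦc : Continuous (fun n : S2 => Φ (nsq (V n))) := by
    have h1 : (fun n : S2 => Φ (nsq (V n))) = fun n : S2 => (1 / 2) * ∫ t in (0 : ℝ)..nsq (V n), t * om t :=
      funext fun n => hΦ _ (hX0 n)
    rw [h1]
    exact continuous_const.mul (hcI.comp hc)
  have h1 := null_lag hV hx (ν := fun x => x * om x) (ka := fun x => - Φ x) (continuous_id.mul ho).continuousOn
    (by
      intro x hx
      show - Φ x = _
      rw [hΦ x hx.1]
      ring)
  have hw : Continuous (fun n : S2 => nsq (wv V n)) := by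
    unfold nsq
    exact continuous_finsetSum _ fun i _ => (wv_cont hV.c1 i).pow 2
  have hd : Continuous (fun n : S2 => dtB (DV V n)) := dtB_cont hV.c1
  have i1 : Integrable (fun n : S2 => om (nsq (V n)) * nsq (wv V n)) sm := cont_int ((ho.comp hc).mul hw)
  have i2 : Integrable (fun n : S2 => Φ (nsq (V n))) sm := cont_int hΦc
  have i3 : Integrable (fun n : S2 => nsq (V n) * om (nsq (V n)) * dtB (DV V n)) sm :=
    cont_int ((hc.mul (ho.comp hc)).mul hd)
  have h2 : (-∫ n : S2, Φ (nsq (V n)) ∂sm) + ∫ n : S2, nsq (V n) * om (nsq (V n)) * dtB (DV V n) ∂sm = 0 := by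
    have i2' : Integrable (fun n : S2 => - Φ (nsq (V n))) sm := cont_int hΦc.neg
    rw [← integral_neg, ← integral_add i2' i3]
    exact h1
  have h3 : ∫ n : S2, om (nsq (V n)) * ∑ i, wv V n i * (dv V n * V n i - cl V n * cr n (V n) i) ∂sm =
      (∫ n : S2, om (nsq (V n)) * nsq (wv V n) ∂sm) + ∫ n : S2, nsq (V n) * om (nsq (V n)) * dtB (DV V n) ∂sm := by
    rw [← integral_add i1 i3]
    refine integral_congr_ae (Eventually.of_forall fun n => ?_)
    show om (nsq (V n)) * ∑ i, wv V n i * (dv V n * V n i - cl V n * cr n (V n) i) =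
      om (nsq (V n)) * nsq (wv V n) + nsq (V n) * om (nsq (V n)) * dtB (DV V n)
    have h4 := b1 hV.td n
    have h5 : ∑ i, wv V n i * (dv V n * V n i - cl V n * cr n (V n) i - wv V n i) =
        (∑ i, wv V n i * (dv V n * V n i - cl V n * cr n (V n) i)) - nsq (wv V n) := by
      unfold nsq
      rw [← Finset.sum_sub_distrib]
      refine Finset.sum_congr rfl fun i _ => ?_
      ring
    rw [h5] at h4
    linear_combination om (nsq (V n)) * h4
  rw [h3]
  linarith

theorem wmp2 (hV : TF V) {Om om : ℝ → ℝ} (hO : ∀ x, HasDerivAt Om (om x) x) (ho : Continuous om) {x0 x1 : ℝ} (h01 : x0 < x1)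
    (hz : ∀ x ≤ x1, Om x = 0) {p0 q0 : E3 → ℝ} (hp : ∀ n : S2, x0 < nsq (V n) → ContDiffAt ℝ 1 p0 n)
    (hq : ∀ n : S2, x0 < nsq (V n) → ContDiffAt ℝ 1 q0 n) :
    ∫ n : S2, om (nsq (V n)) * ∑ i, wv V n i * (p0 n * V n i - q0 n * cr n (V n) i) ∂sm =
      -(1 / 2) * ∫ n : S2, Om (nsq (V n)) * (p0 n * dv V n + q0 n * cl V n + ∑ i, V n i * gd p0 n i -
        ∑ i, cr n (V n) i * gd q0 n i) ∂sm := by
  have c1 := n7_c1 hV hO ho h01 hz hp
  have c2 := n7_c1 hV hO ho h01 hz hq
  set F1 : E3 → ℝ := fun y => Om (nsq (V y)) * p0 y with hF1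
  set F2 : E3 → ℝ := fun y => Om (nsq (V y)) * q0 y with hF2
  have hU : ∀ i, C1S (fun y => F1 y * V y i - F2 y * cr y (V y) i) := fun i =>
    (c1.mul (hV.c1 i)).sub (c2.mul (C1S.cr hV.c1 i))
  have h0 := int_dv (V := fun y i => F1 y * V y i - F2 y * cr y (V y) i) hU
  set A : S2 → ℝ := fun n => om (nsq (V n)) * ∑ i, wv V n i * (p0 n * V n i - q0 n * cr n (V n) i) with hA
  set B : S2 → ℝ := fun n => Om (nsq (V n)) * (p0 n * dv V n + q0 n * cl V n + ∑ i, V n i * gd p0 n i -
        ∑ i, cr n (V n) i * gd q0 n i) with hB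
  have hpt : ∀ n : S2, dv (fun y i => F1 y * V y i - F2 y * cr y (V y) i) n = B n + 2 * A n := by
    intro n
    rw [n7_dv hV c1 c2 n]
    have r1 : ∀ j, rl j F1 n = om (nsq (V n)) * p0 n * rl j (fun y => nsq (V y)) n + Om (nsq (V n)) * rl j p0 n :=
      n7_rl hV hO h01 hz hp n
    have r2 : ∀ j, rl j F2 n = om (nsq (V n)) * q0 n * rl j (fun y => nsq (V y)) n + Om (nsq (V n)) * rl j q0 n :=
      n7_rl hV hO h01 hz hq n
    simp only [r1, r2]
    have g1 := gd_dot (fun y => nsq (V y)) n (V n)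
    have g2 := gd_dot (fun y => nsq (V y)) n (cr n (V n))
    have g3 := gd_dot p0 n (V n)
    have g4 := gd_dot q0 n (cr n (V n))
    have s1 : ∑ j, cr n (V n) j * (om (nsq (V n)) * p0 n * rl j (fun y => nsq (V y)) n + Om (nsq (V n)) * rl j p0 n) =
        om (nsq (V n)) * p0 n * (∑ j, cr n (V n) j * rl j (fun y => nsq (V y)) n) +
          Om (nsq (V n)) * ∑ j, cr n (V n) j * rl j p0 n := by
      rw [Finset.mul_sum, Finset.mul_sum, ← Finset.sum_add_distrib]
      refine Finset.sum_congr rfl fun j _ => ?_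
      ring
    have s2 : ∑ j, cr n (cr n (V n)) j * (om (nsq (V n)) * q0 n * rl j (fun y => nsq (V y)) n + Om (nsq (V n)) * rl j q0 n) =
        om (nsq (V n)) * q0 n * (∑ j, cr n (cr n (V n)) j * rl j (fun y => nsq (V y)) n) +
          Om (nsq (V n)) * ∑ j, cr n (cr n (V n)) j * rl j q0 n := by
      rw [Finset.mul_sum, Finset.mul_sum, ← Finset.sum_add_distrib]
      refine Finset.sum_congr rfl fun j _ => ?_
      ring
    rw [s1, s2, ← g1, ← g2, ← g3, ← g4]
    have w1 : ∑ i, V n i * gd (fun y => nsq (V y)) n i = 2 * ∑ i, V n i * wv V n i := by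
      rw [Finset.mul_sum]
      refine Finset.sum_congr rfl fun i _ => ?_
      unfold wv
      ring
    have w2 : ∑ i, cr n (V n) i * gd (fun y => nsq (V y)) n i = 2 * ∑ i, cr n (V n) i * wv V n i := by
      rw [Finset.mul_sum]
      refine Finset.sum_congr rfl fun i _ => ?_
      unfold wv
      ring
    have w3 : ∑ i, wv V n i * (p0 n * V n i - q0 n * cr n (V n) i) =
        p0 n * (∑ i, V n i * wv V n i) - q0 n * ∑ i, cr n (V n) i * wv V n i := by
      rw [Finset.mul_sum, Finset.mul_sum, ← Finset.sum_sub_distrib]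
      refine Finset.sum_congr rfl fun i _ => ?_
      ring
    rw [w1, w2]
    simp only [hA, hB, hF1, hF2, w3]
    ring
  have cA : Continuous A := by
    have k1 := n7_cont hV hO ho h01 hz hp
    have k2 := n7_cont hV hO ho h01 hz hq
    have hV' : ∀ i, Continuous (fun n : S2 => V n i) := fun i => (hV.c1 i).cont0
    have hcr : ∀ i, Continuous (fun n : S2 => cr n (V n) i) := fun i => (C1S.cr hV.c1 i).cont0
    have e1 : A = fun n : S2 => ∑ i, wv V n i * (om (nsq (V n)) * p0 n * V n i - om (nsq (V n)) * q0 n * cr n (V n) i) := by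
      funext n
      simp only [hA]
      rw [Finset.mul_sum]
      refine Finset.sum_congr rfl fun i _ => ?_
      ring
    rw [e1]
    exact continuous_finsetSum _ fun i _ => (wv_cont hV.c1 i).mul ((k1.mul (hV' i)).sub (k2.mul (hcr i)))
  have cB : Continuous B := by
    have e1 : B = fun n : S2 => dv (fun y i => F1 y * V y i - F2 y * cr y (V y) i) n - 2 * A n := by
      funext n
      rw [hpt n]
      ring
    rw [e1]
    exact (dv_cont hU).sub (continuous_const.mul cA)
  simp only [hpt] at h0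
  rw [integral_add (cont_int cB) ((cont_int cA).const_mul 2), integral_const_mul] at h0
  linarith

end H17S.Sph
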