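import Pool.Agent.Lib.H17S.Def

set_option autoImplicit false

/-!
Chunk W1 (M). Algebraic identities of the model function `f`. All are rational identities in `P, N, r` (`m = (P^2 - N^2)/(2P)`), `q = r^2 + N^2 > 0` for `r > 0`.
Hints. `ff_form`: `(r - P)(r + N^2/P) = r^2 - 2 m r - N^2`. `ff_der`, `ff1_der`: quotient rule, `field_simp`, `ring`. For the complex identities (`M1`, `M2`): multiply with `rho^3`, `rho^4`;
`rho * conj rho = q`, i.e. `1 / rho = conj rho / q`; `Complex.ext` and compare real and imaginary parts: `2f + conj ρ f' = 2 M conj ρ^3 / q^3`. `M4`: `f = (r - P)(r + c)/q^2` with `c = N^2/P`;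
`3 f'^2 - 2 f f'' = 3 f^2 (1/(r - P) - 1/(r + c))^2` for `r > P`, equivalently `(3 f'^2 - 2 f f'') = 3 (P + c)^2 / q^4` (rational identity; note `P + c = (P^2+N^2)/P`).
-/

open MeasureTheory Filter Topology Set
open scoped ContDiff ComplexConjugate

namespace H17S

theorem qq_pos {N r : ℝ} (hr : 0 < r) : 0 < qq N r := by
  unfold qq
  positivity

theorem rho_re {N r : ℝ} : (rho N r).re = r := by
  simp [rho]

theorem w1_rho_im {N r : ℝ} : (rho N r).im = N := by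
  simp [rho]

theorem rho_ne {N r : ℝ} (hr : 0 < r) : rho N r ≠ 0 := by
  intro h
  have h1 : (rho N r).re = 0 := by rw [h, Complex.zero_re]
  rw [rho_re] at h1
  exact hr.ne' h1

theorem rho_conj_ne {N r : ℝ} (hr : 0 < r) : conj (rho N r) ≠ 0 :=
  (map_ne_zero _).2 (rho_ne hr)

theorem rho_mul_conj {N r : ℝ} : rho N r * conj (rho N r) = (qq N r : ℂ) := by
  rw [Complex.mul_conj, Complex.normSq_apply, rho_re, w1_rho_im, qq]
  push_cast
  ring

theorem rho_norm_sq {N r : ℝ} : ‖rho N r‖ ^ 2 = qq N r := by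
  rw [Complex.sq_norm, Complex.normSq_apply, rho_re, w1_rho_im, qq]
  ring

theorem Mc_norm_sq (P N : ℝ) : ‖Mc P N‖ ^ 2 = mm P N ^ 2 + N ^ 2 := by
  rw [Complex.sq_norm, Complex.normSq_apply]
  simp [Mc]
  ring

theorem ff_form {P N r : ℝ} (hP : 0 < P) : ff P N r = (r - P) * (r + N ^ 2 / P) / qq N r ^ 2 := by
  unfold ff mm
  congr 1
  field_simp
  ring

theorem ff_P {P N : ℝ} (hP : 0 < P) : ff P N P = 0 := by
  rw [ff_form hP]
  simp

theorem ff_pos {P N r : ℝ} (hP : 0 < P) (hr : P < r) : 0 < ff P N r := by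
  rw [ff_form hP]
  have h1 : 0 < r - P := sub_pos.2 hr
  have h2 : 0 < r := hP.trans hr
  have h3 := qq_pos (N := N) h2
  positivity

theorem ff_nonneg {P N r : ℝ} (hP : 0 < P) (hr : P ≤ r) : 0 ≤ ff P N r := by
  rcases hr.eq_or_lt with h | h
  · rw [← h, ff_P hP]
  · exact (ff_pos hP h).le

theorem w1_qq_der (N r : ℝ) : HasDerivAt (qq N) (2 * r) r := by
  have h : HasDerivAt (fun x : ℝ => x ^ 2 + N ^ 2) (2 * r) r := by
    simpa using (hasDerivAt_pow 2 r).add_const (N ^ 2)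
  exact h

theorem ff_der {P N r : ℝ} (hr : 0 < r) : HasDerivAt (ff P N) (ff1 P N r) r := by
  have hq := (qq_pos (N := N) hr).ne'
  have h1 : HasDerivAt (fun r => r ^ 2 - 2 * mm P N * r - N ^ 2) (2 * r - 2 * mm P N) r := by
    have h := ((hasDerivAt_pow 2 r).sub ((hasDerivAt_id r).const_mul (2 * mm P N))).sub_const (N ^ 2)
    simpa using h
  have h2 : HasDerivAt (ff P N) _ r := h1.div ((w1_qq_der N r).pow 2) (pow_ne_zero 2 hq)
  refine h2.congr_deriv ?_
  unfold ff1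
  have h3 : qq N r = r ^ 2 + N ^ 2 := rfl
  field_simp
  rw [h3]
  ring

theorem ff1_der {P N r : ℝ} (hr : 0 < r) : HasDerivAt (ff1 P N) (ff2 P N r) r := by
  have hq := (qq_pos (N := N) hr).ne'
  have h1 : HasDerivAt (fun r => -2 * (r ^ 3 - 3 * mm P N * r ^ 2 - 3 * N ^ 2 * r + mm P N * N ^ 2))
      (-2 * (3 * r ^ 2 - 6 * mm P N * r - 3 * N ^ 2)) r := by
    have h : HasDerivAt (fun r : ℝ => -2 * (r ^ 3 - 3 * mm P N * r ^ 2 - 3 * N ^ 2 * r + mm P N * N ^ 2)) _ r :=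
      (((((hasDerivAt_pow 3 r).sub ((hasDerivAt_pow 2 r).const_mul (3 * mm P N))).sub
      ((hasDerivAt_id r).const_mul (3 * N ^ 2))).add_const (mm P N * N ^ 2)).const_mul (-2))
    refine h.congr_deriv ?_
    push_cast
    ring
  have h2 : HasDerivAt (ff1 P N) _ r := h1.div ((w1_qq_der N r).pow 3) (pow_ne_zero 3 hq)
  refine h2.congr_deriv ?_
  unfold ff2
  have h3 : qq N r = r ^ 2 + N ^ 2 := rfl
  field_simp
  rw [h3]
  ring

theorem w1_conj {N r : ℝ} : conj (rho N r) = (r : ℂ) - (N : ℂ) * Complex.I := by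
  simp [rho, sub_eq_add_neg]

theorem w1_ff {P N r : ℝ} : (ff P N r : ℂ) = ((rho N r ^ 2 + conj (rho N r) ^ 2) / 2 -
    (mm P N : ℂ) * (rho N r + conj (rho N r))) / (rho N r * conj (rho N r)) ^ 2 := by
  rw [rho_mul_conj, w1_conj]
  unfold ff rho
  push_cast
  congr 1
  linear_combination (-(N : ℂ) ^ 2) * Complex.I_sq

theorem w1_ff1 {P N r : ℝ} : (ff1 P N r : ℂ) = -2 * ((rho N r ^ 3 + conj (rho N r) ^ 3) / 2 -
    (mm P N : ℂ) * (rho N r ^ 2 + rho N r * conj (rho N r) + conj (rho N r) ^ 2)) /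
      (rho N r * conj (rho N r)) ^ 3 := by
  rw [rho_mul_conj, w1_conj]
  unfold ff1 rho qq
  push_cast
  congr 1
  ring_nf
  simp only [Complex.I_sq]
  ring

theorem w1_ff2 {P N r : ℝ} : (ff2 P N r : ℂ) = 6 * ((rho N r ^ 4 + conj (rho N r) ^ 4) / 2 -
    (mm P N : ℂ) * (rho N r ^ 3 + rho N r ^ 2 * conj (rho N r) + rho N r * conj (rho N r) ^ 2 +
      conj (rho N r) ^ 3)) / (rho N r * conj (rho N r)) ^ 4 := by
  rw [rho_mul_conj, w1_conj]
  unfold ff2 rho qq
  push_cast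
  congr 1
  ring_nf
  have h4 : Complex.I ^ 4 = 1 := Complex.I_pow_four
  simp only [Complex.I_sq, h4]
  ring

theorem w1_Mc {P N r : ℝ} : Mc P N = (mm P N : ℂ) + (rho N r - conj (rho N r)) / 2 := by
  rw [w1_conj]
  unfold Mc rho
  ring

theorem M1 {P N r : ℝ} (hr : 0 < r) :
    2 * (ff P N r : ℂ) + conj (rho N r) * (ff1 P N r : ℂ) = 2 * Mc P N / rho N r ^ 3 := by
  rw [w1_ff, w1_ff1, w1_Mc (r := r)]
  have ha := rho_ne (N := N) hr
  have hb := rho_conj_ne (N := N) hr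
  generalize rho N r = a at *
  generalize conj a = b at *
  field_simp
  ring

theorem M2 {P N r : ℝ} (hr : 0 < r) :
    3 * (ff1 P N r : ℂ) + conj (rho N r) * (ff2 P N r : ℂ) = -6 * Mc P N / rho N r ^ 4 := by
  rw [w1_ff1, w1_ff2, w1_Mc (r := r)]
  have ha := rho_ne (N := N) hr
  have hb := rho_conj_ne (N := N) hr
  generalize rho N r = a at *
  generalize conj a = b at *
  field_simp
  ring

theorem M4 {P N r : ℝ} (hP : 0 < P) (hr : 0 < r) : 0 ≤ 3 * ff1 P N r ^ 2 - 2 * ff P N r * ff2 P N r := by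
  have hq := qq_pos (N := N) hr
  have h1 : 3 * ff1 P N r ^ 2 - 2 * ff P N r * ff2 P N r = 3 * (P + N ^ 2 / P) ^ 2 / qq N r ^ 4 := by
    unfold ff ff1 ff2
    have hm : mm P N = (P - N ^ 2 / P) / 2 := by
      unfold mm
      field_simp
    have hN : N ^ 2 = P * (N ^ 2 / P) := by
      field_simp
    have h3 : qq N r = r ^ 2 + P * (N ^ 2 / P) := by
      rw [← hN]
      rfl
    rw [hm]
    generalize N ^ 2 / P = c at *
    have h4 : N ^ 4 = (P * c) ^ 2 := by
      rw [← hN]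
      ring
    rw [h4, hN]
    field_simp
    rw [h3]
    ring
  rw [h1]
  positivity

theorem M5 {P N r : ℝ} (hr : 0 < r) : 4 * ff P N r ^ 2 + 4 * r * ff P N r * ff1 P N r + qq N r * ff1 P N r ^ 2 =
    4 * (mm P N ^ 2 + N ^ 2) / qq N r ^ 3 := by
  have hq := (qq_pos (N := N) hr).ne'
  unfold ff ff1
  have h3 : qq N r = r ^ 2 + N ^ 2 := rfl
  field_simp
  rw [h3]
  ring

theorem M6 {P N r : ℝ} (hr : 0 < r) : qq N r * ff2 P N r + 6 * r * ff1 P N r + 6 * ff P N r = 0 := by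
  have hq := (qq_pos (N := N) hr).ne'
  unfold ff ff1 ff2
  have h3 : qq N r = r ^ 2 + N ^ 2 := rfl
  field_simp
  rw [h3]
  ring

theorem lamr_norm_sq {P N r : ℝ} (hr : 0 < r) : ‖lamr P N r‖ ^ 2 = (mm P N ^ 2 + N ^ 2) / qq N r ^ 3 := by
  unfold lamr
  rw [norm_div, norm_neg, norm_pow, div_pow, Mc_norm_sq, ← pow_mul, mul_comm 3 2, pow_mul, rho_norm_sq]

/-- `4 r f + q f' = 2/r`-type combination in terms of `M / ρ^2`: `Re (M / ρ^2) = r f + q f'/2`. -/
theorem M_rho_sq {P N r : ℝ} (hr : 0 < r) : (Mc P N / rho N r ^ 2).re = r * ff P N r + qq N r * ff1 P N r / 2 := by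
  have hq := (qq_pos (N := N) hr).ne'
  have ha := rho_ne (N := N) hr
  have hb := rho_conj_ne (N := N) hr
  have h1 : Mc P N / rho N r ^ 2 = Mc P N * conj (rho N r) ^ 2 / ((qq N r ^ 2 : ℝ) : ℂ) := by
    push_cast
    rw [← rho_mul_conj]
    field_simp
  have h2 : (Mc P N * conj (rho N r) ^ 2).re = mm P N * (r ^ 2 - N ^ 2) + 2 * r * N ^ 2 := by
    rw [w1_conj]
    simp [Mc, pow_two]
    ring
  rw [h1, Complex.div_ofReal_re, h2]
  unfold ff ff1
  field_simp
  ring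

end H17S
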