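import Pool.Agent.Lib.H17S.W9

set_option autoImplicit false

/-!
Chunk W10 (M/L). The derivative of `L0`: `L0' = h1 (|gA|^2 - |gB|^2) - mh e a`.
It is a polynomial identity in the real and imaginary parts of `A, B, m1, vv, cA, cB, lam, lam1, E1, EE, EE1, sig`; recommended order (`<z,w> = conj z_A w_A - conj z_B w_B`, `u = (uA, uB)`, `w = (wA, wB)`, `psi = (A, B)`,
`j psi = (conj B, conj A)`, `VV = (vv, - conj vv)`):
 (1) `h1 (|gA|^2-|gB|^2) = h1 |u|^2 - 2 h1 Re<u, conj EE psi'> + 2 mh (|A1|^2 - |B1|^2)` (`h1_EE`), and `mh (u a)' = 2 mh (|A1|^2-|B1|^2) - mh e a` (`ua_d`): cancels.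
 (2) `2 h Re<u,u'> + 2 h1 Re<u, conj EE psi'> = - 2 Re<u, w'>` (`E1_h`, `E_h`: `h conj EE1 + h1 conj EE = - conj E1`, `- h sig conj EE = sig conj E`).
 (3) `(2/ν) Re<w,w'> - 2 Re<u,w'> = - 2 Re< X VV + conj t psi, w'>` (`w/ν - u = - X VV - conj t psi`, since `EE1 = t + E1/ν`, `EE1_eq`).
 (4) `<psi, j psi> = 0`, `<psi,psi'> = u a/2` (real, `psi1`): `- 2 Re<conj t psi, w'> = - u a Re(t conj E1)`.
 (5) the terms with `u a`: `mh1 - z1 - Re(t conj E1) + 2 X Re(conj lam E1) = 0` (`I2`).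
 (6) `2 X Re<VV', conj E1 psi> = - 2 X a Re(lam1 conj E1)` cancels with `2 a X Re(conj lam1 E1)`.
 (7) `E1' = 4 lam - sig conj E` (`ac_eq`): `2X Re<VV, conj E1' psi> = 8 X Re<VV, conj lam psi> - 2 X Re(conj sig E <VV,psi>)`, and `2 X Re<VV, sig conj E j psi> = 2 X Re(sig conj E conj<VV,psi>)`: the `sig` terms cancel,
     the `lam` term cancels against the cost (`cost_d`, `costI`). The term `2X Re<VV, conj E1 psi'>` cancels with `- 2 X Re<VV, conj E1 psi'>` from (3).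
 (8) the terms with `a`: `- 6 X |lam|^2 - z1' + 2 X Re(conj lam (4 lam - sig conj E)) = 0` (`z1_d`).
It is recommended to prove the algebra as a separate lemma about complex numbers (write each as `x + y I` with real `x, y`, or keep `re`, `im`).
-/

open MeasureTheory Filter Topology Set
open scoped ContDiff ComplexConjugate

namespace H17S

variable {M : Mo} {p : Pa}

theorem w10_poly {K : Type} [Field K] [CharZero K]
    (A A' B B' m m' v v' E E' F F' G G' H H' l l' k k' sg sg' t t' c c' d d'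
      u e h h1 mh mh1 X n z1 : K)
    (hE : E = -h*G) (hE' : E' = -h*G') (hF : F = -h1*G - h*H) (hF' : F' = -h1*G' - h*H')
    (ht : t = H - F*n) (ht' : t' = H' - F'*n) (hmh : mh = h1*(G*G')/2)
    (hmh1 : mh1 = z1 + (t*F' + t'*F)/2 - X*(l'*F + l*F')) :
    - X*(12*(A*A' - B*B')*(l*l') + 8*((v'*l'*A + v*l*A') + (v*l'*B + v'*l*B')))
      + 2*mh1*(u*(A*A' - B*B'))
      + 2*mh*(2*((u/2*A + m*B')*(u/2*A' + m'*B) - (u/2*B + m*A')*(u/2*B' + m'*A)) - e*(A*A' - B*B'))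
      - (4*X*(l*l') - 2*X*(l'*sg*E' + l*sg'*E))*(A*A' - B*B') - 2*z1*(u*(A*A' - B*B'))
      + 2*X*(((-(k*A' - k'*B))*F'*A + (-(k'*A - k*B'))*F*A')
        + (v'*(4*l' - sg'*E)*A + v*(4*l - sg*E')*A')
        + (v'*F'*(u/2*A + m*B') + v*F*(u/2*A' + m'*B))
        + ((-(k'*A - k*B'))*F'*B + (-(k*A' - k'*B))*F*B')
        + (v*(4*l' - sg'*E)*B + v'*(4*l - sg*E')*B')
        + (v*F'*(u/2*B + m*A') + v'*F*(u/2*B' + m'*A)))
      + 2*(u*(A*A' - B*B'))*X*(l'*F + l*F')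
      + 2*(A*A' - B*B')*X*(k'*F + k*F' + l'*(4*l - sg*E') + l*(4*l' - sg'*E))
      + 2*n*(((c' + F*A')*(F'*(u/2*A + m*B') - sg*E'*B') + (c + F'*A)*(F*(u/2*A' + m'*B) - sg'*E*B))
        - ((d' + F*B')*(F'*(u/2*B + m*A') - sg*E'*A') + (d + F'*B)*(F*(u/2*B' + m'*A) - sg'*E*A)))
      + 2*h1*((X*v + c*n + H'*A)*(X*v' + c'*n + H*A') - (-X*v' + d*n + H'*B)*(-X*v + d'*n + H*B'))
      + 2*h*(((X*v' + c'*n + H*A')*(H'*(u/2*A + m*B') - sg*G'*B')
            + (X*v + c*n + H'*A)*(H*(u/2*A' + m'*B) - sg'*G*B))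
          - ((-X*v + d'*n + H*B')*(H'*(u/2*B + m*A') - sg*G'*A')
            + (-X*v' + d*n + H'*B)*(H*(u/2*B' + m'*A) - sg'*G*A)))
      = 2*(h1*((X*v + c*n + H'*A - G'*(u/2*A + m*B'))*(X*v' + c'*n + H*A' - G*(u/2*A' + m'*B))
          - (-X*v' + d*n + H'*B - G'*(u/2*B + m*A'))*(-X*v + d'*n + H*B' - G*(u/2*B' + m'*A)))
        - mh*e*(A*A' - B*B')) := by
  subst hmh1 hmh ht ht' hF hF' hE hE'
  ring

theorem w10_re {f : ℝ → ℂ} {f' : ℂ} {s : ℝ} (hf : HasDerivAt f f' s) :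
    HasDerivAt (fun x => (f x).re) f'.re s :=
  Complex.reCLM.hasFDerivAt.comp_hasDerivAt s hf

theorem w10_conj {f : ℝ → ℂ} {f' : ℂ} {s : ℝ} (hf : HasDerivAt f f' s) :
    HasDerivAt (fun x => conj (f x)) (conj f') s :=
  Complex.conjCLE.toContinuousLinearMap.hasFDerivAt.comp_hasDerivAt s hf

theorem w10_sq {f : ℝ → ℂ} {f' : ℂ} {s : ℝ} (hf : HasDerivAt f f' s) :
    HasDerivAt (fun x => ‖f x‖ ^ 2) (2 * (conj (f s) * f').re) s := by
  have h1 := w10_re ((w10_conj hf).fun_mul hf)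
  have h2 : (fun x => (conj (f x) * f x).re) = fun x => ‖f x‖ ^ 2 := by
    funext x
    rw [Complex.conj_mul']
    norm_cast
  rw [h2] at h1
  refine h1.congr_deriv ?_
  rw [Complex.add_re, Complex.mul_re, Complex.mul_re]
  simp only [Complex.conj_re, Complex.conj_im]
  ring

/-- the real identity -/
theorem w10_real (A B m1 v E F G H l k sg t c d : ℂ) (u e h h1 mh mh1 X ν z1 : ℝ)
    (hE : E = -(h : ℂ) * G) (hF : F = -(h1 : ℂ) * G - (h : ℂ) * H) (ht : H = t + F / (ν : ℂ))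
    (hmh : h1 * ‖G‖ ^ 2 = 2 * mh)
    (hmh1 : mh1 - z1 - (t * conj F).re + 2 * X * (conj l * F).re = 0) :
    - (X * (6 * (‖A‖ ^ 2 - ‖B‖ ^ 2) * ‖l‖ ^ 2 + 8 * (conj v * conj l * A + v * conj l * B).re))
      + (mh1 * (u * (‖A‖ ^ 2 - ‖B‖ ^ 2)) + mh * (2 * (‖((u / 2 : ℝ) : ℂ) * A + m1 * conj B‖ ^ 2 -
          ‖((u / 2 : ℝ) : ℂ) * B + m1 * conj A‖ ^ 2) - e * (‖A‖ ^ 2 - ‖B‖ ^ 2)))
      - ((2 * X * ‖l‖ ^ 2 - 2 * X * (conj l * sg * conj E).re) * (‖A‖ ^ 2 - ‖B‖ ^ 2) +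
          z1 * (u * (‖A‖ ^ 2 - ‖B‖ ^ 2)))
      + 2 * X * (((conj (-(conj k * A - k * conj B)) * conj F + conj v * conj (4 * l - sg * conj E)) * A +
            conj v * conj F * (((u / 2 : ℝ) : ℂ) * A + m1 * conj B)) +
          (((-(conj k * A - k * conj B)) * conj F + v * conj (4 * l - sg * conj E)) * B +
            v * conj F * (((u / 2 : ℝ) : ℂ) * B + m1 * conj A))).re
      + (2 * (u * (‖A‖ ^ 2 - ‖B‖ ^ 2)) * X * (conj l * F).re +
          2 * (‖A‖ ^ 2 - ‖B‖ ^ 2) * X * (conj k * F + conj l * (4 * l - sg * conj E)).re)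
      + 1 / ν * (2 * (conj (c + conj F * A) * (conj F * (((u / 2 : ℝ) : ℂ) * A + m1 * conj B) - sg * conj E * conj B)).re -
          2 * (conj (d + conj F * B) * (conj F * (((u / 2 : ℝ) : ℂ) * B + m1 * conj A) - sg * conj E * conj A)).re)
      + (h1 * (‖(X : ℂ) * v + c / (ν : ℂ) + conj H * A‖ ^ 2 - ‖-(X : ℂ) * conj v + d / (ν : ℂ) + conj H * B‖ ^ 2) +
          h * (2 * (conj ((X : ℂ) * v + c / (ν : ℂ) + conj H * A) *
              (conj H * (((u / 2 : ℝ) : ℂ) * A + m1 * conj B) - sg * conj G * conj B)).re -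
            2 * (conj (-(X : ℂ) * conj v + d / (ν : ℂ) + conj H * B) *
              (conj H * (((u / 2 : ℝ) : ℂ) * B + m1 * conj A) - sg * conj G * conj A)).re)) =
      h1 * (‖(X : ℂ) * v + c / (ν : ℂ) + conj H * A - conj G * (((u / 2 : ℝ) : ℂ) * A + m1 * conj B)‖ ^ 2 -
          ‖-(X : ℂ) * conj v + d / (ν : ℂ) + conj H * B - conj G * (((u / 2 : ℝ) : ℂ) * B + m1 * conj A)‖ ^ 2) -
        mh * e * (‖A‖ ^ 2 - ‖B‖ ^ 2) := by
  have P := w10_poly A (conj A) B (conj B) m1 (conj m1) v (conj v) E (conj E) F (conj F) G (conj G) H (conj H)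
    l (conj l) k (conj k) sg (conj sg) t (conj t) c (conj c) d (conj d) (u : ℂ) (e : ℂ) (h : ℂ) (h1 : ℂ) (mh : ℂ)
    (mh1 : ℂ) (X : ℂ) ((ν : ℂ)⁻¹) (z1 : ℂ) hE (by rw [hE]; simp) hF (by rw [hF]; simp)
    (by rw [ht]; ring) (by rw [ht]; simp; ring)
    (by
      have h2 : ((h1 * ‖G‖ ^ 2 : ℝ) : ℂ) = ((2 * mh : ℝ) : ℂ) := by rw [hmh]
      push_cast at h2
      rw [Complex.mul_conj', h2]
      ring)
    (by
      have h2 : ((mh1 - z1 - (t * conj F).re + 2 * X * (conj l * F).re : ℝ) : ℂ) = ((0 : ℝ) : ℂ) := by rw [hmh1]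
      push_cast at h2
      rw [Complex.re_eq_add_conj, Complex.re_eq_add_conj] at h2
      simp only [map_mul, Complex.conj_conj] at h2
      linear_combination h2)
  apply Complex.ofReal_injective
  push_cast
  simp only [← Complex.mul_conj', Complex.re_eq_add_conj]
  simp only [map_mul, map_add, map_sub, map_neg, map_div₀, Complex.conj_conj, Complex.conj_ofReal, map_ofNat]
  simp only [div_eq_mul_inv, one_mul] at P ⊢
  linear_combination (1 / 2) * P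

theorem L0_d (h : M.Ok) (hp : p.Ok) {s : ℝ} (hs : 0 < s) :
    HasDerivAt (L0 M p) (M.h1 s * (‖gA M p s‖ ^ 2 - ‖gB M p s‖ ^ 2) - M.mh s * p.e s * p.a s) s := by
  have hs0 : 0 ≤ s := hs.le
  have hA := hp.dA s hs
  have hB := hp.dB s hs
  have hF : HasDerivAt M.E1 (4 * M.lam s - M.sig s * conj (M.E s)) s := by
    rw [← h.ac_eq hs0]
    exact h.E1_d hs
  have hv := vv_d h hp hs
  have hl := h.lam_d hs
  have T1 := (cost_d h hp hs).fun_neg
  have T2 := (h.mh_d hs).fun_mul (hp.ua_d hs)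
  have T3 := (h.z1_d hs).fun_mul (hp.a_d hs)
  have T4 := (w10_re (((((w10_conj hv).fun_mul (w10_conj hF)).fun_mul hA)).fun_add
    ((hv.fun_mul (w10_conj hF)).fun_mul hB))).const_mul (2 * M.X)
  have T5 := (((hp.a_d hs).const_mul 2).fun_mul (hasDerivAt_const s M.X)).fun_mul
    (w10_re ((w10_conj hl).fun_mul hF))
  have T6 := ((w10_sq (wA_d h hp hs)).fun_sub (w10_sq (wB_d h hp hs))).const_mul (1 / M.ν)
  have T7 := (h.h_d hs).fun_mul ((w10_sq (uA_d h hp hs)).fun_sub (w10_sq (uB_d h hp hs)))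
  have T := ((((((T1.const_add (2 * p.bN - M.κ - (M.P ^ 2 + M.N ^ 2) / M.P)).fun_add T2).fun_sub T3).fun_add
    T4).fun_add T5).fun_add T6).fun_add T7
  refine (T.congr_deriv ?_).congr_of_eventuallyEq (Filter.Eventually.of_forall fun x => ?_)
  · have R := w10_real (p.A s) (p.B s) (p.m1 s) (vv M p s) (M.E s) (M.E1 s) (M.EE s) (M.EE1 s) (M.lam s) (M.lam1 s)
      (M.sig s) (M.t s) (cA M p s) (cB M p s) (p.u s) (p.e s) (M.h s) (M.h1 s) (M.mh s) (M.mh1 s) M.X M.ν (M.z1 s)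
      (h.E_h hs0) (h.E1_h hs) (h.EE1_eq hs0) (h.h1_EE hs0) (h.I2 hs)
    simp only [costI, gA, gB, wA, wB, uA, uB, Pa.a, Pa.A1, Pa.B1] at R ⊢
    rw [← R]
    ring
  · simp only [L0]
    ring

end H17S
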