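import Pool.Agent.Lib.H17S.W5
import Pool.Agent.Lib.H17S.W10

set_option autoImplicit false

/-!
Chunk W11 (M). `LL` is antitone on `(0,∞)`.
* `Q_eq`: `Q = <psi, Gv> = conj A gA - conj B gB` (`psi1`).
* `Q_d`: `Q' = conj A1 uA - conj B1 uB + <psi,u'> - conj EE1 u a/2 - conj EE (u a)'/2`; `<psi,u'> = conj EE1 <psi,psi'> - sig conj EE <psi, j psi> = conj EE1 u a/2`; `(u a)'/2 = <psi',psi'> - e a/2`. So
  `Q' = <psi',Gv> + conj EE e a/2 = (u/2) Q + conj m1 J + conj EE e a/2` with `J := B gA - A gB` (`jpsi1`).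
* `QJ`: `a (|gA|^2 - |gB|^2) = |Q|^2 - |J|^2` (Lagrange identity).
* `Gam_d`: `Gam = h1/(u/2 - Y1/Y)`, `(u/2)' = - (u/2)^2 - |m1|^2 - e/2`, `(Y1/Y)' = Y2/Y - (Y1/Y)^2`, `h1' = - 2 (Y1/Y) h1` : `Gam' = h1 + (|m1|^2 + e/2 + Y2/Y) Gam^2/h1`.
* `LL_d`: `a LL' = h1 (|Q|^2 - |J|^2) - mh e a^2 - Gam' |Q|^2 - 2 Gam Re(conj Q (conj m1 J + conj EE e a/2))` (`(|Q|^2/a)' = 2 Re(conj Q Q')/a - |Q|^2 u/a`), `mh = h1 |EE|^2/2`, and
  `2 Gam |Q||m1||J| <= h1 |J|^2 + Gam^2 |m1|^2 |Q|^2/h1`, `Gam |Q||EE| e a <= h1 |EE|^2 e a^2/2 + Gam^2 e |Q|^2/(2 h1)`; so `LL' <= 0` (`Y2 >= 0`).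
-/

open MeasureTheory Filter Topology Set
open scoped ContDiff ComplexConjugate

namespace H17S

variable {M : Mo} {p : Pa}

theorem Q_eq (M : Mo) (p : Pa) (s : ℝ) : Qv M p s = conj (p.A s) * gA M p s - conj (p.B s) * gB M p s := by
  have h1 := p.psi1 s
  unfold Qv gA gB
  linear_combination (conj (M.EE s)) * h1

theorem Q_d (h : M.Ok) (hp : p.Ok) {s : ℝ} (hs : 0 < s) :
    HasDerivAt (Qv M p) (((p.u s / 2 : ℝ) : ℂ) * Qv M p s + conj (p.m1 s) * (p.B s * gA M p s - p.A s * gB M p s) +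
      conj (M.EE s) * ((p.e s * p.a s / 2 : ℝ) : ℂ)) s := by
  have cd : ∀ {F : ℝ → ℂ} {F' : ℂ}, HasDerivAt F F' s → HasDerivAt (fun x => conj (F x)) (conj F') s := by
    intro F F' hF
    exact hF.star
  have h1 := (((cd (hp.dA s hs)).mul (uA_d h hp hs)).sub ((cd (hp.dB s hs)).mul (uB_d h hp hs))).sub
    ((cd (h.EE_d hs)).mul ((hp.ua_d hs).div_const 2).ofReal_comp)
  refine h1.congr_deriv ?_
  have e1 := p.jpsi1 s (gA M p s) (gB M p s)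
  have e2 := p.psi1 s
  have e3 := Q_eq M p s
  have e4 : ((‖p.A1 s‖ : ℂ)) ^ 2 = conj (p.A1 s) * p.A1 s := by
    rw [← Complex.ofReal_pow, Complex.sq_norm, Complex.normSq_eq_conj_mul_self]
  have e5 : ((‖p.B1 s‖ : ℂ)) ^ 2 = conj (p.B1 s) * p.B1 s := by
    rw [← Complex.ofReal_pow, Complex.sq_norm, Complex.normSq_eq_conj_mul_self]
  rw [e3, ← e1]
  unfold gA gB
  push_cast
  push_cast at e2
  rw [e4, e5]
  linear_combination (conj (M.EE1 s)) * e2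

theorem QJ (M : Mo) (p : Pa) (s : ℝ) : p.a s * (‖gA M p s‖ ^ 2 - ‖gB M p s‖ ^ 2) =
    ‖Qv M p s‖ ^ 2 - ‖p.B s * gA M p s - p.A s * gB M p s‖ ^ 2 := by
  rw [Q_eq]
  unfold Pa.a
  simp only [Complex.sq_norm, Complex.normSq_apply, Complex.mul_re, Complex.mul_im, Complex.sub_re,
    Complex.sub_im, Complex.conj_re, Complex.conj_im]
  ring

theorem w11_den (h : M.Ok) (_hp : p.Ok) {s : ℝ} (hs : 0 < s) :
    p.u s / 2 ≤ p.u s / 2 - M.Y1 s / M.Y s := by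
  have h1 := h.Y1_nonpos hs
  have h2 := h.Y_pos hs
  have h3 : M.Y1 s / M.Y s ≤ 0 := div_nonpos_of_nonpos_of_nonneg h1 h2.le
  linarith

theorem w11_den_pos (h : M.Ok) (hp : p.Ok) {s : ℝ} (hs : 0 < s) :
    0 < p.u s / 2 - M.Y1 s / M.Y s := by
  have h1 := w11_den h hp hs
  have h2 := hp.u_pos s hs.le
  linarith

theorem Gam_pos (h : M.Ok) (hp : p.Ok) {s : ℝ} (hs : 0 < s) : 0 < Gam M p s :=
  div_pos (h.h1_pos hs) (w11_den_pos h hp hs)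

/-- `Gam <= 2 h1 / u`. -/
theorem Gam_le (h : M.Ok) (hp : p.Ok) {s : ℝ} (hs : 0 < s) : Gam M p s ≤ 2 * M.h1 s / p.u s := by
  have h1 := w11_den h hp hs
  have h2 := hp.u_pos s hs.le
  have h3 : 2 * M.h1 s / p.u s = M.h1 s / (p.u s / 2) := by
    field_simp
  rw [h3]
  exact div_le_div_of_nonneg_left (h.h1_pos hs).le (by linarith) h1

theorem Gam_d (h : M.Ok) (hp : p.Ok) {s : ℝ} (hs : 0 < s) :
    HasDerivAt (Gam M p) (M.h1 s + (‖p.m1 s‖ ^ 2 + p.e s / 2 + M.Y2 s / M.Y s) * Gam M p s ^ 2 / M.h1 s) s := by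
  have hD := w11_den_pos h hp hs
  have hY := h.Y_pos hs
  have hh := h.h1_pos hs
  have h1 := (h.h1_d hs).div (((hp.du s hs).div_const 2).sub ((h.Y1_d hs).div (h.Y_d hs) hY.ne')) hD.ne'
  refine h1.congr_deriv ?_
  unfold Gam
  set y := M.Y1 s / M.Y s with hy
  set D := p.u s / 2 - y with hDd
  have hu : p.u s = 2 * (D + y) := by
    rw [hDd]; ring
  have e1 : (M.Y2 s * M.Y s - M.Y1 s * M.Y1 s) / M.Y s ^ 2 = M.Y2 s / M.Y s - y ^ 2 := by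
    rw [hy]
    field_simp
  have e2 : ((fun x => p.u x / 2) - M.Y1 / M.Y) s = D := rfl
  rw [e1, e2, hu]
  field_simp
  ring

/-- the algebraic inequality -/
theorem w11_alg {a h1 mh e G m1 y2 u : ℝ} {Q J EE m : ℂ} {g2 : ℝ} (ha : 0 < a) (hh : 0 < h1)
    (he : 0 ≤ e) (hG : 0 < G) (hy2 : 0 ≤ y2) (hm : ‖m‖ = m1) (hmh : h1 * ‖EE‖ ^ 2 = 2 * mh)
    (hg2 : a * g2 = ‖Q‖ ^ 2 - ‖J‖ ^ 2) :
    (h1 * g2 - mh * e * a) - ((h1 + (m1 ^ 2 + e / 2 + y2) * G ^ 2 / h1) * (‖Q‖ ^ 2 / a) +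
      G * ((2 * (conj Q * (((u / 2 : ℝ) : ℂ) * Q + conj m * J + conj EE * ((e * a / 2 : ℝ) : ℂ))).re * a -
        ‖Q‖ ^ 2 * (u * a)) / a ^ 2)) ≤ 0 := by
  have e1 : (conj Q * (((u / 2 : ℝ) : ℂ) * Q + conj m * J + conj EE * ((e * a / 2 : ℝ) : ℂ))).re =
      u / 2 * ‖Q‖ ^ 2 + (conj Q * conj m * J).re + (conj Q * conj EE).re * (e * a / 2) := by
    have e2 : conj Q * (((u / 2 : ℝ) : ℂ) * Q + conj m * J + conj EE * ((e * a / 2 : ℝ) : ℂ)) =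
        ((u / 2 : ℝ) : ℂ) * (conj Q * Q) + conj Q * conj m * J +
          (conj Q * conj EE) * ((e * a / 2 : ℝ) : ℂ) := by ring
    rw [e2, Complex.add_re, Complex.add_re, ← Complex.normSq_eq_conj_mul_self, ← Complex.ofReal_mul,
      Complex.ofReal_re, Complex.re_mul_ofReal, Complex.sq_norm]
  have e3 : -(‖Q‖ * m1 * ‖J‖) ≤ (conj Q * conj m * J).re := by
    have := Complex.abs_re_le_norm (conj Q * conj m * J)
    rw [norm_mul, norm_mul, RCLike.norm_conj, RCLike.norm_conj, hm] at this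
    exact (abs_le.1 this).1
  have e4 : -(‖Q‖ * ‖EE‖) ≤ (conj Q * conj EE).re := by
    have := Complex.abs_re_le_norm (conj Q * conj EE)
    rw [norm_mul, RCLike.norm_conj, RCLike.norm_conj] at this
    exact (abs_le.1 this).1
  rw [e1]
  set R1 := (conj Q * conj m * J).re
  set R2 := (conj Q * conj EE).re
  have e5 : (h1 * g2 - mh * e * a) - ((h1 + (m1 ^ 2 + e / 2 + y2) * G ^ 2 / h1) * (‖Q‖ ^ 2 / a) +
      G * ((2 * (u / 2 * ‖Q‖ ^ 2 + R1 + R2 * (e * a / 2)) * a - ‖Q‖ ^ 2 * (u * a)) / a ^ 2)) =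
      -(h1 * ‖J‖ ^ 2 + (h1 * ‖EE‖ ^ 2 / 2) * e * a ^ 2 + (m1 ^ 2 + e / 2 + y2) * G ^ 2 / h1 * ‖Q‖ ^ 2 +
        2 * G * R1 + G * R2 * (e * a)) / a := by
    have e6 : g2 = (‖Q‖ ^ 2 - ‖J‖ ^ 2) / a := by
      rw [← hg2]
      field_simp
    rw [e6, hmh]
    field_simp
    ring
  rw [e5]
  apply div_nonpos_of_nonpos_of_nonneg _ ha.le
  have e7 : 0 ≤ h1 * ‖J‖ ^ 2 + m1 ^ 2 * G ^ 2 / h1 * ‖Q‖ ^ 2 + 2 * G * R1 := by
    have e8 : 0 ≤ (h1 * ‖J‖ - m1 * G * ‖Q‖) ^ 2 / h1 := div_nonneg (sq_nonneg _) hh.le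
    have e9 : (h1 * ‖J‖ - m1 * G * ‖Q‖) ^ 2 / h1 =
        h1 * ‖J‖ ^ 2 + m1 ^ 2 * G ^ 2 / h1 * ‖Q‖ ^ 2 - 2 * G * (‖Q‖ * m1 * ‖J‖) := by
      field_simp
      ring
    have e10 : 2 * G * -(‖Q‖ * m1 * ‖J‖) ≤ 2 * G * R1 :=
      mul_le_mul_of_nonneg_left e3 (by linarith)
    linarith
  have e11 : 0 ≤ (h1 * ‖EE‖ ^ 2 / 2) * e * a ^ 2 + (e / 2) * G ^ 2 / h1 * ‖Q‖ ^ 2 + G * R2 * (e * a) := by
    have e8 : 0 ≤ (e / 2) * ((h1 * ‖EE‖ * a - G * ‖Q‖) ^ 2 / h1) :=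
      mul_nonneg (by linarith) (div_nonneg (sq_nonneg _) hh.le)
    have e9 : (e / 2) * ((h1 * ‖EE‖ * a - G * ‖Q‖) ^ 2 / h1) =
        (h1 * ‖EE‖ ^ 2 / 2) * e * a ^ 2 + (e / 2) * G ^ 2 / h1 * ‖Q‖ ^ 2 -
          G * (‖Q‖ * ‖EE‖) * (e * a) := by
      field_simp
      ring
    have e10 : G * -(‖Q‖ * ‖EE‖) * (e * a) ≤ G * R2 * (e * a) :=
      mul_le_mul_of_nonneg_right (mul_le_mul_of_nonneg_left e4 hG.le) (mul_nonneg he ha.le)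
    linarith
  have e12 : 0 ≤ y2 * G ^ 2 / h1 * ‖Q‖ ^ 2 := by positivity
  have e13 : (m1 ^ 2 + e / 2 + y2) * G ^ 2 / h1 * ‖Q‖ ^ 2 = m1 ^ 2 * G ^ 2 / h1 * ‖Q‖ ^ 2 +
      (e / 2) * G ^ 2 / h1 * ‖Q‖ ^ 2 + y2 * G ^ 2 / h1 * ‖Q‖ ^ 2 := by ring
  linarith

theorem LL_d (h : M.Ok) (hp : p.Ok) {s : ℝ} (hs : 0 < s) : ∃ d, HasDerivAt (LL M p) d s ∧ d ≤ 0 := by
  have ha := hp.a_pos s hs.le
  have hQ := Q_d h hp hs
  have h1 : HasDerivAt (fun s => ‖Qv M p s‖ ^ 2) (2 * (conj (Qv M p s) *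
      (((p.u s / 2 : ℝ) : ℂ) * Qv M p s + conj (p.m1 s) * (p.B s * gA M p s - p.A s * gB M p s) +
      conj (M.EE s) * ((p.e s * p.a s / 2 : ℝ) : ℂ))).re) s := by
    have h2 := hQ.norm_sq
    rw [Complex.inner, mul_comm _ (conj (Qv M p s))] at h2
    exact h2
  have h3 := (L0_d h hp hs).sub ((Gam_d h hp hs).mul (h1.div (hp.a_d hs) ha.ne'))
  refine ⟨_, h3, ?_⟩
  exact w11_alg ha (h.h1_pos hs) (hp.e_nonneg s hs) (Gam_pos h hp hs)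
    (div_nonneg (h.Y2_nonneg hs) (h.Y_pos hs).le) rfl (h.h1_EE hs.le) (QJ M p s)

theorem LL_anti (h : M.Ok) (hp : p.Ok) : AntitoneOn (LL M p) (Ioi 0) := by
  apply antitoneOn_of_deriv_nonpos (convex_Ioi 0)
  · intro s hs
    obtain ⟨d, hd, -⟩ := LL_d h hp (s := s) hs
    exact hd.continuousAt.continuousWithinAt
  · rw [interior_Ioi]
    intro s hs
    obtain ⟨d, hd, -⟩ := LL_d h hp (s := s) hs
    exact hd.differentiableAt.differentiableWithinAt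
  · rw [interior_Ioi]
    intro s hs
    obtain ⟨d, hd, hd0⟩ := LL_d h hp (s := s) hs
    rw [hd.deriv]
    exact hd0

end H17S
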