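import Pool.Agent.Lib.H17S.W4

set_option autoImplicit false

/-!
Chunk W12 (M). Asymptotics of the model. `x = O(r^-k)` means `|x| <= C/r^k` for `s >= 1`; note `r >= c (1+s)` and `|r - s| <= C` (`r_lower`, `r_sub`), so `O(r^-k) = O(s^-k)`.
* `f = 1/r^2 - 2m/r^3 + O(r^-4)`, `f' = -2/r^3 + 6m/r^4 + O(r^-5)` (explicit rational functions), `G = 1 - X/r^2 + O(r^-3)`, `g = 1 - X/(2r^2) + O(r^-3)`, `1/g = 1 + X/(2r^2) + O(r^-3)`.
* `D`: `D := Ki - K`. The function `D - 1/r + m/r^2` tends to `0` and has the derivative `- f/G + g/r^2 - 2 m g/r^3 = O(r^-4)` (`f/G = f + O(r^-4)`, `g = 1 + O(r^-2)`), so it is `O(r^-3)`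
  (integrate: `|x s| <= ∫_s^∞ C/(1+t)^4`; or compare with `C'/(1+s)^3`: the functions `x ± C'/(1+s)^3` are monotone and tend to `0`).
* `z1`: `4 r f + q f' = 2/r - 2m/r^2 + O(r^-3)`, divided by `g`: same; `2K = ν - 2D`, `(1 - X^2 mu/q^3) = 1 + O(r^-6)`: `z1 = ν + O(r^-3)`.
* `t = G - X conj ρ f'/2 = 1 + O(r^-3)`; `(f/g) conj ρ = 1/r - (2m + iN)/r^2 + O(r^-3)`; `E1 = -2 ((f/g) conj ρ + K t) = - ν + 2(m + iN)/r^2 + O(r^-3)`.
* `EE = conj ρ g kt`, `kt = D/Ki = 2D/ν`: `EE = (2/ν)(r - iN)(1/r - m/r^2 + ..) = (2/ν)(1 - (m+iN)/r) + O(r^-2)`.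
* `EE1 = t kt - f conj ρ/(g Ki) = (2/ν)(1/r - m/r^2 - 1/r + (2m+iN)/r^2) + O(r^-3) = (2/ν) M/r^2 + O(r^-3)`.
* `h = 2K/kt = 2 (Ki - D) Ki/D = ν^2/(2D) - ν`, `1/D = r + m + O(1/r)`, `r = s + β + o(1)`: `h - ν^2 s/2 -> ν^2 (β + m)/2 - ν`.
* `mh = f q = 1 - 2m/r + O(r^-2)`; `h1 = 2f/(G kt^2)` is bounded and `-> 0` for `s -> 0+` (`f -> f(P) = 0`, `kt -> 1`).
In the final statements `r` is replaced by `s`: `1/r^2 = 1/s^2 + O(s^-3)` etc.
-/

open MeasureTheory Filter Topology Set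
open scoped ContDiff ComplexConjugate

namespace H17S

/-! ### A small calculus of orders on `[1, ∞)` -/

/-- `F = O(s^-k)` on `[1, ∞)`. -/
def W12O {𝕜 : Type*} [NormedField 𝕜] (k : ℕ) (F : ℝ → 𝕜) : Prop := ∃ C, ∀ s, 1 ≤ s → ‖F s‖ ≤ C / s ^ k

section

variable {𝕜 : Type*} [NormedField 𝕜] {k l : ℕ} {F G : ℝ → 𝕜}

theorem W12O_congr (hF : W12O k F) (h : ∀ s, 1 ≤ s → G s = F s) : W12O k G := by
  obtain ⟨C, hC⟩ := hF
  exact ⟨C, fun s hs => by rw [h s hs]; exact hC s hs⟩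

theorem W12O_add (hF : W12O k F) (hG : W12O k G) : W12O k (fun s => F s + G s) := by
  obtain ⟨C, hC⟩ := hF
  obtain ⟨D, hD⟩ := hG
  refine ⟨C + D, fun s hs => ?_⟩
  rw [add_div]
  exact (norm_add_le _ _).trans (add_le_add (hC s hs) (hD s hs))

theorem W12O_neg (hF : W12O k F) : W12O k (fun s => - F s) := by
  obtain ⟨C, hC⟩ := hF
  exact ⟨C, fun s hs => by rw [norm_neg]; exact hC s hs⟩

theorem W12O_sub (hF : W12O k F) (hG : W12O k G) : W12O k (fun s => F s - G s) := by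
  have := W12O_add hF (W12O_neg hG)
  exact W12O_congr this (fun s _ => sub_eq_add_neg _ _)

theorem W12O_mul (hF : W12O k F) (hG : W12O l G) : W12O (k + l) (fun s => F s * G s) := by
  obtain ⟨C, hC⟩ := hF
  obtain ⟨D, hD⟩ := hG
  refine ⟨C * D, fun s hs => ?_⟩
  rw [norm_mul, pow_add, mul_div_mul_comm]
  exact mul_le_mul (hC s hs) (hD s hs) (norm_nonneg _) ((norm_nonneg _).trans (hC s hs))

theorem W12O_mono (hF : W12O k F) (h : l ≤ k) : W12O l F := by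
  obtain ⟨C, hC⟩ := hF
  refine ⟨C, fun s hs => (hC s hs).trans ?_⟩
  have hC0 : 0 ≤ C := by
    have := (norm_nonneg _).trans (hC 1 le_rfl)
    simpa using this
  exact div_le_div_of_nonneg_left hC0 (by positivity) (pow_le_pow_right₀ hs h)

theorem W12O_const (c : 𝕜) : W12O 0 (fun _ : ℝ => c) := ⟨‖c‖, fun s _ => by simp⟩

theorem W12O_mul0 (hF : W12O 0 F) (hG : W12O 0 G) : W12O 0 (fun s => F s * G s) := W12O_mul hF hG

theorem W12O_pow0 (hF : W12O 0 F) (n : ℕ) : W12O 0 (fun s => F s ^ n) := by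
  induction n with
  | zero => exact W12O_congr (W12O_const 1) (fun s _ => by simp)
  | succ n ih => exact W12O_congr (W12O_mul0 ih hF) (fun s _ => by rw [pow_succ])

theorem W12O_pow (hF : W12O k F) (n : ℕ) : W12O (n * k) (fun s => F s ^ n) := by
  induction n with
  | zero => exact W12O_congr (by simpa using W12O_const (1 : 𝕜)) (fun s _ => by simp)
  | succ n ih =>
    have := W12O_mul ih hF
    rw [show n * k + k = (n + 1) * k by ring] at this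
    exact W12O_congr this (fun s _ => by rw [pow_succ])

theorem W12O_bdd {C : ℝ} (h : ∀ s, 1 ≤ s → ‖F s‖ ≤ C) : W12O 0 F := ⟨C, fun s hs => by simpa using h s hs⟩

end

theorem W12O_ofReal {k : ℕ} {F : ℝ → ℝ} (hF : W12O k F) : W12O k (fun s => (F s : ℂ)) := by
  obtain ⟨C, hC⟩ := hF
  exact ⟨C, fun s hs => by rw [Complex.norm_real]; exact hC s hs⟩

/-- Comparison with `C / s^3`. -/
theorem W12_int {x x' : ℝ → ℝ} (hx : ∀ s, 1 ≤ s → HasDerivAt x (x' s) s) (hlim : Tendsto x atTop (𝓝 0))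
    (hO : W12O 4 x') : W12O 3 x := by
  obtain ⟨C, hC⟩ := hO
  refine ⟨C / 3, fun s hs => ?_⟩
  have hder : ∀ t, 1 ≤ t → HasDerivAt (fun t : ℝ => C / 3 / t ^ 3) (- (C / t ^ 4)) t := by
    intro t ht
    have ht0 : t ≠ 0 := by positivity
    have h1 := ((hasDerivAt_pow 3 t).inv (by positivity)).const_mul (C / 3)
    have h2 : HasDerivAt (fun t : ℝ => C / 3 / t ^ 3) (C / 3 * (-(((3 : ℕ) : ℝ) * t ^ (3 - 1)) / (t ^ 3) ^ 2)) t := by
      refine h1.congr_of_eventuallyEq (Eventually.of_forall fun y => ?_)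
      simp [div_eq_mul_inv]
    convert h2 using 1
    field_simp
    norm_num
    ring
  have hlim2 : Tendsto (fun t : ℝ => C / 3 / t ^ 3) atTop (𝓝 0) :=
    tendsto_const_nhds.div_atTop (tendsto_pow_atTop (by norm_num))
  have hanti : AntitoneOn (fun t => x t + C / 3 / t ^ 3) (Ici 1) := by
    apply antitoneOn_of_deriv_nonpos (convex_Ici 1)
    · intro t ht
      exact ((hx t ht).add (hder t ht)).continuousAt.continuousWithinAt
    · intro t ht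
      rw [interior_Ici] at ht
      exact ((hx t (le_of_lt ht)).add (hder t (le_of_lt ht))).differentiableAt.differentiableWithinAt
    · intro t ht
      rw [interior_Ici] at ht
      rw [((hx t (le_of_lt ht)).fun_add (hder t (le_of_lt ht))).deriv]
      have := hC t (le_of_lt ht)
      rw [Real.norm_eq_abs] at this
      linarith [(abs_le.1 this).2]
  have hmono : MonotoneOn (fun t => x t - C / 3 / t ^ 3) (Ici 1) := by
    apply monotoneOn_of_deriv_nonneg (convex_Ici 1)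
    · intro t ht
      exact ((hx t ht).sub (hder t ht)).continuousAt.continuousWithinAt
    · intro t ht
      rw [interior_Ici] at ht
      exact ((hx t (le_of_lt ht)).sub (hder t (le_of_lt ht))).differentiableAt.differentiableWithinAt
    · intro t ht
      rw [interior_Ici] at ht
      rw [((hx t (le_of_lt ht)).fun_sub (hder t (le_of_lt ht))).deriv]
      have := hC t (le_of_lt ht)
      rw [Real.norm_eq_abs] at this
      linarith [(abs_le.1 this).1]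
  have h1 : 0 ≤ x s + C / 3 / s ^ 3 := by
    have hl : Tendsto (fun t => x t + C / 3 / t ^ 3) atTop (𝓝 0) := by simpa using hlim.add hlim2
    refine le_of_tendsto hl ?_
    filter_upwards [eventually_ge_atTop s] with t ht
    exact hanti (mem_Ici.2 hs) (mem_Ici.2 (hs.trans ht)) ht
  have h2 : x s - C / 3 / s ^ 3 ≤ 0 := by
    have hl : Tendsto (fun t => x t - C / 3 / t ^ 3) atTop (𝓝 0) := by simpa using hlim.sub hlim2
    refine ge_of_tendsto hl ?_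
    filter_upwards [eventually_ge_atTop s] with t ht
    exact hmono (mem_Ici.2 hs) (mem_Ici.2 (hs.trans ht)) ht
  rw [Real.norm_eq_abs, abs_le]
  constructor <;> linarith

/-! ### Expansions in `u = 1 / r` -/

theorem W12_ff {P N r : ℝ} (hr : 0 < r) : ff P N r = (1 / r) ^ 2 - 2 * mm P N * (1 / r) ^ 3 +
    (1 / r) ^ 4 * ((- N ^ 2 - (1 - 2 * mm P N * (1 / r)) * (2 * N ^ 2 + N ^ 4 * (1 / r) ^ 2)) *
      (1 / (1 + N ^ 2 * (1 / r) ^ 2)) ^ 2) := by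
  have h1 : 1 + N ^ 2 * (1 / r) ^ 2 = (r ^ 2 + N ^ 2) / r ^ 2 := by field_simp
  have h2 : 0 < r ^ 2 + N ^ 2 := by positivity
  unfold ff qq
  rw [h1]
  field_simp
  ring

theorem W12_ff1 {P N r : ℝ} (hr : 0 < r) : ff1 P N r = -2 * (1 / r) ^ 3 + 6 * mm P N * (1 / r) ^ 4 +
    (1 / r) ^ 5 * (-2 * N ^ 2 * (-3 + mm P N * (1 / r) - (1 - 3 * mm P N * (1 / r)) *
      (3 + 3 * (N ^ 2 * (1 / r) ^ 2) + (N ^ 2 * (1 / r) ^ 2) ^ 2)) * (1 / (1 + N ^ 2 * (1 / r) ^ 2)) ^ 3) := by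
  have h1 : 1 + N ^ 2 * (1 / r) ^ 2 = (r ^ 2 + N ^ 2) / r ^ 2 := by field_simp
  have h2 : 0 < r ^ 2 + N ^ 2 := by positivity
  unfold ff1 qq
  rw [h1]
  field_simp
  ring

variable {M : Mo}

theorem W12_u (h : M.Ok) : W12O 1 (fun s => 1 / M.r s) := by
  obtain ⟨c, hc, hr⟩ := h.r_lower
  refine ⟨1 / c, fun s hs => ?_⟩
  have hs0 : 0 < s := by linarith
  have hr0 := h.r_pos hs0.le
  rw [Real.norm_of_nonneg (by positivity), pow_one, div_div]
  apply one_div_le_one_div_of_le (by positivity)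
  have := hr s hs0.le
  nlinarith

theorem W12_u0 (h : M.Ok) : W12O 0 (fun s => 1 / M.r s) := W12O_mono (W12_u h) (by norm_num)

theorem W12_s : W12O 1 (fun s : ℝ => 1 / s) := ⟨1, fun s hs => by
  have hs0 : 0 < s := by linarith
  rw [Real.norm_of_nonneg (by positivity), pow_one]⟩

theorem W12_rs (h : M.Ok) : W12O 0 (fun s => M.r s - s) := by
  obtain ⟨C, hC⟩ := h.r_sub
  exact W12O_bdd (fun s hs => by rw [Real.norm_eq_abs]; exact hC s (by linarith))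

theorem W12_us (h : M.Ok) : W12O 2 (fun s => 1 / M.r s - 1 / s) := by
  refine W12O_congr (W12O_neg (W12O_mul (W12O_mul (W12_rs h) (W12_u h)) W12_s)) (fun s hs => ?_)
  have hs0 : 0 < s := by linarith
  have hr0 := h.r_pos hs0.le
  field_simp
  ring

/-- `r / s` is bounded. -/
theorem W12_rdivs (h : M.Ok) : W12O 0 (fun s => M.r s * (1 / s)) := by
  refine W12O_congr (W12O_add (W12O_mono (W12O_mul (W12_rs h) W12_s) (Nat.zero_le _)) (W12O_const 1)) (fun s hs => ?_)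
  have hs0 : 0 < s := by linarith
  field_simp
  ring

/-- Factorisation: `O(s^-k)` functions are `u^k` times a bounded function. -/
theorem W12_fac (h : M.Ok) {k : ℕ} {F : ℝ → ℝ} (hF : W12O k F) :
    ∃ F', W12O 0 F' ∧ ∀ s, 1 ≤ s → F s = (1 / M.r s) ^ k * F' s := by
  refine ⟨fun s => M.r s ^ k * F s, ?_, fun s hs => ?_⟩
  · have h1 : W12O 0 (fun s => s ^ k * F s) := by
      obtain ⟨C, hC⟩ := hF
      refine W12O_bdd (C := C) (fun s hs => ?_)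
      have hs0 : 0 < s := by linarith
      rw [norm_mul, Real.norm_of_nonneg (by positivity)]
      have := hC s hs
      rw [le_div_iff₀ (by positivity)] at this
      linarith
    refine W12O_congr (W12O_mul0 (W12O_pow0 (W12_rdivs h) k) h1) (fun s hs => ?_)
    have hs0 : 0 < s := by linarith
    rw [mul_pow, one_div, inv_pow]
    field_simp
  · have hr0 := h.r_pos (by linarith : (0 : ℝ) ≤ s)
    rw [one_div, inv_pow]
    field_simp

theorem W12_upow (h : M.Ok) {F : ℝ → ℝ} (hF : W12O 0 F) (k : ℕ) : W12O k (fun s => (1 / M.r s) ^ k * F s) := by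
  have := W12O_mul (W12O_pow (W12_u h) k) hF
  simpa using this

theorem W12_upowC (h : M.Ok) {F : ℝ → ℂ} (hF : W12O 0 F) (k : ℕ) :
    W12O k (fun s => ((1 / M.r s : ℝ) : ℂ) ^ k * F s) := by
  have := W12O_mul (W12O_pow (W12O_ofReal (W12_u h)) k) hF
  simpa using this

/-- `1 / (1 + N² u²)` is bounded. -/
theorem W12_y (h : M.Ok) : W12O 0 (fun s => 1 / (1 + M.N ^ 2 * (1 / M.r s) ^ 2)) := by
  refine W12O_bdd (C := 1) (fun s hs => ?_)
  have h0 : 0 ≤ M.N ^ 2 * (1 / M.r s) ^ 2 := by positivity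
  rw [Real.norm_of_nonneg (by positivity), div_le_one (by positivity)]
  linarith

theorem W12_f (h : M.Ok) : ∃ F4 : ℝ → ℝ, W12O 0 F4 ∧ ∀ s, 1 ≤ s →
    M.f s = (1 / M.r s) ^ 2 - 2 * M.m * (1 / M.r s) ^ 3 + (1 / M.r s) ^ 4 * F4 s := by
  refine ⟨_, ?_, fun s hs => W12_ff (h.r_pos (by linarith : (0 : ℝ) ≤ s))⟩
  have hu := W12_u0 h
  have hy := W12_y h
  repeat first
    | exact hu
    | exact hy
    | exact W12O_const _
    | apply W12O_mul0
    | apply W12O_sub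
    | apply W12O_add
    | apply W12O_neg
    | apply W12O_pow0

theorem W12_f1 (h : M.Ok) : ∃ F5 : ℝ → ℝ, W12O 0 F5 ∧ ∀ s, 1 ≤ s →
    M.f1 s = -2 * (1 / M.r s) ^ 3 + 6 * M.m * (1 / M.r s) ^ 4 + (1 / M.r s) ^ 5 * F5 s := by
  refine ⟨_, ?_, fun s hs => W12_ff1 (h.r_pos (by linarith : (0 : ℝ) ≤ s))⟩
  have hu := W12_u0 h
  have hy := W12_y h
  repeat first
    | exact hu
    | exact hy
    | exact W12O_const _
    | apply W12O_mul0
    | apply W12O_sub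
    | apply W12O_add
    | apply W12O_neg
    | apply W12O_pow0

theorem W12_f0 (h : M.Ok) : W12O 2 M.f := by
  obtain ⟨F4, hF, hf⟩ := W12_f h
  have hu := W12_u0 h
  have h1 : W12O 0 (fun s => 1 - 2 * M.m * (1 / M.r s) + (1 / M.r s) ^ 2 * F4 s) := by
    repeat first
      | exact hu
      | exact hF
      | exact W12O_const _
      | apply W12O_mul0
      | apply W12O_sub
      | apply W12O_add
      | apply W12O_pow0
  refine W12O_congr (W12_upow h h1 2) (fun s hs => ?_)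
  rw [hf s hs]
  ring

/-- `1 / g` is bounded. -/
theorem W12_ginv0 (h : M.Ok) : W12O 0 (fun s => 1 / M.g s) := by
  obtain ⟨c, hc, hg⟩ := h.g_lower
  refine W12O_bdd (C := 1 / c) (fun s hs => ?_)
  have hg0 := h.g_pos (by linarith : (0 : ℝ) ≤ s)
  rw [Real.norm_of_nonneg (by positivity)]
  exact one_div_le_one_div_of_le hc (hg s (by linarith))

theorem W12_g (h : M.Ok) : ∃ G1 : ℝ → ℝ, W12O 0 G1 ∧ ∀ s, 1 ≤ s → M.g s = 1 + (1 / M.r s) ^ 2 * G1 s := by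
  have h1 : W12O 2 (fun s => M.g s - 1) := by
    obtain ⟨C, hC⟩ := W12_f0 h
    refine ⟨|M.X| * C, fun s hs => ?_⟩
    have hs0 : (0 : ℝ) ≤ s := by linarith
    have hg0 := h.g_pos hs0
    have hgs := h.g_sq hs0
    have hG : M.G s = 1 - M.X * M.f s := rfl
    have h2 : (M.g s - 1) * (M.g s + 1) = - (M.X * M.f s) := by
      have : M.g s * M.g s = 1 - M.X * M.f s := by rw [← hG, ← hgs]; ring
      linear_combination this
    have h3 : |M.g s - 1| * |M.g s + 1| = |M.X| * |M.f s| := by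
      rw [← abs_mul, h2, abs_neg, abs_mul]
    have h4 : 1 ≤ |M.g s + 1| := by
      rw [abs_of_pos (by linarith)]
      linarith
    have h5 := hC s hs
    rw [Real.norm_eq_abs] at h5 ⊢
    calc |M.g s - 1| ≤ |M.g s - 1| * |M.g s + 1| := le_mul_of_one_le_right (abs_nonneg _) h4
      _ = |M.X| * |M.f s| := h3
      _ ≤ |M.X| * (C / s ^ 2) := mul_le_mul_of_nonneg_left h5 (abs_nonneg _)
      _ = |M.X| * C / s ^ 2 := by ring
  obtain ⟨G1, hG1, h2⟩ := W12_fac h h1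
  exact ⟨G1, hG1, fun s hs => by linarith [h2 s hs]⟩

theorem W12_ginv (h : M.Ok) : ∃ G2 : ℝ → ℝ, W12O 0 G2 ∧ ∀ s, 1 ≤ s → 1 / M.g s = 1 + (1 / M.r s) ^ 2 * G2 s := by
  obtain ⟨G1, hG1, h1⟩ := W12_g h
  refine ⟨fun s => - (G1 s * (1 / M.g s)), W12O_neg (W12O_mul0 hG1 (W12_ginv0 h)), fun s hs => ?_⟩
  have hg0 := h.g_pos (by linarith : (0 : ℝ) ≤ s)
  have h2 := h1 s hs
  have h3 : (1 / M.r s) ^ 2 * G1 s = M.g s - 1 := by linarith
  have h4 : (1 / M.r s) ^ 2 * -(G1 s * (1 / M.g s)) = - (((1 / M.r s) ^ 2 * G1 s) * (1 / M.g s)) := by ring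
  rw [h4, h3]
  field_simp
  ring

/-- `D' = - f/G`; the derivative of `D - u + m u²` is `O(s^-4)`. -/
theorem W12_D0 (h : M.Ok) : W12O 3 (fun s => (M.Ki - M.K s) - (1 / M.r s - M.m * (1 / M.r s) ^ 2)) := by
  obtain ⟨F4, hF4, hf⟩ := W12_f h
  obtain ⟨G1, hG1, hg⟩ := W12_g h
  obtain ⟨G2, hG2, hgi⟩ := W12_ginv h
  have hu := W12_u0 h
  refine W12_int (x' := fun s => - (M.f s / M.G s) + M.g s * (1 / M.r s) ^ 2 - 2 * M.m * M.g s * (1 / M.r s) ^ 3) ?_ ?_ ?_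
  · intro s hs
    have hs0 : (0 : ℝ) < s := by linarith
    have hr0 := h.r_pos hs0.le
    have h1 := (h.r_d hs0).inv hr0.ne'
    have h2 := (h1.pow 2).const_mul M.m
    have h3 := ((h.K_d hs0).const_sub M.Ki).fun_sub (h1.fun_sub h2)
    refine (h3.congr_of_eventuallyEq (Eventually.of_forall fun y => ?_)).congr_deriv ?_
    · simp [one_div]
    · simp only [Pi.inv_apply, Nat.cast_ofNat, Nat.reduceSub, pow_one, one_div]
      field_simp
      ring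
  · have h1 : Tendsto (fun s => 1 / M.r s) atTop (𝓝 0) := by
      refine h.r_atTop.inv_tendsto_atTop.congr fun s => ?_
      simp
    have h2 : Tendsto (fun s => (M.Ki - M.K s) - (1 / M.r s - M.m * (1 / M.r s) ^ 2)) atTop
        (𝓝 ((M.Ki - M.Ki) - (0 - M.m * 0 ^ 2))) :=
      (h.K_lim.const_sub M.Ki).sub (h1.sub ((h1.pow 2).const_mul M.m))
    simpa using h2
  · have hb : W12O 0 (fun s => -(F4 s + (1 - 2 * M.m * (1 / M.r s) + (1 / M.r s) ^ 2 * F4 s) *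
        (2 * G2 s + (1 / M.r s) ^ 2 * G2 s ^ 2)) + G1 s - 2 * M.m * (1 / M.r s) * G1 s) := by
      repeat first
        | exact hu
        | exact hF4
        | exact hG1
        | exact hG2
        | exact W12O_const _
        | apply W12O_mul0
        | apply W12O_sub
        | apply W12O_add
        | apply W12O_neg
        | apply W12O_pow0
    refine W12O_congr (W12_upow h hb 4) (fun s hs => ?_)
    have hs0 : (0 : ℝ) < s := by linarith
    have hGg : M.f s / M.G s = M.f s * (1 / M.g s) ^ 2 := by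
      rw [← h.g_sq hs0.le, one_div, inv_pow, div_eq_mul_inv]
    rw [hGg, hf s hs, hgi s hs, hg s hs]
    ring

/-- Exact representation of `D`. -/
theorem W12_D (h : M.Ok) : ∃ D3 : ℝ → ℝ, W12O 0 D3 ∧ ∀ s, 1 ≤ s →
    M.Ki - M.K s = 1 / M.r s - M.m * (1 / M.r s) ^ 2 + (1 / M.r s) ^ 3 * D3 s := by
  obtain ⟨D3, hD3, h1⟩ := W12_fac h (W12_D0 h)
  exact ⟨D3, hD3, fun s hs => by linarith [h1 s hs]⟩

theorem W12_us2 (h : M.Ok) : W12O 3 (fun s => (1 / M.r s) ^ 2 - (1 / s) ^ 2) := by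
  refine W12O_congr (W12O_mul (W12_us h) (W12O_add (W12_u h) W12_s)) (fun s _ => ?_)
  ring

theorem W12_K0 (h : M.Ok) : W12O 0 M.K := by
  refine W12O_bdd (C := M.Ki) (fun s hs => ?_)
  have hs0 : (0 : ℝ) ≤ s := by linarith
  rw [Real.norm_of_nonneg (h.K_nonneg hs0)]
  exact (h.K_lt hs0).le

/-- `D = Ki - K`. -/
theorem Mo.Ok.D_as (h : M.Ok) : ∃ C, ∀ s, 1 ≤ s → |(M.Ki - M.K s) - (1 / M.r s - M.m / M.r s ^ 2)| ≤ C / s ^ 3 := by
  obtain ⟨C, hC⟩ := W12_D0 h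
  refine ⟨C, fun s hs => ?_⟩
  have := hC s hs
  rw [Real.norm_eq_abs] at this
  convert this using 4
  rw [one_div, inv_pow, div_eq_mul_inv]

theorem Mo.Ok.z1_as (h : M.Ok) : ∃ C, ∀ s, 1 ≤ s → |M.z1 s - M.ν| ≤ C / s ^ 3 := by
  obtain ⟨F4, hF4, hf⟩ := W12_f h
  obtain ⟨F5, hF5, hf1⟩ := W12_f1 h
  obtain ⟨G2, hG2, hgi⟩ := W12_ginv h
  obtain ⟨D3, hD3, hD⟩ := W12_D h
  have hu := W12_u0 h
  have hy := W12_y h
  have hK := W12_K0 h
  have hb : W12O 0 (fun s => (4 * F4 s + F5 s + M.N ^ 2 * (-2 + 6 * M.m * (1 / M.r s) + (1 / M.r s) ^ 2 * F5 s)) +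
      G2 s * (2 - 2 * M.m * (1 / M.r s) + (1 / M.r s) ^ 2 * (4 * F4 s + F5 s + M.N ^ 2 * (-2 + 6 * M.m * (1 / M.r s) +
        (1 / M.r s) ^ 2 * F5 s))) - 2 * D3 s - 2 * M.K s * M.X ^ 2 * M.mu * (1 / M.r s) ^ 3 *
        (1 / (1 + M.N ^ 2 * (1 / M.r s) ^ 2)) ^ 3) := by
    repeat first
      | exact hu
      | exact hy
      | exact hK
      | exact hF4
      | exact hF5
      | exact hG2
      | exact hD3
      | exact W12O_const _
      | apply W12O_mul0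
      | apply W12O_sub
      | apply W12O_add
      | apply W12O_neg
      | apply W12O_pow0
  suffices hs : W12O 3 (fun s => M.z1 s - M.ν) by
    obtain ⟨C, hC⟩ := hs
    exact ⟨C, fun s hs => by simpa using hC s hs⟩
  refine W12O_congr (W12_upow h hb 3) (fun s hs => ?_)
  have hs0 : (0 : ℝ) < s := by linarith
  have hr0 := h.r_pos hs0.le
  have hq0 := h.q_pos hs0.le
  have h1 : M.z1 s = (4 * M.r s * M.f s + M.q s * M.f1 s) * (1 / M.g s) + 2 * M.K s * (1 - M.X ^ 2 * M.mu * (1 / M.q s) ^ 3) := by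
    unfold Mo.z1
    rw [one_div, one_div, inv_pow]
    ring
  have h2 : 1 / M.q s = (1 / M.r s) ^ 2 * (1 / (1 + M.N ^ 2 * (1 / M.r s) ^ 2)) := by
    have h3 : 1 + M.N ^ 2 * (1 / M.r s) ^ 2 = (M.r s ^ 2 + M.N ^ 2) / M.r s ^ 2 := by field_simp
    rw [h3]
    unfold Mo.q qq
    field_simp
  have h3 : 4 * M.r s * M.f s + M.q s * M.f1 s = 2 * (1 / M.r s) - 2 * M.m * (1 / M.r s) ^ 2 + (1 / M.r s) ^ 3 *
      (4 * F4 s + F5 s + M.N ^ 2 * (-2 + 6 * M.m * (1 / M.r s) + (1 / M.r s) ^ 2 * F5 s)) := by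
    rw [hf s hs, hf1 s hs]
    unfold Mo.q qq
    field_simp
    ring
  have h4 : M.ν = 2 * (M.K s + (1 / M.r s - M.m * (1 / M.r s) ^ 2 + (1 / M.r s) ^ 3 * D3 s)) := by
    rw [← hD s hs]
    unfold Mo.ν
    ring
  rw [h1, h2, h3, h4, hgi s hs]
  ring

/-- `r u = 1` in `ℂ`. -/
theorem W12_cρ (h : M.Ok) {s : ℝ} (hs : 0 ≤ s) : conj (M.ρ s) * ((1 / M.r s : ℝ) : ℂ) = 1 - Complex.I * M.N * ((1 / M.r s : ℝ) : ℂ) := by
  have hr0 := h.r_pos hs
  have hr1 : (M.r s : ℂ) ≠ 0 := by exact_mod_cast hr0.ne'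
  have : conj (M.ρ s) = (M.r s : ℂ) - Complex.I * M.N := by
    unfold Mo.ρ rho
    simp [mul_comm]
    ring
  rw [this]
  push_cast
  field_simp

/-- `t = 1 + u³ T`. -/
theorem W12_t (h : M.Ok) : ∃ T : ℝ → ℂ, W12O 0 T ∧ ∀ s, 1 ≤ s → M.t s = 1 + ((1 / M.r s : ℝ) : ℂ) ^ 3 * T s := by
  obtain ⟨F4, hF4, hf⟩ := W12_f h
  obtain ⟨F5, hF5, hf1⟩ := W12_f1 h
  have hu := W12O_ofReal (W12_u0 h)
  have hF4' := W12O_ofReal hF4
  have hF5' := W12O_ofReal hF5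
  refine ⟨fun s => - (M.X : ℂ) * (-2 * M.m + ((1 / M.r s : ℝ) : ℂ) * (F4 s : ℂ)) - (M.X : ℂ) / 2 *
    ((6 * M.m + ((1 / M.r s : ℝ) : ℂ) * (F5 s : ℂ)) - Complex.I * M.N * (-2 + 6 * M.m * ((1 / M.r s : ℝ) : ℂ) +
      ((1 / M.r s : ℝ) : ℂ) ^ 2 * (F5 s : ℂ))), ?_, fun s hs => ?_⟩
  · repeat first
      | exact hu
      | exact hF4'
      | exact hF5'
      | exact W12O_const _
      | apply W12O_mul0
      | apply W12O_sub
      | apply W12O_add
      | apply W12O_neg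
      | apply W12O_pow0
  · have hs0 : (0 : ℝ) ≤ s := by linarith
    have hc := W12_cρ h hs0
    have h1 : (M.f s : ℂ) = ((1 / M.r s : ℝ) : ℂ) ^ 2 - 2 * M.m * ((1 / M.r s : ℝ) : ℂ) ^ 3 +
        ((1 / M.r s : ℝ) : ℂ) ^ 4 * (F4 s : ℂ) := by rw [hf s hs]; push_cast; ring
    have h2 : (M.f1 s : ℂ) = ((1 / M.r s : ℝ) : ℂ) * (-2 * ((1 / M.r s : ℝ) : ℂ) ^ 2 + 6 * M.m * ((1 / M.r s : ℝ) : ℂ) ^ 3 +
        ((1 / M.r s : ℝ) : ℂ) ^ 4 * (F5 s : ℂ)) := by rw [hf1 s hs]; push_cast; ring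
    have hG : (M.G s : ℂ) = 1 - M.X * (M.f s : ℂ) := by
      unfold Mo.G GG
      push_cast
      rfl
    unfold Mo.t
    rw [hG, h2, h1]
    linear_combination (- (M.X : ℂ) / 2 * (-2 * ((1 / M.r s : ℝ) : ℂ) ^ 2 + 6 * M.m * ((1 / M.r s : ℝ) : ℂ) ^ 3 +
        ((1 / M.r s : ℝ) : ℂ) ^ 4 * (F5 s : ℂ))) * hc

/-- `(f/g) conj ρ = u - (2m + iN) u² + u³ W`. -/
theorem W12_w (h : M.Ok) : ∃ W : ℝ → ℂ, W12O 0 W ∧ ∀ s, 1 ≤ s → (M.f s : ℂ) / (M.g s : ℂ) * conj (M.ρ s) =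
    ((1 / M.r s : ℝ) : ℂ) - (2 * M.m + Complex.I * M.N) * ((1 / M.r s : ℝ) : ℂ) ^ 2 + ((1 / M.r s : ℝ) : ℂ) ^ 3 * W s := by
  obtain ⟨F4, hF4, hf⟩ := W12_f h
  obtain ⟨G2, hG2, hgi⟩ := W12_ginv h
  have hu := W12O_ofReal (W12_u0 h)
  have hF4' := W12O_ofReal hF4
  have hG2' := W12O_ofReal hG2
  refine ⟨fun s => ((F4 s : ℂ) - Complex.I * M.N * (-2 * M.m + ((1 / M.r s : ℝ) : ℂ) * (F4 s : ℂ))) +
    (G2 s : ℂ) * (1 - Complex.I * M.N * ((1 / M.r s : ℝ) : ℂ)) *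
      (1 - 2 * M.m * ((1 / M.r s : ℝ) : ℂ) + ((1 / M.r s : ℝ) : ℂ) ^ 2 * (F4 s : ℂ)), ?_, fun s hs => ?_⟩
  · repeat first
      | exact hu
      | exact hF4'
      | exact hG2'
      | exact W12O_const _
      | apply W12O_mul0
      | apply W12O_sub
      | apply W12O_add
      | apply W12O_neg
      | apply W12O_pow0
  · have hs0 : (0 : ℝ) ≤ s := by linarith
    have hc := W12_cρ h hs0
    have h1 : (M.f s : ℂ) = ((1 / M.r s : ℝ) : ℂ) * (((1 / M.r s : ℝ) : ℂ) - 2 * M.m * ((1 / M.r s : ℝ) : ℂ) ^ 2 +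
        ((1 / M.r s : ℝ) : ℂ) ^ 3 * (F4 s : ℂ)) := by rw [hf s hs]; push_cast; ring
    have h2 : (1 : ℂ) / (M.g s : ℂ) = 1 + ((1 / M.r s : ℝ) : ℂ) ^ 2 * (G2 s : ℂ) := by
      have := congrArg (fun x : ℝ => (x : ℂ)) (hgi s hs)
      push_cast at this ⊢
      exact this
    have h3 : (M.f s : ℂ) / (M.g s : ℂ) * conj (M.ρ s) = (M.f s : ℂ) * (1 / (M.g s : ℂ)) * conj (M.ρ s) := by ring
    rw [h3, h2, h1]
    linear_combination ((((1 / M.r s : ℝ) : ℂ) - 2 * M.m * ((1 / M.r s : ℝ) : ℂ) ^ 2 +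
        ((1 / M.r s : ℝ) : ℂ) ^ 3 * (F4 s : ℂ)) * (1 + ((1 / M.r s : ℝ) : ℂ) ^ 2 * (G2 s : ℂ))) * hc

theorem W12_Mc (M : Mo) : Mc M.P M.N = (M.m : ℂ) + (M.N : ℂ) * Complex.I := rfl

theorem Mo.Ok.E1_as (h : M.Ok) : ∃ C, ∀ s, 1 ≤ s →
    ‖M.E1 s - (-(M.ν : ℂ) + 2 * Mc M.P M.N / (s : ℂ) ^ 2)‖ ≤ C / s ^ 3 := by
  obtain ⟨T, hT, ht⟩ := W12_t h
  obtain ⟨W, hW, hw⟩ := W12_w h
  obtain ⟨D3, hD3, hD⟩ := W12_D h
  have hD3' := W12O_ofReal hD3
  have hK := W12O_ofReal (W12_K0 h)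
  have hb : W12O 0 (fun s => -2 * W s - 2 * (M.K s : ℂ) * T s + 2 * (D3 s : ℂ)) := by
    repeat first
      | exact hT
      | exact hW
      | exact hD3'
      | exact hK
      | exact W12O_const _
      | apply W12O_mul0
      | apply W12O_sub
      | apply W12O_add
      | apply W12O_neg
  have h2 := W12O_mul (W12O_const (2 * Mc M.P M.N)) (W12O_ofReal (W12_us2 h))
  rw [Nat.zero_add] at h2
  refine W12O_congr (W12O_add (W12_upowC h hb 3) h2) (fun s hs => ?_)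
  have hs0 : (0 : ℝ) < s := by linarith
  have hν : (M.ν : ℂ) = 2 * ((M.K s : ℂ) + (((1 / M.r s : ℝ) : ℂ) - M.m * ((1 / M.r s : ℝ) : ℂ) ^ 2 +
      ((1 / M.r s : ℝ) : ℂ) ^ 3 * (D3 s : ℂ))) := by
    have h4 : M.ν = 2 * (M.K s + (1 / M.r s - M.m * (1 / M.r s) ^ 2 + (1 / M.r s) ^ 3 * D3 s)) := by
      rw [← hD s hs]
      unfold Mo.ν
      ring
    rw [h4]
    push_cast
    ring
  unfold Mo.E1
  rw [hw s hs, ht s hs, hν, W12_Mc]
  push_cast
  ring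

theorem W12_kt (h : M.Ok) {s : ℝ} : M.kt s = (1 / M.Ki) * (M.Ki - M.K s) := by
  have := h.Ki_pos
  unfold Mo.kt
  field_simp

theorem Mo.Ok.EE_as (h : M.Ok) : ∃ C, ∀ s, 1 ≤ s →
    ‖M.EE s - 2 / (M.ν : ℂ) * (1 - Mc M.P M.N / (s : ℂ))‖ ≤ C / s ^ 2 := by
  obtain ⟨G1, hG1, hg⟩ := W12_g h
  obtain ⟨D3, hD3, hD⟩ := W12_D h
  have hu := W12O_ofReal (W12_u0 h)
  have hD3' := W12O_ofReal hD3
  have hG1' := W12O_ofReal hG1
  have hK0 := h.Ki_pos
  have hb : W12O 0 (fun s => (1 / (M.Ki : ℂ)) * (((D3 s : ℂ) - Complex.I * M.N * (-M.m + ((1 / M.r s : ℝ) : ℂ) * (D3 s : ℂ))) +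
      (1 - Complex.I * M.N * ((1 / M.r s : ℝ) : ℂ)) *
        (1 - M.m * ((1 / M.r s : ℝ) : ℂ) + ((1 / M.r s : ℝ) : ℂ) ^ 2 * (D3 s : ℂ)) * (G1 s : ℂ))) := by
    repeat first
      | exact hu
      | exact hG1'
      | exact hD3'
      | exact W12O_const _
      | apply W12O_mul0
      | apply W12O_sub
      | apply W12O_add
      | apply W12O_neg
      | apply W12O_pow0
  have h2 := W12O_mul (W12O_const (- (1 / (M.Ki : ℂ)) * Mc M.P M.N)) (W12O_ofReal (W12_us h))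
  rw [Nat.zero_add] at h2
  refine W12O_congr (W12O_add (W12_upowC h hb 2) h2) (fun s hs => ?_)
  have hs0 : (0 : ℝ) < s := by linarith
  have hc := W12_cρ h hs0.le
  have hν : (2 : ℂ) / (M.ν : ℂ) = 1 / (M.Ki : ℂ) := by
    unfold Mo.ν
    push_cast
    have : (M.Ki : ℂ) ≠ 0 := by exact_mod_cast hK0.ne'
    field_simp
  have hkt : (M.kt s : ℂ) = (1 / (M.Ki : ℂ)) * (((1 / M.r s : ℝ) : ℂ) * (1 - M.m * ((1 / M.r s : ℝ) : ℂ) +
      ((1 / M.r s : ℝ) : ℂ) ^ 2 * (D3 s : ℂ))) := by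
    rw [W12_kt h, hD s hs]
    push_cast
    ring
  have hg' : (M.g s : ℂ) = 1 + ((1 / M.r s : ℝ) : ℂ) ^ 2 * (G1 s : ℂ) := by
    rw [hg s hs]
    push_cast
    ring
  unfold Mo.EE
  rw [hν, hkt, hg', W12_Mc]
  rw [show (((1 / M.r s - 1 / s : ℝ)) : ℂ) = ((1 / M.r s : ℝ) : ℂ) - 1 / (s : ℂ) by push_cast; ring]
  linear_combination ((1 + ((1 / M.r s : ℝ) : ℂ) ^ 2 * (G1 s : ℂ)) * ((1 / (M.Ki : ℂ)) * (1 - M.m * ((1 / M.r s : ℝ) : ℂ) +
      ((1 / M.r s : ℝ) : ℂ) ^ 2 * (D3 s : ℂ)))) * hc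

theorem Mo.Ok.EE1_as (h : M.Ok) : ∃ C, ∀ s, 1 ≤ s →
    ‖M.EE1 s - 2 / (M.ν : ℂ) * Mc M.P M.N / (s : ℂ) ^ 2‖ ≤ C / s ^ 3 := by
  obtain ⟨T, hT, ht⟩ := W12_t h
  obtain ⟨W, hW, hw⟩ := W12_w h
  obtain ⟨D3, hD3, hD⟩ := W12_D h
  have hu := W12O_ofReal (W12_u0 h)
  have hD3' := W12O_ofReal hD3
  have hK0 := h.Ki_pos
  have hb : W12O 0 (fun s => (1 / (M.Ki : ℂ)) * ((D3 s : ℂ) + T s * (((1 / M.r s : ℝ) : ℂ) - M.m * ((1 / M.r s : ℝ) : ℂ) ^ 2 +
      ((1 / M.r s : ℝ) : ℂ) ^ 3 * (D3 s : ℂ)) - W s)) := by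
    repeat first
      | exact hu
      | exact hT
      | exact hW
      | exact hD3'
      | exact W12O_const _
      | apply W12O_mul0
      | apply W12O_sub
      | apply W12O_add
      | apply W12O_neg
      | apply W12O_pow0
  have h2 := W12O_mul (W12O_const ((1 / (M.Ki : ℂ)) * Mc M.P M.N)) (W12O_ofReal (W12_us2 h))
  rw [Nat.zero_add] at h2
  refine W12O_congr (W12O_add (W12_upowC h hb 3) h2) (fun s hs => ?_)
  have hs0 : (0 : ℝ) < s := by linarith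
  have hKc : (M.Ki : ℂ) ≠ 0 := by exact_mod_cast hK0.ne'
  have hν : (2 : ℂ) / (M.ν : ℂ) = 1 / (M.Ki : ℂ) := by
    unfold Mo.ν
    push_cast
    field_simp
  have hkt : (M.kt s : ℂ) = (1 / (M.Ki : ℂ)) * (((1 / M.r s : ℝ) : ℂ) - M.m * ((1 / M.r s : ℝ) : ℂ) ^ 2 +
      ((1 / M.r s : ℝ) : ℂ) ^ 3 * (D3 s : ℂ)) := by
    rw [W12_kt h, hD s hs]
    push_cast
    ring
  have h5 : (M.f s : ℂ) / ((M.g s : ℂ) * (M.Ki : ℂ)) * conj (M.ρ s) =
      (1 / (M.Ki : ℂ)) * ((M.f s : ℂ) / (M.g s : ℂ) * conj (M.ρ s)) := by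
    have hg0 : (M.g s : ℂ) ≠ 0 := by exact_mod_cast (h.g_pos hs0.le).ne'
    field_simp
  unfold Mo.EE1
  rw [h5, hw s hs, ht s hs, hν, hkt, W12_Mc]
  rw [show (((1 / M.r s) ^ 2 - (1 / s) ^ 2 : ℝ) : ℂ) = ((1 / M.r s : ℝ) : ℂ) ^ 2 - (1 / (s : ℂ)) ^ 2 by push_cast; ring]
  ring

theorem W12_zero {k : ℕ} {F : ℝ → ℝ} (hF : W12O (k + 1) F) : Tendsto (fun s => s ^ k * F s) atTop (𝓝 0) := by
  obtain ⟨C, hC⟩ := hF
  have h1 : Tendsto (fun s : ℝ => C / s) atTop (𝓝 0) := tendsto_const_nhds.div_atTop tendsto_id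
  refine squeeze_zero_norm' ?_ h1
  filter_upwards [eventually_ge_atTop 1] with s hs
  have hs0 : (0 : ℝ) < s := by linarith
  rw [norm_mul, Real.norm_of_nonneg (by positivity)]
  calc s ^ k * ‖F s‖ ≤ s ^ k * (C / s ^ (k + 1)) := mul_le_mul_of_nonneg_left (hC s hs) (by positivity)
    _ = C / s := by
      rw [pow_succ]
      field_simp

theorem W12_sD (h : M.Ok) : Tendsto (fun s => s * (M.Ki - M.K s)) atTop (𝓝 1) := by
  obtain ⟨D3, hD3, hD⟩ := W12_D h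
  have hu := W12_u0 h
  have h1 : W12O 2 (fun s => (M.Ki - M.K s) - 1 / s) := by
    have hb : W12O 0 (fun s => - M.m + (1 / M.r s) * D3 s) := by
      repeat first
        | exact hu
        | exact hD3
        | exact W12O_const _
        | apply W12O_mul0
        | apply W12O_add
    refine W12O_congr (W12O_add (W12_upow h hb 2) (W12_us h)) (fun s hs => ?_)
    rw [hD s hs]
    ring
  have h2 := (W12_zero (k := 1) h1).add_const 1
  rw [zero_add] at h2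
  refine h2.congr' ?_
  filter_upwards [eventually_ge_atTop 1] with s hs
  have hs0 : (0 : ℝ) < s := by linarith
  field_simp
  ring

theorem Mo.Ok.h_as (h : M.Ok) : Tendsto (fun s => M.h s - M.ν ^ 2 / 2 * s) atTop (𝓝 (M.ν ^ 2 / 2 * (M.β + M.m) - M.ν)) := by
  obtain ⟨D3, hD3, hD⟩ := W12_D h
  have hu := W12_u0 h
  have hK0 := h.Ki_pos
  have h1 : W12O 2 (fun s => 1 - (M.Ki - M.K s) * (M.r s + M.m)) := by
    have hb : W12O 0 (fun s => - (D3 s) + M.m ^ 2 - M.m * (1 / M.r s) * D3 s) := by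
      repeat first
        | exact hu
        | exact hD3
        | exact W12O_const _
        | apply W12O_mul0
        | apply W12O_sub
        | apply W12O_add
        | apply W12O_neg
    refine W12O_congr (W12_upow h hb 2) (fun s hs => ?_)
    have hr0 := h.r_pos (by linarith : (0 : ℝ) ≤ s)
    rw [hD s hs]
    field_simp
    ring
  have h2 := (W12_zero (k := 1) h1).div (W12_sD h) one_ne_zero
  have h3 : Tendsto (fun s => M.ν ^ 2 / 2 * ((s ^ 1 * (1 - (M.Ki - M.K s) * (M.r s + M.m))) / (s * (M.Ki - M.K s)) +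
      ((M.r s - s) + M.m)) - M.ν) atTop (𝓝 (M.ν ^ 2 / 2 * (0 / 1 + (M.β + M.m)) - M.ν)) :=
    ((h2.add (h.r_lim.add_const M.m)).const_mul _).sub_const _
  rw [zero_div, zero_add] at h3
  refine h3.congr' ?_
  filter_upwards [eventually_ge_atTop 1] with s hs
  have hs0 : (0 : ℝ) < s := by linarith
  have hD0 : M.Ki - M.K s ≠ 0 := by
    have := h.K_lt hs0.le
    intro h0
    linarith
  unfold Mo.h Mo.kt Mo.ν
  have h4 : 1 - M.K s / M.Ki = (M.Ki - M.K s) / M.Ki := by field_simp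
  rw [h4]
  field_simp
  ring

theorem Mo.Ok.mh_as (h : M.Ok) : ∃ C, ∀ s, 1 ≤ s → |M.mh s - (1 - 2 * M.m / s)| ≤ C / s ^ 2 := by
  obtain ⟨F4, hF4, hf⟩ := W12_f h
  have hu := W12_u0 h
  have hb : W12O 0 (fun s => F4 s + M.N ^ 2 * (1 - 2 * M.m * (1 / M.r s) + (1 / M.r s) ^ 2 * F4 s)) := by
    repeat first
      | exact hu
      | exact hF4
      | exact W12O_const _
      | apply W12O_mul0
      | apply W12O_sub
      | apply W12O_add
      | apply W12O_pow0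
  have h2 := W12O_mul (W12O_const (- (2 * M.m))) (W12_us h)
  rw [Nat.zero_add] at h2
  suffices hs : W12O 2 (fun s => M.mh s - (1 - 2 * M.m / s)) by
    obtain ⟨C, hC⟩ := hs
    exact ⟨C, fun s hs => by simpa using hC s hs⟩
  refine W12O_congr (W12O_add (W12_upow h hb 2) h2) (fun s hs => ?_)
  have hs0 : (0 : ℝ) < s := by linarith
  have hr0 := h.r_pos hs0.le
  unfold Mo.mh Mo.q qq
  rw [hf s hs]
  field_simp
  ring

theorem W12_K_mono (h : M.Ok) : MonotoneOn M.K (Ici 0) := by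
  apply monotoneOn_of_deriv_nonneg (convex_Ici 0) h.K_cont
  · intro t ht
    rw [interior_Ici] at ht
    exact (h.K_d ht).differentiableAt.differentiableWithinAt
  · intro t ht
    rw [interior_Ici] at ht
    rw [(h.K_d ht).deriv]
    exact div_nonneg (h.f_nonneg (le_of_lt ht)) (h.G_pos' (le_of_lt ht)).le

theorem W12_Dlow (h : M.Ok) : ∃ c, 0 < c ∧ ∀ s, 1 ≤ s → c / s ≤ M.Ki - M.K s := by
  have h1 := (W12_sD h).eventually (lt_mem_nhds (show (1 / 2 : ℝ) < 1 by norm_num))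
  obtain ⟨T, hT⟩ := (h1.and (eventually_ge_atTop 1)).exists_forall_of_atTop
  have hT1 : 1 ≤ T := (hT T le_rfl).2
  have hT0 : (0 : ℝ) < T := by linarith
  have hDT : 0 < M.Ki - M.K T := by linarith [h.K_lt hT0.le]
  refine ⟨min (1 / 2) (M.Ki - M.K T), lt_min (by norm_num) hDT, fun s hs => ?_⟩
  have hs0 : (0 : ℝ) < s := by linarith
  rw [div_le_iff₀ hs0]
  rcases le_total T s with h2 | h2
  · have := (hT s h2).1
    linarith [min_le_left (1 / 2) (M.Ki - M.K T)]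
  · have h3 := W12_K_mono h (mem_Ici.2 hs0.le) (mem_Ici.2 hT0.le) h2
    have h4 := min_le_right (1 / 2) (M.Ki - M.K T)
    nlinarith

theorem Mo.Ok.h1_bdd (h : M.Ok) : ∃ C, ∀ s, 1 ≤ s → M.h1 s ≤ C := by
  obtain ⟨c, hc, hD⟩ := W12_Dlow h
  obtain ⟨cG, hcG, hG⟩ := h.G_lower
  obtain ⟨C, hC⟩ := W12_f0 h
  have hK0 := h.Ki_pos
  refine ⟨2 * C / (cG * (c / M.Ki) ^ 2), fun s hs => ?_⟩
  have hs0 : (0 : ℝ) < s := by linarith
  have hf := hC s hs
  rw [Real.norm_of_nonneg (h.f_nonneg hs0.le)] at hf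
  have hkt : c / M.Ki / s ≤ M.kt s := by
    rw [W12_kt h]
    have := hD s hs
    calc c / M.Ki / s = (1 / M.Ki) * (c / s) := by ring
      _ ≤ _ := mul_le_mul_of_nonneg_left this (by positivity)
  have h0 : 0 ≤ C := by
    have := (h.f_nonneg hs0.le).trans hf
    rcases le_or_gt 0 C with h1 | h1
    · exact h1
    · exfalso
      have : C / s ^ 2 < 0 := div_neg_of_neg_of_pos h1 (by positivity)
      linarith
  have h1 : cG * (c / M.Ki / s) ^ 2 ≤ M.G s * M.kt s ^ 2 :=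
    mul_le_mul (hG s hs0.le) (pow_le_pow_left₀ (by positivity) hkt 2) (by positivity) (h.G_pos' hs0.le).le
  unfold Mo.h1
  calc 2 * M.f s / (M.G s * M.kt s ^ 2) ≤ 2 * (C / s ^ 2) / (cG * (c / M.Ki / s) ^ 2) :=
        div_le_div₀ (by positivity) (by linarith) (by positivity) h1
    _ = 2 * C / (cG * (c / M.Ki) ^ 2) := by
      field_simp

theorem Mo.Ok.h1_zero (h : M.Ok) : Tendsto M.h1 (𝓝[>] 0) (𝓝 0) := by
  have hr : Tendsto M.r (𝓝[>] 0) (𝓝 M.P) := by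
    have := (h.r_cont 0 (by simp)).mono_left (nhdsWithin_mono _ Ioi_subset_Ici_self)
    rwa [h.r_zero] at this
  have hK : Tendsto M.K (𝓝[>] 0) (𝓝 0) := by
    have := (h.K_cont 0 (by simp)).mono_left (nhdsWithin_mono _ Ioi_subset_Ici_self)
    rwa [h.K_zero] at this
  have hf : Tendsto M.f (𝓝[>] 0) (𝓝 0) := by
    have h1 : Tendsto (ff M.P M.N) (𝓝 M.P) (𝓝 (ff M.P M.N M.P)) := (ff_der h.P_pos).continuousAt
    rw [ff_P h.P_pos] at h1
    exact h1.comp hr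
  have hG : Tendsto M.G (𝓝[>] 0) (𝓝 (1 - M.X * 0)) := (hf.const_mul M.X).const_sub 1
  have hkt : Tendsto M.kt (𝓝[>] 0) (𝓝 (1 - 0 / M.Ki)) := (hK.div_const M.Ki).const_sub 1
  have h2 : Tendsto M.h1 (𝓝[>] 0) (𝓝 (2 * 0 / ((1 - M.X * 0) * (1 - 0 / M.Ki) ^ 2))) :=
    (hf.const_mul 2).div (hG.mul (hkt.pow 2)) (by norm_num)
  simpa using h2

/-- `conj lam = - conj M / s^3 + O(s^-4)`. -/
theorem Mo.Ok.lam_as (h : M.Ok) : ∃ C, ∀ s, 1 ≤ s → ‖M.lam s + Mc M.P M.N / (s : ℂ) ^ 3‖ ≤ C / s ^ 4 := by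
  have hv : W12O 1 (fun s => 1 / M.ρ s) := by
    obtain ⟨C, hC⟩ := W12_u h
    refine ⟨C, fun s hs => ?_⟩
    have hs0 : (0 : ℝ) < s := by linarith
    have hr0 := h.r_pos hs0.le
    have h1 := hC s hs
    rw [Real.norm_of_nonneg (by positivity)] at h1
    have h2 : M.r s ≤ ‖M.ρ s‖ := by
      have := Complex.abs_re_le_norm (M.ρ s)
      unfold Mo.ρ at this ⊢
      rw [rho_re, abs_of_pos hr0] at this
      exact this
    rw [norm_div, norm_one]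
    exact (one_div_le_one_div_of_le hr0 h2).trans h1
  have hw := W12O_ofReal W12_s
  have hvw : W12O 2 (fun s => 1 / M.ρ s - ((1 / s : ℝ) : ℂ)) := by
    refine W12O_congr (W12O_mul (W12O_mul (W12O_sub (W12O_neg (W12O_ofReal (W12_rs h))) (W12O_const (M.N * Complex.I))) hv) hw)
      (fun s hs => ?_)
    have hs0 : (0 : ℝ) < s := by linarith
    have hr0 := h.r_pos hs0.le
    have hρ : M.ρ s ≠ 0 := rho_ne hr0
    have hsc : (s : ℂ) ≠ 0 := by exact_mod_cast hs0.ne'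
    have h3 : M.ρ s = (M.r s : ℂ) + M.N * Complex.I := rfl
    have h4 : 1 / M.ρ s - ((1 / s : ℝ) : ℂ) = ((s : ℂ) - M.ρ s) * (1 / M.ρ s) * ((1 / s : ℝ) : ℂ) := by
      push_cast
      field_simp
    rw [h4]
    congr 2
    rw [h3]
    push_cast
    ring
  have h5 : W12O 2 (fun s => (1 / M.ρ s) ^ 2 + (1 / M.ρ s) * ((1 / s : ℝ) : ℂ) + ((1 / s : ℝ) : ℂ) ^ 2) :=
    W12O_add (W12O_add (W12O_pow hv 2) (W12O_mul hv hw)) (W12O_pow hw 2)
  have h6 := W12O_mul (W12O_const (- Mc M.P M.N)) (W12O_mul hvw h5)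
  refine W12O_congr h6 (fun s hs => ?_)
  have hs0 : (0 : ℝ) < s := by linarith
  have hr0 := h.r_pos hs0.le
  have hρ : M.ρ s ≠ 0 := rho_ne hr0
  have hsc : (s : ℂ) ≠ 0 := by exact_mod_cast hs0.ne'
  have h7 : M.lam s = - Mc M.P M.N * (1 / M.ρ s) ^ 3 := by
    unfold Mo.lam lamr Mo.ρ
    rw [one_div, inv_pow]
    ring
  rw [h7]
  push_cast
  ring

end H17S
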