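import Pool.Agent.Lib.H17S.W11
import Pool.Agent.Lib.H17S.W12

set_option autoImplicit false

/-!
Chunk W13 (M). Asymptotics of `cA, wA, wB, uA, uB`.
* `cA_as`: `cA = 2 + 4∫_s^∞`, integrand `conj ac A - aa conj B = conj lam A + O(t^-3) = - conj M/t^2 + O(t^-3)` (`lam_as`, `A = t + O(1)` (`Pa.Ok.bdd`), `lamX = O(t^-4)` (`dec`)), `∫_s^∞ 1/t^2 = 1/s`.
* `wA_as`: `wA = cA + conj E1 A = 2 - ν A - 2 conj M/s + O(s^-2)` (`E1_as`). `wB = cB + conj E1 B = - ν B + O(s^-2)` (`cB_bound`). `uA = X vv + cA/ν + conj EE1 A = (2/ν)(1 - conj M/s) + O(s^-2)`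
  (`vv_bound`, `EE1_as`: `cA/ν = 2/ν - 4 conj M/(ν s)`, `conj EE1 A = (2/ν) conj M/s + O(s^-2)`), `uB = O(s^-2)`.
-/

open MeasureTheory Filter Topology Set
open scoped ContDiff ComplexConjugate

namespace H17S

variable {M : Mo} {p : Pa}

/-- Products of bounds. -/
theorem w13_mul {a b : ℂ} {s C D : ℝ} {k j : ℕ} (hs : 1 ≤ s) (hD : 0 ≤ D) (ha : ‖a‖ ≤ C / s ^ (k + j)) (hb : ‖b‖ ≤ D * s ^ j) :
    ‖a * b‖ ≤ C * D / s ^ k := by
  have hs0 : 0 < s := by linarith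
  have hC : 0 ≤ C := by
    have h1 := (norm_nonneg a).trans ha
    rw [le_div_iff₀ (pow_pos hs0 _), zero_mul] at h1
    exact h1
  rw [norm_mul]
  calc ‖a‖ * ‖b‖ ≤ C / s ^ (k + j) * (D * s ^ j) := mul_le_mul ha hb (norm_nonneg _) (by positivity)
    _ = C * D / s ^ k := by
      rw [pow_add]
      field_simp

theorem w13_wk {C s : ℝ} {k : ℕ} (hs : 1 ≤ s) (hC : 0 ≤ C) : C / s ^ (k + 1) ≤ C / s ^ k := by
  have hs0 : 0 < s := by linarith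
  apply div_le_div_of_nonneg_left hC (pow_pos hs0 _)
  exact pow_le_pow_right₀ hs (Nat.le_succ k)

/-- `1/(1+t)^2` -/
theorem w13_one {s : ℝ} (hs : 0 ≤ s) : IntegrableOn (fun t : ℝ => (1 : ℂ) / (1 + (t : ℂ)) ^ 2) (Ioi s) ∧
    ∫ t in Ioi s, (1 : ℂ) / (1 + (t : ℂ)) ^ 2 = 1 / (1 + (s : ℂ)) := by
  have hpos : ∀ t : ℝ, 0 ≤ t → (1 + (t : ℂ)) ≠ 0 := by
    intro t ht h
    have h1 := congrArg Complex.re h
    simp at h1
    linarith
  have hint : IntegrableOn (fun t : ℝ => (1 : ℂ) / (1 + (t : ℂ)) ^ 2) (Ioi s) := by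
    refine w7_int (C := 1) ?_ ?_ hs
    · refine ContinuousOn.div continuousOn_const ?_ ?_
      · exact ((continuous_const.add Complex.continuous_ofReal).pow 2).continuousOn
      · intro t ht
        exact pow_ne_zero 2 (hpos t ht)
    · intro t ht
      rw [norm_div, norm_one, norm_pow]
      have h1 : ‖(1 : ℂ) + (t : ℂ)‖ = 1 + t := by
        rw [← Complex.ofReal_one, ← Complex.ofReal_add, Complex.norm_real, Real.norm_of_nonneg (by linarith)]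
      rw [h1]
  refine ⟨hint, ?_⟩
  have hder : ∀ t ∈ Ioi s, HasDerivAt (fun t : ℝ => - (1 : ℂ) / (1 + (t : ℂ))) ((1 : ℂ) / (1 + (t : ℂ)) ^ 2) t := by
    intro t ht
    have ht0 : 0 ≤ t := hs.trans (le_of_lt ht)
    have h1 : HasDerivAt (fun t : ℝ => (1 : ℂ) + (t : ℂ)) 1 t := by
      have := (hasDerivAt_id (t : ℂ)).comp_ofReal
      simpa using this.const_add (1 : ℂ)
    have h2 := (hasDerivAt_const t (-(1 : ℂ))).div h1 (hpos t ht0)
    refine h2.congr_deriv ?_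
    have h3 : (0 : ℂ) * (1 + (t : ℂ)) - -(1 : ℂ) * 1 = 1 := by ring
    rw [h3]
  have hlim : Tendsto (fun t : ℝ => - (1 : ℂ) / (1 + (t : ℂ))) atTop (𝓝 0) := by
    rw [tendsto_zero_iff_norm_tendsto_zero]
    have h1 : Tendsto (fun t : ℝ => 1 / (1 + t)) atTop (𝓝 0) := by
      have h2 : Tendsto (fun t : ℝ => 1 + t) atTop atTop := tendsto_atTop_add_const_left _ _ tendsto_id
      have h3 := tendsto_inv_atTop_zero.comp h2
      refine h3.congr fun t => ?_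
      simp [Function.comp]
    refine h1.congr' ?_
    filter_upwards [eventually_ge_atTop 0] with t ht
    rw [norm_div, norm_neg, norm_one]
    have h1 : ‖(1 : ℂ) + (t : ℂ)‖ = 1 + t := by
      rw [← Complex.ofReal_one, ← Complex.ofReal_add, Complex.norm_real, Real.norm_of_nonneg (by linarith)]
    rw [h1]
  have hc : ContinuousWithinAt (fun t : ℝ => - (1 : ℂ) / (1 + (t : ℂ))) (Ici s) s := by
    apply ContinuousAt.continuousWithinAt
    refine ContinuousAt.div continuousAt_const ?_ (hpos s hs)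
    exact (continuous_const.add Complex.continuous_ofReal).continuousAt
  rw [integral_Ioi_of_hasDerivAt_of_tendsto hc hder hint hlim]
  ring

theorem w13_A (hp : p.Ok) : ∃ D, 0 ≤ D ∧ ∀ s, 1 ≤ s → ‖p.A s - (s : ℂ)‖ ≤ D ∧ ‖p.B s‖ ≤ D ∧ ‖p.A s‖ ≤ D * s ^ 1 ∧
    ‖p.A s‖ ≤ D * (1 + s) := by
  obtain ⟨C, hC⟩ := hp.bdd
  have hC0 : 0 ≤ C := (norm_nonneg _).trans (hC 0 le_rfl).2
  refine ⟨C + 1, by linarith, ?_⟩
  intro s hs
  obtain ⟨h1, h2⟩ := hC s (by linarith)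
  have h3 : ‖p.A s‖ ≤ C + s := by
    have h4 : p.A s = (p.A s - (s : ℂ)) + (s : ℂ) := by ring
    rw [h4]
    refine (norm_add_le _ _).trans ?_
    rw [Complex.norm_real, Real.norm_of_nonneg (by linarith)]
    linarith
  refine ⟨by linarith, by linarith, ?_, ?_⟩
  · rw [pow_one]
    nlinarith
  · nlinarith

theorem w13_pow {t : ℝ} (ht : 1 ≤ t) (k : ℕ) : 1 / t ^ k ≤ 2 ^ k / (1 + t) ^ k := by
  have h0 : 0 < t := by linarith
  rw [← one_div_pow, ← div_pow]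
  apply pow_le_pow_left₀ (by positivity)
  rw [div_le_div_iff₀ h0 (by linarith)]
  linarith

theorem cA_as (h : M.Ok) (hp : p.Ok) : ∃ C, ∀ s, 1 ≤ s → ‖cA M p s - (2 - 4 * conj (Mc M.P M.N) / (s : ℂ))‖ ≤ C / s ^ 2 := by
  obtain ⟨D, hD0, hD⟩ := w13_A hp
  obtain ⟨C1, hC1⟩ := h.lam_as
  obtain ⟨C2, hC20, hC2⟩ := h.dec
  obtain ⟨hIc, C3, hC30, hC3⟩ := w7_ai h hp
  set m0 := Mc M.P M.N with hm0
  set I : ℝ → ℂ := fun t => conj (M.ac t) * p.A t - M.aa t * conj (p.B t) with hI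
  have hC10 : 0 ≤ C1 := by
    have h1 := (norm_nonneg _).trans (hC1 1 le_rfl)
    simpa using h1
  -- the remainder
  set Cb : ℝ := 16 * C1 * D + 8 * ‖m0‖ * D + 8 * ‖m0‖ + 2 * C2 * D with hCb
  have hCb0 : 0 ≤ Cb := by positivity
  set Ct : ℝ := Cb + 2 * C3 + 4 * ‖m0‖ with hCt
  have hCt0 : 0 ≤ Ct := by positivity
  have hJ : ∀ t, 0 ≤ t → ‖I t + conj m0 * (1 / (1 + (t : ℂ)) ^ 2)‖ ≤ Ct / (1 + t) ^ (1 + 2) := by
    intro t ht
    have hnt : ‖(1 : ℂ) + (t : ℂ)‖ = 1 + t := by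
      rw [← Complex.ofReal_one, ← Complex.ofReal_add, Complex.norm_real, Real.norm_of_nonneg (by linarith)]
    have hut : (0 : ℝ) < 1 + t := by linarith
    rcases le_total 1 t with h1 | h1
    · have ht0 : 0 < t := by linarith
      have htc : (t : ℂ) ≠ 0 := by exact_mod_cast ht0.ne'
      have hutc : (1 + (t : ℂ)) ≠ 0 := by
        intro hz
        rw [hz, norm_zero] at hnt
        linarith
      obtain ⟨d1, d2, d3, d4⟩ := hD t h1
      obtain ⟨e1, -, -, -, e5⟩ := hC2 t ht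
      have hdec : I t + conj m0 * (1 / (1 + (t : ℂ)) ^ 2) =
          conj (M.lam t + m0 / (t : ℂ) ^ 3) * p.A t - conj m0 / (t : ℂ) ^ 3 * (p.A t - (t : ℂ)) +
          (- (conj m0 * ((2 * (t : ℂ) + 1) / ((t : ℂ) ^ 2 * (1 + (t : ℂ)) ^ 2)))) + conj (M.aa t) * p.A t - M.aa t * conj (p.B t) := by
        simp only [hI]
        have hac : M.ac t = M.lam t + M.aa t := rfl
        rw [hac, map_add, map_add, map_div₀, map_pow, Complex.conj_ofReal]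
        field_simp
        ring
      rw [hdec]
      have hc1 : ‖conj (M.lam t + m0 / (t : ℂ) ^ 3) * p.A t‖ ≤ 16 * C1 * D / (1 + t) ^ 3 := by
        rw [norm_mul, Complex.norm_conj]
        have h2 := hC1 t h1
        have h3 := w13_pow h1 4
        calc ‖M.lam t + m0 / (t : ℂ) ^ 3‖ * ‖p.A t‖ ≤ (C1 / t ^ 4) * (D * (1 + t)) :=
              mul_le_mul h2 d4 (norm_nonneg _) (by positivity)
          _ = C1 * (1 / t ^ 4) * (D * (1 + t)) := by ring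
          _ ≤ C1 * (2 ^ 4 / (1 + t) ^ 4) * (D * (1 + t)) := by gcongr
          _ = 16 * C1 * D / (1 + t) ^ 3 := by field_simp; ring
      have hc2 : ‖conj m0 / (t : ℂ) ^ 3 * (p.A t - (t : ℂ))‖ ≤ 8 * ‖m0‖ * D / (1 + t) ^ 3 := by
        rw [norm_mul, norm_div, Complex.norm_conj, norm_pow, Complex.norm_real, Real.norm_of_nonneg ht0.le]
        have h3 := w13_pow h1 3
        calc ‖m0‖ / t ^ 3 * ‖p.A t - (t : ℂ)‖ ≤ ‖m0‖ / t ^ 3 * D := by gcongr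
          _ = ‖m0‖ * (1 / t ^ 3) * D := by ring
          _ ≤ ‖m0‖ * (2 ^ 3 / (1 + t) ^ 3) * D := by gcongr
          _ = 8 * ‖m0‖ * D / (1 + t) ^ 3 := by ring
      have hc3 : ‖- (conj m0 * ((2 * (t : ℂ) + 1) / ((t : ℂ) ^ 2 * (1 + (t : ℂ)) ^ 2)))‖ ≤ 8 * ‖m0‖ / (1 + t) ^ 3 := by
        rw [norm_neg, norm_mul, Complex.norm_conj, norm_div, norm_mul, norm_pow, norm_pow, hnt, Complex.norm_real,
          Real.norm_of_nonneg ht0.le]
        have h2 : ‖2 * (t : ℂ) + 1‖ = 2 * t + 1 := by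
          have : (2 * (t : ℂ) + 1) = ((2 * t + 1 : ℝ) : ℂ) := by push_cast; ring
          rw [this, Complex.norm_real, Real.norm_of_nonneg (by linarith)]
        rw [h2]
        have h3 : (2 * t + 1) / (t ^ 2 * (1 + t) ^ 2) ≤ 8 / (1 + t) ^ 3 := by
          rw [div_le_div_iff₀ (by positivity) (by positivity)]
          nlinarith [sq_nonneg t, mul_pos ht0 ht0, mul_nonneg ht0.le (sub_nonneg.2 h1), sq_nonneg ((1 + t) ^ 2),
            mul_nonneg (sq_nonneg (1 + t)) (show 0 ≤ 8 * t ^ 2 - (2 * t + 1) * (1 + t) by nlinarith)]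
        calc ‖m0‖ * ((2 * t + 1) / (t ^ 2 * (1 + t) ^ 2)) ≤ ‖m0‖ * (8 / (1 + t) ^ 3) := by gcongr
          _ = 8 * ‖m0‖ / (1 + t) ^ 3 := by ring
      have hc4 : ‖conj (M.aa t) * p.A t‖ ≤ C2 * D / (1 + t) ^ 3 := by
        rw [norm_mul, Complex.norm_conj]
        calc ‖M.aa t‖ * ‖p.A t‖ ≤ (C2 / (1 + t) ^ 4) * (D * (1 + t)) :=
              mul_le_mul e5 d4 (norm_nonneg _) (by positivity)
          _ = C2 * D / (1 + t) ^ 3 := by field_simp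
      have hc5 : ‖M.aa t * conj (p.B t)‖ ≤ C2 * D / (1 + t) ^ 3 := by
        rw [norm_mul, Complex.norm_conj]
        have h6 : C2 / (1 + t) ^ 4 ≤ C2 / (1 + t) ^ 3 := w13_wk (k := 3) (by linarith) hC20
        calc ‖M.aa t‖ * ‖p.B t‖ ≤ (C2 / (1 + t) ^ 3) * D :=
              mul_le_mul (e5.trans h6) d2 (norm_nonneg _) (by positivity)
          _ = C2 * D / (1 + t) ^ 3 := by ring
      have hsum : 16 * C1 * D / (1 + t) ^ 3 + 8 * ‖m0‖ * D / (1 + t) ^ 3 + 8 * ‖m0‖ / (1 + t) ^ 3 +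
          C2 * D / (1 + t) ^ 3 + C2 * D / (1 + t) ^ 3 = Cb / (1 + t) ^ 3 := by
        rw [hCb]; ring
      have hle : Cb / (1 + t) ^ 3 ≤ Ct / (1 + t) ^ (1 + 2) := by
        have : Cb ≤ Ct := by rw [hCt]; linarith [norm_nonneg m0]
        show Cb / (1 + t) ^ 3 ≤ Ct / (1 + t) ^ 3
        gcongr
      refine le_trans ?_ hle
      rw [← hsum]
      refine (norm_sub_le _ _).trans (add_le_add ?_ hc5)
      refine (norm_add_le _ _).trans (add_le_add ?_ hc4)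
      refine (norm_add_le _ _).trans (add_le_add ?_ hc3)
      exact (norm_sub_le _ _).trans (add_le_add hc1 hc2)
    · refine (norm_add_le _ _).trans ?_
      have h2 := hC3 t ht
      have h3 : ‖conj m0 * (1 / (1 + (t : ℂ)) ^ 2)‖ = ‖m0‖ / (1 + t) ^ 2 := by
        rw [norm_mul, Complex.norm_conj, norm_div, norm_one, norm_pow, hnt]; ring
      rw [h3]
      have h4 : ∀ c : ℝ, 0 ≤ c → c / (1 + t) ^ 2 ≤ 2 * c / (1 + t) ^ 3 := by
        intro c hc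
        rw [div_le_div_iff₀ (by positivity) (by positivity)]
        have : 0 ≤ c * (1 + t) ^ 2 := by positivity
        nlinarith
      have h5 := h4 C3 hC30
      have h6 := h4 ‖m0‖ (norm_nonneg _)
      calc ‖I t‖ + ‖m0‖ / (1 + t) ^ 2 ≤ 2 * C3 / (1 + t) ^ 3 + 2 * ‖m0‖ / (1 + t) ^ 3 := by
            exact add_le_add (h2.trans h5) h6
        _ = (2 * C3 + 2 * ‖m0‖) / (1 + t) ^ 3 := by ring
        _ ≤ Ct / (1 + t) ^ (1 + 2) := by
            have : 2 * C3 + 2 * ‖m0‖ ≤ Ct := by rw [hCt]; linarith [norm_nonneg m0]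
            show (2 * C3 + 2 * ‖m0‖) / (1 + t) ^ 3 ≤ Ct / (1 + t) ^ 3
            gcongr
  refine ⟨4 * Ct + 4 * ‖m0‖, ?_⟩
  intro s hs
  have hs0 : 0 ≤ s := by linarith
  have hsp : 0 < s := by linarith
  obtain ⟨i1, i2⟩ := w13_one hs0
  have hIint : IntegrableOn I (Ioi s) := w7_int hIc hC3 hs0
  have hb := w7_bound (k := 1) hJ hs0
  have heq : ∫ t in Ioi s, (I t + conj m0 * (1 / (1 + (t : ℂ)) ^ 2)) = (∫ t in Ioi s, I t) + conj m0 * (1 / (1 + (s : ℂ))) := by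
    rw [integral_add hIint (i1.const_mul _), integral_const_mul, i2]
  rw [heq] at hb
  have hcA : cA M p s = 2 + 4 * ∫ t in Ioi s, I t := rfl
  have hsc : (s : ℂ) ≠ 0 := by exact_mod_cast hsp.ne'
  have hnt : ‖(1 : ℂ) + (s : ℂ)‖ = 1 + s := by
    rw [← Complex.ofReal_one, ← Complex.ofReal_add, Complex.norm_real, Real.norm_of_nonneg (by linarith)]
  have hutc : (1 + (s : ℂ)) ≠ 0 := by
    intro hz
    rw [hz, norm_zero] at hnt
    linarith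
  have hfin : cA M p s - (2 - 4 * conj m0 / (s : ℂ)) =
      4 * ((∫ t in Ioi s, I t) + conj m0 * (1 / (1 + (s : ℂ)))) + 4 * conj m0 * (1 / ((s : ℂ) * (1 + (s : ℂ)))) := by
    rw [hcA]
    field_simp
    ring
  rw [hfin]
  refine (norm_add_le _ _).trans ?_
  have hA : ‖4 * ((∫ t in Ioi s, I t) + conj m0 * (1 / (1 + (s : ℂ))))‖ ≤ 4 * Ct / s ^ 2 := by
    rw [norm_mul]
    have h4 : ‖(4 : ℂ)‖ = 4 := by simp
    rw [h4]
    have h5 : Ct / (1 + s) ^ (1 + 1) ≤ Ct / s ^ 2 := by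
      show Ct / (1 + s) ^ 2 ≤ Ct / s ^ 2
      gcongr
      linarith
    calc 4 * ‖(∫ t in Ioi s, I t) + conj m0 * (1 / (1 + (s : ℂ)))‖ ≤ 4 * (Ct / s ^ 2) := by
          linarith [hb.trans h5]
      _ = 4 * Ct / s ^ 2 := by ring
  have hB : ‖4 * conj m0 * (1 / ((s : ℂ) * (1 + (s : ℂ))))‖ ≤ 4 * ‖m0‖ / s ^ 2 := by
    rw [norm_mul, norm_mul, Complex.norm_conj, norm_div, norm_one, norm_mul, hnt, Complex.norm_real, Real.norm_of_nonneg hs0]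
    have h4 : ‖(4 : ℂ)‖ = 4 := by simp
    rw [h4]
    have h5 : 1 / (s * (1 + s)) ≤ 1 / s ^ 2 := by
      apply one_div_le_one_div_of_le (by positivity)
      nlinarith
    calc 4 * ‖m0‖ * (1 / (s * (1 + s))) ≤ 4 * ‖m0‖ * (1 / s ^ 2) := by gcongr
      _ = 4 * ‖m0‖ / s ^ 2 := by ring
  calc _ ≤ 4 * Ct / s ^ 2 + 4 * ‖m0‖ / s ^ 2 := add_le_add hA hB
    _ = (4 * Ct + 4 * ‖m0‖) / s ^ 2 := by ring

theorem wA_as (h : M.Ok) (hp : p.Ok) : ∃ C, ∀ s, 1 ≤ s →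
    ‖wA M p s - (2 - (M.ν : ℂ) * p.A s - 2 * conj (Mc M.P M.N) / (s : ℂ))‖ ≤ C / s ^ 2 := by
  obtain ⟨D, hD0, hD⟩ := w13_A hp
  obtain ⟨C1, hC1⟩ := cA_as h hp
  obtain ⟨C2, hC2⟩ := h.E1_as
  set m0 := Mc M.P M.N with hm0
  refine ⟨C1 + C2 * D + 2 * ‖m0‖ * D, ?_⟩
  intro s hs
  have hsp : 0 < s := by linarith
  have hsc : (s : ℂ) ≠ 0 := by exact_mod_cast hsp.ne'
  obtain ⟨d1, d2, d3, d4⟩ := hD s hs
  have hdec : wA M p s - (2 - (M.ν : ℂ) * p.A s - 2 * conj m0 / (s : ℂ)) =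
      (cA M p s - (2 - 4 * conj m0 / (s : ℂ))) + conj (M.E1 s - (-(M.ν : ℂ) + 2 * m0 / (s : ℂ) ^ 2)) * p.A s +
      2 * conj m0 / (s : ℂ) ^ 2 * (p.A s - (s : ℂ)) := by
    unfold wA
    rw [map_sub, map_add, map_neg, map_div₀, map_mul, map_pow, Complex.conj_ofReal, Complex.conj_ofReal, Complex.conj_ofNat]
    field_simp
    ring
  rw [hdec]
  have h2 : ‖conj (M.E1 s - (-(M.ν : ℂ) + 2 * m0 / (s : ℂ) ^ 2)) * p.A s‖ ≤ C2 * D / s ^ 2 := by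
    refine w13_mul (k := 2) (j := 1) hs hD0 ?_ d3
    rw [Complex.norm_conj]
    exact hC2 s hs
  have h3 : ‖2 * conj m0 / (s : ℂ) ^ 2 * (p.A s - (s : ℂ))‖ ≤ 2 * ‖m0‖ * D / s ^ 2 := by
    refine w13_mul (k := 2) (j := 0) hs hD0 ?_ (by rw [pow_zero, mul_one]; exact d1)
    rw [norm_div, norm_mul, Complex.norm_conj, norm_pow, Complex.norm_real, Real.norm_of_nonneg hsp.le]
    have h4 : ‖(2 : ℂ)‖ = 2 := by simp
    rw [h4]
  calc _ ≤ C1 / s ^ 2 + C2 * D / s ^ 2 + 2 * ‖m0‖ * D / s ^ 2 := by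
        refine (norm_add_le _ _).trans (add_le_add ?_ h3)
        exact (norm_add_le _ _).trans (add_le_add (hC1 s hs) h2)
    _ = (C1 + C2 * D + 2 * ‖m0‖ * D) / s ^ 2 := by ring

theorem wB_as (h : M.Ok) (hp : p.Ok) : ∃ C, ∀ s, 1 ≤ s → ‖wB M p s + (M.ν : ℂ) * p.B s‖ ≤ C / s ^ 2 := by
  obtain ⟨D, hD0, hD⟩ := w13_A hp
  obtain ⟨C1, hC10, hC1⟩ := cB_bound h hp
  obtain ⟨C2, hC2⟩ := h.E1_as
  set m0 := Mc M.P M.N with hm0
  have hC20 : 0 ≤ C2 := by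
    have h1 := (norm_nonneg _).trans (hC2 1 le_rfl)
    simpa using h1
  refine ⟨C1 + C2 * D + 2 * ‖m0‖ * D, ?_⟩
  intro s hs
  have hsp : 0 < s := by linarith
  have hsc : (s : ℂ) ≠ 0 := by exact_mod_cast hsp.ne'
  obtain ⟨d1, d2, d3, d4⟩ := hD s hs
  have hdec : wB M p s + (M.ν : ℂ) * p.B s =
      cB M p s + conj (M.E1 s - (-(M.ν : ℂ) + 2 * m0 / (s : ℂ) ^ 2)) * p.B s +
      2 * conj m0 / (s : ℂ) ^ 2 * p.B s := by
    unfold wB
    rw [map_sub, map_add, map_neg, map_div₀, map_mul, map_pow, Complex.conj_ofReal, Complex.conj_ofReal, Complex.conj_ofNat]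
    ring
  rw [hdec]
  have h1 : ‖cB M p s‖ ≤ C1 / s ^ 2 := by
    refine (hC1 s hsp.le).trans ?_
    gcongr
    linarith
  have h2 : ‖conj (M.E1 s - (-(M.ν : ℂ) + 2 * m0 / (s : ℂ) ^ 2)) * p.B s‖ ≤ C2 * D / s ^ 2 := by
    refine w13_mul (k := 2) (j := 0) hs hD0 ?_ (by rw [pow_zero, mul_one]; exact d2)
    rw [Complex.norm_conj]
    exact (hC2 s hs).trans (w13_wk (k := 2) hs hC20)
  have h3 : ‖2 * conj m0 / (s : ℂ) ^ 2 * p.B s‖ ≤ 2 * ‖m0‖ * D / s ^ 2 := by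
    refine w13_mul (k := 2) (j := 0) hs hD0 ?_ (by rw [pow_zero, mul_one]; exact d2)
    rw [norm_div, norm_mul, Complex.norm_conj, norm_pow, Complex.norm_real, Real.norm_of_nonneg hsp.le]
    have h4 : ‖(2 : ℂ)‖ = 2 := by simp
    rw [h4]
  calc _ ≤ C1 / s ^ 2 + C2 * D / s ^ 2 + 2 * ‖m0‖ * D / s ^ 2 := by
        refine (norm_add_le _ _).trans (add_le_add ?_ h3)
        exact (norm_add_le _ _).trans (add_le_add h1 h2)
    _ = (C1 + C2 * D + 2 * ‖m0‖ * D) / s ^ 2 := by ring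

theorem uA_as (h : M.Ok) (hp : p.Ok) : ∃ C, ∀ s, 1 ≤ s →
    ‖uA M p s - 2 / (M.ν : ℂ) * (1 - conj (Mc M.P M.N) / (s : ℂ))‖ ≤ C / s ^ 2 := by
  obtain ⟨D, hD0, hD⟩ := w13_A hp
  obtain ⟨C1, hC1⟩ := cA_as h hp
  obtain ⟨C2, hC2⟩ := h.EE1_as
  obtain ⟨C3, hC30, hC3⟩ := vv_bound h hp
  have hν := h.ν_pos
  have hνc : (M.ν : ℂ) ≠ 0 := by exact_mod_cast hν.ne'
  set m0 := Mc M.P M.N with hm0
  refine ⟨|M.X| * C3 + C1 / M.ν + C2 * D + 2 / M.ν * ‖m0‖ * D, ?_⟩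
  intro s hs
  have hsp : 0 < s := by linarith
  have hsc : (s : ℂ) ≠ 0 := by exact_mod_cast hsp.ne'
  obtain ⟨d1, d2, d3, d4⟩ := hD s hs
  have hdec : uA M p s - 2 / (M.ν : ℂ) * (1 - conj m0 / (s : ℂ)) =
      (M.X : ℂ) * vv M p s + (cA M p s - (2 - 4 * conj m0 / (s : ℂ))) / (M.ν : ℂ) +
      conj (M.EE1 s - 2 / (M.ν : ℂ) * m0 / (s : ℂ) ^ 2) * p.A s +
      2 / (M.ν : ℂ) * conj m0 / (s : ℂ) ^ 2 * (p.A s - (s : ℂ)) := by
    unfold uA
    rw [map_sub, map_div₀, map_mul, map_pow, map_div₀, Complex.conj_ofReal, Complex.conj_ofReal, Complex.conj_ofNat]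
    field_simp
    ring
  rw [hdec]
  have h1 : ‖(M.X : ℂ) * vv M p s‖ ≤ |M.X| * C3 / s ^ 2 := by
    rw [norm_mul, Complex.norm_real, Real.norm_eq_abs]
    have h2 : ‖vv M p s‖ ≤ C3 / s ^ 2 := by
      refine (hC3 s hsp.le).trans ?_
      gcongr
      linarith
    calc |M.X| * ‖vv M p s‖ ≤ |M.X| * (C3 / s ^ 2) := by gcongr
      _ = |M.X| * C3 / s ^ 2 := by ring
  have h2 : ‖(cA M p s - (2 - 4 * conj m0 / (s : ℂ))) / (M.ν : ℂ)‖ ≤ C1 / M.ν / s ^ 2 := by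
    rw [norm_div, Complex.norm_real, Real.norm_of_nonneg hν.le]
    calc _ ≤ C1 / s ^ 2 / M.ν := by
          apply div_le_div_of_nonneg_right (hC1 s hs) hν.le
      _ = C1 / M.ν / s ^ 2 := by ring
  have h3 : ‖conj (M.EE1 s - 2 / (M.ν : ℂ) * m0 / (s : ℂ) ^ 2) * p.A s‖ ≤ C2 * D / s ^ 2 := by
    refine w13_mul (k := 2) (j := 1) hs hD0 ?_ d3
    rw [Complex.norm_conj]
    exact hC2 s hs
  have h4 : ‖2 / (M.ν : ℂ) * conj m0 / (s : ℂ) ^ 2 * (p.A s - (s : ℂ))‖ ≤ 2 / M.ν * ‖m0‖ * D / s ^ 2 := by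
    refine w13_mul (k := 2) (j := 0) hs hD0 ?_ (by rw [pow_zero, mul_one]; exact d1)
    rw [norm_div, norm_mul, norm_div, Complex.norm_conj, norm_pow, Complex.norm_real, Complex.norm_real,
      Real.norm_of_nonneg hsp.le, Real.norm_of_nonneg hν.le]
    have h4 : ‖(2 : ℂ)‖ = 2 := by simp
    rw [h4]
  calc _ ≤ |M.X| * C3 / s ^ 2 + C1 / M.ν / s ^ 2 + C2 * D / s ^ 2 + 2 / M.ν * ‖m0‖ * D / s ^ 2 := by
        refine (norm_add_le _ _).trans (add_le_add ?_ h4)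
        refine (norm_add_le _ _).trans (add_le_add ?_ h3)
        exact (norm_add_le _ _).trans (add_le_add h1 h2)
    _ = (|M.X| * C3 + C1 / M.ν + C2 * D + 2 / M.ν * ‖m0‖ * D) / s ^ 2 := by ring

theorem uB_as (h : M.Ok) (hp : p.Ok) : ∃ C, ∀ s, 1 ≤ s → ‖uB M p s‖ ≤ C / s ^ 2 := by
  obtain ⟨D, hD0, hD⟩ := w13_A hp
  obtain ⟨C1, hC10, hC1⟩ := cB_bound h hp
  obtain ⟨C2, hC2⟩ := h.EE1_as
  obtain ⟨C3, hC30, hC3⟩ := vv_bound h hp
  have hν := h.ν_pos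
  have hνc : (M.ν : ℂ) ≠ 0 := by exact_mod_cast hν.ne'
  have hC20 : 0 ≤ C2 := by
    have h1 := (norm_nonneg _).trans (hC2 1 le_rfl)
    simpa using h1
  set m0 := Mc M.P M.N with hm0
  refine ⟨|M.X| * C3 + C1 / M.ν + C2 * D + 2 / M.ν * ‖m0‖ * D, ?_⟩
  intro s hs
  have hsp : 0 < s := by linarith
  have hsc : (s : ℂ) ≠ 0 := by exact_mod_cast hsp.ne'
  obtain ⟨d1, d2, d3, d4⟩ := hD s hs
  have hdec : uB M p s =
      - (M.X : ℂ) * conj (vv M p s) + cB M p s / (M.ν : ℂ) +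
      conj (M.EE1 s - 2 / (M.ν : ℂ) * m0 / (s : ℂ) ^ 2) * p.B s +
      2 / (M.ν : ℂ) * conj m0 / (s : ℂ) ^ 2 * p.B s := by
    unfold uB
    rw [map_sub, map_div₀, map_mul, map_pow, map_div₀, Complex.conj_ofReal, Complex.conj_ofReal, Complex.conj_ofNat]
    ring
  rw [hdec]
  have h1 : ‖- (M.X : ℂ) * conj (vv M p s)‖ ≤ |M.X| * C3 / s ^ 2 := by
    rw [norm_mul, norm_neg, Complex.norm_conj, Complex.norm_real, Real.norm_eq_abs]
    have h2 : ‖vv M p s‖ ≤ C3 / s ^ 2 := by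
      refine (hC3 s hsp.le).trans ?_
      gcongr
      linarith
    calc |M.X| * ‖vv M p s‖ ≤ |M.X| * (C3 / s ^ 2) := by gcongr
      _ = |M.X| * C3 / s ^ 2 := by ring
  have h2 : ‖cB M p s / (M.ν : ℂ)‖ ≤ C1 / M.ν / s ^ 2 := by
    rw [norm_div, Complex.norm_real, Real.norm_of_nonneg hν.le]
    have h3 : ‖cB M p s‖ ≤ C1 / s ^ 2 := by
      refine (hC1 s hsp.le).trans ?_
      gcongr
      linarith
    calc _ ≤ C1 / s ^ 2 / M.ν := by
          apply div_le_div_of_nonneg_right h3 hν.le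
      _ = C1 / M.ν / s ^ 2 := by ring
  have h3 : ‖conj (M.EE1 s - 2 / (M.ν : ℂ) * m0 / (s : ℂ) ^ 2) * p.B s‖ ≤ C2 * D / s ^ 2 := by
    refine w13_mul (k := 2) (j := 0) hs hD0 ?_ (by rw [pow_zero, mul_one]; exact d2)
    rw [Complex.norm_conj]
    exact (hC2 s hs).trans (w13_wk (k := 2) hs hC20)
  have h4 : ‖2 / (M.ν : ℂ) * conj m0 / (s : ℂ) ^ 2 * p.B s‖ ≤ 2 / M.ν * ‖m0‖ * D / s ^ 2 := by
    refine w13_mul (k := 2) (j := 0) hs hD0 ?_ (by rw [pow_zero, mul_one]; exact d2)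
    rw [norm_div, norm_mul, norm_div, Complex.norm_conj, norm_pow, Complex.norm_real, Complex.norm_real,
      Real.norm_of_nonneg hsp.le, Real.norm_of_nonneg hν.le]
    have h4 : ‖(2 : ℂ)‖ = 2 := by simp
    rw [h4]
  calc _ ≤ |M.X| * C3 / s ^ 2 + C1 / M.ν / s ^ 2 + C2 * D / s ^ 2 + 2 / M.ν * ‖m0‖ * D / s ^ 2 := by
        refine (norm_add_le _ _).trans (add_le_add ?_ h4)
        refine (norm_add_le _ _).trans (add_le_add ?_ h3)
        exact (norm_add_le _ _).trans (add_le_add h1 h2)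
    _ = (|M.X| * C3 + C1 / M.ν + C2 * D + 2 / M.ν * ‖m0‖ * D) / s ^ 2 := by ring

end H17S
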