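import Pool.Agent.Lib.H17S.W13

set_option autoImplicit false

/-!
Chunk W14 (M). `L0 -> 0` for `s -> ∞`.
The terms of `L0`, with `sqrt a = s + bN + o(1)`, `u a/2 = s + bN + o(1)` (`ua_lim`), `A = s + bN + o(1)` (`A_lim`):
`cost -> 0` (`cost_lim`); `mh u a = (1 - 2m/s + O(s^-2)) (2s + 2bN + o(1)) = 2s + 2bN - 4m + o(1)`; `- z1 a = - ν a + o(1)`; `2X Re<VV, conj E1 psi> = O(s^-2) O(s) -> 0`; `2 a X Re(conj lam E1) = O(s^2 s^-3) -> 0`;
`(1/ν)(|wA|^2 - |wB|^2) = ν a - 4 Re A + 4/ν + 4 m + o(1)` (`|wA|^2 = |2 - ν A|^2 - 4 Re((2 - ν conj A) conj M)/s + o(1)`, `|2 - νA|^2 = 4 - 4 ν Re A + ν^2 |A|^2`, `Re(conj A conj M)/s -> m`, `B` bounded);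
`h (|uA|^2 - |uB|^2) = (4/ν^2)(1 - 2m/s + O(s^-2)) (ν^2 s/2 + ν^2(β+m)/2 - ν + o(1)) = 2 s + 2β + 2m - 4/ν - 4m + o(1)`.
The sum of the constant terms is `(2 bN - κ - (P^2+N^2)/P) + (2bN - 4m) - 4 bN + 4/ν + 4m + 2β - 2m - 4/ν = 2P - (P^2+N^2)/P - 2m = 0` (`κ = 2(β - P)`, `2m = (P^2-N^2)/P`), and `2s - 4s + 2s = 0`.
It is convenient to write each group as (explicit function) + (function tending to 0).
-/

open MeasureTheory Filter Topology Set
open scoped ContDiff ComplexConjugate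

namespace H17S

variable {M : Mo} {p : Pa}

theorem w14_inv (C : ℝ) (k : ℕ) : Tendsto (fun s : ℝ => C / s ^ (k + 1)) atTop (𝓝 0) :=
  tendsto_const_nhds.div_atTop (tendsto_pow_atTop (by omega))

/-- a function bounded by `C / s ^ (k + j + 1)` multiplied by `s ^ k` tends to `0` -/
theorem w14_mul {E : Type*} [NormedAddCommGroup E] [NormedSpace ℝ E] {f : ℝ → E} {C : ℝ} (k j : ℕ)
    (hf : ∀ s, 1 ≤ s → ‖f s‖ ≤ C / s ^ (k + j + 1)) :
    Tendsto (fun s : ℝ => s ^ k • f s) atTop (𝓝 0) := by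
  refine squeeze_zero_norm' ?_ (w14_inv C j)
  filter_upwards [eventually_ge_atTop (1 : ℝ)] with s hs
  have hs0 : 0 < s := by linarith
  rw [norm_smul, Real.norm_of_nonneg (by positivity)]
  calc s ^ k * ‖f s‖ ≤ s ^ k * (C / s ^ (k + j + 1)) :=
        mul_le_mul_of_nonneg_left (hf s hs) (by positivity)
    _ = C / s ^ (j + 1) := by
        rw [show k + j + 1 = k + (j + 1) by ring, pow_add]
        field_simp

theorem w14_one {C s : ℝ} (hC : 0 ≤ C) (hs : 1 ≤ s) (k : ℕ) : C / (1 + s) ^ k ≤ C / s ^ k :=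
  div_le_div_of_nonneg_left hC (by positivity) (pow_le_pow_left₀ (by linarith) (by linarith) k)

theorem w14_sq (z w : ℂ) : ‖z + w‖ ^ 2 = ‖z‖ ^ 2 + 2 * (conj z * w).re + ‖w‖ ^ 2 := by
  rw [← Complex.normSq_eq_norm_sq, ← Complex.normSq_eq_norm_sq, ← Complex.normSq_eq_norm_sq,
    Complex.normSq_apply, Complex.normSq_apply, Complex.normSq_apply]
  simp only [Complex.add_re, Complex.add_im, Complex.mul_re, Complex.conj_re, Complex.conj_im]
  ring

theorem w14_invC (k : ℕ) : Tendsto (fun s : ℝ => 1 / (s : ℂ) ^ (k + 1)) atTop (𝓝 0) := by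
  have := (Complex.continuous_ofReal.tendsto 0).comp (w14_inv 1 k)
  rw [Complex.ofReal_zero] at this
  refine this.congr fun s => ?_
  simp only [Function.comp_apply]
  push_cast
  rfl

/-- `A / s → 1` -/
theorem w14_A (hp : p.Ok) : Tendsto (fun s : ℝ => p.A s / (s : ℂ)) atTop (𝓝 1) := by
  have h1 := hp.A_lim
  have h3 := (h1.mul (w14_invC 0)).add_const 1
  have e1 : (p.bN : ℂ) * 0 + 1 = 1 := by ring
  rw [e1] at h3
  refine h3.congr' ?_
  filter_upwards [eventually_gt_atTop (0 : ℝ)] with s hs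
  have hs' : (s : ℂ) ≠ 0 := by exact_mod_cast hs.ne'
  rw [zero_add, pow_one]
  field_simp
  ring

/-- `B / s → 0` -/
theorem w14_B (hp : p.Ok) : Tendsto (fun s : ℝ => p.B s / (s : ℂ)) atTop (𝓝 0) := by
  obtain ⟨C, hC⟩ := hp.bdd
  refine squeeze_zero_norm' ?_ (w14_inv C 0)
  filter_upwards [eventually_ge_atTop (1 : ℝ)] with s hs
  have hs0 : 0 < s := by linarith
  rw [norm_div, Complex.norm_real, Real.norm_of_nonneg hs0.le, zero_add, pow_one]
  exact div_le_div_of_nonneg_right (hC s hs0.le).2 hs0.le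

/-- `a / s ^ 2 → 1` -/
theorem w14_a (hp : p.Ok) : Tendsto (fun s : ℝ => p.a s / s ^ 2) atTop (𝓝 1) := by
  have h1 := ((w14_A hp).norm.pow 2).sub ((w14_B hp).norm.pow 2)
  have e1 : ‖(1 : ℂ)‖ ^ 2 - ‖(0 : ℂ)‖ ^ 2 = 1 := by rw [norm_one, norm_zero]; norm_num
  rw [e1] at h1
  refine h1.congr' ?_
  filter_upwards [eventually_gt_atTop (0 : ℝ)] with s hs
  unfold Pa.a
  rw [norm_div, norm_div, Complex.norm_real, Real.norm_of_nonneg hs.le, div_pow, div_pow, sub_div]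

theorem w14_E1 (h : M.Ok) : Tendsto M.E1 atTop (𝓝 (-(M.ν : ℂ))) := by
  obtain ⟨C, hC⟩ := h.E1_as
  have h1 := w14_mul (f := fun s => M.E1 s - (-(M.ν : ℂ) + 2 * Mc M.P M.N / (s : ℂ) ^ 2)) 0 2 hC
  have h3 := (h1.add (((w14_invC 1).const_mul (2 * Mc M.P M.N)).const_add (-(M.ν : ℂ))))
  have e1 : (0 : ℂ) + (-(M.ν : ℂ) + 2 * Mc M.P M.N * 0) = -(M.ν : ℂ) := by ring
  rw [e1] at h3
  refine h3.congr fun s => ?_
  simp only [pow_zero, one_smul]
  ring

/-- term 2 -/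
theorem w14_T2 (h : M.Ok) (hp : p.Ok) :
    Tendsto (fun s => M.mh s * (p.u s * p.a s) - 2 * s) atTop (𝓝 (2 * p.bN - 4 * M.m)) := by
  obtain ⟨C, hC⟩ := h.mh_as
  have h1 := w14_mul (f := fun s => M.mh s - (1 - 2 * M.m / s)) 1 0 hC
  have h2 : Tendsto (fun s => (M.mh s - 1) * s) atTop (𝓝 (-(2 * M.m))) := by
    have h3 := h1.sub_const (2 * M.m)
    rw [zero_sub] at h3
    refine h3.congr' ?_
    filter_upwards [eventually_gt_atTop (0 : ℝ)] with s hs
    simp only [pow_one, smul_eq_mul]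
    field_simp
    ring
  have h4 := hp.ua_lim
  have h5 : Tendsto (fun s => p.u s * p.a s / s) atTop (𝓝 2) := by
    have h6 := ((h4.mul (w14_inv 1 0)).add_const 1).const_mul 2
    have e6 : 2 * (p.bN * 0 + 1) = 2 := by ring
    rw [e6] at h6
    refine h6.congr' ?_
    filter_upwards [eventually_gt_atTop (0 : ℝ)] with s hs
    rw [zero_add, pow_one]
    field_simp
    ring
  have h7 := (h2.mul h5).add (h4.const_mul 2)
  have h8 : -(2 * M.m) * 2 + 2 * p.bN = 2 * p.bN - 4 * M.m := by ring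
  rw [h8] at h7
  refine h7.congr' ?_
  filter_upwards [eventually_gt_atTop (0 : ℝ)] with s hs
  field_simp
  ring

/-- term 3 -/
theorem w14_T3 (h : M.Ok) (hp : p.Ok) : Tendsto (fun s => M.z1 s * p.a s - M.ν * p.a s) atTop (𝓝 0) := by
  obtain ⟨C, hC⟩ := h.z1_as
  have h1 := w14_mul (f := fun s => M.z1 s - M.ν) 2 0 hC
  have h2 := h1.mul (w14_a hp)
  rw [zero_mul] at h2
  refine h2.congr' ?_
  filter_upwards [eventually_gt_atTop (0 : ℝ)] with s hs
  simp only [smul_eq_mul]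
  field_simp

/-- term 4 -/
theorem w14_T4 (h : M.Ok) (hp : p.Ok) : Tendsto (fun s => 2 * M.X * (conj (vv M p s) * conj (M.E1 s) * p.A s +
    vv M p s * conj (M.E1 s) * p.B s).re) atTop (𝓝 0) := by
  obtain ⟨C, hC0, hC⟩ := vv_bound h hp
  have hb : ∀ s, 1 ≤ s → ‖vv M p s‖ ≤ C / s ^ (1 + 0 + 1) := fun s hs =>
    (hC s (by linarith)).trans (w14_one hC0 hs 2)
  have h1 := w14_mul (f := vv M p) 1 0 hb
  have hcE : Tendsto (fun s => conj (M.E1 s)) atTop (𝓝 (conj (-(M.ν : ℂ)))) :=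
    (Complex.continuous_conj.tendsto _).comp (w14_E1 h)
  have h1c : Tendsto (fun s : ℝ => conj (s ^ 1 • vv M p s)) atTop (𝓝 0) := by
    have := (Complex.continuous_conj.tendsto _).comp h1
    rwa [map_zero] at this
  have h2 := ((h1c.mul hcE).mul (w14_A hp)).add ((h1.mul hcE).mul (w14_B hp))
  simp only [zero_mul, add_zero] at h2
  have h3 := ((Complex.continuous_re.tendsto _).comp h2).const_mul (2 * M.X)
  rw [Complex.zero_re, mul_zero] at h3
  refine h3.congr' ?_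
  filter_upwards [eventually_gt_atTop (0 : ℝ)] with s hs
  have hs' : (s : ℂ) ≠ 0 := by exact_mod_cast hs.ne'
  simp only [Function.comp_apply, pow_one, Complex.real_smul, map_mul, Complex.conj_ofReal]
  congr 2
  field_simp

/-- term 5 -/
theorem w14_T5 (h : M.Ok) (hp : p.Ok) : Tendsto (fun s => 2 * p.a s * M.X * (conj (M.lam s) * M.E1 s).re)
    atTop (𝓝 0) := by
  obtain ⟨C, hC0, hC⟩ := h.dec
  have hb : ∀ s, 1 ≤ s → ‖M.lam s‖ ≤ C / s ^ (2 + 0 + 1) := fun s hs =>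
    (hC s (by linarith)).1.trans (w14_one hC0 hs 3)
  have h1 := w14_mul (f := M.lam) 2 0 hb
  have h1c : Tendsto (fun s : ℝ => conj (s ^ 2 • M.lam s)) atTop (𝓝 0) := by
    have := (Complex.continuous_conj.tendsto _).comp h1
    rwa [map_zero] at this
  have h2 := h1c.mul (w14_E1 h)
  rw [zero_mul] at h2
  have h3 := (((Complex.continuous_re.tendsto _).comp h2).mul (w14_a hp)).const_mul (2 * M.X)
  rw [Complex.zero_re, zero_mul, mul_zero] at h3
  refine h3.congr' ?_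
  filter_upwards [eventually_gt_atTop (0 : ℝ)] with s hs
  have e1 : conj (s ^ 2 • M.lam s) * M.E1 s = ((s ^ 2 : ℝ) : ℂ) * (conj (M.lam s) * M.E1 s) := by
    rw [Complex.real_smul, map_mul, Complex.conj_ofReal]
    ring
  simp only [Function.comp_apply]
  rw [e1, Complex.re_ofReal_mul]
  field_simp

/-- term 6 -/
theorem w14_T6 (h : M.Ok) (hp : p.Ok) : Tendsto (fun s => 1 / M.ν * (‖wA M p s‖ ^ 2 - ‖wB M p s‖ ^ 2) -
    M.ν * p.a s + 4 * s) atTop (𝓝 (4 / M.ν - 4 * p.bN + 4 * M.m)) := by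
  have hν := h.ν_pos
  -- the part of wA
  obtain ⟨C, hC⟩ := wA_as h hp
  have h1 := w14_mul (f := fun s => wA M p s - (2 - (M.ν : ℂ) * p.A s - 2 * conj (Mc M.P M.N) / (s : ℂ))) 1 0 hC
  have hd : Tendsto (fun s : ℝ => (s : ℂ) * (wA M p s - (2 - (M.ν : ℂ) * p.A s))) atTop
      (𝓝 (-(2 * conj (Mc M.P M.N)))) := by
    have h2 := h1.sub_const (2 * conj (Mc M.P M.N))
    rw [zero_sub] at h2
    refine h2.congr' ?_
    filter_upwards [eventually_gt_atTop (0 : ℝ)] with s hs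
    have hs' : (s : ℂ) ≠ 0 := by exact_mod_cast hs.ne'
    simp only [pow_one, Complex.real_smul]
    field_simp
    ring
  have hi := w14_invC 0
  have h0 : Tendsto (fun s : ℝ => conj ((2 - (M.ν : ℂ) * p.A s) / (s : ℂ))) atTop (𝓝 (-(M.ν : ℂ))) := by
    have h2 := (hi.const_mul 2).sub ((w14_A hp).const_mul (M.ν : ℂ))
    have e1 : (2 : ℂ) * 0 - (M.ν : ℂ) * 1 = -(M.ν : ℂ) := by ring
    rw [e1] at h2
    have h3 := (Complex.continuous_conj.tendsto _).comp h2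
    rw [map_neg, Complex.conj_ofReal] at h3
    refine h3.congr fun s => ?_
    simp only [Function.comp_apply]
    congr 1
    ring
  have hA : Tendsto (fun s => ‖wA M p s‖ ^ 2 - ‖2 - (M.ν : ℂ) * p.A s‖ ^ 2) atTop (𝓝 (4 * M.ν * M.m)) := by
    have h2 := (((Complex.continuous_re.tendsto _).comp (h0.mul hd)).const_mul 2).add
      ((hd.norm.pow 2).mul (w14_inv 1 1))
    rw [mul_zero, add_zero] at h2
    have e2 : 2 * (-(M.ν : ℂ) * -(2 * conj (Mc M.P M.N))).re = 4 * M.ν * M.m := by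
      have e3 : (-(M.ν : ℂ) * -(2 * conj (Mc M.P M.N))) = ((2 * M.ν : ℝ) : ℂ) * conj (Mc M.P M.N) := by
        push_cast; ring
      rw [e3, Complex.re_ofReal_mul, Complex.conj_re]
      have e4 : (Mc M.P M.N).re = M.m := by simp [Mc, Mo.m]
      rw [e4]; ring
    rw [e2] at h2
    refine h2.congr' ?_
    filter_upwards [eventually_gt_atTop (0 : ℝ)] with s hs
    have hs' : (s : ℂ) ≠ 0 := by exact_mod_cast hs.ne'
    have e5 := w14_sq (2 - (M.ν : ℂ) * p.A s) (wA M p s - (2 - (M.ν : ℂ) * p.A s))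
    rw [add_sub_cancel] at e5
    have e6 : conj ((2 - (M.ν : ℂ) * p.A s) / (s : ℂ)) * ((s : ℂ) * (wA M p s - (2 - (M.ν : ℂ) * p.A s))) =
        conj (2 - (M.ν : ℂ) * p.A s) * (wA M p s - (2 - (M.ν : ℂ) * p.A s)) := by
      rw [map_div₀, Complex.conj_ofReal]
      field_simp
    simp only [Function.comp_apply]
    rw [e6, e5, norm_mul, Complex.norm_real, Real.norm_of_nonneg hs.le]
    field_simp
    ring
  -- the part of wB
  have hB : Tendsto (fun s => ‖wB M p s‖ ^ 2 - M.ν ^ 2 * ‖p.B s‖ ^ 2) atTop (𝓝 0) := by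
    obtain ⟨C', hC'⟩ := wB_as h hp
    have h2 := w14_mul (f := fun s => wB M p s + (M.ν : ℂ) * p.B s) 1 0 hC'
    have h3 : Tendsto (fun s : ℝ => conj (-((M.ν : ℂ) * (p.B s / (s : ℂ))))) atTop (𝓝 0) := by
      have h4 := (Complex.continuous_conj.tendsto _).comp (((w14_B hp).const_mul (M.ν : ℂ)).neg)
      rw [mul_zero, neg_zero, map_zero] at h4
      exact h4
    have h5 := (((Complex.continuous_re.tendsto _).comp (h3.mul h2)).const_mul 2).add
      ((h2.norm.pow 2).mul (w14_inv 1 1))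
    rw [mul_zero, mul_zero, add_zero, Complex.zero_re, mul_zero] at h5
    refine h5.congr' ?_
    filter_upwards [eventually_gt_atTop (0 : ℝ)] with s hs
    have hs' : (s : ℂ) ≠ 0 := by exact_mod_cast hs.ne'
    have e5 := w14_sq (-((M.ν : ℂ) * p.B s)) (wB M p s + (M.ν : ℂ) * p.B s)
    have e7 : -((M.ν : ℂ) * p.B s) + (wB M p s + (M.ν : ℂ) * p.B s) = wB M p s := by ring
    rw [e7, norm_neg, norm_mul, Complex.norm_real, Real.norm_of_nonneg hν.le, mul_pow] at e5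
    have e6 : conj (-((M.ν : ℂ) * (p.B s / (s : ℂ)))) * (s ^ 1 • (wB M p s + (M.ν : ℂ) * p.B s)) =
        conj (-((M.ν : ℂ) * p.B s)) * (wB M p s + (M.ν : ℂ) * p.B s) := by
      rw [pow_one, Complex.real_smul, map_neg, map_neg, map_mul, map_mul, map_div₀, Complex.conj_ofReal,
        Complex.conj_ofReal]
      field_simp
    simp only [Function.comp_apply]
    rw [e6, e5, norm_smul, pow_one, Real.norm_of_nonneg hs.le]
    field_simp
    ring
  have h9 := (((hA.sub hB).const_mul (1 / M.ν)).add ((hp.re_lim.const_mul (-4)).add_const (4 / M.ν)))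
  have e9 : 1 / M.ν * (4 * M.ν * M.m - 0) + (-4 * p.bN + 4 / M.ν) = 4 / M.ν - 4 * p.bN + 4 * M.m := by
    field_simp
    ring
  rw [e9] at h9
  refine h9.congr fun s => ?_
  have e10 : ‖2 - (M.ν : ℂ) * p.A s‖ ^ 2 = 4 - 4 * M.ν * (p.A s).re + M.ν ^ 2 * ‖p.A s‖ ^ 2 := by
    rw [← Complex.normSq_eq_norm_sq, ← Complex.normSq_eq_norm_sq, Complex.normSq_apply, Complex.normSq_apply]
    simp only [Complex.sub_re, Complex.sub_im, Complex.re_ofReal_mul, Complex.im_ofReal_mul,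
      Complex.re_ofNat, Complex.im_ofNat]
    ring
  rw [e10]
  unfold Pa.a
  field_simp
  ring

/-- term 7 -/
theorem w14_T7 (h : M.Ok) (hp : p.Ok) : Tendsto (fun s => M.h s * (‖uA M p s‖ ^ 2 - ‖uB M p s‖ ^ 2) - 2 * s)
    atTop (𝓝 (2 * M.β - 2 * M.m - 4 / M.ν)) := by
  have hν := h.ν_pos
  have hνc : (M.ν : ℂ) ≠ 0 := by exact_mod_cast hν.ne'
  obtain ⟨C, hC⟩ := uA_as h hp
  have h1 := w14_mul (f := fun s => uA M p s - 2 / (M.ν : ℂ) * (1 - conj (Mc M.P M.N) / (s : ℂ))) 1 0 hC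
  have hd : Tendsto (fun s : ℝ => (s : ℂ) * (uA M p s - 2 / (M.ν : ℂ))) atTop
      (𝓝 (-(2 / (M.ν : ℂ) * conj (Mc M.P M.N)))) := by
    have h2 := h1.sub_const (2 / (M.ν : ℂ) * conj (Mc M.P M.N))
    rw [zero_sub] at h2
    refine h2.congr' ?_
    filter_upwards [eventually_gt_atTop (0 : ℝ)] with s hs
    have hs' : (s : ℂ) ≠ 0 := by exact_mod_cast hs.ne'
    simp only [pow_one, Complex.real_smul]
    field_simp
    ring
  -- s (|uA|^2 - 4/ν^2)
  have hA : Tendsto (fun s => s * (‖uA M p s‖ ^ 2 - 4 / M.ν ^ 2)) atTop (𝓝 (-(8 * M.m / M.ν ^ 2))) := by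
    have h2 := (((Complex.continuous_re.tendsto _).comp hd).const_mul (4 / M.ν)).add
      ((hd.norm.pow 2).mul (w14_inv 1 0))
    rw [mul_zero, add_zero] at h2
    have e2 : 4 / M.ν * (-(2 / (M.ν : ℂ) * conj (Mc M.P M.N))).re = -(8 * M.m / M.ν ^ 2) := by
      have e3 : (-(2 / (M.ν : ℂ) * conj (Mc M.P M.N))) = ((-(2 / M.ν) : ℝ) : ℂ) * conj (Mc M.P M.N) := by
        push_cast; ring
      rw [e3, Complex.re_ofReal_mul, Complex.conj_re]
      have e4 : (Mc M.P M.N).re = M.m := by simp [Mc, Mo.m]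
      rw [e4]; field_simp; ring
    rw [e2] at h2
    refine h2.congr' ?_
    filter_upwards [eventually_gt_atTop (0 : ℝ)] with s hs
    have e5 := w14_sq (2 / (M.ν : ℂ)) (uA M p s - 2 / (M.ν : ℂ))
    rw [add_sub_cancel] at e5
    have e6 : (2 / (M.ν : ℂ)) = ((2 / M.ν : ℝ) : ℂ) := by push_cast; ring
    have e7 : (conj (2 / (M.ν : ℂ)) * (uA M p s - 2 / (M.ν : ℂ))).re =
        2 / M.ν * (uA M p s - 2 / (M.ν : ℂ)).re := by
      rw [e6, Complex.conj_ofReal, Complex.re_ofReal_mul]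
    have e8 : ‖(2 / (M.ν : ℂ))‖ ^ 2 = 4 / M.ν ^ 2 := by
      rw [e6, Complex.norm_real, Real.norm_of_nonneg (by positivity), div_pow]
      norm_num
    rw [e7, e8] at e5
    simp only [Function.comp_apply]
    rw [Complex.re_ofReal_mul, norm_mul, Complex.norm_real, Real.norm_of_nonneg hs.le, e5]
    field_simp
    ring
  -- h / s
  have hh := h.h_as
  have hhs : Tendsto (fun s => M.h s / s) atTop (𝓝 (M.ν ^ 2 / 2)) := by
    have h2 := (hh.mul (w14_inv 1 0)).add_const (M.ν ^ 2 / 2)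
    have e2 : (M.ν ^ 2 / 2 * (M.β + M.m) - M.ν) * 0 + M.ν ^ 2 / 2 = M.ν ^ 2 / 2 := by ring
    rw [e2] at h2
    refine h2.congr' ?_
    filter_upwards [eventually_gt_atTop (0 : ℝ)] with s hs
    rw [zero_add, pow_one]
    field_simp
    ring
  -- s |uB|^2
  have hB : Tendsto (fun s => s * ‖uB M p s‖ ^ 2) atTop (𝓝 0) := by
    obtain ⟨C', hC'⟩ := uB_as h hp
    have h2 := w14_mul (f := uB M p) 1 0 hC'
    have h3 := (h2.norm.pow 2).mul (w14_inv 1 0)
    rw [mul_zero] at h3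
    refine h3.congr' ?_
    filter_upwards [eventually_gt_atTop (0 : ℝ)] with s hs
    rw [norm_smul, pow_one, Real.norm_of_nonneg hs.le]
    field_simp
  have h9 := (hhs.mul (hA.sub hB)).add (hh.const_mul (4 / M.ν ^ 2))
  have e9 : M.ν ^ 2 / 2 * (-(8 * M.m / M.ν ^ 2) - 0) + 4 / M.ν ^ 2 * (M.ν ^ 2 / 2 * (M.β + M.m) - M.ν) =
      2 * M.β - 2 * M.m - 4 / M.ν := by
    field_simp
    ring
  rw [e9] at h9
  refine h9.congr' ?_
  filter_upwards [eventually_gt_atTop (0 : ℝ)] with s hs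
  field_simp
  ring

theorem L0_lim (h : M.Ok) (hp : p.Ok) : Tendsto (L0 M p) atTop (𝓝 0) := by
  have h1 := ((((((cost_lim h hp).const_sub (2 * p.bN - M.κ - (M.P ^ 2 + M.N ^ 2) / M.P)).add
    (w14_T2 h hp)).sub (w14_T3 h hp)).add (w14_T4 h hp)).add (w14_T5 h hp)).add
    ((w14_T6 h hp).add (w14_T7 h hp))
  have hP := h.P_pos
  have e1 : 2 * p.bN - M.κ - (M.P ^ 2 + M.N ^ 2) / M.P - 0 + (2 * p.bN - 4 * M.m) - 0 + 0 + 0 +
      (4 / M.ν - 4 * p.bN + 4 * M.m + (2 * M.β - 2 * M.m - 4 / M.ν)) = 0 := by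
    unfold Mo.κ Mo.m mm
    field_simp
    ring
  rw [e1] at h1
  refine h1.congr fun s => ?_
  unfold L0
  ring

end H17S
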