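import Pool.Agent.Lib.H17S.W14

set_option autoImplicit false

/-!
Chunk W15 (M). The limits of `LL`, the pointwise theorem.
* `Q_lim`: `Q = conj A uA - conj B uB - conj EE u a/2 = (2/ν)(conj A - conj M) - (2/ν)(s + bN - conj M) + o(1) -> 0` (`A_lim`, `ua_lim`, `uA_as`, `uB_as`, `EE_as`).
* `LL_lim`: `0 <= Gam |Q|^2/a <= 2 h1 |Q|^2/(u a) -> 0` (`Gam_pos`, `Gam_le`, `h1_bdd`).
* `LL_zero`: `s -> 0+`: all functions in `L0` are continuous at `0` from the right: `K 0 = 0`, `f(P) = 0`: `mh -> 0`, `h -> 0`, `E1 -> 0`, `z1 -> q f'(P) = 1/P` (`f'(P) = (P + N^2/P)/q^2`, `q = P^2+N^2`, `G = g = 1`),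
  `vv, cA, cB, cost, A, B, u, a` continuous; `wA -> cA 0`, `wB -> cB 0`; `uA, uB` bounded. `Gam |Q|^2/a <= 2 h1 |Q|^2/(u a) -> 0` (`h1_zero`). So `LL -> FF`.
* `pw`: `LL` is antitone on `(0,∞)` with limit `0` at infinity, so `LL >= 0`, and `FF = lim_{s -> 0+} LL >= 0`.
-/

open MeasureTheory Filter Topology Set
open scoped ContDiff ComplexConjugate

namespace H17S

variable {M : Mo} {p : Pa}

theorem w15_t0 {f : ℝ → ℂ} {C : ℝ} {k : ℕ} (h : ∀ s, 1 ≤ s → ‖f s‖ ≤ C / s ^ (k + 1)) : Tendsto f atTop (𝓝 0) := by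
  have h1 : Tendsto (fun s : ℝ => C / s ^ (k + 1)) atTop (𝓝 0) :=
    tendsto_const_nhds.div_atTop (tendsto_pow_atTop (Nat.succ_ne_zero k))
  refine squeeze_zero_norm' ?_ h1
  filter_upwards [eventually_ge_atTop 1] with s hs
  exact h s hs

theorem w15_t1 {f : ℝ → ℂ} {C : ℝ} (h : ∀ s, 1 ≤ s → ‖f s‖ ≤ C / s ^ 2) :
    Tendsto (fun s : ℝ => (s : ℂ) * f s) atTop (𝓝 0) := by
  refine w15_t0 (C := C) (k := 0) fun s hs => ?_
  have hs0 : 0 < s := by linarith
  rw [norm_mul, Complex.norm_real, Real.norm_eq_abs, abs_of_pos hs0]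
  calc s * ‖f s‖ ≤ s * (C / s ^ 2) := mul_le_mul_of_nonneg_left (h s hs) hs0.le
    _ = C / s ^ (0 + 1) := by field_simp; ring

theorem Q_lim (h : M.Ok) (hp : p.Ok) : Tendsto (Qv M p) atTop (𝓝 0) := by
  obtain ⟨C1, h1⟩ := uA_as h hp
  obtain ⟨C2, h2⟩ := uB_as h hp
  obtain ⟨C3, h3⟩ := h.EE_as
  obtain ⟨C4, h4⟩ := hp.bdd
  obtain ⟨c, hc⟩ : ∃ c : ℝ → ℂ, c = fun s : ℝ => 2 / (M.ν : ℂ) * (1 - conj (Mc M.P M.N) / (s : ℂ)) := ⟨_, rfl⟩
  have hcl : Tendsto c atTop (𝓝 (2 / (M.ν : ℂ) * (1 - 0))) := by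
    rw [hc]
    refine Tendsto.mul tendsto_const_nhds (Tendsto.sub tendsto_const_nhds ?_)
    refine w15_t0 (C := ‖conj (Mc M.P M.N)‖) (k := 0) fun s hs => ?_
    rw [norm_div, Complex.norm_real, Real.norm_eq_abs, abs_of_pos (by linarith), pow_one]
  have hcc : ∀ s : ℝ, conj (2 / (M.ν : ℂ) * (1 - Mc M.P M.N / (s : ℂ))) = c s := by
    intro s
    rw [hc]
    simp only [map_mul, map_div₀, map_sub, map_one, Complex.conj_ofReal, map_ofNat]
  -- first error
  have t1 : ∀ s, 1 ≤ s → ‖uA M p s - c s‖ ≤ C1 / s ^ 2 := fun s hs => by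
    rw [hc]
    exact h1 s hs
  have t2 : ∀ s, 1 ≤ s → ‖conj (M.EE s) - c s‖ ≤ C3 / s ^ 2 := fun s hs => by
    rw [← hcc, ← map_sub, RCLike.norm_conj]
    exact h3 s hs
  have a1 : Tendsto (fun s => uA M p s - c s) atTop (𝓝 0) := w15_t0 (k := 1) t1
  have a2 : Tendsto (fun s : ℝ => (s : ℂ) * (uA M p s - c s)) atTop (𝓝 0) := w15_t1 t1
  have b1 : Tendsto (fun s => conj (M.EE s) - c s) atTop (𝓝 0) := w15_t0 (k := 1) t2
  have b2 : Tendsto (fun s : ℝ => (s : ℂ) * (conj (M.EE s) - c s)) atTop (𝓝 0) := w15_t1 t2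
  have d1 : Tendsto (fun s : ℝ => conj (p.A s - (s : ℂ))) atTop (𝓝 (p.bN : ℂ)) := by
    have := (Complex.continuous_conj.tendsto (p.bN : ℂ)).comp hp.A_lim
    rw [Complex.conj_ofReal] at this
    exact this
  have d2 : Tendsto (fun s : ℝ => ((p.u s * p.a s / 2 - s : ℝ) : ℂ)) atTop (𝓝 (p.bN : ℂ)) :=
    (Complex.continuous_ofReal.tendsto p.bN).comp hp.ua_lim
  have d3 : Tendsto (fun s => conj (p.B s) * uB M p s) atTop (𝓝 0) := by
    refine w15_t0 (C := C4 * C2) (k := 1) fun s hs => ?_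
    rw [norm_mul, RCLike.norm_conj, mul_div_assoc]
    have h5 := (h4 s (by linarith)).2
    exact mul_le_mul h5 (h2 s hs) (norm_nonneg _) ((norm_nonneg _).trans h5)
  have e : Qv M p = fun s : ℝ => c s * (conj (p.A s - (s : ℂ)) - ((p.u s * p.a s / 2 - s : ℝ) : ℂ)) +
      ((s : ℂ) * (uA M p s - c s) + conj (p.A s - (s : ℂ)) * (uA M p s - c s)) -
      ((s : ℂ) * (conj (M.EE s) - c s) + ((p.u s * p.a s / 2 - s : ℝ) : ℂ) * (conj (M.EE s) - c s)) -
      conj (p.B s) * uB M p s := by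
    funext s
    unfold Qv
    rw [map_sub, Complex.conj_ofReal]
    push_cast
    ring
  rw [e]
  have key := (((hcl.mul (d1.sub d2)).add (a2.add (d1.mul a1))).sub (b2.add (d2.mul b1))).sub d3
  have hz : 2 / (M.ν : ℂ) * (1 - 0) * ((p.bN : ℂ) - (p.bN : ℂ)) + (0 + (p.bN : ℂ) * 0) - (0 + (p.bN : ℂ) * 0) - 0 = 0 := by
    ring
  rw [hz] at key
  exact key

theorem w15_gam (h : M.Ok) (hp : p.Ok) {s : ℝ} (hs : 0 < s) :
    0 ≤ Gam M p s * (‖Qv M p s‖ ^ 2 / p.a s) ∧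
      Gam M p s * (‖Qv M p s‖ ^ 2 / p.a s) ≤ 2 * M.h1 s * (‖Qv M p s‖ ^ 2 / (p.u s * p.a s)) := by
  have ha := hp.a_pos s hs.le
  have hu := hp.u_pos s hs.le
  have h0 : 0 ≤ ‖Qv M p s‖ ^ 2 / p.a s := by positivity
  refine ⟨mul_nonneg (Gam_pos h hp hs).le h0, ?_⟩
  refine (mul_le_mul_of_nonneg_right (Gam_le h hp hs) h0).trans (le_of_eq ?_)
  field_simp

theorem LL_lim (h : M.Ok) (hp : p.Ok) : Tendsto (LL M p) atTop (𝓝 0) := by
  obtain ⟨C, hC⟩ := h.h1_bdd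
  have hQ : Tendsto (fun s => ‖Qv M p s‖ ^ 2) atTop (𝓝 0) := by
    have := ((Q_lim h hp).norm).pow 2
    simpa using this
  have hQ' : Tendsto (fun s => 2 * C * ‖Qv M p s‖ ^ 2) atTop (𝓝 0) := by
    simpa using hQ.const_mul (2 * C)
  have hua : ∀ᶠ s in atTop, 1 ≤ p.u s * p.a s := by
    have h1 := (hp.ua_lim).eventually (Ici_mem_nhds (show p.bN - 1 < p.bN by linarith))
    filter_upwards [h1, eventually_ge_atTop (2 - p.bN), eventually_ge_atTop 1] with s hs1 hs2 _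
    have : p.bN - 1 ≤ p.u s * p.a s / 2 - s := hs1
    linarith
  have hG : Tendsto (fun s => Gam M p s * (‖Qv M p s‖ ^ 2 / p.a s)) atTop (𝓝 0) := by
    refine squeeze_zero' ?_ ?_ hQ'
    · filter_upwards [eventually_gt_atTop 0] with s hs
      exact (w15_gam h hp hs).1
    · filter_upwards [eventually_ge_atTop 1, hua] with s hs h1
      have hs0 : 0 < s := by linarith
      refine (w15_gam h hp hs0).2.trans ?_
      have h2 : ‖Qv M p s‖ ^ 2 / (p.u s * p.a s) ≤ ‖Qv M p s‖ ^ 2 := div_le_self (by positivity) h1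
      have h3 := hC s hs
      have h4 := (h.h1_pos hs0).le
      have h5 : 0 ≤ ‖Qv M p s‖ ^ 2 := by positivity
      calc 2 * M.h1 s * (‖Qv M p s‖ ^ 2 / (p.u s * p.a s)) ≤ 2 * M.h1 s * ‖Qv M p s‖ ^ 2 :=
            mul_le_mul_of_nonneg_left h2 (by linarith)
        _ ≤ 2 * C * ‖Qv M p s‖ ^ 2 := mul_le_mul_of_nonneg_right (by linarith) h5
  have := (L0_lim h hp).sub hG
  rw [sub_zero] at this
  exact this

/-! ### Continuity at 0 -/

theorem w15_q (h : M.Ok) : ContinuousOn M.q (Ici 0) := by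
  have := h.r_cont
  unfold Mo.q qq
  fun_prop

theorem w15_f (h : M.Ok) : ContinuousOn M.f (Ici 0) := by
  have h1 := h.r_cont
  have h2 := w15_q h
  have h3 : ∀ s ∈ Ici (0 : ℝ), qq M.N (M.r s) ^ 2 ≠ 0 := fun s hs => pow_ne_zero _ (h.q_pos hs).ne'
  have h4 : ContinuousOn (fun s => qq M.N (M.r s)) (Ici 0) := h2
  unfold Mo.f ff
  exact ContinuousOn.div (by fun_prop) (by fun_prop) h3

theorem w15_f1 (h : M.Ok) : ContinuousOn M.f1 (Ici 0) := by
  have h1 := h.r_cont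
  have h2 := w15_q h
  have h3 : ∀ s ∈ Ici (0 : ℝ), qq M.N (M.r s) ^ 3 ≠ 0 := fun s hs => pow_ne_zero _ (h.q_pos hs).ne'
  have h4 : ContinuousOn (fun s => qq M.N (M.r s)) (Ici 0) := h2
  unfold Mo.f1 ff1
  exact ContinuousOn.div (by fun_prop) (by fun_prop) h3

theorem w15_G (h : M.Ok) : ContinuousOn M.G (Ici 0) := by
  have h1 : ContinuousOn (fun s => ff M.P M.N (M.r s)) (Ici 0) := w15_f h
  unfold Mo.G GG
  fun_prop

theorem w15_g (h : M.Ok) : ContinuousOn M.g (Ici 0) := by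
  have h1 := w15_G h
  unfold Mo.g
  exact h1.sqrt

theorem w15_cρ (h : M.Ok) : ContinuousOn (fun s => conj (M.ρ s)) (Ici 0) := by
  have h1 := h.r_cont
  have h2 : ContinuousOn M.ρ (Ici 0) := by
    unfold Mo.ρ rho
    exact (Complex.continuous_ofReal.comp_continuousOn h1).add continuousOn_const
  exact Complex.continuous_conj.comp_continuousOn h2

theorem w15_of {f : ℝ → ℝ} (hf : ContinuousOn f (Ici 0)) : ContinuousOn (fun s => (f s : ℂ)) (Ici 0) :=
  Complex.continuous_ofReal.comp_continuousOn hf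

theorem w15_co {f : ℝ → ℂ} (hf : ContinuousOn f (Ici 0)) : ContinuousOn (fun s => conj (f s)) (Ici 0) :=
  Complex.continuous_conj.comp_continuousOn hf

theorem w15_t (h : M.Ok) : ContinuousOn M.t (Ici 0) := by
  have h1 := w15_of (w15_G h)
  have h2 := w15_cρ h
  have h3 := w15_of (w15_f1 h)
  unfold Mo.t
  exact h1.sub ((continuousOn_const.mul h2).mul h3)

theorem w15_gne (h : M.Ok) : ∀ s ∈ Ici (0 : ℝ), (M.g s : ℂ) ≠ 0 := fun s hs => by
  have := (h.g_pos hs).ne'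
  exact_mod_cast this

theorem w15_E1 (h : M.Ok) : ContinuousOn M.E1 (Ici 0) := by
  have h1 := w15_of (w15_f h)
  have h2 := w15_cρ h
  have h3 := w15_of (w15_g h)
  have h4 := w15_of h.K_cont
  have h5 := w15_t h
  unfold Mo.E1
  exact continuousOn_const.mul (((h1.div h3 (w15_gne h)).mul h2).add (h4.mul h5))

theorem w15_kt (h : M.Ok) : ContinuousOn M.kt (Ici 0) := by
  have h4 := h.K_cont
  unfold Mo.kt
  exact continuousOn_const.sub (h4.div_const _)

theorem w15_EE (h : M.Ok) : ContinuousOn M.EE (Ici 0) := by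
  unfold Mo.EE
  exact ((w15_cρ h).mul (w15_of (w15_g h))).mul (w15_of (w15_kt h))

theorem w15_EE1 (h : M.Ok) : ContinuousOn M.EE1 (Ici 0) := by
  have h1 := w15_of (w15_f h)
  have h2 := w15_cρ h
  have h3 := w15_of (w15_g h)
  have hK : (M.Ki : ℂ) ≠ 0 := by
    have := h.Ki_pos.ne'
    exact_mod_cast this
  unfold Mo.EE1
  exact ((w15_t h).mul (w15_of (w15_kt h))).sub
    ((h1.div (h3.mul continuousOn_const) fun s hs => mul_ne_zero (w15_gne h s hs) hK).mul h2)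

theorem w15_h (h : M.Ok) : ContinuousOn M.h (Ici 0) := by
  unfold Mo.h
  exact (continuousOn_const.mul h.K_cont).div (w15_kt h) fun s hs => (h.kt_pos hs).ne'

theorem w15_mh (h : M.Ok) : ContinuousOn M.mh (Ici 0) := by
  unfold Mo.mh
  exact (w15_f h).mul (w15_q h)

theorem w15_z1 (h : M.Ok) : ContinuousOn M.z1 (Ici 0) := by
  have h1 := h.r_cont
  have h2 := w15_f h
  have h3 := w15_q h
  have h4 := w15_f1 h
  have h5 := h.K_cont
  unfold Mo.z1
  refine ((((continuousOn_const.mul h1).mul h2).add (h3.mul h4)).div (w15_g h) fun s hs => (h.g_pos hs).ne').add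
    ((continuousOn_const.mul h5).mul (continuousOn_const.sub (continuousOn_const.div (h3.pow 3)
      fun s hs => pow_ne_zero _ (h.q_pos hs).ne')))

theorem w15_uA (h : M.Ok) (hp : p.Ok) : ContinuousOn (uA M p) (Ici 0) := by
  unfold uA
  exact ((continuousOn_const.mul (vv_cont h hp)).add ((cA_cont h hp).div_const _)).add
    ((w15_co (w15_EE1 h)).mul hp.cA)

theorem w15_uB (h : M.Ok) (hp : p.Ok) : ContinuousOn (uB M p) (Ici 0) := by
  unfold uB
  exact ((continuousOn_const.mul (w15_co (vv_cont h hp))).add ((cB_cont h hp).div_const _)).add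
    ((w15_co (w15_EE1 h)).mul hp.cB)

theorem w15_wA (h : M.Ok) (hp : p.Ok) : ContinuousOn (wA M p) (Ici 0) := by
  unfold wA
  exact (cA_cont h hp).add ((w15_co (w15_E1 h)).mul hp.cA)

theorem w15_wB (h : M.Ok) (hp : p.Ok) : ContinuousOn (wB M p) (Ici 0) := by
  unfold wB
  exact (cB_cont h hp).add ((w15_co (w15_E1 h)).mul hp.cB)

theorem w15_Q (h : M.Ok) (hp : p.Ok) : ContinuousOn (Qv M p) (Ici 0) := by
  have h1 : ContinuousOn (fun s => p.u s * p.a s / 2) (Ici 0) := (hp.cu.mul hp.a_cont).div_const _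
  unfold Qv
  exact (((w15_co hp.cA).mul (w15_uA h hp)).sub ((w15_co hp.cB).mul (w15_uB h hp))).sub
    ((w15_co (w15_EE h)).mul (w15_of h1))

theorem w15_re {f : ℝ → ℂ} (hf : ContinuousOn f (Ici 0)) : ContinuousOn (fun s => (f s).re) (Ici 0) :=
  Complex.continuous_re.comp_continuousOn hf

theorem w15_L0 (h : M.Ok) (hp : p.Ok) : ContinuousOn (L0 M p) (Ici 0) := by
  have ca := hp.a_cont
  have cu := hp.cu
  have cl := (w7_cont h).1
  have cv := vv_cont h hp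
  have cE := w15_E1 h
  unfold L0
  refine ((((((continuousOn_const.sub (cost_cont h hp)).add ((w15_mh h).mul (cu.mul ca))).sub ((w15_z1 h).mul ca)).add
    (continuousOn_const.mul (w15_re ((((w15_co cv).mul (w15_co cE)).mul hp.cA).add ((cv.mul (w15_co cE)).mul hp.cB))))).add
    (((continuousOn_const.mul ca).mul continuousOn_const).mul (w15_re ((w15_co cl).mul cE)))).add
    (continuousOn_const.mul (((w15_wA h hp).norm.pow 2).sub ((w15_wB h hp).norm.pow 2)))).add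
    ((w15_h h).mul (((w15_uA h hp).norm.pow 2).sub ((w15_uB h hp).norm.pow 2)))

theorem w15_f0 (h : M.Ok) : M.f 0 = 0 := by
  unfold Mo.f
  rw [h.r_zero]
  exact ff_P h.P_pos

theorem w15_g0 (h : M.Ok) : M.g 0 = 1 := by
  have h1 : M.G 0 = 1 := by
    unfold Mo.G GG
    rw [h.r_zero, ff_P h.P_pos]
    ring
  unfold Mo.g
  rw [h1, Real.sqrt_one]

theorem w15_E10 (h : M.Ok) : M.E1 0 = 0 := by
  unfold Mo.E1
  rw [w15_f0 h, h.K_zero]
  simp

theorem w15_z10 (h : M.Ok) : M.z1 0 = 1 / M.P := by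
  have hP := h.P_pos
  have hq : 0 < M.P ^ 2 + M.N ^ 2 := by positivity
  unfold Mo.z1
  rw [w15_f0 h, w15_g0 h, h.K_zero]
  unfold Mo.q Mo.f1 ff1 qq mm
  rw [h.r_zero]
  field_simp
  ring

theorem w15_L00 (h : M.Ok) : L0 M p 0 = FF M p := by
  unfold L0 FF wA wB
  have e1 : M.mh 0 = 0 := by
    unfold Mo.mh
    rw [w15_f0 h, zero_mul]
  have e2 : M.h 0 = 0 := by
    unfold Mo.h
    rw [h.K_zero]
    simp
  rw [e1, e2, w15_E10 h, w15_z10 h]
  simp only [map_zero, mul_zero, zero_mul, add_zero, Complex.zero_re]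
  have hP := h.P_pos.ne'
  field_simp
  ring

theorem LL_zero (h : M.Ok) (hp : p.Ok) : Tendsto (LL M p) (𝓝[>] 0) (𝓝 (FF M p)) := by
  have h0 : Tendsto (L0 M p) (𝓝[>] 0) (𝓝 (FF M p)) := by
    rw [← w15_L00 h]
    exact ((w15_L0 h hp) 0 (mem_Ici.2 le_rfl)).mono_left (nhdsWithin_mono _ Ioi_subset_Ici_self)
  have h1 : ContinuousOn (fun s => ‖Qv M p s‖ ^ 2 / (p.u s * p.a s)) (Ici 0) :=
    ((w15_Q h hp).norm.pow 2).div (hp.cu.mul hp.a_cont) fun s hs =>
      (mul_pos (hp.u_pos s hs) (hp.a_pos s hs)).ne'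
  have h2 : Tendsto (fun s => ‖Qv M p s‖ ^ 2 / (p.u s * p.a s)) (𝓝[>] 0)
      (𝓝 (‖Qv M p 0‖ ^ 2 / (p.u 0 * p.a 0))) :=
    (h1 0 (mem_Ici.2 le_rfl)).mono_left (nhdsWithin_mono _ Ioi_subset_Ici_self)
  have h3 : Tendsto (fun s => 2 * M.h1 s * (‖Qv M p s‖ ^ 2 / (p.u s * p.a s))) (𝓝[>] 0) (𝓝 0) := by
    have := (h.h1_zero.const_mul 2).mul h2
    simpa using this
  have h4 : Tendsto (fun s => Gam M p s * (‖Qv M p s‖ ^ 2 / p.a s)) (𝓝[>] 0) (𝓝 0) := by
    refine squeeze_zero' ?_ ?_ h3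
    · filter_upwards [self_mem_nhdsWithin] with s hs
      exact (w15_gam h hp hs).1
    · filter_upwards [self_mem_nhdsWithin] with s hs
      exact (w15_gam h hp hs).2
  have := h0.sub h4
  rw [sub_zero] at this
  exact this

/-- The pointwise theorem. -/
theorem pw (h : M.Ok) (hp : p.Ok) : 0 ≤ FF M p := by
  have h1 : ∀ s, 0 < s → 0 ≤ LL M p s := by
    intro s hs
    refine le_of_tendsto (LL_lim h hp) ?_
    filter_upwards [eventually_ge_atTop s] with t ht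
    exact LL_anti h hp (mem_Ioi.2 hs) (mem_Ioi.2 (lt_of_lt_of_le hs ht)) ht
  refine ge_of_tendsto (LL_zero h hp) ?_
  filter_upwards [self_mem_nhdsWithin] with s hs
  exact h1 s hs

end H17S
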