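import Pool.Agent.Lib.H17S.W1

set_option autoImplicit false

/-!
Chunk W2 (M). Elementary facts about the model. `r` is increasing (`r' = g > 0`), so `r > P` for `s > 0`; `K' = f/G > 0`, so `0 < K < Ki` for `s > 0` (`K` is strictly increasing on `[0,∞)` with limit `Ki`),
`kt > 0`. `G' = - X f' r'`, `g' = (sqrt G)' = - X f'/2`. `0 < c <= G <= 1` since `X >= 0`, `f >= 0`. `P + c' s <= r <= P + s` with `c' = sqrt c`; in particular `r -> ∞`.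
-/

open MeasureTheory Filter Topology Set
open scoped ContDiff ComplexConjugate

namespace H17S

variable {M : Mo}

theorem Mo.Ok.w2_g_nonneg (M : Mo) (s : ℝ) : 0 ≤ M.g s := Real.sqrt_nonneg _

theorem Mo.Ok.r_d (h : M.Ok) {s : ℝ} (hs : 0 < s) : HasDerivAt M.r (M.g s) s := h.r_der s hs

theorem Mo.Ok.K_d (h : M.Ok) {s : ℝ} (hs : 0 < s) : HasDerivAt M.K (M.f s / M.G s) s := h.K_der s hs

theorem w2_mono {φ ψ : ℝ → ℝ} (hc : ContinuousOn φ (Ici 0)) (hd : ∀ s, 0 < s → HasDerivAt φ (ψ s) s)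
    (hn : ∀ s, 0 < s → 0 ≤ ψ s) : MonotoneOn φ (Ici 0) := by
  apply monotoneOn_of_deriv_nonneg (convex_Ici 0) hc
  · intro x hx
    rw [interior_Ici] at hx
    exact (hd x hx).differentiableAt.differentiableWithinAt
  · intro x hx
    rw [interior_Ici] at hx
    rw [(hd x hx).deriv]
    exact hn x hx

theorem w2_strict {φ ψ : ℝ → ℝ} (hc : ContinuousOn φ (Ici 0)) (hd : ∀ s, 0 < s → HasDerivAt φ (ψ s) s)
    (hn : ∀ s, 0 < s → 0 < ψ s) : StrictMonoOn φ (Ici 0) := by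
  apply strictMonoOn_of_deriv_pos (convex_Ici 0) hc
  intro x hx
  rw [interior_Ici] at hx
  rw [(hd x hx).deriv]
  exact hn x hx

theorem Mo.Ok.r_mono (h : M.Ok) : MonotoneOn M.r (Ici 0) :=
  w2_mono h.r_cont (fun s hs => h.r_d hs) (fun s _ => Mo.Ok.w2_g_nonneg M s)

theorem Mo.Ok.r_ge (h : M.Ok) {s : ℝ} (hs : 0 ≤ s) : M.P ≤ M.r s := by
  rw [← h.r_zero]
  exact h.r_mono (mem_Ici.2 le_rfl) hs hs

theorem Mo.Ok.r_pos (h : M.Ok) {s : ℝ} (hs : 0 ≤ s) : 0 < M.r s := h.P_pos.trans_le (h.r_ge hs)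

theorem Mo.Ok.G_lower (h : M.Ok) : ∃ c, 0 < c ∧ ∀ s, 0 ≤ s → c ≤ M.G s := by
  obtain ⟨c, hc, hG⟩ := h.G_pos
  exact ⟨c, hc, fun s hs => hG _ (h.r_ge hs)⟩

theorem Mo.Ok.G_pos' (h : M.Ok) {s : ℝ} (hs : 0 ≤ s) : 0 < M.G s := by
  obtain ⟨c, hc, hG⟩ := h.G_lower
  exact hc.trans_le (hG s hs)

theorem Mo.Ok.g_pos (h : M.Ok) {s : ℝ} (hs : 0 ≤ s) : 0 < M.g s := Real.sqrt_pos.2 (h.G_pos' hs)

theorem Mo.Ok.w2_r_strict (h : M.Ok) : StrictMonoOn M.r (Ici 0) :=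
  w2_strict h.r_cont (fun s hs => h.r_d hs) (fun s hs => h.g_pos hs.le)

theorem Mo.Ok.r_gt (h : M.Ok) {s : ℝ} (hs : 0 < s) : M.P < M.r s := by
  rw [← h.r_zero]
  exact h.w2_r_strict (mem_Ici.2 le_rfl) hs.le hs

theorem Mo.Ok.q_pos (h : M.Ok) {s : ℝ} (hs : 0 ≤ s) : 0 < M.q s := qq_pos (h.r_pos hs)

theorem Mo.Ok.f_nonneg (h : M.Ok) {s : ℝ} (hs : 0 ≤ s) : 0 ≤ M.f s := ff_nonneg h.P_pos (h.r_ge hs)

theorem Mo.Ok.f_pos (h : M.Ok) {s : ℝ} (hs : 0 < s) : 0 < M.f s := ff_pos h.P_pos (h.r_gt hs)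

theorem Mo.Ok.G_le (h : M.Ok) {s : ℝ} (hs : 0 ≤ s) : M.G s ≤ 1 := by
  have h1 := mul_nonneg h.X_nonneg (h.f_nonneg hs)
  change 1 - M.X * M.f s ≤ 1
  linarith

theorem Mo.Ok.g_lower (h : M.Ok) : ∃ c, 0 < c ∧ ∀ s, 0 ≤ s → c ≤ M.g s := by
  obtain ⟨c, hc, hG⟩ := h.G_lower
  exact ⟨Real.sqrt c, Real.sqrt_pos.2 hc, fun s hs => Real.sqrt_le_sqrt (hG s hs)⟩

theorem Mo.Ok.g_le (h : M.Ok) {s : ℝ} (hs : 0 ≤ s) : M.g s ≤ 1 := by
  have h1 := Real.sqrt_le_sqrt (h.G_le hs)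
  rwa [Real.sqrt_one] at h1

theorem Mo.Ok.g_sq (h : M.Ok) {s : ℝ} (hs : 0 ≤ s) : M.g s ^ 2 = M.G s := Real.sq_sqrt (h.G_pos' hs).le

theorem Mo.Ok.w2_anti (h : M.Ok) {s t : ℝ} (hs : 0 ≤ s) (hst : s ≤ t) : M.r t - t ≤ M.r s - s := by
  have h1 : MonotoneOn (fun s => s - M.r s) (Ici 0) := by
    refine w2_mono (ψ := fun s => 1 - M.g s) (continuousOn_id.sub h.r_cont) (fun s hs => (hasDerivAt_id s).sub (h.r_d hs)) ?_
    intro s hs
    have := h.g_le hs.le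
    linarith
  have h2 := h1 hs (hs.trans hst) hst
  simp only at h2
  linarith

theorem Mo.Ok.r_le (h : M.Ok) {s : ℝ} (hs : 0 ≤ s) : M.r s ≤ M.P + s := by
  have h1 := h.w2_anti le_rfl hs
  rw [h.r_zero] at h1
  linarith

theorem Mo.Ok.r_lower (h : M.Ok) : ∃ c, 0 < c ∧ ∀ s, 0 ≤ s → c * (1 + s) ≤ M.r s := by
  obtain ⟨c, hc, hg⟩ := h.g_lower
  refine ⟨min c M.P, lt_min hc h.P_pos, fun s hs => ?_⟩
  have h1 : MonotoneOn (fun s => M.r s - c * s) (Ici 0) := by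
    refine w2_mono (ψ := fun s => M.g s - c * 1) (h.r_cont.sub (continuousOn_const.mul continuousOn_id))
      (fun s hs => (h.r_d hs).sub ((hasDerivAt_id s).const_mul c)) ?_
    intro s hs
    have := hg s hs.le
    linarith
  have h2 := h1 (mem_Ici.2 le_rfl) hs hs
  simp only at h2
  rw [h.r_zero] at h2
  have h3 := min_le_left c M.P
  have h4 := min_le_right c M.P
  have h5 := mul_le_mul_of_nonneg_right h3 hs
  linarith

/-- From the limit: `|r - s| <= C`. -/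
theorem Mo.Ok.r_sub (h : M.Ok) : ∃ C, ∀ s, 0 ≤ s → |M.r s - s| ≤ C := by
  refine ⟨|M.P| + |M.β|, fun s hs => ?_⟩
  have h1 : M.β ≤ M.r s - s := by
    apply le_of_tendsto h.r_lim
    filter_upwards [eventually_ge_atTop s] with t ht
    exact h.w2_anti hs ht
  have h2 := h.r_le hs
  rw [abs_le]
  constructor
  · have := neg_abs_le M.β
    have := abs_nonneg M.P
    linarith
  · have := le_abs_self M.P
    have := abs_nonneg M.β
    linarith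

theorem Mo.Ok.r_atTop (h : M.Ok) : Tendsto M.r atTop atTop := by
  have h1 := h.r_lim.add_atTop tendsto_id
  refine h1.congr fun s => ?_
  simp

theorem Mo.Ok.f_d (h : M.Ok) {s : ℝ} (hs : 0 < s) : HasDerivAt M.f (M.f1 s * M.g s) s :=
  (ff_der (h.r_pos hs.le)).comp s (h.r_d hs)

theorem Mo.Ok.f1_d (h : M.Ok) {s : ℝ} (hs : 0 < s) : HasDerivAt M.f1 (M.f2 s * M.g s) s :=
  (ff1_der (h.r_pos hs.le)).comp s (h.r_d hs)

theorem Mo.Ok.q_d (h : M.Ok) {s : ℝ} (hs : 0 < s) : HasDerivAt M.q (2 * M.r s * M.g s) s := by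
  have h1 := ((h.r_d hs).pow 2).add_const (M.N ^ 2)
  have h2 : ((2 : ℕ) : ℝ) * M.r s ^ (2 - 1) * M.g s = 2 * M.r s * M.g s := by norm_num
  rw [h2] at h1
  exact h1

theorem Mo.Ok.G_d (h : M.Ok) {s : ℝ} (hs : 0 < s) : HasDerivAt M.G (- M.X * M.f1 s * M.g s) s := by
  have h1 := ((h.f_d hs).const_mul M.X).const_sub 1
  have h2 : - (M.X * (M.f1 s * M.g s)) = - M.X * M.f1 s * M.g s := by ring
  rw [h2] at h1
  exact h1

theorem Mo.Ok.g_d (h : M.Ok) {s : ℝ} (hs : 0 < s) : HasDerivAt M.g (- M.X * M.f1 s / 2) s := by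
  have h1 := (h.G_d hs).sqrt (h.G_pos' hs.le).ne'
  have hg := (h.g_pos hs.le).ne'
  have h2 : - M.X * M.f1 s * M.g s / (2 * Real.sqrt (M.G s)) = - M.X * M.f1 s / 2 := by
    change - M.X * M.f1 s * M.g s / (2 * M.g s) = - M.X * M.f1 s / 2
    field_simp
  rw [h2] at h1
  exact h1

theorem Mo.Ok.ρ_d (h : M.Ok) {s : ℝ} (hs : 0 < s) : HasDerivAt M.ρ (M.g s : ℂ) s :=
  ((h.r_d hs).ofReal_comp).add_const ((M.N : ℂ) * Complex.I)

theorem Mo.Ok.cρ_d (h : M.Ok) {s : ℝ} (hs : 0 < s) : HasDerivAt (fun s => conj (M.ρ s)) (M.g s : ℂ) s := by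
  have h1 := ((h.r_d hs).ofReal_comp).sub_const ((M.N : ℂ) * Complex.I)
  have h2 : (fun s => conj (M.ρ s)) = fun s => (M.r s : ℂ) - (M.N : ℂ) * Complex.I := by
    funext s
    simp only [Mo.ρ, rho, map_add, map_mul, Complex.conj_ofReal, Complex.conj_I]
    ring
  rw [h2]
  exact h1

theorem Mo.Ok.lam_d (h : M.Ok) {s : ℝ} (hs : 0 < s) : HasDerivAt M.lam (M.lam1 s) s := by
  have hne : M.ρ s ≠ 0 := rho_ne (h.r_pos hs.le)
  have h1 := (hasDerivAt_const s (- Mc M.P M.N)).div ((h.ρ_d hs).pow 3) (pow_ne_zero 3 hne)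
  refine h1.congr_deriv ?_
  simp only [Mo.lam1, lamr1]
  change _ = 3 * Mc M.P M.N / M.ρ s ^ 4 * (M.g s : ℂ)
  rw [Pi.pow_apply]
  field_simp
  ring

theorem Mo.Ok.w2_K_strict (h : M.Ok) : StrictMonoOn M.K (Ici 0) :=
  w2_strict h.K_cont (fun s hs => h.K_d hs) (fun s hs => div_pos (h.f_pos hs) (h.G_pos' hs.le))

theorem Mo.Ok.K_nonneg (h : M.Ok) {s : ℝ} (hs : 0 ≤ s) : 0 ≤ M.K s := by
  rw [← h.K_zero]
  exact h.w2_K_strict.monotoneOn (mem_Ici.2 le_rfl) hs hs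

theorem Mo.Ok.K_lt (h : M.Ok) {s : ℝ} (hs : 0 ≤ s) : M.K s < M.Ki := by
  have h1 : M.K s < M.K (s + 1) := h.w2_K_strict hs (by simp only [mem_Ici]; linarith) (by linarith)
  refine h1.trans_le ?_
  apply ge_of_tendsto h.K_lim
  filter_upwards [eventually_ge_atTop (s + 1)] with t ht
  exact h.w2_K_strict.monotoneOn (by simp only [mem_Ici]; linarith) (by simp only [mem_Ici]; linarith) ht

theorem Mo.Ok.Ki_pos (h : M.Ok) : 0 < M.Ki := by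
  have h1 := h.K_lt le_rfl
  rwa [h.K_zero] at h1

theorem Mo.Ok.ν_pos (h : M.Ok) : 0 < M.ν := mul_pos two_pos h.Ki_pos

theorem Mo.Ok.kt_pos (h : M.Ok) {s : ℝ} (hs : 0 ≤ s) : 0 < M.kt s := by
  have h1 : M.K s / M.Ki < 1 := (div_lt_one h.Ki_pos).2 (h.K_lt hs)
  change 0 < 1 - M.K s / M.Ki
  linarith

theorem Mo.Ok.kt_le (h : M.Ok) {s : ℝ} (hs : 0 ≤ s) : M.kt s ≤ 1 := by
  have h1 : 0 ≤ M.K s / M.Ki := div_nonneg (h.K_nonneg hs) h.Ki_pos.le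
  change 1 - M.K s / M.Ki ≤ 1
  linarith

theorem Mo.Ok.kt_d (h : M.Ok) {s : ℝ} (hs : 0 < s) : HasDerivAt M.kt (- (M.f s / (M.G s * M.Ki))) s := by
  have h1 := ((h.K_d hs).div_const M.Ki).const_sub 1
  rw [div_div] at h1
  exact h1

end H17S
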