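import Pool.Agent.Lib.H17S.W2

set_option autoImplicit false

/-!
Chunk W3 (M). Identities (I1) of PROOF.md, section 2. Everything by the product rule and W1, W2 (derivatives with respect to `s`, `r' = g`, `g' = - X f'/2`, `g^2 = G = 1 - X f`).
* `t_d`: `(G - X conj ρ f'/2)' = g (- X f' - X f'/2 - X conj ρ f''/2) = -(X/2) g (3 f' + conj ρ f'') = 3 X M g / ρ^4 = X lam1` (M2).
* `E_d`: `(-2 K conj ρ g)' = -2 (f/G conj ρ g + K (conj ρ g)')`, `(conj ρ g)' = G - X conj ρ f'/2 = t`, `g/G = 1/g`.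
* `E1_d`: `(f/g)' = f' + X f f'/(2 G)` ; `(f/g conj ρ)' + (f/G) t = conj ρ f' + 2 f = 2 M/ρ^3` (M1; the terms: `conj ρ f' + X f f' conj ρ/(2G) + f + (f/G)(G - X conj ρ f'/2)`),
  `(K t)' = (f/G) t + K X lam1`. So `E1' = -2 (2 M/ρ^3 + K X lam1)  = 4 lam + 4 X lamX = 4 ac` since `lamX = - K lam1 / 2`.
* `EE = conj ρ g + E/ν`, `EE1 = t + E1/ν` (algebra, `ν = 2 Ki`), so `EE_d`, `EE1_d` follow.
-/

open MeasureTheory Filter Topology Set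
open scoped ContDiff ComplexConjugate

namespace H17S

variable {M : Mo}

theorem Mo.Ok.w3_gne (h : M.Ok) {s : ℝ} (hs : 0 ≤ s) : (M.g s : ℂ) ≠ 0 :=
  Complex.ofReal_ne_zero.2 (h.g_pos hs).ne'

theorem Mo.Ok.w3_gsq (h : M.Ok) {s : ℝ} (hs : 0 ≤ s) : (M.g s : ℂ) ^ 2 = (M.G s : ℂ) := by
  rw [← Complex.ofReal_pow, h.g_sq hs]

theorem Mo.Ok.w3_ρne (h : M.Ok) {s : ℝ} (hs : 0 ≤ s) : M.ρ s ≠ 0 := rho_ne (h.r_pos hs)

theorem Mo.Ok.w3_Kine (h : M.Ok) : (M.Ki : ℂ) ≠ 0 := Complex.ofReal_ne_zero.2 h.Ki_pos.ne'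

theorem Mo.Ok.cρg_d (h : M.Ok) {s : ℝ} (hs : 0 < s) : HasDerivAt (fun s => conj (M.ρ s) * (M.g s : ℂ)) (M.t s) s := by
  have h1 := (h.cρ_d hs).mul (h.g_d hs).ofReal_comp
  refine h1.congr_deriv ?_
  have h2 := h.w3_gsq hs.le
  unfold Mo.t
  push_cast
  linear_combination h2

theorem Mo.Ok.t_d (h : M.Ok) {s : ℝ} (hs : 0 < s) : HasDerivAt M.t ((M.X : ℂ) * M.lam1 s) s := by
  have h1 := (h.G_d hs).ofReal_comp.sub
    (((h.cρ_d hs).const_mul ((M.X : ℂ) / 2)).mul (h.f1_d hs).ofReal_comp)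
  refine h1.congr_deriv ?_
  have h2 := M2 (P := M.P) (N := M.N) (h.r_pos hs.le)
  have h3 : 3 * (M.f1 s : ℂ) + conj (M.ρ s) * (M.f2 s : ℂ) = -6 * Mc M.P M.N / M.ρ s ^ 4 := h2
  have h4 : M.lam1 s = 3 * Mc M.P M.N / M.ρ s ^ 4 * (M.g s : ℂ) := rfl
  rw [h4]
  push_cast
  linear_combination (-(M.X : ℂ) / 2 * (M.g s : ℂ)) * h3

theorem Mo.Ok.E_d (h : M.Ok) {s : ℝ} (hs : 0 < s) : HasDerivAt M.E (M.E1 s) s := by
  have h1 := ((h.K_d hs).ofReal_comp.const_mul (-2 : ℂ)).mul (h.cρg_d hs)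
  have h0 : M.E = fun s => -2 * (M.K s : ℂ) * (conj (M.ρ s) * (M.g s : ℂ)) := by
    funext s
    unfold Mo.E
    ring
  rw [h0]
  refine h1.congr_deriv ?_
  have h2 := h.w3_gsq hs.le
  have h3 := h.w3_gne hs.le
  unfold Mo.E1
  push_cast
  rw [← h2]
  field_simp
  ring

theorem Mo.lamX_eq (M : Mo) (s : ℝ) : M.lamX s = - (1 / 2) * (M.K s : ℂ) * M.lam1 s := by
  unfold Mo.lamX Mo.lam1
  ring

theorem Mo.Ok.E1_d (h : M.Ok) {s : ℝ} (hs : 0 < s) : HasDerivAt M.E1 (4 * M.ac s) s := by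
  have hg := h.w3_gne hs.le
  have h1 := ((((h.f_d hs).ofReal_comp.div (h.g_d hs).ofReal_comp hg).mul (h.cρ_d hs)).add
    ((h.K_d hs).ofReal_comp.mul (h.t_d hs))).const_mul (-2 : ℂ)
  refine h1.congr_deriv ?_
  have h2 := h.w3_gsq hs.le
  have h3 : 2 * (M.f s : ℂ) + conj (M.ρ s) * (M.f1 s : ℂ) = 2 * Mc M.P M.N / M.ρ s ^ 3 :=
    M1 (P := M.P) (N := M.N) (h.r_pos hs.le)
  have h4 : M.lam s = - Mc M.P M.N / M.ρ s ^ 3 := rfl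
  have h5 : M.t s = (M.g s : ℂ) ^ 2 - (M.X : ℂ) / 2 * conj (M.ρ s) * (M.f1 s : ℂ) := by
    rw [h2]
    rfl
  unfold Mo.ac
  rw [M.lamX_eq, h4, h5, Pi.div_apply]
  push_cast
  rw [← h2]
  have h6 : (((M.f1 s : ℂ) * (M.g s : ℂ) * (M.g s : ℂ) - (M.f s : ℂ) * (-(M.X : ℂ) * (M.f1 s : ℂ) / 2)) / (M.g s : ℂ) ^ 2 *
        conj (M.ρ s) + (M.f s : ℂ) / (M.g s : ℂ) * (M.g s : ℂ)) +
      (M.f s : ℂ) / (M.g s : ℂ) ^ 2 * ((M.g s : ℂ) ^ 2 - (M.X : ℂ) / 2 * conj (M.ρ s) * (M.f1 s : ℂ)) =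
      2 * (M.f s : ℂ) + conj (M.ρ s) * (M.f1 s : ℂ) := by
    field_simp
    ring
  linear_combination (-2 : ℂ) * h6 - 2 * h3

theorem Mo.Ok.EE_eq (h : M.Ok) (s : ℝ) : M.EE s = conj (M.ρ s) * (M.g s : ℂ) + M.E s / (M.ν : ℂ) := by
  have h1 := h.w3_Kine
  unfold Mo.EE Mo.E Mo.kt Mo.ν
  push_cast
  field_simp
  ring

theorem Mo.Ok.EE1_eq (h : M.Ok) {s : ℝ} (hs : 0 ≤ s) : M.EE1 s = M.t s + M.E1 s / (M.ν : ℂ) := by
  have h1 := h.w3_Kine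
  have h2 := h.w3_gne hs
  unfold Mo.EE1 Mo.E1 Mo.kt Mo.ν
  push_cast
  field_simp
  ring

theorem Mo.Ok.EE_d (h : M.Ok) {s : ℝ} (hs : 0 < s) : HasDerivAt M.EE (M.EE1 s) s := by
  have h0 : M.EE = fun s => conj (M.ρ s) * (M.g s : ℂ) + M.E s / (M.ν : ℂ) := funext h.EE_eq
  rw [h0, h.EE1_eq hs.le]
  exact (h.cρg_d hs).add ((h.E_d hs).div_const _)

theorem Mo.Ok.EE1_d (h : M.Ok) {s : ℝ} (hs : 0 < s) :
    HasDerivAt M.EE1 ((M.X : ℂ) * M.lam1 s + 4 * M.ac s / (M.ν : ℂ)) s := by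
  have h1 := (h.t_d hs).add ((h.E1_d hs).div_const (M.ν : ℂ))
  refine h1.congr_of_eventuallyEq ?_
  filter_upwards [lt_mem_nhds hs] with x hx
  exact h.EE1_eq hx.le

/-- `σ conj E = - 4 a_a`. -/
theorem Mo.Ok.sigE (h : M.Ok) {s : ℝ} (hs : 0 ≤ s) : M.sig s * conj (M.E s) = -4 * M.aa s := by
  have h1 := h.w3_ρne hs
  have h2 : conj (M.E s) = -2 * (M.K s : ℂ) * M.ρ s * (M.g s : ℂ) := by
    unfold Mo.E
    rw [map_mul, map_mul, map_mul, Complex.conj_conj, Complex.conj_ofReal, Complex.conj_ofReal]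
    congr 3
    rw [map_neg, Complex.conj_ofNat]
  have h3 : M.lam1 s = 3 * Mc M.P M.N / M.ρ s ^ 4 * (M.g s : ℂ) := rfl
  unfold Mo.aa
  rw [M.lamX_eq, h2, h3]
  unfold Mo.sig
  field_simp
  ring

/-- `σ ρ r' = - X λ'`. -/
theorem Mo.Ok.sigρ (h : M.Ok) {s : ℝ} (hs : 0 ≤ s) : M.sig s * (M.ρ s * (M.g s : ℂ)) = - (M.X : ℂ) * M.lam1 s := by
  have h1 := h.w3_ρne hs
  have h3 : M.lam1 s = 3 * Mc M.P M.N / M.ρ s ^ 4 * (M.g s : ℂ) := rfl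
  rw [h3]
  unfold Mo.sig
  field_simp

/-- `σ conj EE = - X λ' - 4 a_a / ν`. -/
theorem Mo.Ok.sigEE (h : M.Ok) {s : ℝ} (hs : 0 ≤ s) :
    M.sig s * conj (M.EE s) = - (M.X : ℂ) * M.lam1 s - 4 * M.aa s / (M.ν : ℂ) := by
  have h2 : conj (M.EE s) = M.ρ s * (M.g s : ℂ) + conj (M.E s) / (M.ν : ℂ) := by
    rw [h.EE_eq, map_add, map_mul, Complex.conj_conj, Complex.conj_ofReal, map_div₀,
      Complex.conj_ofReal]
  rw [h2, mul_add, h.sigρ hs, ← mul_div_assoc, h.sigE hs]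
  ring

/-- `4 a_c = 4 λ - σ conj E`. -/
theorem Mo.Ok.ac_eq (h : M.Ok) {s : ℝ} (hs : 0 ≤ s) : 4 * M.ac s = 4 * M.lam s - M.sig s * conj (M.E s) := by
  rw [h.sigE hs]
  unfold Mo.ac Mo.aa
  ring

/-- `E = - h EE`. -/
theorem Mo.Ok.E_h (h : M.Ok) {s : ℝ} (hs : 0 ≤ s) : M.E s = - (M.h s : ℂ) * M.EE s := by
  have h1 : (M.kt s : ℂ) ≠ 0 := Complex.ofReal_ne_zero.2 (h.kt_pos hs).ne'
  unfold Mo.E Mo.h Mo.EE
  push_cast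
  field_simp

end H17S
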