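import Pool.Agent.Lib.H17S.W3

set_option autoImplicit false

/-!
Chunk W4 (M). Identities (I2), (I3), (I4) of PROOF.md, section 2.
* `h_d`: `(2K/kt)' = 2 K'/kt + 2 K K'/(Ki kt^2) = 2 K'/kt^2` since `kt + K/Ki = 1`; `K' = f/G`.
* `h1_EE`: `|EE|^2 = q G kt^2`.
* `E1_h`: `E1 = - h1 EE - h EE1`: uniqueness of the derivative of `E = - h EE` (`E_h`, `E_d`, `h_d`, `EE_d`), or algebra.
* `I2`: with `Re(t conj E1) = -2 [(f/g) Re(ρ t) + K |t|^2]`, `Re(ρ t) = r G - X q f'/2`, `|t|^2 = G^2 - X G r f' + X^2 q f'^2/4`; `Re(conj lam E1) = 2 [(f/g) Re(conj M/conj ρ^2) + K Re(conj M t/conj ρ^3)]`,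
  `conj M/conj ρ^3 = f + ρ f'/2` (M1), `Re (conj M/conj ρ^2) = r f + q f'/2`, `Re((f + ρ f'/2) t) = f G - X r f f'/2 + r f' G/2 - X q f'^2/4`. The terms without `K` (times `g`):
  `(f' q + 2 r f) G - (4 r f + q f') + 2 f (r G - X q f'/2) + 4 X f (r f + q f'/2) = 0` with `G = 1 - X f`; the terms with `K`:
  `-2 (1 - X^2 mu/q^3) + 2|t|^2 + 4 X (..) = X^2 (2 mu/q^3 - 2 f^2 - 2 r f f' - q f'^2/2) = 0` (M5).
* `z1_d`: `((4 r f + q f')/g)' = (4 f + 6 r f' + q f'') + (4 r f + q f') X f'/(2 G) = -2 f + X (4 r f f' + q f'^2)/(2G)` (M6) `= (2 X mu/q^3 - 2 f)/G` (M5), and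
  `(2 K (1 - X^2 mu/q^3))' = 2 (f/G)(1 - X^2 mu/q^3) + 12 K X^2 mu r g/q^4`; sum `= 2 X mu/q^3 + 12 K X^2 mu r g/q^4`. On the other side `|lam|^2 = mu/q^3`, `sig conj E = - 4 X lamX`,
  `- 2 X Re(conj lam sig conj E) = 8 X^2 Re(conj lam lamX) = 12 X^2 mu K g r/q^4` (`conj lam lamX = (3/2) mu K g/(conj ρ^3 ρ^4) = (3/2) mu K g conj ρ/q^4`).
-/

open MeasureTheory Filter Topology Set
open scoped ContDiff ComplexConjugate

namespace H17S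

variable {M : Mo}

theorem Mo.Ok.w4_K (h : M.Ok) (s : ℝ) : M.K s = M.Ki * (1 - M.kt s) := by
  have h1 := h.Ki_pos.ne'
  change M.K s = M.Ki * (1 - (1 - M.K s / M.Ki))
  field_simp
  ring

theorem Mo.Ok.h_d (h : M.Ok) {s : ℝ} (hs : 0 < s) : HasDerivAt M.h (M.h1 s) s := by
  have hk := (h.kt_pos hs.le).ne'
  have hK := h.Ki_pos.ne'
  have hG := (h.G_pos' hs.le).ne'
  have h1 := ((h.K_d hs).const_mul 2).div (h.kt_d hs) hk
  refine h1.congr_deriv ?_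
  rw [h.w4_K s]
  change _ = 2 * M.f s / (M.G s * M.kt s ^ 2)
  field_simp
  ring

theorem Mo.Ok.h1_EE (h : M.Ok) {s : ℝ} (hs : 0 ≤ s) : M.h1 s * ‖M.EE s‖ ^ 2 = 2 * M.mh s := by
  have hk := (h.kt_pos hs).ne'
  have hG := (h.G_pos' hs).ne'
  have h1 : ‖M.EE s‖ ^ 2 = M.q s * M.G s * M.kt s ^ 2 := by
    have h2 : ‖M.ρ s‖ ^ 2 = M.q s := rho_norm_sq
    simp only [Mo.EE, norm_mul, RCLike.norm_conj, Complex.norm_real, mul_pow, h2]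
    rw [Real.norm_eq_abs, Real.norm_eq_abs, sq_abs, sq_abs, h.g_sq hs]
  rw [h1]
  change 2 * M.f s / (M.G s * M.kt s ^ 2) * _ = 2 * (M.f s * M.q s)
  field_simp

theorem Mo.Ok.E1_h (h : M.Ok) {s : ℝ} (hs : 0 < s) : M.E1 s = - (M.h1 s : ℂ) * M.EE s - (M.h s : ℂ) * M.EE1 s := by
  have hk : (M.kt s : ℂ) ≠ 0 := Complex.ofReal_ne_zero.2 (h.kt_pos hs.le).ne'
  have hK : (M.Ki : ℂ) ≠ 0 := Complex.ofReal_ne_zero.2 h.Ki_pos.ne'
  have hg : (M.g s : ℂ) ≠ 0 := Complex.ofReal_ne_zero.2 (h.g_pos hs.le).ne'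
  have h1 : (M.h1 s : ℂ) = 2 * (M.f s : ℂ) / ((M.g s : ℂ) ^ 2 * (M.kt s : ℂ) ^ 2) := by
    rw [← Complex.ofReal_pow (M.g s), h.g_sq hs.le]
    change ((2 * M.f s / (M.G s * M.kt s ^ 2) : ℝ) : ℂ) = _
    push_cast
    rfl
  have h2 : (M.h s : ℂ) = 2 * (M.K s : ℂ) / (M.kt s : ℂ) := by
    change ((2 * M.K s / M.kt s : ℝ) : ℂ) = _
    push_cast
    rfl
  have h3 : (M.K s : ℂ) = (M.Ki : ℂ) * (1 - (M.kt s : ℂ)) := by
    rw [h.w4_K s]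
    push_cast
    rfl
  rw [h1, h2]
  simp only [Mo.E1, Mo.EE, Mo.EE1]
  rw [h3]
  field_simp
  ring

theorem Mo.Ok.mh_d (h : M.Ok) {s : ℝ} (hs : 0 < s) : HasDerivAt M.mh (M.mh1 s) s := by
  have h1 := (h.f_d hs).mul (h.q_d hs)
  refine h1.congr_deriv ?_
  simp only [Mo.mh1]
  ring

theorem Mo.Ok.w4_lam (h : M.Ok) {s : ℝ} (hs : 0 ≤ s) :
    M.lam s = -((M.f s : ℂ) + conj (M.ρ s) * (M.f1 s : ℂ) / 2) := by
  have h1 := M1 (P := M.P) (N := M.N) (r := M.r s) (h.r_pos hs)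
  change - Mc M.P M.N / rho M.N (M.r s) ^ 3 =
    -((ff M.P M.N (M.r s) : ℂ) + conj (rho M.N (M.r s)) * (ff1 M.P M.N (M.r s) : ℂ) / 2)
  linear_combination (1 / 2) * h1

theorem w4_cρ (M : Mo) (s : ℝ) : conj (M.ρ s) = (⟨M.r s, -M.N⟩ : ℂ) := by
  apply Complex.ext <;> simp [Mo.ρ, rho]

theorem w4_t (M : Mo) (s : ℝ) : M.t s = (⟨M.G s - M.X / 2 * M.r s * M.f1 s, M.X / 2 * M.N * M.f1 s⟩ : ℂ) := by
  rw [Mo.t, w4_cρ]
  apply Complex.ext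
  · have h1 : (M.X : ℂ) / 2 = ((M.X / 2 : ℝ) : ℂ) := by push_cast; rfl
    rw [h1]
    simp
  · have h1 : (M.X : ℂ) / 2 = ((M.X / 2 : ℝ) : ℂ) := by push_cast; rfl
    rw [h1]
    simp

theorem w4_E1 (M : Mo) (s : ℝ) : M.E1 s =
    (⟨-2 * (M.f s / M.g s * M.r s + M.K s * (M.G s - M.X / 2 * M.r s * M.f1 s)),
      -2 * (-(M.f s / M.g s * M.N) + M.K s * (M.X / 2 * M.N * M.f1 s))⟩ : ℂ) := by
  rw [Mo.E1, w4_cρ, w4_t]
  have h1 : (M.f s : ℂ) / (M.g s : ℂ) = ((M.f s / M.g s : ℝ) : ℂ) := by push_cast; rfl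
  rw [h1]
  apply Complex.ext <;> simp

theorem Mo.Ok.w4_lam' (h : M.Ok) {s : ℝ} (hs : 0 ≤ s) :
    M.lam s = (⟨-(M.f s + M.r s * M.f1 s / 2), M.N * M.f1 s / 2⟩ : ℂ) := by
  rw [h.w4_lam hs, w4_cρ]
  have h1 : (M.f1 s : ℂ) / 2 = ((M.f1 s / 2 : ℝ) : ℂ) := by push_cast; rfl
  rw [mul_div_assoc, h1]
  apply Complex.ext
  · simp
    ring
  · simp
    ring

theorem Mo.Ok.w4_M5 (h : M.Ok) {s : ℝ} (hs : 0 ≤ s) :
    M.mu / M.q s ^ 3 = M.f s ^ 2 + M.r s * M.f s * M.f1 s + M.q s * M.f1 s ^ 2 / 4 := by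
  have h1 := M5 (P := M.P) (N := M.N) (r := M.r s) (h.r_pos hs)
  change 4 * M.f s ^ 2 + 4 * M.r s * M.f s * M.f1 s + M.q s * M.f1 s ^ 2 = 4 * M.mu / M.q s ^ 3 at h1
  linear_combination (-1 / 4) * h1

theorem Mo.Ok.w4_gi (h : M.Ok) {s : ℝ} (hs : 0 ≤ s) : M.g s - (1 - M.X * M.f s) * (M.g s)⁻¹ = 0 := by
  have hg := (h.g_pos hs).ne'
  have h1 : M.g s ^ 2 = 1 - M.X * M.f s := h.g_sq hs
  rw [← h1]
  field_simp
  ring

theorem Mo.Ok.I2 (h : M.Ok) {s : ℝ} (hs : 0 < s) :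
    M.mh1 s - M.z1 s - (M.t s * conj (M.E1 s)).re + 2 * M.X * (conj (M.lam s) * M.E1 s).re = 0 := by
  have h1 := h.w4_gi hs.le
  have h2 := h.w4_M5 hs.le
  have hz : M.z1 s = (4 * M.r s * M.f s + M.q s * M.f1 s) / M.g s +
      2 * M.K s * (1 - M.X ^ 2 * (M.mu / M.q s ^ 3)) := by
    simp only [Mo.z1]
    ring
  have hG : M.G s = 1 - M.X * M.f s := rfl
  have hq : M.q s = M.r s ^ 2 + M.N ^ 2 := rfl
  rw [hz, h2, w4_t, w4_E1, h.w4_lam' hs.le]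
  simp only [Complex.mul_re, Complex.conj_re, Complex.conj_im, Mo.mh1, hG]
  rw [hq]
  linear_combination (M.f1 s * (M.r s ^ 2 + M.N ^ 2) + 2 * M.r s * M.f s) * h1

theorem Mo.Ok.w4_re (h : M.Ok) {s : ℝ} (hs : 0 < s) :
    (conj (M.lam s) * M.sig s * conj (M.E s)).re = -6 * M.K s * M.g s * M.X * M.mu * M.r s / M.q s ^ 4 := by
  have hρ : M.ρ s ≠ 0 := rho_ne (h.r_pos hs.le)
  have hc : conj (M.ρ s) ≠ 0 := rho_conj_ne (h.r_pos hs.le)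
  have hq : M.ρ s * conj (M.ρ s) = (M.q s : ℂ) := rho_mul_conj
  have hq0 : (M.q s : ℂ) ≠ 0 := Complex.ofReal_ne_zero.2 (h.q_pos hs.le).ne'
  have hm : Mc M.P M.N * conj (Mc M.P M.N) = (M.mu : ℂ) := by
    rw [Complex.mul_conj, Complex.normSq_eq_norm_sq, Mc_norm_sq]
    rfl
  have h1 : conj (M.lam s) * M.sig s * conj (M.E s) =
      ((-6 * M.K s * M.g s * M.X * M.mu / M.q s ^ 4 : ℝ) : ℂ) * conj (M.ρ s) := by
    have e1 : conj (M.lam s) = - conj (Mc M.P M.N) / conj (M.ρ s) ^ 3 := by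
      change conj (- Mc M.P M.N / M.ρ s ^ 3) = _
      rw [map_div₀, map_neg, map_pow]
    have e2 : conj (M.E s) = -2 * (M.K s : ℂ) * M.ρ s * (M.g s : ℂ) := by
      change conj (-2 * (M.K s : ℂ) * conj (M.ρ s) * (M.g s : ℂ)) = _
      simp only [map_mul, map_neg, Complex.conj_ofReal, Complex.conj_conj, map_ofNat]
    rw [e1, e2, Mo.sig]
    push_cast
    rw [← hq, ← hm]
    field_simp
    ring
  rw [h1, Complex.re_ofReal_mul, w4_cρ]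
  ring

theorem w4_alg {r f f1 f2 q g X m5 : ℝ} (hg : g ≠ 0) (hG : g ^ 2 = 1 - X * f)
    (h5 : m5 = f ^ 2 + r * f * f1 + q * f1 ^ 2 / 4) (h6 : q * f2 + 6 * r * f1 + 6 * f = 0) :
    ((4 * g * f + 4 * r * (f1 * g) + (2 * r * g * f1 + q * (f2 * g))) * g -
      (4 * r * f + q * f1) * (-X * f1 / 2)) / g ^ 2 + 2 * (f / g ^ 2) * (1 - X ^ 2 * m5) = 2 * X * m5 := by
  have h1 : ((4 * g * f + 4 * r * (f1 * g) + (2 * r * g * f1 + q * (f2 * g))) * g -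
      (4 * r * f + q * f1) * (-X * f1 / 2)) + 2 * f * (1 - X ^ 2 * m5) = 2 * X * m5 * g ^ 2 := by
    linear_combination g ^ 2 * h6 - 2 * X * h5 - (2 * f + 2 * X * m5) * hG
  have h2 : ((4 * g * f + 4 * r * (f1 * g) + (2 * r * g * f1 + q * (f2 * g))) * g -
      (4 * r * f + q * f1) * (-X * f1 / 2)) / g ^ 2 + 2 * (f / g ^ 2) * (1 - X ^ 2 * m5) =
      (((4 * g * f + 4 * r * (f1 * g) + (2 * r * g * f1 + q * (f2 * g))) * g -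
      (4 * r * f + q * f1) * (-X * f1 / 2)) + 2 * f * (1 - X ^ 2 * m5)) / g ^ 2 := by
    ring
  rw [h2, h1]
  field_simp

theorem Mo.Ok.z1_d (h : M.Ok) {s : ℝ} (hs : 0 < s) :
    HasDerivAt M.z1 (2 * M.X * ‖M.lam s‖ ^ 2 - 2 * M.X * (conj (M.lam s) * M.sig s * conj (M.E s)).re) s := by
  have hg := (h.g_pos hs.le).ne'
  have hq := (h.q_pos hs.le).ne'
  have hG : M.G s = 1 - M.X * M.f s := rfl
  have hG0 := (h.G_pos' hs.le).ne'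
  have d1 := (((h.r_d hs).const_mul 4).mul (h.f_d hs)).add ((h.q_d hs).mul (h.f1_d hs))
  have d2 := d1.div (h.g_d hs) hg
  have d3 := (hasDerivAt_const s (M.X ^ 2 * M.mu)).div ((h.q_d hs).pow 3) (pow_ne_zero 3 hq)
  have d4 := ((h.K_d hs).const_mul 2).mul (d3.const_sub 1)
  have d5 := d2.add d4
  refine (d5.congr_of_eventuallyEq (Eventually.of_forall fun x => rfl)).congr_deriv ?_
  have h5 := h.w4_M5 hs.le
  have h6 := M6 (P := M.P) (N := M.N) (r := M.r s) (h.r_pos hs.le)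
  change M.q s * M.f2 s + 6 * M.r s * M.f1 s + 6 * M.f s = 0 at h6
  have hl : ‖M.lam s‖ ^ 2 = M.mu / M.q s ^ 3 := lamr_norm_sq (h.r_pos hs.le)
  rw [h.w4_re hs, hl]
  have hK : 2 * M.K s * -((0 * M.q s ^ 3 - M.X ^ 2 * M.mu * (((3 : ℕ) : ℝ) * M.q s ^ (3 - 1) * (2 * M.r s * M.g s))) /
      (M.q s ^ 3) ^ 2) = - (2 * M.X * (-6 * M.K s * M.g s * M.X * M.mu * M.r s / M.q s ^ 4)) := by
    push_cast
    field_simp
    ring
  have hG' : M.g s ^ 2 = 1 - M.X * M.f s := h.g_sq hs.le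
  have hA := w4_alg hg hG' h5 h6
  rw [h.g_sq hs.le] at hA
  simp only [Pi.pow_apply, Pi.mul_apply, Pi.add_apply, Pi.div_apply]
  rw [hK, ← hA, h.g_sq hs.le]
  ring

end H17S
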