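import Pool.Agent.Lib.H17S.W4

set_option autoImplicit false

/-!
Chunk W5 (M). The function `Y = 1/sqrt h'` (identity (I5) of PROOF.md, section 2), `s > 0`.
* `Y_h1`: `Y^2 h1 = 1`.
* `Y_d`: `Y = kt g2` with `g2 = sqrt (G/(2f)) = sqrt((1/f - X)/2)`; `(G/(2f))' = (1/(2f))' = - f' g/(2 f^2)` (here `f'` is the derivative in `r`), so `g2' = - f' g/(4 f^2 g2) = -(sqrt 2/4) f' f^(-3/2)`
  since `g/g2 = sqrt(2 f)`. Hence `Y' = kt' g2 + kt g2'` = `Y1`.
* `Y1_d`: `(kt' g2)' = (-f/(G Ki) g2)' = (- 1/(2 g2 Ki))' = g2'/(2 g2^2 Ki)`, `(kt g2')' = kt' g2' + kt g2'' = - g2'/(2 g2^2 Ki) + kt g2''`; sum `kt g2''`,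
  `g2'' = -(sqrt 2/4)(f' f^(-3/2))_r g = (sqrt 2/8) f^(-5/2) (3 f'^2 - 2 f f'') g`.
* `Y2_nonneg`: M4.
* `Y_bdd`: `kt = (Ki - K)/Ki`, `Ki - K = int_s^oo f/G <= C/(1+s)` (`f <= C/r^2`), `sqrt(G/(2f)) <= C r`  for `s >= 1` (`f >= c/r^2` for `r >= r(1)`: `r^2 f` is continuous, positive on `[r 1, ∞)` and tends to `1`).
  Then `Y1_nonpos`: `Y1` is monotone on `(0,∞)` (`Y1_d`, `Y2_nonneg`); if `Y1 s0 > 0` then `Y s >= Y s0 + Y1 s0 (s - s0)` is unbounded.
-/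

open MeasureTheory Filter Topology Set
open scoped ContDiff ComplexConjugate

namespace H17S

variable {M : Mo}

theorem w5_g2 (h : M.Ok) {s : ℝ} (hs : 0 < s) :
    Real.sqrt (M.G s / (2 * M.f s)) = M.g s / (Real.sqrt 2 * Real.sqrt (M.f s)) := by
  have hf := h.f_pos hs
  rw [Real.sqrt_div (h.G_pos' hs.le).le, Real.sqrt_mul (by norm_num : (0:ℝ) ≤ 2)]
  rfl

theorem w5_GX (M : Mo) (s : ℝ) : M.G s = 1 - M.X * M.f s := rfl

theorem Mo.Ok.Y_pos (h : M.Ok) {s : ℝ} (hs : 0 < s) : 0 < M.Y s := by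
  have hf := h.f_pos hs
  have hG := h.G_pos' hs.le
  exact mul_pos (h.kt_pos hs.le) (Real.sqrt_pos.2 (by positivity))

theorem Mo.Ok.h1_pos (h : M.Ok) {s : ℝ} (hs : 0 < s) : 0 < M.h1 s := by
  have hf := h.f_pos hs
  have hG := h.G_pos' hs.le
  have hk := h.kt_pos hs.le
  unfold Mo.h1
  positivity

theorem Mo.Ok.Y_h1 (h : M.Ok) {s : ℝ} (hs : 0 < s) : M.Y s ^ 2 * M.h1 s = 1 := by
  have hf := h.f_pos hs
  have hG := h.G_pos' hs.le
  have hk := h.kt_pos hs.le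
  unfold Mo.h1 Mo.Y
  rw [mul_pow, Real.sq_sqrt (by positivity)]
  field_simp

/-- Derivative of `sqrt (G/(2f))`. -/
theorem w5_g2_d (h : M.Ok) {s : ℝ} (hs : 0 < s) :
    HasDerivAt (fun s => Real.sqrt (M.G s / (2 * M.f s)))
      (-(Real.sqrt 2 / 4 * M.f1 s / (M.f s * Real.sqrt (M.f s)))) s := by
  have hf := h.f_pos hs
  have hG := h.G_pos' hs.le
  have hg := h.g_pos hs.le
  have h1 : HasDerivAt (fun s => M.G s / (2 * M.f s)) _ s :=
    (h.G_d hs).div ((h.f_d hs).const_mul 2) (by positivity)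
  have h2 := h1.sqrt (by positivity)
  convert h2 using 1
  rw [w5_g2 h hs]
  have ha : 0 < Real.sqrt (M.f s) := Real.sqrt_pos.2 hf
  have haa : Real.sqrt (M.f s) ^ 2 = M.f s := Real.sq_sqrt hf.le
  have h22 : Real.sqrt 2 ^ 2 = 2 := Real.sq_sqrt (by norm_num)
  have h2p : 0 < Real.sqrt 2 := Real.sqrt_pos.2 (by norm_num)
  have hGX := w5_GX M s
  have hnum : -M.X * M.f1 s * M.g s * (2 * M.f s) - M.G s * (2 * (M.f1 s * M.g s)) =
      -(2 * M.f1 s * M.g s) := by rw [hGX]; ring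
  rw [hnum]
  have e1 : M.f s = Real.sqrt (M.f s) ^ 2 := haa.symm
  set a := Real.sqrt (M.f s) with hadef
  set b := Real.sqrt 2 with hbdef
  rw [e1]
  field_simp
  nlinarith [h22]

theorem Mo.Ok.Y_d (h : M.Ok) {s : ℝ} (hs : 0 < s) : HasDerivAt M.Y (M.Y1 s) s := by
  have h1 : HasDerivAt M.Y _ s := (h.kt_d hs).mul (w5_g2_d h hs)
  refine h1.congr_deriv ?_
  unfold Mo.Y1
  ring

theorem Mo.Ok.Y1_d (h : M.Ok) {s : ℝ} (hs : 0 < s) : HasDerivAt M.Y1 (M.Y2 s) s := by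
  have hf := h.f_pos hs
  have hG := h.G_pos' hs.le
  have hg := h.g_pos hs.le
  have hKi := h.Ki_pos
  have ha : 0 < Real.sqrt (M.f s) := Real.sqrt_pos.2 hf
  have h2p : 0 < Real.sqrt 2 := Real.sqrt_pos.2 (by norm_num)
  have hA : HasDerivAt (fun s => M.f s / (M.G s * M.Ki)) _ s :=
    (h.f_d hs).div ((h.G_d hs).mul_const M.Ki) (by positivity)
  have hB : HasDerivAt (fun s => Real.sqrt 2 / 4 * M.f1 s / (M.f s * Real.sqrt (M.f s))) _ s :=
    ((h.f1_d hs).const_mul (Real.sqrt 2 / 4)).div ((h.f_d hs).mul ((h.f_d hs).sqrt hf.ne')) (by positivity)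
  have h1 : HasDerivAt M.Y1 _ s := ((hA.neg).mul (w5_g2_d h hs)).sub ((h.kt_d hs).mul hB)
  convert h1 using 1
  rw [w5_g2 h hs]
  unfold Mo.Y2
  have hgG : M.G s = M.g s ^ 2 := (h.g_sq hs.le).symm
  have haa : Real.sqrt (M.f s) ^ 2 = M.f s := Real.sq_sqrt hf.le
  have h22 : Real.sqrt 2 ^ 2 = 2 := Real.sq_sqrt (by norm_num)
  have hGX := w5_GX M s
  have hnum : M.f1 s * M.g s * (M.G s * M.Ki) - M.f s * (-M.X * M.f1 s * M.g s * M.Ki) =
      M.f1 s * M.g s * M.Ki := by rw [hGX]; ring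
  simp only [Pi.neg_apply]
  rw [hnum, hgG]
  have e1 : M.f s = Real.sqrt (M.f s) ^ 2 := haa.symm
  set a := Real.sqrt (M.f s) with hadef
  set b := Real.sqrt 2 with hbdef
  set k := M.kt s
  set g := M.g s
  set x := M.f1 s
  set y := M.f2 s
  set K := M.Ki
  rw [e1]
  field_simp
  ring_nf
  have h23 : b ^ 3 = 2 * b := by rw [pow_succ, h22]
  simp only [h22, h23]
  ring

theorem Mo.Ok.Y2_nonneg (h : M.Ok) {s : ℝ} (hs : 0 < s) : 0 ≤ M.Y2 s := by
  have hf := h.f_pos hs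
  have hg := h.g_pos hs.le
  have hk := h.kt_pos hs.le
  have hM4 : 0 ≤ 3 * M.f1 s ^ 2 - 2 * M.f s * M.f2 s := M4 h.P_pos (h.r_pos hs.le)
  unfold Mo.Y2
  have ha : 0 < Real.sqrt (M.f s) := Real.sqrt_pos.2 hf
  positivity

theorem Mo.Ok.h1_d (h : M.Ok) {s : ℝ} (hs : 0 < s) : HasDerivAt M.h1 (-2 * (M.Y1 s / M.Y s) * M.h1 s) s := by
  have hY := h.Y_pos hs
  have h1 : HasDerivAt (fun s => (M.Y s ^ 2)⁻¹) _ s :=
    ((h.Y_d hs).fun_pow 2).fun_inv (by positivity : (M.Y s ^ 2) ≠ 0)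
  have he : M.h1 =ᶠ[𝓝 s] (fun s => (M.Y s ^ 2)⁻¹) := by
    filter_upwards [lt_mem_nhds hs] with t ht
    have := h.Y_h1 ht
    have hYt := h.Y_pos ht
    field_simp
    linarith
  have h2 := h1.congr_of_eventuallyEq he
  refine h2.congr_deriv ?_
  have hh := h.Y_h1 hs
  have : M.h1 s = 1 / M.Y s ^ 2 := by field_simp; linarith
  rw [this]
  field_simp
  simp
  try ring

/-- Upper bound of `f`. -/
theorem w5_f_le (h : M.Ok) : ∃ C, 0 < C ∧ ∀ s, 0 ≤ s → M.f s ≤ C / (1 + s) ^ 2 := by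
  obtain ⟨c, hc, hr⟩ := h.r_lower
  have hP := h.P_pos
  refine ⟨(1 + M.N ^ 2 / M.P ^ 2) / c ^ 2, by positivity, fun s hs => ?_⟩
  have hrs := hr s hs
  have hrP := h.r_ge hs
  have hrp := h.r_pos hs
  have e : M.f s = (M.r s - M.P) * (M.r s + M.N ^ 2 / M.P) / qq M.N (M.r s) ^ 2 := ff_form hP
  rw [e]
  have hq : M.r s ^ 2 ≤ qq M.N (M.r s) := by unfold qq; nlinarith [sq_nonneg M.N]
  have h1 : (M.r s - M.P) * (M.r s + M.N ^ 2 / M.P) ≤ M.r s ^ 2 * (1 + M.N ^ 2 / M.P ^ 2) := by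
    have h2 : M.N ^ 2 / M.P ≤ M.r s * (M.N ^ 2 / M.P ^ 2) := by
      have : M.N ^ 2 / M.P = M.P * (M.N ^ 2 / M.P ^ 2) := by field_simp
      rw [this]
      exact mul_le_mul_of_nonneg_right hrP (by positivity)
    have h3 : M.r s + M.N ^ 2 / M.P ≤ M.r s * (1 + M.N ^ 2 / M.P ^ 2) := by linarith
    have h4 : 0 ≤ M.r s + M.N ^ 2 / M.P := by positivity
    calc (M.r s - M.P) * (M.r s + M.N ^ 2 / M.P) ≤ M.r s * (M.r s + M.N ^ 2 / M.P) :=
          mul_le_mul_of_nonneg_right (by linarith) h4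
      _ ≤ M.r s * (M.r s * (1 + M.N ^ 2 / M.P ^ 2)) := mul_le_mul_of_nonneg_left h3 hrp.le
      _ = _ := by ring
  have hq0 : 0 < qq M.N (M.r s) := qq_pos hrp
  have hcs : 0 < c * (1 + s) := by positivity
  calc (M.r s - M.P) * (M.r s + M.N ^ 2 / M.P) / qq M.N (M.r s) ^ 2
      ≤ M.r s ^ 2 * (1 + M.N ^ 2 / M.P ^ 2) / (M.r s ^ 2) ^ 2 := by
        apply div_le_div₀ (by positivity) h1 (by positivity)
        exact pow_le_pow_left₀ (by positivity) hq 2
    _ = (1 + M.N ^ 2 / M.P ^ 2) / M.r s ^ 2 := by field_simp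
    _ ≤ (1 + M.N ^ 2 / M.P ^ 2) / (c * (1 + s)) ^ 2 := by
        apply div_le_div_of_nonneg_left (by positivity) (by positivity)
        exact pow_le_pow_left₀ hcs.le hrs 2
    _ = (1 + M.N ^ 2 / M.P ^ 2) / c ^ 2 / (1 + s) ^ 2 := by
        rw [mul_pow, div_div]

/-- Lower bound of `f` for `s ≥ 1`. -/
theorem w5_f_ge (h : M.Ok) : ∃ C, 0 < C ∧ ∀ s, 1 ≤ s → C / (1 + s) ^ 2 ≤ M.f s := by
  have hP := h.P_pos
  have hr1 : M.P < M.r 1 := h.r_gt one_pos
  set δ : ℝ := (M.r 1 - M.P) / M.r 1 with hδ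
  have hr1p : 0 < M.r 1 := by linarith
  have hδ0 : 0 < δ := div_pos (by linarith) hr1p
  refine ⟨δ / ((1 + M.N ^ 2 / M.P ^ 2) ^ 2 * (M.P + 1) ^ 2), by positivity, fun s hs => ?_⟩
  have hs0 : 0 ≤ s := by linarith
  have hrs : M.r 1 ≤ M.r s := h.r_mono (by simp) (by simpa using hs0) hs
  have hrle := h.r_le hs0
  have hrp := h.r_pos hs0
  have hrP := h.r_ge hs0
  have e : M.f s = (M.r s - M.P) * (M.r s + M.N ^ 2 / M.P) / qq M.N (M.r s) ^ 2 := ff_form hP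
  rw [e]
  have hq0 : 0 < qq M.N (M.r s) := qq_pos hrp
  have hq : qq M.N (M.r s) ≤ M.r s ^ 2 * (1 + M.N ^ 2 / M.P ^ 2) := by
    unfold qq
    have : M.N ^ 2 ≤ M.r s ^ 2 * (M.N ^ 2 / M.P ^ 2) := by
      have h1 : M.N ^ 2 = M.P ^ 2 * (M.N ^ 2 / M.P ^ 2) := by field_simp
      calc M.N ^ 2 = M.P ^ 2 * (M.N ^ 2 / M.P ^ 2) := h1
        _ ≤ _ := mul_le_mul_of_nonneg_right (pow_le_pow_left₀ hP.le hrP 2) (by positivity)
    linarith
  have hd : δ * M.r s ≤ M.r s - M.P := by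
    have : δ * M.r s = M.r s - M.P * M.r s / M.r 1 := by
      rw [hδ]; field_simp
    rw [this]
    have : M.P ≤ M.P * M.r s / M.r 1 := by
      rw [le_div_iff₀ hr1p]
      exact mul_le_mul_of_nonneg_left hrs hP.le
    linarith
  have h1 : δ * M.r s * M.r s ≤ (M.r s - M.P) * (M.r s + M.N ^ 2 / M.P) := by
    apply mul_le_mul hd _ hrp.le (by linarith)
    have : 0 ≤ M.N ^ 2 / M.P := by positivity
    linarith
  have hr2 : M.r s ≤ (M.P + 1) * (1 + s) := by nlinarith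
  calc δ / ((1 + M.N ^ 2 / M.P ^ 2) ^ 2 * (M.P + 1) ^ 2) / (1 + s) ^ 2
      = δ / ((1 + M.N ^ 2 / M.P ^ 2) ^ 2 * ((M.P + 1) * (1 + s)) ^ 2) := by
        rw [div_div]; congr 1; ring
    _ ≤ δ / ((1 + M.N ^ 2 / M.P ^ 2) ^ 2 * M.r s ^ 2) := by
        apply div_le_div_of_nonneg_left hδ0.le (by positivity)
        apply mul_le_mul_of_nonneg_left _ (by positivity)
        exact pow_le_pow_left₀ hrp.le hr2 2
    _ = δ * M.r s * M.r s / (M.r s ^ 2 * (1 + M.N ^ 2 / M.P ^ 2)) ^ 2 := by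
        field_simp
    _ ≤ (M.r s - M.P) * (M.r s + M.N ^ 2 / M.P) / qq M.N (M.r s) ^ 2 := by
        apply div_le_div₀ (le_trans (by positivity) h1) h1 (by positivity)
        exact pow_le_pow_left₀ hq0.le hq 2

/-- `Ki - K <= C/(1+s)`. -/
theorem w5_K (h : M.Ok) : ∃ C, 0 < C ∧ ∀ s, 1 ≤ s → M.Ki - M.K s ≤ C / (1 + s) := by
  obtain ⟨C, hC, hf⟩ := w5_f_le h
  obtain ⟨c, hc, hG⟩ := h.G_lower
  refine ⟨C / c, by positivity, fun s hs => ?_⟩
  have hanti : AntitoneOn (fun t => M.K t + (C / c) / (1 + t)) (Ici 1) := by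
    have hder : ∀ t, 0 < t → HasDerivAt (fun t => M.K t + (C / c) / (1 + t))
        (M.f t / M.G t + (-((C / c) * 1) / (1 + t) ^ 2)) t := by
      intro t ht
      have h1 : HasDerivAt (fun t : ℝ => 1 + t) 1 t := by simpa using (hasDerivAt_id t).const_add 1
      have h2 := (hasDerivAt_const t (C / c)).div h1 (by positivity)
      have h3 : HasDerivAt (fun t => M.K t + (C / c) / (1 + t)) _ t := (h.K_d ht).add h2
      refine h3.congr_deriv ?_
      ring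
    apply antitoneOn_of_deriv_nonpos (convex_Ici 1)
    · intro t ht
      exact (hder t (lt_of_lt_of_le one_pos ht)).continuousAt.continuousWithinAt
    · intro t ht
      rw [interior_Ici] at ht
      exact (hder t (lt_trans one_pos ht)).differentiableAt.differentiableWithinAt
    · intro t ht
      rw [interior_Ici] at ht
      have ht0 : 0 < t := lt_trans one_pos ht
      rw [(hder t ht0).deriv]
      have h1 : M.f t / M.G t ≤ (C / (1 + t) ^ 2) / c := by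
        apply div_le_div₀ (by positivity) (hf t ht0.le) hc (hG t ht0.le)
      have h2 : (C / (1 + t) ^ 2) / c = (C / c) / (1 + t) ^ 2 := by
        field_simp
      rw [h2] at h1
      have h3 : -((C / c) * 1) / (1 + t) ^ 2 = - ((C / c) / (1 + t) ^ 2) := by ring
      rw [h3]
      linarith
  have hlim : Tendsto (fun t => M.K t + (C / c) / (1 + t)) atTop (𝓝 (M.Ki + 0)) := by
    apply h.K_lim.add
    apply Tendsto.div_atTop tendsto_const_nhds
    exact tendsto_atTop_add_const_left _ _ tendsto_id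
  have hle : M.Ki + 0 ≤ M.K s + (C / c) / (1 + s) := by
    apply le_of_tendsto hlim
    filter_upwards [eventually_ge_atTop s] with t ht
    exact hanti hs (le_trans hs ht) ht
  linarith

theorem Mo.Ok.Y_bdd (h : M.Ok) : ∃ C, ∀ s, 1 ≤ s → M.Y s ≤ C := by
  obtain ⟨C1, hC1, hf⟩ := w5_f_ge h
  obtain ⟨C2, hC2, hK⟩ := w5_K h
  have hKi := h.Ki_pos
  refine ⟨C2 / M.Ki * Real.sqrt (1 / (2 * C1)), fun s hs => ?_⟩
  have hs0 : 0 < s := by linarith
  have hfp := h.f_pos hs0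
  have hGp := h.G_pos' hs0.le
  have h1 : M.kt s ≤ C2 / M.Ki / (1 + s) := by
    have : M.kt s = (M.Ki - M.K s) / M.Ki := by unfold Mo.kt; field_simp
    rw [this, div_div, mul_comm M.Ki, ← div_div]
    exact div_le_div_of_nonneg_right (hK s hs) hKi.le
  have h2 : Real.sqrt (M.G s / (2 * M.f s)) ≤ (1 + s) * Real.sqrt (1 / (2 * C1)) := by
    have h3 : M.G s / (2 * M.f s) ≤ (1 + s) ^ 2 * (1 / (2 * C1)) := by
      have h4 : M.G s / (2 * M.f s) ≤ 1 / (2 * (C1 / (1 + s) ^ 2)) := by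
        apply div_le_div₀ zero_le_one (h.G_le hs0.le) (by positivity)
        exact mul_le_mul_of_nonneg_left (hf s hs) (by norm_num)
      refine h4.trans (le_of_eq ?_)
      field_simp
    calc Real.sqrt (M.G s / (2 * M.f s)) ≤ Real.sqrt ((1 + s) ^ 2 * (1 / (2 * C1))) := Real.sqrt_le_sqrt h3
      _ = _ := by rw [Real.sqrt_mul (by positivity), Real.sqrt_sq (by positivity)]
  calc M.Y s = M.kt s * Real.sqrt (M.G s / (2 * M.f s)) := rfl
    _ ≤ (C2 / M.Ki / (1 + s)) * ((1 + s) * Real.sqrt (1 / (2 * C1))) :=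
        mul_le_mul h1 h2 (Real.sqrt_nonneg _) (by positivity)
    _ = C2 / M.Ki * Real.sqrt (1 / (2 * C1)) := by
        have : (1 + s) ≠ 0 := by positivity
        field_simp

theorem Mo.Ok.Y1_nonpos (h : M.Ok) {s : ℝ} (hs : 0 < s) : M.Y1 s ≤ 0 := by
  by_contra hcon
  push Not at hcon
  obtain ⟨C, hC⟩ := h.Y_bdd
  have hmono : MonotoneOn M.Y1 (Ioi 0) := by
    apply monotoneOn_of_deriv_nonneg (convex_Ioi 0)
    · intro t ht
      exact (h.Y1_d ht).continuousAt.continuousWithinAt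
    · intro t ht
      rw [interior_Ioi] at ht
      exact (h.Y1_d ht).differentiableAt.differentiableWithinAt
    · intro t ht
      rw [interior_Ioi] at ht
      rw [(h.Y1_d ht).deriv]
      exact h.Y2_nonneg ht
  have hmono2 : MonotoneOn (fun t => M.Y t - M.Y1 s * t) (Ici s) := by
    have hd : ∀ t, 0 < t → HasDerivAt (fun t => M.Y t - M.Y1 s * t) (M.Y1 t - M.Y1 s * 1) t := by
      intro t ht
      exact (h.Y_d ht).sub ((hasDerivAt_id t).const_mul (M.Y1 s))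
    apply monotoneOn_of_deriv_nonneg (convex_Ici s)
    · intro t ht
      exact (hd t (lt_of_lt_of_le hs ht)).continuousAt.continuousWithinAt
    · intro t ht
      rw [interior_Ici] at ht
      exact (hd t (lt_trans hs ht)).differentiableAt.differentiableWithinAt
    · intro t ht
      rw [interior_Ici] at ht
      rw [(hd t (lt_trans hs ht)).deriv]
      have := hmono hs (lt_trans hs ht) (le_of_lt ht)
      linarith
  set T : ℝ := max (max s 1) ((C - M.Y s + M.Y1 s * s) / M.Y1 s + 1) with hT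
  have hT1 : 1 ≤ T := le_trans (le_max_right _ _) (le_max_left _ _)
  have hTs : s ≤ T := le_trans (le_max_left _ _) (le_max_left _ _)
  have hT2 : (C - M.Y s + M.Y1 s * s) / M.Y1 s + 1 ≤ T := le_max_right _ _
  have h1 := hmono2 (self_mem_Ici) (show T ∈ Ici s from hTs) hTs
  simp only at h1
  have h2 := hC T hT1
  have h3 : M.Y1 s * ((C - M.Y s + M.Y1 s * s) / M.Y1 s + 1) ≤ M.Y1 s * T :=
    mul_le_mul_of_nonneg_left hT2 hcon.le
  have h4 : M.Y1 s * ((C - M.Y s + M.Y1 s * s) / M.Y1 s + 1) = C - M.Y s + M.Y1 s * s + M.Y1 s := by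
    field_simp
  linarith

end H17S
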