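import Pool.Agent.Lib.H17S.Def

set_option autoImplicit false

/-!
Chunk W6 (M). Elementary facts about a path. `<psi,phi> = conj A phi_A - conj B phi_B`, `a = <psi,psi>`.
* `a_d`: `a' = 2 Re(conj A A1 - conj B B1) = u a` (the `m1` terms cancel: `Re(conj A m1 conj B) = Re(conj B m1 conj A)`).
* `psi1`: `conj A A1 - conj B B1 = u a/2` (complex identity: `conj A m1 conj B - conj B m1 conj A = 0`).
* `jpsi1`: `conj A1 z - conj B1 w = (u/2)(conj A z - conj B w) + conj m1 (B z - A w)`.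
* `psi11`: `|A1|^2 - |B1|^2 = a (u^2/4 - |m1|^2)`.
* `ua_d`: `(u a)' = (u^2/2 - 2|m1|^2 - e) a = 2 (|A1|^2 - |B1|^2) - e a`.
* `r_d`: `r = sqrt a`, `r' = u r/2`; `rp_anti`: `(u r/2)' = - (|m1|^2 + e/2) r <= 0`; `rp_ge`: its limit is `1` (`lim1`), so `u r/2 >= 1`; `r_le`: `r - s` is monotone with limit `bN`.
* `r_lower`: `r s >= r 0 + s`.
* `re_lim`: `|A|^2 = a + |B|^2`, so `|A| - r = |B|^2/(|A| + r) -> 0`, and `|A| - |Re A| <= (Im A)^2/|A| -> 0`, `Re A > 0` for large `s` (`|A - s| <= C`): `Re A - s -> bN`.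
* `A_bdd`: from `bdd`.
-/

open MeasureTheory Filter Topology Set
open scoped ContDiff ComplexConjugate

namespace H17S

variable {p : Pa}

theorem Pa.Ok.a_d (h : p.Ok) {s : ℝ} (hs : 0 < s) : HasDerivAt p.a (p.u s * p.a s) s := by
  have h1 := (h.dA s hs).norm_sq.sub (h.dB s hs).norm_sq
  have h2 : 2 * inner ℝ (p.A s) (p.A1 s) - 2 * inner ℝ (p.B s) (p.B1 s) = p.u s * p.a s := by
    rw [Complex.inner, Complex.inner]
    simp only [Pa.a, Pa.A1, Pa.B1, Complex.sq_norm, Complex.normSq_apply, Complex.mul_re,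
      Complex.mul_im, Complex.add_re, Complex.add_im, Complex.conj_re, Complex.conj_im,
      Complex.ofReal_re, Complex.ofReal_im]
    ring
  rw [h2] at h1
  exact h1

theorem Pa.psi1 (p : Pa) (s : ℝ) : conj (p.A s) * p.A1 s - conj (p.B s) * p.B1 s = ((p.u s * p.a s / 2 : ℝ) : ℂ) := by
  have h1 := Complex.conj_mul' (p.A s)
  have h2 := Complex.conj_mul' (p.B s)
  simp only [Pa.a, Pa.A1, Pa.B1]
  push_cast
  linear_combination ((p.u s : ℂ) / 2) * h1 - ((p.u s : ℂ) / 2) * h2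

theorem Pa.jpsi1 (p : Pa) (s : ℝ) (z w : ℂ) : conj (p.A1 s) * z - conj (p.B1 s) * w =
    ((p.u s / 2 : ℝ) : ℂ) * (conj (p.A s) * z - conj (p.B s) * w) + conj (p.m1 s) * (p.B s * z - p.A s * w) := by
  simp only [Pa.A1, Pa.B1, map_add, map_mul, Complex.conj_ofReal, Complex.conj_conj]
  ring

theorem Pa.psi11 (p : Pa) (s : ℝ) : ‖p.A1 s‖ ^ 2 - ‖p.B1 s‖ ^ 2 = p.a s * (p.u s ^ 2 / 4 - ‖p.m1 s‖ ^ 2) := by
  simp only [Pa.a, Pa.A1, Pa.B1, Complex.sq_norm, Complex.normSq_apply, Complex.mul_re,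
    Complex.mul_im, Complex.add_re, Complex.add_im, Complex.conj_re, Complex.conj_im,
    Complex.ofReal_re, Complex.ofReal_im]
  ring

theorem Pa.Ok.ua_d (h : p.Ok) {s : ℝ} (hs : 0 < s) :
    HasDerivAt (fun s => p.u s * p.a s) (2 * (‖p.A1 s‖ ^ 2 - ‖p.B1 s‖ ^ 2) - p.e s * p.a s) s := by
  have h1 := (h.du s hs).mul (h.a_d hs)
  have h2 : (-p.u s ^ 2 / 2 - 2 * ‖p.m1 s‖ ^ 2 - p.e s) * p.a s + p.u s * (p.u s * p.a s) =
      2 * (‖p.A1 s‖ ^ 2 - ‖p.B1 s‖ ^ 2) - p.e s * p.a s := by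
    rw [p.psi11]
    ring
  rw [h2] at h1
  exact h1

theorem Pa.Ok.a_cont (h : p.Ok) : ContinuousOn p.a (Ici 0) :=
  (h.cA.norm.pow 2).sub (h.cB.norm.pow 2)

theorem Pa.Ok.r_d (h : p.Ok) {s : ℝ} (hs : 0 < s) :
    HasDerivAt (fun s => Real.sqrt (p.a s)) (p.u s * Real.sqrt (p.a s) / 2) s := by
  have ha := h.a_pos s hs.le
  have h1 := (h.a_d hs).sqrt ha.ne'
  have h2 : p.u s * p.a s / (2 * Real.sqrt (p.a s)) = p.u s * Real.sqrt (p.a s) / 2 := by
    have h3 : Real.sqrt (p.a s) ≠ 0 := (Real.sqrt_pos.2 ha).ne'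
    have h4 : Real.sqrt (p.a s) * Real.sqrt (p.a s) = p.a s := Real.mul_self_sqrt ha.le
    field_simp
    rw [sq, h4]
  rw [h2] at h1
  exact h1

theorem w6_rho_d (h : p.Ok) {s : ℝ} (hs : 0 < s) :
    HasDerivAt (fun s => p.u s * Real.sqrt (p.a s) / 2)
      (-(‖p.m1 s‖ ^ 2 + p.e s / 2) * Real.sqrt (p.a s)) s := by
  have h1 := ((h.du s hs).mul (h.r_d hs)).div_const 2
  have h2 : ((-p.u s ^ 2 / 2 - 2 * ‖p.m1 s‖ ^ 2 - p.e s) * Real.sqrt (p.a s) +
      p.u s * (p.u s * Real.sqrt (p.a s) / 2)) / 2 =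
      -(‖p.m1 s‖ ^ 2 + p.e s / 2) * Real.sqrt (p.a s) := by ring
  rw [h2] at h1
  exact h1

theorem w6_rho_anti (h : p.Ok) : AntitoneOn (fun s => p.u s * Real.sqrt (p.a s) / 2) (Ioi 0) := by
  apply antitoneOn_of_deriv_nonpos (convex_Ioi 0)
  · intro s hs
    exact (w6_rho_d h hs).continuousAt.continuousWithinAt
  · intro s hs
    rw [interior_Ioi] at hs
    exact (w6_rho_d h hs).differentiableAt.differentiableWithinAt
  · intro s hs
    rw [interior_Ioi] at hs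
    rw [(w6_rho_d h hs).deriv]
    have h1 := h.e_nonneg s hs
    have h2 : 0 ≤ ‖p.m1 s‖ ^ 2 + p.e s / 2 := by positivity
    have h3 := Real.sqrt_nonneg (p.a s)
    nlinarith [mul_nonneg h2 h3]

theorem w6_rho_lim (h : p.Ok) :
    Tendsto (fun s => p.u s * Real.sqrt (p.a s) / 2) atTop (𝓝 1) := by
  have h1 : Tendsto (fun s : ℝ => s⁻¹ * (s * (p.u s * Real.sqrt (p.a s) / 2 - 1))) atTop
      (𝓝 (0 * 0)) := tendsto_inv_atTop_zero.mul h.lim1
  rw [mul_zero] at h1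
  have h2 := h1.add_const 1
  rw [zero_add] at h2
  refine h2.congr' ?_
  filter_upwards [eventually_gt_atTop 0] with s hs
  rw [← mul_assoc, inv_mul_cancel₀ hs.ne', one_mul, sub_add_cancel]

theorem Pa.Ok.rp_ge (h : p.Ok) {s : ℝ} (hs : 0 < s) : 1 ≤ p.u s * Real.sqrt (p.a s) / 2 := by
  refine le_of_tendsto (w6_rho_lim h) ?_
  filter_upwards [eventually_ge_atTop s] with t ht
  exact w6_rho_anti h (show s ∈ Ioi (0 : ℝ) from hs) (show t ∈ Ioi (0 : ℝ) from hs.trans_le ht) ht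

theorem w6_mono (h : p.Ok) : MonotoneOn (fun s => Real.sqrt (p.a s) - s) (Ici 0) := by
  apply monotoneOn_of_deriv_nonneg (convex_Ici 0)
  · exact (h.a_cont.sqrt).sub continuousOn_id
  · intro s hs
    rw [interior_Ici] at hs
    exact ((h.r_d hs).sub (hasDerivAt_id s)).differentiableAt.differentiableWithinAt
  · intro s hs
    rw [interior_Ici] at hs
    have h1 : HasDerivAt (fun s => Real.sqrt (p.a s) - s) (p.u s * Real.sqrt (p.a s) / 2 - 1) s :=
      (h.r_d hs).sub (hasDerivAt_id s)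
    rw [h1.deriv]
    have := h.rp_ge hs
    linarith

theorem Pa.Ok.r_le (h : p.Ok) {s : ℝ} (hs : 0 ≤ s) : Real.sqrt (p.a s) ≤ s + p.bN := by
  have h1 : Real.sqrt (p.a s) - s ≤ p.bN := by
    refine ge_of_tendsto h.lim ?_
    filter_upwards [eventually_ge_atTop s] with t ht
    exact w6_mono h hs (hs.trans ht) ht
  linarith

theorem Pa.Ok.r_lower (h : p.Ok) {s : ℝ} (hs : 0 ≤ s) : Real.sqrt (p.a 0) + s ≤ Real.sqrt (p.a s) := by
  have h1 := w6_mono h (mem_Ici.2 (le_refl (0 : ℝ))) hs hs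
  simp only [sub_zero] at h1
  linarith

theorem Pa.Ok.AB_bdd (h : p.Ok) : ∃ C, ∀ s, 0 ≤ s → ‖p.A s‖ ≤ C * (1 + s) ∧ ‖p.B s‖ ≤ C ∧ p.a s ≤ C * (1 + s) ^ 2 := by
  obtain ⟨C, hC⟩ := h.bdd
  have hC0 : 0 ≤ C := (norm_nonneg _).trans (hC 0 le_rfl).2
  refine ⟨(C + 1) ^ 2, fun s hs => ?_⟩
  obtain ⟨h1, h2⟩ := hC s hs
  have h3 : ‖p.A s‖ ≤ (C + 1) * (1 + s) := by
    have h4 : ‖p.A s‖ ≤ ‖p.A s - (s : ℂ)‖ + ‖(s : ℂ)‖ := by
      have := norm_add_le (p.A s - (s : ℂ)) (s : ℂ)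
      rwa [sub_add_cancel] at this
    rw [Complex.norm_real, Real.norm_eq_abs, abs_of_nonneg hs] at h4
    nlinarith [mul_nonneg hC0 hs]
  refine ⟨?_, ?_, ?_⟩
  · refine h3.trans ?_
    apply mul_le_mul_of_nonneg_right _ (by linarith)
    nlinarith
  · nlinarith
  · have h5 : p.a s ≤ ‖p.A s‖ ^ 2 := by
      unfold Pa.a
      have := sq_nonneg ‖p.B s‖
      linarith
    refine h5.trans ?_
    rw [← mul_pow]
    exact pow_le_pow_left₀ (norm_nonneg _) h3 2

theorem w6_norm_lim (h : p.Ok) : Tendsto (fun s => ‖p.A s‖ - s) atTop (𝓝 p.bN) := by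
  obtain ⟨C, hC⟩ := h.bdd
  have h1 : Tendsto (fun s => ‖p.A s‖ - Real.sqrt (p.a s)) atTop (𝓝 0) := by
    have h2 : Tendsto (fun s : ℝ => C ^ 2 * s⁻¹) atTop (𝓝 (C ^ 2 * 0)) :=
      tendsto_inv_atTop_zero.const_mul _
    rw [mul_zero] at h2
    refine tendsto_of_tendsto_of_tendsto_of_le_of_le' tendsto_const_nhds h2 ?_ ?_
    · filter_upwards [eventually_gt_atTop 0] with s hs
      rw [sub_nonneg]
      apply Real.sqrt_le_iff.2
      refine ⟨norm_nonneg _, ?_⟩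
      unfold Pa.a
      have := sq_nonneg ‖p.B s‖
      linarith
    · filter_upwards [eventually_gt_atTop 0] with s hs
      have ha := h.a_pos s hs.le
      have hr0 := Real.sqrt_nonneg (p.a s)
      have hr : s ≤ Real.sqrt (p.a s) := by
        have h3 := h.r_lower hs.le
        have h4 := Real.sqrt_nonneg (p.a 0)
        linarith
      have hrr : Real.sqrt (p.a s) * Real.sqrt (p.a s) = p.a s := Real.mul_self_sqrt ha.le
      have hB := (hC s hs.le).2
      have hB2 : ‖p.B s‖ ^ 2 ≤ C ^ 2 := pow_le_pow_left₀ (norm_nonneg _) hB 2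
      have hAB : (‖p.A s‖ - Real.sqrt (p.a s)) * (‖p.A s‖ + Real.sqrt (p.a s)) = ‖p.B s‖ ^ 2 := by
        have : (‖p.A s‖ - Real.sqrt (p.a s)) * (‖p.A s‖ + Real.sqrt (p.a s)) =
          ‖p.A s‖ ^ 2 - Real.sqrt (p.a s) * Real.sqrt (p.a s) := by ring
        rw [this, hrr]
        unfold Pa.a
        ring
      rw [← div_eq_mul_inv, le_div_iff₀ hs]
      have hd : 0 ≤ ‖p.A s‖ - Real.sqrt (p.a s) := by
        rw [sub_nonneg]
        apply Real.sqrt_le_iff.2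
        refine ⟨norm_nonneg _, ?_⟩
        unfold Pa.a
        have := sq_nonneg ‖p.B s‖
        linarith
      have h5 : (‖p.A s‖ - Real.sqrt (p.a s)) * s ≤
          (‖p.A s‖ - Real.sqrt (p.a s)) * (‖p.A s‖ + Real.sqrt (p.a s)) := by
        apply mul_le_mul_of_nonneg_left _ hd
        have := norm_nonneg (p.A s)
        linarith
      linarith
  have h6 := h1.add h.lim
  rw [zero_add] at h6
  refine h6.congr fun s => ?_
  ring

theorem Pa.Ok.re_lim (h : p.Ok) : Tendsto (fun s => (p.A s).re - s) atTop (𝓝 p.bN) := by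
  obtain ⟨C, hC⟩ := h.bdd
  have h1 : Tendsto (fun s => ‖p.A s‖ - (p.A s).re) atTop (𝓝 0) := by
    have h2 : Tendsto (fun s : ℝ => (p.A s).im ^ 2) atTop (𝓝 (0 ^ 2)) := h.im.pow 2
    rw [zero_pow (by norm_num)] at h2
    refine tendsto_of_tendsto_of_tendsto_of_le_of_le' tendsto_const_nhds h2 ?_ ?_
    · filter_upwards with s
      rw [sub_nonneg]
      exact Complex.re_le_norm _
    · filter_upwards [eventually_ge_atTop (|C| + 1)] with s hs
      have hC0 := abs_nonneg C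
      have hs0 : 0 ≤ s := by linarith
      have h3 : ‖p.A s - (s : ℂ)‖ ≤ C := (hC s hs0).1
      have h4 : |(p.A s - (s : ℂ)).re| ≤ C := (Complex.abs_re_le_norm _).trans h3
      rw [Complex.sub_re, Complex.ofReal_re] at h4
      have h5 : 1 ≤ (p.A s).re := by
        have h6 := (abs_le.1 h4).1
        have h7 := le_abs_self C
        linarith
      have h8 : (‖p.A s‖ - (p.A s).re) * (‖p.A s‖ + (p.A s).re) = (p.A s).im ^ 2 := by
        have h9 : ‖p.A s‖ ^ 2 = (p.A s).re * (p.A s).re + (p.A s).im * (p.A s).im := by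
          rw [Complex.sq_norm, Complex.normSq_apply]
        nlinarith
      have h10 : 0 ≤ ‖p.A s‖ - (p.A s).re := by
        rw [sub_nonneg]
        exact Complex.re_le_norm _
      have h11 : (‖p.A s‖ - (p.A s).re) * 1 ≤ (‖p.A s‖ - (p.A s).re) * (‖p.A s‖ + (p.A s).re) := by
        apply mul_le_mul_of_nonneg_left _ h10
        have := norm_nonneg (p.A s)
        linarith
      linarith
  have h6 := (w6_norm_lim h).sub h1
  rw [sub_zero] at h6
  refine h6.congr fun s => ?_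
  ring

/-- `A s - s` tends to `bN` (complex). -/
theorem Pa.Ok.A_lim (h : p.Ok) : Tendsto (fun s => p.A s - (s : ℂ)) atTop (𝓝 (p.bN : ℂ)) := by
  have h1 : Tendsto (fun s => (((p.A s).re - s : ℝ) : ℂ)) atTop (𝓝 (p.bN : ℂ)) :=
    (Complex.continuous_ofReal.tendsto _).comp h.re_lim
  have h2 : Tendsto (fun s => (((p.A s).im : ℝ) : ℂ) * Complex.I) atTop (𝓝 (((0 : ℝ) : ℂ) * Complex.I)) :=
    ((Complex.continuous_ofReal.tendsto _).comp h.im).mul_const _
  rw [Complex.ofReal_zero, zero_mul] at h2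
  have h3 := h1.add h2
  rw [add_zero] at h3
  refine h3.congr fun s => ?_
  apply Complex.ext <;> simp

/-- `u a / 2 - s` tends to `bN`. -/
theorem Pa.Ok.ua_lim (h : p.Ok) : Tendsto (fun s => p.u s * p.a s / 2 - s) atTop (𝓝 p.bN) := by
  have h1 : Tendsto (fun s => (p.u s * Real.sqrt (p.a s) / 2 - 1) * (Real.sqrt (p.a s) - s)) atTop
      (𝓝 ((1 - 1) * p.bN)) := ((w6_rho_lim h).sub_const 1).mul h.lim
  rw [sub_self, zero_mul] at h1
  have h2 := (h.lim.add h.lim1).add h1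
  rw [add_zero, add_zero] at h2
  refine h2.congr' ?_
  filter_upwards [eventually_gt_atTop 0] with s hs
  have ha := h.a_pos s hs.le
  have hrr : Real.sqrt (p.a s) * Real.sqrt (p.a s) = p.a s := Real.mul_self_sqrt ha.le
  have h3 : p.u s * p.a s = p.u s * (Real.sqrt (p.a s) * Real.sqrt (p.a s)) := by rw [hrr]
  rw [h3]
  ring

end H17S
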