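import Pool.Agent.Lib.H17S.W3
import Pool.Agent.Lib.H17S.W6

set_option autoImplicit false

/-!
Chunk W7 (M). The improper integrals `vv`, `cA`, `cB`.
* `dec`: `c (1+s) <= r <= P + s`, `|ρ| >= r`, `g <= 1`, `0 <= K <= Ki`: `|lam| <= |M|/r^3`, `|lam1| <= 3|M|/r^4`, `|lamX| <= (3/2) Ki |M| /r^4`.
* `w7_ftc`: for `f : ℝ → ℂ` continuous on `[0,∞)` with `‖f s‖ <= C/(1+s)^2`: `f` is integrable on `[s,∞)` for `s >= 0`, `s ↦ ∫_s^∞ f` is continuous on `[0,∞)`, has the derivative `- f s` for `s > 0`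
  (`∫_s^∞ = ∫_0^∞ - ∫_0^s`: `intervalIntegral.integral_interval_sub_left`, `integral_Ioi ...`, FTC; extend `f` continuously by `f (max s 0)` if useful) and `‖∫_s^∞ f‖ <= C/(1+s)`. More generally
  `‖f s‖ <= C/(1+s)^(k+2)` gives `‖∫_s^∞ f‖ <= C/(1+s)^(k+1)`.
* All integrands are continuous on `[0,∞)` (`lam`, `lam1`, `lamX` are continuous functions of `r, K`, `r > 0`).
-/

open MeasureTheory Filter Topology Set
open scoped ContDiff ComplexConjugate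

namespace H17S

variable {M : Mo} {p : Pa}

theorem w7_rho (N r : ℝ) (hr : 0 < r) : r ≤ ‖rho N r‖ := by
  have h := Complex.abs_re_le_norm (rho N r)
  have h2 : (rho N r).re = r := by simp [rho]
  rw [h2, abs_of_pos hr] at h
  exact h

theorem w7_div {C c x : ℝ} (hC : 0 ≤ C) (hc : 0 < c) {s : ℝ} (hs : 0 ≤ s) (hx : c * (1 + s) ≤ x) (k : ℕ) :
    C / x ^ k ≤ C / c ^ k / (1 + s) ^ k := by
  rw [div_div, ← mul_pow]
  have h1 : 0 < c * (1 + s) := by positivity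
  gcongr

theorem Mo.Ok.dec (h : M.Ok) : ∃ C, 0 ≤ C ∧ ∀ s, 0 ≤ s → ‖M.lam s‖ ≤ C / (1 + s) ^ 3 ∧ ‖M.lam1 s‖ ≤ C / (1 + s) ^ 4 ∧
    ‖M.lamX s‖ ≤ C / (1 + s) ^ 4 ∧ ‖M.ac s‖ ≤ C / (1 + s) ^ 3 ∧ ‖M.aa s‖ ≤ C / (1 + s) ^ 4 := by
  obtain ⟨c, hc, hr⟩ := h.r_lower
  set m := ‖Mc M.P M.N‖ with hm
  have hm0 : 0 ≤ m := norm_nonneg _
  have hKi := h.Ki_pos
  have hX := h.X_nonneg
  set C1 := m / c ^ 3 with hC1
  set C2 := 3 * m / c ^ 4 with hC2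
  set C3 := M.Ki * C2 with hC3
  have h1 : 0 ≤ C1 := by positivity
  have h2 : 0 ≤ C2 := by positivity
  have h3 : 0 ≤ C3 := by positivity
  refine ⟨C1 + C2 + C3 + M.X * C3, by positivity, fun s hs => ?_⟩
  have hs1 : (0 : ℝ) < 1 + s := by linarith
  have hrs := hr s hs
  have hr0 := h.r_pos hs
  have hrho : c * (1 + s) ≤ ‖rho M.N (M.r s)‖ := hrs.trans (w7_rho _ _ hr0)
  have hl : ‖M.lam s‖ ≤ C1 / (1 + s) ^ 3 := by
    rw [Mo.lam, lamr, norm_div, norm_neg, norm_pow]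
    exact w7_div hm0 hc hs hrho 3
  have hl1 : ‖M.lam1 s‖ ≤ C2 / (1 + s) ^ 4 := by
    rw [Mo.lam1, lamr1, norm_mul, norm_div, norm_mul, norm_pow, Complex.norm_real, Real.norm_eq_abs,
      abs_of_pos (h.g_pos hs)]
    have h4 : ‖(3 : ℂ)‖ = 3 := by simp
    rw [h4]
    have h5 := w7_div (C := 3 * m) (by positivity) hc hs hrho 4
    have h6 : 0 ≤ 3 * m / ‖rho M.N (M.r s)‖ ^ 4 := by positivity
    have h7 := h.g_le hs
    calc 3 * ‖Mc M.P M.N‖ / ‖rho M.N (M.r s)‖ ^ 4 * M.g s ≤ 3 * ‖Mc M.P M.N‖ / ‖rho M.N (M.r s)‖ ^ 4 * 1 := by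
          gcongr
      _ ≤ _ := by rw [mul_one]; exact h5
  have hlX : ‖M.lamX s‖ ≤ C3 / (1 + s) ^ 4 := by
    rw [Mo.lamX_eq, norm_mul, norm_mul, Complex.norm_real, Real.norm_eq_abs, abs_of_nonneg (h.K_nonneg hs)]
    have h4 : ‖(-(1 / 2) : ℂ)‖ = 1 / 2 := by rw [norm_neg]; simp
    rw [h4]
    have h5 := (h.K_lt hs).le
    have h6 := h.K_nonneg hs
    calc 1 / 2 * M.K s * ‖M.lam1 s‖ ≤ 1 * M.Ki * (C2 / (1 + s) ^ 4) := by
          gcongr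
          norm_num
      _ = _ := by rw [hC3]; ring
  have h43 : ∀ C : ℝ, 0 ≤ C → C / (1 + s) ^ 4 ≤ C / (1 + s) ^ 3 := by
    intro C hC
    apply div_le_div_of_nonneg_left hC (by positivity)
    exact pow_le_pow_right₀ (by linarith) (by norm_num)
  have haa : ‖M.aa s‖ ≤ M.X * C3 / (1 + s) ^ 4 := by
    rw [Mo.aa, norm_mul, Complex.norm_real, Real.norm_eq_abs, abs_of_nonneg hX]
    calc M.X * ‖M.lamX s‖ ≤ M.X * (C3 / (1 + s) ^ 4) := by gcongr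
      _ = _ := by ring
  refine ⟨hl.trans ?_, hl1.trans ?_, hlX.trans ?_, ?_, haa.trans ?_⟩
  · gcongr
    nlinarith [mul_nonneg hX h3]
  · gcongr
    nlinarith [mul_nonneg hX h3]
  · gcongr
    nlinarith [mul_nonneg hX h3]
  · have h7 : M.ac s = M.lam s + M.aa s := rfl
    rw [h7]
    refine (norm_add_le _ _).trans ?_
    calc ‖M.lam s‖ + ‖M.aa s‖ ≤ C1 / (1 + s) ^ 3 + M.X * C3 / (1 + s) ^ 3 :=
          add_le_add hl (haa.trans (h43 _ (by positivity)))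
      _ = (C1 + M.X * C3) / (1 + s) ^ 3 := by ring
      _ ≤ _ := by
          gcongr
          linarith
  · gcongr
    linarith

theorem w7_rho_ne (N r : ℝ) (hr : 0 < r) : rho N r ≠ 0 := by
  intro h0
  have h := w7_rho N r hr
  rw [h0, norm_zero] at h
  linarith

theorem w7_cont (h : M.Ok) : ContinuousOn M.lam (Ici 0) ∧ ContinuousOn M.lam1 (Ici 0) ∧ ContinuousOn M.lamX (Ici 0) := by
  have hrho : ContinuousOn (fun s => rho M.N (M.r s)) (Ici 0) :=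
    (Complex.continuous_ofReal.comp_continuousOn h.r_cont).add continuousOn_const
  have hne : ∀ s ∈ Ici (0 : ℝ), rho M.N (M.r s) ≠ 0 := fun s hs => w7_rho_ne _ _ (h.r_pos hs)
  have hg : ContinuousOn M.g (Ici 0) := by
    have hq : ContinuousOn (fun s => qq M.N (M.r s) ^ 2) (Ici 0) :=
      ((h.r_cont.pow 2).add continuousOn_const).pow 2
    have hn : ContinuousOn (fun s => M.r s ^ 2 - 2 * mm M.P M.N * M.r s - M.N ^ 2) (Ici 0) :=
      ((h.r_cont.pow 2).sub (continuousOn_const.mul h.r_cont)).sub continuousOn_const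
    have hG : ContinuousOn (fun s => GG M.P M.N M.X (M.r s)) (Ici 0) :=
      continuousOn_const.sub (continuousOn_const.mul (hn.div hq fun s hs => pow_ne_zero 2 (h.q_pos hs).ne'))
    exact Real.continuous_sqrt.comp_continuousOn hG
  have hl1 : ContinuousOn M.lam1 (Ici 0) :=
    (continuousOn_const.div (hrho.pow 4) fun s hs => pow_ne_zero 4 (hne s hs)).mul
      (Complex.continuous_ofReal.comp_continuousOn hg)
  refine ⟨continuousOn_const.div (hrho.pow 3) fun s hs => pow_ne_zero 3 (hne s hs), hl1, ?_⟩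
  have h2 : M.lamX = fun s => - (1 / 2) * (M.K s : ℂ) * M.lam1 s := funext fun s => M.lamX_eq s
  rw [h2]
  exact (continuousOn_const.mul (Complex.continuous_ofReal.comp_continuousOn h.K_cont)).mul hl1

theorem w7_prim (C : ℝ) (k : ℕ) (x : ℝ) (hx : 0 ≤ x) :
    HasDerivAt (fun t : ℝ => - (C / ((k + 1 : ℝ) * (1 + t) ^ (k + 1)))) (C / (1 + x) ^ (k + 2)) x := by
  have hx1 : (1 + x) ≠ 0 := by positivity
  have hk : (k + 1 : ℝ) ≠ 0 := by positivity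
  have h1 : HasDerivAt (fun t : ℝ => (1 + t) ^ (k + 1)) (((k + 1 : ℕ) : ℝ) * (1 + x) ^ k * 1) x := by
    have h0 : HasDerivAt (fun t : ℝ => 1 + t) 1 x := by
      simpa using (hasDerivAt_id x).const_add 1
    exact h0.pow (k + 1)
  have h2 := ((h1.const_mul (k + 1 : ℝ)).inv (by positivity)).const_mul C |>.neg
  refine (h2.congr_deriv ?_).congr_of_eventuallyEq (Eventually.of_forall fun t => ?_)
  · push_cast
    field_simp
    ring
  · simp only [div_eq_mul_inv]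
    rfl

theorem w7_tend (C : ℝ) (k : ℕ) :
    Tendsto (fun t : ℝ => - (C / ((k + 1 : ℝ) * (1 + t) ^ (k + 1)))) atTop (𝓝 0) := by
  have h1 : Tendsto (fun t : ℝ => (k + 1 : ℝ) * (1 + t) ^ (k + 1)) atTop atTop := by
    apply Tendsto.const_mul_atTop (by positivity)
    exact (tendsto_pow_atTop (by omega)).comp (tendsto_atTop_add_const_left _ 1 tendsto_id)
  have h2 := (h1.const_div_atTop C).neg
  rw [neg_zero] at h2
  exact h2

theorem w7_gint {C : ℝ} (hC : 0 ≤ C) (k : ℕ) {s : ℝ} (hs : 0 ≤ s) :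
    IntegrableOn (fun t : ℝ => C / (1 + t) ^ (k + 2)) (Ioi s) ∧
    ∫ t in Ioi s, C / (1 + t) ^ (k + 2) = C / ((k + 1 : ℝ) * (1 + s) ^ (k + 1)) := by
  have hd : ∀ x ∈ Ici s, HasDerivAt (fun t : ℝ => - (C / ((k + 1 : ℝ) * (1 + t) ^ (k + 1)))) (C / (1 + x) ^ (k + 2)) x :=
    fun x hx => w7_prim C k x (hs.trans hx)
  have hn : ∀ x ∈ Ioi s, 0 ≤ C / (1 + x) ^ (k + 2) := by
    intro x hx
    have : 0 < x := lt_of_le_of_lt hs hx
    positivity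
  refine ⟨integrableOn_Ioi_deriv_of_nonneg' hd hn (w7_tend C k), ?_⟩
  rw [integral_Ioi_of_hasDerivAt_of_nonneg' hd hn (w7_tend C k)]
  ring

theorem w7_C {f : ℝ → ℂ} {C : ℝ} {k : ℕ} (hb : ∀ s, 0 ≤ s → ‖f s‖ ≤ C / (1 + s) ^ k) : 0 ≤ C := by
  have h := (norm_nonneg _).trans (hb 0 le_rfl)
  simpa using h

theorem w7_int {f : ℝ → ℂ} {C : ℝ} (hf : ContinuousOn f (Ici 0)) (hb : ∀ s, 0 ≤ s → ‖f s‖ ≤ C / (1 + s) ^ 2) {s : ℝ} (hs : 0 ≤ s) :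
    IntegrableOn f (Ioi s) := by
  have hC := w7_C hb
  have h1 : IntegrableOn (fun t : ℝ => C / (1 + t) ^ 2) (Ioi s) := (w7_gint hC 0 hs).1
  refine Integrable.mono' h1 ?_ ?_
  · exact (hf.mono fun x (hx : s < x) => hs.trans hx.le).aestronglyMeasurable measurableSet_Ioi
  · refine (ae_restrict_mem measurableSet_Ioi).mono fun x hx => ?_
    exact hb x (hs.trans (le_of_lt hx))

theorem w7_split {f : ℝ → ℂ} {C : ℝ} (hf : ContinuousOn f (Ici 0)) (hb : ∀ s, 0 ≤ s → ‖f s‖ ≤ C / (1 + s) ^ 2) {s : ℝ} (hs : 0 ≤ s) :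
    ∫ t in Ioi s, f t = (∫ t in Ioi (0 : ℝ), f t) - ∫ t in (0 : ℝ)..s, f (max t 0) := by
  have h1 := intervalIntegral.integral_interval_add_Ioi (w7_int hf hb le_rfl) (w7_int hf hb hs)
  have h2 : ∫ t in (0 : ℝ)..s, f (max t 0) = ∫ t in (0 : ℝ)..s, f t := by
    apply intervalIntegral.integral_congr
    intro t ht
    rw [uIcc_of_le hs] at ht
    simp only [max_eq_left ht.1]
  rw [h2, ← h1]
  ring

theorem w7_maxc {f : ℝ → ℂ} (hf : ContinuousOn f (Ici 0)) : Continuous (fun t => f (max t 0)) := by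
  apply hf.comp_continuous (by fun_prop)
  intro x
  exact le_max_right x 0

theorem w7_cts {f : ℝ → ℂ} {C : ℝ} (hf : ContinuousOn f (Ici 0)) (hb : ∀ s, 0 ≤ s → ‖f s‖ ≤ C / (1 + s) ^ 2) :
    ContinuousOn (fun s => ∫ t in Ioi s, f t) (Ici 0) := by
  have h1 : Continuous (fun s => (∫ t in Ioi (0 : ℝ), f t) - ∫ t in (0 : ℝ)..s, f (max t 0)) := by
    apply Continuous.sub continuous_const
    apply intervalIntegral.continuous_primitive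
    intro a b
    exact (w7_maxc hf).intervalIntegrable a b
  exact h1.continuousOn.congr fun s hs => w7_split hf hb hs

theorem w7_der {f : ℝ → ℂ} {C : ℝ} (hf : ContinuousOn f (Ici 0)) (hb : ∀ s, 0 ≤ s → ‖f s‖ ≤ C / (1 + s) ^ 2) {s : ℝ} (hs : 0 < s) :
    HasDerivAt (fun s => ∫ t in Ioi s, f t) (- f s) s := by
  have h1 : HasDerivAt (fun s => ∫ t in (0 : ℝ)..s, f (max t 0)) (f (max s 0)) s :=
    ((w7_maxc hf).integral_hasStrictDerivAt 0 s).hasDerivAt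
  rw [max_eq_left hs.le] at h1
  have h2 := h1.const_sub (∫ t in Ioi (0 : ℝ), f t)
  refine h2.congr_of_eventuallyEq ?_
  filter_upwards [lt_mem_nhds hs] with x hx
  exact w7_split hf hb hx.le

theorem w7_bound {f : ℝ → ℂ} {C : ℝ} {k : ℕ} (hb : ∀ s, 0 ≤ s → ‖f s‖ ≤ C / (1 + s) ^ (k + 2)) {s : ℝ} (hs : 0 ≤ s) :
    ‖∫ t in Ioi s, f t‖ ≤ C / (1 + s) ^ (k + 1) := by
  have hC := w7_C hb
  obtain ⟨h1, h2⟩ := w7_gint hC k hs
  have h3 : ‖∫ t in Ioi s, f t‖ ≤ ∫ t in Ioi s, C / (1 + t) ^ (k + 2) := by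
    apply norm_integral_le_of_norm_le h1
    refine (ae_restrict_mem measurableSet_Ioi).mono fun x hx => ?_
    exact hb x (hs.trans (le_of_lt hx))
  rw [h2] at h3
  refine h3.trans ?_
  apply div_le_div_of_nonneg_left hC (by positivity)
  have h4 : 0 < (1 + s) ^ (k + 1) := by positivity
  have h5 : (0 : ℝ) ≤ k := by positivity
  nlinarith

theorem w7_mul {x a : ℂ} {C D s : ℝ} (hs : 0 ≤ s) (k : ℕ) (hx : ‖x‖ ≤ C / (1 + s) ^ (k + 1)) (ha : ‖a‖ ≤ D * (1 + s)) :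
    ‖x * a‖ ≤ C * D / (1 + s) ^ k := by
  rw [norm_mul]
  have hs1 : 0 < 1 + s := by linarith
  have hC : 0 ≤ C / (1 + s) ^ (k + 1) := (norm_nonneg _).trans hx
  calc ‖x‖ * ‖a‖ ≤ C / (1 + s) ^ (k + 1) * (D * (1 + s)) := mul_le_mul hx ha (norm_nonneg _) hC
    _ = C * D / (1 + s) ^ k := by
      rw [pow_succ]
      field_simp

theorem w7_mul' {x a : ℂ} {C D s : ℝ} (hs : 0 ≤ s) (k : ℕ) (hx : ‖x‖ ≤ C / (1 + s) ^ k) (ha : ‖a‖ ≤ D) :
    ‖x * a‖ ≤ C * D / (1 + s) ^ k := by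
  rw [norm_mul]
  have hs1 : 0 < 1 + s := by linarith
  have hC : 0 ≤ C / (1 + s) ^ k := (norm_nonneg _).trans hx
  calc ‖x‖ * ‖a‖ ≤ C / (1 + s) ^ k * D := mul_le_mul hx ha (norm_nonneg _) hC
    _ = C * D / (1 + s) ^ k := by ring

theorem w7_pow {C s : ℝ} (hC : 0 ≤ C) (hs : 0 ≤ s) (k : ℕ) : C / (1 + s) ^ (k + 1) ≤ C / (1 + s) ^ k := by
  apply div_le_div_of_nonneg_left hC (by positivity)
  exact pow_le_pow_right₀ (by linarith) (by omega)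

theorem w7_conj {f : ℝ → ℂ} {S : Set ℝ} (hf : ContinuousOn f S) : ContinuousOn (fun t => conj (f t)) S :=
  Complex.continuous_conj.comp_continuousOn hf

/-- The integrands of `vv`, `cA`, `cB`. -/
theorem w7_vi (h : M.Ok) (hp : p.Ok) : ContinuousOn (fun t => conj (M.lam1 t) * p.A t - M.lam1 t * conj (p.B t)) (Ici 0) ∧
    ∃ C, 0 ≤ C ∧ ∀ s, 0 ≤ s → ‖conj (M.lam1 s) * p.A s - M.lam1 s * conj (p.B s)‖ ≤ C / (1 + s) ^ 3 := by
  obtain ⟨hc1, hc2, hc3⟩ := w7_cont h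
  refine ⟨((w7_conj hc2).mul hp.cA).sub (hc2.mul (w7_conj hp.cB)), ?_⟩
  obtain ⟨C, hC, hd⟩ := h.dec
  obtain ⟨D, hD⟩ := hp.AB_bdd
  have hD0 : 0 ≤ D := (norm_nonneg _).trans (hD 0 le_rfl).2.1
  refine ⟨C * D + C * D, by positivity, fun s hs => ?_⟩
  obtain ⟨h1, h2, h3, h4, h5⟩ := hd s hs
  obtain ⟨k1, k2, -⟩ := hD s hs
  refine (norm_sub_le _ _).trans ?_
  rw [add_div]
  refine add_le_add ?_ ?_
  · exact w7_mul hs 3 (by rw [Complex.norm_conj]; exact h2) k1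
  · exact w7_mul' hs 3 (h2.trans (w7_pow hC hs 3)) (by rw [Complex.norm_conj]; exact k2)

theorem w7_acc (h : M.Ok) : ContinuousOn M.ac (Ici 0) ∧ ContinuousOn M.aa (Ici 0) := by
  obtain ⟨hc1, hc2, hc3⟩ := w7_cont h
  exact ⟨hc1.add (continuousOn_const.mul hc3), continuousOn_const.mul hc3⟩

theorem w7_ai (h : M.Ok) (hp : p.Ok) : ContinuousOn (fun t => conj (M.ac t) * p.A t - M.aa t * conj (p.B t)) (Ici 0) ∧
    ∃ C, 0 ≤ C ∧ ∀ s, 0 ≤ s → ‖conj (M.ac s) * p.A s - M.aa s * conj (p.B s)‖ ≤ C / (1 + s) ^ 2 := by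
  obtain ⟨hc1, hc2⟩ := w7_acc h
  refine ⟨((w7_conj hc1).mul hp.cA).sub (hc2.mul (w7_conj hp.cB)), ?_⟩
  obtain ⟨C, hC, hd⟩ := h.dec
  obtain ⟨D, hD⟩ := hp.AB_bdd
  have hD0 : 0 ≤ D := (norm_nonneg _).trans (hD 0 le_rfl).2.1
  refine ⟨C * D + C * D, by positivity, fun s hs => ?_⟩
  obtain ⟨h1, h2, h3, h4, h5⟩ := hd s hs
  obtain ⟨k1, k2, -⟩ := hD s hs
  refine (norm_sub_le _ _).trans ?_
  rw [add_div]
  refine add_le_add ?_ ?_
  · exact w7_mul hs 2 (by rw [Complex.norm_conj]; exact h4) k1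
  · exact w7_mul' hs 2 (h5.trans ((w7_pow hC hs 3).trans (w7_pow hC hs 2))) (by rw [Complex.norm_conj]; exact k2)

theorem w7_bi (h : M.Ok) (hp : p.Ok) : ContinuousOn (fun t => conj (M.ac t) * p.B t - M.aa t * conj (p.A t)) (Ici 0) ∧
    ∃ C, 0 ≤ C ∧ ∀ s, 0 ≤ s → ‖conj (M.ac s) * p.B s - M.aa s * conj (p.A s)‖ ≤ C / (1 + s) ^ 3 := by
  obtain ⟨hc1, hc2⟩ := w7_acc h
  refine ⟨((w7_conj hc1).mul hp.cB).sub (hc2.mul (w7_conj hp.cA)), ?_⟩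
  obtain ⟨C, hC, hd⟩ := h.dec
  obtain ⟨D, hD⟩ := hp.AB_bdd
  have hD0 : 0 ≤ D := (norm_nonneg _).trans (hD 0 le_rfl).2.1
  refine ⟨C * D + C * D, by positivity, fun s hs => ?_⟩
  obtain ⟨h1, h2, h3, h4, h5⟩ := hd s hs
  obtain ⟨k1, k2, -⟩ := hD s hs
  refine (norm_sub_le _ _).trans ?_
  rw [add_div]
  refine add_le_add ?_ ?_
  · exact w7_mul' hs 3 (by rw [Complex.norm_conj]; exact h4) k2
  · exact w7_mul hs 3 h5 (by rw [Complex.norm_conj]; exact k1)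

theorem w7_lift {f : ℝ → ℂ} (hf : ∃ C, 0 ≤ C ∧ ∀ s, 0 ≤ s → ‖f s‖ ≤ C / (1 + s) ^ 3) :
    ∃ C, 0 ≤ C ∧ ∀ s, 0 ≤ s → ‖f s‖ ≤ C / (1 + s) ^ 2 := by
  obtain ⟨C, hC, hb⟩ := hf
  exact ⟨C, hC, fun s hs => (hb s hs).trans (w7_pow hC hs 2)⟩

theorem vv_d (h : M.Ok) (hp : p.Ok) {s : ℝ} (hs : 0 < s) :
    HasDerivAt (vv M p) (- (conj (M.lam1 s) * p.A s - M.lam1 s * conj (p.B s))) s := by
  obtain ⟨hc, hb⟩ := w7_vi h hp
  obtain ⟨C, hC, hb⟩ := w7_lift hb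
  exact w7_der hc hb hs

theorem cA_d (h : M.Ok) (hp : p.Ok) {s : ℝ} (hs : 0 < s) :
    HasDerivAt (cA M p) (-4 * (conj (M.ac s) * p.A s - M.aa s * conj (p.B s))) s := by
  obtain ⟨hc, C, hC, hb⟩ := w7_ai h hp
  have h1 := ((w7_der hc hb hs).const_mul (4 : ℂ)).const_add (2 : ℂ)
  refine h1.congr_deriv ?_
  ring

theorem cB_d (h : M.Ok) (hp : p.Ok) {s : ℝ} (hs : 0 < s) :
    HasDerivAt (cB M p) (-4 * (conj (M.ac s) * p.B s - M.aa s * conj (p.A s))) s := by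
  obtain ⟨hc, hb⟩ := w7_bi h hp
  obtain ⟨C, hC, hb⟩ := w7_lift hb
  have h1 := (w7_der hc hb hs).const_mul (4 : ℂ)
  refine h1.congr_deriv ?_
  ring

theorem vv_cont (h : M.Ok) (hp : p.Ok) : ContinuousOn (vv M p) (Ici 0) := by
  obtain ⟨hc, hb⟩ := w7_vi h hp
  obtain ⟨C, hC, hb⟩ := w7_lift hb
  exact w7_cts hc hb

theorem cA_cont (h : M.Ok) (hp : p.Ok) : ContinuousOn (cA M p) (Ici 0) := by
  obtain ⟨hc, C, hC, hb⟩ := w7_ai h hp
  exact continuousOn_const.add (continuousOn_const.mul (w7_cts hc hb))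

theorem cB_cont (h : M.Ok) (hp : p.Ok) : ContinuousOn (cB M p) (Ici 0) := by
  obtain ⟨hc, hb⟩ := w7_bi h hp
  obtain ⟨C, hC, hb⟩ := w7_lift hb
  exact continuousOn_const.mul (w7_cts hc hb)

theorem vv_bound (h : M.Ok) (hp : p.Ok) : ∃ C, 0 ≤ C ∧ ∀ s, 0 ≤ s → ‖vv M p s‖ ≤ C / (1 + s) ^ 2 := by
  obtain ⟨hc, C, hC, hb⟩ := w7_vi h hp
  exact ⟨C, hC, fun s hs => w7_bound (k := 1) hb hs⟩

theorem cB_bound (h : M.Ok) (hp : p.Ok) : ∃ C, 0 ≤ C ∧ ∀ s, 0 ≤ s → ‖cB M p s‖ ≤ C / (1 + s) ^ 2 := by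
  obtain ⟨hc, C, hC, hb⟩ := w7_bi h hp
  refine ⟨4 * C, by positivity, fun s hs => ?_⟩
  rw [cB, norm_mul]
  have h4 : ‖(4 : ℂ)‖ = 4 := by simp
  rw [h4, mul_div_assoc]
  exact mul_le_mul_of_nonneg_left (w7_bound (k := 1) hb hs) (by norm_num)

end H17S
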