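import Pool.Agent.Lib.H17S.W7

set_option autoImplicit false

/-!
Chunk W8 (M). The cost. `|costI s| <= C/(1+s)^4`: `a |lam|^2 <= C (1+s)^2/(1+s)^6`, `|vv| |lam| |A| <= C (1+s)^(-2-3+1)`. Continuity on `[0,∞)`, integrability, derivative of `cost` (real version of `w7_ftc`;
apply `w7_der` to the complexification or repeat it), `cost -> 0`.
-/

open MeasureTheory Filter Topology Set
open scoped ContDiff ComplexConjugate

namespace H17S

variable {M : Mo} {p : Pa}

theorem costI_cont (h : M.Ok) (hp : p.Ok) : ContinuousOn (costI M p) (Ici 0) := by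
  have h1 := (w7_cont h).1
  have h2 := vv_cont h hp
  have h3 := hp.a_cont
  have hA := hp.cA
  have hB := hp.cB
  have hcl : ContinuousOn (fun s => conj (M.lam s)) (Ici 0) := Complex.continuous_conj.comp_continuousOn h1
  have hcv : ContinuousOn (fun s => conj (vv M p s)) (Ici 0) := Complex.continuous_conj.comp_continuousOn h2
  have h4 : ContinuousOn (fun s => 6 * p.a s * ‖M.lam s‖ ^ 2) (Ici 0) :=
    (continuousOn_const.mul h3).mul (h1.norm.pow 2)
  have h5 : ContinuousOn (fun s => (conj (vv M p s) * conj (M.lam s) * p.A s + vv M p s * conj (M.lam s) * p.B s).re) (Ici 0) :=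
    Complex.continuous_re.comp_continuousOn (((hcv.mul hcl).mul hA).add ((h2.mul hcl).mul hB))
  exact h4.add (continuousOn_const.mul h5)

theorem costI_bound (h : M.Ok) (hp : p.Ok) : ∃ C, 0 ≤ C ∧ ∀ s, 0 ≤ s → |costI M p s| ≤ C / (1 + s) ^ 4 := by
  obtain ⟨C1, hC1, h1⟩ := h.dec
  obtain ⟨C2, hC2, h2⟩ := vv_bound h hp
  obtain ⟨C3, h3⟩ := hp.AB_bdd
  have hC3 : 0 ≤ C3 := (norm_nonneg _).trans (h3 0 le_rfl).2.1
  refine ⟨6 * C3 * C1 ^ 2 + 16 * (C1 * C2 * C3), by positivity, ?_⟩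
  intro s hs
  have hs1 : (1 : ℝ) ≤ 1 + s := by linarith
  have hs0 : (0 : ℝ) < 1 + s := by linarith
  obtain ⟨g1, -⟩ := h1 s hs
  have g2 := h2 s hs
  obtain ⟨g3, g4, g5⟩ := h3 s hs
  have hB' : ‖p.B s‖ ≤ C3 * (1 + s) := g4.trans (by nlinarith)
  have ha := (hp.a_pos s hs).le
  have e1 : |6 * p.a s * ‖M.lam s‖ ^ 2| ≤ 6 * C3 * C1 ^ 2 / (1 + s) ^ 4 := by
    rw [abs_of_nonneg (by positivity)]
    calc 6 * p.a s * ‖M.lam s‖ ^ 2 ≤ 6 * (C3 * (1 + s) ^ 2) * (C1 / (1 + s) ^ 3) ^ 2 := by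
          gcongr
      _ = 6 * C3 * C1 ^ 2 / (1 + s) ^ 4 := by
          field_simp
  have e2 : |8 * (conj (vv M p s) * conj (M.lam s) * p.A s + vv M p s * conj (M.lam s) * p.B s).re| ≤
      16 * (C1 * C2 * C3) / (1 + s) ^ 4 := by
    rw [abs_mul, abs_of_pos (show (0 : ℝ) < 8 by norm_num)]
    have e3 := Complex.abs_re_le_norm (conj (vv M p s) * conj (M.lam s) * p.A s + vv M p s * conj (M.lam s) * p.B s)
    have e4 : ‖conj (vv M p s) * conj (M.lam s) * p.A s + vv M p s * conj (M.lam s) * p.B s‖ ≤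
        ‖vv M p s‖ * ‖M.lam s‖ * ‖p.A s‖ + ‖vv M p s‖ * ‖M.lam s‖ * ‖p.B s‖ := by
      refine (norm_add_le _ _).trans (le_of_eq ?_)
      simp only [norm_mul, RCLike.norm_conj]
    have e5 : ‖vv M p s‖ * ‖M.lam s‖ * ‖p.A s‖ ≤ C2 / (1 + s) ^ 2 * (C1 / (1 + s) ^ 3) * (C3 * (1 + s)) := by
      gcongr
    have e6 : ‖vv M p s‖ * ‖M.lam s‖ * ‖p.B s‖ ≤ C2 / (1 + s) ^ 2 * (C1 / (1 + s) ^ 3) * (C3 * (1 + s)) := by
      gcongr
    calc 8 * |(conj (vv M p s) * conj (M.lam s) * p.A s + vv M p s * conj (M.lam s) * p.B s).re| ≤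
          8 * (2 * (C2 / (1 + s) ^ 2 * (C1 / (1 + s) ^ 3) * (C3 * (1 + s)))) := by
          gcongr
          linarith
      _ = _ := by
          field_simp
          ring
  calc |costI M p s| ≤ |6 * p.a s * ‖M.lam s‖ ^ 2| +
        |8 * (conj (vv M p s) * conj (M.lam s) * p.A s + vv M p s * conj (M.lam s) * p.B s).re| := abs_add_le _ _
    _ ≤ 6 * C3 * C1 ^ 2 / (1 + s) ^ 4 + 16 * (C1 * C2 * C3) / (1 + s) ^ 4 := add_le_add e1 e2
    _ = _ := by ring

theorem w8_cx (h : M.Ok) (hp : p.Ok) : ContinuousOn (fun s => (costI M p s : ℂ)) (Ici 0) ∧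
    ∃ C, ∀ s, 0 ≤ s → ‖(costI M p s : ℂ)‖ ≤ C / (1 + s) ^ 2 := by
  refine ⟨Complex.continuous_ofReal.comp_continuousOn (costI_cont h hp), ?_⟩
  obtain ⟨C, hC, h1⟩ := costI_bound h hp
  refine ⟨C, fun s hs => ?_⟩
  rw [Complex.norm_real, Real.norm_eq_abs]
  refine (h1 s hs).trans ?_
  have hs1 : (1 : ℝ) ≤ 1 + s := by linarith
  apply div_le_div_of_nonneg_left hC (by positivity)
  exact pow_le_pow_right₀ hs1 (by norm_num)

theorem costI_int (h : M.Ok) (hp : p.Ok) {s : ℝ} (hs : 0 ≤ s) : IntegrableOn (costI M p) (Ioi s) := by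
  obtain ⟨h1, C, h2⟩ := w8_cx h hp
  have h3 := (w7_int h1 h2 hs).re
  have h4 : (fun x => RCLike.re (costI M p x : ℂ)) = costI M p := by
    funext x
    simp
  rw [h4] at h3
  exact h3

theorem w8_re (s : ℝ) : (∫ t in Ioi s, (costI M p t : ℂ)).re = ∫ t in Ioi s, costI M p t := by
  rw [integral_complex_ofReal, Complex.ofReal_re]

theorem cost_d (h : M.Ok) (hp : p.Ok) {s : ℝ} (hs : 0 < s) : HasDerivAt (cost M p) (M.X * costI M p s) s := by
  obtain ⟨h1, C, h2⟩ := w8_cx h hp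
  have h3 := w7_der h1 h2 hs
  have h4 := Complex.reCLM.hasFDerivAt.comp_hasDerivAt s h3
  have h5 : HasDerivAt (fun s => ∫ t in Ioi s, costI M p t) (- costI M p s) s := by
    have h6 : (fun s => ∫ t in Ioi s, costI M p t) = (Complex.reCLM ∘ fun s => ∫ t in Ioi s, (costI M p t : ℂ)) := by
      funext x
      simp only [Function.comp_apply, Complex.reCLM_apply]
      exact (w8_re x).symm
    rw [h6]
    refine h4.congr_deriv ?_
    simp
  refine (h5.const_mul (- M.X)).congr_deriv ?_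
  ring

theorem cost_cont (h : M.Ok) (hp : p.Ok) : ContinuousOn (cost M p) (Ici 0) := by
  obtain ⟨h1, C, h2⟩ := w8_cx h hp
  have h3 := Complex.continuous_re.comp_continuousOn (w7_cts h1 h2)
  have h6 : (fun s => ∫ t in Ioi s, costI M p t) = (Complex.re ∘ fun s => ∫ t in Ioi s, (costI M p t : ℂ)) := by
    funext x
    exact (w8_re x).symm
  have h7 : ContinuousOn (fun s => ∫ t in Ioi s, costI M p t) (Ici 0) := by
    rw [h6]
    exact h3
  exact continuousOn_const.mul h7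

theorem cost_lim (h : M.Ok) (hp : p.Ok) : Tendsto (cost M p) atTop (𝓝 0) := by
  obtain ⟨h1, C, h2⟩ := w8_cx h hp
  have h3 : Tendsto (fun s : ℝ => C / (1 + s) ^ (0 + 1)) atTop (𝓝 0) := by
    simp only [zero_add, pow_one]
    exact tendsto_const_nhds.div_atTop (tendsto_atTop_add_const_left _ _ tendsto_id)
  have h4 : Tendsto (fun s : ℝ => ∫ t in Ioi s, costI M p t) atTop (𝓝 0) := by
    apply squeeze_zero_norm' _ h3
    filter_upwards [eventually_ge_atTop (0 : ℝ)] with s hs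
    have h5 := w7_bound (f := fun s => (costI M p s : ℂ)) (C := C) (k := 0) (fun s hs => h2 s hs) hs
    rw [← w8_re, Real.norm_eq_abs]
    exact (Complex.abs_re_le_norm _).trans h5
  have h8 : Tendsto (fun s : ℝ => - M.X * ∫ t in Ioi s, costI M p t) atTop (𝓝 (- M.X * 0)) :=
    tendsto_const_nhds.mul h4
  rw [mul_zero] at h8
  exact h8

end H17S
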