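import Pool.Agent.Lib.H17S.W4
import Pool.Agent.Lib.H17S.W8

set_option autoImplicit false

/-!
Chunk W9 (M). The derivatives of `wA, wB, uA, uB`.
`wA' = cA' + conj(4 ac) A + conj E1 A1 = 4 aa conj B + conj E1 A1` (`cA_d`, `E1_d`) and `4 aa = - sig conj E` (`sigE`). Similarly `wB`.
`uA' = - X (conj lam1 A - lam1 conj B) - (4/ν)(conj ac A - aa conj B) + conj(X lam1 + 4 ac/ν) A + conj EE1 A1 = (X lam1 + 4 aa/ν) conj B + conj EE1 A1` (`vv_d`, `cA_d`, `EE1_d`) and
`X lam1 + 4 aa/ν = - sig conj EE` (`sigEE`). `uB' = X conj(conj lam1 A - lam1 conj B) + ...` similarly (the derivative of `conj (vv s)` is the conjugate of the derivative).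
-/

open MeasureTheory Filter Topology Set
open scoped ContDiff ComplexConjugate

namespace H17S

variable {M : Mo} {p : Pa}

theorem w9_conj {f : ℝ → ℂ} {f' : ℂ} {s : ℝ} (h : HasDerivAt f f' s) :
    HasDerivAt (fun t => conj (f t)) (conj f') s := h.star

theorem wA_d (h : M.Ok) (hp : p.Ok) {s : ℝ} (hs : 0 < s) :
    HasDerivAt (wA M p) (conj (M.E1 s) * p.A1 s - M.sig s * conj (M.E s) * conj (p.B s)) s := by
  have h1 := (cA_d h hp hs).add ((w9_conj (h.E1_d hs)).mul (hp.dA s hs))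
  refine h1.congr_deriv ?_
  rw [h.sigE hs.le]
  simp only [map_mul, map_ofNat]
  ring

theorem wB_d (h : M.Ok) (hp : p.Ok) {s : ℝ} (hs : 0 < s) :
    HasDerivAt (wB M p) (conj (M.E1 s) * p.B1 s - M.sig s * conj (M.E s) * conj (p.A s)) s := by
  have h1 := (cB_d h hp hs).add ((w9_conj (h.E1_d hs)).mul (hp.dB s hs))
  refine h1.congr_deriv ?_
  rw [h.sigE hs.le]
  simp only [map_mul, map_ofNat]
  ring

theorem uA_d (h : M.Ok) (hp : p.Ok) {s : ℝ} (hs : 0 < s) :
    HasDerivAt (uA M p) (conj (M.EE1 s) * p.A1 s - M.sig s * conj (M.EE s) * conj (p.B s)) s := by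
  have h1 := (((vv_d h hp hs).const_mul (M.X : ℂ)).add ((cA_d h hp hs).div_const (M.ν : ℂ))).add
    ((w9_conj (h.EE1_d hs)).mul (hp.dA s hs))
  refine h1.congr_deriv ?_
  rw [h.sigEE hs.le]
  simp only [map_add, map_mul, map_div₀, map_ofNat, Complex.conj_ofReal]
  ring

theorem uB_d (h : M.Ok) (hp : p.Ok) {s : ℝ} (hs : 0 < s) :
    HasDerivAt (uB M p) (conj (M.EE1 s) * p.B1 s - M.sig s * conj (M.EE s) * conj (p.A s)) s := by
  have h1 := (((w9_conj (vv_d h hp hs)).const_mul (-(M.X : ℂ))).add ((cB_d h hp hs).div_const (M.ν : ℂ))).add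
    ((w9_conj (h.EE1_d hs)).mul (hp.dB s hs))
  refine h1.congr_deriv ?_
  rw [h.sigEE hs.le]
  simp only [map_neg, map_sub, map_add, map_mul, map_div₀, map_ofNat, Complex.conj_ofReal,
    Complex.conj_conj]
  ring

end H17S
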